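import Mathlib

/-!
# [GT] MP_c1dca2_ag: function fields of one variable over an algebraically closed field

`C` is algebraically closed, `L / C` a function field of one variable (`FF C L`), `IsPl C O`: the
valuation ring `O` of `L` is a place of `L / C`, `IsOrd C O o`: `o` is the order at the place `O`.
-/

set_option autoImplicit false

open Polynomial

namespace GT

section defs

variable (C : Type) {L : Type} [Field C] [Field L] [Algebra C L]

/-- The places of `L / C`. -/
def IsPl (O : ValuationSubring L) : Prop := (∀ c : C, algebraMap C L c ∈ O) ∧ O ≠ ⊤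

variable (L) in
/-- `L / C` is a function field of one variable. -/
structure FF : Prop where
  fin : ∀ t : L, Transcendental C t → FiniteDimensional (IntermediateField.adjoin C {t}) L
  ex : ∃ t : L, Transcendental C t

/-- `o` is the order at the place `O` of `L / C`, with residue field `C`. -/
structure IsOrd (O : ValuationSubring L) (o : L → ℤ) : Prop where
  mul : ∀ a b, a ≠ 0 → b ≠ 0 → o (a * b) = o a + o b
  mem : ∀ a, a ≠ 0 → (a ∈ O ↔ 0 ≤ o a)
  surj : ∃ a, a ≠ 0 ∧ o a = 1
  res : ∀ a ∈ O, ∃ c : C, a - algebraMap C L c = 0 ∨ 0 < o (a - algebraMap C L c)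

/-- The integral closure of `C[t]` in `L`. -/
abbrev Rt (t : L) : Subalgebra (Algebra.adjoin C {t}) L := integralClosure (Algebra.adjoin C {t}) L

/-- The element `t` of `Rt C t`. -/
def tt (t : L) : Rt C t :=
  algebraMap (Algebra.adjoin C {t}) (Rt C t) ⟨t, Algebra.subset_adjoin (Set.mem_singleton t)⟩

theorem tt_coe (t : L) : ((tt C t : Rt C t) : L) = t := rfl

end defs

end GT
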