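import Mathlib
import Pool.Agent.MP_c1dca2_ag.GT.P0

set_option autoImplicit false

open Polynomial

namespace GT

/-! ## [GT-P1b] constants; finiteness over `C(t)` -/

variable {C L : Type} [Field C] [Field L] [Algebra C L]

open scoped IntermediateField.algebraAdjoinAdjoin in
theorem p1b_alg (x : L) (h : FiniteDimensional (IntermediateField.adjoin C {x}) L) :
    Algebra.IsAlgebraic (Algebra.adjoin C ({x} : Set L)) L :=
  (IsFractionRing.comap_isAlgebraic_iff (A := Algebra.adjoin C ({x} : Set L))
    (K := IntermediateField.adjoin C ({x} : Set L)) (C := L)).2 inferInstance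

/-- Proof. Let `t` be transcendental. (1) `x` is algebraic over `C(t)`: `t` is algebraic over `C(x)` (finite
extension), so there is a nonzero polynomial `P` in two variables with `P(x, t) = 0`; if `x` were
transcendental over `C(t)`, then `P = 0` in `C(t)[X]`, so `P(X, t) = 0`, so `P = 0` as `t` is transcendental.
(Or use transcendence bases of Mathlib: `{x}` is a transcendence basis of `L / C`, so `trdeg = 1`, and
`{t}`, algebraically independent, is one too, `AlgebraicIndependent` / `IsTranscendenceBasis` API.)
(2) `L` is generated over `C` by `x` and a basis of `L / C(x)`, so `L` is generated over `C(t)` by finitely many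
elements, all algebraic over `C(t)` (`L / C(t)(x)` is algebraic as `C(x) ⊆ C(t)(x)`): finite dimensional. -/
theorem ff_of (x : L) (hx : Transcendental C x)
    (h : FiniteDimensional (IntermediateField.adjoin C {x}) L) : FF C L := by
  have hE : Algebra.EssFiniteType C L := by
    have h1 : (IntermediateField.adjoin C ({x} : Set L)).FG :=
      IntermediateField.fg_adjoin_of_finite (Set.finite_singleton x)
    have h2 : Algebra.EssFiniteType C (IntermediateField.adjoin C ({x} : Set L)) :=
      IntermediateField.essFiniteType_iff.2 h1
    exact Algebra.EssFiniteType.comp C (IntermediateField.adjoin C ({x} : Set L)) L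
  have ha : Algebra.IsAlgebraic (Algebra.adjoin C ({x} : Set L)) L := by
    exact p1b_alg x h
  have hle : Algebra.trdeg C L ≤ 1 := by
    have h1 := Algebra.IsAlgebraic.trdeg_le_cardinalMk C ({x} : Set L)
    rwa [Cardinal.mk_singleton] at h1
  refine ⟨fun t ht => ?_, ⟨x, hx⟩⟩
  have ht1 : AlgebraicIndependent C (fun _ : Unit => t) := algebraicIndependent_unique_type_iff.2 ht
  have ht2 : IsTranscendenceBasis C (fun _ : Unit => t) := by
    refine ht1.isTranscendenceBasis_of_trdeg_le_of_finite ?_
    rw [Cardinal.mk_unit]
    exact hle
  have ht3 := ht2.isAlgebraic_field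
  rw [Set.range_const] at ht3
  have hE2 : Algebra.EssFiniteType (IntermediateField.adjoin C ({t} : Set L)) L :=
    Algebra.EssFiniteType.of_comp C _ L
  exact Algebra.finite_of_essFiniteType_of_isAlgebraic

end GT
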