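import Mathlib

/-!
# [GT] MP_c1dca2_ag: rings with one place at infinity

`WB T = ⊕_i R[X] f_i`, `i ∈ Z/d`, `f_i f_j = ∑_k c i j k f_k`; the monomial `X^n f_k` has the weight `d n + w k`
(order of the pole at infinity), all weights are different.
-/

set_option autoImplicit false
set_option linter.unusedSectionVars false

open Polynomial

namespace GT

/-- Tables. The weight of the monomial `X^n f_k` is `d n + w k`. -/
@[ext] structure Tab (R : Type) [CommRing R] (d : ℕ) [NeZero d] where
  /-- the weights -/
  w : ZMod d → ℕ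
  /-- the structure constants -/
  c : ZMod d → ZMod d → ZMod d → R[X]
  w_cast : ∀ i, (w i : ZMod d) = i
  w_zero : w 0 = 0
  comm : ∀ i j k, c i j k = c j i k
  one : ∀ j k, c 0 j k = if k = j then 1 else 0
  assoc : ∀ i j k n, ∑ m, c i j m * c m k n = ∑ m, c j k m * c i m n
  top : ∀ i j, ∃ n, d * n + w (i + j) = w i + w j ∧ (c i j (i + j)).coeff n = 1
  small : ∀ i j k n, w i + w j < d * n + w k → (c i j k).coeff n = 0

section weights

variable {R : Type} [CommRing R] {d : ℕ} [NeZero d]

/-- The weight of `X^n f_i`. -/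
def Tab.wt (T : Tab R d) (n : ℕ) (i : ZMod d) : ℕ := d * n + T.w i

theorem Tab.wt_inj (T : Tab R d) {i i' : ZMod d} {n n' : ℕ} (h : d * n + T.w i = d * n' + T.w i') :
    i = i' ∧ n = n' := by
  have h1 : ((d * n + T.w i : ℕ) : ZMod d) = ((d * n' + T.w i' : ℕ) : ZMod d) := by rw [h]
  push_cast at h1
  rw [T.w_cast, T.w_cast, ZMod.natCast_self, zero_mul, zero_mul, zero_add, zero_add] at h1
  subst h1
  refine ⟨rfl, ?_⟩
  have h3 : d * n = d * n' := by omega
  exact Nat.eq_of_mul_eq_mul_left (Nat.pos_of_ne_zero (NeZero.ne d)) h3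

end weights

section ring

variable {R : Type} [CommRing R] {d : ℕ} [NeZero d]

/-- The ring `⊕_i R[X] f_i`; `co i` is the coefficient of `f_i`. -/
@[ext] structure WB (T : Tab R d) : Type where
  /-- the coordinates -/
  co : ZMod d → R[X]

variable {T : Tab R d}

namespace WB

noncomputable instance : Zero (WB T) := ⟨⟨0⟩⟩
noncomputable instance : One (WB T) := ⟨⟨Pi.single 0 1⟩⟩
noncomputable instance : Add (WB T) := ⟨fun b c => ⟨b.co + c.co⟩⟩
noncomputable instance : Neg (WB T) := ⟨fun b => ⟨-b.co⟩⟩
noncomputable instance : Sub (WB T) := ⟨fun b c => ⟨b.co - c.co⟩⟩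
noncomputable instance : SMul ℕ (WB T) := ⟨fun n b => ⟨n • b.co⟩⟩
noncomputable instance : SMul ℤ (WB T) := ⟨fun n b => ⟨n • b.co⟩⟩
noncomputable instance : SMul R[X] (WB T) := ⟨fun p b => ⟨fun j => p * b.co j⟩⟩
noncomputable instance : SMul R (WB T) := ⟨fun p b => ⟨fun j => p • b.co j⟩⟩
noncomputable instance : Mul (WB T) :=
  ⟨fun b c => ⟨fun k => ∑ i, ∑ j, T.c i j k * (b.co i * c.co j)⟩⟩

theorem co_injective : Function.Injective (co : WB T → ZMod d → R[X]) := by
  intro b c h
  exact WB.ext h

@[simp] theorem co_zero : (0 : WB T).co = 0 := rfl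
@[simp] theorem co_add (b c : WB T) : (b + c).co = b.co + c.co := rfl
@[simp] theorem co_neg (b : WB T) : (-b).co = -b.co := rfl
@[simp] theorem co_sub (b c : WB T) : (b - c).co = b.co - c.co := rfl
@[simp] theorem co_smul (p : R[X]) (b : WB T) (j : ZMod d) : (p • b).co j = p * b.co j := rfl
@[simp] theorem co_smul' (r : R) (b : WB T) (j : ZMod d) : (r • b).co j = r • b.co j := rfl
theorem co_one : (1 : WB T).co = Pi.single 0 1 := rfl
theorem co_mul (b c : WB T) (k : ZMod d) :
    (b * c).co k = ∑ i, ∑ j, T.c i j k * (b.co i * c.co j) := rfl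

noncomputable instance : AddCommGroup (WB T) :=
  co_injective.addCommGroup _ rfl (fun _ _ => rfl) (fun _ => rfl) (fun _ _ => rfl)
    (fun _ _ => rfl) (fun _ _ => rfl)

theorem mul_comm' (a b : WB T) : a * b = b * a := by
  refine WB.ext (funext fun k => ?_)
  rw [co_mul, co_mul, Finset.sum_comm]
  refine Finset.sum_congr rfl fun i _ => Finset.sum_congr rfl fun j _ => ?_
  rw [T.comm, mul_comm (a.co _)]

theorem one_mul' (a : WB T) : 1 * a = a := by
  refine WB.ext (funext fun k => ?_)
  rw [co_mul, Finset.sum_eq_single 0]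
  · rw [Finset.sum_eq_single k]
    · rw [T.one, if_pos rfl, co_one, Pi.single_eq_same, one_mul, one_mul]
    · intro j _ hj
      rw [T.one, if_neg (Ne.symm hj), zero_mul]
    · intro h; exact absurd (Finset.mem_univ _) h
  · intro i _ hi
    refine Finset.sum_eq_zero fun j _ => ?_
    rw [co_one, Pi.single_eq_of_ne hi, zero_mul, mul_zero]
  · intro h; exact absurd (Finset.mem_univ _) h

theorem mul_assoc' (a b c : WB T) : a * b * c = a * (b * c) := by
  refine WB.ext (funext fun n => ?_)
  have e1 : ((a * b) * c).co n = ∑ i, ∑ j, ∑ k, (∑ m, T.c i j m * T.c m k n) *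
      (a.co i * b.co j * c.co k) := by
    rw [co_mul]
    simp only [co_mul, Finset.sum_mul, Finset.mul_sum]
    rw [Finset.sum_comm' (t' := Finset.univ) (s' := fun _ => Finset.univ) (by simp)]
    have h1 : ∀ k : ZMod d, ∑ m, ∑ i, ∑ j, T.c m k n * (T.c i j m * (a.co i * b.co j) * c.co k) =
        ∑ i, ∑ j, ∑ m, T.c i j m * T.c m k n * (a.co i * b.co j * c.co k) := by
      intro k
      rw [Finset.sum_comm]
      refine Finset.sum_congr rfl fun i _ => ?_
      rw [Finset.sum_comm]
      refine Finset.sum_congr rfl fun j _ => Finset.sum_congr rfl fun m _ => ?_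
      ring
    rw [Finset.sum_congr rfl fun k _ => h1 k, Finset.sum_comm]
    exact Finset.sum_congr rfl fun i _ => Finset.sum_comm
  have e2 : (a * (b * c)).co n = ∑ i, ∑ j, ∑ k, (∑ m, T.c j k m * T.c i m n) *
      (a.co i * b.co j * c.co k) := by
    rw [co_mul]
    simp only [co_mul, Finset.sum_mul, Finset.mul_sum]
    refine Finset.sum_congr rfl fun i _ => ?_
    rw [Finset.sum_comm]
    refine Finset.sum_congr rfl fun j _ => ?_
    rw [Finset.sum_comm]
    refine Finset.sum_congr rfl fun k _ => Finset.sum_congr rfl fun m _ => ?_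
    ring
  rw [e1, e2]
  refine Finset.sum_congr rfl fun i _ => Finset.sum_congr rfl fun j _ =>
    Finset.sum_congr rfl fun k _ => ?_
  rw [T.assoc]

theorem left_distrib' (a b c : WB T) : a * (b + c) = a * b + a * c := by
  refine WB.ext (funext fun k => ?_)
  simp only [co_mul, co_add, Pi.add_apply]
  rw [← Finset.sum_add_distrib]
  refine Finset.sum_congr rfl fun i _ => ?_
  rw [← Finset.sum_add_distrib]
  exact Finset.sum_congr rfl fun j _ => by ring

theorem mul_zero' (a : WB T) : a * 0 = 0 := by
  refine WB.ext (funext fun k => ?_)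
  simp [co_mul]

noncomputable instance : CommRing (WB T) :=
  { (inferInstance : AddCommGroup (WB T)) with
    mul := (· * ·)
    one := 1
    left_distrib := left_distrib'
    right_distrib := by
      intro a b c
      rw [mul_comm', left_distrib', mul_comm' c a, mul_comm' c b]
    zero_mul := by
      intro a
      rw [mul_comm', mul_zero']
    mul_zero := mul_zero'
    one_mul := one_mul'
    mul_one := by
      intro a
      rw [mul_comm', one_mul']
    mul_comm := mul_comm'
    mul_assoc := mul_assoc' }

noncomputable instance : Module R[X] (WB T) :=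
  co_injective.module R[X] ⟨⟨co, rfl⟩, fun _ _ => rfl⟩ (fun _ _ => rfl)

noncomputable instance : Module R (WB T) :=
  co_injective.module R ⟨⟨co, rfl⟩, fun _ _ => rfl⟩ (fun _ _ => rfl)

theorem smul_mul' (r : R[X]) (x y : WB T) : r • x * y = r • (x * y) := by
  refine WB.ext (funext fun k => ?_)
  rw [co_mul, co_smul, co_mul, Finset.mul_sum]
  refine Finset.sum_congr rfl fun i _ => ?_
  rw [Finset.mul_sum]
  exact Finset.sum_congr rfl fun j _ => by rw [co_smul]; ring

theorem smul_mul'' (r : R) (x y : WB T) : r • x * y = r • (x * y) := by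
  refine WB.ext (funext fun k => ?_)
  rw [co_mul, co_smul', co_mul, Finset.smul_sum]
  refine Finset.sum_congr rfl fun i _ => ?_
  rw [Finset.smul_sum]
  exact Finset.sum_congr rfl fun j _ => by rw [co_smul', smul_mul_assoc, mul_smul_comm]

noncomputable instance : Algebra R[X] (WB T) :=
  Algebra.ofModule smul_mul' (by
    intro r x y
    rw [mul_comm, smul_mul', mul_comm])

noncomputable instance : Algebra R (WB T) :=
  Algebra.ofModule smul_mul'' (by
    intro r x y
    rw [mul_comm, smul_mul'', mul_comm])

instance : IsScalarTower R R[X] (WB T) := ⟨by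
  intro r p b
  refine WB.ext (funext fun k => ?_)
  rw [co_smul, co_smul', co_smul, smul_mul_assoc]⟩

theorem algebraMap_co (p : R[X]) (j : ZMod d) :
    (algebraMap R[X] (WB T) p).co j = if j = 0 then p else 0 := by
  rw [Algebra.algebraMap_eq_smul_one, co_smul, co_one]
  split_ifs with h
  · rw [h, Pi.single_eq_same, mul_one]
  · rw [Pi.single_eq_of_ne h, mul_zero]

theorem algebraMap_co' (r : R) (j : ZMod d) :
    (algebraMap R (WB T) r).co j = if j = 0 then C r else 0 := by
  rw [IsScalarTower.algebraMap_apply R R[X] (WB T), algebraMap_co, Polynomial.algebraMap_eq]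

theorem algebraMap_injective : Function.Injective (algebraMap R[X] (WB T)) := by
  intro p q h
  have h1 := congrArg (fun b : WB T => b.co 0) h
  simp only [algebraMap_co, if_pos] at h1
  exact h1

variable (T) in
/-- The basis element `f_j`. -/
noncomputable def f (j : ZMod d) : WB T := ⟨Pi.single j 1⟩

variable (T) in
/-- The element `X`. -/
noncomputable def x : WB T := algebraMap R[X] (WB T) X

theorem f_co (j : ZMod d) : (f T j).co = Pi.single j 1 := rfl

theorem f_zero : f T 0 = 1 := rfl

theorem sum_f (b : WB T) : ∑ j, b.co j • f T j = b := by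
  refine WB.ext (funext fun k => ?_)
  have h : (∑ j, b.co j • f T j).co = ∑ j, (b.co j • f T j).co :=
    map_sum (⟨⟨co, rfl⟩, fun _ _ => rfl⟩ : WB T →+ (ZMod d → R[X])) _ _
  rw [h, Finset.sum_apply, Finset.sum_eq_single k]
  · rw [co_smul, f_co, Pi.single_eq_same, mul_one]
  · intro j _ hj
    rw [co_smul, f_co, Pi.single_eq_of_ne hj.symm, mul_zero]
  · intro h; exact absurd (Finset.mem_univ _) h

theorem f_mul_co (i j k : ZMod d) : (f T i * f T j).co k = T.c i j k := by
  rw [co_mul, Finset.sum_eq_single i, Finset.sum_eq_single j]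
  · rw [f_co, f_co, Pi.single_eq_same, Pi.single_eq_same, mul_one, mul_one]
  · intro m _ hm
    rw [f_co, f_co, Pi.single_eq_of_ne hm, mul_zero, mul_zero]
  · intro h; exact absurd (Finset.mem_univ _) h
  · intro m _ hm
    refine Finset.sum_eq_zero fun n _ => ?_
    rw [f_co, Pi.single_eq_of_ne hm, zero_mul, mul_zero]
  · intro h; exact absurd (Finset.mem_univ _) h

theorem f_mul (i j : ZMod d) : f T i * f T j = ∑ k, T.c i j k • f T k := by
  rw [← sum_f (f T i * f T j)]
  exact Finset.sum_congr rfl fun k _ => by rw [f_mul_co]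

variable (T) in
/-- The coordinates as a linear equivalence. -/
noncomputable def coL : WB T ≃ₗ[R[X]] (ZMod d → R[X]) where
  toFun := co
  invFun := fun f => ⟨f⟩
  left_inv := fun _ => rfl
  right_inv := fun _ => rfl
  map_add' := fun _ _ => rfl
  map_smul' := fun _ _ => rfl

variable (T) in
/-- The basis `f_j`. -/
noncomputable def bas : Module.Basis (ZMod d) R[X] (WB T) := Module.Basis.ofEquivFun (coL T)

theorem bas_apply (j : ZMod d) : bas T j = f T j := by
  rw [bas, Module.Basis.coe_ofEquivFun]
  rfl

theorem bas_repr (b : WB T) (j : ZMod d) : (bas T).repr b j = b.co j := by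
  rw [bas, Module.Basis.ofEquivFun_repr_apply]
  rfl

instance : Module.Free R[X] (WB T) := Module.Free.of_basis (bas T)
instance : Module.Finite R[X] (WB T) := Module.Finite.of_basis (bas T)

end WB

end ring

open WB

/-! ### change of the coefficients -/

section bmap

variable {R S : Type} [CommRing R] [CommRing S] {d : ℕ} [NeZero d]

/-- The table over `S` obtained by applying `g : R → S` to the structure constants. -/
noncomputable def Tab.map (T : Tab R d) (g : R →+* S) : Tab S d where
  w := T.w
  c i j k := (T.c i j k).map g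
  w_cast := T.w_cast
  w_zero := T.w_zero
  comm i j k := by rw [T.comm]
  one j k := by
    rw [T.one]
    split_ifs
    · rw [Polynomial.map_one]
    · rw [Polynomial.map_zero]
  assoc i j k n := by
    have h := congrArg (Polynomial.map g) (T.assoc i j k n)
    simpa only [Polynomial.map_sum, Polynomial.map_mul] using h
  top i j := by
    obtain ⟨n, hn, h⟩ := T.top i j
    exact ⟨n, hn, by rw [coeff_map, h, map_one]⟩
  small i j k n h := by rw [coeff_map, T.small i j k n h, map_zero]

@[simp] theorem Tab.map_w (T : Tab R d) (g : R →+* S) : (T.map g).w = T.w := rfl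
@[simp] theorem Tab.map_c (T : Tab R d) (g : R →+* S) (i j k : ZMod d) :
    (T.map g).c i j k = (T.c i j k).map g := rfl

theorem Tab.map_map {S' : Type} [CommRing S'] (T : Tab R d) (g : R →+* S) (g' : S →+* S') :
    (T.map g).map g' = T.map (g'.comp g) := by
  refine Tab.ext rfl ?_
  funext i j k
  rw [Tab.map_c, Tab.map_c, Tab.map_c, Polynomial.map_map]

theorem Tab.map_id (T : Tab R d) : T.map (RingHom.id R) = T := by
  refine Tab.ext rfl ?_
  funext i j k
  rw [Tab.map_c, Polynomial.map_id]

/-- The coordinatewise map `WB T → WB T'` if `T' = T.map g`. -/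
noncomputable def bmap {T : Tab R d} {T' : Tab S d} (g : R →+* S) (h : T.map g = T') : WB T →+* WB T' where
  toFun b := ⟨fun j => (b.co j).map g⟩
  map_zero' := WB.ext (funext fun j => by simp)
  map_one' := WB.ext (funext fun j => by
    show ((1 : WB T).co j).map g = (1 : WB T').co j
    rw [co_one, co_one]
    by_cases hj : j = 0
    · rw [hj, Pi.single_eq_same, Pi.single_eq_same, Polynomial.map_one]
    · rw [Pi.single_eq_of_ne hj, Pi.single_eq_of_ne hj, Polynomial.map_zero])
  map_add' b c := WB.ext (funext fun j => by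
    simp only [co_add, Pi.add_apply, Polynomial.map_add])
  map_mul' b c := WB.ext (funext fun k => by
    simp only [co_mul]
    rw [Polynomial.map_sum]
    refine Finset.sum_congr rfl fun i _ => ?_
    rw [Polynomial.map_sum]
    refine Finset.sum_congr rfl fun j _ => ?_
    rw [Polynomial.map_mul, Polynomial.map_mul, ← h, Tab.map_c])

variable {T : Tab R d} {T' : Tab S d}

@[simp] theorem bmap_co (g : R →+* S) (h : T.map g = T') (b : WB T) (j : ZMod d) :
    (bmap g h b).co j = (b.co j).map g := rfl

theorem bmap_smul (g : R →+* S) (h : T.map g = T') (p : R[X]) (b : WB T) :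
    bmap g h (p • b) = p.map g • bmap g h b :=
  WB.ext (funext fun j => by rw [bmap_co, co_smul, co_smul, bmap_co, Polynomial.map_mul])

theorem bmap_smul' (g : R →+* S) (h : T.map g = T') (r : R) (b : WB T) :
    bmap g h (r • b) = g r • bmap g h b :=
  WB.ext (funext fun j => by
    rw [bmap_co, co_smul', co_smul', bmap_co, Polynomial.map_smul])

theorem bmap_f (g : R →+* S) (h : T.map g = T') (j : ZMod d) :
    bmap g h (WB.f T j) = WB.f T' j :=
  WB.ext (funext fun i => by
    rw [bmap_co, f_co, f_co]
    by_cases hj : i = j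
    · rw [hj, Pi.single_eq_same, Pi.single_eq_same, Polynomial.map_one]
    · rw [Pi.single_eq_of_ne hj, Pi.single_eq_of_ne hj, Polynomial.map_zero])

theorem bmap_algebraMap (g : R →+* S) (h : T.map g = T') (p : R[X]) :
    bmap g h (algebraMap R[X] (WB T) p) = algebraMap S[X] (WB T') (p.map g) := by
  rw [Algebra.algebraMap_eq_smul_one, Algebra.algebraMap_eq_smul_one, bmap_smul, map_one]

theorem bmap_algebraMap' (g : R →+* S) (h : T.map g = T') (r : R) :
    bmap g h (algebraMap R (WB T) r) = algebraMap S (WB T') (g r) := by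
  rw [Algebra.algebraMap_eq_smul_one, Algebra.algebraMap_eq_smul_one, bmap_smul', map_one]

theorem bmap_x (g : R →+* S) (h : T.map g = T') : bmap g h (WB.x T) = WB.x T' := by
  rw [WB.x, WB.x, bmap_algebraMap, map_X]

theorem bmap_comp {S' : Type} [CommRing S'] {T'' : Tab S' d} (g : R →+* S) (h : T.map g = T')
    (g' : S →+* S') (h' : T'.map g' = T'') (h'' : T.map (g'.comp g) = T'') (b : WB T) :
    bmap g' h' (bmap g h b) = bmap (g'.comp g) h'' b :=
  WB.ext (funext fun j => by rw [bmap_co, bmap_co, bmap_co, Polynomial.map_map])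

theorem bmap_inj (g : R →+* S) (h : T.map g = T') (hg : Function.Injective g) :
    Function.Injective (bmap g h) := by
  intro b c hbc
  refine WB.ext (funext fun j => Polynomial.map_injective g hg ?_)
  exact congrArg (fun b : WB T' => b.co j) hbc

theorem bmap_surj (g : R →+* S) (h : T.map g = T') (hg : Function.Surjective g) :
    Function.Surjective (bmap g h) := by
  intro c
  have h1 : ∀ j, ∃ p : R[X], p.map g = c.co j := fun j => Polynomial.map_surjective g hg _
  choose p hp using h1
  exact ⟨⟨p⟩, WB.ext (funext fun j => hp j)⟩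

/-- A ring automorphism fixing the table acts on `WB T`. -/
noncomputable def bE {T : Tab R d} (g : R ≃+* R) (h : T.map (g : R →+* R) = T) : WB T ≃+* WB T :=
  RingEquiv.ofBijective (bmap (g : R →+* R) h) ⟨bmap_inj _ _ g.injective, bmap_surj _ _ g.surjective⟩

@[simp] theorem bE_co (g : R ≃+* R) (h : T.map (g : R →+* R) = T) (b : WB T) (j : ZMod d) :
    (bE g h b).co j = (b.co j).map (g : R →+* R) := rfl

theorem bE_apply (g : R ≃+* R) (h : T.map (g : R →+* R) = T) (b : WB T) :
    bE g h b = bmap (g : R →+* R) h b := rfl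

end bmap

/-! ### homomorphisms from `WB T` -/

section lift

variable {R S : Type} [CommRing R] [CommRing S] {d : ℕ} [NeZero d]

/-- `x`, `y i` satisfy the equations of the table. -/
structure Sol (T : Tab R d) (g : R →+* S) (x : S) (y : ZMod d → S) : Prop where
  one : y 0 = 1
  mul : ∀ i j, y i * y j = ∑ k, (T.c i j k).eval₂ g x * y k

/-- The homomorphism `X ↦ x`, `f_j ↦ y j`. -/
noncomputable def lift {T : Tab R d} {g : R →+* S} {x : S} {y : ZMod d → S} (h : Sol T g x y) : WB T →+* S where
  toFun b := ∑ j, (b.co j).eval₂ g x * y j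
  map_zero' := by simp
  map_one' := by
    rw [Finset.sum_eq_single 0]
    · rw [co_one, Pi.single_eq_same, eval₂_one, one_mul, h.one]
    · intro j _ hj
      rw [co_one, Pi.single_eq_of_ne hj, eval₂_zero, zero_mul]
    · intro h; exact absurd (Finset.mem_univ _) h
  map_add' b c := by
    rw [← Finset.sum_add_distrib]
    exact Finset.sum_congr rfl fun j _ => by
      rw [co_add, Pi.add_apply, eval₂_add, add_mul]
  map_mul' b c := by
    have e1 : ∀ k : ZMod d, ((b * c).co k).eval₂ g x * y k =
        ∑ i, ∑ j, (T.c i j k).eval₂ g x * y k * ((b.co i).eval₂ g x * (c.co j).eval₂ g x) := by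
      intro k
      rw [co_mul, eval₂_finsetSum, Finset.sum_mul]
      refine Finset.sum_congr rfl fun i _ => ?_
      rw [eval₂_finsetSum, Finset.sum_mul]
      refine Finset.sum_congr rfl fun j _ => ?_
      rw [eval₂_mul, eval₂_mul]
      ring
    rw [Finset.sum_mul_sum, Finset.sum_congr rfl fun k _ => e1 k, Finset.sum_comm]
    refine Finset.sum_congr rfl fun i _ => ?_
    rw [Finset.sum_comm]
    refine Finset.sum_congr rfl fun j _ => ?_
    rw [← Finset.sum_mul, ← h.mul]
    ring

variable {T : Tab R d} {g : R →+* S} {x : S} {y : ZMod d → S}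

theorem lift_apply (h : Sol T g x y) (b : WB T) : lift h b = ∑ j, (b.co j).eval₂ g x * y j := rfl

theorem lift_algebraMap (h : Sol T g x y) (p : R[X]) :
    lift h (algebraMap R[X] (WB T) p) = p.eval₂ g x := by
  rw [lift_apply, Finset.sum_eq_single 0]
  · rw [algebraMap_co, if_pos rfl, h.one, mul_one]
  · intro j _ hj
    rw [algebraMap_co, if_neg hj, eval₂_zero, zero_mul]
  · intro h; exact absurd (Finset.mem_univ _) h

theorem lift_algebraMap' (h : Sol T g x y) (r : R) : lift h (algebraMap R (WB T) r) = g r := by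
  rw [IsScalarTower.algebraMap_apply R R[X] (WB T), lift_algebraMap, Polynomial.algebraMap_eq, eval₂_C]

theorem lift_x (h : Sol T g x y) : lift h (WB.x T) = x := by
  rw [WB.x, lift_algebraMap, eval₂_X]

theorem lift_f (h : Sol T g x y) (j : ZMod d) : lift h (WB.f T j) = y j := by
  rw [lift_apply, Finset.sum_eq_single j]
  · rw [f_co, Pi.single_eq_same, eval₂_one, one_mul]
  · intro i _ hi
    rw [f_co, Pi.single_eq_of_ne hi, eval₂_zero, zero_mul]
  · intro h; exact absurd (Finset.mem_univ _) h

/-- Every homomorphism is a `lift`. -/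
theorem sol_of (φ : WB T →+* S) (hφ : ∀ r, φ (algebraMap R (WB T) r) = g r) :
    Sol T g (φ (WB.x T)) (fun j => φ (WB.f T j)) := by
  have h1 : ∀ p : R[X], φ (algebraMap R[X] (WB T) p) = p.eval₂ g (φ (WB.x T)) := by
    intro p
    induction p using Polynomial.induction_on' with
    | add p q hp hq => rw [map_add, map_add, hp, hq, eval₂_add]
    | monomial n a =>
      rw [← C_mul_X_pow_eq_monomial, map_mul, map_mul, map_pow, map_pow, eval₂_mul, eval₂_C,
        eval₂_pow, eval₂_X, ← hφ, IsScalarTower.algebraMap_apply R R[X] (WB T),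
        Polynomial.algebraMap_eq]
      rfl
  refine ⟨by rw [f_zero, map_one], fun i j => ?_⟩
  rw [← map_mul, f_mul, map_sum]
  refine Finset.sum_congr rfl fun k _ => ?_
  rw [Algebra.smul_def, map_mul, h1]

theorem lift_unique (φ : WB T →+* S) (hφ : ∀ r, φ (algebraMap R (WB T) r) = g r) (b : WB T) :
    φ b = lift (sol_of φ hφ) b := by
  have h1 : ∀ p : R[X], φ (algebraMap R[X] (WB T) p) = p.eval₂ g (φ (WB.x T)) := by
    intro p
    induction p using Polynomial.induction_on' with
    | add p q hp hq => rw [map_add, map_add, hp, hq, eval₂_add]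
    | monomial n a =>
      rw [← C_mul_X_pow_eq_monomial, map_mul, map_mul, map_pow, map_pow, eval₂_mul, eval₂_C,
        eval₂_pow, eval₂_X, ← hφ, IsScalarTower.algebraMap_apply R R[X] (WB T),
        Polynomial.algebraMap_eq]
      rfl
  conv_lhs => rw [← sum_f b, map_sum]
  rw [lift_apply]
  refine Finset.sum_congr rfl fun j _ => ?_
  rw [Algebra.smul_def, map_mul, h1]

/-- `Sol` is functorial. -/
theorem Sol.map {S' : Type} [CommRing S'] (h : Sol T g x y) (u : S →+* S') :
    Sol T (u.comp g) (u x) (fun j => u (y j)) where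
  one := by rw [h.one, map_one]
  mul i j := by
    rw [← map_mul, h.mul, map_sum]
    refine Finset.sum_congr rfl fun k _ => ?_
    rw [map_mul, hom_eval₂]

/-- A solution for `T` over `R → S → S'` is a solution for `T.map (R → S)`. -/
theorem Sol.change {R' : Type} [CommRing R'] {T' : Tab R' d} {u : R →+* R'} (hT : T.map u = T')
    {g' : R' →+* S} (hg : g'.comp u = g) (h : Sol T g x y) : Sol T' g' x y where
  one := h.one
  mul i j := by
    rw [h.mul]
    refine Finset.sum_congr rfl fun k _ => ?_
    rw [← hT, Tab.map_c, eval₂_map, hg]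

end lift

end GT
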