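import Mathlib
import Pool.Agent.MP_c1dca2_ag.GT.Base
import Pool.Agent.MP_c1dca2_ag.SUP.Defs

/-!
# [GT] definitions: the filtration by the order of the pole at infinity, reduction

The general definitions `cls`, `len`, `clm`, `Stab`, `stV`, `stR` are those of SUP/Defs.lean.
-/

set_option autoImplicit false
set_option linter.unusedSectionVars false

open Polynomial IsLocalRing

namespace GT

export SUP (cls cls_of_ne len cls_mul cls_eq_iff cls_span cls_eq_one_iff exists_cls map_ne_bot
  map_span_singleton clm clm_cls map_map_equiv clm_clm clm_id Stab stV stV_coe stR stR_residue)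

section filtration

variable {d : ℕ} [NeZero d] {R : Type} [CommRing R]

/-- The elements with a pole of order at most `m` at infinity: only monomials `X^n f_j` with
`d n + w j ≤ m`. -/
def Ble (T : Tab R d) (m : ℕ) : Submodule R (WB T) where
  carrier := {b | ∀ (j : ZMod d) (n : ℕ), m < d * n + T.w j → (b.co j).coeff n = 0}
  zero_mem' := fun j i _ => by simp
  add_mem' := fun {b c} hb hc j i h => by
    rw [WB.co_add, Pi.add_apply, coeff_add, hb j i h, hc j i h, add_zero]
  smul_mem' := fun r b hb j i h => by
    rw [WB.co_smul', coeff_smul, hb j i h, smul_zero]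

theorem mem_Ble {T : Tab R d} {m : ℕ} {b : WB T} :
    b ∈ Ble T m ↔ ∀ (j : ZMod d) (n : ℕ), m < d * n + T.w j → (b.co j).coeff n = 0 := Iff.rfl

/-- The coefficient of the monomial `X^n f_j` with `d n + w j = m`. -/
noncomputable def lcf (T : Tab R d) (m : ℕ) : WB T →ₗ[R] R where
  toFun b := ∑ j, if T.w j ≤ m ∧ (m - T.w j) % d = 0 then
    (b.co j).coeff ((m - T.w j) / d) else 0
  map_add' b c := by
    rw [← Finset.sum_add_distrib]
    refine Finset.sum_congr rfl fun j _ => ?_
    split_ifs
    · rw [WB.co_add, Pi.add_apply, coeff_add]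
    · rw [add_zero]
  map_smul' r b := by
    rw [RingHom.id_apply, Finset.smul_sum]
    refine Finset.sum_congr rfl fun j _ => ?_
    split_ifs
    · rw [WB.co_smul', coeff_smul]
    · rw [smul_zero]

theorem lcf_apply (T : Tab R d) (m : ℕ) (b : WB T) :
    lcf T m b = ∑ j, if T.w j ≤ m ∧ (m - T.w j) % d = 0 then
      (b.co j).coeff ((m - T.w j) / d) else 0 := rfl

/-- The order of the pole at infinity. -/
noncomputable def pord {T : Tab R d} (b : WB T) : ℕ := sInf {m | b ∈ Ble T m}

/-- The leading coefficient. -/
noncomputable def lc {T : Tab R d} (b : WB T) : R := lcf T (pord b) b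

/-- The number of gaps (the genus). -/
def gp (T : Tab R d) : ℕ := ∑ j, T.w j / d

end filtration

section valuation

variable {F : Type} [Field F] {V : ValuationSubring F} {d : ℕ} [NeZero d] (T : Tab V d)

/-- The inclusion `WB T → WB (T over F)`. -/
noncomputable def inc : WB T →+* WB (T.map V.subtype) := bmap V.subtype rfl

/-- The reduction. -/
noncomputable def rd : WB T →+* WB (T.map (residue V)) := bmap (residue V) rfl

variable {T}

/-- The reduction of an ideal. -/
noncomputable def rI (J : Ideal (WB (T.map V.subtype))) : Ideal (WB (T.map (residue V))) :=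
  (J.comap (inc T)).map (rd T)

theorem inc_co (b : WB T) (j : ZMod d) : (inc T b).co j = (b.co j).map V.subtype := rfl

theorem rd_co (b : WB T) (j : ZMod d) : (rd T b).co j = (b.co j).map (residue V) := rfl

theorem inc_inj : Function.Injective (inc T) := bmap_inj _ _ V.subtype_injective

theorem rd_surj : Function.Surjective (rd T) := bmap_surj _ _ residue_surjective

theorem mem_rI {J : Ideal (WB (T.map V.subtype))} {z : WB (T.map (residue V))} :
    z ∈ rI J ↔ ∃ b, inc T b ∈ J ∧ rd T b = z := by
  rw [rI, Ideal.mem_map_iff_of_surjective _ rd_surj]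
  rfl

end valuation

end GT
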