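import Mathlib
import Pool.Agent.MP_c1dca2_ag.GT.P0

set_option autoImplicit false

open Polynomial

namespace GT

/-! ## [GT-P1c] constants; finiteness over `C(t)` -/

variable {C L : Type} [Field C] [Field L] [Algebra C L]

/-- Proof. `t⁻¹` algebraic over `C` would make `t` algebraic. -/
theorem transc_inv {t : L} (ht : Transcendental C t) : Transcendental C t⁻¹ := by
  intro h
  apply ht
  have h1 := h.inv
  rwa [inv_inv] at h1

/-- Over an algebraically closed field every element outside `C` is transcendental. -/
theorem transc_of [IsAlgClosed C] {f : L} (h : ∀ c : C, f ≠ algebraMap C L c) :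
    Transcendental C f := by
  intro ha
  have hi : IsIntegral C f := ha.isIntegral
  have h1 := IsAlgClosed.degree_eq_one_of_irreducible C (minpoly.irreducible hi)
  obtain ⟨c, hc⟩ := minpoly.mem_range_of_degree_eq_one C f h1
  exact h c hc.symm

/-- An element with a pole is transcendental (constants are in every place). -/
theorem transc_pole [IsAlgClosed C] {O : ValuationSubring L} (hO : IsPl C O) {f : L} (h : f ∉ O) :
    Transcendental C f := by
  refine transc_of fun c hc => h ?_
  rw [hc]
  exact hO.1 c

end GT
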