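import Mathlib
import Pool.Agent.MP_c1dca2_ag.GT.P0

set_option autoImplicit false

open Polynomial

namespace GT

/-! ## [GT-P5a] the ring of functions with at most one pole: Apery basis -/

variable {C L : Type} [Field C] [Field L] [Algebra C L]

/-- Elementary properties of the order.

Proof. `o 1 = 0` from `mul`; `o (f⁻¹)`; sum: for `a, b ≠ 0` with `o a ≤ o b`: `b / a ∈ O`, so `(a + b) / a = 1 + b / a ∈ O`. -/
theorem ord_one {O : ValuationSubring L} {o : L → ℤ} (ho : IsOrd C O o) : o 1 = 0 := by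
  have h := ho.mul 1 1 one_ne_zero one_ne_zero
  rw [mul_one] at h
  omega

theorem ord_inv {O : ValuationSubring L} {o : L → ℤ} (ho : IsOrd C O o) {a : L} (ha : a ≠ 0) :
    o a⁻¹ = - o a := by
  have h := ho.mul a a⁻¹ ha (inv_ne_zero ha)
  rw [mul_inv_cancel₀ ha, ord_one ho] at h
  omega

theorem ord_pow {O : ValuationSubring L} {o : L → ℤ} (ho : IsOrd C O o) {a : L} (ha : a ≠ 0) (n : ℕ) :
    o (a ^ n) = n * o a := by
  induction n with
  | zero => simp [ord_one ho]
  | succ n ih =>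
    rw [pow_succ, ho.mul _ _ (pow_ne_zero n ha) ha, ih]
    push_cast
    ring

theorem ord_neg {O : ValuationSubring L} {o : L → ℤ} (ho : IsOrd C O o) {a : L} (ha : a ≠ 0) :
    o (-a) = o a := by
  have h1 : o (-1) = 0 := by
    have h := ho.mul (-1) (-1) (neg_ne_zero.2 one_ne_zero) (neg_ne_zero.2 one_ne_zero)
    rw [neg_mul_neg, one_mul, ord_one ho] at h
    omega
  have h := ho.mul (-1) a (neg_ne_zero.2 one_ne_zero) ha
  rw [neg_one_mul, h1, zero_add] at h
  exact h

theorem ord_const {O : ValuationSubring L} (hO : IsPl C O) {o : L → ℤ} (ho : IsOrd C O o) {c : C} (hc : c ≠ 0) :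
    o (algebraMap C L c) = 0 := by
  have h0 : algebraMap C L c ≠ 0 := by
    rwa [Ne, map_eq_zero]
  have h1 := (ho.mem _ h0).1 (hO.1 c)
  have h2 := (ho.mem _ (inv_ne_zero h0)).1 (by rw [← map_inv₀]; exact hO.1 c⁻¹)
  rw [ord_inv ho h0] at h2
  omega

theorem p5a_add {O : ValuationSubring L} {o : L → ℤ} (ho : IsOrd C O o) {a b : L} (ha : a ≠ 0) (hb : b ≠ 0)
    (hab : a + b ≠ 0) (h : o a ≤ o b) : o a ≤ o (a + b) := by
  have h1 : b / a ∈ O := by
    rw [ho.mem _ (div_ne_zero hb ha), div_eq_mul_inv, ho.mul _ _ hb (inv_ne_zero ha), ord_inv ho ha]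
    omega
  have h2 : (a + b) / a ∈ O := by
    have : (a + b) / a = 1 + b / a := by field_simp
    rw [this]
    exact O.add_mem _ _ O.one_mem h1
  rw [ho.mem _ (div_ne_zero hab ha), div_eq_mul_inv, ho.mul _ _ hab (inv_ne_zero ha), ord_inv ho ha] at h2
  omega

theorem ord_add {O : ValuationSubring L} {o : L → ℤ} (ho : IsOrd C O o) {a b : L} (ha : a ≠ 0) (hb : b ≠ 0)
    (hab : a + b ≠ 0) : min (o a) (o b) ≤ o (a + b) := by
  rcases le_total (o a) (o b) with h | h
  · rw [min_eq_left h]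
    exact p5a_add ho ha hb hab h
  · rw [min_eq_right h, add_comm]
    exact p5a_add ho hb ha (by rwa [add_comm]) h

theorem ord_add_eq {O : ValuationSubring L} {o : L → ℤ} (ho : IsOrd C O o) {a b : L} (ha : a ≠ 0) (hb : b ≠ 0)
    (h : o a < o b) : a + b ≠ 0 ∧ o (a + b) = o a := by
  have hab : a + b ≠ 0 := by
    intro h0
    have h1 : b = -a := (neg_eq_of_add_eq_zero_right h0).symm
    rw [h1, ord_neg ho ha] at h
    exact lt_irrefl _ h
  refine ⟨hab, le_antisymm ?_ ?_⟩
  · have h1 := ord_add ho hab (neg_ne_zero.2 hb) (by rw [add_neg_cancel_right]; exact ha)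
    rw [add_neg_cancel_right, ord_neg ho hb] at h1
    rcases min_le_iff.1 h1 with h2 | h2
    · exact h2
    · omega
  · have h1 := ord_add ho ha hb hab
    rwa [min_eq_left h.le] at h1

/-- `a` is a multiple of `b` up to smaller poles. -/
theorem ord_res {O : ValuationSubring L} (hO : IsPl C O) {o : L → ℤ} (ho : IsOrd C O o) {a b : L} (ha : a ≠ 0)
    (hb : b ≠ 0) (h : o a = o b) : ∃ c : C, c ≠ 0 ∧ (a = c • b ∨ o a < o (a - c • b)) := by
  have h0 : a / b ≠ 0 := div_ne_zero ha hb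
  have h1 : o (a / b) = 0 := by
    rw [div_eq_mul_inv, ho.mul _ _ ha (inv_ne_zero hb), ord_inv ho hb]
    omega
  have h2 : a / b ∈ O := (ho.mem _ h0).2 (by omega)
  obtain ⟨c, hc⟩ := ho.res _ h2
  have hc0 : c ≠ 0 := by
    rintro rfl
    rw [map_zero, sub_zero] at hc
    rcases hc with hc | hc
    · exact h0 hc
    · omega
  refine ⟨c, hc0, ?_⟩
  by_cases hd : a / b - algebraMap C L c = 0
  · left
    rw [Algebra.smul_def, ← sub_eq_zero.1 hd, div_mul_cancel₀ _ hb]
  · right
    have h3 := hc.resolve_left hd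
    have h4 : a - c • b = (a / b - algebraMap C L c) * b := by
      rw [Algebra.smul_def, sub_mul, div_mul_cancel₀ _ hb]
    rw [h4, ho.mul _ _ hd hb]
    omega

end GT
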