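import Mathlib
import Pool.Agent.MP_c1dca2_ag.GT.P0

set_option autoImplicit false

open Polynomial

namespace GT

/-! ## [GT-P5d] the ring of functions with at most one pole: Apery basis -/

variable {C L : Type} [Field C] [Field L] [Algebra C L]

variable (C) in
/-- The functions without a pole outside `O₁`. -/
def RO (O₁ : ValuationSubring L) : Subring L where
  carrier := {f | ∀ O : ValuationSubring L, IsPl C O → O ≠ O₁ → f ∈ O}
  mul_mem' ha hb O hO h := O.mul_mem _ _ (ha O hO h) (hb O hO h)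
  one_mem' O _ _ := O.one_mem
  add_mem' ha hb O hO h := O.add_mem _ _ (ha O hO h) (hb O hO h)
  zero_mem' O _ _ := O.zero_mem
  neg_mem' ha O hO h := O.neg_mem _ (ha O hO h)

theorem mem_RO {O₁ : ValuationSubring L} {f : L} :
    f ∈ RO C O₁ ↔ ∀ O : ValuationSubring L, IsPl C O → O ≠ O₁ → f ∈ O := Iff.rfl

theorem const_mem_RO (O₁ : ValuationSubring L) (c : C) : algebraMap C L c ∈ RO C O₁ :=
  fun _ hO _ => hO.1 c

variable (C) in
/-- An Apery system at the place `O₁`: `x` and the `f i` have poles only at `O₁`, of order `d` and `w i ≡ i mod d`, and every pole order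
is `d n + w i`. -/
structure Apery (O₁ : ValuationSubring L) (o : L → ℤ) (d : ℕ) [NeZero d] (x : L) (f : ZMod d → L)
    (w : ZMod d → ℕ) : Prop where
  x_mem : x ∈ RO C O₁
  x_ne : x ≠ 0
  o_x : o x = -(d : ℤ)
  f_mem : ∀ i, f i ∈ RO C O₁
  f_ne : ∀ i, f i ≠ 0
  o_f : ∀ i, o (f i) = -(w i : ℤ)
  w_cast : ∀ i, (w i : ZMod d) = i
  f_zero : f 0 = 1
  w_zero : w 0 = 0
  min : ∀ r ∈ RO C O₁, r ≠ 0 → ∃ (i : ZMod d) (n : ℕ), o r = -((d * n + w i : ℕ) : ℤ)
  lc : ∀ (i j : ZMod d) (n : ℕ), d * n + w (i + j) = w i + w j →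
    f i * f j = x ^ n * f (i + j) ∨ -((w i + w j : ℕ) : ℤ) < o (f i * f j - x ^ n * f (i + j))

end GT
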