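import Mathlib
import Pool.Agent.MP_c1dca2_ag.GT.P0

set_option autoImplicit false

open Polynomial

namespace GT

/-! ## [GT-P1a] constants; finiteness over `C(t)` -/

variable {C L : Type} [Field C] [Field L] [Algebra C L]

theorem p1a_int [IsAlgClosed C] (x : L) (hx : IsIntegral C x) : ∃ c : C, algebraMap C L c = x := by
  have h1 := minpoly.irreducible hx
  have h2 := IsAlgClosed.degree_eq_one_of_irreducible C h1
  exact minpoly.mem_range_of_degree_eq_one C x h2

theorem p1a_closed [IsAlgClosed C] : IsIntegrallyClosedIn (algebraMap C L).range L := by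
  rw [Subring.isIntegrallyClosedIn_iff]
  intro x hx
  have h1 : IsIntegral C x := by
    obtain ⟨p, hp, hpx⟩ := hx
    obtain ⟨q, hq, hqd, hqm⟩ := Polynomial.lifts_and_degree_eq_and_monic
      (f := (algebraMap C L).rangeRestrict) (p := p) (by
        rw [Polynomial.lifts_iff_coeff_lifts]
        intro n
        obtain ⟨c, hc⟩ := (p.coeff n).2
        exact ⟨c, Subtype.ext hc⟩) hp
    refine ⟨q, hqm, ?_⟩
    rw [← hq, Polynomial.eval₂_map] at hpx
    exact hpx
  exact p1a_int x h1

/-- An element which has no pole is a constant.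

Proof. If `f` is algebraic over `C` it is in `C` (`IsAlgClosed.algebraMap_surjective_of_isIntegral` or
`IsAlgClosed.algebraMap_bijective_of_isIntegral` for `C[f]`, or: the minimal polynomial has a root).
Otherwise `f ≠ 0` and `g := f⁻¹` is transcendental. Let `A` be the subring `(Algebra.adjoin C {g})` and
`I = (g)`; `I ≠ ⊤`: otherwise `1 = g * q(g)` for a polynomial `q`, so `g` is a root of the nonzero polynomial
`X * q - 1` (constant coefficient `-1`). `Ideal.image_subset_nonunits_valuationSubring` gives a valuation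
ring `B ⊇ A` with `g ∈ B.nonunits`. So `C ⊆ B`, `f = g⁻¹ ∉ B` (`g ≠ 0` is a nonunit), in particular
`B ≠ ⊤`: contradiction with `h`. -/
theorem mem_const [IsAlgClosed C] (f : L) (h : ∀ O : ValuationSubring L, IsPl C O → f ∈ O) :
    ∃ c : C, f = algebraMap C L c := by
  by_contra hf
  have hR := p1a_closed (C := C) (L := L)
  obtain ⟨V, hV, hfV⟩ := Subring.exists_le_valuationSubring_of_isIntegrallyClosedIn
    (R := (algebraMap C L).range) (x := f) (by
      rintro ⟨c, hc⟩
      exact hf ⟨c, hc.symm⟩)
  exact hfV (h V ⟨fun c => hV ⟨c, rfl⟩, fun ht => hfV (ht ▸ ValuationSubring.mem_top f)⟩)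

end GT
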