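import Mathlib
import Pool.Agent.MP_c1dca2_ag.GT.P0

set_option autoImplicit false

open Polynomial

namespace GT

/-! ## [GT-P2a] the integral closure of `C[t]` -/

variable {C L : Type} [Field C] [Field L] [Algebra C L]

/-- Proof. `iInf_valuationSubring_superset` (Mathlib/RingTheory/Valuation/LocalSubring.lean) for
`s = range (algebraMap C L) ∪ {t}`: `Subring.closure s` is `(Algebra.adjoin C {t})` as a subring
(`Algebra.adjoin_eq_ring_closure`), and being integral over a subalgebra or over the same subring is the same. -/
theorem rt_mem (t f : L) : f ∈ Rt C t ↔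
    ∀ V : ValuationSubring L, (∀ c : C, algebraMap C L c ∈ V) → t ∈ V → f ∈ V := by
  have key : f ∈ Rt C t ↔
      f ∈ (integralClosure (Subring.closure (Set.range (algebraMap C L) ∪ {t})) L).toSubring := by
    constructor
    · intro h
      have h1 : IsIntegral (Algebra.adjoin C ({t} : Set L)) f := h
      show IsIntegral (Subring.closure (Set.range (algebraMap C L) ∪ {t})) f
      obtain ⟨p, hp, hp2⟩ := h1
      have hle : ∀ y : L, y ∈ Algebra.adjoin C ({t} : Set L) → y ∈ Subring.closure (Set.range (algebraMap C L) ∪ {t}) := by
        intro y hy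
        have h2 : (Algebra.adjoin C ({t} : Set L)).toSubring = Subring.closure (Set.range (algebraMap C L) ∪ {t}) :=
          Algebra.adjoin_eq_ring_closure _
        rw [← h2]
        exact hy
      refine ⟨p.map (RingHom.codRestrict (algebraMap (Algebra.adjoin C ({t} : Set L)) L)
        (Subring.closure (Set.range (algebraMap C L) ∪ {t})) (fun y => hle y y.2)), hp.map _, ?_⟩
      rw [Polynomial.eval₂_map]
      exact hp2
    · intro h
      have h1 : IsIntegral (Subring.closure (Set.range (algebraMap C L) ∪ {t})) f := h
      show IsIntegral (Algebra.adjoin C ({t} : Set L)) f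
      obtain ⟨p, hp, hp2⟩ := h1
      have hle : ∀ y : L, y ∈ Subring.closure (Set.range (algebraMap C L) ∪ {t}) → y ∈ Algebra.adjoin C ({t} : Set L) := by
        intro y hy
        have h2 : (Algebra.adjoin C ({t} : Set L)).toSubring = Subring.closure (Set.range (algebraMap C L) ∪ {t}) :=
          Algebra.adjoin_eq_ring_closure _
        rw [← h2] at hy
        exact hy
      refine ⟨p.map (RingHom.codRestrict (algebraMap (Subring.closure (Set.range (algebraMap C L) ∪ {t})) L)
        (Algebra.adjoin C ({t} : Set L)) (fun y => hle y y.2)), hp.map _, ?_⟩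
      rw [Polynomial.eval₂_map]
      exact hp2
  rw [key, ← iInf_valuationSubring_superset, Subring.mem_iInf]
  constructor
  · intro h V hV ht
    refine h ⟨V, ?_⟩
    rintro y (⟨c, rfl⟩ | hy)
    · exact hV c
    · rw [Set.mem_singleton_iff.1 hy]
      exact ht
  · rintro h ⟨V, hV⟩
    exact h V (fun c => hV (Or.inl ⟨c, rfl⟩)) (hV (Or.inr rfl))

end GT
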