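import Mathlib
import Pool.Agent.MP_c1dca2_ag.GT.P0
import Pool.Agent.MP_c1dca2_ag.GT.P1a
import Pool.Agent.MP_c1dca2_ag.GT.P2a
import Pool.Agent.MP_c1dca2_ag.GT.P5a
import Pool.Agent.MP_c1dca2_ag.GT.P5d

set_option autoImplicit false

open Polynomial

namespace GT

/-! ## [GT-P6a] existence of Apery systems -/

variable {C L : Type} [Field C] [Field L] [Algebra C L]

/-- `RO C O₁` is the integral closure of `C[t]` for every `t` with exactly one pole.

Proof. `rt_mem`: `f ∈ Rt C t` iff `f ∈ V` for all valuation rings `V ⊇ C` of `L` with `t ∈ V`: these are `⊤` and the places `O ≠ O₁`. -/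
theorem ro_eq {O₁ : ValuationSubring L} {t : L} (ht : t ∉ O₁)
    (ht' : ∀ O : ValuationSubring L, IsPl C O → O ≠ O₁ → t ∈ O) (f : L) : f ∈ RO C O₁ ↔ f ∈ Rt C t := by
  rw [rt_mem, mem_RO]
  constructor
  · intro h V hV htV
    by_cases hT : V = ⊤
    · rw [hT]; exact ValuationSubring.mem_top f
    · exact h V ⟨hV, hT⟩ (fun h' => ht (h' ▸ htV))
  · intro h O hO hne
    exact h O hO.1 (ht' O hO hne)

/-- An element of `RO C O₁` which is not a constant has a pole at `O₁` (`mem_const`). -/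
theorem ro_ord [IsAlgClosed C] {O₁ : ValuationSubring L} (hO : IsPl C O₁) {o : L → ℤ} (ho : IsOrd C O₁ o) {r : L}
    (hr : r ∈ RO C O₁) (h0 : r ≠ 0) : o r ≤ 0 ∧ (o r = 0 → ∃ c : C, r = algebraMap C L c) := by
  have key : 0 ≤ o r → ∃ c : C, r = algebraMap C L c := by
    intro h
    refine mem_const r (fun O hO' => ?_)
    by_cases hO1 : O = O₁
    · rw [hO1]; exact (ho.mem r h0).2 h
    · exact hr O hO' hO1
  refine ⟨?_, fun h => key h.ge⟩
  by_contra hlt
  push Not at hlt
  obtain ⟨c, hc⟩ := key hlt.le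
  have hc0 : c ≠ 0 := by
    rintro rfl
    rw [map_zero] at hc
    exact h0 hc
  rw [hc, ord_const hO ho hc0] at hlt
  exact lt_irrefl _ hlt

variable {O₁ : ValuationSubring L} {o : L → ℤ} {d : ℕ} [NeZero d] {x : L} {f : ZMod d → L} {w : ZMod d → ℕ}

end GT
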