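import Mathlib
import Pool.Agent.MP_c1dca2_ag.GT.P0
import Pool.Agent.MP_c1dca2_ag.GT.P5a
import Pool.Agent.MP_c1dca2_ag.GT.P5d

set_option autoImplicit false

open Polynomial

namespace GT

/-! ## [GT-P6c] existence of Apery systems -/

variable {C L : Type} [Field C] [Field L] [Algebra C L]

variable {O₁ : ValuationSubring L} {o : L → ℤ} {d : ℕ} [NeZero d] {x : L} {f : ZMod d → L} {w : ZMod d → ℕ}

theorem p6c_term (hO : IsPl C O₁) (ho : IsOrd C O₁ o) (h : Apery C O₁ o d x f w) {c : C} (hc : c ≠ 0)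
    (i : ZMod d) (n : ℕ) : algebraMap C L c * (x ^ n * f i) ≠ 0 ∧
      o (algebraMap C L c * (x ^ n * f i)) = -((d * n + w i : ℕ) : ℤ) := by
  have h1 : algebraMap C L c ≠ 0 := (_root_.map_ne_zero _).2 hc
  have h2 : x ^ n ≠ 0 := pow_ne_zero n h.x_ne
  have h3 : x ^ n * f i ≠ 0 := mul_ne_zero h2 (h.f_ne i)
  refine ⟨mul_ne_zero h1 h3, ?_⟩
  rw [ho.mul _ _ h1 h3, ho.mul _ _ h2 (h.f_ne i), ord_const hO ho hc, ord_pow ho h.x_ne, h.o_x, h.o_f]
  push_cast
  ring

theorem p6c_inj (h : Apery C O₁ o d x f w) {i i' : ZMod d} {n n' : ℕ}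
    (e : d * n + w i = d * n' + w i') : i = i' ∧ n = n' := by
  have h1 : ((d * n + w i : ℕ) : ZMod d) = ((d * n' + w i' : ℕ) : ZMod d) := by rw [e]
  push_cast at h1
  rw [h.w_cast, h.w_cast, ZMod.natCast_self, zero_mul, zero_mul, zero_add, zero_add] at h1
  subst h1
  refine ⟨rfl, ?_⟩
  have h3 : d * n = d * n' := by omega
  exact Nat.eq_of_mul_eq_mul_left (Nat.pos_of_ne_zero (NeZero.ne d)) h3

theorem p6c_aux (hO : IsPl C O₁) (ho : IsOrd C O₁ o) (h : Apery C O₁ o d x f w)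
    (c : (Σ _ : ZMod d, ℕ) → C) (S : Finset (Σ _ : ZMod d, ℕ)) : (∀ s ∈ S, c s ≠ 0) → S.Nonempty →
      ∃ s₀ ∈ S, ∑ s ∈ S, algebraMap C L (c s) * (x ^ s.2 * f s.1) ≠ 0 ∧
        o (∑ s ∈ S, algebraMap C L (c s) * (x ^ s.2 * f s.1)) = -((d * s₀.2 + w s₀.1 : ℕ) : ℤ) ∧
        ∀ s ∈ S, d * s.2 + w s.1 ≤ d * s₀.2 + w s₀.1 := by
  classical
  refine Finset.induction_on_max_value (fun s : (Σ _ : ZMod d, ℕ) => d * s.2 + w s.1) S ?_ ?_
  · intro _ h
    exact absurd h (by simp)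
  · intro a S ha hmax ih hc _
    obtain ⟨h1, h2⟩ := p6c_term hO ho h (hc a (Finset.mem_insert_self _ _)) a.1 a.2
    refine ⟨a, Finset.mem_insert_self _ _, ?_⟩
    rw [Finset.sum_insert ha]
    rcases S.eq_empty_or_nonempty with rfl | hS
    · rw [Finset.sum_empty, add_zero]
      refine ⟨h1, h2, ?_⟩
      intro s hs
      rw [Finset.mem_insert] at hs
      rcases hs with rfl | hs
      · exact le_rfl
      · exact hmax s hs
    · obtain ⟨s₀, hs₀, h3, h4, h5⟩ := ih (fun s hs => hc s (Finset.mem_insert_of_mem hs)) hS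
      have h6 : d * s₀.2 + w s₀.1 < d * a.2 + w a.1 := by
        refine lt_of_le_of_ne (hmax s₀ hs₀) ?_
        intro he
        obtain ⟨h7, h8⟩ := p6c_inj h he
        apply ha
        have : s₀ = a := Sigma.ext h7 (heq_of_eq h8)
        rwa [← this]
      obtain ⟨h7, h8⟩ := ord_add_eq ho h1 h3 (by rw [h2, h4]; omega)
      refine ⟨h7, h8.trans h2, ?_⟩
      intro s hs
      rw [Finset.mem_insert] at hs
      rcases hs with rfl | hs
      · exact le_rfl
      · exact hmax s hs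

/-- The order of a combination of monomials.

Proof. The weights `d n + w i` of the monomials `x ^ n f i` are pairwise different (`w i ≡ i mod d`), so the monomial of largest weight with a nonzero
coefficient has strictly smallest order, and the others add up to zero or something of larger order (`ord_add_eq`, `ord_add`, induction over the finite set of monomials). -/
theorem Apery.ord_sum (hO : IsPl C O₁) (ho : IsOrd C O₁ o) (h : Apery C O₁ o d x f w) (p : ZMod d → C[X]) (hp : p ≠ 0) :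
    ∃ (i : ZMod d) (n : ℕ), (p i).coeff n ≠ 0 ∧ ∑ j, aeval x (p j) * f j ≠ 0 ∧
      o (∑ j, aeval x (p j) * f j) = -((d * n + w i : ℕ) : ℤ) ∧
      ∀ (j : ZMod d) (m : ℕ), (p j).coeff m ≠ 0 → d * m + w j ≤ d * n + w i := by
  classical
  have e : ∑ j, aeval x (p j) * f j = ∑ s ∈ (Finset.univ : Finset (ZMod d)).sigma fun j => (p j).support,
      algebraMap C L ((p s.1).coeff s.2) * (x ^ s.2 * f s.1) := by
    rw [Finset.sum_sigma]
    refine Finset.sum_congr rfl fun j _ => ?_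
    rw [aeval_def, eval₂_eq_sum, Polynomial.sum_def, Finset.sum_mul]
    exact Finset.sum_congr rfl fun m _ => by rw [mul_assoc]
  have hmem : ∀ (j : ZMod d) (m : ℕ), (⟨j, m⟩ : Σ _ : ZMod d, ℕ) ∈
      (Finset.univ : Finset (ZMod d)).sigma (fun j => (p j).support) ↔ (p j).coeff m ≠ 0 := by
    intro j m
    rw [Finset.mem_sigma, mem_support_iff]
    simp
  have hne : ((Finset.univ : Finset (ZMod d)).sigma fun j => (p j).support).Nonempty := by
    obtain ⟨j, hj⟩ := Function.ne_iff.1 hp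
    exact ⟨⟨j, (p j).natDegree⟩, (hmem j _).2 (by
      rw [coeff_natDegree]
      exact leadingCoeff_ne_zero.2 hj)⟩
  obtain ⟨s₀, hs₀, h1, h2, h3⟩ := p6c_aux hO ho h (fun s => (p s.1).coeff s.2) _
    (fun s hs => (hmem s.1 s.2).1 hs) hne
  refine ⟨s₀.1, s₀.2, (hmem _ _).1 hs₀, ?_, ?_, fun j m hjm => h3 ⟨j, m⟩ ((hmem j m).2 hjm)⟩
  · rw [e]
    exact h1
  · rw [e]
    exact h2

end GT
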