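import Mathlib
import Pool.Agent.MP_c1dca2_ag.GT.P0
import Pool.Agent.MP_c1dca2_ag.GT.P5a
import Pool.Agent.MP_c1dca2_ag.GT.P5d
import Pool.Agent.MP_c1dca2_ag.GT.P6a
import Pool.Agent.MP_c1dca2_ag.GT.P6c

set_option autoImplicit false

open Polynomial

namespace GT

/-! ## [GT-P6d] existence of Apery systems -/

variable {C L : Type} [Field C] [Field L] [Algebra C L]

variable {O₁ : ValuationSubring L} {o : L → ℤ} {d : ℕ} [NeZero d] {x : L} {f : ZMod d → L} {w : ZMod d → ℕ}

/-- Every function with poles only at `O₁` is a combination of monomials.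

Proof. Strong induction on the pole order `- o r ≥ 0` (`ro_ord`). `min`: `o r = -(d n + w i)`; `ord_res` for `r` and `x ^ n f i` gives `c ≠ 0` such that
`r' = r - c x ^ n f i` is zero or of smaller pole order, and `r' ∈ RO C O₁`. -/
theorem Apery.exists_repr [IsAlgClosed C] (hO : IsPl C O₁) (ho : IsOrd C O₁ o) (h : Apery C O₁ o d x f w) {r : L} (hr : r ∈ RO C O₁) :
    ∃ p : ZMod d → C[X], r = ∑ j, aeval x (p j) * f j := by
  classical
  suffices H : ∀ (m : ℕ) (r : L), r ∈ RO C O₁ → (r ≠ 0 → (-o r).toNat < m) →
      ∃ p : ZMod d → C[X], r = ∑ j, aeval x (p j) * f j from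
    H ((-o r).toNat + 1) r hr (fun _ => Nat.lt_succ_self _)
  intro m
  induction m with
  | zero =>
    intro r hr h1
    by_cases h0 : r = 0
    · exact ⟨0, by rw [h0]; simp⟩
    · exact absurd (h1 h0) (Nat.not_lt_zero _)
  | succ m ih =>
    intro r hr h1
    by_cases h0 : r = 0
    · exact ⟨0, by rw [h0]; simp⟩
    · obtain ⟨i, n, hin⟩ := h.min r hr h0
      obtain ⟨h2, h3⟩ := p6c_term hO ho h (one_ne_zero (α := C)) i n
      rw [map_one, one_mul] at h2 h3
      obtain ⟨c, -, hc⟩ := ord_res hO ho h0 h2 (hin.trans h3.symm)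
      have h4 : r - c • (x ^ n * f i) ∈ RO C O₁ := by
        rw [Algebra.smul_def]
        exact (RO C O₁).sub_mem hr ((RO C O₁).mul_mem (const_mem_RO O₁ c)
          ((RO C O₁).mul_mem ((RO C O₁).pow_mem h.x_mem n) (h.f_mem i)))
      obtain ⟨p, hp⟩ := ih (r - c • (x ^ n * f i)) h4 (by
        intro h5
        have h6 := h1 h0
        have h7 := (ro_ord hO ho h4 h5).1
        rcases hc with hc | hc
        · exact absurd (sub_eq_zero.2 hc) h5
        · omega)
      refine ⟨fun j => p j + (if j = i then monomial n c else 0), ?_⟩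
      have e : ∑ j, aeval x (p j + (if j = i then monomial n c else 0)) * f j =
          ∑ j, aeval x (p j) * f j + c • (x ^ n * f i) := by
        simp only [map_add, add_mul]
        rw [Finset.sum_add_distrib, Finset.sum_eq_single i (f := fun j => aeval x
          (if j = i then monomial n c else 0) * f j)]
        · rw [if_pos rfl, aeval_monomial, Algebra.smul_def, mul_assoc]
        · intro j _ hj
          rw [if_neg hj, map_zero, zero_mul]
        · intro h; exact absurd (Finset.mem_univ _) h
      rw [e, ← hp]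
      ring

end GT
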