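import Mathlib
import Pool.Agent.MP_c1dca2_ag.GT.Base
import Pool.Agent.MP_c1dca2_ag.GT.Defs
import Pool.Agent.MP_c1dca2_ag.GT.P0
import Pool.Agent.MP_c1dca2_ag.GT.P5d
import Pool.Agent.MP_c1dca2_ag.GT.P6c
import Pool.Agent.MP_c1dca2_ag.SUP.Defs

set_option autoImplicit false

open Polynomial

namespace GT

/-! ## [GT-P7a] the table of an Apery system -/

variable {C L : Type} [Field C] [Field L] [Algebra C L]
variable {O₁ : ValuationSubring L} {o : L → ℤ} {d : ℕ} [NeZero d] {x : L} {f : ZMod d → L} {w : ZMod d → ℕ}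

/-- Uniqueness of the representation: apply `Apery.ord_sum` to the difference. -/
theorem Apery.unique (hO : IsPl C O₁) (ho : IsOrd C O₁ o) (h : Apery C O₁ o d x f w) {p q : ZMod d → C[X]}
    (hpq : ∑ j, aeval x (p j) * f j = ∑ j, aeval x (q j) * f j) : p = q := by
  by_contra hne
  obtain ⟨i, n, -, h2, -, -⟩ := Apery.ord_sum hO ho h (p - q) (sub_ne_zero.2 hne)
  apply h2
  have h3 : ∀ j, aeval x ((p - q) j) * f j = aeval x (p j) * f j - aeval x (q j) * f j := by
    intro j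
    rw [Pi.sub_apply, map_sub, sub_mul]
  rw [Finset.sum_congr rfl fun j _ => h3 j, Finset.sum_sub_distrib, hpq, sub_self]

/-- The pole order in `WB T` is the largest weight of a monomial with a nonzero coefficient (any ring of coefficients).

Proof. `pord b = sInf {m | b ∈ Ble T m}`; there are finitely many monomials with nonzero coefficients. -/
theorem pord_spec {R : Type} [CommRing R] {T : Tab R d} (b : WB T) (hb : b ≠ 0) :
    ∃ (i : ZMod d) (n : ℕ), (b.co i).coeff n ≠ 0 ∧ pord b = d * n + T.w i ∧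
      ∀ (j : ZMod d) (m : ℕ), (b.co j).coeff m ≠ 0 → d * m + T.w j ≤ d * n + T.w i := by
  obtain ⟨S, hS⟩ : ∃ S : Finset (Σ _ : ZMod d, ℕ), S = Finset.univ.sigma fun j => (b.co j).support := ⟨_, rfl⟩
  have hmem : ∀ (j : ZMod d) (n : ℕ), (⟨j, n⟩ : Σ _ : ZMod d, ℕ) ∈ S ↔ (b.co j).coeff n ≠ 0 := by
    intro j n
    rw [hS, Finset.mem_sigma, mem_support_iff]
    exact ⟨fun h => h.2, fun h => ⟨Finset.mem_univ _, h⟩⟩
  have hne : S.Nonempty := by
    by_contra hS0
    apply hb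
    apply WB.ext
    funext j
    ext n
    by_contra hc
    apply hS0
    refine ⟨⟨j, n⟩, (hmem j n).2 ?_⟩
    rwa [WB.co_zero, Pi.zero_apply, coeff_zero] at hc
  obtain ⟨⟨i, n⟩, hin, hmax⟩ := S.exists_max_image (fun z => d * z.2 + T.w z.1) hne
  refine ⟨i, n, (hmem i n).1 hin, ?_, fun j m hj => hmax ⟨j, m⟩ ((hmem j m).2 hj)⟩
  unfold pord
  refine le_antisymm (Nat.sInf_le ?_) (le_csInf ⟨d * n + T.w i, ?_⟩ ?_)
  · intro j m hjm
    by_contra hc
    exact absurd (hmax ⟨j, m⟩ ((hmem j m).2 hc)) (not_le.2 hjm)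
  · intro j m hjm
    by_contra hc
    exact absurd (hmax ⟨j, m⟩ ((hmem j m).2 hc)) (not_le.2 hjm)
  · intro m hm
    by_contra hlt
    exact (hmem i n).1 hin (hm i n (not_le.1 hlt))

end GT
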