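import Mathlib
import Pool.Agent.MP_c1dca2_ag.GT.Base
import Pool.Agent.MP_c1dca2_ag.GT.Defs
import Pool.Agent.MP_c1dca2_ag.GT.P0
import Pool.Agent.MP_c1dca2_ag.GT.P5d
import Pool.Agent.MP_c1dca2_ag.GT.P6c
import Pool.Agent.MP_c1dca2_ag.GT.P6d
import Pool.Agent.MP_c1dca2_ag.GT.P7a
import Pool.Agent.MP_c1dca2_ag.SUP.Defs

set_option autoImplicit false

open Polynomial

namespace GT

/-! ## [GT-P7b] the table of an Apery system -/

variable {C L : Type} [Field C] [Field L] [Algebra C L]
variable {O₁ : ValuationSubring L} {o : L → ℤ} {d : ℕ} [NeZero d] {x : L} {f : ZMod d → L} {w : ZMod d → ℕ}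

/-- The structure constants.

Proof. `f i * f j ∈ RO C O₁`, so `Apery.exists_repr` gives the polynomials `c i j k`, unique by `Apery.unique`. `comm`, `one` (`f 0 = 1`) and `assoc` (expand `(f i f j) f k = f i (f j f k)`)
follow from uniqueness. `small`: `Apery.ord_sum` for `p = c i j`: `o (f i * f j) = -(w i + w j)` is minus the largest weight of a monomial with nonzero coefficient. `top`: the monomial `X ^ n f k` of
largest weight satisfies `d n + w k = w i + w j`, so `k = i + j` (modulo `d`, `w_cast`); its coefficient `a` is `1`: by `h.lc`, `f i f j - x ^ n f (i+j)` is zero or has smaller pole order, and it is the combination with the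
coefficient `a - 1` at this monomial: if `a ≠ 1` then `ord_sum` gives the order `-(w i + w j)`, contradiction. -/
theorem Apery.exists_tab [IsAlgClosed C] (hO : IsPl C O₁) (ho : IsOrd C O₁ o) (h : Apery C O₁ o d x f w) :
    ∃ T : Tab C d, T.w = w ∧ ∀ i j, f i * f j = ∑ k, aeval x (T.c i j k) * f k := by
  have h1 : ∀ i j, ∃ p : ZMod d → C[X], f i * f j = ∑ k, aeval x (p k) * f k := fun i j =>
    h.exists_repr hO ho ((RO C O₁).mul_mem (h.f_mem i) (h.f_mem j))
  choose c hc using h1
  have huniq : ∀ {p q : ZMod d → C[X]}, ∑ j, aeval x (p j) * f j = ∑ j, aeval x (q j) * f j → p = q :=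
    fun hpq => h.unique hO ho hpq
  have hcomm : ∀ i j, c i j = c j i := by
    intro i j
    apply huniq
    rw [← hc, ← hc, mul_comm]
  have hff : ∀ i j, f i * f j ≠ 0 := fun i j => mul_ne_zero (h.f_ne i) (h.f_ne j)
  have hc0 : ∀ i j, c i j ≠ 0 := by
    intro i j h0
    apply hff i j
    rw [hc, h0]
    simp
  have hoff : ∀ i j, o (f i * f j) = -((w i + w j : ℕ) : ℤ) := by
    intro i j
    rw [ho.mul _ _ (h.f_ne i) (h.f_ne j), h.o_f, h.o_f]
    push_cast; ring
  have htop : ∀ i j, ∃ (k : ZMod d) (n : ℕ), (c i j k).coeff n ≠ 0 ∧ d * n + w k = w i + w j ∧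
      ∀ (j' : ZMod d) (m : ℕ), (c i j j').coeff m ≠ 0 → d * m + w j' ≤ w i + w j := by
    intro i j
    obtain ⟨k, n, e1, e2, e3, e4⟩ := h.ord_sum hO ho (c i j) (hc0 i j)
    rw [← hc, hoff] at e3
    have e5 : d * n + w k = w i + w j := by omega
    exact ⟨k, n, e1, e5, fun j' m hm => by rw [← e5]; exact e4 j' m hm⟩
  refine ⟨⟨w, fun i j k => c i j k, h.w_cast, h.w_zero, fun i j k => by rw [hcomm], ?_, ?_, ?_, ?_⟩, rfl, hc⟩
  · intro j k
    have e : c 0 j = fun k => if k = j then 1 else 0 := by
      apply huniq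
      rw [← hc, h.f_zero, one_mul, Finset.sum_eq_single j]
      · simp
      · intro b _ hb
        simp [hb]
      · intro hj
        exact absurd (Finset.mem_univ _) hj
    change c 0 j k = _
    rw [e]
  · intro i j k n
    have e : (fun n => ∑ m, c i j m * c m k n) = fun n => ∑ m, c j k m * c i m n := by
      apply huniq
      have e1 : ∑ n, aeval x (∑ m, c i j m * c m k n) * f n = (f i * f j) * f k := by
        rw [hc i j, Finset.sum_mul]
        simp only [map_sum, map_mul, Finset.sum_mul]
        rw [Finset.sum_comm]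
        refine Finset.sum_congr rfl fun m _ => ?_
        rw [mul_assoc, hc m k, Finset.mul_sum]
        exact Finset.sum_congr rfl fun n _ => by ring
      have e2 : ∑ n, aeval x (∑ m, c j k m * c i m n) * f n = f i * (f j * f k) := by
        rw [hc j k, Finset.mul_sum]
        simp only [map_sum, map_mul, Finset.sum_mul]
        rw [Finset.sum_comm]
        refine Finset.sum_congr rfl fun m _ => ?_
        rw [show f i * (aeval x (c j k m) * f m) = aeval x (c j k m) * (f i * f m) by ring, hc i m,
          Finset.mul_sum]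
        exact Finset.sum_congr rfl fun n _ => by ring
      rw [e1, e2, mul_assoc]
    exact congrFun e n
  · intro i j
    obtain ⟨k, n, e1, e2, e3⟩ := htop i j
    have hk : k = i + j := by
      have := congrArg (Nat.cast : ℕ → ZMod d) e2
      push_cast at this
      rw [h.w_cast, h.w_cast, h.w_cast, ZMod.natCast_self, zero_mul, zero_add] at this
      exact this
    subst hk
    refine ⟨n, e2, ?_⟩
    change (c i j (i + j)).coeff n = 1
    by_contra ha
    obtain ⟨q, hq⟩ : ∃ q : ZMod d → C[X], q = c i j - Pi.single (i + j) (X ^ n) := ⟨_, rfl⟩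
    have hqs : ∑ k, aeval x (q k) * f k = f i * f j - x ^ n * f (i + j) := by
      rw [hc i j, hq]
      simp only [Pi.sub_apply, map_sub, sub_mul, Finset.sum_sub_distrib]
      congr 1
      rw [Finset.sum_eq_single (i + j)]
      · simp
      · intro b _ hb
        simp [Pi.single_eq_of_ne hb]
      · intro hj
        exact absurd (Finset.mem_univ _) hj
    have hqn : (q (i + j)).coeff n ≠ 0 := by
      rw [hq, Pi.sub_apply, Pi.single_eq_same, coeff_sub, coeff_X_pow, if_pos rfl]
      exact sub_ne_zero.mpr ha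
    have hq0 : q ≠ 0 := by
      intro h0
      rw [h0] at hqn
      simp at hqn
    obtain ⟨k1, n1, g1, g2, g3, g4⟩ := h.ord_sum hO ho q hq0
    have g5 := g4 _ _ hqn
    rw [e2] at g5
    rw [hqs] at g2 g3
    rcases h.lc i j n e2 with h6 | h6
    · exact g2 (sub_eq_zero.mpr h6)
    · rw [g3] at h6
      omega
  · intro i j k n hlt
    obtain ⟨k', n', e1, e2, e3⟩ := htop i j
    by_contra hne
    have := e3 k n hne
    omega

end GT
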