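import Mathlib
import Pool.Agent.MP_c1dca2_ag.GT.Base
import Pool.Agent.MP_c1dca2_ag.GT.Defs
import Pool.Agent.MP_c1dca2_ag.GT.P0
import Pool.Agent.MP_c1dca2_ag.GT.P5d
import Pool.Agent.MP_c1dca2_ag.SUP.Defs

set_option autoImplicit false

open Polynomial

namespace GT

/-! ## [GT-P8d] models of function fields with one place at infinity -/

variable {C L : Type} [Field C] [Field L] [Algebra C L]

/-- `WB T` is, by `E`, the ring of functions on `L / C` with poles only at `O₁`. -/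
structure Model (O₁ : ValuationSubring L) {d : ℕ} [NeZero d] (T : Tab C d) (E : WB T →+* L) : Prop where
  alg : ∀ c : C, E (algebraMap C (WB T) c) = algebraMap C L c
  inj : Function.Injective E
  range : ∀ f : L, f ∈ RO C O₁ ↔ ∃ b, E b = f
  frac : ∀ f : L, ∃ a b : WB T, b ≠ 0 ∧ f * E b = E a
  ord : ∀ a b : WB T, a ≠ 0 → b ≠ 0 → (E a / E b ∈ O₁ ↔ pord a ≤ pord b)
  ordo : ∀ o : L → ℤ, IsOrd C O₁ o → ∀ b : WB T, b ≠ 0 → o (E b) = -(pord b : ℤ)
  ded : IsDedekindDomain (WB T)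

variable {O₁ : ValuationSubring L} {d : ℕ} [NeZero d] {T : Tab C d} {E : WB T →+* L}

end GT
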