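import Mathlib

set_option autoImplicit false

open Polynomial

namespace GT

/-! ## [GT-P3a] codimensions of ideals; a function with few poles -/

theorem p3a_step {C D : Type} [Field C] [CommRing D] [IsDedekindDomain D] [Algebra C D] (p J : Ideal D)
    (hp : p.IsPrime) (hJ : J ≠ ⊥) (hfin : FiniteDimensional C (D ⧸ (p * J))) :
    FiniteDimensional C (D ⧸ J) ∧
      Module.finrank C (D ⧸ J) + 1 ≤ Module.finrank C (D ⧸ (p * J)) := by
  have hle : p * J ≤ J := Ideal.mul_le_right
  let φ : (D ⧸ (p * J)) →ₗ[C] (D ⧸ J) := (Ideal.Quotient.factorₐ C hle).toLinearMap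
  have hs : Function.Surjective φ := Ideal.Quotient.factor_surjective hle
  have hfin' : FiniteDimensional C (D ⧸ J) := Module.Finite.of_surjective φ hs
  refine ⟨hfin', ?_⟩
  have h1 := LinearMap.finrank_range_add_finrank_ker φ
  rw [LinearMap.range_eq_top.2 hs, finrank_top] at h1
  have h2 : 0 < Module.finrank C (LinearMap.ker φ) := by
    rw [Module.finrank_pos_iff, Submodule.nontrivial_iff_ne_bot]
    intro h0
    have hinj : Function.Injective φ := LinearMap.ker_eq_bot.1 h0
    have hJp : J ≤ p * J := by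
      intro x hx
      have h3 : φ (Ideal.Quotient.mk (p * J) x) = 0 := by
        show Ideal.Quotient.factor hle (Ideal.Quotient.mk (p * J) x) = 0
        rw [Ideal.Quotient.factor_mk]
        exact Ideal.Quotient.eq_zero_iff_mem.2 hx
      have h4 : Ideal.Quotient.mk (p * J) x = 0 := hinj (by rw [h3, map_zero])
      exact Ideal.Quotient.eq_zero_iff_mem.1 h4
    have h5 : p * J = 1 * J := by
      rw [one_mul]; exact le_antisymm hle hJp
    have h6 : p = 1 := mul_right_cancel₀ (by simpa using hJ) h5
    exact hp.ne_top (by rw [h6]; exact Ideal.one_eq_top)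
  omega

/-- Proof. Induction on `m`. `p ^ (m+1) * I < p ^ m * I` (strict: `mul_right_injective₀`-type cancellation in the
Dedekind domain, `p ≠ ⊤`, `p ^ m * I ≠ ⊥`), so the surjection `D ⧸ (p ^ (m+1) * I) → D ⧸ (p ^ m * I)`
(`Ideal.Quotient.factor`) has a nonzero kernel and the dimension strictly decreases. -/
theorem finrank_add_le {C D : Type} [Field C] [CommRing D] [IsDedekindDomain D] [Algebra C D] (p I : Ideal D)
    (hp : p.IsPrime) (hp0 : p ≠ ⊥) (hI : I ≠ ⊥) (m : ℕ) (hfin : FiniteDimensional C (D ⧸ (p ^ m * I))) :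
    FiniteDimensional C (D ⧸ I) ∧
      Module.finrank C (D ⧸ I) + m ≤ Module.finrank C (D ⧸ (p ^ m * I)) := by
  induction m with
  | zero =>
    rw [pow_zero, one_mul] at hfin ⊢
    exact ⟨hfin, by omega⟩
  | succ m ih =>
    have e : p ^ (m + 1) * I = p * (p ^ m * I) := by rw [pow_succ']; ring
    rw [e] at hfin ⊢
    have hne : p ^ m * I ≠ ⊥ := by
      have : p ^ m * I ≠ 0 := mul_ne_zero (pow_ne_zero m (by simpa using hp0)) (by simpa using hI)
      simpa using this
    obtain ⟨h1, h2⟩ := p3a_step p (p ^ m * I) hp hne hfin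
    obtain ⟨h3, h4⟩ := ih h1
    exact ⟨h3, by omega⟩

variable {C L : Type} [Field C] [Field L] [Algebra C L]

end GT
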