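import Mathlib
import Pool.Agent.MP_c1dca2_ag.GT.Base
import Pool.Agent.MP_c1dca2_ag.GT.Defs
import Pool.Agent.MP_c1dca2_ag.SUP.Defs

set_option autoImplicit false
set_option linter.unusedSectionVars false

open Polynomial

namespace GT

/-! ## [GT-A1] the filtration by the order of the pole at infinity (file A1.lean)

The pairs `(j, i)` have the weight `d i + T.w j`; the weights of different pairs are different
(`Tab.wt_inj`). -/

variable {d : ℕ} [NeZero d] {R : Type} [CommRing R] {T : Tab R d}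

theorem Ble_mono {m m' : ℕ} (h : m ≤ m') : Ble T m ≤ Ble T m' := by
  intro b hb j i hji
  exact hb j i (lt_of_le_of_lt h hji)

/-- Finitely many coordinates, each of finite degree. -/
theorem exists_Ble (b : WB T) : ∃ m, b ∈ Ble T m := by
  refine ⟨d * (∑ j, (b.co j).natDegree) + ∑ j, T.w j, fun j i h => ?_⟩
  apply coeff_eq_zero_of_natDegree_lt
  by_contra hcon
  have hcon' : i ≤ (b.co j).natDegree := not_lt.1 hcon
  have h1 : (b.co j).natDegree ≤ ∑ j, (b.co j).natDegree :=
    Finset.single_le_sum (f := fun j => (b.co j).natDegree) (fun _ _ => Nat.zero_le _)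
      (Finset.mem_univ j)
  have h2 : T.w j ≤ ∑ j, T.w j :=
    Finset.single_le_sum (f := fun j => T.w j) (fun _ _ => Nat.zero_le _) (Finset.mem_univ j)
  have h3 : d * i ≤ d * ∑ j, (b.co j).natDegree := Nat.mul_le_mul_left _ (hcon'.trans h1)
  omega

/-- `pord b` is the least `m` with `b ∈ Ble m`, and `Ble` is monotone. -/
theorem mem_Ble_iff (b : WB T) (m : ℕ) : b ∈ Ble T m ↔ pord b ≤ m := by
  constructor
  · intro h
    exact Nat.sInf_le h
  · intro h
    exact Ble_mono h (Nat.sInf_mem (exists_Ble b))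

theorem mem_Ble_pord (b : WB T) : b ∈ Ble T (pord b) := (mem_Ble_iff b _).2 le_rfl

/-- Only the index `j` contributes to the sum in `lcf_apply` (`wt_inj`; if `wt j' ≤ m` and
`d ∣ m - wt j'` then `m = d i' + wt j'`). -/
theorem lcf_eq (j : ZMod d) (i : ℕ) (b : WB T) :
    lcf T (d * i + T.w j) b = (b.co j).coeff i := by
  rw [lcf_apply, Finset.sum_eq_single j]
  · rw [Nat.add_sub_cancel, Nat.mul_mod_right, if_pos ⟨Nat.le_add_left _ _, rfl⟩,
      Nat.mul_div_cancel_left _ (Nat.pos_of_ne_zero (NeZero.ne d))]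
  · intro j' _ hj'
    rw [if_neg]
    rintro ⟨h1, h2⟩
    have h3 := Nat.mod_add_div (d * i + T.w j - T.w j') d
    rw [h2] at h3
    have h4 : d * ((d * i + T.w j - T.w j') / d) + T.w j' = d * i + T.w j := by omega
    exact hj' (T.wt_inj h4).1
  · intro h
    exact absurd (Finset.mem_univ _) h

/-- The sum in `lcf_apply` is empty. -/
theorem lcf_none {m : ℕ} (h : ∀ (j : ZMod d) (i : ℕ), d * i + T.w j ≠ m) (b : WB T) :
    lcf T m b = 0 := by
  rw [lcf_apply]
  refine Finset.sum_eq_zero fun j _ => ?_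
  rw [if_neg]
  rintro ⟨h1, h2⟩
  have h3 := Nat.mod_add_div (m - T.w j) d
  rw [h2] at h3
  exact h j ((m - T.w j) / d) (by omega)

/-- The only coefficient to check is the one of weight `m + 1`, `lcf_eq`. -/
theorem Ble_pred {m : ℕ} {b : WB T} (hb : b ∈ Ble T (m + 1))
    (h : lcf T (m + 1) b = 0) : b ∈ Ble T m := by
  intro j i hji
  rcases Nat.lt_or_ge (m + 1) (d * i + T.w j) with h1 | h1
  · exact hb j i h1
  · have h2 : d * i + T.w j = m + 1 := by omega
    have h3 := lcf_eq j i b
    rw [h2, h] at h3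
    exact h3.symm

/-- All coefficients of weight `> 0` vanish, the only other one is that of `v_0 = 1`. -/
theorem Ble_zero {b : WB T} (hb : b ∈ Ble T 0)
    (h : lcf T 0 b = 0) : b = 0 := by
  refine WB.ext (funext fun j => ?_)
  ext i
  rw [WB.co_zero, Pi.zero_apply, coeff_zero]
  rcases Nat.eq_zero_or_pos (d * i + T.w j) with h1 | h1
  · have h3 := lcf_eq j i b
    rw [h1, h] at h3
    exact h3.symm
  · exact hb j i h1

theorem lc_ne {b : WB T} (hb : b ≠ 0) : lc b ≠ 0 := by
  intro h
  have h0 : lcf T (pord b) b = 0 := h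
  have h1 := mem_Ble_pord b
  rcases hp : pord b with _ | m
  · rw [hp] at h0 h1
    exact hb (Ble_zero h1 h0)
  · rw [hp] at h0 h1
    have h2 := (mem_Ble_iff b m).1 (Ble_pred h1 h0)
    omega

theorem lc_eq_zero_iff (b : WB T) : lc b = 0 ↔ b = 0 := by
  constructor
  · intro h
    by_contra hb
    exact lc_ne hb h
  · rintro rfl
    exact map_zero _

/-- If `b ∈ Ble m` and `lcf m b ≠ 0` then `pord b = m`. -/
theorem pord_eq_of {m : ℕ} {b : WB T} (hb : b ∈ Ble T m)
    (h : lcf T m b ≠ 0) : pord b = m := by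
  apply le_antisymm ((mem_Ble_iff b m).1 hb)
  by_contra hlt
  have hlt' : pord b < m := not_le.1 hlt
  apply h
  by_cases h2 : ∃ (j : ZMod d) (i : ℕ), d * i + T.w j = m
  · obtain ⟨j, i, h3⟩ := h2
    rw [← h3, lcf_eq]
    exact mem_Ble_pord b j i (by rw [h3]; exact hlt')
  · exact lcf_none (fun j i h3 => h2 ⟨j, i, h3⟩) b

/-- `b - c ∈ Ble m` and `lcf m (b - c) = 0` for `m = pord b`. -/
theorem pord_sub_lt {b c : WB T} (h : pord b = pord c)
    (hlc : lc b = lc c) (hbc : b ≠ c) : pord (b - c) < pord b := by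
  have hne : b - c ≠ 0 := sub_ne_zero.2 hbc
  have h1 : b - c ∈ Ble T (pord b) :=
    Submodule.sub_mem _ (mem_Ble_pord b) (by rw [h]; exact mem_Ble_pord c)
  have hlc' : lcf T (pord b) b = lcf T (pord c) c := hlc
  have h2 : lcf T (pord b) (b - c) = 0 := by
    rw [map_sub, hlc', h, sub_self]
  rcases hp : pord b with _ | m
  · rw [hp] at h1 h2
    exact absurd (Ble_zero h1 h2) hne
  · rw [hp] at h1 h2
    have h3 := (mem_Ble_iff _ m).1 (Ble_pred h1 h2)
    omega

theorem pord_smul_le (r : R) (b : WB T) : pord (r • b) ≤ pord b := by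
  rw [← mem_Ble_iff]
  exact Submodule.smul_mem _ r (mem_Ble_pord b)

end GT
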