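import Mathlib
import Pool.Agent.MP_c1dca2_ag.GT.A1
import Pool.Agent.MP_c1dca2_ag.GT.Base
import Pool.Agent.MP_c1dca2_ag.GT.Defs
import Pool.Agent.MP_c1dca2_ag.SUP.Defs

set_option autoImplicit false
set_option linter.unusedSectionVars false

open Polynomial

namespace GT

/-! ## [GT-A2] the order of the pole is additive (file A2.lean; uses A1) -/

variable {d : ℕ} [NeZero d] {R : Type} [CommRing R] {T : Tab R d}

theorem a2_lcf_zero {m m' : ℕ} {b : WB T} (hb : b ∈ Ble T m)
    (h : m < m') : lcf T m' b = 0 := by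
  by_cases h2 : ∃ (j : ZMod d) (i : ℕ), d * i + T.w j = m'
  · obtain ⟨j, i, h3⟩ := h2
    rw [← h3, lcf_eq]
    exact hb j i (by omega)
  · exact lcf_none (fun j i h3 => h2 ⟨j, i, h3⟩) b

theorem a2_pred {m : ℕ} {b : WB T} (hb : b ∈ Ble T m)
    (h : ¬ ∃ (j : ZMod d) (i : ℕ), d * i + T.w j = m) :
    ∃ m₁, m = m₁ + 1 ∧ b ∈ Ble T m₁ := by
  rcases m with _ | m
  · exact absurd ⟨0, 0, by rw [T.w_zero, mul_zero]⟩ h
  · exact ⟨m, rfl, Ble_pred hb (lcf_none (fun j i h3 => h ⟨j, i, h3⟩) b)⟩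

/-- a nonzero coefficient of a term of the product -/
theorem a2_term (b c : WB T) (i j k : ZMod d) (n : ℕ)
    (h : (T.c i j k * (b.co i * c.co j)).coeff n ≠ 0) :
    ∃ n₁ n₂ n₃, n₁ + (n₂ + n₃) = n ∧ (T.c i j k).coeff n₁ ≠ 0 ∧ (b.co i).coeff n₂ ≠ 0 ∧
      (c.co j).coeff n₃ ≠ 0 := by
  rw [coeff_mul] at h
  obtain ⟨⟨n₁, m⟩, h1, h2⟩ := Finset.exists_ne_zero_of_sum_ne_zero h
  rw [Finset.HasAntidiagonal.mem_antidiagonal] at h1
  have h3 : (b.co i * c.co j).coeff m ≠ 0 := right_ne_zero_of_mul h2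
  rw [coeff_mul] at h3
  obtain ⟨⟨n₂, n₃⟩, h4, h5⟩ := Finset.exists_ne_zero_of_sum_ne_zero h3
  rw [Finset.HasAntidiagonal.mem_antidiagonal] at h4
  refine ⟨n₁, n₂, n₃, ?_, left_ne_zero_of_mul h2, left_ne_zero_of_mul h5, right_ne_zero_of_mul h5⟩
  rw [h4]
  exact h1

theorem a2_small {i j k : ZMod d} {n : ℕ} (h : (T.c i j k).coeff n ≠ 0) :
    d * n + T.w k ≤ T.w i + T.w j := by
  by_contra hc
  exact h (T.small i j k n (not_le.1 hc))

theorem a2_le {m : ℕ} {b : WB T} (hb : b ∈ Ble T m) {i : ZMod d} {n : ℕ}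
    (h : (b.co i).coeff n ≠ 0) : d * n + T.w i ≤ m := by
  by_contra hc
  exact h (hb i n (not_le.1 hc))

/-- `(b c)_k = ∑ c i j k b_i c_j`. -/
theorem Ble_mul {m m' : ℕ} {b c : WB T} (hb : b ∈ Ble T m) (hc : c ∈ Ble T m') :
    b * c ∈ Ble T (m + m') := by
  intro k n hn
  rw [WB.co_mul, finsetSum_coeff]
  refine Finset.sum_eq_zero fun i _ => ?_
  rw [finsetSum_coeff]
  refine Finset.sum_eq_zero fun j _ => ?_
  by_contra hne
  obtain ⟨n₁, n₂, n₃, g0, g1, g2, g3⟩ := a2_term b c i j k n hne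
  have g4 := a2_small g1
  have g5 := a2_le hb g2
  have g6 := a2_le hc g3
  have g7 : d * n = d * n₁ + (d * n₂ + d * n₃) := by rw [← g0, mul_add, mul_add]
  omega

/-- The leading coefficient is multiplicative. -/
theorem lcf_mul {m m' : ℕ} {b c : WB T} (hb : b ∈ Ble T m) (hc : c ∈ Ble T m') :
    lcf T (m + m') (b * c) = lcf T m b * lcf T m' c := by
  by_cases h1 : ∃ (i : ZMod d) (n : ℕ), d * n + T.w i = m
  · by_cases h2 : ∃ (j : ZMod d) (n : ℕ), d * n + T.w j = m'
    · obtain ⟨i, p, rfl⟩ := h1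
      obtain ⟨j, q, rfl⟩ := h2
      obtain ⟨a, ha, ha1⟩ := T.top i j
      have h3 : d * p + T.w i + (d * q + T.w j) =
          d * (a + (p + q)) + T.w (i + j) := by
        rw [mul_add, mul_add]
        omega
      have key : ∀ (i' j' : ZMod d) (n₁ n₂ n₃ : ℕ), n₁ + (n₂ + n₃) = a + (p + q) →
          (T.c i' j' (i + j)).coeff n₁ ≠ 0 → (b.co i').coeff n₂ ≠ 0 → (c.co j').coeff n₃ ≠ 0 →
          i' = i ∧ j' = j ∧ n₁ = a ∧ n₂ = p ∧ n₃ = q := by
        intro i' j' n₁ n₂ n₃ g0 g1 g2 g3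
        have g4 := a2_small g1
        have g5 := a2_le hb g2
        have g6 := a2_le hc g3
        have g7 : d * (a + (p + q)) = d * n₁ + (d * n₂ + d * n₃) := by
          rw [← g0, mul_add, mul_add]
        have e1 : d * n₂ + T.w i' = d * p + T.w i := by omega
        have e2 : d * n₃ + T.w j' = d * q + T.w j := by omega
        have e3 := T.wt_inj e1
        have e4 := T.wt_inj e2
        refine ⟨e3.1, e4.1, ?_, e3.2, e4.2⟩
        have e5 := e3.2
        have e6 := e4.2
        omega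
      rw [h3, lcf_eq, lcf_eq, lcf_eq, WB.co_mul, finsetSum_coeff, Finset.sum_eq_single i]
      · rw [finsetSum_coeff, Finset.sum_eq_single j]
        · rw [coeff_mul, Finset.sum_eq_single (a, p + q)]
          · rw [ha1, one_mul, coeff_mul, Finset.sum_eq_single (p, q)]
            · rintro ⟨n₂, n₃⟩ h4 h5
              rw [Finset.HasAntidiagonal.mem_antidiagonal] at h4
              by_contra hne
              obtain ⟨-, -, -, e1, e2⟩ := key i j a n₂ n₃ (by simp only at h4; omega)
                (by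
                  intro h0
                  have h01 : (1 : R) = 0 := by rw [← ha1, h0]
                  apply hne
                  rw [← mul_one ((b.co i).coeff (n₂, n₃).1 * _), h01, mul_zero])
                (left_ne_zero_of_mul hne) (right_ne_zero_of_mul hne)
              exact h5 (by rw [e1, e2])
            · intro h4
              exact absurd (by rw [Finset.HasAntidiagonal.mem_antidiagonal]) h4
          · rintro ⟨n₁, m⟩ h4 h5
            rw [Finset.HasAntidiagonal.mem_antidiagonal] at h4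
            by_contra hne
            have h6 : (b.co i * c.co j).coeff m ≠ 0 := right_ne_zero_of_mul hne
            rw [coeff_mul] at h6
            obtain ⟨⟨n₂, n₃⟩, h7, h8⟩ := Finset.exists_ne_zero_of_sum_ne_zero h6
            rw [Finset.HasAntidiagonal.mem_antidiagonal] at h7
            simp only at h4 h7
            obtain ⟨-, -, e0, e1, e2⟩ := key i j n₁ n₂ n₃ (by omega) (left_ne_zero_of_mul hne)
              (left_ne_zero_of_mul h8) (right_ne_zero_of_mul h8)
            exact h5 (by rw [e0, ← h7, e1, e2])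
          · intro h4
            exact absurd (by rw [Finset.HasAntidiagonal.mem_antidiagonal]) h4
        · intro j' _ hj'
          by_contra hne
          obtain ⟨n₁, n₂, n₃, g0, g1, g2, g3⟩ := a2_term b c i j' (i + j) _ hne
          exact hj' (key i j' n₁ n₂ n₃ g0 g1 g2 g3).2.1
        · intro h
          exact absurd (Finset.mem_univ _) h
      · intro i' _ hi'
        rw [finsetSum_coeff]
        refine Finset.sum_eq_zero fun j' _ => ?_
        by_contra hne
        obtain ⟨n₁, n₂, n₃, g0, g1, g2, g3⟩ := a2_term b c i' j' (i + j) _ hne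
        exact hi' (key i' j' n₁ n₂ n₃ g0 g1 g2 g3).1
      · intro h
        exact absurd (Finset.mem_univ _) h
    · obtain ⟨m₁, rfl, h5⟩ := a2_pred hc h2
      rw [lcf_none (fun j i h3 => h2 ⟨j, i, h3⟩) c, mul_zero]
      exact a2_lcf_zero (Ble_mul hb h5) (by omega)
  · obtain ⟨m₁, rfl, h5⟩ := a2_pred hb h1
    rw [lcf_none (fun j i h3 => h1 ⟨j, i, h3⟩) b, zero_mul]
    exact a2_lcf_zero (Ble_mul h5 hc) (by omega)

end GT
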