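import Mathlib
import Pool.Agent.MP_c1dca2_ag.GT.A1
import Pool.Agent.MP_c1dca2_ag.GT.A2
import Pool.Agent.MP_c1dca2_ag.GT.Base
import Pool.Agent.MP_c1dca2_ag.GT.Defs
import Pool.Agent.MP_c1dca2_ag.SUP.Defs

set_option autoImplicit false
set_option linter.unusedSectionVars false

open Polynomial

namespace GT

/-! ## [GT-A3] `B` is a domain; order of the pole and leading coefficient of products
(file A3.lean; uses A1, A2) -/

variable {d : ℕ} [NeZero d]

section domain

variable {R : Type} [CommRing R] [IsDomain R] {T : Tab R d}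

/-- `lcf (pord b + pord c) (b c) = lc b * lc c ≠ 0`. -/
theorem mul_ne {b c : WB T} (hb : b ≠ 0) (hc : c ≠ 0) : b * c ≠ 0 := by
  have h := lcf_mul (mem_Ble_pord b) (mem_Ble_pord c)
  intro h0
  rw [h0, map_zero] at h
  exact mul_ne_zero (lc_ne hb) (lc_ne hc) h.symm

theorem pord_mul {b c : WB T} (hb : b ≠ 0) (hc : c ≠ 0) :
    pord (b * c) = pord b + pord c := by
  refine pord_eq_of (Ble_mul (mem_Ble_pord b) (mem_Ble_pord c)) ?_
  rw [lcf_mul (mem_Ble_pord b) (mem_Ble_pord c)]
  exact mul_ne_zero (lc_ne hb) (lc_ne hc)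

theorem a3_lc_zero : lc (0 : WB T) = 0 := (lc_eq_zero_iff 0).2 rfl

theorem a3_pord_zero : pord (0 : WB T) = 0 :=
  Nat.le_zero.1 ((mem_Ble_iff (0 : WB T) 0).1 (Submodule.zero_mem _))

theorem a3_mem (p : R[X]) : algebraMap R[X] (WB T) p ∈ Ble T (d * p.natDegree) := by
  rw [mem_Ble]
  intro j i h
  rw [WB.algebraMap_co]
  split_ifs with hj
  · subst hj
    rw [T.w_zero, add_zero] at h
    exact coeff_eq_zero_of_natDegree_lt (lt_of_mul_lt_mul_left h (Nat.zero_le _))
  · exact coeff_zero i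

theorem a3_lcf (p : R[X]) :
    lcf T (d * p.natDegree) (algebraMap R[X] (WB T) p) = p.leadingCoeff := by
  have h := lcf_eq 0 p.natDegree (algebraMap R[X] (WB T) p)
  rw [T.w_zero, add_zero, WB.algebraMap_co, if_pos rfl] at h
  exact h

theorem a3_pord (p : R[X]) :
    pord (algebraMap R[X] (WB T) p) = d * p.natDegree := by
  by_cases hp : p = 0
  · rw [hp, map_zero, natDegree_zero, mul_zero, a3_pord_zero]
  · refine pord_eq_of (a3_mem p) ?_
    rw [a3_lcf]
    exact leadingCoeff_ne_zero.2 hp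

theorem a3_lc (p : R[X]) :
    lc (algebraMap R[X] (WB T) p) = p.leadingCoeff := by
  unfold lc
  rw [a3_pord, a3_lcf]

theorem lc_mul (b c : WB T) : lc (b * c) = lc b * lc c := by
  by_cases hb : b = 0
  · rw [hb, zero_mul, a3_lc_zero, zero_mul]
  by_cases hc : c = 0
  · rw [hc, mul_zero, a3_lc_zero, mul_zero]
  have h := lcf_mul (mem_Ble_pord b) (mem_Ble_pord c)
  rw [← pord_mul hb hc] at h
  exact h

theorem pord_one : pord (1 : WB T) = 0 := by
  have h := a3_pord (T := T) (1 : R[X])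
  rwa [map_one, natDegree_one, mul_zero] at h

theorem lc_one : lc (1 : WB T) = 1 := by
  have h := a3_lc (T := T) (1 : R[X])
  rwa [map_one, leadingCoeff_one] at h

theorem a3_pow_ne {b : WB T} (hb : b ≠ 0) (n : ℕ) : b ^ n ≠ 0 := by
  induction n with
  | zero =>
    rw [pow_zero]
    intro h
    have h1 := lc_one (T := T)
    rw [h, a3_lc_zero] at h1
    exact zero_ne_one h1
  | succ n ih =>
    rw [pow_succ]
    exact mul_ne ih hb

theorem pord_pow {b : WB T} (hb : b ≠ 0) (n : ℕ) :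
    pord (b ^ n) = n * pord b := by
  induction n with
  | zero => rw [pow_zero, pord_one, zero_mul]
  | succ n ih => rw [pow_succ, pord_mul (a3_pow_ne hb n) hb, ih, Nat.succ_mul]

theorem lc_pow (b : WB T) (n : ℕ) : lc (b ^ n) = lc b ^ n := by
  induction n with
  | zero => rw [pow_zero, pow_zero, lc_one]
  | succ n ih => rw [pow_succ, pow_succ, lc_mul, ih]

theorem pord_algebraMap (p : R[X]) :
    pord (algebraMap R[X] (WB T) p) = d * p.natDegree := by
  exact a3_pord p

theorem lc_algebraMap (p : R[X]) :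
    lc (algebraMap R[X] (WB T) p) = p.leadingCoeff := by
  exact a3_lc p

theorem a3_mem_v (j : ZMod d) : WB.f T j ∈ Ble T (T.w j) := by
  rw [mem_Ble]
  intro j' i h
  rw [WB.f_co]
  by_cases hj : j' = j
  · subst hj
    rw [Pi.single_eq_same, coeff_one, if_neg]
    rintro rfl
    rw [mul_zero, zero_add] at h
    exact lt_irrefl _ h
  · rw [Pi.single_eq_of_ne hj, coeff_zero]

theorem a3_lcf_v (j : ZMod d) : lcf T (T.w j) (WB.f T j) = 1 := by
  have h := lcf_eq j 0 (WB.f T j)
  rw [mul_zero, zero_add, WB.f_co, Pi.single_eq_same, coeff_one_zero] at h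
  exact h

theorem pord_v (j : ZMod d) : pord (WB.f T j) = T.w j := by
  refine pord_eq_of (a3_mem_v j) ?_
  rw [a3_lcf_v]
  exact one_ne_zero

theorem lc_v (j : ZMod d) : lc (WB.f T j) = 1 := by
  unfold lc
  rw [pord_v, a3_lcf_v]

theorem pord_smul {r : R} (hr : r ≠ 0) (b : WB T) :
    pord (r • b) = pord b := by
  by_cases hb : b = 0
  · rw [hb, smul_zero]
  · refine pord_eq_of (Submodule.smul_mem _ r (mem_Ble_pord b)) ?_
    rw [map_smul, smul_eq_mul]
    exact mul_ne_zero hr (lc_ne hb)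

theorem lc_smul (r : R) (b : WB T) : lc (r • b) = r * lc b := by
  by_cases hr : r = 0
  · rw [hr, zero_smul, a3_lc_zero, zero_mul]
  · unfold lc
    rw [pord_smul hr, map_smul, smul_eq_mul]

theorem a3_wt_pos {j : ZMod d} (hj : j ≠ 0) : 0 < T.w j := by
  rw [Nat.pos_iff_ne_zero]
  intro h
  have h1 := T.w_cast j
  rw [h, Nat.cast_zero] at h1
  exact hj h1.symm

/-- An element without pole is constant: `T.w j > 0` for `j ≠ 0`. -/
theorem eq_const_of_pord {b : WB T} (hb : pord b = 0) :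
    ∃ r : R, b = algebraMap R (WB T) r := by
  have h1 : b ∈ Ble T 0 := (mem_Ble_iff b 0).2 hb.le
  refine ⟨(b.co 0).coeff 0, ?_⟩
  refine WB.ext (funext fun j => ?_)
  rw [WB.algebraMap_co']
  split_ifs with hj
  · subst hj
    ext i
    rw [coeff_C]
    split_ifs with hi
    · rw [hi]
    · refine h1 0 i ?_
      rw [T.w_zero, add_zero]
      exact Nat.mul_pos (Nat.pos_of_ne_zero (NeZero.ne d)) (Nat.pos_of_ne_zero hi)
  · ext i
    rw [coeff_zero]
    refine h1 j i ?_
    have h2 := a3_wt_pos (T := T) hj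
    omega

instance instIsDomain : IsDomain (WB T) := by
  have h1 : Nontrivial (WB T) := ⟨⟨1, 0, fun h => by
    have h2 := lc_one (T := T)
    rw [h, a3_lc_zero] at h2
    exact zero_ne_one h2⟩⟩
  have h2 : NoZeroDivisors (WB T) := ⟨fun {b c} h => by
    by_contra hne
    rw [not_or] at hne
    exact mul_ne hne.1 hne.2 h⟩
  exact NoZeroDivisors.to_isDomain _

end domain

section field

variable {κ : Type} [Field κ] {T : Tab κ d}

/-- The units are the nonzero constants: `pord u + pord u⁻¹ = 0`. -/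
theorem eq_const_of_isUnit {u : WB T} (hu : IsUnit u) :
    ∃ r : κ, r ≠ 0 ∧ u = algebraMap κ (WB T) r := by
  obtain ⟨w, hw⟩ := hu.exists_right_inv
  have hu0 : u ≠ 0 := hu.ne_zero
  have hw0 : w ≠ 0 := by
    rintro rfl
    rw [mul_zero] at hw
    exact zero_ne_one hw
  have h1 := pord_mul hu0 hw0
  rw [hw, pord_one] at h1
  obtain ⟨r, hr⟩ := eq_const_of_pord (b := u) (by omega)
  refine ⟨r, ?_, hr⟩
  rintro rfl
  rw [map_zero] at hr
  exact hu0 hr

/-- Two generators of the same ideal differ by a constant. -/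
theorem span_eq_iff {b c : WB T} :
    Ideal.span {b} = Ideal.span {c} ↔ ∃ r : κ, r ≠ 0 ∧ c = r • b := by
  rw [Ideal.span_singleton_eq_span_singleton]
  constructor
  · rintro ⟨u, hu⟩
    obtain ⟨r, hr, h1⟩ := eq_const_of_isUnit u.isUnit
    refine ⟨r, hr, ?_⟩
    rw [← hu, h1, Algebra.smul_def, mul_comm]
  · rintro ⟨r, hr, rfl⟩
    have h1 : IsUnit (algebraMap κ (WB T) r) := (IsUnit.mk0 r hr).map _
    obtain ⟨u, hu⟩ := h1
    refine ⟨u, ?_⟩
    rw [hu, Algebra.smul_def, mul_comm]

/-- Two generators with the same leading coefficient are equal. -/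
theorem eq_of_span_eq {b c : WB T} (hb : b ≠ 0)
    (h : Ideal.span {b} = Ideal.span {c}) (hlc : lc b = lc c) : b = c := by
  obtain ⟨r, hr, h1⟩ := span_eq_iff.1 h
  rw [h1, lc_smul] at hlc
  have h2 : r = 1 := by
    apply mul_right_cancel₀ (lc_ne hb)
    rw [one_mul]
    exact hlc.symm
  rw [h1, h2, one_smul]

end field

end GT
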