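import Mathlib
import Pool.Agent.MP_c1dca2_ag.GT.Defs
import Pool.Agent.MP_c1dca2_ag.SUP.L1

/-! ## [GT-L1] the lemmas of SUP/L1.lean on the number of prime factors of an ideal -/

namespace GT

export SUP (len_mul len_top len_pow eq_top_of_len len_maximal len_mono eq_of_len_eq ideal_ind
  len_map eq_of_pow_eq prod_le exists_le_of_prod_le finite_ge between mul_lt)

end GT
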