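import Mathlib
import Pool.Agent.MP_c1dca2_ag.GT.A1
import Pool.Agent.MP_c1dca2_ag.GT.A7
import Pool.Agent.MP_c1dca2_ag.GT.A8
import Pool.Agent.MP_c1dca2_ag.GT.Base
import Pool.Agent.MP_c1dca2_ag.GT.Defs
import Pool.Agent.MP_c1dca2_ag.GT.L1
import Pool.Agent.MP_c1dca2_ag.SUP.Defs
import Pool.Agent.MP_c1dca2_ag.SUP.L1

set_option autoImplicit false
set_option linter.unusedSectionVars false

open Polynomial

namespace GT

/-! ## [GT-A9] ideals and the filtration (file A9.lean; uses A3, A7, A8, L1) -/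

variable {d : ℕ} [NeZero d] {κ : Type} [Field κ]
  [IsAlgClosed κ] {T : Tab κ d} [IsDedekindDomain (WB T)]

/-- The elements of `I` with a pole of order at most `m`. -/
noncomputable def IB (I : Ideal (WB T)) (m : ℕ) : Submodule κ (WB T) :=
  I.restrictScalars κ ⊓ Ble T m

theorem mem_IB {I : Ideal (WB T)} {m : ℕ} {b : WB T} : b ∈ IB I m ↔ b ∈ I ∧ pord b ≤ m := by
  rw [IB, Submodule.mem_inf, Submodule.restrictScalars_mem, mem_Ble_iff]

instance (I : Ideal (WB T)) (m : ℕ) : FiniteDimensional κ (IB I m) :=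
  Submodule.finiteDimensional_of_le inf_le_right

theorem IB_top (m : ℕ) : IB (⊤ : Ideal (WB T)) m = Ble T m := by
  ext b
  rw [IB, Submodule.mem_inf, Submodule.restrictScalars_mem]
  exact ⟨fun h => h.2, fun h => ⟨Submodule.mem_top, h⟩⟩

theorem IB_le {I J : Ideal (WB T)} (h : I ≤ J) (m : ℕ) : IB I m ≤ IB J m := by
  intro b hb
  rw [mem_IB] at hb ⊢
  exact ⟨h hb.1, hb.2⟩

theorem A9_step_le (Q J : Ideal (WB T)) (hQ : Q.IsMaximal) (h0 : Q ≠ ⊥) (hJ : J ≠ ⊥) (m : ℕ) :
    Module.finrank κ (IB J m) ≤ Module.finrank κ (IB (Q * J) m) + 1 := by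
  obtain ⟨x, -, -, hx⟩ := step Q J hQ h0 hJ
  by_cases hS : IB J m ≤ IB (Q * J) m
  · exact (Submodule.finrank_mono hS).trans (Nat.le_succ _)
  · obtain ⟨y0, hy0, hy0'⟩ := SetLike.not_le_iff_exists.1 hS
    rw [mem_IB] at hy0 hy0'
    obtain ⟨c0, hc0⟩ := hx y0 hy0.1
    have hc0n : c0 ≠ 0 := by
      intro h
      rw [h, zero_smul, sub_zero] at hc0
      exact hy0' ⟨hc0, hy0.2⟩
    have hle : IB J m ≤ IB (Q * J) m ⊔ Submodule.span κ {y0} := by
      intro y hy
      have hy' := mem_IB.1 hy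
      obtain ⟨c, hc⟩ := hx y hy'.1
      have h1 : y - (c / c0) • y0 ∈ Q * J := by
        have h2 : y - (c / c0) • y0 = (y - c • x) - (c / c0) • (y0 - c0 • x) := by
          rw [smul_sub, smul_smul, div_mul_cancel₀ c hc0n]
          abel
        rw [h2]
        refine (Q * J).sub_mem hc ?_
        exact (Submodule.restrictScalars κ (Q * J)).smul_mem (c / c0)
          (show y0 - c0 • x ∈ Submodule.restrictScalars κ (Q * J) from hc0)
      have h3 : y - (c / c0) • y0 ∈ IB (Q * J) m := by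
        refine ⟨h1, ?_⟩
        exact (Ble T m).sub_mem ((mem_Ble_iff _ _).2 hy'.2)
          ((Ble T m).smul_mem _ ((mem_Ble_iff _ _).2 hy0.2))
      have h4 : y = (y - (c / c0) • y0) + (c / c0) • y0 := by abel
      rw [h4]
      exact Submodule.add_mem_sup h3
        (Submodule.smul_mem _ _ (Submodule.mem_span_singleton_self y0))
    have hfd : FiniteDimensional κ (Submodule.span κ ({y0} : Set (WB T))) :=
      FiniteDimensional.span_of_finite κ (Set.finite_singleton y0)
    have h5 := Submodule.finrank_mono hle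
    have h6 := Submodule.finrank_add_le_finrank_add_finrank (IB (Q * J) m)
      (Submodule.span κ {y0})
    have h7 : Module.finrank κ (Submodule.span κ ({y0} : Set (WB T))) ≤ 1 := by
      have h8 := finrank_span_le_card (R := κ) ({y0} : Set (WB T))
      simpa using h8
    omega

theorem A9_step_eq (Q J : Ideal (WB T)) (hQ : Q.IsMaximal) (h0 : Q ≠ ⊥) (hJ : J ≠ ⊥) :
    ∃ m₀, ∀ m, m₀ ≤ m →
      Module.finrank κ (IB J m) = Module.finrank κ (IB (Q * J) m) + 1 := by
  obtain ⟨x, hx1, hx2, -⟩ := step Q J hQ h0 hJ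
  refine ⟨pord x, fun m hm => ?_⟩
  refine le_antisymm (A9_step_le Q J hQ h0 hJ m) ?_
  have hlt : IB (Q * J) m < IB J m := by
    refine lt_of_le_of_ne (IB_le Ideal.mul_le_right m) fun h => hx2 ?_
    have h2 : x ∈ IB J m := mem_IB.2 ⟨hx1, hm⟩
    rw [← h] at h2
    exact (mem_IB.1 h2).1
  exact Submodule.finrank_lt_finrank_of_lt hlt

/-- Induction (`ideal_ind`). For `I = ⊤` this is `finrank_Ble_ge`. Let `x` be as in `step` for `Q`,
`J`. There is a linear functional on `J` (`y ↦ c` with `y - c x ∈ Q J`; `c` is unique as `x ∉ Q J`) with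
kernel `Q J`, so the dimension of `IB J m` is at most one more than that of `IB (Q J) m`. -/
theorem finrank_IB_ge (I : Ideal (WB T)) (hI : I ≠ ⊥) (m : ℕ) :
    m + 1 ≤ Module.finrank κ (IB I m) + gp T + len I := by
  revert m
  refine ideal_ind (P := fun I => ∀ m, m + 1 ≤ Module.finrank κ (IB I m) + gp T + len I)
    ?_ ?_ I hI
  · intro m
    rw [IB_top, len_top, add_zero]
    exact finrank_Ble_ge m
  · intro Q J hQ h0 hJ hP m
    have h1 := hP m
    have h2 := A9_step_le Q J hQ h0 hJ m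
    rw [len_mul h0 hJ, len_maximal hQ h0]
    omega

/-- As above; for `m ≥ pord x` the dimension is exactly one more because `x ∈ IB J m` is not in
`IB (Q J) m`. -/
theorem finrank_IB_eq (I : Ideal (WB T)) (hI : I ≠ ⊥) :
    ∃ m₀, ∀ m, m₀ ≤ m → Module.finrank κ (IB I m) + gp T + len I = m + 1 := by
  refine ideal_ind (P := fun I => ∃ m₀, ∀ m, m₀ ≤ m →
    Module.finrank κ (IB I m) + gp T + len I = m + 1) ?_ ?_ I hI
  · obtain ⟨m₀, hm₀⟩ := finrank_Ble_eq T
    refine ⟨m₀, fun m hm => ?_⟩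
    rw [IB_top, len_top, add_zero]
    exact hm₀ m hm
  · rintro Q J hQ h0 hJ ⟨m₀, hm₀⟩
    obtain ⟨m₁, hm₁⟩ := A9_step_eq Q J hQ h0 hJ
    refine ⟨max m₀ m₁, fun m hm => ?_⟩
    have h1 := hm₀ m ((le_max_left _ _).trans hm)
    have h2 := hm₁ m ((le_max_right _ _).trans hm)
    rw [len_mul h0 hJ, len_maximal hQ h0]
    omega

end GT
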