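import Mathlib
import Pool.Agent.MP_c1dca2_ag.GT.A1
import Pool.Agent.MP_c1dca2_ag.GT.A3
import Pool.Agent.MP_c1dca2_ag.GT.A9
import Pool.Agent.MP_c1dca2_ag.GT.Base
import Pool.Agent.MP_c1dca2_ag.GT.Defs
import Pool.Agent.MP_c1dca2_ag.GT.L1
import Pool.Agent.MP_c1dca2_ag.SUP.Defs
import Pool.Agent.MP_c1dca2_ag.SUP.L1

set_option autoImplicit false
set_option linter.unusedSectionVars false

open Polynomial

namespace GT

/-! ## [GT-A10] principal ideals; reduced ideals (file A10.lean; uses A3, A9, L1) -/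

variable {d : ℕ} [NeZero d] {κ : Type} [Field κ]
  [IsAlgClosed κ] {T : Tab κ d} [IsDedekindDomain (WB T)]

theorem A10_map {b : WB T} (hb : b ≠ 0) (m : ℕ) :
    (IB (⊤ : Ideal (WB T)) m).map (LinearMap.mulLeft κ b) =
      IB (Ideal.span {b}) (m + pord b) := by
  ext y
  rw [Submodule.mem_map, mem_IB, Ideal.mem_span_singleton]
  constructor
  · rintro ⟨x, hx, rfl⟩
    rw [mem_IB] at hx
    rw [LinearMap.mulLeft_apply]
    refine ⟨dvd_mul_right b x, ?_⟩
    by_cases hx0 : x = 0
    · rw [hx0, mul_zero]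
      have h0 : (0 : WB T) ∈ Ble T (m + pord b) := Submodule.zero_mem _
      exact (mem_Ble_iff _ _).1 h0
    · rw [pord_mul hb hx0, add_comm]
      exact Nat.add_le_add_right hx.2 _
  · rintro ⟨⟨x, rfl⟩, h⟩
    refine ⟨x, ?_, rfl⟩
    rw [mem_IB]
    refine ⟨Submodule.mem_top, ?_⟩
    by_cases hx0 : x = 0
    · rw [hx0]
      have h0 : (0 : WB T) ∈ Ble T m := Submodule.zero_mem _
      exact (mem_Ble_iff _ _).1 h0
    · rw [pord_mul hb hx0] at h
      omega

/-- Multiplication by `b` is an isomorphism of `IB ⊤ m` with `IB (b) (m + pord b)` (`pord_mul`);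
compare the dimensions for large `m` (`finrank_IB_eq`, `len_top`). -/
theorem len_span {b : WB T} (hb : b ≠ 0) : len (Ideal.span {b}) = pord b := by
  have hne : (Ideal.span {b} : Ideal (WB T)) ≠ ⊥ := by
    rwa [Ne, Ideal.span_singleton_eq_bot]
  obtain ⟨m₀, hm₀⟩ := finrank_IB_eq (⊤ : Ideal (WB T)) top_ne_bot
  obtain ⟨m₁, hm₁⟩ := finrank_IB_eq (Ideal.span {b}) hne
  have h1 := hm₀ (max m₀ m₁) (le_max_left _ _)
  have h2 := hm₁ (max m₀ m₁ + pord b) ((le_max_right _ _).trans (Nat.le_add_right _ _))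
  have hinj : Function.Injective (LinearMap.mulLeft κ b) := by
    intro x y hxy
    exact mul_left_cancel₀ hb hxy
  have h3 : Module.finrank κ (IB (⊤ : Ideal (WB T)) (max m₀ m₁)) =
      Module.finrank κ (IB (Ideal.span {b}) (max m₀ m₁ + pord b)) := by
    rw [← A10_map hb]
    exact (Submodule.equivMapOfInjective _ hinj _).finrank_eq
  rw [len_top] at h1
  omega

theorem A10_exists_min (I : Ideal (WB T)) (hI : I ≠ ⊥) :
    ∃ b ∈ I, b ≠ 0 ∧ ∀ x ∈ I, x ≠ 0 → pord b ≤ pord x := by
  obtain ⟨y, hy, hy0⟩ := Submodule.exists_mem_ne_zero_of_ne_bot hI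
  have h : ∃ n, ∃ b ∈ I, b ≠ 0 ∧ pord b = n := ⟨_, y, hy, hy0, rfl⟩
  classical
  obtain ⟨b, hb, hb0, hbn⟩ := Nat.find_spec h
  refine ⟨b, hb, hb0, fun x hx hx0 => ?_⟩
  rw [hbn]
  exact Nat.find_min' h ⟨x, hx, hx0, rfl⟩

theorem A10_pord_le (I : Ideal (WB T)) (hI : I ≠ ⊥) :
    ∃ x ∈ I, x ≠ 0 ∧ pord x ≤ gp T + len I := by
  have h := finrank_IB_ge I hI (gp T + len I)
  have hne : IB I (gp T + len I) ≠ ⊥ := by
    intro hb
    rw [hb, finrank_bot] at h
    omega
  obtain ⟨x, hx, hx0⟩ := Submodule.exists_mem_ne_zero_of_ne_bot hne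
  rw [mem_IB] at hx
  exact ⟨x, hx.1, hx0, hx.2⟩

/-- Let `I` be an ideal of the class `D⁻¹`, `b` a nonzero element of `I` with the least order `p`. As
`IB I m` is not zero for `m = gp T + len I` (`finrank_IB_ge`), `p ≤ gp T + len I`. `(b) = I J` with `J`
of class `D`, `len J = p - len I` (`len_span`). If `J'` has class `D` then `I J' = (b')`, `b' ∈ I`, so
`len J' = pord b' - len I ≥ len J`; if equality holds, then `c := lc b • b' - lc b' • b` has a smaller
order (or is zero), so it is zero, `(b) = (b')` and `J = J'`. -/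
theorem exists_reduced (D : ClassGroup (WB T)) : ∃ J : Ideal (WB T), J ≠ ⊥ ∧ cls J = D ∧
    len J ≤ gp T ∧ ∀ J' : Ideal (WB T), J' ≠ ⊥ → cls J' = D → len J' ≤ len J → J' = J := by
  obtain ⟨I, hI, hID⟩ := exists_cls D⁻¹
  obtain ⟨b, hbI, hb0, hbmin⟩ := A10_exists_min I hI
  obtain ⟨x, hxI, hx0, hxle⟩ := A10_pord_le I hI
  have hble : pord b ≤ gp T + len I := (hbmin x hxI hx0).trans hxle
  have hbne : (Ideal.span {b} : Ideal (WB T)) ≠ ⊥ := by
    rwa [Ne, Ideal.span_singleton_eq_bot]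
  have hdvd : I ∣ Ideal.span {b} := by
    rw [Ideal.dvd_iff_le, Ideal.span_singleton_le_iff_mem]
    exact hbI
  obtain ⟨J, hJ⟩ := hdvd
  have hJne : J ≠ ⊥ := by
    intro h
    apply hbne
    rw [hJ, h]
    exact Ideal.mul_bot I
  have hlenJ : pord b = len I + len J := by
    rw [← len_span hb0, hJ, len_mul hI hJne]
  have hclsJ : cls J = D := by
    have h1 : cls I * cls J = 1 := by
      rw [← cls_mul hI hJne, ← hJ, cls_span hb0]
    rw [hID] at h1
    exact (inv_mul_eq_one.1 h1).symm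
  refine ⟨J, hJne, hclsJ, by omega, fun J' hJ'ne hJ'D hlen => ?_⟩
  have h1 : cls (I * J') = 1 := by
    rw [cls_mul hI hJ'ne, hID, hJ'D, inv_mul_cancel]
  have hIJ' : I * J' ≠ ⊥ := mul_ne_zero hI hJ'ne
  obtain ⟨y, hy⟩ := (cls_eq_one_iff hIJ').1 h1
  have hy0 : y ≠ 0 := by
    rintro rfl
    apply hIJ'
    rw [hy, Ideal.span_singleton_eq_bot]
  have hyI : y ∈ I := by
    have h2 : I * J' ≤ I := Ideal.mul_le_left
    rw [hy, Ideal.span_singleton_le_iff_mem] at h2
    exact h2
  have hpy : pord y = len I + len J' := by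
    rw [← len_span hy0, ← hy, len_mul hI hJ'ne]
  have hpp : pord y = pord b := le_antisymm (by omega) (hbmin y hyI hy0)
  have hlb := lc_ne hb0
  have hly := lc_ne hy0
  have h3 : lc b • y = lc y • b := by
    by_contra hc
    have h4 : pord (lc b • y) = pord (lc y • b) := by
      rw [pord_smul hlb, pord_smul hly, hpp]
    have h5 : lc (lc b • y) = lc (lc y • b) := by
      rw [lc_smul, lc_smul, mul_comm]
    have h6 := pord_sub_lt h4 h5 hc
    have h7 : lc b • y - lc y • b ∈ I := by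
      refine I.sub_mem ?_ ?_
      · exact (Submodule.restrictScalars κ I).smul_mem (lc b)
          (show y ∈ Submodule.restrictScalars κ I from hyI)
      · exact (Submodule.restrictScalars κ I).smul_mem (lc y)
          (show b ∈ Submodule.restrictScalars κ I from hbI)
    have h8 := hbmin _ h7 (sub_ne_zero.2 hc)
    rw [pord_smul hlb, hpp] at h6
    omega
  have h4 : Ideal.span {b} = Ideal.span {y} := by
    rw [span_eq_iff]
    refine ⟨lc y / lc b, div_ne_zero hly hlb, ?_⟩
    rw [div_eq_inv_mul, mul_smul, ← h3, smul_smul, inv_mul_cancel₀ hlb, one_smul]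
  have h5 : I * J' = I * J := by rw [hy, ← h4, hJ]
  exact mul_left_cancel₀ (show I ≠ 0 from hI) h5

/-- The reduced ideal of the class `D`: the ideal of class `D` with the least number of factors. -/
noncomputable def rdc (D : ClassGroup (WB T)) : Ideal (WB T) := (exists_reduced D).choose

theorem rdc_ne (D : ClassGroup (WB T)) : rdc D ≠ ⊥ := (exists_reduced D).choose_spec.1

theorem cls_rdc (D : ClassGroup (WB T)) : cls (rdc D) = D := (exists_reduced D).choose_spec.2.1

theorem len_rdc (D : ClassGroup (WB T)) : len (rdc D) ≤ gp T :=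
  (exists_reduced D).choose_spec.2.2.1

theorem rdc_unique (D : ClassGroup (WB T)) (J : Ideal (WB T)) (hJ : J ≠ ⊥) (h : cls J = D)
    (hlen : len J ≤ len (rdc D)) : J = rdc D :=
  (exists_reduced D).choose_spec.2.2.2 J hJ h hlen

/-- The reduced ideals are mapped to reduced ideals by all automorphisms (`len_map`,
`clm_cls`, `rdc_unique`; compare with the inverse automorphism). -/
theorem rdc_map (ψ : WB T ≃+* WB T) (D : ClassGroup (WB T)) :
    (rdc D).map ψ = rdc (clm ψ D) := by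
  refine rdc_unique (clm ψ D) _ (map_ne_bot ψ (rdc_ne D)) ?_ ?_
  · rw [← clm_cls ψ (rdc_ne D), cls_rdc]
  · rw [len_map]
    by_contra hc
    have hlt : len (rdc (clm ψ D)) < len (rdc D) := not_le.1 hc
    have hJ := map_ne_bot ψ.symm (rdc_ne (clm ψ D))
    have hcl : cls ((rdc (clm ψ D)).map ψ.symm) = D := by
      rw [← clm_cls ψ.symm (rdc_ne _), cls_rdc,
        clm_clm ψ ψ.symm (RingEquiv.refl _) (fun b => by simp), clm_id _ (fun b => rfl)]
    have h1 := rdc_unique D _ hJ hcl (by rw [len_map]; exact hlt.le)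
    have h2 := congrArg len h1
    rw [len_map] at h2
    omega

end GT
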