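import Mathlib
import Pool.Agent.MP_c1dca2_ag.GT.A1
import Pool.Agent.MP_c1dca2_ag.GT.Base
import Pool.Agent.MP_c1dca2_ag.GT.Defs
import Pool.Agent.MP_c1dca2_ag.SUP.Defs

set_option autoImplicit false
set_option linter.unusedSectionVars false

open Polynomial

namespace GT

/-! ## [GT-A3b] the filtration and the maps `bmap`, `bE` (file A3b.lean; uses A1) -/

variable {d : ℕ} [NeZero d]

section maps

variable {R : Type} [CommRing R] {T : Tab R d} {S : Type} [CommRing S] {T' : Tab S d}

theorem bmap_w {f : R →+* S} (h : T.map f = T') : T'.w = T.w := by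
  rw [← h, Tab.map_w]

theorem bmap_Ble (f : R →+* S) (h : T.map f = T') {m : ℕ} {b : WB T}
    (hb : b ∈ Ble T m) : bmap f h b ∈ Ble T' m := by
  intro j i hm
  rw [bmap_w h] at hm
  rw [bmap_co, Polynomial.coeff_map, hb j i hm, map_zero]

theorem lcf_bmap (f : R →+* S) (h : T.map f = T') (m : ℕ) (b : WB T) :
    lcf T' m (bmap f h b) = f (lcf T m b) := by
  rw [lcf_apply, lcf_apply, map_sum, bmap_w h]
  refine Finset.sum_congr rfl fun j _ => ?_
  split_ifs
  · rw [bmap_co, Polynomial.coeff_map]
  · rw [map_zero]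

theorem a3b_aux (f : R →+* S) (h : T.map f = T') (hf : Function.Injective f)
    {m : ℕ} {b : WB T} : bmap f h b ∈ Ble T' m ↔ b ∈ Ble T m := by
  constructor
  · intro hb j i hm
    rw [← bmap_w h] at hm
    have h1 := hb j i hm
    rw [bmap_co, Polynomial.coeff_map] at h1
    exact (map_eq_zero_iff f hf).1 h1
  · exact bmap_Ble f h

theorem pord_bmap (f : R →+* S) (h : T.map f = T') (hf : Function.Injective f)
    (b : WB T) : pord (bmap f h b) = pord b := by
  unfold pord
  congr 1
  ext m
  exact a3b_aux f h hf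

theorem pord_bmap_le (f : R →+* S) (h : T.map f = T') (b : WB T) :
    pord (bmap f h b) ≤ pord b :=
  (mem_Ble_iff _ _).1 (bmap_Ble f h (mem_Ble_pord b))

theorem lc_bmap (f : R →+* S) (h : T.map f = T') (hf : Function.Injective f)
    (b : WB T) : lc (bmap f h b) = f (lc b) := by
  unfold lc
  rw [pord_bmap f h hf]
  exact lcf_bmap f h _ b

theorem lc_bE (f : R ≃+* R) (h : T.map (f : R →+* R) = T) (b : WB T) :
    lc (bE f h b) = f (lc b) :=
  lc_bmap (f : R →+* R) h f.injective b

theorem pord_bE (f : R ≃+* R) (h : T.map (f : R →+* R) = T) (b : WB T) :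
    pord (bE f h b) = pord b :=
  pord_bmap (f : R →+* R) h f.injective b

end maps

end GT
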