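import Mathlib
import Pool.Agent.MP_c1dca2_ag.GT.A3
import Pool.Agent.MP_c1dca2_ag.GT.Base
import Pool.Agent.MP_c1dca2_ag.GT.C0
import Pool.Agent.MP_c1dca2_ag.GT.Defs
import Pool.Agent.MP_c1dca2_ag.SUP.Defs

set_option autoImplicit false
set_option linter.unusedSectionVars false

open Polynomial IsLocalRing

namespace GT

/-! ## [GT-C0b] reduction of elements (file C0b.lean, continuation of C0.lean; uses A3) -/

variable {F : Type} [Field F] {V : ValuationSubring F}

variable {d : ℕ} [NeZero d] {T : Tab V d}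

/-- an element outside of `V`: the inverse is in the maximal ideal -/
theorem c0b_inv {x : F} (hx : x ∉ V) : ∃ y : V, (y : F) = x⁻¹ ∧ residue V y = 0 := by
  have h1 : 1 < V.valuation x := by
    rw [← not_le]
    exact fun h => hx ((V.valuation_le_one_iff x).1 h)
  have h2 : V.valuation x⁻¹ < 1 := by
    rw [map_inv₀]
    exact inv_lt_one_of_one_lt₀ h1
  refine ⟨⟨x⁻¹, (V.valuation_le_one_iff _).1 h2.le⟩, rfl, ?_⟩
  rw [residue_eq_zero_iff, V.valuation_lt_one_iff]
  exact h2

/-- An element is in the image of `B_V` iff all its coefficients are in `V`. -/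
theorem mem_range_inc {b : WB (T.map V.subtype)} :
    (∃ b', inc T b' = b) ↔ ∀ j i, (b.co j).coeff i ∈ V := by
  constructor
  · rintro ⟨b', rfl⟩ j i
    rw [inc_co, coeff_map]
    exact ((b'.co j).coeff i).2
  · intro h
    have h1 : ∀ j, ∃ q : V[X], q.map V.subtype = b.co j := by
      intro j
      have h2 : b.co j ∈ Polynomial.lifts V.subtype := by
        rw [Polynomial.lifts_iff_coeff_lifts]
        intro i
        exact ⟨⟨(b.co j).coeff i, h j i⟩, rfl⟩
      exact (Polynomial.mem_lifts _).1 h2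
    choose q hq using h1
    exact ⟨⟨q⟩, WB.ext (funext fun j => hq j)⟩

theorem rd_eq_zero_iff {b : WB T} :
    rd T b = 0 ↔ ∀ j i, V.valuation (((b.co j).coeff i : V) : F) < 1 := by
  have key : ∀ j i, ((rd T b).co j).coeff i = 0 ↔ V.valuation (((b.co j).coeff i : V) : F) < 1 := by
    intro j i
    rw [rd_co, coeff_map, residue_eq_zero_iff, V.valuation_lt_one_iff]
  constructor
  · intro h j i
    rw [← key, h]
    show ((0 : ZMod d → (ResidueField V)[X]) j).coeff i = 0
    rw [Pi.zero_apply, coeff_zero]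
  · intro h
    refine WB.ext (funext fun j => Polynomial.ext fun i => ?_)
    rw [(key j i).2 (h j i)]
    show 0 = ((0 : ZMod d → (ResidueField V)[X]) j).coeff i
    rw [Pi.zero_apply, coeff_zero]

/-- Divide by the coefficient of largest value. -/
theorem exists_normal (b : WB (T.map V.subtype)) (hb : b ≠ 0) :
    ∃ (c : F) (b' : WB T), c ≠ 0 ∧ inc T b' = c • b ∧ rd T b' ≠ 0 := by
  classical
  obtain ⟨T₀, hT⟩ : ∃ T₀ : Finset (Σ _ : ZMod d, ℕ),
      T₀ = Finset.univ.sigma (fun j => (b.co j).support) := ⟨_, rfl⟩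
  have hmem : ∀ j i, (b.co j).coeff i ≠ 0 → (⟨j, i⟩ : Σ _ : ZMod d, ℕ) ∈ T₀ := by
    intro j i h
    rw [hT, Finset.mem_sigma]
    exact ⟨Finset.mem_univ _, mem_support_iff.2 h⟩
  have hne : T₀.Nonempty := by
    by_contra h0
    apply hb
    refine WB.ext (funext fun j => Polynomial.ext fun i => ?_)
    by_contra h1
    exact h0 ⟨_, hmem j i h1⟩
  obtain ⟨x, hx, hmax⟩ := Finset.exists_max_image T₀ (fun y => V.valuation ((b.co y.1).coeff y.2)) hne
  have hx0 : (b.co x.1).coeff x.2 ≠ 0 := by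
    rw [hT, Finset.mem_sigma] at hx
    exact mem_support_iff.1 hx.2
  obtain ⟨c, hc⟩ : ∃ c, c = (b.co x.1).coeff x.2 := ⟨_, rfl⟩
  rw [← hc] at hx0
  have hv0 : V.valuation c ≠ 0 := (Valuation.ne_zero_iff _).2 hx0
  have hV : ∀ j i, ((c⁻¹ • b).co j).coeff i ∈ V := by
    intro j i
    rw [WB.co_smul', coeff_smul, smul_eq_mul, ← V.valuation_le_one_iff, map_mul, map_inv₀]
    by_cases h0 : (b.co j).coeff i = 0
    · rw [h0, map_zero, mul_zero]
      exact zero_le_one
    · have h1 := hmax _ (hmem j i h0)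
      have h1' : V.valuation ((b.co j).coeff i) ≤ V.valuation c := by rw [hc]; exact h1
      calc (V.valuation c)⁻¹ * V.valuation ((b.co j).coeff i) ≤ (V.valuation c)⁻¹ * V.valuation c := by gcongr
        _ = 1 := inv_mul_cancel₀ hv0
  obtain ⟨b', hb'⟩ := mem_range_inc.2 hV
  refine ⟨c⁻¹, b', inv_ne_zero hx0, hb', fun h0 => ?_⟩
  have h1 := rd_eq_zero_iff.1 h0 x.1 x.2
  have h2 : (((b'.co x.1).coeff x.2 : V) : F) = 1 := by
    have h3 : ((inc T b').co x.1).coeff x.2 = ((c⁻¹ • b).co x.1).coeff x.2 := by rw [hb']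
    rw [inc_co, coeff_map, WB.co_smul', coeff_smul, smul_eq_mul, ← hc, inv_mul_cancel₀ hx0] at h3
    exact h3
  rw [h2, map_one] at h1
  exact lt_irrefl _ h1

/-- Gauss' lemma: `inc b' = c b` with `rd b' ≠ 0` (`exists_normal`; `b ≠ 0` without loss of
generality). Then `inc (g b') = c inc z`, and `rd (g b') ≠ 0` as the reduction of `B` is a domain;
so `c⁻¹ ∈ V` (otherwise `c z`... if `c` is in the maximal ideal then `rd (g b') = 0`), and
`b = c⁻¹ inc b'`. -/
theorem gauss (g z : WB T) (b : WB (T.map V.subtype)) (hg : rd T g ≠ 0)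
    (h : inc T z = inc T g * b) : ∃ b', inc T b' = b := by
  by_cases hb : b = 0
  · exact ⟨0, by rw [map_zero, hb]⟩
  obtain ⟨c, b', hc, hb', hr⟩ := exists_normal b hb
  have h1 : inc T (g * b') = c • inc T z := by
    rw [map_mul, hb', h, mul_smul_comm]
  have h2 : rd T (g * b') ≠ 0 := by
    rw [map_mul]
    exact mul_ne_zero hg hr
  have hcV : c⁻¹ ∈ V := by
    by_contra h3
    obtain ⟨y, hy, hy0⟩ := c0b_inv h3
    rw [inv_inv] at hy
    have h4 : inc T (g * b') = inc T (y • z) := by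
      rw [h1, inc_smul, hy]
    apply h2
    rw [inc_inj h4, rd_smul, hy0, zero_smul]
  refine ⟨(⟨c⁻¹, hcV⟩ : V) • b', ?_⟩
  rw [inc_smul, hb']
  show c⁻¹ • c • b = b
  rw [smul_smul, inv_mul_cancel₀ hc, one_smul]

/-- Two normalised elements which differ by a constant: the constant is a unit of `V`. -/
theorem unit_of (g g' : WB T) (u : F) (hg : rd T g ≠ 0) (hg' : rd T g' ≠ 0)
    (h : inc T g = u • inc T g') : ∃ u' : V, IsUnit u' ∧ (u' : F) = u ∧ g = u' • g' := by
  have hu0 : u ≠ 0 := by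
    rintro rfl
    apply hg
    have h1 : inc T g = inc T 0 := by rw [h, zero_smul, map_zero]
    rw [inc_inj h1, map_zero]
  have huV : u ∈ V := by
    by_contra h3
    obtain ⟨y, hy, hy0⟩ := c0b_inv h3
    have h4 : inc T g' = inc T (y • g) := by
      rw [inc_smul, hy, h, smul_smul, inv_mul_cancel₀ hu0, one_smul]
    apply hg'
    rw [inc_inj h4, rd_smul, hy0, zero_smul]
  have huV' : u⁻¹ ∈ V := by
    by_contra h3
    obtain ⟨y, hy, hy0⟩ := c0b_inv h3
    rw [inv_inv] at hy
    have h4 : inc T g = inc T (y • g') := by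
      rw [inc_smul, hy, h]
    apply hg
    rw [inc_inj h4, rd_smul, hy0, zero_smul]
  refine ⟨⟨u, huV⟩, ?_, rfl, inc_inj ?_⟩
  · refine IsUnit.of_mul_eq_one (⟨u⁻¹, huV'⟩ : V) (Subtype.ext ?_)
    exact mul_inv_cancel₀ hu0
  · rw [inc_smul, h]

end GT
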