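import Mathlib
import Pool.Agent.MP_c1dca2_ag.GT.A8
import Pool.Agent.MP_c1dca2_ag.GT.Base
import Pool.Agent.MP_c1dca2_ag.GT.C0
import Pool.Agent.MP_c1dca2_ag.GT.C0b
import Pool.Agent.MP_c1dca2_ag.GT.Defs
import Pool.Agent.MP_c1dca2_ag.SUP.Defs

set_option autoImplicit false
set_option linter.unusedSectionVars false

open Polynomial IsLocalRing

namespace GT

/-! ## [GT-C1] reduction of subspaces (file C1.lean; uses C0, A8) -/

variable {F : Type} [Field F] {V : ValuationSubring F} {d : ℕ} [NeZero d] {T : Tab V d}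

/-- The reduction of a subspace. -/
noncomputable def rW (W : Submodule F (WB (T.map V.subtype))) :
    Submodule (ResidueField V) (WB (T.map (residue V))) where
  carrier := {z | ∃ b, inc T b ∈ W ∧ rd T b = z}
  zero_mem' := ⟨0, by rw [map_zero]; exact W.zero_mem, map_zero _⟩
  add_mem' := by
    rintro _ _ ⟨b, hb, rfl⟩ ⟨c, hc, rfl⟩
    exact ⟨b + c, by rw [map_add]; exact W.add_mem hb hc, map_add _ _ _⟩
  smul_mem' := by
    rintro r _ ⟨b, hb, rfl⟩
    obtain ⟨c, rfl⟩ := residue_surjective r
    exact ⟨c • b, by rw [inc_smul]; exact W.smul_mem _ hb, rd_smul c b⟩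

theorem mem_rW {W : Submodule F (WB (T.map V.subtype))}
    {z : WB (T.map (residue V))} :
    z ∈ rW W ↔ ∃ b, inc T b ∈ W ∧ rd T b = z := Iff.rfl

theorem rW_Ble {W : Submodule F (WB (T.map V.subtype))} {m : ℕ}
    (h : W ≤ Ble (T.map V.subtype) m) : rW W ≤ Ble (T.map (residue V)) m := by
  rintro z ⟨b, hb, rfl⟩
  have h1 := h hb
  rw [mem_Ble] at h1 ⊢
  intro j i hi
  have h2 := h1 j i hi
  rw [inc_co, coeff_map] at h2
  have h3 : (b.co j).coeff i = 0 := V.subtype_injective (by rw [h2, map_zero])
  rw [rd_co, coeff_map, h3, map_zero]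

theorem c1_fd {κ : Type} [Field κ] {T' : Tab κ d} {m : ℕ} {W : Submodule κ (WB T')}
    (h : W ≤ Ble T' m) : FiniteDimensional κ W :=
  Submodule.finiteDimensional_of_le h

/-- The coefficient (`j`, `i`). -/
noncomputable def c1_cf {κ : Type} [Field κ] (T' : Tab κ d) (j : ZMod d) (i : ℕ) :
    WB T' →ₗ[κ] κ where
  toFun b := (b.co j).coeff i
  map_add' b c := by rw [WB.co_add, Pi.add_apply, coeff_add]
  map_smul' r b := by rw [WB.co_smul', coeff_smul, RingHom.id_apply]

theorem c1_cf_apply {κ : Type} [Field κ] {T' : Tab κ d} (j : ZMod d) (i : ℕ)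
    (b : WB T') : c1_cf T' j i b = (b.co j).coeff i := rfl

theorem c1_exists_co {κ : Type} [Field κ] {T' : Tab κ d} {b : WB T'} (hb : b ≠ 0) :
    ∃ j i, (b.co j).coeff i ≠ 0 := by
  by_contra hne
  push Not at hne
  apply hb
  refine WB.ext (funext fun j => ?_)
  ext i
  rw [hne j i, WB.co_zero, Pi.zero_apply, coeff_zero]

theorem c1_ker {K E : Type} [Field K] [AddCommGroup E] [Module K E] (W : Submodule K E)
    [FiniteDimensional K W] (φ : E →ₗ[K] K) :
    Module.finrank K W ≤ Module.finrank K (W ⊓ LinearMap.ker φ : Submodule K E) + 1 := by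
  have h1 := LinearMap.finrank_range_add_finrank_ker (φ.domRestrict W)
  have h2 : Module.finrank K (LinearMap.range (φ.domRestrict W)) ≤ 1 := by
    have := Submodule.finrank_le (LinearMap.range (φ.domRestrict W))
    rwa [Module.finrank_self] at this
  have h3 : Module.finrank K (LinearMap.ker (φ.domRestrict W)) =
      Module.finrank K (W ⊓ LinearMap.ker φ : Submodule K E) := by
    have h4 : (LinearMap.ker (φ.domRestrict W)).map W.subtype = W ⊓ LinearMap.ker φ := by
      ext x
      constructor
      · rintro ⟨⟨y, hy⟩, hy2, rfl⟩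
        exact ⟨hy, hy2⟩
      · rintro ⟨hx, hx2⟩
        exact ⟨⟨x, hx⟩, hx2, rfl⟩
    rw [← h4]
    exact (LinearEquiv.finrank_eq (Submodule.equivMapOfInjective W.subtype
      W.injective_subtype (LinearMap.ker (φ.domRestrict W))))
  omega

theorem c1_mono {W W' : Submodule F (WB (T.map V.subtype))} (h : W ≤ W') :
    rW W ≤ rW W' := by
  rintro z ⟨b, hb, rfl⟩
  exact ⟨b, h hb, rfl⟩

theorem c1_main (m : ℕ) : ∀ (n : ℕ) (W : Submodule F (WB (T.map V.subtype))),
    W ≤ Ble (T.map V.subtype) m → n ≤ Module.finrank F W →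
    n ≤ Module.finrank (ResidueField V) (rW W) := by
  intro n
  induction n with
  | zero => intro W _ _; exact Nat.zero_le _
  | succ n ih =>
    intro W hW hn
    have hfd : FiniteDimensional F W := c1_fd hW
    have hfd' : FiniteDimensional (ResidueField V) (rW W) := c1_fd (rW_Ble hW)
    have hWne : W ≠ ⊥ := by
      rintro rfl
      rw [finrank_bot] at hn
      omega
    obtain ⟨w, hw, hw0⟩ := Submodule.exists_mem_ne_zero_of_ne_bot hWne
    obtain ⟨c, b, hc, hb, hrd⟩ := exists_normal w hw0
    have hbW : inc T b ∈ W := by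
      rw [hb]
      exact W.smul_mem c hw
    obtain ⟨j, i, hji⟩ := c1_exists_co hrd
    have h1 := c1_ker W (c1_cf (T.map V.subtype) j i)
    have hW' : W ⊓ LinearMap.ker (c1_cf (T.map V.subtype) j i) ≤ Ble (T.map V.subtype) m :=
      inf_le_left.trans hW
    have h2 := ih _ hW' (by omega)
    have h3 : rW (W ⊓ LinearMap.ker (c1_cf (T.map V.subtype) j i)) < rW W := by
      refine lt_of_le_of_ne (c1_mono inf_le_left) ?_
      intro heq
      have h4 : rd T b ∈ rW W := ⟨b, hbW, rfl⟩
      rw [← heq] at h4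
      obtain ⟨b', hb', hb'2⟩ := h4
      have h5 : c1_cf (T.map V.subtype) j i (inc T b') = 0 := hb'.2
      rw [c1_cf_apply, inc_co, coeff_map] at h5
      have h6 : (b'.co j).coeff i = 0 := V.subtype_injective (by rw [h5, map_zero])
      apply hji
      rw [← hb'2, rd_co, coeff_map, h6, map_zero]
    have h7 := Submodule.finrank_lt_finrank_of_lt h3
    omega

/-- Induction on the dimension `n` of `W`. If `W ≠ 0` take a normalised element
`inc b ∈ W`, `rd b ≠ 0` (`exists_normal`), and a coefficient (`j`, `i`) of `b` which is a unit of `V`.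
Let `W'` be the subspace of the elements of `W` whose coefficient (`j`, `i`) vanishes: it has
dimension `n - 1`. `rW W' ≤ rW W`, all elements of `rW W'` have vanishing coefficient (`j`, `i`), and
`rd b ∈ rW W` has not; so the dimension of `rW W` is at least `1 + (n - 1)`. -/
theorem finrank_rW (W : Submodule F (WB (T.map V.subtype))) (m : ℕ)
    (h : W ≤ Ble (T.map V.subtype) m) :
    Module.finrank F W ≤ Module.finrank (ResidueField V) (rW W) := by
  exact c1_main m _ W h le_rfl

end GT
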