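import Mathlib
import Pool.Agent.MP_c1dca2_ag.GT.A9
import Pool.Agent.MP_c1dca2_ag.GT.Base
import Pool.Agent.MP_c1dca2_ag.GT.C0
import Pool.Agent.MP_c1dca2_ag.GT.C0b
import Pool.Agent.MP_c1dca2_ag.GT.C1
import Pool.Agent.MP_c1dca2_ag.GT.Defs
import Pool.Agent.MP_c1dca2_ag.SUP.Defs

set_option autoImplicit false
set_option linter.unusedSectionVars false

open Polynomial IsLocalRing

namespace GT

/-! ## [GT-C2] reduction of ideals (file C2.lean; uses C0, C1, A3, A9, A10, L1) -/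

variable {F : Type} [Field F] [IsAlgClosed F] {V : ValuationSubring F} {d : ℕ} [NeZero d] {T : Tab V d}
  [hG : IsDedekindDomain (WB (T.map V.subtype))] [hG' : IsDedekindDomain (WB (T.map (residue V)))]

theorem c2_smul_mem {κ : Type} [Field κ] {T' : Tab κ d} (c : κ) {J : Ideal (WB T')} {b : WB T'}
    (hb : b ∈ J) : c • b ∈ J := by
  have h := Submodule.smul_mem (J.restrictScalars κ) c (x := b) (by
    rw [Submodule.restrictScalars_mem]; exact hb)
  rw [Submodule.restrictScalars_mem] at h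
  exact h

theorem rI_ne_bot {J : Ideal (WB (T.map V.subtype))} (hJ : J ≠ ⊥) : rI J ≠ ⊥ := by
  obtain ⟨b, hb, hb0⟩ := Submodule.exists_mem_ne_zero_of_ne_bot hJ
  obtain ⟨c, b', hc, hbc, hr⟩ := exists_normal b hb0
  intro h
  apply hr
  have h1 : rd T b' ∈ rI J := by
    rw [mem_rI]
    refine ⟨b', ?_, rfl⟩
    rw [hbc]
    exact c2_smul_mem c hb
  rw [h] at h1
  exact h1

theorem rI_mono {I J : Ideal (WB (T.map V.subtype))} (h : I ≤ J) : rI I ≤ rI J := by
  intro z hz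
  rw [mem_rI] at hz ⊢
  obtain ⟨b, hb, rfl⟩ := hz
  exact ⟨b, h hb, rfl⟩

/-- `rW (IB J m) ≤ IB (rI J) m`. -/
theorem rW_IB (J : Ideal (WB (T.map V.subtype))) (m : ℕ) : rW (IB J m) ≤ IB (rI J) m := by
  intro z hz
  have h1 : z ∈ Ble (T.map (residue V)) m := rW_Ble (inf_le_right) hz
  obtain ⟨b, hb, rfl⟩ := hz
  rw [IB, Submodule.mem_inf, Submodule.restrictScalars_mem]
  refine ⟨?_, h1⟩
  rw [mem_rI]
  exact ⟨b, (mem_IB.1 hb).1, rfl⟩

/-- For large `m`: `m + 1 - g - len J ≤ dim rW (IB J m) ≤ dim IB (rI J) m = m + 1 - g - len (rI J)`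
(`finrank_rW`, `finrank_IB_eq`). -/
theorem len_rI_le {J : Ideal (WB (T.map V.subtype))} (hJ : J ≠ ⊥) : len (rI J) ≤ len J := by
  obtain ⟨m₀, hm₀⟩ := finrank_IB_eq (rI J) (rI_ne_bot hJ)
  have h1 := finrank_IB_ge J hJ m₀
  have h2 := hm₀ m₀ le_rfl
  have h3 := finrank_rW (IB J m₀) m₀ inf_le_right
  have h4 := Submodule.finrank_mono (rW_IB J m₀)
  have e1 : gp (T.map V.subtype) = gp T := rfl
  have e2 : gp (T.map (residue V)) = gp T := rfl
  omega

/-- If `rW (IB J m)` were contained in `IB (rI J) m'` with `m' + len J < m + len (rI J)` (and `m'`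
large) then the dimensions (`finrank_rW`, `finrank_IB_eq`) would give
`m + 1 - g - len J ≤ m' + 1 - g - len (rI J)`. So for large `m` there is an element `b` with
`inc b ∈ J` of order `≤ m`, and the order of `rd b` is at least `m - (len J - len (rI J))`. -/
theorem exists_large {J : Ideal (WB (T.map V.subtype))} (hJ : J ≠ ⊥) :
    ∃ (m : ℕ) (b : WB T), inc T b ∈ J ∧ pord (inc T b) ≤ m ∧ rd T b ≠ 0 ∧
      m + len (rI J) ≤ pord (rd T b) + len J := by
  obtain ⟨m₀, hm₀⟩ := finrank_IB_eq (rI J) (rI_ne_bot hJ)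
  have hlen := len_rI_le hJ
  by_contra hcon
  push Not at hcon
  obtain ⟨D, hD⟩ := Nat.exists_eq_add_of_le hlen
  have h5 : rW (IB J (m₀ + D + 1)) ≤ IB (rI J) m₀ := by
    intro z hz
    have hz' := rW_IB J (m₀ + D + 1) hz
    obtain ⟨b, hb, rfl⟩ := hz
    rw [mem_IB] at hb hz' ⊢
    refine ⟨hz'.1, ?_⟩
    by_cases h0 : rd T b = 0
    · rw [h0]
      have : (0 : WB (T.map (residue V))) ∈ IB (rI J) m₀ := Submodule.zero_mem _
      exact (mem_IB.1 this).2
    · have h6 := hcon (m₀ + D + 1) b hb.1 hb.2 h0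
      omega
  have h1 := finrank_IB_ge J hJ (m₀ + D + 1)
  have h2 := hm₀ m₀ le_rfl
  have h3 := finrank_rW (IB J (m₀ + D + 1)) (m₀ + D + 1) inf_le_right
  have h4 := Submodule.finrank_mono h5
  have e1 : gp (T.map V.subtype) = gp T := rfl
  have e2 : gp (T.map (residue V)) = gp T := rfl
  omega

end GT
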