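import Mathlib
import Pool.Agent.MP_c1dca2_ag.GT.A10
import Pool.Agent.MP_c1dca2_ag.GT.A3
import Pool.Agent.MP_c1dca2_ag.GT.Base
import Pool.Agent.MP_c1dca2_ag.GT.C3
import Pool.Agent.MP_c1dca2_ag.GT.Defs
import Pool.Agent.MP_c1dca2_ag.SUP.Defs

set_option autoImplicit false
set_option linter.unusedSectionVars false

open Polynomial IsLocalRing

namespace GT

/-! ## [GT-C3b] reduction of torsion classes (file C3b.lean, continuation of C3.lean; uses C0, C2, A3, L1) -/

variable {F : Type} [Field F] [IsAlgClosed F] {V : ValuationSubring F} {d : ℕ} [NeZero d] {T : Tab V d}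
  [hG : IsDedekindDomain (WB (T.map V.subtype))] [hG' : IsDedekindDomain (WB (T.map (residue V)))]

/-- The reduction of a class (a homomorphism on the torsion classes). -/
noncomputable def rcl (D : ClassGroup (WB (T.map V.subtype))) :
    ClassGroup (WB (T.map (residue V))) := cls (rI (rdc D))

omit hG' in
theorem c3b_cls_top : cls (⊤ : Ideal (WB (T.map V.subtype))) = 1 := by
  rw [← Ideal.span_singleton_one]
  exact cls_span one_ne_zero

omit hG in
theorem c3b_cls_top' : cls (⊤ : Ideal (WB (T.map (residue V)))) = 1 := by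
  rw [← Ideal.span_singleton_one]
  exact cls_span one_ne_zero

/-- `rI_cls_mul` with `J₂ = ⊤`. -/
theorem cls_rI {J : Ideal (WB (T.map V.subtype))} (hJ : J ≠ ⊥) {N : ℕ} (hN : 0 < N)
    (ht : cls J ^ N = 1) : cls (rI J) = rcl (cls J) := by
  have htop : (⊤ : Ideal (WB (T.map V.subtype))) ≠ ⊥ := top_ne_bot
  have h1 := rI_cls_mul (J₃ := rdc (cls J)) hJ htop (rdc_ne _) hN ht (by rw [c3b_cls_top, one_pow])
    (by rw [c3b_cls_top, mul_one, cls_rdc])
  rw [rI_top, c3b_cls_top', mul_one] at h1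
  exact h1

theorem rcl_one : rcl (1 : ClassGroup (WB (T.map V.subtype))) = 1 := by
  have htop : (⊤ : Ideal (WB (T.map V.subtype))) ≠ ⊥ := top_ne_bot
  have h1 := cls_rI htop one_pos (by rw [c3b_cls_top, one_pow])
  rw [c3b_cls_top, rI_top, c3b_cls_top'] at h1
  exact h1.symm

theorem rcl_mul {D D' : ClassGroup (WB (T.map V.subtype))} {N : ℕ} (hN : 0 < N)
    (h : D ^ N = 1) (h' : D' ^ N = 1) : rcl (D * D') = rcl D * rcl D' := by
  have h1 := rI_cls_mul (rdc_ne D) (rdc_ne D') (rdc_ne (D * D')) hN (by rw [cls_rdc, h]) (by rw [cls_rdc, h'])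
    (by rw [cls_rdc, cls_rdc, cls_rdc])
  exact h1.symm

theorem rcl_div {D D' : ClassGroup (WB (T.map V.subtype))} {N : ℕ} (hN : 0 < N)
    (h : D ^ N = 1) (h' : D' ^ N = 1) : rcl (D / D') = rcl D / rcl D' := by
  have h1 : (D / D') ^ N = 1 := by rw [div_pow, h, h', div_one]
  have h2 := rcl_mul hN h1 h'
  rw [div_mul_cancel] at h2
  rw [eq_div_iff_mul_eq', h2, mul_comm]

end GT
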