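import Mathlib
import Pool.Agent.MP_c1dca2_ag.GT.Base
import Pool.Agent.MP_c1dca2_ag.GT.Defs
import Pool.Agent.MP_c1dca2_ag.SUP.Defs

set_option autoImplicit false
set_option linter.unusedSectionVars false

open Polynomial IsLocalRing

namespace GT

/-! ## [GT-C4] reduction and automorphisms (file C4.lean; uses C0 - C3b) -/

variable {F : Type} [Field F] {V : ValuationSubring F} {d : ℕ} [NeZero d] {T : Tab V d}

/-- reduction commutes with compatible automorphisms -/
theorem c4_gen {A B C : Type} [CommRing A] [CommRing B] [CommRing C] (i : A →+* B) (r : A →+* C)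
    (hr : Function.Surjective r) (g : A ≃+* A) (G : B ≃+* B) (G' : C ≃+* C)
    (h1 : ∀ a, i (g a) = G (i a)) (h2 : ∀ a, r (g a) = G' (r a)) (J : Ideal B) :
    ((J.map G).comap i).map r = ((J.comap i).map r).map G' := by
  ext z
  constructor
  · intro hz
    obtain ⟨b, hb, rfl⟩ := (Ideal.mem_map_iff_of_surjective r hr).1 hz
    rw [Ideal.mem_comap] at hb
    obtain ⟨x, hx, hxb⟩ := (Ideal.mem_map_iff_of_surjective G G.surjective).1 hb
    have h3 : x = i (g.symm b) := by
      apply G.injective
      rw [hxb, ← h1, RingEquiv.apply_symm_apply]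
    refine (Ideal.mem_map_iff_of_surjective G' G'.surjective).2
      ⟨r (g.symm b), Ideal.mem_map_of_mem r ?_, ?_⟩
    · rw [Ideal.mem_comap, ← h3]
      exact hx
    · rw [← h2, RingEquiv.apply_symm_apply]
  · intro hz
    obtain ⟨w, hw, rfl⟩ := (Ideal.mem_map_iff_of_surjective G' G'.surjective).1 hz
    obtain ⟨b, hb, rfl⟩ := (Ideal.mem_map_iff_of_surjective r hr).1 hw
    rw [← h2]
    refine Ideal.mem_map_of_mem r ?_
    rw [Ideal.mem_comap, h1]
    exact Ideal.mem_map_of_mem G (Ideal.mem_comap.1 hb)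

theorem stV_map {Ψ : F ≃+* F} (hS : Stab V Ψ)
    (hT : (T.map V.subtype).map (Ψ : F →+* F) = T.map V.subtype) :
    T.map (stV hS : V →+* V) = T := by
  refine Tab.ext rfl ?_
  funext i j k
  have h := congrFun (congrFun (congrFun (congrArg Tab.c hT) i) j) k
  rw [Tab.map_c, Tab.map_c] at h
  rw [Tab.map_c]
  apply Polynomial.map_injective V.subtype V.subtype_injective
  rw [← h, Polynomial.map_map, Polynomial.map_map]
  congr 1

theorem stR_map {Ψ : F ≃+* F} (hS : Stab V Ψ)
    (hT : (T.map V.subtype).map (Ψ : F →+* F) = T.map V.subtype) :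
    (T.map (residue V)).map (stR hS : ResidueField V →+* ResidueField V) =
      T.map (residue V) := by
  conv_rhs => rw [← stV_map hS hT]
  rw [Tab.map_map, Tab.map_map]
  congr 1

/-- `Ψ` acts on `B_V` through `stV`, compatibly with `inc` and `rd`. -/
theorem rI_bE {Ψ : F ≃+* F} (hS : Stab V Ψ)
    (hT : (T.map V.subtype).map (Ψ : F →+* F) = T.map V.subtype)
    (J : Ideal (WB (T.map V.subtype))) :
    rI (J.map (bE Ψ hT)) = (rI J).map (bE (stR hS) (stR_map hS hT)) := by
  refine c4_gen (inc T) (rd T) rd_surj (bE (stV hS) (stV_map hS hT)) _ _ ?_ ?_ J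
  · intro b
    refine WB.ext (funext fun j => ?_)
    rw [inc_co, bE_co, bE_co, inc_co, Polynomial.map_map, Polynomial.map_map]
    congr 1
  · intro b
    refine WB.ext (funext fun j => ?_)
    rw [rd_co, bE_co, bE_co, rd_co, Polynomial.map_map, Polynomial.map_map]
    congr 1

theorem c5_stR {Ψ : F ≃+* F} (hS : Stab V Ψ) (z w : V) (h : Ψ z - w ∈ V.nonunits) :
    stR hS (residue V z) = residue V w := by
  rw [stR_residue, ← sub_eq_zero, ← map_sub, residue_eq_zero_iff, ← ValuationSubring.coe_mem_nonunits_iff]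
  exact h

end GT
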