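import Mathlib
import Pool.Agent.MP_c1dca2_ag.GT.Base

set_option autoImplicit false

open Polynomial

namespace GT

/-! ## [GT-GR1a] evaluations of `WB T` -/

section general

variable {R S : Type} [CommRing R] [CommRing S] {d : ℕ} [NeZero d] {T : Tab R d} {T' : Tab S d}

/-- two homomorphisms which agree on the coefficients, on `x` and on the `f_j` are equal -/
theorem gr1a_ext {B : Type} [CommRing B] (g : R →+* B) (φ φ' : WB T →+* B) (h : ∀ r, φ (algebraMap R (WB T) r) = g r)
    (h' : ∀ r, φ' (algebraMap R (WB T) r) = g r) (hx : φ (WB.x T) = φ' (WB.x T))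
    (hf : ∀ j, φ (WB.f T j) = φ' (WB.f T j)) (b : WB T) : φ b = φ' b := by
  rw [lift_unique φ h b, lift_unique φ' h' b, lift_apply, lift_apply]
  refine Finset.sum_congr rfl fun j _ => ?_
  rw [hx, hf]

/-- The kernel of an evaluation.

Proof. `⊇` is clear. `⊆`: modulo the right hand side `b = ∑ b.co j • f j ≡ ∑ (b.co j)(ψ x) ψ(f j) = ψ b` (`WB.sum_f`; for a polynomial `p`, `p(x) - p(ψ x)` is a multiple of `x - ψ x`:
`Polynomial.sub_dvd_eval_sub` or induction). -/
theorem ker_eval (ψ : WB T →ₐ[R] R) : RingHom.ker ψ =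
    Ideal.span (insert (WB.x T - algebraMap R (WB T) (ψ (WB.x T)))
      (Set.range fun j => WB.f T j - algebraMap R (WB T) (ψ (WB.f T j)))) := by
  set I := Ideal.span (insert (WB.x T - algebraMap R (WB T) (ψ (WB.x T)))
      (Set.range fun j => WB.f T j - algebraMap R (WB T) (ψ (WB.f T j)))) with hI
  apply le_antisymm
  · intro b hb
    have h1 : (Ideal.Quotient.mk I) b = (((Ideal.Quotient.mk I).comp (algebraMap R (WB T))).comp (ψ : WB T →+* R)) b := by
      refine gr1a_ext ((Ideal.Quotient.mk I).comp (algebraMap R (WB T))) _ _ (fun r => rfl) (fun r => ?_) ?_ (fun j => ?_) b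
      · show (Ideal.Quotient.mk I) (algebraMap R (WB T) (ψ (algebraMap R (WB T) r))) = _
        rw [ψ.commutes]
        rfl
      · show _ = (Ideal.Quotient.mk I) (algebraMap R (WB T) (ψ (WB.x T)))
        rw [Ideal.Quotient.mk_eq_mk_iff_sub_mem]
        exact Ideal.subset_span (Set.mem_insert _ _)
      · show _ = (Ideal.Quotient.mk I) (algebraMap R (WB T) (ψ (WB.f T j)))
        rw [Ideal.Quotient.mk_eq_mk_iff_sub_mem]
        exact Ideal.subset_span (Set.mem_insert_of_mem _ ⟨j, rfl⟩)
    have h2 : ψ b = 0 := hb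
    have h3 : (((Ideal.Quotient.mk I).comp (algebraMap R (WB T))).comp (ψ : WB T →+* R)) b = 0 := by
      show (Ideal.Quotient.mk I) (algebraMap R (WB T) (ψ b)) = 0
      rw [h2, map_zero, map_zero]
    rw [h3] at h1
    exact Ideal.Quotient.eq_zero_iff_mem.1 h1
  · rw [hI, Ideal.span_le]
    intro b hb
    rcases hb with rfl | ⟨j, rfl⟩
    · show ψ _ = 0
      rw [map_sub, ψ.commutes]
      exact sub_self _
    · show ψ _ = 0
      rw [map_sub, ψ.commutes]
      exact sub_self _

/-- Evaluations specialise: over `g : R → S` an evaluation `ψ` of `WB T` gives the evaluation `ψ'` of `WB (T.map g)` with the values `g (ψ x)`, `g (ψ (f j))`.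

Proof. `sol_of` for `ψ` (with `g = RingHom.id R`), `Sol.map` with `g`, `Sol.change` for `T.map g = T'`, `lift`; it is an algebra homomorphism by `lift_algebraMap'`. The equation `ψ' (bmap g h b) = g (ψ b)`: both sides are
homomorphisms `WB T → S` which agree on `R`, `x`, `f j` (`WB.sum_f`). The image of the kernel: `ker_eval` for `ψ` and `ψ'` and `Ideal.map_span`. -/
theorem eval_map (g : R →+* S) (h : T.map g = T') (ψ : WB T →ₐ[R] R) :
    ∃ ψ' : WB T' →ₐ[S] S, (∀ b, ψ' (bmap g h b) = g (ψ b)) ∧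
      (RingHom.ker ψ).map (bmap g h) = RingHom.ker ψ' := by
  have h1 : Sol T (RingHom.id R) (ψ (WB.x T)) (fun j => ψ (WB.f T j)) :=
    sol_of (ψ : WB T →+* R) (fun r => ψ.commutes r)
  have h2 : Sol T (g.comp (RingHom.id R)) (g (ψ (WB.x T))) (fun j => g (ψ (WB.f T j))) := h1.map g
  have h3 : Sol T' (RingHom.id S) (g (ψ (WB.x T))) (fun j => g (ψ (WB.f T j))) :=
    h2.change h (by rw [RingHom.id_comp, RingHom.comp_id])
  let ψ' : WB T' →ₐ[S] S := { lift h3 with commutes' := fun r => lift_algebraMap' h3 r }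
  have hψ' : ∀ b, ψ' b = lift h3 b := fun b => rfl
  have hx : ψ' (WB.x T') = g (ψ (WB.x T)) := lift_x h3
  have hf : ∀ j, ψ' (WB.f T' j) = g (ψ (WB.f T j)) := fun j => lift_f h3 j
  refine ⟨ψ', fun b => ?_, ?_⟩
  · refine gr1a_ext g ((ψ' : WB T' →+* S).comp (bmap g h)) (g.comp (ψ : WB T →+* R)) (fun r => ?_) (fun r => ?_) ?_
      (fun j => ?_) b
    · show ψ' (bmap g h (algebraMap R (WB T) r)) = g r
      rw [bmap_algebraMap', ψ'.commutes]
      rfl
    · show g (ψ (algebraMap R (WB T) r)) = g r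
      rw [ψ.commutes]
      rfl
    · show ψ' (bmap g h (WB.x T)) = g (ψ (WB.x T))
      rw [bmap_x, hx]
    · show ψ' (bmap g h (WB.f T j)) = g (ψ (WB.f T j))
      rw [bmap_f, hf]
  · rw [ker_eval, ker_eval, Ideal.map_span, Set.image_insert_eq, ← Set.range_comp]
    congr 2
    · rw [map_sub, bmap_x, bmap_algebraMap', hx]
    · congr 1
      funext j
      rw [Function.comp_apply, map_sub, bmap_f, bmap_algebraMap', hf]

end general

variable {κ : Type} [Field κ] {d : ℕ} [NeZero d] {T : Tab κ d}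

end GT
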