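import Mathlib
import Pool.Agent.MP_c1dca2_ag.GT.Base

set_option autoImplicit false
set_option linter.unusedSectionVars false

open Polynomial IsLocalRing

namespace GT

/-! ## [GT-F3a] finite orbits of ideals -/

theorem F3a_common {α : Type} (f : α → α) (s : Finset α)
    (h : ∀ x ∈ s, ∃ m : ℕ, 0 < m ∧ f^[m] x = x) :
    ∃ m : ℕ, 0 < m ∧ ∀ x ∈ s, f^[m] x = x := by
  classical
  induction s using Finset.induction_on with
  | empty => exact ⟨1, one_pos, fun x hx => absurd hx (Finset.notMem_empty x)⟩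
  | insert a s ha ih =>
    obtain ⟨m, hm, hms⟩ := ih fun x hx => h x (Finset.mem_insert_of_mem hx)
    obtain ⟨k, hk, hka⟩ := h a (Finset.mem_insert_self a s)
    refine ⟨m * k, Nat.mul_pos hm hk, fun x hx => ?_⟩
    rw [Finset.mem_insert] at hx
    rcases hx with rfl | hx
    · exact Function.IsPeriodicPt.const_mul (show Function.IsPeriodicPt f k x from hka) m
    · exact Function.IsPeriodicPt.mul_const (show Function.IsPeriodicPt f m x from hms x hx) k

theorem F3a_iter {d : ℕ} [NeZero d] {κ : Type} [Field κ] {T : Tab κ d} (φ : κ ≃+* κ)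
    (hT : T.map (φ : κ →+* κ) = T) (m : ℕ) (b : WB T) (j : ZMod d) (i : ℕ) :
    (((bE φ hT)^[m] b).co j).coeff i = φ^[m] ((b.co j).coeff i) := by
  induction m with
  | zero => rfl
  | succ m ih =>
    rw [Function.iterate_succ_apply', Function.iterate_succ_apply', bE_co, coeff_map, ih]
    rfl

theorem F3a_pt {d : ℕ} [NeZero d] {κ : Type} [Field κ] {T : Tab κ d} (φ : κ ≃+* κ)
    (hT : T.map (φ : κ →+* κ) = T) (hfin : ∀ x : κ, ∃ m : ℕ, 0 < m ∧ φ^[m] x = x)
    (b : WB T) : ∃ m : ℕ, 0 < m ∧ (bE φ hT)^[m] b = b := by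
  classical
  obtain ⟨m, hm, h⟩ := F3a_common φ (Finset.univ.biUnion fun j : ZMod d =>
    (b.co j).support.image (b.co j).coeff) (fun x _ => hfin x)
  refine ⟨m, hm, WB.ext (funext fun j => Polynomial.ext fun i => ?_)⟩
  rw [F3a_iter]
  by_cases hi : i ∈ (b.co j).support
  · exact h _ (Finset.mem_biUnion.2 ⟨j, Finset.mem_univ j, Finset.mem_image_of_mem _ hi⟩)
  · rw [notMem_support_iff.1 hi]
    exact iterate_map_zero φ m

theorem F3a_span {B : Type} [CommRing B] (ψ : B ≃+* B) (S : Set B) (m : ℕ) :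
    (fun I : Ideal B => I.map ψ)^[m] (Ideal.span S) = Ideal.span (ψ^[m] '' S) := by
  induction m with
  | zero => simp
  | succ m ih =>
    rw [Function.iterate_succ_apply', ih]
    rw [Ideal.map_span, Set.image_image]
    congr 1
    refine Set.image_congr fun x _ => ?_
    exact (Function.iterate_succ_apply' ψ m x).symm

/-- A finitely generated ideal is fixed by a power of an automorphism of the coefficients with finite
orbits.

Proof. The finitely many coefficients of finitely many generators are fixed by one power `φ^[m]`,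
`m > 0` (a common multiple), so `(bE φ hT)^[m]` fixes the generators; and
`(Ideal.map (bE φ hT))^[m] I` is generated by the images of the generators under `(bE φ hT)^[m]`. -/
theorem ideal_orbit {d : ℕ} [NeZero d] {κ : Type} [Field κ] {T : Tab κ d} (φ : κ ≃+* κ)
    (hT : T.map (φ : κ →+* κ) = T) (hfin : ∀ x : κ, ∃ m : ℕ, 0 < m ∧ φ^[m] x = x)
    (I : Ideal (WB T)) (hI : I.FG) :
    ∃ m : ℕ, 0 < m ∧ (fun I : Ideal (WB T) => I.map (bE φ hT))^[m] I = I := by
  obtain ⟨s, rfl⟩ := hI
  obtain ⟨m, hm, h⟩ := F3a_common (bE φ hT) s (fun b _ => F3a_pt φ hT hfin b)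
  refine ⟨m, hm, ?_⟩
  have h2 : (bE φ hT)^[m] '' (s : Set (WB T)) = (s : Set (WB T)) := by
    have h3 : (bE φ hT)^[m] '' (s : Set (WB T)) = id '' (s : Set (WB T)) :=
      Set.image_congr fun x hx => h x hx
    rw [h3, Set.image_id]
  have h4 := F3a_span (bE φ hT) (s : Set (WB T)) m
  rw [h2] at h4
  exact h4

end GT
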