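import Mathlib
import Pool.Agent.MP_c1dca2_ag.GT.Base

set_option autoImplicit false

open Polynomial

namespace GT

/-! ## [GT-GR1b] evaluations of `WB T` -/

section general

variable {R S : Type} [CommRing R] [CommRing S] {d : ℕ} [NeZero d] {T : Tab R d} {T' : Tab S d}

end general

variable {κ : Type} [Field κ] {d : ℕ} [NeZero d] {T : Tab κ d}

/-- The kernel of an evaluation is maximal (the evaluation is surjective, `RingHom.ker_isMaximal_of_surjective`). -/
theorem ker_maximal (ψ : WB T →ₐ[κ] κ) : (RingHom.ker ψ).IsMaximal :=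
  RingHom.ker_isMaximal_of_surjective ψ fun r => ⟨algebraMap κ (WB T) r, ψ.commutes r⟩

/-- The maximal ideals are the kernels of the evaluations.

Proof. `WB T` is a finite `κ[X]`-module, so it is a `κ`-algebra of finite type; `WB T ⧸ Q` is a field of finite type over `κ`, so it is finite over `κ` (Zariski's lemma, `finite_of_finite_type_of_isJacobsonRing`), so it is `κ`
(`IsAlgClosed.algebraMap_bijective_of_isIntegral`). -/
theorem exists_eval [IsAlgClosed κ] (Q : Ideal (WB T)) (hQ : Q.IsMaximal) :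
    ∃ ψ : WB T →ₐ[κ] κ, RingHom.ker ψ = Q := by
  letI : Field (WB T ⧸ Q) := Ideal.Quotient.field Q
  have h0 : Algebra.FiniteType κ[X] (WB T) := inferInstance
  have h1 : Algebra.FiniteType κ (WB T) := Algebra.FiniteType.trans (inferInstance : Algebra.FiniteType κ κ[X]) h0
  have h2 : Algebra.FiniteType κ (WB T ⧸ Q) := inferInstance
  have h3 : Module.Finite κ (WB T ⧸ Q) := finite_of_finite_type_of_isJacobsonRing κ (WB T ⧸ Q)
  have h4 : Function.Bijective (algebraMap κ (WB T ⧸ Q)) := IsAlgClosed.algebraMap_bijective_of_isIntegral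
  let e : κ ≃ₐ[κ] (WB T ⧸ Q) := AlgEquiv.ofBijective (Algebra.ofId κ (WB T ⧸ Q)) h4
  refine ⟨(e.symm : (WB T ⧸ Q) →ₐ[κ] κ).comp (Ideal.Quotient.mkₐ κ Q), ?_⟩
  ext b
  rw [RingHom.mem_ker]
  show e.symm (Ideal.Quotient.mk Q b) = 0 ↔ b ∈ Q
  rw [map_eq_zero_iff e.symm e.symm.injective, Ideal.Quotient.eq_zero_iff_mem]

/-- `WB T` is Noetherian over a field (finite over `κ[X]`). -/
theorem wb_noeth : IsNoetherianRing (WB T) := IsNoetherianRing.of_finite κ[X] (WB T)

end GT
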