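import Mathlib
import Pool.Agent.MP_c1dca2_ag.GT.Base

set_option autoImplicit false

open Polynomial

namespace GT

/-! ## [GT-GR2d] trace and discriminant -/

variable {R S : Type} [CommRing R] [CommRing S] {d : ℕ} [NeZero d]

/-- The trace of `WB T` over `R[X]`. -/
noncomputable def tr (T : Tab R d) (b : WB T) : R[X] := ∑ i, (b * WB.f T i).co i

/-- The discriminant of `WB T` over `R[X]`. -/
noncomputable def dis (T : Tab R d) : R[X] := (Matrix.of fun i j => tr T (WB.f T i * WB.f T j)).det

end GT
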