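import Mathlib
import Pool.Agent.MP_c1dca2_ag.GT.Base
import Pool.Agent.MP_c1dca2_ag.GT.GR2d

set_option autoImplicit false

open Polynomial

namespace GT

/-! ## [GT-GR2a] trace and discriminant -/

variable {R S : Type} [CommRing R] [CommRing S] {d : ℕ} [NeZero d]

/-- Proof. `bmap_co`, `bmap_f`. -/
theorem tr_map (T : Tab R d) {T' : Tab S d} (g : R →+* S) (h : T.map g = T') (b : WB T) :
    tr T' (bmap g h b) = (tr T b).map g := by
  rw [tr, tr, Polynomial.map_sum]
  refine Finset.sum_congr rfl fun i _ => ?_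
  rw [← bmap_f g h, ← map_mul, bmap_co]

/-- Proof. `tr_map`, `RingHom.map_det` for `Polynomial.mapRingHom g`. -/
theorem dis_map (T : Tab R d) (g : R →+* S) : dis (T.map g) = (dis T).map g := by
  rw [dis, dis, ← Polynomial.coe_mapRingHom, RingHom.map_det]
  congr 1
  ext i j : 1
  rw [Matrix.of_apply, RingHom.mapMatrix_apply, Matrix.map_apply, Matrix.of_apply,
    Polynomial.coe_mapRingHom, ← tr_map T g rfl, map_mul, bmap_f, bmap_f]

/-- Proof. `Algebra.trace_apply`, `LinearMap.trace_eq_matrix_trace` for the basis `WB.bas T`, `WB.bas_apply`, `WB.bas_repr`. -/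
theorem tr_eq (T : Tab R d) (b : WB T) : tr T b = Algebra.trace R[X] (WB T) b := by
  classical
  rw [Algebra.trace_eq_matrix_trace (WB.bas T), Matrix.trace, tr]
  refine Finset.sum_congr rfl fun i _ => ?_
  rw [Matrix.diag_apply, Algebra.leftMulMatrix_eq_repr_mul, WB.bas_apply, WB.bas_repr]

end GT
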