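import Mathlib
import Pool.Agent.MP_c1dca2_ag.GT.Base
import Pool.Agent.MP_c1dca2_ag.GT.GR2a
import Pool.Agent.MP_c1dca2_ag.GT.GR2d

set_option autoImplicit false

open Polynomial

namespace GT

/-! ## [GT-GR2b] trace and discriminant -/

variable {R S : Type} [CommRing R] [CommRing S] {d : ℕ} [NeZero d]

/-- Proof. If `dis T = 0` there is a vector `v ≠ 0` with `v N = 0` for the trace matrix `N`, so `z = ∑ v_i f_i ≠ 0` has `tr (z b) = 0` for all `b`; `z` is integral over `C[X]`, so some multiple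
`z b` is a nonzero element `p` of `C[X]`, and `tr p = d p ≠ 0`: a contradiction. -/
theorem dis_ne_zero {C : Type} [Field C] [CharZero C] (T : Tab C d) [IsDomain (WB T)] : dis T ≠ 0 := by
  classical
  intro h
  rw [dis] at h
  obtain ⟨v, hv0, hv⟩ := Matrix.exists_vecMul_eq_zero_iff.2 h
  set z : WB T := ∑ i, v i • WB.f T i with hz
  have hzco : ∀ i, z.co i = v i := by
    intro i
    have h1 := WB.bas_repr (T := T) z i
    rw [← h1, hz]
    have h2 : ∑ i, v i • WB.f T i = ∑ i, v i • WB.bas T i := Finset.sum_congr rfl fun i _ => by rw [WB.bas_apply]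
    rw [h2]
    exact congrFun ((WB.bas T).equivFun_symm_apply v ▸ (WB.bas T).equivFun.apply_symm_apply v) i
  have hz0 : z ≠ 0 := by
    intro h0
    apply hv0
    funext i
    rw [← hzco i, h0]
    rfl
  have htrj : ∀ j, tr T (z * WB.f T j) = 0 := by
    intro j
    rw [hz, Finset.sum_mul, tr_eq, map_sum]
    have h1 := congrFun hv j
    rw [Matrix.vecMul, dotProduct] at h1
    rw [Pi.zero_apply] at h1
    rw [← h1]
    refine Finset.sum_congr rfl fun i _ => ?_
    rw [Algebra.smul_mul_assoc, map_smul, smul_eq_mul, Matrix.of_apply, tr_eq]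
  have htr : ∀ b, tr T (z * b) = 0 := by
    intro b
    rw [← WB.sum_f b, Finset.mul_sum, tr_eq, map_sum]
    refine Finset.sum_eq_zero fun j _ => ?_
    rw [mul_smul_comm, map_smul, ← tr_eq, htrj, smul_zero]
  have hint : IsIntegral C[X] z := Algebra.IsIntegral.isIntegral z
  have hcomap := Ideal.comap_ne_bot_of_integral_mem hz0 (Ideal.mem_span_singleton_self z) hint
  obtain ⟨p, hp, hp0⟩ := Submodule.exists_mem_ne_zero_of_ne_bot hcomap
  obtain ⟨b, hb⟩ := Ideal.mem_span_singleton.1 (Ideal.mem_comap.1 hp)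
  have h1 := htr b
  rw [← hb, tr] at h1
  have h2 : ∀ i : ZMod d, (algebraMap C[X] (WB T) p * WB.f T i).co i = p := by
    intro i
    rw [← Algebra.smul_def, WB.co_smul, WB.f_co, Pi.single_eq_same, mul_one]
  rw [Finset.sum_congr rfl fun i _ => h2 i, Finset.sum_const, Finset.card_univ, ZMod.card, nsmul_eq_mul] at h1
  rcases mul_eq_zero.1 h1 with h3 | h3
  · exact NeZero.ne d (Nat.cast_eq_zero.1 h3)
  · exact hp0 h3

end GT
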