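import Mathlib
import Pool.Agent.MP_c1dca2_ag.GT.Base

set_option autoImplicit false

open Polynomial

namespace GT

/-! ## [GT-GR3d] the fibres of `x` -/

variable {κ : Type} [Field κ] {d : ℕ} [NeZero d] {T : Tab κ d}

/-- `x - a` -/
noncomputable def xa (T : Tab κ d) (a : κ) : WB T := WB.x T - algebraMap κ (WB T) a

end GT
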