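import Mathlib
import Pool.Agent.MP_c1dca2_ag.GT.Base
import Pool.Agent.MP_c1dca2_ag.GT.GR2a
import Pool.Agent.MP_c1dca2_ag.GT.GR2d
import Pool.Agent.MP_c1dca2_ag.GT.GR3d

set_option autoImplicit false

open Polynomial

namespace GT

/-! ## [GT-GR3a] the fibres of `x` -/

variable {κ : Type} [Field κ] {d : ℕ} [NeZero d] {T : Tab κ d}

theorem gr3a_xa (a : κ) : xa T a = algebraMap κ[X] (WB T) (X - C a) := by
  rw [xa, WB.x, map_sub, IsScalarTower.algebraMap_apply κ κ[X] (WB T) a, Polynomial.algebraMap_eq]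

/-- `b` is a multiple of `x - a` iff all coordinates vanish at `a`. -/
theorem xa_dvd (a : κ) (b : WB T) : xa T a ∣ b ↔ ∀ j, (b.co j).eval a = 0 := by
  rw [gr3a_xa]
  constructor
  · rintro ⟨c, rfl⟩ j
    rw [← Algebra.smul_def, WB.co_smul, eval_mul, eval_sub, eval_X, eval_C, sub_self, zero_mul]
  · intro h
    have h1 : ∀ j, ∃ q : κ[X], b.co j = (X - C a) * q := fun j => Polynomial.dvd_iff_isRoot.2 (h j)
    choose q hq using h1
    refine ⟨⟨q⟩, WB.ext (funext fun j => ?_)⟩
    rw [← Algebra.smul_def, WB.co_smul, hq j]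

/-- If the discriminant does not vanish at `a`, then `(x - a)` is a radical ideal.

Proof. Let `z ^ n ∈ (x - a)`. `WB T ⧸ (x - a)` is a `κ`-vector space with basis `f_i` and the matrix of the multiplication by `b` is the matrix `((b f_i).co j)` evaluated at `a`, so the trace of the
multiplication by `b` on the quotient is `(tr T b).eval a`. For every `j` the multiplication by `z f_j` is nilpotent on the quotient, so its trace is `0`: `(tr T (z * f j)).eval a = 0` (Mathlib: `LinearMap.trace` of a nilpotent map is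
nilpotent, `LinearMap.isNilpotent_trace_of_isNilpotent`; or for matrices `Matrix.isNilpotent_trace_of_isNilpotent`). Write `z = ∑ z_i f_i`: `∑_i z_i(a) (tr T (f_i f_j))(a) = 0` for all `j`, and the matrix is invertible (`(dis T).eval a ≠ 0`), so `z_i(a) = 0`. -/
theorem xa_radical (a : κ) (ha : (dis T).eval a ≠ 0) : (Ideal.span {xa T a}).IsRadical := by
  classical
  rintro z ⟨n, hn⟩
  rw [Ideal.mem_span_singleton] at hn ⊢
  let φ : WB T →+* Matrix (ZMod d) (ZMod d) κ :=
    (Polynomial.evalRingHom a).mapMatrix.comp (Algebra.leftMulMatrix (WB.bas T)).toRingHom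
  have hφ : ∀ (b : WB T) (k i : ZMod d), φ b k i = ((b * WB.f T i).co k).eval a := by
    intro b k i
    show (Algebra.leftMulMatrix (WB.bas T) b k i).eval a = _
    rw [Algebra.leftMulMatrix_eq_repr_mul, WB.bas_apply, WB.bas_repr]
  have hφ0 : ∀ b : WB T, xa T a ∣ b → φ b = 0 := by
    intro b hb
    ext k i
    rw [hφ, Matrix.zero_apply]
    exact (xa_dvd a _).1 (hb.mul_right _) k
  have htr : ∀ b : WB T, (φ b).trace = (tr T b).eval a := by
    intro b
    rw [tr, eval_finsetSum, Matrix.trace]
    exact Finset.sum_congr rfl fun i _ => hφ b i i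
  have hz : φ z ^ n = 0 := by
    rw [← map_pow]
    exact hφ0 _ hn
  have h0 : ∀ j, (tr T (z * WB.f T j)).eval a = 0 := by
    intro j
    rw [← htr]
    have h1 : IsNilpotent (φ (z * WB.f T j)) := by
      refine ⟨n, ?_⟩
      rw [← map_pow, mul_pow, map_mul, map_pow, hz, zero_mul]
    exact (Matrix.isNilpotent_trace_of_isNilpotent h1).eq_zero
  rw [xa_dvd]
  have hN : (Matrix.of fun i j => (tr T (WB.f T i * WB.f T j)).eval a).det ≠ 0 := by
    have h1 : (dis T).eval a = (Matrix.of fun i j => (tr T (WB.f T i * WB.f T j)).eval a).det := by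
      rw [dis]
      exact RingHom.map_det (Polynomial.evalRingHom a) _
    rwa [← h1]
  have hv : Matrix.vecMul (fun i => (z.co i).eval a) (Matrix.of fun i j => (tr T (WB.f T i * WB.f T j)).eval a) = 0 := by
    funext j
    rw [Pi.zero_apply, ← h0 j]
    have h2 : z * WB.f T j = ∑ i, z.co i • (WB.f T i * WB.f T j) := by
      conv_lhs => rw [← WB.sum_f z, Finset.sum_mul]
      exact Finset.sum_congr rfl fun i _ => by rw [Algebra.smul_mul_assoc]
    rw [h2, tr_eq, map_sum, eval_finsetSum]
    show ∑ i, (z.co i).eval a * (tr T (WB.f T i * WB.f T j)).eval a = _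
    refine Finset.sum_congr rfl fun i _ => ?_
    rw [map_smul, smul_eq_mul, eval_mul, tr_eq]
  have hv0 := Matrix.eq_zero_of_vecMul_eq_zero hN hv
  intro j
  exact congrFun hv0 j

end GT
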