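import Mathlib
import Pool.Agent.MP_c1dca2_ag.GT.Base
import Pool.Agent.MP_c1dca2_ag.GT.GR3a
import Pool.Agent.MP_c1dca2_ag.GT.GR3d

set_option autoImplicit false

open Polynomial

namespace GT

/-! ## [GT-GR3b] the fibres of `x` -/

variable {κ : Type} [Field κ] {d : ℕ} [NeZero d] {T : Tab κ d}

theorem gr3b_fin (a : κ) : Module.Finite κ (WB T ⧸ Ideal.span {xa T a}) := by
  classical
  rw [Module.finite_def]
  refine ⟨Finset.univ.image (fun j => Ideal.Quotient.mk (Ideal.span {xa T a}) (WB.f T j)), ?_⟩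
  rw [eq_top_iff]
  intro z _
  obtain ⟨b, rfl⟩ := Ideal.Quotient.mk_surjective z
  have h1 : Ideal.Quotient.mk (Ideal.span {xa T a}) b =
      ∑ j, (b.co j).eval a • Ideal.Quotient.mk (Ideal.span {xa T a}) (WB.f T j) := by
    have h2 : ∑ j, (b.co j).eval a • Ideal.Quotient.mk (Ideal.span {xa T a}) (WB.f T j) =
        Ideal.Quotient.mk (Ideal.span {xa T a}) (∑ j, (b.co j).eval a • WB.f T j) := by
      rw [map_sum]
      exact Finset.sum_congr rfl fun j _ => rfl
    rw [h2, Ideal.Quotient.mk_eq_mk_iff_sub_mem, Ideal.mem_span_singleton, xa_dvd]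
    intro j
    have h3 : (∑ j, (b.co j).eval a • WB.f T j).co = fun k => C ((b.co k).eval a) := by
      have h4 : ∑ j, (b.co j).eval a • WB.f T j = (⟨fun k => C ((b.co k).eval a)⟩ : WB T) := by
        rw [← WB.sum_f (⟨fun k => C ((b.co k).eval a)⟩ : WB T)]
        refine Finset.sum_congr rfl fun k _ => WB.ext (funext fun i => ?_)
        rw [WB.co_smul', WB.co_smul, smul_eq_C_mul]
      rw [h4]
    rw [WB.co_sub, Pi.sub_apply, h3, eval_sub, eval_C, sub_self]
  rw [h1]
  refine Submodule.sum_mem _ fun j _ => Submodule.smul_mem _ _ (Submodule.subset_span ?_)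
  rw [Finset.coe_image]
  exact ⟨j, Finset.mem_coe.2 (Finset.mem_univ j), rfl⟩

/-- If `(x - a)` is radical, then every maximal ideal containing `x - a` is a factor of `(x - a)`.

Proof. The quotient `A := WB T ⧸ (x - a)` is a finite dimensional `κ`-vector space (finite `κ[X]`-module killed by `X - a`), so it is Artinian: finitely many maximal ideals, and every prime ideal is maximal. `(x - a)` is radical, so it is the
intersection of the finitely many maximal ideals `Q_1, ..., Q_s` containing it, `= Q_1 ⋯ Q_s` (pairwise coprime: `Ideal.prod_eq_iInf...`/ `Ideal.inf_eq_mul_of_isCoprime`). `Q = Q_1` say, `N := Q_2 ⋯ Q_s`. -/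
theorem xa_factor (a : κ) (ha : (Ideal.span {xa T a}).IsRadical) (Q : Ideal (WB T)) (hQ : Q.IsMaximal)
    (hx : xa T a ∈ Q) : ∃ N : Ideal (WB T), Q * N = Ideal.span {xa T a} := by
  classical
  set I : Ideal (WB T) := Ideal.span {xa T a} with hI
  have : Module.Finite κ (WB T ⧸ I) := gr3b_fin a
  have : IsArtinianRing (WB T ⧸ I) := isArtinian_of_tower κ inferInstance
  have hsurj : Function.Surjective (Ideal.Quotient.mk I) := Ideal.Quotient.mk_surjective
  set s : Finset (Ideal (WB T)) :=
    (IsArtinianRing.setOfPred_isMaximal_finite (WB T ⧸ I)).toFinset.image (Ideal.comap (Ideal.Quotient.mk I)) with hs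
  have hcm : ∀ J : Ideal (WB T), I ≤ J → (J.map (Ideal.Quotient.mk I)).comap (Ideal.Quotient.mk I) = J := by
    intro J hJ
    rw [Ideal.comap_map_of_surjective _ hsurj, sup_eq_left]
    intro b hb
    apply hJ
    rw [Ideal.mem_comap, Ideal.mem_bot] at hb
    exact Ideal.Quotient.eq_zero_iff_mem.1 hb
  have hmem : ∀ P : Ideal (WB T), P ∈ s ↔ P.IsMaximal ∧ I ≤ P := by
    intro P
    rw [hs, Finset.mem_image]
    constructor
    · rintro ⟨M, hM, rfl⟩
      have hM' : M.IsMaximal := by simpa using hM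
      refine ⟨Ideal.comap_isMaximal_of_surjective _ hsurj, ?_⟩
      intro b hb
      rw [Ideal.mem_comap, Ideal.Quotient.eq_zero_iff_mem.2 hb]
      exact M.zero_mem
    · rintro ⟨hP, hle⟩
      have := hP.isPrime
      have : (P.map (Ideal.Quotient.mk I)).IsPrime :=
        Ideal.map_isPrime_of_surjective hsurj (by rw [Ideal.mk_ker]; exact hle)
      refine ⟨P.map (Ideal.Quotient.mk I), ?_, hcm P hle⟩
      have h1 := IsArtinianRing.isMaximal_of_isPrime (P.map (Ideal.Quotient.mk I))
      simpa using h1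
  have hprod : ∏ P ∈ s, P = ⨅ P ∈ s, P := by
    refine Ideal.prod_eq_iInf_of_pairwise_isCoprime (J := fun P => P) ?_
    intro P hP P' hP' hne
    exact Ideal.isCoprime_iff_sup_eq.2 (Ideal.IsMaximal.coprime_of_ne ((hmem P).1 (Finset.mem_coe.1 hP)).1 ((hmem P').1 (Finset.mem_coe.1 hP')).1 hne)
  have hinf : ⨅ P ∈ s, P = I := by
    apply le_antisymm
    · rw [← ha.radical, Ideal.radical_eq_sInf]
      refine le_sInf ?_
      rintro J ⟨hJ, hJp⟩
      have := hJp
      have : (J.map (Ideal.Quotient.mk I)).IsPrime :=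
        Ideal.map_isPrime_of_surjective hsurj (by rw [Ideal.mk_ker]; exact hJ)
      have h1 := IsArtinianRing.isMaximal_of_isPrime (J.map (Ideal.Quotient.mk I))
      have h2 : J ∈ s := by
        rw [hmem]
        refine ⟨?_, hJ⟩
        rw [← hcm J hJ]
        exact Ideal.comap_isMaximal_of_surjective _ hsurj
      exact iInf₂_le J h2
    · exact le_iInf₂ fun P hP => ((hmem P).1 hP).2
  have hQs : Q ∈ s := (hmem Q).2 ⟨hQ, (Ideal.span_singleton_le_iff_mem _).2 hx⟩
  refine ⟨∏ P ∈ s.erase Q, P, ?_⟩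
  rw [Finset.mul_prod_erase s (fun P => P) hQs, hprod, hinf]

end GT
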