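import Mathlib
import Pool.Agent.MP_c1dca2_ag.GT.Base
import Pool.Agent.MP_c1dca2_ag.GT.GR1b
import Pool.Agent.MP_c1dca2_ag.GT.GR3a
import Pool.Agent.MP_c1dca2_ag.GT.GR3d

set_option autoImplicit false

open Polynomial

namespace GT

/-! ## [GT-GR3c] the fibres of `x` -/

variable {κ : Type} [Field κ] {d : ℕ} [NeZero d] {T : Tab κ d}

/-- Factorisation of `(x - a)` in the Dedekind case, by evaluations.

Proof. `xa T a ≠ 0`; `(x - a)` is a product of maximal ideals (`UniqueFactorizationMonoid`, `normalizedFactors`, nonzero primes are maximal), each the kernel of an evaluation (`exists_eval`). -/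
theorem xa_prod [IsAlgClosed κ] [IsDedekindDomain (WB T)] (a : κ) :
    ∃ (n : ℕ) (ψ : Fin n → (WB T →ₐ[κ] κ)), ∏ i, RingHom.ker (ψ i) = Ideal.span {xa T a} := by
  classical
  have hxa : xa T a ≠ 0 := by
    rw [gr3a_xa]
    intro h
    rw [← map_zero (algebraMap κ[X] (WB T))] at h
    exact X_sub_C_ne_zero a (WB.algebraMap_injective h)
  have hI : (Ideal.span {xa T a} : Ideal (WB T)) ≠ 0 := by
    intro h
    rw [Ideal.zero_eq_bot, Ideal.span_singleton_eq_bot] at h
    exact hxa h
  have h1 : (UniqueFactorizationMonoid.factors (Ideal.span {xa T a} : Ideal (WB T))).prod = Ideal.span {xa T a} :=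
    associated_iff_eq.1 (UniqueFactorizationMonoid.factors_prod hI)
  set L := (UniqueFactorizationMonoid.factors (Ideal.span {xa T a} : Ideal (WB T))).toList with hL
  have h2 : ∀ i : Fin L.length, ∃ ψ : WB T →ₐ[κ] κ, RingHom.ker ψ = L[i.1] := by
    intro i
    have h3 : L[i.1] ∈ UniqueFactorizationMonoid.factors (Ideal.span {xa T a} : Ideal (WB T)) := by
      rw [← Multiset.mem_toList]
      exact List.getElem_mem _
    have h4 := UniqueFactorizationMonoid.prime_of_factor _ h3
    exact exists_eval _ ((Ideal.isPrime_of_prime h4).isMaximal h4.ne_zero)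
  choose ψ hψ using h2
  refine ⟨L.length, ψ, ?_⟩
  rw [Finset.prod_congr rfl fun i _ => hψ i, Fin.prod_univ_getElem, hL, Multiset.prod_toList, h1]

end GT
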