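import Mathlib
import Pool.Agent.MP_c1dca2_ag.GT.Base
import Pool.Agent.MP_c1dca2_ag.GT.GR1a

set_option autoImplicit false

open Polynomial

namespace GT

/-! ## [GT-GR4a] good reduction -/

section gr4aGen

variable {R : Type} [CommRing R] {d : ℕ} [NeZero d] {T : Tab R d}

/-- The generators of the kernel of an evaluation. -/
noncomputable def gr4a_gen (ψ : WB T →ₐ[R] R) : Option (ZMod d) → WB T
  | none => WB.x T - algebraMap R (WB T) (ψ (WB.x T))
  | some j => WB.f T j - algebraMap R (WB T) (ψ (WB.f T j))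

theorem gr4a_ker (ψ : WB T →ₐ[R] R) :
    RingHom.ker ψ = Ideal.span (Set.range (gr4a_gen ψ)) := by
  rw [ker_eval]
  refine congrArg Ideal.span ?_
  ext z
  constructor
  · rintro (h | ⟨j, h⟩)
    · exact ⟨none, h.symm⟩
    · exact ⟨some j, h⟩
  · rintro ⟨o, h⟩
    cases o with
    | none => exact Or.inl h.symm
    | some j => exact Or.inr ⟨j, h⟩

theorem gr4a_prod {n : ℕ} (ψ : Fin n → (WB T →ₐ[R] R)) :
    ∏ i, RingHom.ker (ψ i) =
      Ideal.span (Set.range fun k : Fin n → Option (ZMod d) => ∏ i, gr4a_gen (ψ i) (k i)) := by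
  have h1 : ∏ i, RingHom.ker (ψ i) = ∏ i, Ideal.span (Set.range (gr4a_gen (ψ i))) :=
    Finset.prod_congr rfl fun i _ => gr4a_ker (ψ i)
  rw [h1, Ideal.prod_span]
  refine congrArg Ideal.span ?_
  ext z
  rw [Set.mem_fintype_prod]
  constructor
  · rintro ⟨g, hg, rfl⟩
    choose k hk using hg
    exact ⟨k, Finset.prod_congr rfl fun i _ => hk i⟩
  · rintro ⟨k, rfl⟩
    exact ⟨fun i => gr4a_gen (ψ i) (k i), fun i => ⟨k i, rfl⟩, rfl⟩

end gr4aGen

section gr4aSub

variable {C : Type} [Field C] {d : ℕ} [NeZero d]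

/-- An element whose coefficients lie in `V` comes from `WB T'`. -/
theorem gr4a_lift {V : Subring C} {T : Tab C d} {T' : Tab V d} (hT : T'.map V.subtype = T)
    (b : WB T) (hb : ∀ j, (↑(b.co j).coeffs : Set C) ⊆ V) :
    ∃ b' : WB T', bmap V.subtype hT b' = b := by
  refine ⟨⟨fun j => (b.co j).toSubring V (hb j)⟩, WB.ext (funext fun j => ?_)⟩
  rw [bmap_co]
  exact Polynomial.map_toSubring _ _ (hb j)

/-- An evaluation with values in `V`. -/
theorem gr4a_eval {V : Subring C} {T : Tab C d} {T' : Tab V d} (hT : T'.map V.subtype = T)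
    (ψ : WB T →ₐ[C] C) (hx : ψ (WB.x T) ∈ V) (hf : ∀ j, ψ (WB.f T j) ∈ V) :
    ∃ ψ' : WB T' →ₐ[V] V, ψ' (WB.x T') = ⟨ψ (WB.x T), hx⟩ ∧
      ∀ j, ψ' (WB.f T' j) = ⟨ψ (WB.f T j), hf j⟩ := by
  have hs : Sol T (RingHom.id C) ((ψ : WB T →+* C) (WB.x T)) (fun j => (ψ : WB T →+* C) (WB.f T j)) :=
    sol_of (ψ : WB T →+* C) (fun r => by
      rw [RingHom.id_apply]
      exact ψ.commutes r)
  have hs' : Sol T' (RingHom.id V) (⟨ψ (WB.x T), hx⟩ : V) (fun j => (⟨ψ (WB.f T j), hf j⟩ : V)) := by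
    constructor
    · refine Subtype.ext ?_
      exact hs.one
    · intro i j
      refine V.subtype_injective ?_
      rw [map_mul, map_sum]
      refine (hs.mul i j).trans ?_
      refine Finset.sum_congr rfl fun k _ => ?_
      have hc : T.c i j k = (T'.c i j k).map V.subtype := by rw [← Tab.map_c, hT]
      rw [map_mul, hom_eval₂, hc, eval₂_map]
      rfl
  refine ⟨{ lift hs' with commutes' := fun r => lift_algebraMap' hs' r }, ?_, ?_⟩
  · exact lift_x hs'
  · intro j
    exact lift_f hs' j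

theorem gr4a_bmap_gen {V : Subring C} {T : Tab C d} {T' : Tab V d} (hT : T'.map V.subtype = T)
    (ψ : WB T →ₐ[C] C) (ψ' : WB T' →ₐ[V] V) (hx : (ψ' (WB.x T') : C) = ψ (WB.x T))
    (hf : ∀ j, (ψ' (WB.f T' j) : C) = ψ (WB.f T j)) (o : Option (ZMod d)) :
    bmap V.subtype hT (gr4a_gen ψ' o) = gr4a_gen ψ o := by
  cases o with
  | none =>
    show bmap V.subtype hT (WB.x T' - algebraMap V (WB T') (ψ' (WB.x T'))) = _
    rw [map_sub, bmap_x, bmap_algebraMap']
    show WB.x T - algebraMap C (WB T) (ψ' (WB.x T') : C) = _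
    rw [hx]
    rfl
  | some j =>
    show bmap V.subtype hT (WB.f T' j - algebraMap V (WB T') (ψ' (WB.f T' j))) = _
    rw [map_sub, bmap_f, bmap_algebraMap']
    show WB.f T j - algebraMap C (WB T) (ψ' (WB.f T' j) : C) = _
    rw [hf]
    rfl

end gr4aSub

variable {C : Type} [Field C] {d : ℕ} [NeZero d]

/-- A factorisation of `(x - a)` by evaluations spreads out: it holds over every ring of coefficients `κ` with a homomorphism from a subring `V` of `C` that contains a certain finite set.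

Proof. Let `G i` be the finite set of generators of `ker (ψ i)` in `ker_eval`; `ψ_i x = a` (`x - a ∈ ker ψ_i`). The product of the ideals is generated by the products `π = ∏ g_i`, `g_i ∈ G i` (finitely many; `Ideal.span_mul_span`, induction over `n` or
`Ideal.finset_prod_span`-like lemma). Every `π` is a multiple `(x - a) u_π`, and `x - a = ∑ v_π π`. `S` := `a`, the numbers `ψ_i (f j)` and the coefficients of the coordinates of all `u_π`, `v_π` (finitely many). Let `V ⊇ S`, `T'` as in the statement; `i := bmap V.subtype hT'`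
is injective. The evaluation `ψ_i` restricts to an evaluation `ψ_i^V` of `WB T'` with values in `V` (`Sol T' (RingHom.id V)` for `a`, `ψ_i (f j) ∈ V`: the equations hold after the injective map to `C`). The `u_π`, `v_π` come from `WB T'`, so
`(x - a) = ∏ ker ψ_i^V` in `WB T'` (`ker_eval` over `V`, the same generators, injectivity of `i`). Apply `Ideal.map (bmap g _)` and `eval_map`. -/
theorem spread (T : Tab C d) (a : C) (n : ℕ) (ψ : Fin n → (WB T →ₐ[C] C))
    (h : ∏ i, RingHom.ker (ψ i) = Ideal.span {WB.x T - algebraMap C (WB T) a}) :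
    ∃ S : Finset C, ∀ V : Subring C, (↑S : Set C) ⊆ V → ∀ T' : Tab V d, T'.map V.subtype = T →
      ∀ (κ : Type) [CommRing κ] (g : V →+* κ), ∃ (ha : a ∈ V)
        (ψ' : Fin n → (WB (T'.map g) →ₐ[κ] κ)),
        ∏ i, RingHom.ker (ψ' i) = Ideal.span {WB.x (T'.map g) - algebraMap κ _ (g ⟨a, ha⟩)} := by
  classical
  rw [gr4a_prod] at h
  have hu : ∀ k : Fin n → Option (ZMod d), ∃ u : WB T,
      ∏ i, gr4a_gen (ψ i) (k i) = (WB.x T - algebraMap C (WB T) a) * u := by
    intro k
    have h1 : ∏ i, gr4a_gen (ψ i) (k i) ∈ Ideal.span {WB.x T - algebraMap C (WB T) a} := by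
      rw [← h]
      exact Ideal.subset_span ⟨k, rfl⟩
    exact Ideal.mem_span_singleton.1 h1
  choose u hu using hu
  have hv : ∃ v : (Fin n → Option (ZMod d)) → WB T,
      ∑ k, v k * ∏ i, gr4a_gen (ψ i) (k i) = WB.x T - algebraMap C (WB T) a := by
    have h1 : WB.x T - algebraMap C (WB T) a ∈
        Ideal.span (Set.range fun k : Fin n → Option (ZMod d) => ∏ i, gr4a_gen (ψ i) (k i)) := by
      rw [h]
      exact Ideal.mem_span_singleton_self _
    exact Ideal.mem_span_range_iff_exists_fun.1 h1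
  obtain ⟨v, hv⟩ := hv
  let S : Finset C := {a} ∪ Finset.univ.image (fun i => ψ i (WB.x T)) ∪
    Finset.univ.image (fun p : Fin n × ZMod d => ψ p.1 (WB.f T p.2)) ∪
    Finset.univ.biUnion (fun p : (Fin n → Option (ZMod d)) × ZMod d => ((u p.1).co p.2).coeffs) ∪
    Finset.univ.biUnion (fun p : (Fin n → Option (ZMod d)) × ZMod d => ((v p.1).co p.2).coeffs)
  refine ⟨S, fun V hV T' hT' κ _ g => ?_⟩
  have hS : ∀ z ∈ S, z ∈ V := fun z hz => hV hz
  have ha : a ∈ V := hS a (by simp [S])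
  have hx : ∀ i, ψ i (WB.x T) ∈ V := fun i => hS _ (by
    simp only [S, Finset.mem_union, Finset.mem_image, Finset.mem_univ, true_and]
    exact Or.inl (Or.inl (Or.inl (Or.inr ⟨i, rfl⟩))))
  have hf : ∀ i j, ψ i (WB.f T j) ∈ V := fun i j => hS _ (by
    simp only [S, Finset.mem_union, Finset.mem_image, Finset.mem_univ, true_and]
    exact Or.inl (Or.inl (Or.inr ⟨(i, j), rfl⟩)))
  have hcu : ∀ k j, (↑((u k).co j).coeffs : Set C) ⊆ V := fun k j z hz => hS _ (by
    simp only [S, Finset.mem_union, Finset.mem_biUnion, Finset.mem_univ, true_and]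
    exact Or.inl (Or.inr ⟨(k, j), hz⟩))
  have hcv : ∀ k j, (↑((v k).co j).coeffs : Set C) ⊆ V := fun k j z hz => hS _ (by
    simp only [S, Finset.mem_union, Finset.mem_biUnion, Finset.mem_univ, true_and]
    exact Or.inr ⟨(k, j), hz⟩)
  have hinj : Function.Injective (bmap V.subtype hT') := bmap_inj _ _ V.subtype_injective
  choose u' hu' using fun k => gr4a_lift hT' (u k) (hcu k)
  choose v' hv' using fun k => gr4a_lift hT' (v k) (hcv k)
  choose φ hφx hφf using fun i => gr4a_eval hT' (ψ i) (hx i) (hf i)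
  have hgen : ∀ i o, bmap V.subtype hT' (gr4a_gen (φ i) o) = gr4a_gen (ψ i) o := fun i o =>
    gr4a_bmap_gen hT' (ψ i) (φ i) (by rw [hφx i]) (fun j => by rw [hφf i j]) o
  have hpi : ∀ k : Fin n → Option (ZMod d), bmap V.subtype hT' (∏ i, gr4a_gen (φ i) (k i)) =
      ∏ i, gr4a_gen (ψ i) (k i) := fun k => by
    rw [map_prod]
    exact Finset.prod_congr rfl fun i _ => hgen i (k i)
  have hxa : bmap V.subtype hT' (WB.x T' - algebraMap V (WB T') ⟨a, ha⟩) =
      WB.x T - algebraMap C (WB T) a := by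
    rw [map_sub, bmap_x, bmap_algebraMap']
    rfl
  have hV1 : ∏ i, RingHom.ker (φ i) = Ideal.span {WB.x T' - algebraMap V (WB T') ⟨a, ha⟩} := by
    rw [gr4a_prod]
    refine le_antisymm (Ideal.span_le.2 ?_) (Ideal.span_le.2 ?_)
    · rintro _ ⟨k, rfl⟩
      refine Ideal.mem_span_singleton.2 ⟨u' k, hinj ?_⟩
      rw [map_mul, hxa, hu', hpi, hu]
    · intro z hz
      rw [Set.mem_singleton_iff] at hz
      subst hz
      refine Ideal.mem_span_range_iff_exists_fun.2 ⟨v', hinj ?_⟩
      rw [map_sum, hxa, ← hv]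
      refine Finset.sum_congr rfl fun k _ => ?_
      rw [map_mul, hv', hpi]
  choose ψ' hψ' using fun i => eval_map (T' := T'.map g) g rfl (φ i)
  refine ⟨ha, ψ', ?_⟩
  have h2 : ∏ i, RingHom.ker (ψ' i) = (∏ i, RingHom.ker (φ i)).map (bmap g (rfl : T'.map g = T'.map g)) := by
    have h3 := map_prod (Ideal.mapHom (bmap g (rfl : T'.map g = T'.map g)))
      (fun i => RingHom.ker (φ i)) Finset.univ
    refine Eq.trans ?_ h3.symm
    exact Finset.prod_congr rfl fun i _ => (hψ' i).2.symm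
  rw [h2, hV1, Ideal.map_span, Set.image_singleton, map_sub, bmap_x, bmap_algebraMap']

end GT
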