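import Mathlib

set_option autoImplicit false

open Polynomial

namespace GT

/-! ## [GT-X3a] pure lemmas: Dedekind domains -/

/-- An ideal contained in `(a)` is a multiple of `(a)`. -/
theorem x3a_div {R : Type} [CommRing R] (a : R) (I : Ideal R) (h : I ≤ Ideal.span {a}) :
    ∃ J : Ideal R, Ideal.span {a} * J = I := by
  refine ⟨Submodule.comap (LinearMap.mulLeft R a) I, le_antisymm ?_ ?_⟩
  · rw [Ideal.span_singleton_mul_le_iff]
    intro z hz
    exact hz
  · intro x hx
    obtain ⟨y, hy⟩ := Ideal.mem_span_singleton'.1 (h hx)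
    rw [Ideal.mem_span_singleton_mul]
    refine ⟨y, ?_, by rw [mul_comm]; exact hy⟩
    show a * y ∈ I
    rw [mul_comm, hy]; exact hx

theorem x3a_inv {R : Type} [CommRing R] [IsDomain R] [IsNoetherianRing R]
    (h : ∀ M : Ideal R, M.IsMaximal → M ≠ ⊥ → ∃ (N : Ideal R) (a : R), a ≠ 0 ∧ M * N = Ideal.span {a})
    (I : Ideal R) : I ≠ ⊥ → ∃ (J : Ideal R) (a : R), a ≠ 0 ∧ I * J = Ideal.span {a} := by
  induction I using WellFoundedGT.induction with
  | ind I ih =>
    intro hI
    by_cases htop : I = ⊤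
    · exact ⟨⊤, 1, one_ne_zero, by rw [htop, Ideal.top_mul, Ideal.span_singleton_one]⟩
    obtain ⟨M, hM, hIM⟩ := Ideal.exists_le_maximal I htop
    have hM0 : M ≠ ⊥ := fun h0 => hI (le_bot_iff.1 (h0 ▸ hIM))
    obtain ⟨N, a, ha, hMN⟩ := h M hM hM0
    obtain ⟨J, hJ⟩ := x3a_div a (N * I) (by
      rw [← hMN, mul_comm M N]
      exact Ideal.mul_mono_right hIM)
    have hIJ : I = M * J := by
      have h1 : Ideal.span {a} * I = Ideal.span {a} * (M * J) := by
        calc Ideal.span {a} * I = M * N * I := by rw [hMN]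
          _ = M * (N * I) := by rw [mul_assoc]
          _ = M * (Ideal.span {a} * J) := by rw [hJ]
          _ = Ideal.span {a} * (M * J) := by rw [mul_left_comm]
      exact (Ideal.span_singleton_mul_right_inj ha).1 h1
    have hle : I ≤ J := hIJ.le.trans Ideal.mul_le_right
    have hne : I ≠ J := by
      intro hEq
      have h2 : I ≤ M • I := by
        conv_lhs => rw [hIJ, ← hEq]
        exact le_of_eq (smul_eq_mul _ _).symm
      obtain ⟨r, hr, hr0⟩ := Submodule.exists_sub_one_mem_and_smul_eq_zero_of_fg_of_le_smul M I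
        (IsNoetherian.noetherian I) h2
      obtain ⟨x, hx, hx0⟩ := Submodule.exists_mem_ne_zero_of_ne_bot hI
      have h3 : r * x = 0 := hr0 x hx
      have h4 : r = 0 := (mul_eq_zero.1 h3).resolve_right hx0
      rw [h4, zero_sub] at hr
      exact hM.ne_top ((Ideal.eq_top_iff_one M).2 (by simpa using M.neg_mem hr))
    have hlt : I < J := lt_of_le_of_ne hle hne
    have hJ0 : J ≠ ⊥ := fun h0 => hI (le_bot_iff.1 (h0 ▸ hle))
    obtain ⟨J', b, hb, hJb⟩ := ih J hlt hJ0
    refine ⟨N * J', a * b, mul_ne_zero ha hb, ?_⟩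
    calc I * (N * J') = M * J * (N * J') := by rw [← hIJ]
      _ = (M * N) * (J * J') := by ring
      _ = Ideal.span {a * b} := by rw [hMN, hJb, Ideal.span_singleton_mul_span_singleton]

/-- Proof. Every nonzero ideal is invertible by Noetherian induction. -/
theorem dedekind_of_maximal {R : Type} [CommRing R] [IsDomain R] [IsNoetherianRing R]
    (h : ∀ M : Ideal R, M.IsMaximal → M ≠ ⊥ → ∃ (N : Ideal R) (a : R), a ≠ 0 ∧ M * N = Ideal.span {a}) :
    IsDedekindDomain R := by
  rw [isDedekindDomain_iff_mul_inv_cancel (K := FractionRing R)]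
  intro I hI
  obtain ⟨c, J, hc, rfl⟩ := FractionalIdeal.exists_eq_spanSingleton_mul (K := FractionRing R) I
  have hc' : algebraMap R (FractionRing R) c ≠ 0 :=
    (map_ne_zero_iff _ (IsFractionRing.injective R (FractionRing R))).2 hc
  have hJ : J ≠ ⊥ := by
    rintro rfl
    apply hI
    simp
  obtain ⟨J', b, hb, hJb⟩ := x3a_inv h J hJ
  have hb' : algebraMap R (FractionRing R) b ≠ 0 :=
    (map_ne_zero_iff _ (IsFractionRing.injective R (FractionRing R))).2 hb
  rw [FractionalIdeal.mul_inv_cancel_iff]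
  refine ⟨FractionalIdeal.spanSingleton _ (algebraMap R (FractionRing R) c * (algebraMap R (FractionRing R) b)⁻¹) *
    (J' : FractionalIdeal (nonZeroDivisors R) (FractionRing R)), ?_⟩
  calc _ = (FractionalIdeal.spanSingleton (nonZeroDivisors R) (algebraMap R (FractionRing R) c)⁻¹ *
        FractionalIdeal.spanSingleton _ (algebraMap R (FractionRing R) c * (algebraMap R (FractionRing R) b)⁻¹)) *
        ((J : FractionalIdeal (nonZeroDivisors R) (FractionRing R)) *
          (J' : FractionalIdeal (nonZeroDivisors R) (FractionRing R))) := by ring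
    _ = 1 := by
      rw [← FractionalIdeal.coeIdeal_mul, hJb, FractionalIdeal.coeIdeal_span_singleton,
        FractionalIdeal.spanSingleton_mul_spanSingleton, FractionalIdeal.spanSingleton_mul_spanSingleton]
      rw [inv_mul_cancel_left₀ hc', inv_mul_cancel₀ hb', FractionalIdeal.spanSingleton_one]

end GT
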