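import Mathlib
import Pool.Agent.MP_c1dca2_ag.GT.Base
import Pool.Agent.MP_c1dca2_ag.GT.GR1b
import Pool.Agent.MP_c1dca2_ag.GT.GR2a
import Pool.Agent.MP_c1dca2_ag.GT.GR2b
import Pool.Agent.MP_c1dca2_ag.GT.GR2d
import Pool.Agent.MP_c1dca2_ag.GT.GR3a
import Pool.Agent.MP_c1dca2_ag.GT.GR3b
import Pool.Agent.MP_c1dca2_ag.GT.GR3c
import Pool.Agent.MP_c1dca2_ag.GT.GR3d
import Pool.Agent.MP_c1dca2_ag.GT.GR4a
import Pool.Agent.MP_c1dca2_ag.GT.X3a

set_option autoImplicit false

open Polynomial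

namespace GT

/-! ## [GT-GR4b] good reduction -/

variable {C : Type} [Field C] {d : ℕ} [NeZero d]

/-- GOOD REDUCTION.

Proof. `δ := dis T ≠ 0` (`dis_ne_zero`). `S` := the roots of `δ`, the inverse of the leading coefficient of `δ`, the sets of `spread` for the factorisations `xa_prod` of `(x - a_m)`, `a_m` the roots of `δ`. Let `V`, `T'`, `κ`, `g` be as in the statement, `B := WB (T'.map g)`, a Noetherian domain
(`wb_noeth`, `hdom`). `dis (T'.map g) = (dis T').map g` and `(dis T').map V.subtype = δ` (`dis_map`); `δ = c ∏ (X - a_m)` (`IsAlgClosed`), so (`V ⊆ C` injective, `a_m ∈ V`, `c ∈ V` as it is a coefficient of `dis T'`, `c⁻¹ ∈ V`) `dis T' = c ∏ (X - a_m)` over `V` and `dis (T'.map g) = g(c) ∏ (X - g(a_m))`, `g(c) ≠ 0`.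
`dedekind_of_maximal`: let `Q` be a maximal ideal of `B`, `ψ` an evaluation with kernel `Q` (`exists_eval`), `b := ψ x`, `xa b ∈ Q`. If `(dis (T'.map g)).eval b ≠ 0`: `xa_radical`, `xa_factor`. Otherwise `b = g(a_m)` for some `m`; by `spread` `(x - b) = ∏ ker ψ'_i ⊆ Q`, `Q` is prime, so `ker ψ'_i ≤ Q` for some `i`, both
maximal (`ker_maximal`), so `Q = ker ψ'_i` is a factor of `(x - b)`. `x - b ≠ 0`. -/
theorem good_red [CharZero C] [IsAlgClosed C] (T : Tab C d) [IsDedekindDomain (WB T)] :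
    ∃ S : Finset C, ∀ V : Subring C, (↑S : Set C) ⊆ V → ∀ T' : Tab V d, T'.map V.subtype = T →
      ∀ (κ : Type) [Field κ] [IsAlgClosed κ] (g : V →+* κ), IsDomain (WB (T'.map g)) →
        IsDedekindDomain (WB (T'.map g)) := by
  classical
  have hδ : dis T ≠ 0 := dis_ne_zero T
  have h1 : ∀ a : C, ∃ S : Finset C, ∀ V : Subring C, (↑S : Set C) ⊆ V → ∀ T' : Tab V d, T'.map V.subtype = T →
      ∀ (κ : Type) [CommRing κ] (g : V →+* κ), ∃ (n : ℕ) (ha : a ∈ V)
        (ψ' : Fin n → (WB (T'.map g) →ₐ[κ] κ)),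
        ∏ i, RingHom.ker (ψ' i) = Ideal.span {WB.x (T'.map g) - algebraMap κ _ (g ⟨a, ha⟩)} := by
    intro a
    obtain ⟨n, ψ, hψ⟩ := xa_prod (T := T) a
    obtain ⟨S, hS⟩ := spread T a n ψ hψ
    refine ⟨S, fun V hV T' hT' κ _ g => ?_⟩
    obtain ⟨ha, ψ', h⟩ := hS V hV T' hT' κ g
    exact ⟨n, ha, ψ', h⟩
  choose SS hSS using h1
  refine ⟨(dis T).roots.toFinset.biUnion SS ∪ {(dis T).leadingCoeff⁻¹}, fun V hV T' hT' κ _ _ g hdom => ?_⟩
  have hV1 : ∀ a ∈ (dis T).roots, (↑(SS a) : Set C) ⊆ V := by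
    intro a ha
    refine subset_trans ?_ hV
    rw [Finset.coe_subset]
    exact subset_trans (Finset.subset_biUnion_of_mem SS (Multiset.mem_toFinset.2 ha)) Finset.subset_union_left
  have hV2 : (dis T).leadingCoeff⁻¹ ∈ V :=
    hV (Finset.mem_coe.2 (Finset.mem_union_right _ (Finset.mem_singleton_self _)))
  have := hdom
  have : IsNoetherianRing (WB (T'.map g)) := wb_noeth
  -- the discriminant
  have hd1 : (dis T').map V.subtype = dis T := by rw [← dis_map, hT']
  have hd2 : dis (T'.map g) = (dis T').map g := dis_map T' g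
  have haV : ∀ a ∈ (dis T).roots, a ∈ V := by
    intro a ha
    obtain ⟨n, h, -⟩ := hSS a V (hV1 a ha) T' hT' κ g
    exact h
  have hroot : ∀ b : κ, (dis (T'.map g)).eval b = 0 → ∃ (a : C) (ha : a ∈ (dis T).roots), b = g ⟨a, haV a ha⟩ := by
    intro b hb
    have hsp : (dis T).Splits := IsAlgClosed.splits _
    have h2 := hsp.eq_prod_roots
    -- over V
    set c : V := (dis T').leadingCoeff with hc
    have hlc : (c : C) = (dis T).leadingCoeff := by
      rw [hc, ← hd1, leadingCoeff_map_of_injective V.subtype_injective]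
      rfl
    have hcu : c * ⟨_, hV2⟩ = 1 := by
      apply Subtype.ext
      show (c : C) * (dis T).leadingCoeff⁻¹ = 1
      rw [hlc, mul_inv_cancel₀ (leadingCoeff_ne_zero.2 hδ)]
    have h3 : dis T' = Polynomial.C c * ((dis T).roots.attach.map fun a => X - Polynomial.C (⟨a.1, haV a.1 a.2⟩ : V)).prod := by
      apply Polynomial.map_injective V.subtype V.subtype_injective
      rw [hd1, Polynomial.map_mul, Polynomial.map_C, Polynomial.map_multiset_prod, Multiset.map_map]
      conv_lhs => rw [h2]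
      congr 1
      · rw [← hlc]; rfl
      · conv_lhs => rw [← Multiset.attach_map_val (dis T).roots, Multiset.map_map]
        congr 1
        refine Multiset.map_congr rfl fun a _ => ?_
        show X - Polynomial.C a.1 = Polynomial.map V.subtype (X - Polynomial.C _)
        rw [Polynomial.map_sub, map_X, map_C]
        rfl
    rw [hd2, h3, Polynomial.map_mul, map_C, eval_mul, eval_C, Polynomial.map_multiset_prod, Multiset.map_map,
      eval_multiset_prod, Multiset.map_map] at hb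
    rcases mul_eq_zero.1 hb with h4 | h4
    · exfalso
      have h5 := congrArg g hcu
      rw [map_mul, h4, zero_mul, map_one] at h5
      exact zero_ne_one h5
    · obtain ⟨a, -, ha⟩ := Multiset.mem_map.1 (Multiset.prod_eq_zero_iff.1 h4)
      refine ⟨a.1, a.2, ?_⟩
      have h6 : ((X - Polynomial.C (⟨a.1, haV a.1 a.2⟩ : V)).map g).eval b = 0 := ha
      rw [Polynomial.map_sub, map_X, map_C, eval_sub, eval_X, eval_C] at h6
      exact sub_eq_zero.1 h6
  refine dedekind_of_maximal fun Q hQ _ => ?_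
  obtain ⟨ψ, rfl⟩ := exists_eval Q hQ
  have hxa : ∀ b : κ, xa (T'.map g) b ≠ 0 := by
    intro b
    rw [gr3a_xa]
    intro h
    rw [← map_zero (algebraMap κ[X] (WB (T'.map g)))] at h
    exact X_sub_C_ne_zero b (WB.algebraMap_injective h)
  have hx : xa (T'.map g) (ψ (WB.x (T'.map g))) ∈ RingHom.ker ψ := by
    rw [RingHom.mem_ker, xa, map_sub, AlgHom.commutes]
    exact sub_self _
  by_cases hb : (dis (T'.map g)).eval (ψ (WB.x (T'.map g))) = 0
  · obtain ⟨a, ha, hab⟩ := hroot _ hb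
    obtain ⟨n, ha', ψ', hψ'⟩ := hSS a V (hV1 a ha) T' hT' κ g
    have h7 : ∏ i, RingHom.ker (ψ' i) = Ideal.span {xa (T'.map g) (ψ (WB.x (T'.map g)))} := by
      rw [hψ', hab, xa]
    have h8 : ∏ i, RingHom.ker (ψ' i) ≤ RingHom.ker ψ := by
      rw [h7, Ideal.span_singleton_le_iff_mem]
      exact hx
    obtain ⟨i, -, hi⟩ := (hQ.isPrime.prod_le).1 h8
    have h9 : RingHom.ker (ψ' i) = RingHom.ker ψ := (ker_maximal (ψ' i)).eq_of_le hQ.ne_top hi
    have h10 := Finset.mul_prod_erase Finset.univ (fun j => RingHom.ker (ψ' j)) (Finset.mem_univ i)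
    refine ⟨∏ j ∈ Finset.univ.erase i, RingHom.ker (ψ' j), xa (T'.map g) (ψ (WB.x (T'.map g))), hxa (ψ (WB.x (T'.map g))), ?_⟩
    rw [← h7, ← h9]
    exact h10
  · obtain ⟨N, hN⟩ := xa_factor _ (xa_radical _ hb) (RingHom.ker ψ) hQ hx
    exact ⟨N, _, hxa _, hN⟩

end GT
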