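import Mathlib
import Pool.Agent.MP_c1dca2_ag.GT.Base
import Pool.Agent.MP_c1dca2_ag.GT.GR4b

set_option autoImplicit false

open Polynomial

namespace GT

/-! ## [GT-GR4c] good reduction -/

variable {C : Type} [Field C] {d : ℕ} [NeZero d]

/-- The special case `V = C`: extension of the (algebraically closed) field of constants.

Proof. `good_red` for `V = ⊤`: the table `T' := T.map (the isomorphism C → (⊤ : Subring C))`, `T'.map V.subtype = T`, and `T'.map (g ∘ V.subtype) = T.map g`. -/
theorem good_ext [CharZero C] [IsAlgClosed C] (T : Tab C d) [IsDedekindDomain (WB T)] (Ω : Type) [Field Ω] [IsAlgClosed Ω]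
    (g : C →+* Ω) (hd : IsDomain (WB (T.map g))) : IsDedekindDomain (WB (T.map g)) := by
  obtain ⟨S, hS⟩ := good_red T
  set φ : C →+* (⊤ : Subring C) := (Subring.topEquiv (R := C)).symm.toRingHom with hφ
  have e1 : ((⊤ : Subring C).subtype).comp φ = RingHom.id C := by
    ext x
    rfl
  have h1 : (T.map φ).map (⊤ : Subring C).subtype = T := by
    rw [Tab.map_map, e1, Tab.map_id]
  have e2 : (g.comp (⊤ : Subring C).subtype).comp φ = g := by
    rw [RingHom.comp_assoc, e1, RingHom.comp_id]
  have h2 : (T.map φ).map (g.comp (⊤ : Subring C).subtype) = T.map g := by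
    rw [Tab.map_map, e2]
  have h3 := hS ⊤ (fun x _ => Subring.mem_top x) (T.map φ) h1 Ω (g.comp (⊤ : Subring C).subtype)
  rw [h2] at h3
  exact h3 hd

end GT
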