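import Mathlib
import Pool.Agent.MP_c1dca2_ag.GT.P0

set_option autoImplicit false

open Polynomial

namespace GT

/-! ## [GT-P2b] the integral closure of `C[t]` -/

variable {C L : Type} [Field C] [Field L] [Algebra C L]

theorem p2b_ex (t : L) (y : Algebra.adjoin C {t}) : ∃ q : C[X], aeval t q = (y : L) := by
  obtain ⟨y, hy⟩ := y
  rw [Algebra.adjoin_singleton_eq_range_aeval] at hy
  exact hy

theorem p2b_pid (t : L) : IsPrincipalIdealRing (Algebra.adjoin C {t}) := by
  have h1 : ∀ y : Algebra.adjoin C {t}, ∃ q : C[X], aeval t q = (y : L) := by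
    intro y
    obtain ⟨y, hy⟩ := y
    rw [Algebra.adjoin_singleton_eq_range_aeval] at hy
    exact hy
  let φ : C[X] →ₐ[C] Algebra.adjoin C {t} := aeval ⟨t, Algebra.subset_adjoin (Set.mem_singleton t)⟩
  have hφ : Function.Surjective φ := by
    intro y
    obtain ⟨q, hq⟩ := h1 y
    refine ⟨q, Subtype.ext ?_⟩
    rw [← hq]
    show (Algebra.adjoin C {t}).val (φ q) = _
    rw [← Polynomial.aeval_algHom_apply]
    rfl
  exact IsPrincipalIdealRing.of_surjective φ.toRingHom hφ

open scoped IntermediateField.algebraAdjoinAdjoin in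
/-- Proof. `A := Algebra.adjoin C {t} ≅ C[X]` (`t` transcendental: `AlgEquiv.ofInjective (aeval t)` and
`Algebra.adjoin_singleton_eq_range_aeval`) is a principal ideal domain; `E := IntermediateField.adjoin C {t}` is its
fraction field (Mathlib: `IsFractionRing (Algebra.adjoin F S) (IntermediateField.adjoin F S)`), `L / E` is finite
(`hF.fin`) and separable (characteristic `0`), and `integralClosure.isDedekindDomain A E L`. -/
theorem rt_dedekind [CharZero C] (hF : FF C L) {t : L} (ht : Transcendental C t) :
    IsDedekindDomain (Rt C t) := by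
  have hpid := p2b_pid (C := C) t
  have hfin := hF.fin t ht
  have hchar : CharZero (IntermediateField.adjoin C {t}) := charZero_of_injective_algebraMap (algebraMap C _).injective
  have hsep : Algebra.IsSeparable (IntermediateField.adjoin C {t}) L := inferInstance
  exact integralClosure.isDedekindDomain (Algebra.adjoin C {t}) (IntermediateField.adjoin C {t}) L

open scoped IntermediateField.algebraAdjoinAdjoin in
/-- Proof. `f` is algebraic over the fraction field of `A := Algebra.adjoin C {t}`, so there is `a ∈ A`, `a ≠ 0`, with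
`a f` integral over `A` (`exists_integral_multiple` or `IsIntegralClosure.exists_smul_eq_mul`); `a = q(t)`. -/
theorem rt_frac (hF : FF C L) {t : L} (ht : Transcendental C t) (f : L) :
    ∃ q : C[X], q ≠ 0 ∧ f * aeval t q ∈ Rt C t := by
  have hfin := hF.fin t ht
  have h1 : IsAlgebraic (IntermediateField.adjoin C {t}) f := Algebra.IsAlgebraic.isAlgebraic f
  have h2 : IsAlgebraic (Algebra.adjoin C {t}) f :=
    (IsFractionRing.isAlgebraic_iff (Algebra.adjoin C {t}) (IntermediateField.adjoin C {t}) L).2 h1
  obtain ⟨y, hy, hint⟩ := h2.exists_integral_multiple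
  obtain ⟨q, hq⟩ : ∃ q : C[X], aeval t q = (y : L) := p2b_ex t y
  refine ⟨q, ?_, ?_⟩
  · rintro rfl
    apply hy
    apply Subtype.ext
    rw [← hq]
    exact map_zero _
  · have h4 : f * aeval t q = y • f := by
      rw [Algebra.smul_def, mul_comm]
      congr 1
    rw [h4]
    exact hint

end GT
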