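import Mathlib
import Pool.Agent.MP_c1dca2_ag.GT.P0
import Pool.Agent.MP_c1dca2_ag.GT.P2a
import Pool.Agent.MP_c1dca2_ag.GT.P2b

set_option autoImplicit false

open Polynomial

namespace GT

/-! ## [GT-P4a] a function with exactly one pole; the order at a place -/

variable {C L : Type} [Field C] [Field L] [Algebra C L]

theorem p4a_frac (hF : FF C L) {t : L} (ht : Transcendental C t) : IsFractionRing (Rt C t) L where
  map_units y := by
    have hy : (y : Rt C t) ≠ 0 := nonZeroDivisors.coe_ne_zero y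
    rw [isUnit_iff_ne_zero]
    intro h
    exact hy (Subtype.ext h)
  surj f := by
    obtain ⟨q, hq0, hq⟩ := rt_frac hF ht f
    have hne : aeval t q ≠ 0 := fun h => hq0 ((transcendental_iff.1 ht) q h)
    have hmem : aeval t q ∈ Rt C t := by
      have h1 : aeval t q = aeval ((tt C t : Rt C t) : L) q := by rw [tt_coe]
      have h2 : aeval t q ∈ Algebra.adjoin C {t} := by
        rw [Algebra.adjoin_singleton_eq_range_aeval]
        exact ⟨q, rfl⟩
      exact (algebraMap (Algebra.adjoin C {t}) (Rt C t) ⟨_, h2⟩).2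
    refine ⟨(⟨f * aeval t q, hq⟩, ⟨⟨aeval t q, hmem⟩, ?_⟩), rfl⟩
    rw [mem_nonZeroDivisors_iff_ne_zero]
    intro h
    exact hne (congrArg Subtype.val h)
  exists_of_eq {x y} h := ⟨1, by
    have : x = y := Subtype.ext h
    rw [this]⟩

/-- The centre of the place `O` in the integral closure `Rt C t`, `t ∈ O`: a maximal ideal whose localisation is `O`.

Proof. `Rt C t ⊆ O` by `rt_mem`. `p := {f ∈ Rt C t : f ∈ O.nonunits}` is a prime ideal. `p ≠ ⊥`: `O ≠ ⊤`, so there is `f ∈ L`, `f ∉ O`,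
`f = r / q(t)` (`rt_frac`), `q(t)` is in `O` and it is a nonunit of `O` (otherwise `f ∈ O`), `q(t) ≠ 0`. The last statement: the localisation
of the Dedekind domain `Rt C t` at `p` is a discrete valuation ring contained in `O`. Concretely: let `f ∈ O`, `f = r / s` with
`r, s ∈ Rt C t`, `s ≠ 0`; the ideal `(s) : (r) = {b : b r ∈ (s)}` is not contained in `p`: localise at `p` (or: write `(r) = p^i R₀`, `(s) = p^j S₀` with `R₀`, `S₀` not in `p`;
if `j > i` then choose `b ∈ S₀ ∖ p`, `c ∈ p^(j-i)`..., `f⁻¹ = s / r` is `c' / b'` with `c' ∈ p`, `b' ∉ p`, so `f⁻¹ ∈ O.nonunits`, contradiction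
to `f ∈ O`; so `j ≤ i`, and for `b ∈ S₀ ∖ p`, `b r ∈ S₀ p^i R₀ ⊆ S₀ p^j = (s)`). In Lean the shortest way may be: `Localization.AtPrime p` is a
valuation ring with fraction field `L`, so its image in `L` is a valuation subring `V ≤ O`, and a discrete valuation ring is a maximal
proper subring: `O = V`; or use `IsDedekindDomain.HeightOneSpectrum.valuation`. -/
theorem centre [CharZero C] (hF : FF C L) {t : L} (ht : Transcendental C t) {O : ValuationSubring L}
    (hO : IsPl C O) (htO : t ∈ O) :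
    ∃ p : Ideal (Rt C t), p.IsMaximal ∧ p ≠ ⊥ ∧ (∀ f : Rt C t, f ∈ p ↔ (f : L) ∈ O.nonunits) ∧
      ∀ f : L, f ∈ O ↔ ∃ r s : Rt C t, s ∉ p ∧ f * s = r := by
  have hle : ∀ f : Rt C t, (f : L) ∈ O := fun f => (rt_mem t (f : L)).1 f.2 O hO.1 htO
  have hunit : ∀ x : L, x ∈ O → x ∉ O.nonunits → x ≠ 0 ∧ x⁻¹ ∈ O := by
    intro x hx hn
    have h1 : O.valuation x = 1 := by
      rw [ValuationSubring.mem_nonunits_iff, not_lt] at hn
      exact le_antisymm ((O.valuation_le_one_iff x).2 hx) hn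
    have hx0 : x ≠ 0 := by
      rintro rfl
      rw [map_zero] at h1
      exact zero_ne_one h1
    exact ⟨hx0, (O.valuation_le_one_iff _).1 (by rw [map_inv₀, h1, inv_one])⟩
  let ι : Rt C t →+* O :=
    { toFun := fun f => ⟨(f : L), hle f⟩
      map_one' := rfl
      map_mul' := fun _ _ => rfl
      map_zero' := rfl
      map_add' := fun _ _ => rfl }
  let p : Ideal (Rt C t) := (IsLocalRing.maximalIdeal O).comap ι
  have hpp : p.IsPrime := Ideal.IsPrime.comap ι
  have hmem : ∀ f : Rt C t, f ∈ p ↔ (f : L) ∈ O.nonunits := by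
    intro f
    rw [Ideal.mem_comap]
    exact (ValuationSubring.coe_mem_nonunits_iff (A := O) (a := ι f)).symm
  have hDed := rt_dedekind hF ht
  have hfrac := p4a_frac hF ht
  have hp0 : p ≠ ⊥ := by
    obtain ⟨f, hf⟩ : ∃ f : L, f ∉ O := by
      by_contra hcon
      push Not at hcon
      exact hO.2 (eq_top_iff.2 fun x _ => hcon x)
    obtain ⟨q, hq0, hq⟩ := rt_frac hF ht f
    have hne : aeval t q ≠ 0 := fun h => hq0 ((transcendental_iff.1 ht) q h)
    have h2 : aeval t q ∈ Algebra.adjoin C {t} := by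
      rw [Algebra.adjoin_singleton_eq_range_aeval]
      exact ⟨q, rfl⟩
    have h3 : aeval t q ∈ Rt C t := (algebraMap (Algebra.adjoin C {t}) (Rt C t) ⟨_, h2⟩).2
    intro hbot
    have h4 : (⟨aeval t q, h3⟩ : Rt C t) ∉ p := by
      rw [hbot, Ideal.mem_bot]
      intro h
      exact hne (congrArg Subtype.val h)
    rw [hmem] at h4
    obtain ⟨-, h5⟩ := hunit _ (hle ⟨_, h3⟩) h4
    apply hf
    have h6 := O.mul_mem _ _ (hle ⟨_, hq⟩) h5
    have h7 : f * aeval t q * (aeval t q)⁻¹ = f := by field_simp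
    rwa [← h7]
  have hpm : p.IsMaximal := hpp.isMaximal hp0
  refine ⟨p, hpm, hp0, hmem, fun f => ⟨fun hf => ?_, ?_⟩⟩
  · let v : IsDedekindDomain.HeightOneSpectrum (Rt C t) := ⟨p, hpp, hp0⟩
    obtain ⟨n, d, h | h⟩ :=
      IsDedekindDomain.HeightOneSpectrum.exists_primeCompl_mul_eq_or_mul_eq (K := L) v f
    · exact ⟨n, d, d.2, h⟩
    · refine ⟨d, n, ?_, h⟩
      intro hn
      have hd : ((d : Rt C t) : L) ∉ O.nonunits := fun h' => d.2 ((hmem _).2 h')
      apply hd
      have h' : f * (n : L) = ((d : Rt C t) : L) := h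
      rw [← h', ValuationSubring.mem_nonunits_iff, map_mul]
      rw [hmem, ValuationSubring.mem_nonunits_iff] at hn
      exact lt_of_le_of_lt (mul_le_of_le_one_left' ((O.valuation_le_one_iff f).2 hf)) hn
  · rintro ⟨r, s, hs, h⟩
    rw [hmem] at hs
    obtain ⟨h0, h1⟩ := hunit _ (hle s) hs
    have h2 := O.mul_mem _ _ (hle r) h1
    rw [← h, mul_assoc, mul_inv_cancel₀ h0, mul_one] at h2
    exact h2

end GT
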