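import Mathlib
import Pool.Agent.MP_c1dca2_ag.GT.P0
import Pool.Agent.MP_c1dca2_ag.GT.P1c
import Pool.Agent.MP_c1dca2_ag.GT.P2b
import Pool.Agent.MP_c1dca2_ag.GT.P4a

set_option autoImplicit false

open Polynomial

namespace GT

/-! ## [GT-P4c] a function with exactly one pole; the order at a place -/

variable {C L : Type} [Field C] [Field L] [Algebra C L]

theorem p4c_algebraMap (t : L) (c : C) :
    ((algebraMap C (Rt C t) c : Rt C t) : L) = algebraMap C L c := rfl

theorem p4c_frac (hF : FF C L) {t : L} (ht : Transcendental C t) : IsFractionRing (Rt C t) L := by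
  refine IsFractionRing.of_field (Rt C t) L fun z => ?_
  obtain ⟨q, hq, hz⟩ := rt_frac hF ht z
  have hqt : aeval t q ≠ 0 := fun h => hq ((transcendental_iff.1 ht) q h)
  have hqm : aeval t q ∈ Rt C t := by
    have h1 : aeval t q ∈ Algebra.adjoin C {t} := by
      rw [Algebra.adjoin_singleton_eq_range_aeval]
      exact ⟨q, rfl⟩
    exact (algebraMap (Algebra.adjoin C {t}) (Rt C t) ⟨aeval t q, h1⟩).2
  refine ⟨⟨z * aeval t q, hz⟩, ⟨aeval t q, hqm⟩, ?_⟩
  show z = z * aeval t q / aeval t q
  rw [mul_div_assoc, div_self hqt, mul_one]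

theorem p4c_int {k A D B : Type} [Field k] [CommRing A] [CommRing D] [CommRing B] [Algebra k B]
    [Algebra A D] (φ : D →+* B) (hA : ∀ a : A, IsIntegral k (φ (algebraMap A D a))) (r : D)
    (hr : IsIntegral A r) : IsIntegral k (φ r) := by
  obtain ⟨P, hP, hPr⟩ := hr
  have h7 : IsIntegral (integralClosure k B) (φ r) := by
    refine ⟨P.map ((φ.comp (algebraMap A D)).codRestrict (integralClosure k B) hA), hP.map _, ?_⟩
    rw [eval₂_map]
    have h8 : (algebraMap (integralClosure k B) B).comp
        ((φ.comp (algebraMap A D)).codRestrict (integralClosure k B) hA) =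
        φ.comp (algebraMap A D) := rfl
    rw [h8]
    have h9 := congrArg φ hPr
    rw [hom_eval₂, map_zero] at h9
    exact h9
  exact isIntegral_trans (R := k) (A := integralClosure k B) (φ r) h7

theorem p4c_aeval {k B : Type} [Field k] [CommRing B] [Algebra k B] {x : B} (hx : IsIntegral k x)
    (q : k[X]) : IsIntegral k (aeval x q) := by
  rw [aeval_eq_sum_range]
  exact IsIntegral.sum _ fun i _ => (hx.pow i).smul _

/-- The residue field at a maximal ideal is `C`. -/
theorem p4c_res [CharZero C] [IsAlgClosed C] {t : L} (p : Ideal (Rt C t)) (hp : p.IsMaximal)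
    (hp0 : p ≠ ⊥) (r : Rt C t) : ∃ c : C, r - algebraMap C (Rt C t) c ∈ p := by
  let A := Algebra.adjoin C {t}
  have : p.IsPrime := hp.isPrime
  let B := Rt C t ⧸ p
  let φ : Rt C t →ₐ[C] B := Ideal.Quotient.mkₐ C p
  -- a polynomial in `t` lies in `p`
  obtain ⟨f, hf, hf0⟩ : ∃ f ∈ p, f ≠ 0 := Submodule.exists_mem_ne_zero_of_ne_bot hp0
  have h1 : p.comap (algebraMap A (Rt C t)) ≠ ⊥ :=
    Ideal.comap_ne_bot_of_integral_mem hf0 hf (Algebra.IsIntegral.isIntegral f)
  obtain ⟨a, ha, ha0⟩ : ∃ a ∈ p.comap (algebraMap A (Rt C t)), a ≠ 0 :=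
    Submodule.exists_mem_ne_zero_of_ne_bot h1
  have h2 : (a : L) ∈ (aeval t : C[X] →ₐ[C] L).range := by
    rw [← Algebra.adjoin_singleton_eq_range_aeval]
    exact a.2
  obtain ⟨q, hq⟩ := h2
  have hq0 : q ≠ 0 := by
    rintro rfl
    apply ha0
    apply Subtype.ext
    rw [← hq]
    simp
  have hqt : aeval (φ (tt C t)) q = 0 := by
    rw [aeval_algHom_apply]
    have h3 : aeval (tt C t) q = algebraMap A (Rt C t) a := by
      apply Subtype.ext
      show (((aeval (tt C t) q : Rt C t) : L)) = (a : L)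
      rw [← hq]
      have h4 : ((Rt C t).val.restrictScalars C) (aeval (tt C t) q) =
          aeval (((Rt C t).val.restrictScalars C) (tt C t)) q := (aeval_algHom_apply _ _ _).symm
      exact h4
    rw [h3]
    exact Ideal.Quotient.eq_zero_iff_mem.2 ha
  have hti : IsIntegral C (φ (tt C t)) := isAlgebraic_iff_isIntegral.1 ⟨q, hq0, hqt⟩
  -- the image of `A` is integral over `C`
  have hA : ∀ b : A, IsIntegral C (φ (algebraMap A (Rt C t) b)) := by
    intro b
    have h2 : (b : L) ∈ (aeval t : C[X] →ₐ[C] L).range := by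
      rw [← Algebra.adjoin_singleton_eq_range_aeval]
      exact b.2
    obtain ⟨q, hq⟩ := h2
    have h3 : algebraMap A (Rt C t) b = aeval (tt C t) q := by
      apply Subtype.ext
      show (b : L) = (((aeval (tt C t) q : Rt C t) : L))
      rw [← hq]
      have h4 : ((Rt C t).val.restrictScalars C) (aeval (tt C t) q) =
          aeval (((Rt C t).val.restrictScalars C) (tt C t)) q := (aeval_algHom_apply _ _ _).symm
      exact h4.symm
    rw [h3, ← aeval_algHom_apply]
    have h5 := p4c_aeval (k := C) (B := B) (x := φ (tt C t)) (by exact hti) q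
    exact h5
  have hint : ∀ r : Rt C t, IsIntegral C (φ r) := by
    intro r
    have hr : IsIntegral A r := Algebra.IsIntegral.isIntegral r
    exact p4c_int (k := C) (A := A) (D := Rt C t) (B := B) φ.toRingHom hA r hr
  have : Algebra.IsIntegral C B := ⟨fun b => by
    obtain ⟨r, rfl⟩ := Ideal.Quotient.mk_surjective b
    exact hint r⟩
  have : IsDomain B := inferInstance
  obtain ⟨c, hc⟩ := (IsAlgClosed.algebraMap_bijective_of_isIntegral (k := C) (K := B)).2 (φ r)
  refine ⟨c, Ideal.Quotient.eq_zero_iff_mem.1 ?_⟩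
  rw [map_sub, sub_eq_zero]
  exact hc.symm

/-- The order at a place.

Proof. Choose `t ∈ O` transcendental (`x` or `x⁻¹` for a transcendental `x`). `p` := the centre of `O` in the Dedekind domain `D := Rt C t`,
`v := (⟨p, _, _⟩ : HeightOneSpectrum D).valuation L` (`L` is the fraction field of `D`: `IsIntegralClosure.isFractionRing_of_finite_extension` or
`rt_frac`), `o f := - (the exponent of v f)`. `mem`: `f ∈ O ↔ v f ≤ 1`: `centre` (`f = r / s`, `s ∉ p`) in one direction; for the other one
`v f ≤ 1` implies `f = r / s` with `s ∉ p` (e.g. if `f ∉ O` then `f⁻¹ ∈ O.nonunits`, `f⁻¹ = r / s`, `s ∉ p`, `r ∈ p`, so `v f⁻¹ < 1`).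
`surj`: `HeightOneSpectrum.valuation_exists_uniformizer`. `res`: `a = r / s`, `s ∉ p`; `D ⧸ p` is a field, finite over `C` (it is generated by integral elements: `D` is
finite over `C[t]` and `t` modulo `p` is algebraic over `C`: `p ∩ C[t] ≠ 0`), so it is `C`: `r ≡ c_1`, `s ≡ c_2 ≠ 0 mod p`, `a - c_1/c_2 ∈ O.nonunits`. -/
theorem exists_ord [CharZero C] [IsAlgClosed C] (hF : FF C L) {O : ValuationSubring L} (hO : IsPl C O) :
    ∃ o : L → ℤ, IsOrd C O o := by
  obtain ⟨t, ht, htO⟩ : ∃ t : L, Transcendental C t ∧ t ∈ O := by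
    obtain ⟨x, hx⟩ := hF.ex
    rcases O.mem_or_inv_mem x with h | h
    · exact ⟨x, hx, h⟩
    · exact ⟨x⁻¹, transc_inv hx, h⟩
  obtain ⟨p, hp, hp0, hpm, hpO⟩ := centre hF ht hO htO
  have : IsDedekindDomain (Rt C t) := rt_dedekind hF ht
  have : IsFractionRing (Rt C t) L := p4c_frac hF ht
  let v : IsDedekindDomain.HeightOneSpectrum (Rt C t) := ⟨p, hp.isPrime, hp0⟩
  have hv1 : ∀ s : Rt C t, s ∉ p → v.valuation L (s : L) = 1 := fun s hs =>
    (IsDedekindDomain.HeightOneSpectrum.valuation_eq_one_iff_notMem (K := L) (v := v)).2 hs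
  have hvlt : ∀ s : Rt C t, s ∈ p → v.valuation L (s : L) < 1 := fun s hs =>
    (IsDedekindDomain.HeightOneSpectrum.valuation_lt_one_iff_mem (K := L) v s).2 hs
  have hvle : ∀ s : Rt C t, v.valuation L (s : L) ≤ 1 := fun s =>
    IsDedekindDomain.HeightOneSpectrum.valuation_le_one (K := L) v s
  have hs0 : ∀ s : Rt C t, s ∉ p → (s : L) ≠ 0 := fun s hs h => hs (by
    have h1 : s = 0 := Subtype.ext h
    rw [h1]
    exact p.zero_mem)
  have hmem : ∀ f : L, f ∈ O ↔ v.valuation L f ≤ 1 := by
    intro f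
    constructor
    · intro hf
      obtain ⟨r, s, hs, hrs⟩ := (hpO f).1 hf
      have h1 : v.valuation L f * v.valuation L (s : L) = v.valuation L (r : L) := by
        rw [← map_mul, hrs]
      rw [hv1 s hs, mul_one] at h1
      rw [h1]
      exact hvle r
    · intro hf
      by_contra hfO
      have hf0 : f ≠ 0 := fun h => hfO (by rw [h]; exact O.zero_mem)
      have hfi : f⁻¹ ∈ O.nonunits := O.inv_mem_nonunits_iff.2 (Or.inr hfO)
      obtain ⟨r, s, hs, hrs⟩ := (hpO f⁻¹).1 (ValuationSubring.nonunits_subset hfi)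
      have hr : r ∈ p := by
        rw [hpm, ← hrs]
        rw [ValuationSubring.mem_nonunits_iff, map_mul]
        have h1 : O.valuation (s : L) ≤ 1 :=
          (O.valuation_le_one_iff _).2 ((hpO s).2 ⟨s, 1, (Ideal.ne_top_iff_one p).1 hp.ne_top, by
            show (s : L) * 1 = s
            rw [mul_one]⟩)
        exact mul_lt_one_of_lt_of_le (O.mem_nonunits_iff.1 hfi) h1
      have h2 : v.valuation L f⁻¹ * v.valuation L (s : L) = v.valuation L (r : L) := by
        rw [← map_mul, hrs]
      rw [hv1 s hs, mul_one] at h2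
      have h3 : v.valuation L f⁻¹ < 1 := by
        rw [h2]
        exact hvlt r hr
      have h4 : v.valuation L f * v.valuation L f⁻¹ = 1 := by
        rw [← map_mul, mul_inv_cancel₀ hf0, map_one]
      have h5 : v.valuation L f * v.valuation L f⁻¹ < 1 := (mul_le_of_le_one_left' hf).trans_lt h3
      exact (ne_of_lt h5) h4
  have hne : ∀ f : L, f ≠ 0 → v.valuation L f ≠ 0 := fun f hf =>
    (Valuation.ne_zero_iff _).2 hf
  refine ⟨fun f => - WithZero.log (v.valuation L f), ?_, ?_, ?_, ?_⟩
  · intro a b ha hb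
    show - WithZero.log (v.valuation L (a * b)) =
      - WithZero.log (v.valuation L a) + - WithZero.log (v.valuation L b)
    rw [map_mul, WithZero.log_mul (hne a ha) (hne b hb)]
    ring
  · intro a ha
    show a ∈ O ↔ 0 ≤ - WithZero.log (v.valuation L a)
    rw [hmem, ← WithZero.log_le_log (hne a ha) one_ne_zero, WithZero.log_one]
    omega
  · obtain ⟨π, hπ⟩ := v.valuation_exists_uniformizer L
    refine ⟨π, fun h => ?_, ?_⟩
    · rw [h, map_zero] at hπ
      exact WithZero.coe_ne_zero hπ.symm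
    · show - WithZero.log (v.valuation L π) = 1
      rw [hπ, WithZero.log_exp]
      norm_num
  · intro a ha
    obtain ⟨r, s, hs, hrs⟩ := (hpO a).1 ha
    obtain ⟨c₁, hc₁⟩ := p4c_res p hp hp0 r
    obtain ⟨c₂, hc₂⟩ := p4c_res p hp hp0 s
    have hc20 : c₂ ≠ 0 := by
      rintro rfl
      rw [map_zero, sub_zero] at hc₂
      exact hs hc₂
    refine ⟨c₁ / c₂, ?_⟩
    by_cases h0 : a - algebraMap C L (c₁ / c₂) = 0
    · exact Or.inl h0
    refine Or.inr ?_
    show 0 < - WithZero.log (v.valuation L (a - algebraMap C L (c₁ / c₂)))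
    have h1 : r - algebraMap C (Rt C t) (c₁ / c₂) * s ∈ p := by
      have h2 : r - algebraMap C (Rt C t) (c₁ / c₂) * s =
          (r - algebraMap C (Rt C t) c₁) -
            algebraMap C (Rt C t) (c₁ / c₂) * (s - algebraMap C (Rt C t) c₂) := by
        have h3 : algebraMap C (Rt C t) c₁ =
            algebraMap C (Rt C t) (c₁ / c₂) * algebraMap C (Rt C t) c₂ := by
          rw [← map_mul, div_mul_cancel₀ c₁ hc20]
        rw [h3]
        ring
      rw [h2]
      exact p.sub_mem hc₁ (p.mul_mem_left _ hc₂)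
    have h4 : (a - algebraMap C L (c₁ / c₂)) * (s : L) =
        ((r - algebraMap C (Rt C t) (c₁ / c₂) * s : Rt C t) : L) := by
      show (a - algebraMap C L (c₁ / c₂)) * (s : L) =
        (r : L) - algebraMap C L (c₁ / c₂) * (s : L)
      rw [sub_mul, hrs]
    have h5 : v.valuation L (a - algebraMap C L (c₁ / c₂)) < 1 := by
      have h6 := hvlt _ h1
      rw [← h4, map_mul, hv1 s hs, mul_one] at h6
      exact h6
    rw [← WithZero.log_lt_log (hne _ h0) one_ne_zero, WithZero.log_one] at h5
    omega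

end GT
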