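import Mathlib
import Pool.Agent.MP_c1dca2_ag.GT.P0

set_option autoImplicit false

open Polynomial

namespace GT

/-! ## [GT-V0a] the expansion at a place -/

variable {C L : Type} [Field C] [Field L] [Algebra C L]

theorem v0a_one {O : ValuationSubring L} {o : L → ℤ} (ho : IsOrd C O o) : o 1 = 0 := by
  have h := ho.mul 1 1 one_ne_zero one_ne_zero
  rw [one_mul] at h
  omega

theorem v0a_step {O : ValuationSubring L} {o : L → ℤ} (ho : IsOrd C O o) {z : L} (hz0 : z ≠ 0)
    (hz : o z = 1) (g : O) : ∃ (c : C) (g' : O), (g : L) = algebraMap C L c + z * g' := by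
  obtain ⟨c, hc⟩ := ho.res g g.2
  by_cases h0 : (g : L) - algebraMap C L c = 0
  · exact ⟨c, 0, by rw [sub_eq_zero.1 h0, ZeroMemClass.coe_zero, mul_zero, add_zero]⟩
  · have h1 := hc.resolve_left h0
    have h2 : z * (((g : L) - algebraMap C L c) / z) = (g : L) - algebraMap C L c := by
      field_simp
    have h3 : ((g : L) - algebraMap C L c) / z ≠ 0 := div_ne_zero h0 hz0
    have h4 := ho.mul _ _ hz0 h3
    rw [h2, hz] at h4
    have h5 : ((g : L) - algebraMap C L c) / z ∈ O := (ho.mem _ h3).2 (by omega)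
    refine ⟨c, ⟨_, h5⟩, ?_⟩
    show (g : L) = algebraMap C L c + z * (((g : L) - algebraMap C L c) / z)
    rw [h2]
    ring

/-- The power series expansion of an element of `O` in the uniformizer `z`.

Proof. `IsOrd`: every `g ∈ O` is `c + z g'` with `c ∈ C`, `g' ∈ O` (`res`: `g - c` is zero or of order `> 0`, so divisible by `z` in `O`), and `c` is unique. Iterate: `c_0, c_1, ...` and `g_N ∈ O` with
`g = ∑_{j<N} c_j z ^ j + z ^ N g_N`. Uniqueness: if two series `a`, `a'` satisfy the condition and `j` is the first index with `a_j ≠ a'_j`, then `(a_j - a'_j) z ^ j ∈ z ^ (j+1) O`, so `a_j - a'_j` has order `≥ 1`: contradiction (constants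
`≠ 0` are units of `O`). -/
theorem exists_exp {O : ValuationSubring L} (hO : IsPl C O) {o : L → ℤ} (ho : IsOrd C O o) {z : L} (hz0 : z ≠ 0)
    (hz : o z = 1) {g : L} (hg : g ∈ O) :
    ∃! a : PowerSeries C, ∀ N : ℕ, ∃ h ∈ O, g = aeval z (PowerSeries.trunc N a) + z ^ N * h := by
  choose c G hG using v0a_step ho hz0 hz
  obtain ⟨S, hS0, hS⟩ : ∃ S : ℕ → O, S 0 = ⟨g, hg⟩ ∧ ∀ n, S (n + 1) = G (S n) :=
    ⟨fun n => Nat.rec ⟨g, hg⟩ (fun _ x => G x) n, rfl, fun _ => rfl⟩
  have hmk : ∀ N : ℕ, g = aeval z (PowerSeries.trunc N (PowerSeries.mk fun n => c (S n))) + z ^ N * ((S N : O) : L) := by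
    intro N
    induction N with
    | zero =>
      rw [PowerSeries.trunc_zero', map_zero, hS0, pow_zero, one_mul, zero_add]
    | succ N ih =>
      rw [PowerSeries.trunc_succ, PowerSeries.coeff_mk, map_add, aeval_monomial, hS]
      have h1 := hG (S N)
      rw [h1] at ih
      conv_lhs => rw [ih]
      ring
  refine ⟨PowerSeries.mk fun n => c (S n), fun N => ⟨((S N : O) : L), (S N).2, hmk N⟩, ?_⟩
  · intro a ha
    ext j
    induction j using Nat.strong_induction_on with
    | _ j ih =>
      obtain ⟨h, hh, e1⟩ := ha (j + 1)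
      obtain ⟨h', hh', e2⟩ : ∃ h' ∈ O, g = aeval z (PowerSeries.trunc (j + 1) (PowerSeries.mk fun n => c (S n))) +
          z ^ (j + 1) * h' := ⟨_, (S (j + 1)).2, hmk (j + 1)⟩
      rw [PowerSeries.trunc_succ, map_add, aeval_monomial] at e1 e2
      have e3 : PowerSeries.trunc j a = PowerSeries.trunc j (PowerSeries.mk fun n => c (S n)) := by
        ext i
        rw [PowerSeries.coeff_trunc, PowerSeries.coeff_trunc]
        split_ifs with hi
        · exact ih i hi
        · rfl
      rw [e3] at e1
      by_contra hne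
      obtain ⟨u, hu⟩ : ∃ u, u = PowerSeries.coeff j a - PowerSeries.coeff j (PowerSeries.mk fun n => c (S n)) := ⟨_, rfl⟩
      have hu0 : u ≠ 0 := by
        rw [hu]
        exact sub_ne_zero.2 hne
      have e4 : algebraMap C L u = z * (h' - h) := by
        have h5 : z ^ j * algebraMap C L u = z ^ j * (z * (h' - h)) := by
          rw [hu, map_sub]
          linear_combination e2 - e1
        exact mul_left_cancel₀ (pow_ne_zero _ hz0) h5
      have hau : algebraMap C L u ≠ 0 := (_root_.map_ne_zero _).2 hu0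
      have e5 : z * ((h' - h) * algebraMap C L u⁻¹) = 1 := by
        rw [← mul_assoc, ← e4, ← map_mul, mul_inv_cancel₀ hu0, map_one]
      have hk : (h' - h) * algebraMap C L u⁻¹ ≠ 0 := by
        intro h0
        rw [h0, mul_zero] at e5
        exact zero_ne_one e5
      have h6 := ho.mul _ _ hz0 hk
      rw [e5, v0a_one ho, hz] at h6
      have h7 : (h' - h) * algebraMap C L u⁻¹ ∈ O := O.mul_mem _ _ (sub_mem hh' hh) (hO.1 _)
      have h8 := (ho.mem _ hk).1 h7
      omega

end GT
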