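import Mathlib
import Pool.Agent.MP_c1dca2_ag.GT.P0
import Pool.Agent.MP_c1dca2_ag.GT.V0a

set_option autoImplicit false

open Polynomial

namespace GT

/-! ## [GT-V0b] the expansion at a place -/

variable {C L : Type} [Field C] [Field L] [Algebra C L]

theorem v0b_ord_one {O : ValuationSubring L} {o : L → ℤ} (ho : IsOrd C O o) : o 1 = 0 := by
  have h := ho.mul 1 1 one_ne_zero one_ne_zero
  rw [mul_one] at h
  omega

theorem v0b_ord_pow {O : ValuationSubring L} {o : L → ℤ} (ho : IsOrd C O o) {a : L} (ha : a ≠ 0) (n : ℕ) :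
    o (a ^ n) = n * o a := by
  induction n with
  | zero => rw [pow_zero, v0b_ord_one ho]; simp
  | succ n ih =>
    rw [pow_succ, ho.mul _ _ (pow_ne_zero _ ha) ha, ih]
    push_cast
    ring

/-- `a` is the expansion of `g`. -/
def V0bExp (O : ValuationSubring L) (z g : L) (a : PowerSeries C) : Prop :=
  ∀ N : ℕ, ∃ h ∈ O, g = aeval z (PowerSeries.trunc N a) + z ^ N * h

theorem v0b_aeval_mem {O : ValuationSubring L} (hO : IsPl C O) {z : L} (hzO : z ∈ O) (p : C[X]) :
    aeval z p ∈ O := by
  induction p using Polynomial.induction_on' with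
  | add p q hp hq =>
    rw [map_add]
    exact O.add_mem _ _ hp hq
  | monomial n c =>
    rw [aeval_monomial]
    exact O.mul_mem _ _ (hO.1 c) (pow_mem hzO n)

/-- Polynomials congruent modulo `X ^ N`. -/
theorem v0b_congr {O : ValuationSubring L} (hO : IsPl C O) {z : L} (hzO : z ∈ O) (N : ℕ) (p q : C[X])
    (h : ∀ i < N, p.coeff i = q.coeff i) : ∃ u ∈ O, aeval z p = aeval z q + z ^ N * u := by
  have h1 : (X : C[X]) ^ N ∣ p - q := by
    rw [Polynomial.X_pow_dvd_iff]
    intro d hd
    rw [coeff_sub, h d hd, sub_self]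
  obtain ⟨r, hr⟩ := h1
  refine ⟨aeval z r, v0b_aeval_mem hO hzO r, ?_⟩
  have h2 : p = q + X ^ N * r := by rw [← hr]; ring
  rw [h2, map_add, map_mul, map_pow, aeval_X]

theorem v0b_add {O : ValuationSubring L} {z g g' : L} {a a' : PowerSeries C} (h : V0bExp O z g a)
    (h' : V0bExp O z g' a') : V0bExp O z (g + g') (a + a') := by
  intro N
  obtain ⟨u, hu, e⟩ := h N
  obtain ⟨u', hu', e'⟩ := h' N
  refine ⟨u + u', O.add_mem _ _ hu hu', ?_⟩
  rw [map_add, map_add, e, e']
  ring

theorem v0b_mul {O : ValuationSubring L} (hO : IsPl C O) {z g g' : L} (hzO : z ∈ O) {a a' : PowerSeries C}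
    (h : V0bExp O z g a) (h' : V0bExp O z g' a') : V0bExp O z (g * g') (a * a') := by
  intro N
  obtain ⟨u, hu, e⟩ := h N
  obtain ⟨u', hu', e'⟩ := h' N
  obtain ⟨v, hv, e1⟩ := v0b_congr hO hzO N (PowerSeries.trunc N a * PowerSeries.trunc N a')
    (PowerSeries.trunc N (a * a')) (by
      intro i hi
      rw [Polynomial.coeff_mul, PowerSeries.coeff_trunc, if_pos hi, PowerSeries.coeff_mul]
      refine Finset.sum_congr rfl fun p hp => ?_
      replace hp := Finset.HasAntidiagonal.mem_antidiagonal.mp hp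
      rw [PowerSeries.coeff_trunc, PowerSeries.coeff_trunc, if_pos (by omega), if_pos (by omega)])
  rw [map_mul] at e1
  have hA : aeval z (PowerSeries.trunc N a) ∈ O := v0b_aeval_mem hO hzO _
  have hA' : aeval z (PowerSeries.trunc N a') ∈ O := v0b_aeval_mem hO hzO _
  have hzN : z ^ N ∈ O := pow_mem hzO N
  refine ⟨v + aeval z (PowerSeries.trunc N a) * u' + aeval z (PowerSeries.trunc N a') * u + z ^ N * u * u',
    O.add_mem _ _ (O.add_mem _ _ (O.add_mem _ _ hv (O.mul_mem _ _ hA hu')) (O.mul_mem _ _ hA' hu))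
      (O.mul_mem _ _ (O.mul_mem _ _ hzN hu) hu'), ?_⟩
  rw [e, e']
  linear_combination e1

theorem v0b_poly {O : ValuationSubring L} (hO : IsPl C O) {z : L} (hzO : z ∈ O) (p : C[X]) :
    V0bExp O z (aeval z p) (p : PowerSeries C) := by
  intro N
  exact v0b_congr hO hzO N p _ (by
    intro i hi
    rw [PowerSeries.coeff_trunc, if_pos hi, Polynomial.coeff_coe])

theorem v0b_order_nonneg (a : PowerSeries C) (ha : a ≠ 0) :
    0 ≤ (HahnSeries.ofPowerSeries ℤ C a : LaurentSeries C).order := by
  by_contra hlt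
  push Not at hlt
  have h1 : (HahnSeries.ofPowerSeries ℤ C a : LaurentSeries C) ≠ 0 := by
    intro h0
    exact ha (HahnSeries.ofPowerSeries_injective (h0.trans (map_zero _).symm))
  have h2 := PowerSeries.coeff_coe a (HahnSeries.ofPowerSeries ℤ C a : LaurentSeries C).order
  rw [if_pos hlt] at h2
  exact h1 (HahnSeries.coeff_order_eq_zero.mp h2)

/-- The expansion of the functions at the place `O` in a uniformizer `z`, as a homomorphism.

Proof. By uniqueness in `exists_exp` the map `O → C⟦X⟧` is a ring homomorphism (sum and product of truncations: the product of `trunc N a` and `trunc N b` is `trunc N (a b)` modulo `X ^ N`), `z ↦ X`, `c ↦ C c`, injective: the constant coefficient is zero iff `g` is zero or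
of order `> 0`, and `g = z ^ n u` with a unit `u`. `L` is the fraction field of `O`: `IsFractionRing.lift` (or `IsLocalization.lift`) gives `ε : L → C((X))`, and for `f = z ^ n u` (integer power, `u` a unit of `O`) the order of
`ε f = X ^ n ε(u)` is `n`. -/
theorem exists_eps {O : ValuationSubring L} (hO : IsPl C O) {o : L → ℤ} (ho : IsOrd C O o) {z : L} (hz0 : z ≠ 0)
    (hz : o z = 1) :
    ∃ ε : L →+* LaurentSeries C, ε z = HahnSeries.single 1 1 ∧ (∀ c : C, ε (algebraMap C L c) = HahnSeries.C c) ∧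
      ∀ f : L, f ≠ 0 → (ε f).order = o f := by
  classical
  have hzO : z ∈ O := (ho.mem z hz0).mpr (by rw [hz]; exact zero_le_one)
  have hexp : ∀ g : O, ∃! a : PowerSeries C, V0bExp O z (g : L) a := fun g => exists_exp hO ho hz0 hz g.2
  choose e he hun using hexp
  have hun' : ∀ (g : O) (a : PowerSeries C), V0bExp O z (g : L) a → e g = a := fun g a h => (hun g a h).symm
  have hpoly : ∀ (p : C[X]) (g : O), (g : L) = aeval z p → e g = (p : PowerSeries C) := by
    intro p g hg
    apply hun'
    rw [hg]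
    exact v0b_poly hO hzO p
  let φ : O →+* PowerSeries C :=
    { toFun := e
      map_one' := by
        rw [hpoly 1 1 (by rw [map_one]; rfl), Polynomial.coe_one]
      map_zero' := by
        rw [hpoly 0 0 (by rw [map_zero]; rfl), Polynomial.coe_zero]
      map_add' := fun g g' => hun' _ _ (v0b_add (he g) (he g'))
      map_mul' := fun g g' => hun' _ _ (v0b_mul hO hzO (he g) (he g')) }
  have hφe : ∀ g : O, φ g = e g := fun _ => rfl
  have hφinj : Function.Injective φ := by
    rw [injective_iff_map_eq_zero]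
    intro g hg
    by_contra hg0
    have hgL : (g : L) ≠ 0 := fun h0 => hg0 (Subtype.ext h0)
    have hog : 0 ≤ o (g : L) := (ho.mem _ hgL).mp g.2
    have h1 := he g
    rw [← hφe, hg] at h1
    obtain ⟨u, hu, e1⟩ := h1 ((o (g : L)).toNat + 1)
    have e2 : (g : L) = z ^ ((o (g : L)).toNat + 1) * u := by
      rw [map_zero, map_zero, zero_add] at e1
      exact e1
    have hu0 : u ≠ 0 := by
      intro h0
      rw [h0, mul_zero] at e2
      exact hgL e2
    have h3 : o (g : L) = ((o (g : L)).toNat + 1 : ℕ) * o z + o u := by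
      conv_lhs => rw [e2]
      rw [ho.mul _ _ (pow_ne_zero _ hz0) hu0, v0b_ord_pow ho hz0]
    have h4 := (ho.mem u hu0).mp hu
    rw [hz] at h3
    push_cast at h3
    omega
  let ψ : O →+* LaurentSeries C := (HahnSeries.ofPowerSeries ℤ C).comp φ
  have hψinj : Function.Injective ψ := fun a b hab => hφinj (HahnSeries.ofPowerSeries_injective hab)
  let ε : L →+* LaurentSeries C := IsFractionRing.lift hψinj
  have hε : ∀ g : O, ε (g : L) = HahnSeries.ofPowerSeries ℤ C (e g) := by
    intro g
    exact IsFractionRing.lift_algebraMap hψinj g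
  have hεz : ε z = HahnSeries.single 1 1 := by
    have h1 := hε ⟨z, hzO⟩
    rw [hpoly X ⟨z, hzO⟩ (by rw [aeval_X]), Polynomial.coe_X] at h1
    rw [HahnSeries.ofPowerSeries_X] at h1
    exact h1
  have hεc : ∀ c : C, ε (algebraMap C L c) = HahnSeries.C c := by
    intro c
    have h1 := hε ⟨algebraMap C L c, hO.1 c⟩
    rw [hpoly (Polynomial.C c) ⟨algebraMap C L c, hO.1 c⟩ (by rw [aeval_C]), Polynomial.coe_C,
      HahnSeries.ofPowerSeries_C] at h1
    exact h1
  have hεinj : Function.Injective ε := ε.injective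
  have hε0 : ∀ f : L, f ≠ 0 → ε f ≠ 0 := fun f hf h0 => hf (hεinj (h0.trans (map_zero ε).symm))
  have hmem : ∀ f : L, f ≠ 0 → f ∈ O → 0 ≤ (ε f).order := by
    intro f hf hfO
    have h1 := hε ⟨f, hfO⟩
    have h2 : e ⟨f, hfO⟩ ≠ 0 := by
      intro h0
      have h3 : φ ⟨f, hfO⟩ = φ 0 := by rw [hφe, h0, map_zero]
      have h4 := hφinj h3
      exact hf (congrArg Subtype.val h4)
    have h3 := v0b_order_nonneg _ h2
    rw [← h1] at h3
    exact h3
  have hzpow : ∀ n : ℕ, (ε (z ^ n)).order = (n : ℤ) := by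
    intro n
    rw [map_pow, hεz, HahnSeries.single_pow, one_pow, HahnSeries.order_single one_ne_zero, nsmul_eq_mul, mul_one]
  have hmul : ∀ f g : L, f ≠ 0 → g ≠ 0 → (ε (f * g)).order = (ε f).order + (ε g).order := by
    intro f g hf hg
    rw [map_mul]
    exact HahnSeries.order_mul_of_ne_zero
      (mul_ne_zero (by
        rw [Ne, HahnSeries.leadingCoeff_eq_zero]
        exact hε0 f hf) (by
        rw [Ne, HahnSeries.leadingCoeff_eq_zero]
        exact hε0 g hg))
  have hunit : ∀ u : L, u ≠ 0 → o u = 0 → (ε u).order = 0 := by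
    intro u hu hou
    have hui : u⁻¹ ≠ 0 := inv_ne_zero hu
    have h1 := hmem u hu ((ho.mem u hu).mpr (by rw [hou]))
    have h2 := hmem u⁻¹ hui ((ho.mem u⁻¹ hui).mpr (by
      have h3 := ho.mul u u⁻¹ hu hui
      rw [mul_inv_cancel₀ hu, v0b_ord_one ho, hou] at h3
      omega))
    have h3 := hmul u u⁻¹ hu hui
    rw [mul_inv_cancel₀ hu, map_one, HahnSeries.order_one] at h3
    omega
  refine ⟨ε, hεz, hεc, ?_⟩
  intro f hf
  rcases le_or_gt 0 (o f) with hn | hn
  · have hzn : z ^ (o f).toNat ≠ 0 := pow_ne_zero _ hz0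
    have hu : f / z ^ (o f).toNat ≠ 0 := div_ne_zero hf hzn
    have hfu : f = z ^ (o f).toNat * (f / z ^ (o f).toNat) := by
      field_simp
    have h1 : o f = ((o f).toNat : ℤ) * o z + o (f / z ^ (o f).toNat) := by
      conv_lhs => rw [hfu]
      rw [ho.mul _ _ hzn hu, v0b_ord_pow ho hz0]
    rw [hz, mul_one] at h1
    have h2 := hunit _ hu (by omega)
    have h3 := hmul _ _ hzn hu
    rw [← hfu, hzpow, h2] at h3
    omega
  · have hzn : z ^ (-(o f)).toNat ≠ 0 := pow_ne_zero _ hz0
    have hu : f * z ^ (-(o f)).toNat ≠ 0 := mul_ne_zero hf hzn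
    have h1 : o (f * z ^ (-(o f)).toNat) = 0 := by
      rw [ho.mul _ _ hf hzn, v0b_ord_pow ho hz0, hz]
      omega
    have h2 := hunit _ hu h1
    have h3 := hmul _ _ hf hzn
    rw [h2, hzpow] at h3
    omega

end GT
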