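import Mathlib
import Pool.Agent.MP_c1dca2_ag.GT.Base

set_option autoImplicit false

open Polynomial

namespace GT

/-! ## [GT-V1a] an `ℓ`-th root of `1 - a X`; functions with given polar parts -/

/-- Proof. Characteristic `0`: Mathlib's binomial series (`PowerSeries.binomialSeries`, `binomialSeries_add`, Mathlib/RingTheory/PowerSeries/Binomial.lean) with exponent `-1/ℓ`, rescaled by `-a`; or directly: recursion for the coefficients of a series
`b` with `b ^ ℓ = 1 + a X + a ^ 2 X ^ 2 + ...`: the coefficient of `X ^ n` in `b ^ ℓ` is `ℓ b_n` plus a polynomial in `b_1, ..., b_{n-1}`; or Hensel's lemma. -/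
theorem exists_root_series {L : Type} [Field L] [CharZero L] (ℓ : ℕ) (hℓ : 0 < ℓ) (a : L) :
    ∃ b : PowerSeries L, PowerSeries.constantCoeff b = 1 ∧ b ^ ℓ * (1 - PowerSeries.C a * PowerSeries.X) = 1 := by
  have hq : (ℓ : ℚ) ≠ 0 := by exact_mod_cast hℓ.ne'
  have hpow : ∀ (n : ℕ) (r : ℚ), (PowerSeries.binomialSeries L r) ^ n =
      PowerSeries.binomialSeries L ((n : ℚ) * r) := by
    intro n r
    induction n with
    | zero => simp
    | succ n ih =>
      rw [pow_succ, ih, ← PowerSeries.binomialSeries_add]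
      congr 1
      push_cast
      ring
  have h1 : (PowerSeries.binomialSeries L (-(1 / (ℓ : ℚ)))) ^ ℓ * (1 + PowerSeries.X) = 1 := by
    have h2 : (1 + PowerSeries.X : PowerSeries L) = PowerSeries.binomialSeries L ((1 : ℕ) : ℚ) := by
      rw [PowerSeries.binomialSeries_nat, pow_one]
    rw [hpow, h2, ← PowerSeries.binomialSeries_add]
    have h3 : (ℓ : ℚ) * (-(1 / (ℓ : ℚ))) + ((1 : ℕ) : ℚ) = 0 := by
      field_simp
      push_cast
      ring
    rw [h3, PowerSeries.binomialSeries_zero]
  refine ⟨PowerSeries.rescale (-a) (PowerSeries.binomialSeries L (-(1 / (ℓ : ℚ)))), ?_, ?_⟩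
  · rw [← PowerSeries.coeff_zero_eq_constantCoeff_apply, PowerSeries.coeff_rescale, pow_zero, one_mul,
      PowerSeries.coeff_zero_eq_constantCoeff_apply, PowerSeries.binomialSeries_constantCoeff]
  · have h4 := congrArg (PowerSeries.rescale (-a)) h1
    rw [map_mul, map_pow, map_add, map_one, PowerSeries.rescale_X] at h4
    have h5 : (1 - PowerSeries.C a * PowerSeries.X : PowerSeries L) = 1 + PowerSeries.C (-a) * PowerSeries.X := by
      rw [map_neg]
      ring
    rw [h5]
    exact h4

variable {C L : Type} [Field C] [Field L] [Algebra C L] {O₁ : ValuationSubring L} {d : ℕ} [NeZero d] {T : Tab C d}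
  {E : WB T →+* L}

end GT
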