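import Mathlib
import Pool.Agent.MP_c1dca2_ag.GT.Base
import Pool.Agent.MP_c1dca2_ag.GT.Defs
import Pool.Agent.MP_c1dca2_ag.GT.P0
import Pool.Agent.MP_c1dca2_ag.GT.P5a
import Pool.Agent.MP_c1dca2_ag.GT.P7a
import Pool.Agent.MP_c1dca2_ag.GT.P8d
import Pool.Agent.MP_c1dca2_ag.SUP.Defs

set_option autoImplicit false

open Polynomial

namespace GT

/-! ## [GT-V1b] an `ℓ`-th root of `1 - a X`; functions with given polar parts -/

variable {C L : Type} [Field C] [Field L] [Algebra C L] {O₁ : ValuationSubring L} {d : ℕ} [NeZero d] {T : Tab C d}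
  {E : WB T →+* L}

/-- All sufficiently large numbers are pole orders: `m ≥ w i` for the class `i` of `m` modulo `d`, and `X ^ n f_i` with `d n + w i = m`. -/
theorem exists_pord (T : Tab C d) : ∃ n₀ : ℕ, ∀ m : ℕ, n₀ ≤ m → ∃ r : WB T, r ≠ 0 ∧ pord r = m := by
  classical
  refine ⟨∑ j, T.w j, fun m hm => ?_⟩
  have hw : T.w (m : ZMod d) ≤ m :=
    le_trans (Finset.single_le_sum (f := fun j => T.w j) (fun _ _ => Nat.zero_le _)
      (Finset.mem_univ _)) hm
  have hmod : (T.w (m : ZMod d) : ZMod d) = (m : ZMod d) := T.w_cast _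
  rw [ZMod.natCast_eq_natCast_iff] at hmod
  obtain ⟨n, hn⟩ := (Nat.modEq_iff_dvd' hw).mp hmod
  have hmn : m = d * n + T.w (m : ZMod d) := by omega
  have hcoef : ∀ (j : ZMod d) (k : ℕ), (((X : C[X]) ^ n • WB.f T (m : ZMod d)).co j).coeff k ≠ 0 →
      j = (m : ZMod d) ∧ k = n := by
    intro j k h
    rw [WB.co_smul, WB.f_co] at h
    by_cases hj : j = (m : ZMod d)
    · refine ⟨hj, ?_⟩
      rw [hj, Pi.single_eq_same, mul_one, coeff_X_pow] at h
      by_contra hk
      rw [if_neg hk] at h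
      exact h rfl
    · rw [Pi.single_eq_of_ne hj, mul_zero, coeff_zero] at h
      exact absurd rfl h
  have hr : ((X : C[X]) ^ n • WB.f T (m : ZMod d)) ≠ 0 := by
    intro h
    have h1 := congrArg (fun b : WB T => (b.co (m : ZMod d)).coeff n) h
    simp only [WB.co_smul, WB.f_co, Pi.single_eq_same, mul_one, coeff_X_pow, if_true, WB.co_zero,
      Pi.zero_apply, coeff_zero] at h1
    exact one_ne_zero h1
  refine ⟨_, hr, ?_⟩
  obtain ⟨i, k, hik, hp, -⟩ := pord_spec _ hr
  obtain ⟨h1, h2⟩ := hcoef i k hik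
  rw [hp, h1, h2]
  exact hmn.symm

/-- Functions with a given polar part at `O₁`.

Proof. Induction on `- o f`: if `f ≠ 0`, `- o f = m > n ≥ n₀`, choose `r` with `pord r = m` (`hn`), `o (E r) = -m` (`h.ordo`), `ord_res` gives `c` with `f - c E r` zero or of larger order; `c E r = E (c • r)`. -/
theorem exists_polar (hO : IsPl C O₁) (h : Model O₁ T E) {o : L → ℤ} (ho : IsOrd C O₁ o) {n : ℕ}
    (hn : ∀ m : ℕ, n ≤ m → ∃ r : WB T, r ≠ 0 ∧ pord r = m) (f : L) :
    ∃ r : WB T, f - E r = 0 ∨ -(n : ℤ) ≤ o (f - E r) := by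
  have key : ∀ (k : ℕ) (f : L), f ≠ 0 → -(o f) ≤ (n : ℤ) + k → ∃ r : WB T, f - E r = 0 ∨ -(n : ℤ) ≤ o (f - E r) := by
    intro k
    induction k with
    | zero =>
      intro f hf hk
      refine ⟨0, Or.inr ?_⟩
      rw [map_zero, sub_zero]
      push_cast at hk
      omega
    | succ k ih =>
      intro f hf hk
      by_cases hlt : -(o f) ≤ (n : ℤ) + k
      · exact ih f hf hlt
      · push_cast at hk
        have hm : -(o f) = ((n + k + 1 : ℕ) : ℤ) := by push_cast; omega
        obtain ⟨r, hr0, hr⟩ := hn (n + k + 1) (by omega)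
        have hE0 : E r ≠ 0 := fun h0 => hr0 (h.inj (by rw [h0, map_zero]))
        have hor : o (E r) = o f := by
          rw [h.ordo o ho r hr0, hr]
          omega
        obtain ⟨c, hc0, hc⟩ := ord_res hO ho hf hE0 hor.symm
        have hcE : c • E r = E (algebraMap C (WB T) c * r) := by
          rw [map_mul, h.alg, Algebra.smul_def]
        rw [hcE] at hc
        by_cases hz : f - E (algebraMap C (WB T) c * r) = 0
        · exact ⟨_, Or.inl hz⟩
        · rcases hc with hc | hc
          · exact absurd (sub_eq_zero.mpr hc) hz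
          · obtain ⟨r', hr'⟩ := ih _ hz (by omega)
            refine ⟨algebraMap C (WB T) c * r + r', ?_⟩
            rw [map_add, ← sub_sub]
            exact hr'
  by_cases hf : f = 0
  · exact ⟨0, Or.inl (by rw [hf, map_zero, sub_zero])⟩
  · exact key (-(o f) - n).toNat f hf (by omega)

end GT
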