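import Mathlib
import Pool.Agent.MP_c1dca2_ag.GT.Base
import Pool.Agent.MP_c1dca2_ag.GT.Defs
import Pool.Agent.MP_c1dca2_ag.GT.P0
import Pool.Agent.MP_c1dca2_ag.GT.P5a
import Pool.Agent.MP_c1dca2_ag.GT.P7a
import Pool.Agent.MP_c1dca2_ag.GT.P8d
import Pool.Agent.MP_c1dca2_ag.SUP.Defs

set_option autoImplicit false

open Polynomial

namespace GT

/-! ## [GT-V1d] an `ℓ`-th root of `1 - a X`; functions with given polar parts -/

variable {C L : Type} [Field C] [Field L] [Algebra C L] {O₁ : ValuationSubring L} {d : ℕ} [NeZero d] {T : Tab C d}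
  {E : WB T →+* L}

theorem v1d_mem_of_pord_le {m : ℕ} {b : WB T} (h : b = 0 ∨ pord b ≤ m) : b ∈ Ble T m := by
  by_cases hb : b = 0
  · rw [hb]
    exact Submodule.zero_mem _
  · obtain ⟨i, n, -, hp, hmax⟩ := pord_spec b hb
    rw [mem_Ble]
    intro j k hk
    by_contra h0
    have h1 := hmax j k h0
    rcases h with h | h
    · exact hb h
    · omega

theorem v1d_pord_le {m : ℕ} {b : WB T} (hb : b ≠ 0) (h : b ∈ Ble T m) : pord b ≤ m := by
  obtain ⟨i, n, h0, hp, -⟩ := pord_spec b hb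
  by_contra hlt
  exact h0 (mem_Ble.mp h i n (by omega))

theorem v1d_add {o : L → ℤ} (ho : IsOrd C O₁ o) {m : ℤ} {a b : L} (ha : a = 0 ∨ m ≤ o a)
    (hb : b = 0 ∨ m ≤ o b) : a + b = 0 ∨ m ≤ o (a + b) := by
  by_cases ha0 : a = 0
  · rw [ha0, zero_add]
    exact hb
  by_cases hb0 : b = 0
  · rw [hb0, add_zero]
    exact ha
  by_cases hab : a + b = 0
  · exact Or.inl hab
  · right
    have h1 := ord_add ho ha0 hb0 hab
    have h2 : m ≤ o a := ha.resolve_left ha0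
    have h3 : m ≤ o b := hb.resolve_left hb0
    exact le_trans (le_min h2 h3) h1

theorem v1d_mul {o : L → ℤ} (ho : IsOrd C O₁ o) {m k : ℤ} {a b : L} (ha : a = 0 ∨ m ≤ o a)
    (hb : b = 0 ∨ k ≤ o b) : a * b = 0 ∨ m + k ≤ o (a * b) := by
  by_cases ha0 : a = 0
  · left
    rw [ha0, zero_mul]
  by_cases hb0 : b = 0
  · left
    rw [hb0, mul_zero]
  · right
    rw [ho.mul a b ha0 hb0]
    have h2 : m ≤ o a := ha.resolve_left ha0
    have h3 : k ≤ o b := hb.resolve_left hb0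
    omega

theorem v1d_sum {o : L → ℤ} (ho : IsOrd C O₁ o) {m : ℤ} {ι : Type} (s : Finset ι) (g : ι → L)
    (hg : ∀ i ∈ s, g i = 0 ∨ m ≤ o (g i)) : ∑ i ∈ s, g i = 0 ∨ m ≤ o (∑ i ∈ s, g i) := by
  classical
  induction s using Finset.induction_on with
  | empty => left; rw [Finset.sum_empty]
  | insert i s hi ih =>
    rw [Finset.sum_insert hi]
    exact v1d_add ho (hg i (Finset.mem_insert_self i s))
      (ih fun j hj => hg j (Finset.mem_insert_of_mem hj))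

theorem v1d_coeff_mul {o : L → ℤ} (ho : IsOrd C O₁ o) {m k : ℤ} {A B : PowerSeries L}
    (hA : ∀ j : ℕ, PowerSeries.coeff j A = 0 ∨ m ≤ o (PowerSeries.coeff j A))
    (hB : ∀ j : ℕ, PowerSeries.coeff j B = 0 ∨ k ≤ o (PowerSeries.coeff j B)) (j : ℕ) :
    PowerSeries.coeff j (A * B) = 0 ∨ m + k ≤ o (PowerSeries.coeff j (A * B)) := by
  rw [PowerSeries.coeff_mul]
  exact v1d_sum ho _ _ fun p _ => v1d_mul ho (hA p.1) (hB p.2)

theorem v1d_coeff_pow (hO : IsPl C O₁) {o : L → ℤ} (ho : IsOrd C O₁ o) {n : ℕ} {A : PowerSeries L}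
    (hA : ∀ j : ℕ, PowerSeries.coeff j A = 0 ∨ -(n : ℤ) ≤ o (PowerSeries.coeff j A)) (ℓ : ℕ) (j : ℕ) :
    PowerSeries.coeff j (A ^ ℓ) = 0 ∨ -((ℓ * n : ℕ) : ℤ) ≤ o (PowerSeries.coeff j (A ^ ℓ)) := by
  induction ℓ generalizing j with
  | zero =>
    rw [pow_zero, PowerSeries.coeff_one]
    split_ifs
    · right
      rw [ord_one ho]
      simp
    · left
      rfl
  | succ ℓ ih =>
    rw [pow_succ]
    have h1 := v1d_coeff_mul ho ih hA j
    have h2 : -(((ℓ + 1) * n : ℕ) : ℤ) = -((ℓ * n : ℕ) : ℤ) + -(n : ℤ) := by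
      push_cast
      ring
    rw [h2]
    exact h1

/-- Consequence for `φ ^ ℓ`: the coefficients have pole order at most `ℓ n + 1`, and the coefficient of `X` has the pole order `ℓ n + 1`; moreover
`φ ^ ℓ = G (1 - z⁻¹ X)` with the order of the coefficients of `G` at least `- ℓ n`.

Proof. `G := (map E φ * b) ^ ℓ`: its coefficients are zero or of order `≥ - ℓ n` (induction over the exponent, `ord_add`, `mul`). `map E (φ ^ ℓ) = G * (1 - z⁻¹ X)` because `b ^ ℓ (1 - z⁻¹ X) = 1`. So `E (coeff_j φ ^ ℓ) = G_j - z⁻¹ G_(j-1)`,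
of order `≥ - ℓ n - 1`, so `pord ≤ ℓ n + 1` (`h.ordo`). `G_0 = E (φ_0) ^ ℓ` has order exactly `- ℓ n`, so `G_1 - z⁻¹ G_0` has order exactly `- ℓ n - 1` (`ord_add_eq`). -/
theorem phi_pow (hO : IsPl C O₁) (h : Model O₁ T E) {o : L → ℤ} (ho : IsOrd C O₁ o) {n ℓ : ℕ} (hℓ : 0 < ℓ) {z : L} (hz0 : z ≠ 0)
    (hz : o z = 1) (b : PowerSeries L) (hb : b ^ ℓ * (1 - PowerSeries.C z⁻¹ * PowerSeries.X) = 1)
    (hb0 : PowerSeries.constantCoeff b = 1) (φ : PowerSeries (WB T))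
    (h0 : PowerSeries.constantCoeff φ ≠ 0) (hn : pord (PowerSeries.constantCoeff φ) = n)
    (hφ : ∀ j : ℕ, PowerSeries.coeff j (PowerSeries.map E φ * b) = 0 ∨
        -(n : ℤ) ≤ o (PowerSeries.coeff j (PowerSeries.map E φ * b))) :
    (∀ j : ℕ, PowerSeries.coeff j (φ ^ ℓ) ∈ Ble T (ℓ * n + 1)) ∧
      PowerSeries.coeff 1 (φ ^ ℓ) ∉ Ble T (ℓ * n) ∧
      ∃ G : PowerSeries L, PowerSeries.map E (φ ^ ℓ) = G * (1 - PowerSeries.C z⁻¹ * PowerSeries.X) ∧
        ∀ j : ℕ, PowerSeries.coeff j G = 0 ∨ -((ℓ * n : ℕ) : ℤ) ≤ o (PowerSeries.coeff j G) := by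
  set A : PowerSeries L := PowerSeries.map E φ * b with hA
  set G : PowerSeries L := A ^ ℓ with hG
  have hGj : ∀ j : ℕ, PowerSeries.coeff j G = 0 ∨ -((ℓ * n : ℕ) : ℤ) ≤ o (PowerSeries.coeff j G) :=
    fun j => v1d_coeff_pow hO ho hφ ℓ j
  have hmap : PowerSeries.map E (φ ^ ℓ) = G * (1 - PowerSeries.C z⁻¹ * PowerSeries.X) := by
    rw [hG, hA, mul_pow, mul_assoc, hb, mul_one, map_pow]
  have hzinv : o z⁻¹ = -1 := by rw [ord_inv ho hz0, hz]
  have hEinj : ∀ r : WB T, r ≠ 0 → E r ≠ 0 := fun r hr h0 => hr (h.inj (by rw [h0, map_zero]))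
  have hcoef : ∀ j : ℕ, E (PowerSeries.coeff (j + 1) (φ ^ ℓ)) =
      PowerSeries.coeff (j + 1) G + -(z⁻¹ * PowerSeries.coeff j G) := by
    intro j
    rw [← PowerSeries.coeff_map, hmap, mul_sub, mul_one, map_sub, ← mul_assoc, PowerSeries.coeff_succ_mul_X,
      mul_comm G, PowerSeries.coeff_C_mul, sub_eq_add_neg]
  have hcoef0 : E (PowerSeries.coeff 0 (φ ^ ℓ)) = PowerSeries.coeff 0 G := by
    rw [← PowerSeries.coeff_map, hmap, PowerSeries.coeff_zero_eq_constantCoeff_apply,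
      PowerSeries.coeff_zero_eq_constantCoeff_apply, map_mul, map_sub, map_mul, PowerSeries.constantCoeff_X,
      mul_zero, map_one, sub_zero, mul_one]
  have hneg : ∀ (m : ℤ) (a : L), (a = 0 ∨ m ≤ o a) → (-a = 0 ∨ m ≤ o (-a)) := by
    intro m a ha
    by_cases ha0 : a = 0
    · left
      rw [ha0, neg_zero]
    · right
      rw [ord_neg ho ha0]
      exact ha.resolve_left ha0
  have hweak : ∀ (m k : ℤ) (a : L), m ≤ k → (a = 0 ∨ k ≤ o a) → (a = 0 ∨ m ≤ o a) := by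
    intro m k a hmk ha
    rcases ha with ha | ha
    · exact Or.inl ha
    · exact Or.inr (le_trans hmk ha)
  have hall : ∀ j : ℕ, E (PowerSeries.coeff j (φ ^ ℓ)) = 0 ∨
      -((ℓ * n + 1 : ℕ) : ℤ) ≤ o (E (PowerSeries.coeff j (φ ^ ℓ))) := by
    intro j
    cases j with
    | zero =>
      rw [hcoef0]
      exact hweak _ _ _ (by push_cast; omega) (hGj 0)
    | succ j =>
      rw [hcoef]
      refine v1d_add ho (hweak _ _ _ (by push_cast; omega) (hGj (j + 1))) (hneg _ _ ?_)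
      have h1 : z⁻¹ = 0 ∨ (-1 : ℤ) ≤ o z⁻¹ := Or.inr (by rw [hzinv])
      have h2 := v1d_mul ho h1 (hGj j)
      exact hweak _ _ _ (by push_cast; omega) h2
  refine ⟨fun j => ?_, ?_, G, hmap, hGj⟩
  · apply v1d_mem_of_pord_le
    by_cases h1 : PowerSeries.coeff j (φ ^ ℓ) = 0
    · exact Or.inl h1
    · right
      have h2 := (hall j).resolve_left (hEinj _ h1)
      rw [h.ordo o ho _ h1] at h2
      omega
  · intro hmem
    have hG0 : PowerSeries.coeff 0 G = (E (PowerSeries.constantCoeff φ)) ^ ℓ := by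
      rw [hG, hA, PowerSeries.coeff_zero_eq_constantCoeff_apply, map_pow, map_mul, hb0, mul_one,
        ← PowerSeries.coeff_zero_eq_constantCoeff_apply, PowerSeries.coeff_map,
        PowerSeries.coeff_zero_eq_constantCoeff_apply]
    have hEφ : E (PowerSeries.constantCoeff φ) ≠ 0 := hEinj _ h0
    have hG0ne : PowerSeries.coeff 0 G ≠ 0 := by
      rw [hG0]
      exact pow_ne_zero _ hEφ
    have hoG0 : o (PowerSeries.coeff 0 G) = -((ℓ * n : ℕ) : ℤ) := by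
      rw [hG0, ord_pow ho hEφ, h.ordo o ho _ h0, hn]
      push_cast
      ring
    have hz1 : z⁻¹ * PowerSeries.coeff 0 G ≠ 0 := mul_ne_zero (inv_ne_zero hz0) hG0ne
    have hoz : o (-(z⁻¹ * PowerSeries.coeff 0 G)) = -((ℓ * n : ℕ) : ℤ) - 1 := by
      rw [ord_neg ho hz1, ho.mul _ _ (inv_ne_zero hz0) hG0ne, hzinv, hoG0]
      ring
    have hfin : E (PowerSeries.coeff 1 (φ ^ ℓ)) ≠ 0 ∧
        o (E (PowerSeries.coeff 1 (φ ^ ℓ))) = -((ℓ * n : ℕ) : ℤ) - 1 := by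
      have h1 := hcoef 0
      rw [zero_add] at h1
      rw [h1]
      rcases hGj 1 with h2 | h2
      · rw [h2, zero_add]
        exact ⟨neg_ne_zero.mpr hz1, hoz⟩
      · by_cases h3 : PowerSeries.coeff 1 G = 0
        · rw [h3, zero_add]
          exact ⟨neg_ne_zero.mpr hz1, hoz⟩
        · have h4 := ord_add_eq ho (neg_ne_zero.mpr hz1) h3 (by rw [hoz]; omega)
          rw [add_comm]
          exact ⟨h4.1, by rw [h4.2, hoz]⟩
    have hne : PowerSeries.coeff 1 (φ ^ ℓ) ≠ 0 := by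
      intro h1
      exact hfin.1 (by rw [h1, map_zero])
    have h5 := v1d_pord_le hne hmem
    have h6 := hfin.2
    rw [h.ordo o ho _ hne] at h6
    omega

end GT
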