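import Mathlib
import Pool.Agent.MP_c1dca2_ag.GT.Base

set_option autoImplicit false

open Polynomial

namespace GT

/-! ## [GT-V2d] power series of coefficients and power series of functions: definition of `io` -/

variable {C : Type} [Field C] {d : ℕ} [NeZero d]

theorem sol_self {R : Type} [CommRing R] (T : Tab R d) : Sol T (algebraMap R (WB T)) (WB.x T) (WB.f T) :=
  sol_of (RingHom.id (WB T)) (fun _ => rfl)

theorem io_aux (R S : Type) [CommRing R] [CommRing S] (f : R →+* S) :
    (PowerSeries.map f).comp (PowerSeries.C (R := R)) = (PowerSeries.C (R := S)).comp f := by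
  ext1 a
  exact PowerSeries.map_C f a

/-- The homomorphism from `WB T` with power series coefficients to the power series with coefficients in `WB T`. -/
noncomputable def io (T : Tab C d) : WB (T.map (PowerSeries.C (R := C))) →+* PowerSeries (WB T) :=
  lift (Sol.change rfl (io_aux C (WB T) (algebraMap C (WB T))) ((sol_self T).map (PowerSeries.C (R := WB T))))

theorem io_alg (T : Tab C d) (a : PowerSeries C) :
    io T (algebraMap (PowerSeries C) (WB (T.map (PowerSeries.C (R := C)))) a) =
      PowerSeries.map (algebraMap C (WB T)) a := lift_algebraMap' _ _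

theorem io_x (T : Tab C d) : io T (WB.x _) = PowerSeries.C (WB.x T) := lift_x _

theorem io_f (T : Tab C d) (j : ZMod d) : io T (WB.f _ j) = PowerSeries.C (WB.f T j) := lift_f _ _

end GT
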