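import Mathlib
import Pool.Agent.MP_c1dca2_ag.GT.Base
import Pool.Agent.MP_c1dca2_ag.GT.V2d

set_option autoImplicit false

open Polynomial

namespace GT

/-! ## [GT-V2a] the coefficients of `io` -/

variable {C : Type} [Field C] {d : ℕ} [NeZero d]

/-- the polynomial of the `j`-th coefficients -/
noncomputable def v2a_pj (j : ℕ) (p : (PowerSeries C)[X]) : C[X] :=
  ∑ n ∈ p.support, monomial n (PowerSeries.coeff j (p.coeff n))

theorem v2a_pj_coeff (j : ℕ) (p : (PowerSeries C)[X]) (n : ℕ) :
    (v2a_pj j p).coeff n = PowerSeries.coeff j (p.coeff n) := by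
  unfold v2a_pj
  rw [finsetSum_coeff]
  by_cases hn : n ∈ p.support
  · rw [Finset.sum_eq_single n]
    · rw [coeff_monomial, if_pos rfl]
    · intro m _ hm
      rw [coeff_monomial, if_neg hm]
    · intro h
      exact absurd hn h
  · rw [Finset.sum_eq_zero]
    · rw [notMem_support_iff.1 hn, map_zero]
    · intro m hm
      rw [coeff_monomial, if_neg]
      rintro rfl
      exact hn hm

theorem v2a_eval (T : Tab C d) (j : ℕ) (p : (PowerSeries C)[X]) :
    PowerSeries.coeff j (p.eval₂ (PowerSeries.map (algebraMap C (WB T))) (PowerSeries.C (WB.x T))) =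
      algebraMap C[X] (WB T) (v2a_pj j p) := by
  unfold v2a_pj
  rw [eval₂_eq_sum, Polynomial.sum, map_sum, map_sum]
  refine Finset.sum_congr rfl fun n _ => ?_
  rw [← map_pow, PowerSeries.coeff_mul_C, PowerSeries.coeff_map, ← C_mul_X_pow_eq_monomial, map_mul, map_pow,
    IsScalarTower.algebraMap_apply C C[X] (WB T), Polynomial.algebraMap_eq]
  rfl

/-- Proof. `lift_apply`: `io T b = ∑ i, eval₂ (PowerSeries.map _) (C x) (b.co i) * C (f i)`; `eval₂` is the sum over `n` of `map (a_n) * C (x ^ n)`, so the coefficient of `X ^ j` is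
`∑_i ∑_n coeff_j (a_(i,n)) x ^ n f_i`, whose coordinate at `f_i` is the polynomial `∑_n coeff_j (a_(i,n)) X ^ n`. -/
theorem io_coeff (T : Tab C d) (b : WB (T.map (PowerSeries.C (R := C)))) (j : ℕ) (i : ZMod d) (n : ℕ) :
    ((PowerSeries.coeff j (io T b)).co i).coeff n = PowerSeries.coeff j ((b.co i).coeff n) := by
  have h1 : PowerSeries.coeff j (io T b) = ∑ k, v2a_pj j (b.co k) • WB.f T k := by
    rw [io, lift_apply, map_sum]
    refine Finset.sum_congr rfl fun k _ => ?_
    rw [PowerSeries.coeff_mul_C, Algebra.smul_def]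
    congr 1
    exact v2a_eval T j (b.co k)
  have h2 : ∑ k, v2a_pj j (b.co k) • WB.f T k = (⟨fun k => v2a_pj j (b.co k)⟩ : WB T) :=
    WB.sum_f (⟨fun k => v2a_pj j (b.co k)⟩ : WB T)
  rw [h1, h2]
  exact v2a_pj_coeff j (b.co i) n

/-- Constants. -/
theorem io_bmap (T : Tab C d) (b : WB T) : io T (bmap (PowerSeries.C (R := C)) rfl b) = PowerSeries.C b := by
  refine PowerSeries.ext fun j => WB.ext (funext fun i => Polynomial.ext fun n => ?_)
  rw [io_coeff, bmap_co, coeff_map, PowerSeries.coeff_C, PowerSeries.coeff_C]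
  split_ifs
  · rfl
  · rw [WB.co_zero, Pi.zero_apply, coeff_zero]

theorem io_inj (T : Tab C d) : Function.Injective (io T) := by
  intro b c h
  refine WB.ext (funext fun i => Polynomial.ext fun n => PowerSeries.ext fun j => ?_)
  rw [← io_coeff, ← io_coeff, h]

end GT
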