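import Mathlib
import Pool.Agent.MP_c1dca2_ag.GT.Base
import Pool.Agent.MP_c1dca2_ag.GT.Defs
import Pool.Agent.MP_c1dca2_ag.GT.V2a
import Pool.Agent.MP_c1dca2_ag.GT.V2d
import Pool.Agent.MP_c1dca2_ag.SUP.Defs

set_option autoImplicit false

open Polynomial

namespace GT

/-! ## [GT-V2b] the coefficients of `io` -/

variable {C : Type} [Field C] {d : ℕ} [NeZero d]

/-- Proof. For every monomial (finitely many of weight `≤ m`: `n ≤ m`) the power series with the coefficients `((coeff j s).co i).coeff n`. -/
theorem io_surj (T : Tab C d) (m : ℕ) (s : PowerSeries (WB T)) (hs : ∀ j, PowerSeries.coeff j s ∈ Ble T m) :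
    ∃ F ∈ Ble (T.map (PowerSeries.C (R := C))) m, io T F = s := by
  have hd : 1 ≤ d := Nat.one_le_iff_ne_zero.2 (NeZero.ne d)
  have hco : ∀ (i : ZMod d) (n : ℕ), (∑ e ∈ Finset.range (m + 1), monomial e
      (PowerSeries.mk fun j => ((PowerSeries.coeff j s).co i).coeff e) : (PowerSeries C)[X]).coeff n =
      if n < m + 1 then PowerSeries.mk fun j => ((PowerSeries.coeff j s).co i).coeff n else 0 := by
    intro i n
    rw [finsetSum_coeff]
    split_ifs with hn
    · rw [Finset.sum_eq_single n]
      · rw [coeff_monomial, if_pos rfl]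
      · intro k _ hk
        rw [coeff_monomial, if_neg hk]
      · intro h
        exact absurd (Finset.mem_range.2 hn) h
    · refine Finset.sum_eq_zero fun k hk => ?_
      rw [coeff_monomial, if_neg]
      rintro rfl
      exact hn (Finset.mem_range.1 hk)
  refine ⟨⟨fun i => ∑ e ∈ Finset.range (m + 1), monomial e
    (PowerSeries.mk fun j => ((PowerSeries.coeff j s).co i).coeff e)⟩, ?_, ?_⟩
  · rw [mem_Ble]
    intro i n hn
    refine (hco i n).trans ?_
    split_ifs
    · refine PowerSeries.ext fun j => ?_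
      rw [PowerSeries.coeff_mk, map_zero]
      exact mem_Ble.1 (hs j) i n hn
    · rfl
  · refine PowerSeries.ext fun j => WB.ext (funext fun i => Polynomial.ext fun n => ?_)
    rw [io_coeff]
    refine (congrArg (PowerSeries.coeff j) (hco i n)).trans ?_
    split_ifs with hn
    · rw [PowerSeries.coeff_mk]
    · rw [map_zero]
      refine (mem_Ble.1 (hs j) i n ?_).symm
      have : n ≤ d * n := Nat.le_mul_of_pos_left n hd
      omega

/-- Decomposition of an element modulo `X ^ N`: `b = ∑_{j<N} X ^ j coeff_j + X ^ N b'`.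

Proof. Write every coefficient `a ∈ C⟦X⟧` as `trunc_N a + X ^ N a'`; `io_coeff`. -/
theorem io_split (T : Tab C d) (m : ℕ) (b : WB (T.map (PowerSeries.C (R := C)))) (hb : b ∈ Ble _ m) (N : ℕ) :
    ∃ b' ∈ Ble (T.map (PowerSeries.C (R := C))) m,
      b = ∑ j ∈ Finset.range N, algebraMap (PowerSeries C) _ (PowerSeries.X ^ j) *
        bmap (PowerSeries.C (R := C)) rfl (PowerSeries.coeff j (io T b)) +
        algebraMap (PowerSeries C) _ (PowerSeries.X ^ N) * b' := by
  obtain ⟨b', hb', hio⟩ := io_surj T m (PowerSeries.mk fun k => PowerSeries.coeff (k + N) (io T b)) (by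
    intro j
    rw [PowerSeries.coeff_mk, mem_Ble]
    intro i n hn
    rw [io_coeff, mem_Ble.1 hb i n hn, map_zero])
  refine ⟨b', hb', io_inj T ?_⟩
  rw [map_add, map_sum, map_mul, io_alg, hio, map_pow, PowerSeries.map_X]
  have h1 : ∀ j ∈ Finset.range N, io T (algebraMap (PowerSeries C) _ (PowerSeries.X ^ j) *
      bmap (PowerSeries.C (R := C)) rfl (PowerSeries.coeff j (io T b))) =
      PowerSeries.X ^ j * PowerSeries.C (PowerSeries.coeff j (io T b)) := by
    intro j _
    rw [map_mul, io_alg, io_bmap, map_pow, PowerSeries.map_X]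
  rw [Finset.sum_congr rfl h1]
  refine PowerSeries.ext fun n => ?_
  rw [map_add, map_sum, PowerSeries.coeff_X_pow_mul', PowerSeries.coeff_mk]
  have h2 : ∀ j ∈ Finset.range N, PowerSeries.coeff n
      (PowerSeries.X ^ j * PowerSeries.C (PowerSeries.coeff j (io T b))) =
      if j = n then PowerSeries.coeff n (io T b) else 0 := by
    intro j _
    rw [PowerSeries.coeff_X_pow_mul', PowerSeries.coeff_C]
    by_cases hj : j = n
    · subst hj
      rw [if_pos le_rfl, if_pos (Nat.sub_self j), if_pos rfl]
    · rw [if_neg hj]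
      split_ifs with h3 h4
      · omega
      · rfl
      · rfl
  rw [Finset.sum_congr rfl h2, Finset.sum_ite_eq' (Finset.range N) n]
  by_cases hn : n < N
  · rw [if_pos (Finset.mem_range.2 hn), if_neg (by omega), add_zero]
  · rw [if_neg (fun h => hn (Finset.mem_range.1 h)), if_pos (by omega), zero_add]
    congr 1
    congr 1
    omega

end GT
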