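import Mathlib
import Pool.Agent.MP_c1dca2_ag.GT.Base
import Pool.Agent.MP_c1dca2_ag.GT.P8d

set_option autoImplicit false

open Polynomial

namespace GT

/-! ## [GT-V3a] evaluation of power series of functions at the generic point of a formal arc -/

variable {C L : Type} [Field C] [Field L] [Algebra C L] {O₁ : ValuationSubring L} {d : ℕ} [NeZero d] {T : Tab C d}
  {E : WB T →+* L}

/-- The evaluation: `X` (the variable of the power series) goes to the uniformizer, a function to its expansion.

Proof. `sol_of (ε.comp E)` (with `g = HahnSeries.C`, `hε`, `h.alg`), `Sol.change` (the composition of `HahnSeries.ofPowerSeries ℤ C` with `PowerSeries.C` is `HahnSeries.C`), `lift`. The second statement: both sides are homomorphisms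
`WB T → C((X))` that agree on constants, `x` and `f j`. -/
theorem exists_ev (h : Model O₁ T E) (ε : L →+* LaurentSeries C) (hε : ∀ c : C, ε (algebraMap C L c) = HahnSeries.C c) :
    ∃ ev : WB (T.map (PowerSeries.C (R := C))) →+* LaurentSeries C,
      (∀ a : PowerSeries C, ev (algebraMap (PowerSeries C) _ a) = HahnSeries.ofPowerSeries ℤ C a) ∧
      ∀ b : WB T, ev (bmap (PowerSeries.C (R := C)) rfl b) = ε (E b) := by
  have h1 : ∀ r : C, (ε.comp E) (algebraMap C (WB T) r) = (HahnSeries.C : C →+* LaurentSeries C) r := by
    intro r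
    rw [RingHom.comp_apply, h.alg, hε]
  have h2 : (HahnSeries.ofPowerSeries ℤ C).comp (PowerSeries.C (R := C)) =
      (HahnSeries.C : C →+* LaurentSeries C) := by
    ext1 r
    rw [RingHom.comp_apply, HahnSeries.ofPowerSeries_C]
  refine ⟨lift (Sol.change rfl h2 (sol_of (ε.comp E) h1)), fun a => lift_algebraMap' _ _, ?_⟩
  intro b
  have h3 := lift_unique (ε.comp E) h1 b
  rw [RingHom.comp_apply] at h3
  rw [h3, lift_apply, lift_apply]
  refine Finset.sum_congr rfl fun j _ => ?_
  rw [bmap_co, eval₂_map, h2]

end GT
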