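import Mathlib
import Pool.Agent.MP_c1dca2_ag.GT.Base
import Pool.Agent.MP_c1dca2_ag.GT.Defs
import Pool.Agent.MP_c1dca2_ag.GT.P0
import Pool.Agent.MP_c1dca2_ag.GT.P7a
import Pool.Agent.MP_c1dca2_ag.GT.P8d
import Pool.Agent.MP_c1dca2_ag.SUP.Defs

set_option autoImplicit false

open Polynomial

namespace GT

/-! ## [GT-V3b] evaluation of power series of functions at the generic point of a formal arc -/

variable {C L : Type} [Field C] [Field L] [Algebra C L] {O₁ : ValuationSubring L} {d : ℕ} [NeZero d] {T : Tab C d}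
  {E : WB T →+* L}

theorem v3b_pow_co (T : Tab C d) (n : ℕ) (j : ZMod d) : (WB.x T ^ n * WB.f T j).co = Pi.single j (X ^ n) := by
  have h1 : WB.x T ^ n * WB.f T j = (X ^ n : C[X]) • WB.f T j := by
    rw [WB.x, ← map_pow, Algebra.smul_def]
  rw [h1]
  funext k
  rw [WB.co_smul, WB.f_co]
  by_cases hk : k = j
  · subst hk
    rw [Pi.single_eq_same, Pi.single_eq_same, mul_one]
  · rw [Pi.single_eq_of_ne hk, Pi.single_eq_of_ne hk, mul_zero]

theorem v3b_pow_ne (T : Tab C d) (n : ℕ) (j : ZMod d) : WB.x T ^ n * WB.f T j ≠ 0 := by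
  intro h
  have h1 := congrArg (fun b : WB T => (b.co j).coeff n) h
  simp only [v3b_pow_co, Pi.single_eq_same, coeff_X_pow_self, WB.co_zero, Pi.zero_apply, coeff_zero] at h1
  exact one_ne_zero h1

theorem v3b_pord (T : Tab C d) (n : ℕ) (j : ZMod d) : pord (WB.x T ^ n * WB.f T j) = d * n + T.w j := by
  obtain ⟨i, m, h1, h2, -⟩ := pord_spec _ (v3b_pow_ne T n j)
  rw [v3b_pow_co] at h1
  have hi : i = j := by
    by_contra hi
    rw [Pi.single_eq_of_ne hi, coeff_zero] at h1
    exact h1 rfl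
  subst hi
  rw [Pi.single_eq_same, coeff_X_pow] at h1
  have hm : m = n := by
    by_contra hm
    rw [if_neg hm] at h1
    exact h1 rfl
  rw [h2, hm]

/-- The decomposition of an element into monomials. -/
theorem v3b_sum {R R' : Type} [CommRing R] [CommRing R'] {T : Tab R d} (u : R →+* R') (b : WB (T.map u)) :
    b = ∑ j, ∑ n ∈ (b.co j).support, algebraMap R' _ ((b.co j).coeff n) *
      bmap u rfl (WB.x T ^ n * WB.f T j) := by
  conv_lhs => rw [← WB.sum_f b]
  refine Finset.sum_congr rfl fun j _ => ?_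
  conv_lhs => rw [(b.co j).as_sum_support, Finset.sum_smul]
  refine Finset.sum_congr rfl fun n _ => ?_
  rw [map_mul, map_pow, bmap_x, bmap_f, ← mul_assoc, Algebra.smul_def, ← C_mul_X_pow_eq_monomial, map_mul,
    map_pow, WB.x, IsScalarTower.algebraMap_apply R' R'[X] (WB (T.map u)), Polynomial.algebraMap_eq]

/-- Lower bound for the order of the values.

Proof. `ev b = ∑ (coefficient) * ε (E (monomial))`, the coefficients are power series (order `≥ 0`), the monomials `x ^ n f_i` of weight `≤ m` have `(ε (E _)).order = o (E _) = - weight ≥ -m` (`h.ordo`, `hεo`, `pord`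
of a monomial by `pord_spec`). `HahnSeries.order` of a sum: use `HahnSeries.coeff k = 0` for `k < -m` (additive), which is the form of the statement. -/
theorem ev_order (h : Model O₁ T E) {o : L → ℤ} (ho : IsOrd C O₁ o) (ε : L →+* LaurentSeries C)
    (hε : ∀ c : C, ε (algebraMap C L c) = HahnSeries.C c) (hεo : ∀ f : L, f ≠ 0 → (ε f).order = o f)
    (ev : WB (T.map (PowerSeries.C (R := C))) →+* LaurentSeries C)
    (hev : ∀ a : PowerSeries C, ev (algebraMap (PowerSeries C) _ a) = HahnSeries.ofPowerSeries ℤ C a)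
    (hev' : ∀ b : WB T, ev (bmap (PowerSeries.C (R := C)) rfl b) = ε (E b)) (m : ℕ)
    (b : WB (T.map (PowerSeries.C (R := C)))) (hb : b ∈ Ble _ m) (k : ℤ) (hk : k < -(m : ℤ)) :
    (ev b).coeff k = 0 := by
  classical
  have h1 : ∀ (n : ℕ) (j : ZMod d) (a : PowerSeries C), d * n + T.w j ≤ m →
      (HahnSeries.ofPowerSeries ℤ C a * ε (E (WB.x T ^ n * WB.f T j))).coeff k = 0 := by
    intro n j a hn
    by_contra hc
    have h2 : E (WB.x T ^ n * WB.f T j) ≠ 0 := by
      intro h3
      exact v3b_pow_ne T n j (h.inj (h3.trans (map_zero E).symm))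
    have h3 : (ε (E (WB.x T ^ n * WB.f T j))).order = -((d * n + T.w j : ℕ) : ℤ) := by
      rw [hεo _ h2, h.ordo o ho _ (v3b_pow_ne T n j), v3b_pord]
    have h4 := HahnSeries.order_le_of_coeff_ne_zero hc
    have h5 : HahnSeries.ofPowerSeries ℤ C a ≠ 0 := by
      intro h6
      rw [h6, zero_mul, HahnSeries.coeff_zero] at hc
      exact hc rfl
    have h6 : 0 ≤ (HahnSeries.ofPowerSeries ℤ C a).order := by
      by_contra h7
      have h8 := fun h9 => h5 (HahnSeries.coeff_order_eq_zero.1 h9)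
      rw [PowerSeries.coeff_coe, if_pos (not_le.1 h7)] at h8
      exact h8 rfl
    rw [HahnSeries.order_mul h5 ((_root_.map_ne_zero ε).2 h2), h3] at h4
    have h7 : ((d * n + T.w j : ℕ) : ℤ) ≤ m := by exact_mod_cast hn
    omega
  have h2 : ev b = ∑ j, ∑ n ∈ (b.co j).support, HahnSeries.ofPowerSeries ℤ C ((b.co j).coeff n) *
      ε (E (WB.x T ^ n * WB.f T j)) := by
    conv_lhs => rw [v3b_sum (PowerSeries.C (R := C)) b]
    rw [map_sum]
    refine Finset.sum_congr rfl fun j _ => ?_
    rw [map_sum]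
    refine Finset.sum_congr rfl fun n _ => ?_
    rw [map_mul, hev, hev']
  rw [h2, HahnSeries.coeff_sum]
  refine Finset.sum_eq_zero fun j _ => ?_
  rw [HahnSeries.coeff_sum]
  refine Finset.sum_eq_zero fun n hn => h1 n j _ ?_
  by_contra hc
  exact (mem_support_iff.1 hn) (hb j n (not_le.1 hc))

end GT
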