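import Mathlib
import Pool.Agent.MP_c1dca2_ag.GT.Base
import Pool.Agent.MP_c1dca2_ag.GT.Defs
import Pool.Agent.MP_c1dca2_ag.GT.P0
import Pool.Agent.MP_c1dca2_ag.GT.P8d
import Pool.Agent.MP_c1dca2_ag.GT.V2b
import Pool.Agent.MP_c1dca2_ag.GT.V2d
import Pool.Agent.MP_c1dca2_ag.GT.V3b
import Pool.Agent.MP_c1dca2_ag.SUP.Defs

set_option autoImplicit false

open Polynomial

namespace GT

/-! ## [GT-V3c] evaluation of power series of functions at the generic point of a formal arc -/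

variable {C L : Type} [Field C] [Field L] [Algebra C L] {O₁ : ValuationSubring L} {d : ℕ} [NeZero d] {T : Tab C d}
  {E : WB T →+* L}

/-- The vanishing at the generic point of the arc.

Proof. Let `s := single 1 1 = ε z`, `ε z⁻¹ = s⁻¹`. For `N ≥ 1` `io_split` gives `ev F = ∑_{j<N} s ^ j ε(E F_j) + s ^ N ev(F')`, `F_j` the coefficient of `io T F`, `E F_j = G_j - z⁻¹ G_(j-1)` (`G_(-1) = 0`), so
`s ^ j ε(E F_j) = s ^ j ε(G_j) - s ^ (j-1) ε(G_(j-1))` and the sum telescopes to `s ^ (N-1) ε(G_(N-1))`, whose coefficients at `k < N - 1 - N₀` vanish (`hG'`, `hεo`); the coefficients of `s ^ N ev(F')` at `k < N - m` vanish (`ev_order`). `N` is arbitrary. -/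
theorem ev_eq_zero (h : Model O₁ T E) {o : L → ℤ} (ho : IsOrd C O₁ o) {z : L} (hz0 : z ≠ 0) (ε : L →+* LaurentSeries C)
    (hεz : ε z = HahnSeries.single 1 1)
    (hε : ∀ c : C, ε (algebraMap C L c) = HahnSeries.C c) (hεo : ∀ f : L, f ≠ 0 → (ε f).order = o f)
    (ev : WB (T.map (PowerSeries.C (R := C))) →+* LaurentSeries C)
    (hev : ∀ a : PowerSeries C, ev (algebraMap (PowerSeries C) _ a) = HahnSeries.ofPowerSeries ℤ C a)
    (hev' : ∀ b : WB T, ev (bmap (PowerSeries.C (R := C)) rfl b) = ε (E b)) (m N₀ : ℕ)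
    (F : WB (T.map (PowerSeries.C (R := C)))) (hF : F ∈ Ble _ m) (G : PowerSeries L)
    (hG : PowerSeries.map E (io T F) = G * (1 - PowerSeries.C z⁻¹ * PowerSeries.X))
    (hG' : ∀ j : ℕ, PowerSeries.coeff j G = 0 ∨ -(N₀ : ℤ) ≤ o (PowerSeries.coeff j G)) :
    ev F = 0 := by
  classical
  have hX : ∀ j : ℕ, HahnSeries.ofPowerSeries ℤ C (PowerSeries.X ^ j) = ε z ^ j := by
    intro j
    rw [map_pow, HahnSeries.ofPowerSeries_X, hεz]
  have hzz : ε z * ε z⁻¹ = 1 := by rw [← map_mul, mul_inv_cancel₀ hz0, map_one]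
  have hs : ∀ (j : ℕ) (y : LaurentSeries C) (k : ℤ), (ε z ^ j * y).coeff k = y.coeff (k - j) := by
    intro j y k
    rw [hεz, HahnSeries.single_pow, one_pow, HahnSeries.coeff_single_mul, one_mul, nsmul_eq_mul, mul_one]
  -- the coefficients
  have hc0 : E (PowerSeries.coeff 0 (io T F)) = PowerSeries.coeff 0 G := by
    rw [← PowerSeries.coeff_map, hG, PowerSeries.coeff_zero_eq_constantCoeff_apply,
      PowerSeries.coeff_zero_eq_constantCoeff_apply, map_mul, map_sub, map_one, map_mul,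
      PowerSeries.constantCoeff_X, mul_zero, sub_zero, mul_one]
  have hc1 : ∀ j : ℕ, E (PowerSeries.coeff (j + 1) (io T F)) =
      PowerSeries.coeff (j + 1) G - z⁻¹ * PowerSeries.coeff j G := by
    intro j
    have e : G * (1 - PowerSeries.C z⁻¹ * PowerSeries.X) = G - PowerSeries.C z⁻¹ * (G * PowerSeries.X) := by ring
    rw [← PowerSeries.coeff_map, hG, e, map_sub, PowerSeries.coeff_C_mul, PowerSeries.coeff_succ_mul_X]
  have htel : ∀ N : ℕ, ∑ j ∈ Finset.range (N + 1), ε z ^ j * ε (E (PowerSeries.coeff j (io T F))) =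
      ε z ^ N * ε (PowerSeries.coeff N G) := by
    intro N
    induction N with
    | zero => rw [Finset.sum_range_one, hc0]
    | succ N ih =>
      rw [Finset.sum_range_succ, ih, hc1, map_sub, map_mul]
      have e : ε z ^ N * ε (PowerSeries.coeff N G) + ε z ^ (N + 1) * (ε (PowerSeries.coeff (N + 1) G) -
          ε z⁻¹ * ε (PowerSeries.coeff N G)) = ε z ^ (N + 1) * ε (PowerSeries.coeff (N + 1) G) +
          ε z ^ N * ε (PowerSeries.coeff N G) * (1 - ε z * ε z⁻¹) := by ring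
      rw [e, hzz, sub_self, mul_zero, add_zero]
  refine HahnSeries.ext ?_
  funext k
  rw [HahnSeries.coeff_zero]
  obtain ⟨N, hN1, hN2⟩ : ∃ N : ℕ, k - N < -(N₀ : ℤ) ∧ k - ((N + 1 : ℕ) : ℤ) < -(m : ℤ) := by
    refine ⟨(k.toNat + N₀ + m + 1), ?_, ?_⟩ <;> push_cast <;> omega
  obtain ⟨F', hF', e⟩ := io_split T m F hF (N + 1)
  have h1 : ev F = ε z ^ N * ε (PowerSeries.coeff N G) + ε z ^ (N + 1) * ev F' := by
    conv_lhs => rw [e]
    rw [map_add, map_sum, map_mul, hev, hX, ← htel]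
    congr 1
    refine Finset.sum_congr rfl fun j _ => ?_
    rw [map_mul, hev, hX, hev']
  rw [h1, HahnSeries.coeff_add, hs, hs, ev_order h ho ε hε hεo ev hev hev' m F' hF' _ hN2, add_zero]
  rcases hG' N with h2 | h2
  · rw [h2, map_zero, HahnSeries.coeff_zero]
  · by_cases h3 : PowerSeries.coeff N G = 0
    · rw [h3, map_zero, HahnSeries.coeff_zero]
    · by_contra h4
      have h5 := HahnSeries.order_le_of_coeff_ne_zero h4
      rw [hεo _ h3] at h5
      omega

end GT
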