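import Mathlib
import Pool.Agent.MP_c1dca2_ag.GT.Base
import Pool.Agent.MP_c1dca2_ag.GT.Defs
import Pool.Agent.MP_c1dca2_ag.GT.V1b
import Pool.Agent.MP_c1dca2_ag.SUP.Defs

set_option autoImplicit false

open Polynomial

namespace GT

/-! ## [GT-V4a] Weierstrass division -/

variable {κ : Type} [Field κ] {d : ℕ} [NeZero d]

theorem v4a_mono {R : Type} [CommRing R] {T : Tab R d} {m m' : ℕ} (h : m ≤ m') : Ble T m ≤ Ble T m' :=
  fun _ hb j n hn => hb j n (lt_of_le_of_lt h hn)

theorem v4a_exists {R : Type} [CommRing R] {T : Tab R d} (b : WB T) : ∃ m, b ∈ Ble T m := by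
  refine ⟨∑ j, (d * (b.co j).natDegree + T.w j), fun j n hn => ?_⟩
  apply coeff_eq_zero_of_natDegree_lt
  by_contra hcon
  push Not at hcon
  have h1 : d * (b.co j).natDegree + T.w j ≤ ∑ j, (d * (b.co j).natDegree + T.w j) :=
    Finset.single_le_sum (f := fun j => d * (b.co j).natDegree + T.w j) (fun _ _ => Nat.zero_le _)
      (Finset.mem_univ j)
  have h2 : d * n ≤ d * (b.co j).natDegree := Nat.mul_le_mul_left _ hcon
  omega

theorem v4a_mem {R : Type} [CommRing R] {T : Tab R d} (b : WB T) (m : ℕ) : b ∈ Ble T m ↔ pord b ≤ m := by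
  have h1 : b ∈ Ble T (pord b) := Nat.sInf_mem (s := {m | b ∈ Ble T m}) (v4a_exists b)
  constructor
  · intro h
    exact Nat.sInf_le (s := {m | b ∈ Ble T m}) h
  · intro h
    exact v4a_mono h h1

theorem v4a_lcf {R : Type} [CommRing R] (T : Tab R d) (j : ZMod d) (n : ℕ) (b : WB T) :
    lcf T (d * n + T.w j) b = (b.co j).coeff n := by
  have hd : 0 < d := Nat.pos_of_ne_zero (NeZero.ne d)
  rw [lcf_apply, Finset.sum_eq_single j]
  · have h1 : d * n + T.w j - T.w j = d * n := by omega
    rw [h1, if_pos ⟨by omega, by rw [Nat.mul_mod_right]⟩, Nat.mul_div_cancel_left _ hd]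
  · intro i _ hi
    rw [if_neg]
    rintro ⟨h1, h2⟩
    apply hi
    obtain ⟨q, hq⟩ := Nat.dvd_of_mod_eq_zero h2
    have h3 : d * q + T.w i = d * n + T.w j := by omega
    exact (T.wt_inj h3).1
  · intro h
    exact absurd (Finset.mem_univ _) h

theorem v4a_pred {R : Type} [CommRing R] {T : Tab R d} {m : ℕ} {b : WB T} (hb : b ∈ Ble T (m + 1))
    (h : lcf T (m + 1) b = 0) : b ∈ Ble T m := by
  intro j n hn
  by_cases h1 : m + 1 < d * n + T.w j
  · exact hb j n h1
  · have h2 : d * n + T.w j = m + 1 := by omega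
    rw [← v4a_lcf, h2, h]

theorem v4a_lcf_zero {R : Type} [CommRing R] {T : Tab R d} {m : ℕ} {b : WB T} (hb : b ∈ Ble T m) :
    lcf T (m + 1) b = 0 := by
  rw [lcf_apply]
  refine Finset.sum_eq_zero fun j _ => ?_
  split_ifs with h
  · obtain ⟨h1, h2⟩ := h
    obtain ⟨q, hq⟩ := Nat.dvd_of_mod_eq_zero h2
    have hd : 0 < d := Nat.pos_of_ne_zero (NeZero.ne d)
    rw [hq, Nat.mul_div_cancel_left _ hd]
    apply hb
    omega
  · rfl

theorem v4a_fin (T : Tab κ d) (m : ℕ) : FiniteDimensional κ (Ble T m) := by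
  let φ : Ble T m →ₗ[κ] (ZMod d → Fin (m + 1) → κ) :=
    { toFun := fun b j n => (b.1.co j).coeff n
      map_add' := fun b c => by
        funext j n
        show ((b.1 + c.1).co j).coeff n = (b.1.co j).coeff n + (c.1.co j).coeff n
        rw [WB.co_add, Pi.add_apply, coeff_add]
      map_smul' := fun r b => by
        funext j n
        show ((r • b.1).co j).coeff n = r • (b.1.co j).coeff n
        rw [WB.co_smul', coeff_smul] }
  have hφ : Function.Injective φ := by
    intro b c h
    apply Subtype.ext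
    refine WB.ext (funext fun j => Polynomial.ext fun n => ?_)
    by_cases hn : n < m + 1
    · exact congrFun (congrFun h j) ⟨n, hn⟩
    · have hd : 0 < d := Nat.pos_of_ne_zero (NeZero.ne d)
      have h1 : m < d * n + T.w j := by
        have : n ≤ d * n := Nat.le_mul_of_pos_left n hd
        omega
      rw [b.2 j n h1, c.2 j n h1]
  have : FiniteDimensional κ (ZMod d → Fin (m + 1) → κ) := inferInstance
  exact FiniteDimensional.of_injective φ hφ

theorem v4a_step (T : Tab κ d) (m : ℕ) (h : ∃ r : WB T, r ≠ 0 ∧ pord r = m + 1) :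
    Module.finrank κ (Ble T (m + 1)) = Module.finrank κ (Ble T m) + 1 := by
  have hf := v4a_fin T (m + 1)
  obtain ⟨r, hr0, hr⟩ := h
  have hr1 : r ∈ Ble T (m + 1) := (v4a_mem _ _).2 hr.le
  have hr2 : lcf T (m + 1) r ≠ 0 := by
    intro h0
    have h1 := (v4a_mem _ _).1 (v4a_pred hr1 h0)
    omega
  let φ : Ble T (m + 1) →ₗ[κ] κ := (lcf T (m + 1)).comp (Ble T (m + 1)).subtype
  have hsurj : Function.Surjective φ := by
    intro c
    refine ⟨(c / lcf T (m + 1) r) • ⟨r, hr1⟩, ?_⟩
    rw [map_smul]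
    show (c / lcf T (m + 1) r) • lcf T (m + 1) r = c
    rw [smul_eq_mul, div_mul_cancel₀ _ hr2]
  have h1 := LinearMap.finrank_range_add_finrank_ker φ
  rw [LinearMap.range_eq_top.2 hsurj, finrank_top, Module.finrank_self] at h1
  have h2 : Module.finrank κ (LinearMap.ker φ) = Module.finrank κ (Ble T m) := by
    have h3 : (LinearMap.ker φ).map (Ble T (m + 1)).subtype = Ble T m := by
      ext b
      constructor
      · rintro ⟨c, hc, rfl⟩
        exact v4a_pred c.2 (LinearMap.mem_ker.1 hc)
      · intro hb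
        exact ⟨⟨b, v4a_mono (Nat.le_succ m) hb⟩, LinearMap.mem_ker.2 (v4a_lcf_zero hb), rfl⟩
    rw [← h3]
    exact (Submodule.equivMapOfInjective (Ble T (m + 1)).subtype Subtype.val_injective (LinearMap.ker φ)).finrank_eq
  omega

/-- The codimension of a principal ideal.

Proof. (`Ble T N`, `pord` multiplicative: the A files; here directly.) Let `m = pord b`, `N` large. The pole orders of elements are the weights `d n + w i`, all numbers `≥ n₀` (`exists_pord`). `pord (b c) = pord b + pord c` (hypothesis `hmul`).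
(1) `WB T = Ble T N + (b)` for `N ≥ n₀ + m`: an element of pole order `M > N` is reduced by a multiple of `b c` with `pord c = M - m ≥ n₀`. (2) `(b) ∩ Ble T N = b (Ble T (N - m))`. (3) `dim Ble T N - dim Ble T (N - m) = m` for
`N - m ≥ n₀` (`dim Ble T N` is the number of weights `≤ N`). So `WB T ⧸ (b) ≅ Ble T N ⧸ b (Ble T (N - m))` has dimension `m`. -/
theorem finrank_span (T : Tab κ d) (hdom : IsDomain (WB T))
    (hmul : ∀ a b : WB T, a ≠ 0 → b ≠ 0 → pord (a * b) = pord a + pord b) (b : WB T) (hb : b ≠ 0) :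
    FiniteDimensional κ (WB T ⧸ Ideal.span {b}) ∧ Module.finrank κ (WB T ⧸ Ideal.span {b}) = pord b := by
  obtain ⟨n₀, hn₀⟩ := exists_pord T
  set m := pord b with hm
  set N := n₀ + m with hN
  have hfN := v4a_fin T N
  -- surjectivity
  have hsur : ∀ (M : ℕ) (a : WB T), pord a ≤ M → ∃ c : WB T, a - b * c ∈ Ble T N := by
    intro M
    induction M with
    | zero =>
      intro a ha
      refine ⟨0, ?_⟩
      rw [mul_zero, sub_zero]
      exact (v4a_mem _ _).2 (by omega)
    | succ M ih =>
      intro a ha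
      by_cases hMN : pord a ≤ N
      · refine ⟨0, ?_⟩
        rw [mul_zero, sub_zero]
        exact (v4a_mem _ _).2 hMN
      by_cases haM : pord a ≤ M
      · exact ih a haM
      have haM' : pord a = M + 1 := by omega
      obtain ⟨r, hr0, hr⟩ := hn₀ (M + 1 - m) (by omega)
      have hbr : pord (b * r) = M + 1 := by
        rw [hmul b r hb hr0, hr]
        omega
      have hbr1 : b * r ∈ Ble T (M + 1) := (v4a_mem _ _).2 hbr.le
      have hbr2 : lcf T (M + 1) (b * r) ≠ 0 := by
        intro h0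
        have h1 := (v4a_mem _ _).1 (v4a_pred hbr1 h0)
        omega
      have ha1 : a ∈ Ble T (M + 1) := (v4a_mem _ _).2 haM'.le
      set t := lcf T (M + 1) a / lcf T (M + 1) (b * r) with ht
      have e1 : b * (t • r) = t • (b * r) := mul_smul_comm t b r
      have h2 : a - b * (t • r) ∈ Ble T M := by
        refine v4a_pred ?_ ?_
        · rw [e1]
          exact (Ble T (M + 1)).sub_mem ha1 ((Ble T (M + 1)).smul_mem t hbr1)
        · rw [e1, map_sub, map_smul, smul_eq_mul, ht, div_mul_cancel₀ _ hbr2, sub_self]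
      obtain ⟨c, hc⟩ := ih (a - b * (t • r)) ((v4a_mem _ _).1 h2)
      refine ⟨t • r + c, ?_⟩
      have e2 : a - b * (t • r + c) = a - b * (t • r) - b * c := by ring
      rw [e2]
      exact hc
  let φ : Ble T N →ₗ[κ] (WB T ⧸ Ideal.span {b}) :=
    (Ideal.Quotient.mkₐ κ (Ideal.span {b})).toLinearMap.comp (Ble T N).subtype
  have hφ : ∀ a : Ble T N, φ a = Ideal.Quotient.mk (Ideal.span {b}) a.1 := fun a => rfl
  have hsurj : Function.Surjective φ := by
    intro q
    obtain ⟨a, rfl⟩ := Ideal.Quotient.mk_surjective q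
    obtain ⟨c, hc⟩ := hsur (pord a) a le_rfl
    refine ⟨⟨a - b * c, hc⟩, ?_⟩
    rw [hφ, Ideal.Quotient.eq, Ideal.mem_span_singleton]
    exact ⟨-c, by ring⟩
  have hfin : FiniteDimensional κ (WB T ⧸ Ideal.span {b}) := Module.Finite.of_surjective φ hsurj
  refine ⟨hfin, ?_⟩
  have h1 := LinearMap.finrank_range_add_finrank_ker φ
  rw [LinearMap.range_eq_top.2 hsurj, finrank_top] at h1
  -- the kernel
  have hker : Module.finrank κ (LinearMap.ker φ) = Module.finrank κ (Ble T n₀) := by
    have hmem : ∀ c : WB T, c ∈ Ble T n₀ ↔ b * c ∈ Ble T N := by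
      intro c
      by_cases hc : c = 0
      · rw [hc, mul_zero]
        exact ⟨fun _ => (Ble T N).zero_mem, fun _ => (Ble T n₀).zero_mem⟩
      · rw [v4a_mem, v4a_mem, hmul b c hb hc]
        omega
    let μ : WB T →ₗ[κ] WB T := LinearMap.mulLeft κ b
    have hμ : Function.Injective μ := fun x y hxy => mul_left_cancel₀ hb hxy
    have h3 : (LinearMap.ker φ).map (Ble T N).subtype = (Ble T n₀).map μ := by
      ext y
      constructor
      · rintro ⟨c, hc, rfl⟩
        have hc' : φ c = 0 := hc
        rw [hφ, Ideal.Quotient.eq_zero_iff_mem, Ideal.mem_span_singleton] at hc'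
        obtain ⟨z, hz⟩ := hc'
        refine ⟨z, (hmem z).2 ?_, hz.symm⟩
        rw [← hz]
        exact c.2
      · rintro ⟨z, hz, rfl⟩
        refine ⟨⟨b * z, (hmem z).1 hz⟩, ?_, rfl⟩
        show φ _ = 0
        rw [hφ, Ideal.Quotient.eq_zero_iff_mem, Ideal.mem_span_singleton]
        exact ⟨z, rfl⟩
    have h4 : Module.finrank κ ((LinearMap.ker φ).map (Ble T N).subtype) =
        Module.finrank κ (LinearMap.ker φ) :=
      (Submodule.equivMapOfInjective (Ble T N).subtype Subtype.val_injective (LinearMap.ker φ)).finrank_eq.symm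
    have h5 : Module.finrank κ ((Ble T n₀).map μ) = Module.finrank κ (Ble T n₀) :=
      (Submodule.equivMapOfInjective μ hμ (Ble T n₀)).finrank_eq.symm
    rw [← h4, h3, h5]
  -- the dimensions
  have hdim : ∀ k : ℕ, Module.finrank κ (Ble T (n₀ + k)) = Module.finrank κ (Ble T n₀) + k := by
    intro k
    induction k with
    | zero => rfl
    | succ k ih =>
      have h2 := v4a_step T (n₀ + k) (hn₀ (n₀ + k + 1) (by omega))
      rw [← add_assoc, h2, ih]
      omega
  have h2 := hdim m
  rw [← hN] at h2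
  omega

end GT
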