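import Mathlib
import Pool.Agent.MP_c1dca2_ag.GT.Base
import Pool.Agent.MP_c1dca2_ag.GT.Defs
import Pool.Agent.MP_c1dca2_ag.GT.V2a
import Pool.Agent.MP_c1dca2_ag.GT.V2d
import Pool.Agent.MP_c1dca2_ag.GT.V4a
import Pool.Agent.MP_c1dca2_ag.SUP.Defs

set_option autoImplicit false

open Polynomial

namespace GT

/-! ## [GT-V4b] Weierstrass division -/

section v4b_abstract

variable {R P : Type} [CommRing R] [AddCommGroup P]

/-- the recursion -/
noncomputable def v4b_seq (E : R → P × R) (ψ s : ℕ → R) : ℕ → P × R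
  | j => E (s j - ∑ k : Fin j, ψ (j - k) * (v4b_seq E ψ s k).2)
termination_by j => j
decreasing_by exact k.2

omit [AddCommGroup P] in
theorem v4b_seq_eq (E : R → P × R) (ψ s : ℕ → R) (j : ℕ) :
    v4b_seq E ψ s j = E (s j - ∑ k ∈ Finset.range j, ψ (j - k) * (v4b_seq E ψ s k).2) := by
  rw [v4b_seq, Finset.sum_range]

/-- existence -/
theorem v4b_exists (L : P →+ R) (ψ : ℕ → R) (hsurj : ∀ r : R, ∃ p y, L p + ψ 0 * y = r) (s : ℕ → R) :
    ∃ (p : ℕ → P) (y : ℕ → R), ∀ j, L (p j) + ∑ k ∈ Finset.range (j + 1), ψ (j - k) * y k = s j := by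
  choose p0 y0 h0 using hsurj
  set g := v4b_seq (fun r => (p0 r, y0 r)) ψ s with hg
  refine ⟨fun j => (g j).1, fun j => (g j).2, fun j => ?_⟩
  have e := v4b_seq_eq (fun r => (p0 r, y0 r)) ψ s j
  rw [← hg] at e
  have e1 := h0 (s j - ∑ k ∈ Finset.range j, ψ (j - k) * (g k).2)
  show L (g j).1 + ∑ k ∈ Finset.range (j + 1), ψ (j - k) * (g k).2 = s j
  rw [Finset.sum_range_succ, Nat.sub_self]
  have e2 : (g j).1 = p0 (s j - ∑ k ∈ Finset.range j, ψ (j - k) * (g k).2) := by rw [e]
  have e3 : (g j).2 = y0 (s j - ∑ k ∈ Finset.range j, ψ (j - k) * (g k).2) := by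
    conv_lhs => rw [e]
  rw [← e2, ← e3] at e1
  linear_combination e1

/-- uniqueness -/
theorem v4b_unique (L : P →+ R) (ψ : ℕ → R) (hinj : ∀ p y, L p + ψ 0 * y = 0 → p = 0 ∧ y = 0) (p : ℕ → P) (y : ℕ → R)
    (h : ∀ j, L (p j) + ∑ k ∈ Finset.range (j + 1), ψ (j - k) * y k = 0) (j : ℕ) : p j = 0 ∧ y j = 0 := by
  induction j using Nat.strong_induction_on with
  | _ j ih =>
    have e := h j
    rw [Finset.sum_range_succ, Nat.sub_self, Finset.sum_eq_zero, zero_add] at e
    · exact hinj _ _ e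
    · intro k hk
      rw [(ih k (Finset.mem_range.1 hk)).2, mul_zero]

theorem v4b_coeff (ψ y : PowerSeries R) (j : ℕ) : PowerSeries.coeff j (ψ * y) =
    ∑ k ∈ Finset.range (j + 1), PowerSeries.coeff (j - k) ψ * PowerSeries.coeff k y := by
  rw [mul_comm, PowerSeries.coeff_mul, Finset.Nat.sum_antidiagonal_eq_sum_range_succ_mk]
  exact Finset.sum_congr rfl fun k _ => mul_comm _ _

end v4b_abstract

variable {κ : Type} [Field κ] {d : ℕ} [NeZero d]

section v4b_alg

variable {R : Type} [CommRing R] [Algebra κ R] {m : ℕ} (e : Fin m → R)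

/-- the linear combination of the `e i` -/
noncomputable def v4b_L : (Fin m → κ) →+ R where
  toFun p := ∑ i, algebraMap κ R (p i) * e i
  map_zero' := by simp
  map_add' p q := by
    rw [← Finset.sum_add_distrib]
    exact Finset.sum_congr rfl fun i _ => by rw [Pi.add_apply, map_add, add_mul]

/-- the map `(a, y) ↦ ∑ a_i e_i + ψ y` -/
noncomputable def v4b_Phi (ψ : PowerSeries R) (z : (Fin m → PowerSeries κ) × PowerSeries R) : PowerSeries R :=
  ∑ i, PowerSeries.map (algebraMap κ R) (z.1 i) * PowerSeries.C (e i) + ψ * z.2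

theorem v4b_Phi_coeff (ψ : PowerSeries R) (z : (Fin m → PowerSeries κ) × PowerSeries R) (j : ℕ) :
    PowerSeries.coeff j (v4b_Phi e ψ z) = v4b_L e (fun i => PowerSeries.coeff j (z.1 i)) +
      ∑ k ∈ Finset.range (j + 1), PowerSeries.coeff (j - k) ψ * PowerSeries.coeff k z.2 := by
  rw [v4b_Phi, map_add, v4b_coeff, map_sum]
  congr 1
  show _ = ∑ i, algebraMap κ R (PowerSeries.coeff j (z.1 i)) * e i
  exact Finset.sum_congr rfl fun i _ => by rw [PowerSeries.coeff_mul_C, PowerSeries.coeff_map]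

theorem v4b_Phi_add (ψ : PowerSeries R) (z z' : (Fin m → PowerSeries κ) × PowerSeries R) :
    v4b_Phi e ψ (z + z') = v4b_Phi e ψ z + v4b_Phi e ψ z' := by
  simp only [v4b_Phi, Prod.fst_add, Prod.snd_add, Pi.add_apply, map_add, add_mul, mul_add, Finset.sum_add_distrib]
  ring

theorem v4b_Phi_smul (ψ : PowerSeries R) (a : PowerSeries κ) (z : (Fin m → PowerSeries κ) × PowerSeries R) :
    v4b_Phi e ψ (a • z.1, PowerSeries.map (algebraMap κ R) a * z.2) = PowerSeries.map (algebraMap κ R) a * v4b_Phi e ψ z := by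
  simp only [v4b_Phi, Pi.smul_apply, smul_eq_mul, map_mul, mul_add, Finset.mul_sum, mul_assoc]
  congr 1
  ring

theorem v4b_Phi_bij (ψ : PowerSeries R)
    (hinj : ∀ (p : Fin m → κ) (y : R), v4b_L e p + PowerSeries.constantCoeff ψ * y = 0 → p = 0 ∧ y = 0)
    (hsurj : ∀ r : R, ∃ (p : Fin m → κ) (y : R), v4b_L e p + PowerSeries.constantCoeff ψ * y = r) :
    Function.Bijective (v4b_Phi (κ := κ) e ψ) := by
  have h0 : PowerSeries.coeff 0 ψ = PowerSeries.constantCoeff ψ := PowerSeries.coeff_zero_eq_constantCoeff_apply ψ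
  constructor
  · intro z z' hz
    have hz0 : v4b_Phi e ψ (z - z') = 0 := by
      have := v4b_Phi_add e ψ (z - z') z'
      rw [sub_add_cancel, hz] at this
      exact right_eq_add.1 this
    have key := v4b_unique (v4b_L (κ := κ) e) (fun k => PowerSeries.coeff k ψ) (fun p y h => hinj p y (by rwa [← h0]))
      (fun j i => PowerSeries.coeff j ((z - z').1 i)) (fun k => PowerSeries.coeff k (z - z').2) (fun j => by
        have := v4b_Phi_coeff e ψ (z - z') j
        rw [hz0, map_zero] at this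
        exact this.symm)
    have h1 : z - z' = 0 := by
      refine Prod.ext ?_ ?_
      · funext i
        refine PowerSeries.ext fun j => ?_
        exact congrFun (key j).1 i
      · refine PowerSeries.ext fun j => ?_
        exact (key j).2
    exact sub_eq_zero.1 h1
  · intro s
    obtain ⟨p, y, h⟩ := v4b_exists (v4b_L (κ := κ) e) (fun k => PowerSeries.coeff k ψ) (fun r => by
      obtain ⟨p, y, h⟩ := hsurj r
      exact ⟨p, y, by rwa [h0]⟩) (fun j => PowerSeries.coeff j s)
    refine ⟨(fun i => PowerSeries.mk fun j => p j i, PowerSeries.mk y), PowerSeries.ext fun j => ?_⟩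
    rw [v4b_Phi_coeff, ← h j]
    simp only [PowerSeries.coeff_mk]

end v4b_alg

/-- Weierstrass division by a power series of functions.

Proof. `R := WB T`, `ψ_0` the constant coefficient, `m = pord ψ_0`; `R ⧸ (ψ_0)` has dimension `m` (`finrank_span`): choose `e_0, ..., e_(m-1) ∈ R` whose classes are a basis, so every element of `R` is uniquely `∑ a_i e_i + ψ_0 y` (`a_i ∈ κ`, `y ∈ R`; `R` is a domain).
Every `s ∈ R⟦X⟧` is uniquely `∑ a_i e_i + ψ y` with `a_i ∈ κ⟦X⟧` (through `PowerSeries.map (algebraMap κ R)`), `y ∈ R⟦X⟧`: compare the coefficients of `X ^ j`: `s_j - ∑_{k≥1} ψ_k y_(j-k) = ∑ (a_i)_j e_i + ψ_0 y_j`, recursion on `j`. `ρ x := (a_i)` for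
`s = io T x`; it is `κ⟦X⟧`-linear by uniqueness (`io T (a • x) = map a * io T x`). -/
theorem weier (T : Tab κ d) (hdom : IsDomain (WB T))
    (hmul : ∀ a b : WB T, a ≠ 0 → b ≠ 0 → pord (a * b) = pord a + pord b) (ψ : PowerSeries (WB T))
    (h0 : PowerSeries.constantCoeff ψ ≠ 0) :
    ∃ (e : Fin (pord (PowerSeries.constantCoeff ψ)) → WB T)
      (ρ : WB (T.map (PowerSeries.C (R := κ))) →ₗ[PowerSeries κ] (Fin (pord (PowerSeries.constantCoeff ψ)) → PowerSeries κ)),
      (∀ x, ρ x = 0 ↔ ψ ∣ io T x) ∧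
      ∀ i, ρ (bmap (PowerSeries.C (R := κ)) rfl (e i)) = Pi.single i 1 := by
  set b := PowerSeries.constantCoeff ψ with hb
  obtain ⟨hfin, hrk⟩ := finrank_span T hdom hmul b h0
  set m := pord b with hm
  let B := Module.finBasisOfFinrankEq κ (WB T ⧸ Ideal.span {b}) hrk
  let q : WB T →ₗ[κ] (WB T ⧸ Ideal.span {b}) := (Ideal.Quotient.mkₐ κ (Ideal.span {b})).toLinearMap
  have hq : Function.Surjective q := Ideal.Quotient.mk_surjective
  have hq0 : ∀ x, q x = 0 ↔ x ∈ Ideal.span {b} := fun x => Ideal.Quotient.eq_zero_iff_mem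
  choose e he using fun i => hq (B i)
  have hLq : ∀ p : Fin m → κ, q (v4b_L e p) = ∑ i, p i • B i := by
    intro p
    show q (∑ i, algebraMap κ (WB T) (p i) * e i) = _
    rw [map_sum]
    refine Finset.sum_congr rfl fun i _ => ?_
    rw [← Algebra.smul_def, map_smul, he]
  have hbq : ∀ y, q (b * y) = 0 := fun y => (hq0 _).2 (Ideal.mul_mem_right _ _ (Ideal.mem_span_singleton_self b))
  have hbij := v4b_Phi_bij (κ := κ) e ψ (by
    intro p y h
    have h1 : q (v4b_L e p) = 0 := by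
      have := congrArg q h
      rwa [map_add, hbq, add_zero, map_zero] at this
    rw [hLq] at h1
    have hp : p = 0 := by
      funext i
      exact (Fintype.linearIndependent_iff.1 B.linearIndependent) p h1 i
    rw [hp, map_zero, zero_add] at h
    exact ⟨hp, (mul_eq_zero.1 h).resolve_left h0⟩) (by
    intro r
    have h1 : q (r - v4b_L e (B.repr (q r))) = 0 := by
      rw [map_sub, hLq, B.sum_repr, sub_self]
    obtain ⟨y, hy⟩ := Ideal.mem_span_singleton'.1 ((hq0 _).1 h1)
    exact ⟨B.repr (q r), y, by rw [mul_comm, hy]; ring⟩)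
  let Φ := Equiv.ofBijective _ hbij
  have hΦ : ∀ s, v4b_Phi e ψ (Φ.symm s) = s := fun s => Φ.apply_symm_apply s
  have hΦ' : ∀ z, Φ.symm (v4b_Phi e ψ z) = z := fun z => Φ.symm_apply_apply z
  let ρ : WB (T.map (PowerSeries.C (R := κ))) →ₗ[PowerSeries κ] (Fin m → PowerSeries κ) :=
    { toFun := fun x => (Φ.symm (io T x)).1
      map_add' := fun x y => by
        have : Φ.symm (io T (x + y)) = Φ.symm (io T x) + Φ.symm (io T y) := by
          rw [← hΦ' (Φ.symm (io T x) + Φ.symm (io T y)), v4b_Phi_add, hΦ, hΦ, map_add]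
        rw [this, Prod.fst_add]
      map_smul' := fun a x => by
        have : Φ.symm (io T (a • x)) = (a • (Φ.symm (io T x)).1,
            PowerSeries.map (algebraMap κ (WB T)) a * (Φ.symm (io T x)).2) := by
          rw [← hΦ' (a • (Φ.symm (io T x)).1, PowerSeries.map (algebraMap κ (WB T)) a * (Φ.symm (io T x)).2),
            v4b_Phi_smul, hΦ, Algebra.smul_def, map_mul, io_alg]
        rw [this, RingHom.id_apply] }
  have hρ : ∀ x, ρ x = (Φ.symm (io T x)).1 := fun _ => rfl
  refine ⟨e, ρ, fun x => ⟨fun h => ?_, fun ⟨y, hy⟩ => ?_⟩, fun i => ?_⟩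
  · rw [hρ] at h
    refine ⟨(Φ.symm (io T x)).2, ?_⟩
    have h1 := hΦ (io T x)
    rw [v4b_Phi, h] at h1
    simpa using h1.symm
  · have h1 : io T x = v4b_Phi e ψ ((0 : Fin m → PowerSeries κ), y) := by
      rw [hy, v4b_Phi]
      simp
    rw [hρ, h1, hΦ']
  · have h1 : io T (bmap (PowerSeries.C (R := κ)) rfl (e i)) = v4b_Phi e ψ ((Pi.single i 1 : Fin m → PowerSeries κ), 0) := by
      rw [io_bmap, v4b_Phi, mul_zero, add_zero, Finset.sum_eq_single i]
      · dsimp only
        rw [Pi.single_eq_same, map_one, one_mul]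
      · intro j _ hj
        dsimp only
        rw [Pi.single_eq_of_ne hj, map_zero, zero_mul]
      · intro h
        exact absurd (Finset.mem_univ _) h
    rw [hρ, h1, hΦ']

end GT
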