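import Mathlib
import Pool.Agent.MP_c1dca2_ag.GT.Base

set_option autoImplicit false

open Polynomial

namespace GT

/-! ## [GT-V4c] the codimension is stable under base change -/

section v4c

variable {A Ω : Type} [CommRing A] [Field Ω] {d : ℕ} [NeZero d]

/-- the monomial `X ^ n f_j` -/
noncomputable def v4c_mon (T : Tab A d) (j : ZMod d) (n : ℕ) : WB T := (X ^ n : A[X]) • WB.f T j

/-- additive maps which agree on the multiples of the monomials are equal -/
theorem v4c_ext {M : Type} [AddCommMonoid M] (T : Tab A d) (φ₁ φ₂ : WB T →+ M)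
    (h : ∀ (a : A) (j : ZMod d) (n : ℕ), φ₁ (a • v4c_mon T j n) = φ₂ (a • v4c_mon T j n)) : φ₁ = φ₂ := by
  have key : ∀ (j : ZMod d) (p : A[X]), φ₁ (p • WB.f T j) = φ₂ (p • WB.f T j) := by
    intro j p
    induction p using Polynomial.induction_on' with
    | add p q hp hq => rw [add_smul, map_add, map_add, hp, hq]
    | monomial n a =>
      have e : (monomial n a : A[X]) • WB.f T j = a • v4c_mon T j n := by
        rw [v4c_mon, ← smul_assoc, smul_X_eq_monomial]
      rw [e]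
      exact h a j n
  refine AddMonoidHom.ext fun b => ?_
  rw [← WB.sum_f b, map_sum, map_sum]
  exact Finset.sum_congr rfl fun j _ => key j _

/-- the induction principle -/
theorem v4c_ind (T : Tab A d) {P : WB T → Prop} (h0 : P 0) (hadd : ∀ x y, P x → P y → P (x + y))
    (h : ∀ (a : A) (j : ZMod d) (n : ℕ), P (a • v4c_mon T j n)) (b : WB T) : P b := by
  have key : ∀ (j : ZMod d) (p : A[X]), P (p • WB.f T j) := by
    intro j p
    induction p using Polynomial.induction_on' with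
    | add p q hp hq => rw [add_smul]; exact hadd _ _ hp hq
    | monomial n a =>
      have e : (monomial n a : A[X]) • WB.f T j = a • v4c_mon T j n := by
        rw [v4c_mon, ← smul_assoc, smul_X_eq_monomial]
      rw [e]
      exact h a j n
  rw [← WB.sum_f b]
  exact Finset.sum_induction _ P hadd h0 fun j _ => key j _

theorem v4c_bmap (u : A →+* Ω) {T₁ : Tab A d} {T₂ : Tab Ω d} (h : T₁.map u = T₂) (j : ZMod d) (n : ℕ) :
    bmap u h (v4c_mon T₁ j n) = v4c_mon T₂ j n := by
  rw [v4c_mon, bmap_smul, bmap_f, Polynomial.map_pow, map_X]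
  rfl

/-- the coordinate as a linear map -/
noncomputable def v4c_co (T : Tab Ω d) (j : ZMod d) : WB T →ₗ[Ω] (Polynomial Ω) where
  toFun b := b.co j
  map_add' _ _ := rfl
  map_smul' _ _ := rfl

/-- the extension of `ρ` -/
noncomputable def v4c_rho (u : A →+* Ω) (T₁ : Tab A d) (T₂ : Tab Ω d) {m : ℕ} (ρ : WB T₁ →ₗ[A] (Fin m → A)) :
    WB T₂ →ₗ[Ω] (Fin m → Ω) :=
  ∑ j, (Polynomial.lsum (fun n => LinearMap.toSpanSingleton Ω (Fin m → Ω)
    (fun i => u (ρ (v4c_mon T₁ j n) i)))) ∘ₗ v4c_co T₂ j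

theorem v4c_rho_mon (u : A →+* Ω) {T₁ : Tab A d} (T₂ : Tab Ω d) {m : ℕ} (ρ : WB T₁ →ₗ[A] (Fin m → A))
    (c : Ω) (j : ZMod d) (n : ℕ) :
    v4c_rho u T₁ T₂ ρ (c • v4c_mon T₂ j n) = c • fun i => u (ρ (v4c_mon T₁ j n) i) := by
  rw [map_smul]
  congr 1
  rw [v4c_rho, LinearMap.sum_apply, Finset.sum_eq_single j]
  · rw [LinearMap.comp_apply]
    have e : v4c_co T₂ j (v4c_mon T₂ j n) = (monomial n 1 : (Polynomial Ω)) := by
      show ((X ^ n : (Polynomial Ω)) • WB.f T₂ j).co j = _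
      rw [WB.co_smul, WB.f_co, Pi.single_eq_same, mul_one, X_pow_eq_monomial]
    rw [e, Polynomial.lsum_apply, Polynomial.sum_monomial_index]
    · rw [LinearMap.toSpanSingleton_apply, one_smul]
    · rw [map_zero]
  · intro i _ hi
    rw [LinearMap.comp_apply]
    have e : v4c_co T₂ i (v4c_mon T₂ j n) = 0 := by
      show ((X ^ n : (Polynomial Ω)) • WB.f T₂ j).co i = _
      rw [WB.co_smul, WB.f_co, Pi.single_eq_of_ne hi, mul_zero]
    rw [e, map_zero]
  · intro hj
    exact absurd (Finset.mem_univ _) hj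

theorem v4c_rho_bmap (u : A →+* Ω) {T₁ : Tab A d} {T₂ : Tab Ω d} (h : T₁.map u = T₂) {m : ℕ}
    (ρ : WB T₁ →ₗ[A] (Fin m → A)) (y : WB T₁) : v4c_rho u T₁ T₂ ρ (bmap u h y) = fun i => u (ρ y i) := by
  have key := v4c_ext T₁ ((v4c_rho u T₁ T₂ ρ).toAddMonoidHom.comp (bmap u h : WB T₁ →+* WB T₂).toAddMonoidHom)
    (AddMonoidHom.comp (AddMonoidHom.pi fun i => u.toAddMonoidHom.comp (Pi.evalAddMonoidHom (fun _ : Fin m => A) i))
      ρ.toAddMonoidHom) (by
      intro a j n
      show v4c_rho u T₁ T₂ ρ (bmap u h (a • v4c_mon T₁ j n)) = fun i => u (ρ (a • v4c_mon T₁ j n) i)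
      rw [bmap_smul', v4c_bmap, v4c_rho_mon]
      funext i
      rw [map_smul, Pi.smul_apply, Pi.smul_apply, smul_eq_mul, smul_eq_mul, map_mul])
  exact DFunLike.congr_fun key y

end v4c

/-- Proof. `J₂ := J.map (bmap u h)`. (`≤`) The classes of the `bmap u h (e i)` span the quotient: every element of `WB T₂` is an `Ω`-combination of the monomials `X ^ n f_j = bmap u h (X ^ n f_j)`, and for `y ∈ WB T₁`,
`y - ∑ (ρ y)_i • e i ∈ J` (its `ρ` is zero). (`≥`) Define the `Ω`-linear map `ρ₂ : WB T₂ → (Fin m → Ω)` on the monomials by `ρ₂ (X ^ n f_j) = u (ρ (X ^ n f_j))` (coordinates: `ρ₂ b = ∑_(j,n) (b.co j).coeff n • u(ρ(X ^ n f_j))`). Then `ρ₂ (bmap u h y) = u(ρ y)` for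
all `y ∈ WB T₁` (`ρ` is `A`-linear), and `ρ₂` vanishes on `J₂`: an element of `J₂` is a sum of `b * bmap u h y`, `y ∈ J`, `b` a combination of monomials `μ = bmap u h μ`, `μ y ∈ J`. `ρ₂ (bmap u h (e i)) = Pi.single i 1`. So the quotient is isomorphic to `Fin m → Ω`. -/
theorem finrank_descent {A Ω : Type} [CommRing A] [Field Ω] {d : ℕ} [NeZero d] (u : A →+* Ω) {T₁ : Tab A d} {T₂ : Tab Ω d}
    (h : T₁.map u = T₂) (J : Ideal (WB T₁)) (m : ℕ) (ρ : WB T₁ →ₗ[A] (Fin m → A)) (e : Fin m → WB T₁)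
    (hρ : ∀ x, ρ x = 0 ↔ x ∈ J) (he : ∀ i, ρ (e i) = Pi.single i 1) :
    FiniteDimensional Ω (WB T₂ ⧸ J.map (bmap u h)) ∧ Module.finrank Ω (WB T₂ ⧸ J.map (bmap u h)) = m := by
  set J₂ := J.map (bmap u h) with hJ₂
  set ρ₂ := v4c_rho u T₁ T₂ ρ with hρ₂
  have hb : ∀ y, ρ₂ (bmap u h y) = fun i => u (ρ y i) := v4c_rho_bmap u h ρ
  -- `ρ₂` vanishes on `J₂`
  have h1 : ∀ (b : WB T₂) (y : WB T₁), y ∈ J → ρ₂ (b * bmap u h y) = 0 := by
    intro b y hy
    refine v4c_ind T₂ (P := fun b => ρ₂ (b * bmap u h y) = 0) ?_ ?_ ?_ b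
    · rw [zero_mul, map_zero]
    · intro x z hx hz
      rw [add_mul, map_add, hx, hz, add_zero]
    · intro c j n
      rw [← v4c_bmap u h, smul_mul_assoc, ← map_mul, map_smul, hb, (hρ _).2 (J.mul_mem_left _ hy)]
      funext i
      simp
  have h2 : ∀ z ∈ J₂, ρ₂ z = 0 := by
    intro z hz
    rw [hJ₂, Ideal.map] at hz
    induction hz using Submodule.span_induction with
    | mem x hx =>
      obtain ⟨y, hy, rfl⟩ := hx
      have := h1 1 y hy
      rwa [one_mul] at this
    | zero => rw [map_zero]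
    | add x y _ _ hx hy => rw [map_add, hx, hy, add_zero]
    | smul a x hx' hx =>
      -- need the stronger statement
      clear hx
      rw [smul_eq_mul]
      induction hx' using Submodule.span_induction generalizing a with
      | mem x hx =>
        obtain ⟨y, hy, rfl⟩ := hx
        exact h1 a y hy
      | zero => rw [mul_zero, map_zero]
      | add x y _ _ hx hy => rw [mul_add, map_add, hx, hy, add_zero]
      | smul b x _ hx => rw [smul_eq_mul, ← mul_assoc]; exact hx (a * b)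
  -- reduction modulo `J₂`
  have h3 : ∀ z : WB T₂, z - ∑ i, ρ₂ z i • bmap u h (e i) ∈ J₂ := by
    intro z
    refine v4c_ind T₂ (P := fun z => z - ∑ i, ρ₂ z i • bmap u h (e i) ∈ J₂) ?_ ?_ ?_ z
    · simp
    · intro x y hx hy
      have e1 : x + y - ∑ i, ρ₂ (x + y) i • bmap u h (e i) =
          (x - ∑ i, ρ₂ x i • bmap u h (e i)) + (y - ∑ i, ρ₂ y i • bmap u h (e i)) := by
        simp only [map_add, Pi.add_apply, add_smul, Finset.sum_add_distrib]
        abel
      rw [e1]
      exact J₂.add_mem hx hy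
    · intro c j n
      have hy : v4c_mon T₁ j n - ∑ i, ρ (v4c_mon T₁ j n) i • e i ∈ J := by
        rw [← hρ, map_sub, map_sum]
        funext k
        simp only [map_smul, he, Pi.sub_apply, Finset.sum_apply, Pi.smul_apply, smul_eq_mul, Pi.zero_apply]
        rw [Finset.sum_eq_single k]
        · rw [Pi.single_eq_same, mul_one, sub_self]
        · intro i _ hi
          rw [Pi.single_eq_of_ne hi.symm, mul_zero]
        · intro hk
          exact absurd (Finset.mem_univ _) hk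
      have hz := Ideal.mem_map_of_mem (bmap u h) hy
      have e1 : c • v4c_mon T₂ j n - ∑ i, ρ₂ (c • v4c_mon T₂ j n) i • bmap u h (e i) =
          c • bmap u h (v4c_mon T₁ j n - ∑ i, ρ (v4c_mon T₁ j n) i • e i) := by
        rw [map_sub, v4c_bmap, map_sum, smul_sub, Finset.smul_sum]
        congr 1
        refine Finset.sum_congr rfl fun i _ => ?_
        rw [hρ₂, v4c_rho_mon, bmap_smul', Pi.smul_apply, smul_assoc]
      rw [e1, Algebra.smul_def]
      exact J₂.mul_mem_left _ hz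
  have hker : ∀ z, ρ₂ z = 0 ↔ z ∈ J₂ := by
    intro z
    refine ⟨fun hz => ?_, h2 z⟩
    have := h3 z
    rw [hz] at this
    simpa using this
  have hsurj : Function.Surjective ρ₂ := by
    intro y
    refine ⟨∑ i, y i • bmap u h (e i), ?_⟩
    rw [map_sum]
    funext k
    rw [Finset.sum_apply, Finset.sum_eq_single k]
    · rw [map_smul, hb, he, Pi.smul_apply, Pi.single_eq_same, map_one, smul_eq_mul, mul_one]
    · intro i _ hi
      rw [map_smul, hb, he, Pi.smul_apply, Pi.single_eq_of_ne hi.symm, map_zero, smul_zero]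
    · intro hk
      exact absurd (Finset.mem_univ _) hk
  let q : WB T₂ →ₗ[Ω] (WB T₂ ⧸ J₂) := (Ideal.Quotient.mkₐ Ω J₂).toLinearMap
  have hq : Function.Surjective q := Ideal.Quotient.mk_surjective
  have hkq : LinearMap.ker q = LinearMap.ker ρ₂ := by
    ext z
    rw [LinearMap.mem_ker, LinearMap.mem_ker, hker z]
    exact Ideal.Quotient.eq_zero_iff_mem
  let E : (WB T₂ ⧸ J₂) ≃ₗ[Ω] (Fin m → Ω) :=
    (q.quotKerEquivOfSurjective hq).symm ≪≫ₗ (Submodule.quotEquivOfEq _ _ hkq) ≪≫ₗ (ρ₂.quotKerEquivOfSurjective hsurj)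
  refine ⟨LinearEquiv.finiteDimensional E.symm, ?_⟩
  rw [E.finrank_eq, Module.finrank_fin_fun]

end GT
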