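import Mathlib
import Pool.Agent.MP_c1dca2_ag.GT.Base
import Pool.Agent.MP_c1dca2_ag.GT.Defs
import Pool.Agent.MP_c1dca2_ag.GT.GR1b
import Pool.Agent.MP_c1dca2_ag.SUP.Defs
import Pool.Agent.MP_c1dca2_ag.SUP.L1

set_option autoImplicit false

open Polynomial

namespace GT

/-! ## [GT-V4d] the codimension is stable under base change -/

theorem v4d_step {κ A : Type} [Field κ] [CommRing A] [IsDedekindDomain A] [Algebra κ A]
    (ψ : A →ₐ[κ] κ) {Q I : Ideal A} (hψ : RingHom.ker ψ = Q) (hQ : Q.IsMaximal) (hQ0 : Q ≠ ⊥)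
    (hI : I ≠ ⊥) (hf : FiniteDimensional κ (A ⧸ I)) :
    FiniteDimensional κ (A ⧸ (Q * I)) ∧
      Module.finrank κ (A ⧸ (Q * I)) = Module.finrank κ (A ⧸ I) + 1 := by
  have hle : Q * I ≤ I := Ideal.mul_le_right
  have hlen : len (Q * I) = 1 + len I := by
    rw [SUP.len_mul hQ0 hI, SUP.len_maximal hQ hQ0]
  obtain ⟨a, haI, haQ⟩ : ∃ a ∈ I, a ∉ Q * I := by
    by_contra h
    push Not at h
    have h1 : Q * I = I := le_antisymm hle h
    rw [h1] at hlen
    omega
  -- the map `b ↦ b a`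
  let φ : A →ₗ[κ] A ⧸ (Q * I) :=
    (Ideal.Quotient.mkₐ κ (Q * I)).toLinearMap ∘ₗ LinearMap.mulRight κ a
  have hφ : ∀ b, φ b = Ideal.Quotient.mk (Q * I) (b * a) := fun b => rfl
  have hker : LinearMap.ker φ = LinearMap.ker ψ.toLinearMap := by
    let K : Ideal A := (Q * I).colon (Ideal.span {a})
    have hK : ∀ b, b ∈ K ↔ b * a ∈ Q * I := fun b => by
      show b ∈ (Q * I).colon (Ideal.span {a}) ↔ _
      rw [Submodule.mem_colon]
      constructor
      · intro h
        exact h a (Ideal.mem_span_singleton_self a)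
      · intro h p hp
        obtain ⟨c, rfl⟩ := Ideal.mem_span_singleton.1 hp
        rw [smul_eq_mul, ← mul_assoc]
        exact Ideal.mul_mem_right _ _ h
    have hQK : Q ≤ K := fun b hb => (hK b).2 (Ideal.mul_mem_mul hb haI)
    have hKt : K ≠ ⊤ := fun h => haQ (by
      have h1 : (1 : A) ∈ K := by rw [h]; exact Submodule.mem_top
      rw [hK, one_mul] at h1
      exact h1)
    have hQKe : Q = K := hQ.eq_of_le hKt hQK
    ext b
    rw [LinearMap.mem_ker, LinearMap.mem_ker, hφ, Ideal.Quotient.eq_zero_iff_mem, ← hK, ← hQKe,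
      ← hψ, RingHom.mem_ker]
    rfl
  let π : (A ⧸ (Q * I)) →ₗ[κ] (A ⧸ I) := (Ideal.Quotient.factorₐ κ hle).toLinearMap
  have hπ : ∀ b, π (Ideal.Quotient.mk (Q * I) b) = Ideal.Quotient.mk I b := fun b => rfl
  have hπs : Function.Surjective π := by
    intro y
    obtain ⟨b, rfl⟩ := Ideal.Quotient.mk_surjective y
    exact ⟨Ideal.Quotient.mk (Q * I) b, rfl⟩
  have hrange : LinearMap.range φ = LinearMap.ker π := by
    have hsup : Ideal.span {a} ⊔ Q * I = I := by
      have h1 : Ideal.span {a} ⊔ Q * I ≤ I :=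
        sup_le ((Ideal.span_singleton_le_iff_mem _).2 haI) hle
      have h2 : Q * I ≤ Ideal.span {a} ⊔ Q * I := le_sup_right
      have hQI : Q * I ≠ ⊥ := mul_ne_zero hQ0 hI
      have h3 : Ideal.span {a} ⊔ Q * I ≠ ⊥ := fun h => hQI (le_bot_iff.1 (h ▸ h2))
      have h4 := SUP.len_mono h3 h1
      have h5 := SUP.len_mono hQI h2
      have h6 : len (Ideal.span {a} ⊔ Q * I) ≠ len (Q * I) := fun h => haQ (by
        rw [SUP.eq_of_len_eq hQI h2 h.symm]
        exact (le_sup_left : Ideal.span {a} ≤ _) (Ideal.mem_span_singleton_self a))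
      exact SUP.eq_of_len_eq h3 h1 (by omega)
    ext y
    obtain ⟨b, rfl⟩ := Ideal.Quotient.mk_surjective y
    rw [LinearMap.mem_ker, hπ, Ideal.Quotient.eq_zero_iff_mem, LinearMap.mem_range]
    constructor
    · rintro ⟨c, hc⟩
      rw [hφ, Ideal.Quotient.eq] at hc
      have h1 := hle hc
      have h2 : b = c * a - (c * a - b) := by ring
      rw [h2]
      exact I.sub_mem (I.mul_mem_left _ haI) h1
    · intro hb
      rw [← hsup, Submodule.mem_sup] at hb
      obtain ⟨y, hy, z, hz, rfl⟩ := hb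
      obtain ⟨c, rfl⟩ := Ideal.mem_span_singleton.1 hy
      refine ⟨c, ?_⟩
      rw [hφ, Ideal.Quotient.eq]
      have h1 : c * a - (a * c + z) = -z := by ring
      rw [h1]
      exact Ideal.neg_mem_iff _ |>.2 hz
  have hψs : LinearMap.range ψ.toLinearMap = ⊤ := by
    rw [LinearMap.range_eq_top]
    intro c
    exact ⟨algebraMap κ A c, ψ.commutes c⟩
  let e : LinearMap.ker π ≃ₗ[κ] (⊤ : Submodule κ κ) :=
    (LinearEquiv.ofEq _ _ hrange.symm).trans (φ.quotKerEquivRange.symm.trans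
      ((Submodule.quotEquivOfEq _ _ hker).trans (ψ.toLinearMap.quotKerEquivRange.trans
        (LinearEquiv.ofEq _ _ hψs))))
  have hkf : FiniteDimensional κ (LinearMap.ker π) := e.symm.finiteDimensional
  have hkr : Module.finrank κ (LinearMap.ker π) = 1 := by
    rw [e.finrank_eq, finrank_top, Module.finrank_self]
  have hqf : FiniteDimensional κ ((A ⧸ (Q * I)) ⧸ LinearMap.ker π) :=
    (π.quotKerEquivOfSurjective hπs).symm.finiteDimensional
  have hfin : FiniteDimensional κ (A ⧸ (Q * I)) :=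
    Module.Finite.of_submodule_quotient (LinearMap.ker π)
  refine ⟨hfin, ?_⟩
  have h1 := LinearMap.finrank_range_add_finrank_ker π
  rw [LinearMap.range_eq_top.2 hπs, finrank_top, hkr] at h1
  exact h1.symm

/-- Over an algebraically closed field the codimension of an ideal of the Dedekind domain `WB T` is the number of its prime factors.

Proof. Induction over the factorisation (`SUP.ideal_ind`, `SUP.len_mul`, `SUP.len_maximal`, `SUP.len_top`; `WB T ⧸ ⊤ = 0`). For `Q` maximal, `I ≠ ⊥`: the kernel of the surjection `WB T ⧸ (Q * I) → WB T ⧸ I` is `I ⧸ (Q * I)`, a vector space of dimension `1` over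
`WB T ⧸ Q = κ` (`exists_eval`; `I ⧸ Q I` is a one-dimensional `WB T ⧸ Q`-vector space: Mathlib `Ideal.rank_pow_quot`-like results, or: choose `a ∈ I ∖ Q I`; `(a) + Q I = I` because `Q I ≤ (a) + Q I ≤ I` and there is nothing strictly between (`SUP.between`), so the map
`WB T → I ⧸ Q I`, `b ↦ b a`, is surjective with kernel containing `Q`, so equal to `Q`). -/
theorem finrank_quot {κ : Type} [Field κ] [IsAlgClosed κ] {d : ℕ} [NeZero d] (T : Tab κ d) [IsDedekindDomain (WB T)]
    (hnf : ¬ IsField (WB T)) (J : Ideal (WB T)) (hJ : J ≠ ⊥) :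
    FiniteDimensional κ (WB T ⧸ J) ∧ Module.finrank κ (WB T ⧸ J) = len J := by
  refine SUP.ideal_ind (P := fun J : Ideal (WB T) =>
    FiniteDimensional κ (WB T ⧸ J) ∧ Module.finrank κ (WB T ⧸ J) = len J) ?_ ?_ J hJ
  · have hs : Subsingleton (WB T ⧸ (⊤ : Ideal (WB T))) := Ideal.Quotient.subsingleton_iff.2 rfl
    refine ⟨inferInstance, ?_⟩
    rw [Module.finrank_zero_of_subsingleton, SUP.len_top]
  · intro Q I hQ hQ0 hI ih
    obtain ⟨ψ, hψ⟩ := exists_eval Q hQ
    obtain ⟨h1, h2⟩ := v4d_step ψ hψ hQ hQ0 hI ih.1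
    refine ⟨h1, ?_⟩
    rw [h2, ih.2, SUP.len_mul hQ0 hI, SUP.len_maximal hQ hQ0, add_comm]

end GT
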