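import Mathlib
import Pool.Agent.MP_c1dca2_ag.GT.Base
import Pool.Agent.MP_c1dca2_ag.GT.Defs
import Pool.Agent.MP_c1dca2_ag.GT.P0
import Pool.Agent.MP_c1dca2_ag.GT.P7a
import Pool.Agent.MP_c1dca2_ag.GT.P8d
import Pool.Agent.MP_c1dca2_ag.GT.V2d
import Pool.Agent.MP_c1dca2_ag.SUP.Defs

set_option autoImplicit false

open Polynomial

namespace GT

/-! ## [GT-V5] the ideal of a power series of functions does not vanish at the generic point of the arc -/

variable {C L : Type} [Field C] [Field L] [Algebra C L] {O₁ : ValuationSubring L} {d : ℕ} [NeZero d] {T : Tab C d}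
  {E : WB T →+* L}

theorem v5_x_co (j : ZMod d) : (WB.x T).co j = if j = 0 then X else 0 := WB.algebraMap_co _ _

theorem v5_x_ne : WB.x T ≠ 0 := by
  intro h0
  have := congrArg (fun b : WB T => b.co 0) h0
  simp only [v5_x_co, if_pos] at this
  exact X_ne_zero this

theorem v5_pord_x : pord (WB.x T) = d := by
  obtain ⟨i, n, h1, h2, -⟩ := pord_spec (WB.x T) v5_x_ne
  rw [v5_x_co] at h1
  split_ifs at h1 with hi
  · rw [coeff_X] at h1
    split_ifs at h1 with hn
    · rw [h2, hi, ← hn, T.w_zero]; ring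
    · exact absurd rfl h1
  · rw [coeff_zero] at h1
    exact absurd rfl h1

theorem v5_order_nonneg (a : PowerSeries C) : 0 ≤ (HahnSeries.ofPowerSeries ℤ C a).order := by
  by_contra hneg
  push Not at hneg
  by_cases h0 : HahnSeries.ofPowerSeries ℤ C a = 0
  · rw [h0, HahnSeries.order_zero] at hneg
    exact lt_irrefl _ hneg
  · have h1 : (HahnSeries.ofPowerSeries ℤ C a).coeff (HahnSeries.ofPowerSeries ℤ C a).order ≠ 0 :=
      fun h => h0 (HahnSeries.coeff_order_eq_zero.mp h)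
    apply h1
    have := PowerSeries.coeff_coe (f := a) (HahnSeries.ofPowerSeries ℤ C a).order
    rw [if_pos hneg] at this
    exact this

theorem v5_combo (s : LaurentSeries C) (hs : s ≠ 0) (hneg : s.order < 0) (N : ℕ)
    (c : Fin N → PowerSeries C) :
    s ^ N - ∑ i, HahnSeries.ofPowerSeries ℤ C (c i) * s ^ (i : ℕ) ≠ 0 := by
  intro h0
  have h1 := congrArg (fun y : LaurentSeries C => y.coeff ((N : ℤ) * s.order)) h0
  simp only [HahnSeries.coeff_sub, HahnSeries.coeff_zero, HahnSeries.coeff_sum] at h1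
  rw [Finset.sum_eq_zero, sub_zero] at h1
  · have h2 : (s ^ N).order = (N : ℤ) * s.order := by
      rw [HahnSeries.order_pow, nsmul_eq_mul]
    rw [← h2] at h1
    exact pow_ne_zero N hs (HahnSeries.coeff_order_eq_zero.mp h1)
  · intro i _
    by_cases h3 : HahnSeries.ofPowerSeries ℤ C (c i) = 0
    · rw [h3, zero_mul, HahnSeries.coeff_zero]
    · apply HahnSeries.coeff_eq_zero_of_lt_order
      rw [HahnSeries.order_mul h3 (pow_ne_zero _ hs), HahnSeries.order_pow, nsmul_eq_mul]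
      have h4 := v5_order_nonneg (c i)
      have h5 : ((i : ℕ) : ℤ) < N := by exact_mod_cast i.2
      nlinarith

/-- Proof. `K := {x : ψ ∣ io T x}` is an ideal of `W := WB (T.map C)` (the comap of the ideal `(ψ)`), the kernel of `ρ`, so `W ⧸ K` embeds into the finite free module `C⟦X⟧ ^ m` over the Noetherian ring `C⟦X⟧` and is a finite `C⟦X⟧`-module. So `WB.x` is integral modulo `K`
(`IsIntegral.of_finite`): there is a monic `p ∈ C⟦X⟧[Y]` with `p(x) ∈ K`. `ev (p(x)) = ∑ a_i s_x ^ i` with `s_x := ε (E (WB.x T))` of order `-d < 0` (`h.ordo`, `pord (WB.x T) = d`, `hεo`), `a_i` power series (order `≥ 0`), `a_N = 1`: the coefficient at `- d N` of the term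
`s_x ^ N` is not zero and those of the other terms vanish, so `ev (p(x)) ≠ 0`. -/
theorem exists_not_ev (h : Model O₁ T E) {o : L → ℤ} (ho : IsOrd C O₁ o) (ε : L →+* LaurentSeries C)
    (hε : ∀ c : C, ε (algebraMap C L c) = HahnSeries.C c) (hεo : ∀ f : L, f ≠ 0 → (ε f).order = o f)
    (ev : WB (T.map (PowerSeries.C (R := C))) →+* LaurentSeries C)
    (hev : ∀ a : PowerSeries C, ev (algebraMap (PowerSeries C) _ a) = HahnSeries.ofPowerSeries ℤ C a)
    (hev' : ∀ b : WB T, ev (bmap (PowerSeries.C (R := C)) rfl b) = ε (E b)) (ψ : PowerSeries (WB T)) (m : ℕ)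
    (ρ : WB (T.map (PowerSeries.C (R := C))) →ₗ[PowerSeries C] (Fin m → PowerSeries C)) (hρ : ∀ x, ρ x = 0 ↔ ψ ∣ io T x) :
    ∃ x : WB (T.map (PowerSeries.C (R := C))), ψ ∣ io T x ∧ ev x ≠ 0 := by
  obtain ⟨x, hx⟩ : ∃ x : WB (T.map (PowerSeries.C (R := C))), x = WB.x _ := ⟨_, rfl⟩
  obtain ⟨f, hf⟩ : ∃ f : ℕ →o Submodule (PowerSeries C) (Fin m → PowerSeries C),
      ∀ n, f n = Submodule.span (PowerSeries C) ((fun i : ℕ => ρ (x ^ i)) '' Set.Iio n) :=
    ⟨⟨fun n => Submodule.span (PowerSeries C) ((fun i : ℕ => ρ (x ^ i)) '' Set.Iio n),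
      fun a b hab => Submodule.span_mono (Set.image_mono (Set.Iio_subset_Iio hab))⟩, fun _ => rfl⟩
  obtain ⟨N, hN⟩ := monotone_stabilizes_iff_noetherian.mpr
    (inferInstance : IsNoetherian (PowerSeries C) (Fin m → PowerSeries C)) f
  have h1 : ρ (x ^ N) ∈ f N := by
    rw [hN (N + 1) (Nat.le_succ N), hf]
    exact Submodule.subset_span ⟨N, Nat.lt_succ_self N, rfl⟩
  rw [hf] at h1
  have h2 : (fun i : ℕ => ρ (x ^ i)) '' Set.Iio N = Set.range (fun i : Fin N => ρ (x ^ (i : ℕ))) := by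
    ext y
    constructor
    · rintro ⟨i, hi, rfl⟩
      exact ⟨⟨i, hi⟩, rfl⟩
    · rintro ⟨i, rfl⟩
      exact ⟨i, i.2, rfl⟩
  rw [h2, Submodule.mem_span_range_iff_exists_fun] at h1
  obtain ⟨c, hc⟩ := h1
  refine ⟨x ^ N - ∑ i, c i • x ^ (i : ℕ), ?_, ?_⟩
  · rw [← hρ, map_sub, map_sum, ← hc, sub_eq_zero]
    exact Finset.sum_congr rfl fun i _ => by rw [map_smul]
  · have hevx : ev x = ε (E (WB.x T)) := by
      rw [hx, ← hev', bmap_x]
    have hEx : E (WB.x T) ≠ 0 := fun h0 => v5_x_ne (h.inj (by rw [h0, map_zero]))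
    have hs : ev x ≠ 0 := by
      rw [hevx]
      exact (map_ne_zero ε).mpr hEx
    have hord : (ev x).order < 0 := by
      rw [hevx, hεo _ hEx, h.ordo o ho _ v5_x_ne, v5_pord_x]
      have := NeZero.pos d
      omega
    have h3 : ev (x ^ N - ∑ i, c i • x ^ (i : ℕ)) =
        ev x ^ N - ∑ i, HahnSeries.ofPowerSeries ℤ C (c i) * ev x ^ (i : ℕ) := by
      rw [map_sub, map_pow, map_sum]
      congr 1
      exact Finset.sum_congr rfl fun i _ => by rw [Algebra.smul_def, map_mul, hev, map_pow]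
    rw [h3]
    exact v5_combo _ hs hord N c

end GT
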