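import Mathlib
import Pool.Agent.MP_c1dca2_ag.GT.Base
import Pool.Agent.MP_c1dca2_ag.GT.Defs
import Pool.Agent.MP_c1dca2_ag.GT.GR1b
import Pool.Agent.MP_c1dca2_ag.GT.GR4c
import Pool.Agent.MP_c1dca2_ag.GT.P0
import Pool.Agent.MP_c1dca2_ag.GT.P4c
import Pool.Agent.MP_c1dca2_ag.GT.P7a
import Pool.Agent.MP_c1dca2_ag.GT.P8d
import Pool.Agent.MP_c1dca2_ag.GT.V0b
import Pool.Agent.MP_c1dca2_ag.GT.V1a
import Pool.Agent.MP_c1dca2_ag.GT.V1b
import Pool.Agent.MP_c1dca2_ag.GT.V1c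
import Pool.Agent.MP_c1dca2_ag.GT.V1d
import Pool.Agent.MP_c1dca2_ag.GT.V2a
import Pool.Agent.MP_c1dca2_ag.GT.V2b
import Pool.Agent.MP_c1dca2_ag.GT.V2d
import Pool.Agent.MP_c1dca2_ag.GT.V3a
import Pool.Agent.MP_c1dca2_ag.GT.V3c
import Pool.Agent.MP_c1dca2_ag.GT.V4a
import Pool.Agent.MP_c1dca2_ag.GT.V4b
import Pool.Agent.MP_c1dca2_ag.GT.V4c
import Pool.Agent.MP_c1dca2_ag.GT.V4d
import Pool.Agent.MP_c1dca2_ag.GT.V5
import Pool.Agent.MP_c1dca2_ag.GT.V6a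
import Pool.Agent.MP_c1dca2_ag.SUP.Defs

set_option autoImplicit false

open Polynomial

namespace GT

/-! ## [GT-V6b] the generic point is `ℓ` times a class -/

variable {C L : Type} [Field C] [Field L] [Algebra C L] {O₁ : ValuationSubring L} {d : ℕ} [NeZero d] {T : Tab C d}
  {E : WB T →+* L}

/-- The extension of a homomorphism to a field of coefficients. -/
theorem v6b_ext {A Ω : Type} [CommRing A] [Field Ω] (u : A →+* Ω) {T₁ : Tab A d} {T₂ : Tab Ω d} (h : T₁.map u = T₂)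
    (e : WB T₁ →+* Ω) (he : ∀ a : A, e (algebraMap A (WB T₁) a) = u a) :
    ∃ η : WB T₂ →ₐ[Ω] Ω, ∀ y, η (bmap u h y) = e y := by
  have h1 : Sol T₂ (RingHom.id Ω) (e (WB.x T₁)) (fun j => e (WB.f T₁ j)) :=
    Sol.change h (RingHom.id_comp u) (sol_of e he)
  refine ⟨{ lift h1 with commutes' := fun r => ?_ }, fun y => ?_⟩
  · exact lift_algebraMap' h1 r
  · change lift h1 (bmap u h y) = e y
    rw [lift_unique e he y, lift_apply, lift_apply]
    refine Finset.sum_congr rfl fun j _ => ?_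
    rw [bmap_co, eval₂_map, RingHom.id_comp]

theorem v6b_pow {κ : Type} [Field κ] (T : Tab κ d) (hdom : IsDomain (WB T))
    (hmul : ∀ a b : WB T, a ≠ 0 → b ≠ 0 → pord (a * b) = pord a + pord b) {a : WB T} (ha : a ≠ 0) (ℓ : ℕ) (hℓ : 0 < ℓ) :
    pord (a ^ ℓ) = ℓ * pord a := by
  obtain ⟨k, rfl⟩ : ∃ k, ℓ = k + 1 := ⟨ℓ - 1, by omega⟩
  clear hℓ
  induction k with
  | zero => rw [zero_add, pow_one, one_mul]
  | succ k ih =>
    rw [pow_succ, hmul _ _ (pow_ne_zero _ ha) ha, ih]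
    ring

/-- the codimension of the extended ideal -/
theorem v6b_len {κ Ω : Type} [Field κ] [Field Ω] [IsAlgClosed Ω] (T : Tab κ d) (hdom : IsDomain (WB T))
    (hmul : ∀ a b : WB T, a ≠ 0 → b ≠ 0 → pord (a * b) = pord a + pord b)
    (u : PowerSeries κ →+* Ω) {T₂ : Tab Ω d} (hu : (T.map (PowerSeries.C (R := κ))).map u = T₂) [IsDedekindDomain (WB T₂)]
    (hnf : ¬ IsField (WB T₂)) (ψ : PowerSeries (WB T)) (h0 : PowerSeries.constantCoeff ψ ≠ 0)
    (hJ : ((Ideal.span {ψ}).comap (io T)).map (bmap u hu) ≠ ⊥) :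
    len (((Ideal.span {ψ}).comap (io T)).map (bmap u hu)) = pord (PowerSeries.constantCoeff ψ) ∧
      ∃ ρ : WB (T.map (PowerSeries.C (R := κ))) →ₗ[PowerSeries κ]
        (Fin (pord (PowerSeries.constantCoeff ψ)) → PowerSeries κ), ∀ x, ρ x = 0 ↔ ψ ∣ io T x := by
  obtain ⟨e, ρ, hρ, he⟩ := weier T hdom hmul ψ h0
  refine ⟨?_, ρ, hρ⟩
  have h1 := finrank_descent u hu ((Ideal.span {ψ}).comap (io T)) _ ρ (fun i => bmap (PowerSeries.C (R := κ)) rfl (e i))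
    (fun x => by rw [hρ, Ideal.mem_comap, Ideal.mem_span_singleton]) he
  rw [← (finrank_quot T₂ hnf _ hJ).2, h1.2]

/-- THE GENERIC POINT.

Proof. `o` from `exists_ord`, `z` with `o z = 1`, `ε` from `exists_eps`, `n := n₀` from `exists_pord`, `b` from `exists_root_series` (`a = z⁻¹`), `φ` from `exists_phi`, `phi_pow`: `coeff_j (φ ^ ℓ) ∈ Ble T (ℓ n + 1)`, `coeff_1 (φ ^ ℓ) ∉ Ble T (ℓ n)`, `G`. `io_surj`: `F ∈ Ble _ (ℓ n + 1)` with
`io T F = φ ^ ℓ`. `ev` from `exists_ev`, `ev F = 0` by `ev_eq_zero` (`N₀ = ℓ n`). `Ω := AlgebraicClosure (LaurentSeries C)`, `u : C⟦X⟧ → Ω` injective, `g := u.comp PowerSeries.C`, `hg : (T.map PowerSeries.C).map u = T.map g` (`Tab.map_map`). `WB (T.map g)` is Dedekind (`good_ext`) and not a field.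
`η : WB (T.map g) →ₐ[Ω] Ω` with `η (bmap u hg y) = ev y` (as an element of `Ω`): `sol_of ev`, `Sol.map`, `Sol.change`, `lift`. `F₁ := bmap u hg F`: `pord F₁ = ℓ n + 1` (some coefficient of a monomial of weight `ℓ n + 1` is not zero: `io_coeff`, `coeff_1`), `F₁ ≠ 0`, `η F₁ = 0`.
For `ψ = φ` and `ψ = φ ^ ℓ` (constant coefficient `φ_0 ^ ℓ`, of pole order `ℓ n`) let `J_ψ := (Ideal.span {ψ}).comap (io T)`; `weier` and `finrank_descent` (for `A = C⟦X⟧`): `J_ψ.map (bmap u hg)` has finite codimension `n`, `ℓ n`, which is `len` by `finrank_quot` (the ideals are `≠ ⊥`: they contain `F₁`). `J := (J_φ).map _`,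
`J' := (J_(φ^ℓ)).map _`. `J ^ ℓ ≤ J'`: `J_φ ^ ℓ ≤ J_(φ^ℓ)` (products of `ℓ` elements), `Ideal.map_pow`. `F₁ ∈ J'`. `J' ≰ ker η`: `exists_not_ev` for `ψ = φ ^ ℓ`. `len (F₁) = pord F₁ = ℓ n + 1` (`finrank_span`, `finrank_quot`). `factor_of_len`. Injectivity: `η (bmap g rfl b) = ε (E b)` in `Ω`
(`bmap_comp`). -/
theorem exists_factor [CharZero C] [IsAlgClosed C] (hF : FF C L) (hO : IsPl C O₁) (h : Model O₁ T E) [IsDedekindDomain (WB T)]
    (ℓ : ℕ) (hℓ : 0 < ℓ) (hdom : ∀ (Ω : Type) [Field Ω] (T' : Tab Ω d), IsDomain (WB T'))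
    (hmul : ∀ (Ω : Type) [Field Ω] (T' : Tab Ω d) (a b : WB T'), a ≠ 0 → b ≠ 0 → pord (a * b) = pord a + pord b)
    (hnf : ∀ (Ω : Type) [Field Ω] (T' : Tab Ω d), ¬ IsField (WB T')) :
    ∃ (Ω : Type) (_ : Field Ω) (g : C →+* Ω) (η : WB (T.map g) →ₐ[Ω] Ω) (J : Ideal (WB (T.map g))) (F : WB (T.map g)),
      Function.Injective (fun b : WB T => η (bmap g rfl b)) ∧ F ≠ 0 ∧ Ideal.span {F} = RingHom.ker η * J ^ ℓ := by
  have hLc : CharZero L := charZero_of_injective_algebraMap (algebraMap C L).injective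
  obtain ⟨o, ho⟩ := exists_ord hF hO
  obtain ⟨z, hz0, hz⟩ := ho.surj
  obtain ⟨ε, hεz, hε, hεo⟩ := exists_eps hO ho hz0 hz
  obtain ⟨n, hn⟩ := exists_pord T
  obtain ⟨b, hb0, hb⟩ := exists_root_series ℓ hℓ z⁻¹
  obtain ⟨φ, hφ0, hφn, hφ⟩ := exists_phi hO h ho hn b hb0
  obtain ⟨hc, hc1, G, hG, hG'⟩ := phi_pow hO h ho hℓ hz0 hz b hb hb0 φ hφ0 hφn hφ
  obtain ⟨F, hFB, hFio⟩ := io_surj T (ℓ * n + 1) (φ ^ ℓ) hc
  obtain ⟨ev, hev, hev'⟩ := exists_ev h ε hε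
  have hevF : ev F = 0 := ev_eq_zero h ho hz0 ε hεz hε hεo ev hev hev' (ℓ * n + 1) (ℓ * n) F hFB G
    (by rw [hFio]; exact hG) hG'
  -- the field `Ω`
  let Ω : Type := AlgebraicClosure (LaurentSeries C)
  let v : LaurentSeries C →+* Ω := algebraMap (LaurentSeries C) Ω
  have hv : Function.Injective v := (algebraMap (LaurentSeries C) Ω).injective
  let u : PowerSeries C →+* Ω := v.comp (HahnSeries.ofPowerSeries ℤ C)
  have hu : Function.Injective u := hv.comp HahnSeries.ofPowerSeries_injective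
  let g : C →+* Ω := u.comp (PowerSeries.C (R := C))
  have hT : (T.map (PowerSeries.C (R := C))).map u = T.map g := Tab.map_map T _ _
  have hd : IsDomain (WB (T.map g)) := hdom Ω (T.map g)
  have hded : IsDedekindDomain (WB (T.map g)) := good_ext T Ω g hd
  have hdC : IsDomain (WB T) := hdom C T
  obtain ⟨η, hη⟩ := v6b_ext u hT (v.comp ev) (fun a => by rw [RingHom.comp_apply, hev]; rfl)
  -- the element `F₁`
  obtain ⟨F₁, hF₁⟩ : ∃ F₁, F₁ = bmap u hT F := ⟨_, rfl⟩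
  have hco : ∀ i m, ((F₁.co i).coeff m) = u ((F.co i).coeff m) := by
    intro i m
    rw [hF₁, bmap_co, coeff_map]
  obtain ⟨j, m, hjm, hne⟩ : ∃ (j : ZMod d) (m : ℕ), ℓ * n < d * m + T.w j ∧ (F₁.co j).coeff m ≠ 0 := by
    by_contra hno
    push Not at hno
    apply hc1
    rw [mem_Ble]
    intro j m hjm
    have h1 := hno j m hjm
    rw [hco] at h1
    have h2 : (F.co j).coeff m = 0 := hu (by rw [h1, map_zero])
    rw [← hFio, io_coeff, h2, map_zero]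
  have hF0 : F₁ ≠ 0 := by
    intro h0
    apply hne
    rw [h0, WB.co_zero]
    simp
  have hpord : pord F₁ = ℓ * n + 1 := by
    obtain ⟨i, m', h1, h2, h3⟩ := pord_spec F₁ hF0
    have h4 := h3 j m hne
    rw [← h2] at h4
    have h5 : ¬ ℓ * n + 1 < d * m' + T.w i := by
      intro h6
      apply h1
      rw [hco, (mem_Ble.1 hFB) i m' h6, map_zero]
    have h6 : d * m' + T.w i = pord F₁ := h2.symm
    have h7 : d * m + T.w j ≤ pord F₁ := h4
    omega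
  have hFη : η F₁ = 0 := by
    rw [hF₁, hη, RingHom.comp_apply, hevF, map_zero]
  -- the ideals
  have hF₁J : ∀ ψ : PowerSeries (WB T), ψ ∣ φ ^ ℓ → F₁ ∈ ((Ideal.span {ψ}).comap (io T)).map (bmap u hT) := by
    intro ψ hψ
    rw [hF₁]
    apply Ideal.mem_map_of_mem
    rw [Ideal.mem_comap, Ideal.mem_span_singleton, hFio]
    exact hψ
  have hbot : ∀ ψ : PowerSeries (WB T), ψ ∣ φ ^ ℓ → ((Ideal.span {ψ}).comap (io T)).map (bmap u hT) ≠ ⊥ := by
    intro ψ hψ h0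
    have h1 := hF₁J ψ hψ
    rw [h0, Ideal.mem_bot] at h1
    exact hF0 h1
  have hφd : φ ∣ φ ^ ℓ := dvd_pow_self φ hℓ.ne'
  have h0' : PowerSeries.constantCoeff (φ ^ ℓ) ≠ 0 := by
    rw [map_pow]
    exact pow_ne_zero _ hφ0
  obtain ⟨hl1, -⟩ := v6b_len T hdC (hmul C T) u hT (hnf Ω (T.map g)) φ hφ0 (hbot φ hφd)
  obtain ⟨hl2, ρ, hρ⟩ := v6b_len T hdC (hmul C T) u hT (hnf Ω (T.map g)) (φ ^ ℓ) h0' (hbot _ dvd_rfl)
  have hp2 : pord (PowerSeries.constantCoeff (φ ^ ℓ)) = ℓ * n := by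
    rw [map_pow, v6b_pow T hdC (hmul C T) hφ0 ℓ hℓ, hφn]
  obtain ⟨x, hx1, hx2⟩ := exists_not_ev h ho ε hε hεo ev hev hev' (φ ^ ℓ) _ ρ hρ
  refine ⟨Ω, inferInstance, g, η, ((Ideal.span {φ}).comap (io T)).map (bmap u hT), F₁, ?_, hF0, ?_⟩
  · have h1 : ∀ b : WB T, η (bmap g rfl b) = v (ε (E b)) := by
      intro b
      have h2 : bmap g rfl b = bmap u hT (bmap (PowerSeries.C (R := C)) rfl b) :=
        (bmap_comp (PowerSeries.C (R := C)) rfl u hT rfl b).symm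
      rw [h2, hη, RingHom.comp_apply, hev']
    intro b c hbc
    have h2 : v (ε (E b)) = v (ε (E c)) := by
      rw [← h1, ← h1]
      exact hbc
    exact h.inj (ε.injective (hv h2))
  · have hFP : F₁ ∈ RingHom.ker η := hFη
    refine factor_of_len ℓ (J' := ((Ideal.span {φ ^ ℓ}).comap (io T)).map (bmap u hT)) (ker_maximal η) ?_
      (hbot φ hφd) ?_ ?_ hF0 hFP (hF₁J _ dvd_rfl) ?_ ?_
    · intro h0
      rw [h0, Ideal.mem_bot] at hFP
      exact hF0 hFP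
    · rw [← Ideal.map_pow]
      apply Ideal.map_mono
      refine (Ideal.le_comap_pow (io T) ℓ).trans ?_
      rw [Ideal.span_singleton_pow]
    · rw [hl2, hl1, hp2, hφn]
    · intro hle
      have h1 : bmap u hT x ∈ RingHom.ker η := by
        apply hle
        apply Ideal.mem_map_of_mem
        rw [Ideal.mem_comap, Ideal.mem_span_singleton]
        exact hx1
      have h2 : η (bmap u hT x) = 0 := h1
      rw [hη, RingHom.comp_apply] at h2
      exact hx2 (hv (by rw [h2, map_zero]))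
    · have h1 := finrank_span (T.map g) hd (hmul Ω (T.map g)) F₁ hF0
      have h2 : (Ideal.span {F₁} : Ideal (WB (T.map g))) ≠ ⊥ := by
        rwa [Ne, Ideal.span_singleton_eq_bot]
      have h3 := finrank_quot (T.map g) (hnf Ω (T.map g)) _ h2
      rw [← h3.2, h1.2, hpord, hl2, hp2]

end GT
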