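import Mathlib

set_option autoImplicit false
set_option linter.style.haveILetI false

open Polynomial

namespace GT

/-! ## [GT-X2] extension of homomorphisms to an algebraically closed field (Atiyah-Macdonald, Proposition 5.23) -/

/-- extension of homomorphisms along integral extensions -/
theorem x2_int {κ R S : Type} [Field κ] [IsAlgClosed κ] [CommRing R] [CommRing S] [IsDomain S] [Algebra R S]
    [Algebra.IsIntegral R S] (hinj : Function.Injective (algebraMap R S)) (φ : R →+* κ) :
    ∃ χ : S →+* κ, ∀ x : R, χ (algebraMap R S x) = φ x := by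
  have hP : (RingHom.ker φ).IsPrime := RingHom.ker_isPrime φ
  obtain ⟨Q, _, hQ, hQP⟩ := Ideal.exists_ideal_over_prime_of_isIntegral (RingHom.ker φ) (⊥ : Ideal S) (by
    intro x hx
    rw [Ideal.mem_comap, Ideal.mem_bot] at hx
    have h0 : x = 0 := hinj (by rw [hx, map_zero])
    rw [h0]; exact zero_mem _)
  haveI : Q.LiesOver (RingHom.ker φ) := ⟨hQP.symm⟩
  letI : Algebra (R ⧸ RingHom.ker φ) κ := (RingHom.kerLift φ).toAlgebra
  haveI h1 : FaithfulSMul (R ⧸ RingHom.ker φ) κ :=
    (faithfulSMul_iff_algebraMap_injective _ _).2 (RingHom.kerLift_injective φ)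
  haveI h2 : FaithfulSMul (R ⧸ RingHom.ker φ) (S ⧸ Q) := inferInstance
  haveI : IsDomain (R ⧸ RingHom.ker φ) := Ideal.Quotient.isDomain _
  haveI : IsDomain (S ⧸ Q) := Ideal.Quotient.isDomain _
  let g : (S ⧸ Q) →ₐ[R ⧸ RingHom.ker φ] κ := IsAlgClosed.lift
  refine ⟨(g : (S ⧸ Q) →+* κ).comp (Ideal.Quotient.mk Q), fun x => ?_⟩
  have h3 : Ideal.Quotient.mk Q (algebraMap R S x) =
      algebraMap (R ⧸ RingHom.ker φ) (S ⧸ Q) (Ideal.Quotient.mk _ x) := rfl
  rw [RingHom.comp_apply, h3]
  have h4 := g.commutes (Ideal.Quotient.mk _ x)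
  exact h4

theorem x2_alg {κ R A : Type} [Field κ] [IsAlgClosed κ] [CommRing R] [IsDomain R] [CommRing A] [IsDomain A]
    [Algebra R A] (hinj : Function.Injective (algebraMap R A)) (hfg : Algebra.FiniteType R A)
    (halg : Algebra.IsAlgebraic R A) (a : A) (ha : a ≠ 0) :
    ∃ r : R, r ≠ 0 ∧ ∀ ψ : R →+* κ, ψ r ≠ 0 →
      ∃ χ : A →+* κ, (∀ x : R, χ (algebraMap R A x) = ψ x) ∧ χ a ≠ 0 := by
  classical
  obtain ⟨s, hs⟩ := hfg.out
  let L := FractionRing A
  have hAL : Function.Injective (algebraMap A L) := IsFractionRing.injective A L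
  haveI : FaithfulSMul R A := (faithfulSMul_iff_algebraMap_injective R A).2 hinj
  haveI : Algebra.IsAlgebraic R L := (IsFractionRing.isAlgebraic_iff' R A L).1 halg
  have hRL : Function.Injective (algebraMap R L) := by
    rw [IsScalarTower.algebraMap_eq R A L]
    exact hAL.comp hinj
  obtain ⟨r, hr, hint⟩ := Algebra.IsAlgebraic.exists_integral_multiples R
    (insert (algebraMap A L a)⁻¹ (s.image (algebraMap A L)))
  refine ⟨r, hr, fun ψ hψ => ?_⟩
  have hu : IsUnit (algebraMap R L r) := (isUnit_iff_ne_zero).2 ((map_ne_zero_iff _ hRL).2 hr)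
  let Rr := Localization.Away r
  letI : Algebra Rr L := (IsLocalization.Away.lift (S := Rr) r hu).toAlgebra
  haveI hst : IsScalarTower R Rr L := IsScalarTower.of_algebraMap_eq (fun x => by
    show _ = IsLocalization.Away.lift (S := Rr) r hu (algebraMap R Rr x)
    rw [IsLocalization.Away.lift_eq])
  have hRrL : Function.Injective (algebraMap Rr L) := by
    rw [injective_iff_map_eq_zero]
    intro z hz
    obtain ⟨⟨y, t⟩, ht⟩ := IsLocalization.surj (Submonoid.powers r) z
    have h1 : algebraMap R L y = 0 := by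
      rw [IsScalarTower.algebraMap_apply R Rr L, ← ht, map_mul, hz, zero_mul]
    have h2 : y = 0 := hRL (by rw [h1, map_zero])
    have h3 : z * algebraMap R Rr t = 0 := by rw [ht]; show algebraMap R Rr y = 0; rw [h2, map_zero]
    have h4 : IsUnit (algebraMap R Rr (t : R)) := IsLocalization.map_units Rr t
    exact (h4.mul_left_eq_zero).1 h3
  -- the integral closure
  let S := integralClosure Rr L
  have hRS : Function.Injective (algebraMap Rr S) := by
    intro x y hxy
    apply hRrL
    have h1 := congrArg (algebraMap S L) hxy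
    rwa [← IsScalarTower.algebraMap_apply, ← IsScalarTower.algebraMap_apply] at h1
  have hψu : IsUnit (ψ r) := isUnit_iff_ne_zero.2 hψ
  obtain ⟨χ', hχ'⟩ := x2_int (κ := κ) hRS (IsLocalization.Away.lift (S := Rr) r hψu)
  have hmul : ∀ z : L, IsIntegral R (r • z) → z ∈ S := by
    intro z hz
    have h1 : IsIntegral Rr (r • z) := hz.tower_top
    obtain ⟨v, hv⟩ := (IsLocalization.Away.algebraMap_isUnit (S := Rr) r).exists_left_inv
    have h2 : z = v • (r • z) := by
      rw [← algebraMap_smul Rr r z, smul_smul, hv, one_smul]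
    show z ∈ integralClosure Rr L
    rw [h2]
    exact h1.smul v
  have hA : ∀ z : A, algebraMap A L z ∈ S := by
    intro z
    have h1 : (⊤ : Subalgebra R A) ≤ (S.restrictScalars R).comap (IsScalarTower.toAlgHom R A L) := by
      rw [← hs]
      refine Algebra.adjoin_le ?_
      intro y hy
      show algebraMap A L y ∈ S
      exact hmul _ (hint _ (Finset.mem_insert_of_mem (Finset.mem_image_of_mem _ hy)))
    exact h1 (Algebra.mem_top : z ∈ (⊤ : Subalgebra R A))
  let ρ : A →+* S := (algebraMap A L).codRestrict S.toSubring hA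
  refine ⟨χ'.comp ρ, fun x => ?_, ?_⟩
  · have h1 : ρ (algebraMap R A x) = algebraMap Rr S (algebraMap R Rr x) := by
      apply Subtype.ext
      show algebraMap A L (algebraMap R A x) = algebraMap Rr L (algebraMap R Rr x)
      rw [← IsScalarTower.algebraMap_apply, ← IsScalarTower.algebraMap_apply]
    rw [RingHom.comp_apply, h1, hχ', IsLocalization.Away.lift_eq]
  · have h1 : (algebraMap A L a)⁻¹ ∈ S := hmul _ (hint _ (Finset.mem_insert_self _ _))
    have h2 : ρ a * ⟨(algebraMap A L a)⁻¹, h1⟩ = 1 := by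
      apply Subtype.ext
      show algebraMap A L a * (algebraMap A L a)⁻¹ = 1
      exact mul_inv_cancel₀ ((map_ne_zero_iff _ hAL).2 ha)
    intro h3
    have h4 := congrArg χ' h2
    rw [map_mul, map_one] at h4
    rw [RingHom.comp_apply] at h3
    rw [h3, zero_mul] at h4
    exact zero_ne_one h4

/-- Proof: a transcendence basis, the algebraic case, and a nonzero coefficient. -/
theorem extend_hom {κ R A : Type} [Field κ] [IsAlgClosed κ] [CommRing R] [IsDomain R] [CommRing A] [IsDomain A]
    [Algebra R A] (hinj : Function.Injective (algebraMap R A)) (hfg : Algebra.FiniteType R A) (a : A) (ha : a ≠ 0) :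
    ∃ r : R, r ≠ 0 ∧ ∀ ψ : R →+* κ, ψ r ≠ 0 →
      ∃ χ : A →+* κ, (∀ x : R, χ (algebraMap R A x) = ψ x) ∧ χ a ≠ 0 := by
  classical
  haveI : FaithfulSMul R A := (faithfulSMul_iff_algebraMap_injective R A).2 hinj
  obtain ⟨ι, x, hx⟩ := exists_isTranscendenceBasis' R A
  let T := Algebra.adjoin R (Set.range x)
  have hTA : Function.Injective (algebraMap T A) := Subtype.val_injective
  haveI : Algebra.FiniteType T A := Algebra.FiniteType.of_restrictScalars_finiteType R T A
  obtain ⟨f, hf, hψ⟩ := x2_alg (κ := κ) hTA inferInstance hx.isAlgebraic a ha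
  let e := hx.1.aevalEquiv
  have hf' : e.symm f ≠ 0 := by
    intro h0
    apply hf
    have := congrArg e h0
    rwa [AlgEquiv.apply_symm_apply, map_zero] at this
  obtain ⟨m, hm⟩ := MvPolynomial.ne_zero_iff.1 hf'
  refine ⟨MvPolynomial.coeff m (e.symm f), hm, fun ψ hψr => ?_⟩
  have h1 : MvPolynomial.map ψ (e.symm f) ≠ 0 := by
    intro h0
    apply hψr
    rw [← MvPolynomial.coeff_map, h0, MvPolynomial.coeff_zero]
  haveI : Infinite κ := IsAlgClosed.instInfinite
  obtain ⟨ξ, hξ⟩ : ∃ ξ : ι → κ, MvPolynomial.eval ξ (MvPolynomial.map ψ (e.symm f)) ≠ 0 := by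
    by_contra hcon
    push Not at hcon
    apply h1
    apply MvPolynomial.funext
    intro ξ
    rw [hcon ξ, map_zero]
  obtain ⟨χ, hχ, hχa⟩ := hψ ((MvPolynomial.eval₂Hom ψ ξ).comp (e.symm : T →+* MvPolynomial ι R)) (by
    rw [RingHom.comp_apply]
    rw [MvPolynomial.eval_map] at hξ
    exact hξ)
  refine ⟨χ, fun y => ?_, hχa⟩
  rw [IsScalarTower.algebraMap_apply R T A, hχ, RingHom.comp_apply]
  have h2 : (e.symm : T →+* MvPolynomial ι R) (algebraMap R T y) = MvPolynomial.C y := by
    show e.symm (algebraMap R T y) = _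
    rw [AlgEquiv.commutes]
    rfl
  rw [h2, MvPolynomial.coe_eval₂Hom, MvPolynomial.eval₂_C]

end GT
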