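import Mathlib
import Pool.Agent.MP_c1dca2_ag.GT.Base
import Pool.Agent.MP_c1dca2_ag.GT.GR1a
import Pool.Agent.MP_c1dca2_ag.GT.GR1b
import Pool.Agent.MP_c1dca2_ag.GT.X2

set_option autoImplicit false

open Polynomial

namespace GT

/-! ## [GT-V7] specialisation of the generic point -/

open scoped Pointwise in
theorem v7_span_pow {B : Type} [CommRing B] (s : Set B) (n : ℕ) : Ideal.span s ^ n = Ideal.span (s ^ n) := by
  induction n with
  | zero =>
    rw [pow_zero, pow_zero, Ideal.one_eq_top, ← Ideal.span_singleton_one]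
    rfl
  | succ n ih => rw [pow_succ, pow_succ, ih, Ideal.span_mul_span']

open scoped Pointwise in
theorem v7_prod {B : Type} [CommRing B] (G J : Set B) (n : ℕ) :
    Ideal.span G * Ideal.span J ^ n = Ideal.span (G * J ^ n) := by
  rw [v7_span_pow, Ideal.span_mul_span']

/-- An element with coefficients in the image lifts. -/
theorem v7_lift {R S : Type} [CommRing R] [CommRing S] {d : ℕ} [NeZero d] {T : Tab R d} {T' : Tab S d}
    (i : R →+* S) (h : T.map i = T') (b : WB T') (hb : ∀ j n, ∃ a, i a = (b.co j).coeff n) :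
    ∃ b' : WB T, bmap i h b' = b := by
  have h1 : ∀ j, ∃ p : R[X], p.map i = b.co j := by
    intro j
    have := (Polynomial.lifts_iff_coeff_lifts (f := i) (b.co j)).2 (fun n => by
      obtain ⟨a, ha⟩ := hb j n
      exact ⟨a, ha⟩)
    exact (Polynomial.mem_lifts (f := i) _).1 this
  choose p hp using h1
  exact ⟨⟨p⟩, WB.ext (funext fun j => hp j)⟩

/-- The certificate of the equality of two ideals descends along an injective homomorphism. -/
theorem v7_desc {B B' : Type} [CommRing B] [CommRing B'] (i : B' →+* B) (hi : Function.Injective i)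
    (P' : Set B') (F' : B') (u v : B → B) (P : Finset B) (hP : i '' P' = P)
    (h1 : ∀ p ∈ P, p = u p * i F') (h2 : i F' = ∑ p ∈ P, v p * p)
    (hu : ∀ p ∈ P, ∃ z, i z = u p) (hv : ∀ p ∈ P, ∃ z, i z = v p) :
    Ideal.span {F'} = Ideal.span P' := by
  apply le_antisymm
  · rw [Ideal.span_singleton_le_iff_mem]
    have h3 : ∀ p : P, ∃ z ∈ P', i z = p := by
      rintro ⟨p, hp⟩
      have : p ∈ i '' P' := by rw [hP]; exact hp
      obtain ⟨z, hz, hz'⟩ := this
      exact ⟨z, hz, hz'⟩
    choose z hz hz' using h3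
    have h4 : ∀ p : P, ∃ y, i y = v p := fun p => hv p p.2
    choose y hy using h4
    have h5 : F' = ∑ p : P, y p * z p := by
      apply hi
      rw [h2, map_sum, ← Finset.sum_coe_sort]
      refine Finset.sum_congr rfl fun p _ => ?_
      rw [map_mul, hy, hz']
    rw [h5]
    exact Ideal.sum_mem _ fun p _ => Ideal.mul_mem_left _ _ (Ideal.subset_span (hz p))
  · rw [Ideal.span_le]
    intro z hz
    have h3 : i z ∈ P := by
      have : i z ∈ i '' P' := ⟨z, hz, rfl⟩
      rw [hP] at this
      exact this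
    obtain ⟨w, hw⟩ := hu _ h3
    have h4 : z = w * F' := by
      apply hi
      rw [map_mul, hw]
      exact h1 _ h3
    rw [h4]
    exact Ideal.mul_mem_left _ _ (Ideal.subset_span rfl)

/-- All coefficients of a finite set of elements. -/
noncomputable def v7_coeffs {R : Type} [CommRing R] {d : ℕ} [NeZero d] {T : Tab R d} (E : Finset (WB T)) : Finset R := by
  classical
  exact E.biUnion fun b => Finset.univ.biUnion fun j : ZMod d => (b.co j).coeffs

theorem v7_mem_coeffs {R : Type} [CommRing R] {d : ℕ} [NeZero d] {T : Tab R d} (E : Finset (WB T))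
    (b : WB T) (hb : b ∈ E) (j : ZMod d) (n : ℕ) (h : (b.co j).coeff n ≠ 0) :
    (b.co j).coeff n ∈ v7_coeffs E := by
  classical
  rw [v7_coeffs]
  simp only [Finset.mem_biUnion, Finset.mem_univ, true_and]
  exact ⟨b, hb, j, Polynomial.coeff_mem_coeffs h⟩

theorem v7_id {R : Type} [CommRing R] {d : ℕ} [NeZero d] {T : Tab R d} {S : Type} [CommRing S] (gA : R →+* S)
    (χ : S →+* R) (h : (T.map gA).map χ = T) (hc : χ.comp gA = RingHom.id R) (b : WB T) :
    bmap χ h (bmap gA rfl b) = b := by
  refine WB.ext (funext fun j => ?_)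
  rw [bmap_co, bmap_co, Polynomial.map_map, hc, Polynomial.map_id]

/-- SPECIALISATION.

Proof. `WB (T.map g)` is Noetherian: `J = (j_1, ..., j_s)`. `ker η` is generated by `x - η x`, `f_i - η (f_i)` (`ker_eval`). The equality `(F) = ker η * J ^ ℓ` is certified by finitely many elements of `WB (T.map g)`: every product `π` of a generator of `ker η` and of `ℓ` of the `j_i` is `u_π F`, and `F = ∑ v_π π`. Let `A` be the subring of `Ω` generated by
`g(C)`, `η x`, `η (f_i)` and the (finitely many) coefficients of the coordinates of `j_i`, `F`, `u_π`, `v_π`: it is a domain, an algebra over `WB T` by `b ↦ η (bmap g rfl b)` (injective), of finite type. Let `a ∈ A` be a nonzero coefficient of `F`. `extend_hom` (`κ = C`, `R = WB T`) gives `r`. Let `ψ` be an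
evaluation of `WB T` with `ψ r ≠ 0`, `χ : A → C` with `χ (η (bmap g rfl b)) = ψ b` and `χ a ≠ 0`. Let `g_A : C → A`, `T_A := T.map g_A`; `χ ∘ g_A = id` (`ψ` on constants), so `T_A.map χ = T`. All the elements above come from `WB T_A`, `i : WB T_A → WB (T.map g)` injective; `η` restricts to an evaluation `η_A` of `WB T_A`; so
`(F_A) = ker η_A * (j_1, ..., j_s) ^ ℓ` in `WB T_A` (`ker_eval` over `A`). Apply `Ideal.map (bmap χ _)`: `(F') = ker ψ * J' ^ ℓ` (`eval_map`: the image of `ker η_A` is the kernel of the evaluation with the values `χ (η x) = ψ x`, `χ (η (f_i)) = ψ (f_i)`, which is `ψ`), `F' ≠ 0` because `χ a ≠ 0`. -/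
theorem special {C : Type} [Field C] [IsAlgClosed C] {d : ℕ} [NeZero d] (T : Tab C d) (hdom : IsDomain (WB T)) (ℓ : ℕ) (Ω : Type) [Field Ω]
    (g : C →+* Ω) (η : WB (T.map g) →ₐ[Ω] Ω) (hinj : Function.Injective (fun b : WB T => η (bmap g rfl b)))
    (J : Ideal (WB (T.map g))) (F : WB (T.map g)) (hF : F ≠ 0) (h : Ideal.span {F} = RingHom.ker η * J ^ ℓ) :
    ∃ r : WB T, r ≠ 0 ∧ ∀ ψ : WB T →ₐ[C] C, ψ r ≠ 0 →
      ∃ (J' : Ideal (WB T)) (F' : WB T), F' ≠ 0 ∧ Ideal.span {F'} = RingHom.ker ψ * J' ^ ℓ := by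
  classical
  open scoped Pointwise in
  -- the algebra structure
  let ρ : WB T →+* Ω := (η : WB (T.map g) →+* Ω).comp (bmap g rfl)
  let _ : Algebra (WB T) Ω := ρ.toAlgebra
  have hρ : ∀ b : WB T, algebraMap (WB T) Ω b = η (bmap g rfl b) := fun b => rfl
  -- finite generating sets
  have : IsNoetherianRing (WB (T.map g)) := wb_noeth
  obtain ⟨Js, hJs⟩ := (isNoetherianRing_iff_ideal_fg _).1 this J
  set G : Set (WB (T.map g)) := insert (WB.x (T.map g) - algebraMap Ω (WB (T.map g)) (η (WB.x (T.map g))))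
      (Set.range fun j => WB.f (T.map g) j - algebraMap Ω (WB (T.map g)) (η (WB.f (T.map g) j))) with hG
  have hGfin : G.Finite := (Set.finite_range _).insert _
  have hker : RingHom.ker η = Ideal.span G := ker_eval η
  have hPfin : (G * (Js : Set (WB (T.map g))) ^ ℓ).Finite := by
    refine hGfin.mul ?_
    rw [← Finset.coe_pow]
    exact Finset.finite_toSet _
  set P : Finset (WB (T.map g)) := hPfin.toFinset with hPdef
  have hPc : (P : Set (WB (T.map g))) = G * (Js : Set (WB (T.map g))) ^ ℓ := by rw [hPdef, Set.Finite.coe_toFinset]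
  have hspan : Ideal.span {F} = Ideal.span (P : Set (WB (T.map g))) := by
    rw [h, hker, ← hJs, v7_prod, hPc]
  -- certificates
  have hu0 : ∀ p ∈ P, ∃ u, p = u * F := by
    intro p hp
    have : p ∈ Ideal.span {F} := by rw [hspan]; exact Ideal.subset_span hp
    rw [Ideal.mem_span_singleton'] at this
    obtain ⟨u, hu⟩ := this
    exact ⟨u, hu.symm⟩
  have hu1 : ∀ p, ∃ u, p ∈ P → p = u * F := by
    intro p
    by_cases hp : p ∈ P
    · obtain ⟨u, hu⟩ := hu0 p hp
      exact ⟨u, fun _ => hu⟩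
    · exact ⟨0, fun h => absurd h hp⟩
  choose u hu using hu1
  have hFP : F ∈ Ideal.span (P : Set (WB (T.map g))) := by
    rw [← hspan]; exact Ideal.subset_span rfl
  obtain ⟨v, hv⟩ : ∃ v : WB (T.map g) → WB (T.map g), F = ∑ p ∈ P, v p * p := by
    rw [Ideal.span, Submodule.mem_span_finset] at hFP
    obtain ⟨v, _, hv⟩ := hFP
    exact ⟨v, by rw [← hv]; rfl⟩
  -- the subalgebra
  let E : Finset (WB (T.map g)) := Js ∪ {F} ∪ P.image u ∪ P.image v
  let A : Subalgebra (WB T) Ω := Algebra.adjoin (WB T) (v7_coeffs E : Set Ω)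
  have hA : ∀ b ∈ E, ∀ j n, (b.co j).coeff n ∈ A := by
    intro b hb j n
    by_cases h0 : (b.co j).coeff n = 0
    · rw [h0]; exact A.zero_mem
    · exact Algebra.subset_adjoin (v7_mem_coeffs E b hb j n h0)
  have hft : Algebra.FiniteType (WB T) A :=
    (Subalgebra.fg_iff_finiteType A).1 (Subalgebra.fg_adjoin_finset _)
  let φ : WB T →+* A := algebraMap (WB T) A
  have hφ : ∀ b : WB T, ((φ b : A) : Ω) = η (bmap g rfl b) := fun b => rfl
  let gA : C →+* A := φ.comp (algebraMap C (WB T))
  let s : A →+* Ω := A.subtype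
  have hs : Function.Injective s := Subtype.val_injective
  have hsg : s.comp gA = g := by
    refine RingHom.ext fun c => ?_
    show η (bmap g rfl (algebraMap C (WB T) c)) = g c
    rw [bmap_algebraMap']
    exact η.commutes (g c)
  have hTA : (T.map gA).map s = T.map g := by rw [Tab.map_map, hsg]
  -- `WB T_A → WB (T.map g)`
  let i : WB (T.map gA) →+* WB (T.map g) := bmap s hTA
  have hi : Function.Injective i := bmap_inj _ _ hs
  have hlift : ∀ b ∈ E, ∃ b', i b' = b := fun b hb =>
    v7_lift s hTA b (fun j n => ⟨⟨_, hA b hb j n⟩, rfl⟩)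
  -- the evaluation of `WB T_A`
  have hsol : Sol T gA (φ (WB.x T)) (fun j => φ (WB.f T j)) := sol_of φ (fun r => rfl)
  have hsol' : Sol (T.map gA) (RingHom.id A) (φ (WB.x T)) (fun j => φ (WB.f T j)) :=
    Sol.change rfl (RingHom.id_comp _) hsol
  let ηA : WB (T.map gA) →ₐ[A] A :=
    { (lift hsol' : WB (T.map gA) →+* A) with commutes' := fun r => lift_algebraMap' hsol' r }
  have hηA : ∀ b, ηA b = lift hsol' b := fun b => rfl
  have hηx : ηA (WB.x _) = φ (WB.x T) := lift_x hsol'
  have hηf : ∀ j, ηA (WB.f _ j) = φ (WB.f T j) := fun j => lift_f hsol' j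
  have hηφ : ∀ b : WB T, ηA (bmap gA rfl b) = φ b := by
    intro b
    rw [hηA, lift_apply, lift_unique (g := gA) φ (fun r => rfl) b, lift_apply]
    refine Finset.sum_congr rfl fun j _ => ?_
    rw [bmap_co, eval₂_map, RingHom.id_comp]
  set GA : Set (WB (T.map gA)) := insert (WB.x (T.map gA) - algebraMap A (WB (T.map gA)) (ηA (WB.x (T.map gA))))
      (Set.range fun j => WB.f (T.map gA) j - algebraMap A (WB (T.map gA)) (ηA (WB.f (T.map gA) j))) with hGA
  have hkerA : RingHom.ker ηA = Ideal.span GA := ker_eval ηA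
  have hGG : i '' GA = G := by
    rw [hGA, hG, Set.image_insert_eq, ← Set.range_comp]
    congr 1
    · rw [map_sub, bmap_x, bmap_algebraMap', hηx]
      congr 2
      show η (bmap g rfl (WB.x T)) = _
      rw [bmap_x]
    · congr 1
      funext j
      show i (WB.f (T.map gA) j - algebraMap A (WB (T.map gA)) (ηA (WB.f (T.map gA) j))) = _
      rw [map_sub, bmap_f, bmap_algebraMap', hηf]
      congr 2
      show η (bmap g rfl (WB.f T j)) = _
      rw [bmap_f]
  -- lifts of the generators
  obtain ⟨JA, hJA⟩ : ∃ JA : Set (WB (T.map gA)), i '' JA = (Js : Set (WB (T.map g))) := by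
    refine ⟨i ⁻¹' (Js : Set (WB (T.map g))), ?_⟩
    rw [Set.image_preimage_eq_iff]
    intro b hb
    obtain ⟨b', hb'⟩ := hlift b (by
      simp only [E, Finset.mem_union]
      exact Or.inl (Or.inl (Or.inl hb)))
    exact ⟨b', hb'⟩
  obtain ⟨FA, hFA⟩ := hlift F (by
      simp only [E, Finset.mem_union, Finset.mem_singleton]
      exact Or.inl (Or.inl (Or.inr trivial)))
  have himg : i '' (GA * JA ^ ℓ) = (P : Set (WB (T.map g))) := by
    rw [Set.image_mul, Set.image_pow, hGG, hJA, hPc]
  have hspanA : Ideal.span {FA} = RingHom.ker ηA * Ideal.span JA ^ ℓ := by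
    rw [hkerA, v7_prod]
    refine v7_desc i hi _ FA u v P himg (fun p hp => ?_) ?_ (fun p hp => ?_) (fun p hp => ?_)
    · rw [hFA]; exact hu p hp
    · rw [hFA]; exact hv
    · refine hlift _ ?_
      simp only [E, Finset.mem_union]
      exact Or.inl (Or.inr (Finset.mem_image_of_mem _ hp))
    · refine hlift _ ?_
      simp only [E, Finset.mem_union]
      exact Or.inr (Finset.mem_image_of_mem _ hp)
  -- a nonzero coefficient
  obtain ⟨j0, n0, ha⟩ : ∃ j n, (FA.co j).coeff n ≠ 0 := by
    by_contra hcon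
    push Not at hcon
    apply hF
    rw [← hFA]
    have : FA = 0 := WB.ext (funext fun j => Polynomial.ext fun n => by rw [hcon j n]; rfl)
    rw [this, map_zero]
  have hinjA : Function.Injective (algebraMap (WB T) A) := by
    intro b c hbc
    apply hinj
    show ((φ b : A) : Ω) = ((φ c : A) : Ω)
    exact congrArg _ hbc
  obtain ⟨r, hr0, hr⟩ := extend_hom (κ := C) (R := WB T) (A := A) hinjA hft _ ha
  refine ⟨r, hr0, fun ψ hψ => ?_⟩
  obtain ⟨χ, hχ, hχa⟩ := hr (ψ : WB T →+* C) hψ
  have hχg : χ.comp gA = RingHom.id C := by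
    refine RingHom.ext fun c => ?_
    show χ (algebraMap (WB T) A (algebraMap C (WB T) c)) = c
    rw [hχ]
    exact ψ.commutes c
  have hTχ : (T.map gA).map χ = T := by rw [Tab.map_map, hχg, Tab.map_id]
  obtain ⟨ψ', hψ1, hψ2⟩ := eval_map χ hTχ ηA
  have hψψ : ψ' = ψ := by
    refine AlgHom.ext fun b => ?_
    conv_lhs => rw [← v7_id gA χ hTχ hχg b]
    rw [hψ1, hηφ]
    exact hχ b
  refine ⟨(Ideal.span JA).map (bmap χ hTχ), bmap χ hTχ FA, ?_, ?_⟩
  · intro h0
    apply hχa
    have := congrArg (fun b : WB T => (b.co j0).coeff n0) h0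
    simpa [bmap_co, coeff_map] using this
  · rw [← hψψ, ← hψ2, ← Ideal.map_pow, ← Ideal.map_mul, ← hspanA, Ideal.map_span, Set.image_singleton]

end GT
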