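import Mathlib

set_option autoImplicit false

open Polynomial

namespace GT

/-! ## [GT-X3b] pure lemmas: Dedekind domains -/

open scoped nonZeroDivisors in
theorem x3b_mem {R : Type} [CommRing R] [IsDedekindDomain R] (H : Subgroup (ClassGroup R)) (J : Ideal R) :
    (∀ P : Ideal R, P.IsMaximal → J ≤ P → ∀ hP : P ∈ (Ideal R)⁰, ClassGroup.mk0 ⟨P, hP⟩ ∈ H) →
      ∀ hJ : J ∈ (Ideal R)⁰, ClassGroup.mk0 ⟨J, hJ⟩ ∈ H := by
  induction J using UniqueFactorizationMonoid.induction_on_prime with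
  | h₁ => exact fun _ hJ => absurd rfl (nonZeroDivisors.ne_zero hJ)
  | h₂ u hu =>
    intro _ hJ
    have h1 : u = 1 := by rwa [Ideal.isUnit_iff, ← Ideal.one_eq_top] at hu
    have h2 : (⟨u, hJ⟩ : (Ideal R)⁰) = 1 := Subtype.ext h1
    rw [h2, map_one]
    exact H.one_mem
  | h₃ a p ha hp ih =>
    intro h hJ
    have hp' : p ∈ (Ideal R)⁰ := mem_nonZeroDivisors_of_ne_zero hp.ne_zero
    have ha' : a ∈ (Ideal R)⁰ := mem_nonZeroDivisors_of_ne_zero ha
    have h1 : (⟨p * a, hJ⟩ : (Ideal R)⁰) = ⟨p, hp'⟩ * ⟨a, ha'⟩ := rfl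
    rw [h1, map_mul]
    refine H.mul_mem (h p ?_ Ideal.mul_le_left hp') (ih (fun P hP hle => h P hP (Ideal.mul_le_right.trans hle)) ha')
    exact (Ideal.isPrime_of_prime hp).isMaximal hp.ne_zero

/-- If all but finitely many maximal ideals have their class in the subgroup `H`, then `H = ⊤`.

Proof. The class group is generated by the classes of the maximal ideals (every nonzero ideal is a product of maximal ideals). Let `Q` be a bad maximal ideal, `Q_1, ..., Q_m` the other bad ones.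
`Q ^ 2, Q_1, ..., Q_m` are pairwise coprime; choose `π ∈ Q ∖ Q ^ 2` and, by the Chinese remainder theorem (`IsDedekindDomain.exists_forall_sub_mem_ideal` or `Ideal.exists_forall_sub_mem_ideal`), `f ≡ π mod Q ^ 2`,
`f ≡ 1 mod Q_i`. Then `f ≠ 0`, `(f) = Q * J` where `J` is not divisible by `Q` or a `Q_i`, so `J` is a product of good maximal ideals, and the class of `Q` is the inverse of the class of `J`. -/
theorem top_of_almost_all {R : Type} [CommRing R] [IsDedekindDomain R] (hR : ¬ IsField R) (H : Subgroup (ClassGroup R))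
    (B : Set (Ideal R)) (hB : B.Finite)
    (h : ∀ P : Ideal R, P.IsMaximal → P ∉ B → ∀ hP : P ∈ nonZeroDivisors (Ideal R), ClassGroup.mk0 ⟨P, hP⟩ ∈ H) :
    H = ⊤ := by
  classical
  -- every maximal ideal is good
  have key : ∀ Q : Ideal R, Q.IsMaximal → ∀ hQ : Q ∈ nonZeroDivisors (Ideal R), ClassGroup.mk0 ⟨Q, hQ⟩ ∈ H := by
    intro Q hQm hQ
    have hQ0 : Q ≠ 0 := nonZeroDivisors.ne_zero hQ
    set S : Finset (Ideal R) := insert Q (hB.toFinset.filter fun P => P ≠ 0) with hS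
    set b : Ideal R := ∏ P ∈ S, P with hb
    have hb0 : b ≠ 0 := by
      rw [hb, Finset.prod_ne_zero_iff]
      intro P hP
      rcases Finset.mem_insert.1 hP with rfl | hP
      · exact hQ0
      · exact (Finset.mem_filter.1 hP).2
    have hbP : ∀ P ∈ S, b ≤ P := fun P hP => Ideal.le_of_dvd (Finset.dvd_prod_of_mem _ hP)
    obtain ⟨a, ha⟩ := IsDedekindDomain.exists_sup_span_eq (I := Q * b) (J := Q) Ideal.mul_le_left (mul_ne_zero hQ0 hb0)
    have haQ : Ideal.span {a} ≤ Q := by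
      rw [← ha]
      exact le_sup_right
    obtain ⟨J, hJ⟩ := Ideal.dvd_iff_le.2 haQ
    have hJb : b ⊔ J = 1 := by
      apply mul_left_cancel₀ hQ0
      rw [Ideal.mul_sup, ← hJ, ha, mul_one]
    have hnot : ∀ P ∈ S, P.IsMaximal → ¬ J ≤ P := by
      intro P hP hPm hle
      apply hPm.ne_top
      rw [← Ideal.one_eq_top, ← hJb]
      refine le_antisymm ?_ ?_
      · rw [hJb, Ideal.one_eq_top]
        exact le_top
      · exact sup_le (hbP P hP) hle
    have hJ0 : J ≠ 0 := by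
      rintro rfl
      exact hnot Q (Finset.mem_insert_self _ _) hQm bot_le
    have hJ' : J ∈ nonZeroDivisors (Ideal R) := mem_nonZeroDivisors_of_ne_zero hJ0
    have h1 : ClassGroup.mk0 ⟨J, hJ'⟩ ∈ H := by
      refine x3b_mem H J (fun P hP hle hP' => h P hP (fun hPB => ?_) hP') hJ'
      exact hnot P (Finset.mem_insert_of_mem (Finset.mem_filter.2 ⟨hB.mem_toFinset.2 hPB, nonZeroDivisors.ne_zero hP'⟩)) hP hle
    have h2 : ClassGroup.mk0 ⟨Q, hQ⟩ * ClassGroup.mk0 ⟨J, hJ'⟩ = 1 := by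
      rw [← map_mul, ClassGroup.mk0_eq_one_iff]
      exact ⟨a, hJ.symm⟩
    rw [eq_inv_of_mul_eq_one_left h2]
    exact H.inv_mem h1
  rw [eq_top_iff]
  intro c _
  obtain ⟨⟨J, hJ⟩, rfl⟩ := ClassGroup.mk0_surjective c
  exact x3b_mem H J (fun P hP _ hP' => key P hP hP') hJ

end GT
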