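import Mathlib
import Pool.Agent.MP_c1dca2_ag.GT.Base
import Pool.Agent.MP_c1dca2_ag.GT.Defs
import Pool.Agent.MP_c1dca2_ag.GT.GR1b
import Pool.Agent.MP_c1dca2_ag.GT.P0
import Pool.Agent.MP_c1dca2_ag.GT.P8d
import Pool.Agent.MP_c1dca2_ag.GT.V6b
import Pool.Agent.MP_c1dca2_ag.GT.V7
import Pool.Agent.MP_c1dca2_ag.GT.X3b
import Pool.Agent.MP_c1dca2_ag.SUP.Defs
import Pool.Agent.MP_c1dca2_ag.SUP.L1

set_option autoImplicit false

open Polynomial

namespace GT

/-! ## [GT-V8] the class group is `ℓ`-divisible -/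

variable {C L : Type} [Field C] [Field L] [Algebra C L] {O₁ : ValuationSubring L} {d : ℕ} [NeZero d] {T : Tab C d}
  {E : WB T →+* L}

/-- DIVISIBILITY.

Proof. `exists_factor`, `special`: there is `r ≠ 0` such that for every evaluation `ψ` with `ψ r ≠ 0` the class of `ker ψ` is in the subgroup `H` of `ℓ`-th powers (`1 = [ker ψ] [J'] ^ ℓ`, `cls_mul`). The maximal ideals containing `r` are finitely many (`SUP.finite_ge` for `(r)`); every other maximal ideal is `ker ψ` with `ψ r ≠ 0` (`exists_eval`).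
`top_of_almost_all` for `H := (powMonoidHom ℓ).range`. -/
theorem cl_div [CharZero C] [IsAlgClosed C] (hF : FF C L) (hO : IsPl C O₁) (h : Model O₁ T E) [IsDedekindDomain (WB T)]
    (ℓ : ℕ) (hℓ : 0 < ℓ) (hdom : ∀ (Ω : Type) [Field Ω] (T' : Tab Ω d), IsDomain (WB T'))
    (hmul : ∀ (Ω : Type) [Field Ω] (T' : Tab Ω d) (a b : WB T'), a ≠ 0 → b ≠ 0 → pord (a * b) = pord a + pord b)
    (hnf : ∀ (Ω : Type) [Field Ω] (T' : Tab Ω d), ¬ IsField (WB T')) (D : ClassGroup (WB T)) :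
    ∃ D' : ClassGroup (WB T), D' ^ ℓ = D := by
  obtain ⟨Ω, iΩ, g, η, J, F, hinj, hF0, hsp⟩ := exists_factor hF hO h ℓ hℓ hdom hmul hnf
  obtain ⟨r, hr0, hr⟩ := special T (hdom C T) ℓ Ω g η hinj J F hF0 hsp
  have hr0' : Ideal.span {r} ≠ ⊥ := by
    rwa [Ne, Ideal.span_singleton_eq_bot]
  have hfin : {I : Ideal (WB T) | Ideal.span {r} ≤ I}.Finite := SUP.finite_ge hr0'
  have htop := top_of_almost_all (hnf C T) (powMonoidHom ℓ : ClassGroup (WB T) →* ClassGroup (WB T)).range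
    {I : Ideal (WB T) | Ideal.span {r} ≤ I} hfin (by
      intro P hP hPB hPn
      obtain ⟨ψ, hψ⟩ := exists_eval P hP
      have hψr : ψ r ≠ 0 := by
        intro h0
        apply hPB
        show Ideal.span {r} ≤ P
        rw [Ideal.span_singleton_le_iff_mem, ← hψ]
        exact h0
      obtain ⟨J', F', hF', hJ'⟩ := hr ψ hψr
      rw [hψ] at hJ'
      have hJ0 : J' ≠ ⊥ := by
        rintro rfl
        rw [Ideal.bot_pow hℓ.ne', Ideal.mul_bot, Ideal.span_singleton_eq_bot] at hJ'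
        exact hF' hJ'
      have hJn : J' ∈ nonZeroDivisors (Ideal (WB T)) := mem_nonZeroDivisors_iff_ne_zero.2 hJ0
      have h1 : ClassGroup.mk0 (⟨P, hPn⟩ * (⟨J', hJn⟩ : nonZeroDivisors (Ideal (WB T))) ^ ℓ) = 1 := by
        rw [ClassGroup.mk0_eq_one_iff]
        refine ⟨⟨F', ?_⟩⟩
        show P * J' ^ ℓ = Ideal.span {F'}
        exact hJ'.symm
      rw [map_mul, map_pow] at h1
      refine ⟨(ClassGroup.mk0 (⟨J', hJn⟩ : nonZeroDivisors (Ideal (WB T))))⁻¹, ?_⟩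
      rw [powMonoidHom_apply, inv_pow]
      exact (eq_inv_of_mul_eq_one_left h1).symm)
  have hD : D ∈ (powMonoidHom ℓ : ClassGroup (WB T) →* ClassGroup (WB T)).range := by
    rw [htop]
    exact Subgroup.mem_top D
  obtain ⟨D', hD'⟩ := hD
  exact ⟨D', hD'⟩

end GT
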