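import Mathlib
import Pool.Agent.MP_c1dca2_ag.GT.A3
import Pool.Agent.MP_c1dca2_ag.GT.Base
import Pool.Agent.MP_c1dca2_ag.GT.P0
import Pool.Agent.MP_c1dca2_ag.GT.P8d
import Pool.Agent.MP_c1dca2_ag.GT.V8

set_option autoImplicit false
set_option linter.unusedSectionVars false

open Polynomial

namespace GT

/-! ## [GT-N1] `ℓ`-divisibility of the class group of a model -/

/-- Proof. In a field `x = WB.x T` (`≠ 0`: `WB.algebraMap_injective`, `X ≠ 0`) would be a unit, so a constant (`eq_const_of_isUnit`, A3), of pole order `0`; but `pord x = d * 1 > 0` (`pord_algebraMap`, A3). -/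
theorem not_isField {Ω : Type} [Field Ω] {d : ℕ} [NeZero d] (T : Tab Ω d) : ¬ IsField (WB T) := by
  intro hf
  have hx : (WB.x T) ≠ 0 := by
    intro h
    have h1 : (X : Polynomial Ω) = 0 := WB.algebraMap_injective (T := T) (by rw [map_zero]; exact h)
    exact X_ne_zero h1
  obtain ⟨y, hy⟩ := hf.mul_inv_cancel hx
  obtain ⟨r, -, hr⟩ := eq_const_of_isUnit (IsUnit.of_mul_eq_one y hy)
  have h2 := congrArg (fun b : WB T => b.co 0) hr
  simp only [WB.x, WB.algebraMap_co, WB.algebraMap_co', if_pos] at h2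
  have h3 := congrArg natDegree h2
  rw [natDegree_X, natDegree_C] at h3
  exact one_ne_zero h3

variable {C L : Type} [Field C] [Field L] [Algebra C L] {O₁ : ValuationSubring L} {d : ℕ} [NeZero d]
  {T : Tab C d} {E : WB T →+* L}

theorem Model.div [CharZero C] [IsAlgClosed C] (hF : FF C L) (hO : IsPl C O₁) (h : Model O₁ T E)
    [IsDedekindDomain (WB T)] {ℓ : ℕ} (hℓ : 0 < ℓ) (D : ClassGroup (WB T)) :
    ∃ D' : ClassGroup (WB T), D' ^ ℓ = D :=
  cl_div hF hO h ℓ hℓ (fun _ _ _ => instIsDomain) (fun _ _ _ _ _ ha hb => pord_mul ha hb)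
    (fun _ _ T' => not_isField T') D

end GT
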