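import Mathlib
import Pool.Agent.MP_c1dca2_ag.GT.P0

set_option autoImplicit false

open Polynomial

namespace GT

/-! ## [GT-P2c] the integral closure of `C[t]` -/

variable {C L : Type} [Field C] [Field L] [Algebra C L]

open scoped IntermediateField.algebraAdjoinAdjoin

theorem p2c_pid {t : L} (ht : Transcendental C t) : IsPrincipalIdealRing (Algebra.adjoin C {t}) :=
  IsPrincipalIdealRing.of_surjective
    (Polynomial.algEquivOfTranscendental C t ht : C[X] →+* Algebra.adjoin C {t})
    (Polynomial.algEquivOfTranscendental C t ht).surjective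

theorem p2c_low (M : ℕ) (p : C[X]) :
    ∃ q : C[X], p = ∑ j : Fin M, Polynomial.C (p.coeff j) * X ^ (j : ℕ) + X ^ M * q := by
  have h : X ^ M ∣ p - ∑ j : Fin M, Polynomial.C (p.coeff j) * X ^ (j : ℕ) := by
    rw [Polynomial.X_pow_dvd_iff]
    intro d hd
    rw [coeff_sub, finsetSum_coeff, Finset.sum_eq_single (⟨d, hd⟩ : Fin M)]
    · rw [coeff_C_mul_X_pow, if_pos rfl, sub_self]
    · intro b _ hb
      rw [coeff_C_mul_X_pow, if_neg]
      intro h1
      exact hb (Fin.ext h1.symm)
    · intro h1
      exact absurd (Finset.mem_univ _) h1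
  obtain ⟨q, hq⟩ := h
  exact ⟨q, by rw [← hq]; ring⟩

/-- Let `n = [L : C(t)]`. `Rt C t / (t ^ M)` has dimension at most `n M`. -/
theorem rt_quot [CharZero C] (hF : FF C L) {t : L} (ht : Transcendental C t) (M : ℕ) :
    FiniteDimensional C (Rt C t ⧸ (Ideal.span {tt C t ^ M} : Ideal (Rt C t))) ∧
      Module.finrank C (Rt C t ⧸ (Ideal.span {tt C t ^ M} : Ideal (Rt C t))) ≤
        Module.finrank (IntermediateField.adjoin C {t}) L * M := by
  have hpid := p2c_pid ht
  have hfin : FiniteDimensional (IntermediateField.adjoin C {t}) L := hF.fin t ht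
  have hchar : CharZero (IntermediateField.adjoin C {t}) := charZero_of_injective_algebraMap
    (algebraMap C (IntermediateField.adjoin C {t})).injective
  have hsep : Algebra.IsSeparable (IntermediateField.adjoin C {t}) L := inferInstance
  have htf : Module.IsTorsionFree (Algebra.adjoin C {t}) L := inferInstance
  have hfree : Module.Free (Algebra.adjoin C {t}) (Rt C t) :=
    IsIntegralClosure.module_free (Algebra.adjoin C {t}) (IntermediateField.adjoin C {t}) L (Rt C t)
  have hfinA : Module.Finite (Algebra.adjoin C {t}) (Rt C t) :=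
    IsIntegralClosure.finite (Algebra.adjoin C {t}) (IntermediateField.adjoin C {t}) L (Rt C t)
  have hrank : Module.finrank (Algebra.adjoin C {t}) (Rt C t) =
      Module.finrank (IntermediateField.adjoin C {t}) L :=
    IsIntegralClosure.rank (Algebra.adjoin C {t}) (IntermediateField.adjoin C {t}) L (Rt C t)
  obtain ⟨n, hn⟩ : ∃ n, n = Module.finrank (IntermediateField.adjoin C {t}) L := ⟨_, rfl⟩
  rw [← hn] at hrank ⊢
  let b := Module.finBasisOfFinrankEq (Algebra.adjoin C {t}) (Rt C t) hrank
  let Q := Rt C t ⧸ (Ideal.span {tt C t ^ M} : Ideal (Rt C t))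
  let e := Polynomial.algEquivOfTranscendental C t ht
  let v : Fin n × Fin M → Q := fun k => Ideal.Quotient.mk _ (tt C t ^ (k.2 : ℕ) * b k.1)
  let φ : (Fin n × Fin M → C) →ₗ[C] Q := Fintype.linearCombination C v
  have heX : e X = (⟨t, Algebra.subset_adjoin (Set.mem_singleton t)⟩ : Algebra.adjoin C {t}) :=
    aeval_X _
  have htt : ∀ (j : ℕ) (y : Rt C t), (e X) ^ j • y = tt C t ^ j * y := by
    intro j y
    rw [heX, Algebra.smul_def, map_pow]
    rfl
  have hsurj : Function.Surjective φ := by
    intro z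
    obtain ⟨z, rfl⟩ := Ideal.Quotient.mk_surjective z
    obtain ⟨p, hp⟩ : ∃ p : Fin n → C[X], ∀ i, e (p i) = b.repr z i :=
      ⟨fun i => e.symm (b.repr z i), fun i => e.apply_symm_apply _⟩
    choose q hq using fun i => p2c_low M (p i)
    have hterm : ∀ i, e (p i) • b i =
        ∑ j : Fin M, (p i).coeff j • (tt C t ^ (j : ℕ) * b i) + tt C t ^ M * (e (q i) • b i) := by
      intro i
      have h1 : e (p i) = ∑ j : Fin M, algebraMap C (Algebra.adjoin C {t}) ((p i).coeff j) * (e X) ^ (j : ℕ) +
          (e X) ^ M * e (q i) := by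
        conv_lhs => rw [hq i]
        rw [map_add, map_sum, map_mul, map_pow]
        refine congrArg (· + _) (Finset.sum_congr rfl fun j _ => ?_)
        rw [map_mul, map_pow, ← Polynomial.algebraMap_eq, AlgEquiv.commutes]
      rw [h1, add_smul, Finset.sum_smul, mul_smul, htt]
      refine congrArg (· + _) (Finset.sum_congr rfl fun j _ => ?_)
      rw [mul_smul, htt, algebraMap_smul]
    have key : z = ∑ k : Fin n × Fin M, (p k.1).coeff k.2 • (tt C t ^ (k.2 : ℕ) * b k.1) +
        tt C t ^ M * ∑ i, e (q i) • b i := by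
      conv_lhs => rw [← b.sum_repr z]
      rw [Finset.mul_sum, Fintype.sum_prod_type, ← Finset.sum_add_distrib]
      refine Finset.sum_congr rfl fun i _ => ?_
      rw [← hp i, hterm i]
    refine ⟨fun k => (p k.1).coeff k.2, ?_⟩
    show Fintype.linearCombination C v _ = _
    rw [Fintype.linearCombination_apply]
    have h2 : ∀ k : Fin n × Fin M, (p k.1).coeff k.2 • v k =
        Ideal.Quotient.mk (Ideal.span {tt C t ^ M} : Ideal (Rt C t))
          ((p k.1).coeff k.2 • (tt C t ^ (k.2 : ℕ) * b k.1)) := fun k => rfl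
    rw [Finset.sum_congr rfl (fun k _ => h2 k), ← map_sum, Ideal.Quotient.eq]
    have h5 : ∑ k : Fin n × Fin M, (p k.1).coeff k.2 • (tt C t ^ (k.2 : ℕ) * b k.1) - z =
        -(tt C t ^ M * ∑ i, e (q i) • b i) := by
      have h6 := eq_sub_of_add_eq' key.symm
      rw [h6]
      ring
    rw [h5]
    exact (Ideal.neg_mem_iff _).2 (Ideal.mul_mem_right _ _ (Ideal.subset_span (Set.mem_singleton _)))
  have hfd : FiniteDimensional C Q := Module.Finite.of_surjective φ hsurj
  refine ⟨hfd, ?_⟩
  have h3 := LinearMap.finrank_le_finrank_of_surjective (f := φ) hsurj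
  rw [Module.finrank_fintype_fun_eq_card, Fintype.card_prod, Fintype.card_fin, Fintype.card_fin] at h3
  exact h3

end GT
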