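import Mathlib
import Pool.Agent.MP_c1dca2_ag.GT.P0
import Pool.Agent.MP_c1dca2_ag.GT.P1c
import Pool.Agent.MP_c1dca2_ag.GT.P2b

set_option autoImplicit false

open Polynomial

namespace GT

/-! ## [GT-P2d] the integral closure of `C[t]` -/

variable {C L : Type} [Field C] [Field L] [Algebra C L]

theorem p2d_poly {y : L} (hy : y ≠ 0) {c : L} (hc : c ∈ Algebra.adjoin C {y⁻¹}) :
    ∃ d : ℕ, ∀ k : ℕ, d ≤ k → c * y ^ k ∈ Algebra.adjoin C {y} := by
  have hyA : y ∈ Algebra.adjoin C {y} := Algebra.subset_adjoin (Set.mem_singleton y)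
  induction hc using Algebra.adjoin_induction with
  | mem x hx =>
    rw [Set.mem_singleton_iff] at hx
    subst hx
    refine ⟨1, fun k hk => ?_⟩
    obtain ⟨j, rfl⟩ := Nat.exists_eq_add_of_le hk
    rw [pow_add, pow_one, ← mul_assoc, inv_mul_cancel₀ hy, one_mul]
    exact pow_mem hyA _
  | algebraMap r =>
    exact ⟨0, fun k _ => mul_mem (Subalgebra.algebraMap_mem _ r) (pow_mem hyA _)⟩
  | add a b _ _ ha hb =>
    obtain ⟨d, hd⟩ := ha
    obtain ⟨d', hd'⟩ := hb
    refine ⟨max d d', fun k hk => ?_⟩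
    rw [add_mul]
    exact add_mem (hd k ((le_max_left _ _).trans hk)) (hd' k ((le_max_right _ _).trans hk))
  | mul a b _ _ ha hb =>
    obtain ⟨d, hd⟩ := ha
    obtain ⟨d', hd'⟩ := hb
    refine ⟨d + d', fun k hk => ?_⟩
    have h1 : a * b * y ^ k = (a * y ^ d) * (b * y ^ (k - d)) := by
      have h2 : k = d + (k - d) := by omega
      conv_lhs => rw [h2, pow_add]
      ring
    rw [h1]
    exact mul_mem (hd d le_rfl) (hd' _ (by omega))

theorem p2d_int {y : L} (hy : y ≠ 0) {b : L} (hb : b ∈ Rt C y⁻¹) :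
    ∃ d : ℕ, ∀ a : ℕ, d ≤ a → b * y ^ a ∈ Rt C y := by
  obtain ⟨P, hP, hPb⟩ := (hb : IsIntegral (Algebra.adjoin C {y⁻¹}) b)
  choose d hd using fun i : ℕ => p2d_poly (C := C) hy (P.coeff i).2
  refine ⟨(Finset.range (P.natDegree + 1)).sup d, fun a ha => ?_⟩
  let Q : L[X] := P.map (algebraMap (Algebra.adjoin C {y⁻¹}) L)
  have hQ : Q.Monic := hP.map _
  have hQd : Q.natDegree = P.natDegree := hP.natDegree_map _
  have hS : (Q.scaleRoots (y ^ a)).Monic := (monic_scaleRoots_iff _).2 hQ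
  have hl : Q.scaleRoots (y ^ a) ∈ lifts (algebraMap (Algebra.adjoin C {y}) L) := by
    rw [lifts_iff_coeff_lifts]
    intro i
    rw [coeff_scaleRoots, hQd]
    have h1 : Q.coeff i = (P.coeff i : L) := coeff_map _ _
    rw [h1]
    rcases lt_trichotomy i P.natDegree with h2 | h2 | h2
    · rw [← pow_mul]
      have h3 : d i ≤ a * (P.natDegree - i) := by
        have h4 : d i ≤ a := (Finset.le_sup (f := d) (Finset.mem_range.2 (by omega))).trans ha
        have h5 : 1 ≤ P.natDegree - i := by omega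
        calc d i ≤ a := h4
          _ = a * 1 := (mul_one _).symm
          _ ≤ _ := Nat.mul_le_mul_left a h5
      exact ⟨⟨_, hd i _ h3⟩, rfl⟩
    · subst h2
      have h3 : P.coeff P.natDegree = 1 := hP
      rw [h3, Nat.sub_self, pow_zero, mul_one]
      exact ⟨1, map_one _⟩
    · rw [coeff_eq_zero_of_natDegree_lt h2]
      exact ⟨0, by rw [map_zero]; simp⟩
  obtain ⟨q, hq, -, hqm⟩ := lifts_and_natDegree_eq_and_monic hl hS
  refine (⟨q, hqm, ?_⟩ : IsIntegral (Algebra.adjoin C {y}) (b * y ^ a))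
  rw [← eval_map, hq]
  have h5 : eval b Q = 0 := by
    rw [eval_map]
    exact hPb
  rw [mul_comm, scaleRoots_eval_mul, h5, mul_zero]

/-- Proof. Let `x = y⁻¹`, `E = C(x) = C(y)` (`IntermediateField.adjoin` of an element and of its inverse agree),
`b_1, ..., b_n` an `E`-basis of `L` consisting of elements integral over `C[x]` (multiply an arbitrary basis by
nonzero polynomials in `x`: `rt_frac` for `x`). Each `b` satisfies `b^m + ∑_{i=1}^{m} c_i(x) b^(m-i) = 0` with polynomials `c_i`; for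
`a ≥ deg c_i` (all `i ≥ 1`) we have `a i ≥ deg c_i`, `y^(a i) c_i(x) ∈ C[y]`, so `y^a b` is a root of a monic polynomial over `C[y]`.
Take one `a` for all `b_i` and `β_i = y^a b_i`, so `β_i x^a = b_i`. -/
theorem rt_basis [CharZero C] (hF : FF C L) {y : L} (hy : Transcendental C y) :
    ∃ (a : ℕ) (β : Fin (Module.finrank (IntermediateField.adjoin C {y}) L) → L),
      LinearIndependent (IntermediateField.adjoin C {y}) β ∧
      ∀ i, β i ∈ Rt C y ∧ β i * y⁻¹ ^ a ∈ Rt C y⁻¹ := by
  have hfin : FiniteDimensional (IntermediateField.adjoin C {y}) L := hF.fin y hy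
  have hy0 : y ≠ 0 := by
    rintro rfl
    exact hy isAlgebraic_zero
  have hx : Transcendental C y⁻¹ := transc_inv hy
  let b₀ := Module.finBasis (IntermediateField.adjoin C {y}) L
  choose q hq0 hq using fun i => rt_frac hF hx (b₀ i)
  choose d hd using fun i => p2d_int hy0 (hq i)
  let g : IntermediateField.adjoin C {y} := ⟨y, IntermediateField.mem_adjoin_simple_self C y⟩
  have hg0 : g ≠ 0 := fun h => hy0 (congrArg (fun z : IntermediateField.adjoin C {y} => (z : L)) h)
  let a := Finset.univ.sup d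
  have hval : ∀ p : C[X], ((aeval g⁻¹ p : IntermediateField.adjoin C {y}) : L) = aeval y⁻¹ p := by
    intro p
    have h1 := aeval_algHom_apply (IntermediateField.adjoin C {y}).val g⁻¹ p
    exact h1.symm
  have he : ∀ i, aeval g⁻¹ (q i) * g ^ a ≠ 0 := by
    intro i
    refine mul_ne_zero ?_ (pow_ne_zero _ hg0)
    intro h
    have h1 := hval (q i)
    rw [h] at h1
    exact hq0 i ((transcendental_iff.1 hx) _ h1.symm)
  have hlin := b₀.linearIndependent.units_smul (fun i => Units.mk0 _ (he i))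
  have hβ : ∀ i, ((fun i => Units.mk0 _ (he i)) • (b₀ : _ → L)) i = b₀ i * aeval y⁻¹ (q i) * y ^ a := by
    intro i
    rw [← hval]
    show (aeval g⁻¹ (q i) * g ^ a) • b₀ i = _
    rw [Algebra.smul_def]
    show ((aeval g⁻¹ (q i) : IntermediateField.adjoin C {y}) : L) * y ^ a * b₀ i = _
    ring
  refine ⟨a, _, hlin, fun i => ?_⟩
  rw [hβ i]
  refine ⟨hd i a (Finset.le_sup (Finset.mem_univ i)), ?_⟩
  have h1 : b₀ i * aeval y⁻¹ (q i) * y ^ a * y⁻¹ ^ a = b₀ i * aeval y⁻¹ (q i) := by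
    rw [mul_assoc, ← mul_pow, mul_inv_cancel₀ hy0, one_pow, mul_one]
  rw [h1]
  exact hq i

end GT
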