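import Mathlib
import Pool.Agent.MP_c1dca2_ag.GT.P0
import Pool.Agent.MP_c1dca2_ag.GT.P2d

set_option autoImplicit false

open Polynomial

namespace GT

/-! ## [GT-P3b] codimensions of ideals; a function with few poles -/

variable {C L : Type} [Field C] [Field L] [Algebra C L]

theorem p3b_smul_mem {x f : L} (hf : f ∈ Rt C x) (c : C) : c • f ∈ Rt C x := by
  have h1 : c • f = (algebraMap C (Algebra.adjoin C {x}) c) • f := (algebraMap_smul _ c f).symm
  rw [h1]
  exact (Rt C x).smul_mem hf _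

theorem p3b_self_mem (x : L) : x ∈ Rt C x := (tt C x).2

/-- injectivity -/
theorem p3b_inj {y : L} (hy : Transcendental C y) {n N : ℕ} {β : Fin n → L}
    (hβ : LinearIndependent (IntermediateField.adjoin C {y}) β) (c : Fin n × Fin N → C)
    (hc : ∑ k : Fin n × Fin N, c k • (y ^ (k.2 : ℕ) * β k.1) = 0) : c = 0 := by
  rw [Fintype.sum_prod_type] at hc
  let g : IntermediateField.adjoin C {y} := ⟨y, IntermediateField.mem_adjoin_simple_self C y⟩
  have h1 : ∑ i, (∑ j : Fin N, c (i, j) • g ^ (j : ℕ)) • β i = 0 := by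
    rw [← hc]
    refine Finset.sum_congr rfl fun i _ => ?_
    rw [Finset.sum_smul]
    refine Finset.sum_congr rfl fun j _ => ?_
    rw [smul_assoc]
    rfl
  have h2 := Fintype.linearIndependent_iff.1 hβ _ h1
  funext ⟨i, j⟩
  have h3 : ∑ j : Fin N, c (i, j) • y ^ (j : ℕ) = 0 := by
    have h4 := congrArg (fun z : IntermediateField.adjoin C {y} => (z : L)) (h2 i)
    have h5 : ((∑ j : Fin N, c (i, j) • g ^ (j : ℕ) : IntermediateField.adjoin C {y}) : L) =
        ∑ j : Fin N, c (i, j) • y ^ (j : ℕ) := by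
      rw [AddSubmonoidClass.coe_finsetSum]
      rfl
    rw [← h5]
    exact h4
  have h6 : aeval y (∑ j : Fin N, Polynomial.C (c (i, j)) * X ^ (j : ℕ)) = 0 := by
    rw [map_sum, ← h3]
    refine Finset.sum_congr rfl fun j _ => ?_
    rw [map_mul, map_pow, aeval_X, aeval_C, Algebra.smul_def]
  have h7 := (transcendental_iff.1 hy) _ h6
  have h8 := congrArg (fun p : C[X] => p.coeff j) h7
  simp only [finsetSum_coeff, coeff_zero] at h8
  rw [Finset.sum_eq_single j] at h8
  · rw [coeff_C_mul_X_pow, if_pos rfl] at h8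
    exact h8
  · intro b _ hb
    rw [coeff_C_mul_X_pow, if_neg]
    intro h9
    exact hb (Fin.ext h9.symm)
  · intro h9
    exact absurd (Finset.mem_univ _) h9

/-- Proof. `rt_basis` gives `a`, `β_i` (`i < n`). Let `M = n a + 2`, `N = M - a` if `n ≥ 1` (`n = 0` is impossible: `L ≠ 0`).
The `C`-linear map `Ψ : (Fin n → Fin (N+1) → C) → L`, `c ↦ ∑ c_ij y^j β_i`, is injective (`β` is linearly independent over
`C(y)` and `y` is transcendental), with values in `Rt C y`. Composed with `Rt C y → Rt C y ⧸ I ^ M` its kernel has dimension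
`≥ n (N + 1) - (n M - M) = n - n a + M ≥ 2`. The `c` with `Ψ c ∈ C y ^ M` form a subspace of dimension `≤ 1`. So there is `c` in the
kernel with `g = Ψ c ∉ C y ^ M`, and `g y⁻ᴹ = ∑ c_ij x^(M-a-j) (β_i x^a) ∈ Rt C x`, `x = y⁻¹`. -/
theorem exists_elt [CharZero C] (hF : FF C L) {y : L} (hy : Transcendental C y) (I : Ideal (Rt C y))
    (hI : ∀ M : ℕ, FiniteDimensional C (Rt C y ⧸ I ^ M) ∧
      Module.finrank C (Rt C y ⧸ I ^ M) + M ≤ Module.finrank (IntermediateField.adjoin C {y}) L * M) :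
    ∃ (M : ℕ) (g : Rt C y), g ∈ I ^ M ∧ (∀ c : C, (g : L) ≠ c • y ^ M) ∧ (g : L) * y⁻¹ ^ M ∈ Rt C y⁻¹ := by
  have hfin : FiniteDimensional (IntermediateField.adjoin C {y}) L := hF.fin y hy
  obtain ⟨a, β, hβ, hmem⟩ := rt_basis hF hy
  have hn : 0 < Module.finrank (IntermediateField.adjoin C {y}) L := Module.finrank_pos
  generalize hn' : Module.finrank (IntermediateField.adjoin C {y}) L = n at *
  obtain ⟨M, hM⟩ : ∃ M, M = n * a + 2 := ⟨_, rfl⟩
  obtain ⟨N, hN⟩ : ∃ N, M = N + a := ⟨M - a, by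
    have : a ≤ n * a := Nat.le_mul_of_pos_left a hn
    omega⟩
  obtain ⟨hfd, hdim⟩ := hI M
  let v : Fin n × Fin (N + 1) → Rt C y := fun k => tt C y ^ (k.2 : ℕ) * ⟨β k.1, (hmem k.1).1⟩
  let Ψ : (Fin n × Fin (N + 1) → C) →ₗ[C] Rt C y := Fintype.linearCombination C v
  let π : Rt C y →ₗ[C] (Rt C y ⧸ I ^ M) := (Ideal.Quotient.mkₐ C (I ^ M)).toLinearMap
  let ι : Rt C y →ₗ[C] L := ((Rt C y).val.restrictScalars C).toLinearMap
  have hι : ∀ z, ι z = (z : L) := fun _ => rfl
  have hΨ : ∀ c, ι (Ψ c) = ∑ k : Fin n × Fin (N + 1), c k • (y ^ (k.2 : ℕ) * β k.1) := by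
    intro c
    show ι (Fintype.linearCombination C v c) = _
    rw [Fintype.linearCombination_apply, map_sum]
    refine Finset.sum_congr rfl fun k _ => ?_
    rw [map_smul]
    rfl
  let f := π.comp Ψ
  have h1 := LinearMap.finrank_range_add_finrank_ker f
  rw [Module.finrank_fintype_fun_eq_card, Fintype.card_prod, Fintype.card_fin, Fintype.card_fin] at h1
  have h2 : Module.finrank C (LinearMap.range f) ≤ Module.finrank C (Rt C y ⧸ I ^ M) :=
    Submodule.finrank_le _
  have h3 : 1 < Module.finrank C (LinearMap.ker f) := by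
    have h4 : n * (N + 1) + n * a = n * M + n := by rw [hN]; ring
    nlinarith
  by_contra hcon
  push Not at hcon
  have h5 : ∀ c ∈ LinearMap.ker f, ι (Ψ c) ∈ Submodule.span C {y ^ M} := by
    intro c hc
    have h6 : Ψ c ∈ I ^ M := by
      have h7 : π (Ψ c) = 0 := hc
      exact Ideal.Quotient.eq_zero_iff_mem.1 h7
    by_contra h7
    refine hcon M (Ψ c) h6 ?_ ?_
    · intro c₀ h8
      apply h7
      rw [hι, h8]
      exact Submodule.smul_mem _ _ (Submodule.mem_span_singleton_self _)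
    · have h8 : (Ψ c : L) * y⁻¹ ^ M =
          ∑ k : Fin n × Fin (N + 1), c k • (y⁻¹ ^ (N - (k.2 : ℕ)) * (β k.1 * y⁻¹ ^ a)) := by
        rw [← hι, hΨ, Finset.sum_mul]
        refine Finset.sum_congr rfl fun k _ => ?_
        rw [smul_mul_assoc]
        refine congrArg _ ?_
        have hy0 : y ≠ 0 := by
          rintro rfl
          exact hy isAlgebraic_zero
        have h9 : (k.2 : ℕ) ≤ N := Nat.lt_succ_iff.1 k.2.2
        have h10 : M = (k.2 : ℕ) + (N - (k.2 : ℕ)) + a := by omega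
        have h11 : y ^ (k.2 : ℕ) * y⁻¹ ^ (k.2 : ℕ) = 1 := by
          rw [← mul_pow, mul_inv_cancel₀ hy0, one_pow]
        conv_lhs => rw [h10, pow_add, pow_add]
        linear_combination (β k.1 * y⁻¹ ^ (N - (k.2 : ℕ)) * y⁻¹ ^ a) * h11
      rw [h8]
      refine sum_mem fun k _ => ?_
      refine p3b_smul_mem (mul_mem (pow_mem (p3b_self_mem _) _) (hmem k.1).2) _
  let F : LinearMap.ker f →ₗ[C] Submodule.span C {y ^ M} :=
    ((ι.comp Ψ).comp (LinearMap.ker f).subtype).codRestrict _ fun c => h5 c c.2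
  have hinj : Function.Injective F := by
    rw [← LinearMap.ker_eq_bot, LinearMap.ker_eq_bot']
    intro c hc
    have h6 := congrArg (fun z : Submodule.span C {y ^ M} => (z : L)) hc
    have h7 : ι (Ψ c) = 0 := h6
    rw [hΨ] at h7
    exact Subtype.ext (p3b_inj hy hβ _ h7)
  have h6 := LinearMap.finrank_le_finrank_of_injective hinj
  have h7 : Module.finrank C (Submodule.span C {y ^ M}) ≤ 1 := by
    have h8 := finrank_span_le_card (R := C) ({y ^ M} : Set L)
    rwa [Set.toFinset_singleton, Finset.card_singleton] at h8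
  omega

end GT
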