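import Mathlib
import Pool.Agent.MP_c1dca2_ag.GT.P0
import Pool.Agent.MP_c1dca2_ag.GT.P1c
import Pool.Agent.MP_c1dca2_ag.GT.P2b
import Pool.Agent.MP_c1dca2_ag.GT.P4b
import Pool.Agent.MP_c1dca2_ag.GT.P5a
import Pool.Agent.MP_c1dca2_ag.GT.P5d
import Pool.Agent.MP_c1dca2_ag.GT.P6a

set_option autoImplicit false

open Polynomial

namespace GT

/-! ## [GT-P6b] existence of Apery systems -/

variable {C L : Type} [Field C] [Field L] [Algebra C L]

/-! ### helper lemmas -/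

theorem p6b_zpow {O : ValuationSubring L} {o : L → ℤ} (ho : IsOrd C O o) {a : L} (ha : a ≠ 0) (n : ℤ) :
    o (a ^ n) = n * o a := by
  obtain ⟨n, rfl | rfl⟩ := n.eq_nat_or_neg
  · rw [zpow_natCast, ord_pow ho ha]
  · rw [zpow_neg, zpow_natCast, ord_inv ho (pow_ne_zero _ ha), ord_pow ho ha]
    ring

theorem p6b_lt {O : ValuationSubring L} {o : L → ℤ} (ho : IsOrd C O o) {a : L} (ha : a ≠ 0) :
    O.valuation a < 1 ↔ 0 < o a := by
  have h1 : O.valuation a < 1 ↔ ¬ (a⁻¹ ∈ O) := by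
    rw [← O.valuation_le_one_iff, map_inv₀, not_le, one_lt_inv₀]
    exact zero_lt_iff.2 ((Valuation.ne_zero_iff _).2 ha)
  rw [h1, ho.mem _ (inv_ne_zero ha), ord_inv ho ha]
  omega

theorem p6b_lt' {O : ValuationSubring L} {o : L → ℤ} (ho : IsOrd C O o) {a : L} :
    O.valuation a < 1 ↔ a = 0 ∨ 0 < o a := by
  by_cases ha : a = 0
  · subst ha
    simp
  · rw [p6b_lt ho ha]
    simp [ha]

theorem p6b_poly {O : ValuationSubring L} (hO : IsPl C O) {o : L → ℤ} (ho : IsOrd C O o) {t : L}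
    (ht : t ≠ 0) (hot : o t < 0) : ∀ (n : ℕ) (q : C[X]), q ≠ 0 → q.natDegree = n →
      aeval t q ≠ 0 ∧ o (aeval t q) = n * o t := by
  intro n
  induction n with
  | zero =>
    intro q hq hn
    obtain ⟨c, rfl⟩ := natDegree_eq_zero.1 hn
    have hc : c ≠ 0 := by
      rintro rfl
      exact hq (by simp)
    rw [aeval_C, ord_const hO ho hc]
    exact ⟨(_root_.map_ne_zero _).2 hc, by simp⟩
  | succ n ih =>
    intro q hq hn
    have h1 : q.divX.natDegree = n := by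
      rw [natDegree_divX_eq_natDegree_tsub_one, hn, Nat.add_sub_cancel]
    have h2 : q.divX ≠ 0 := by
      intro h
      have h3 := divX_mul_X_add q
      rw [h, zero_mul, zero_add] at h3
      rw [← h3, natDegree_C] at hn
      exact absurd hn (by omega)
    obtain ⟨h3, h4⟩ := ih _ h2 h1
    have h5 : aeval t q = aeval t q.divX * t + algebraMap C L (q.coeff 0) := by
      conv_lhs => rw [← divX_mul_X_add q]
      simp
    have h6 : aeval t q.divX * t ≠ 0 := mul_ne_zero h3 ht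
    have h7 : o (aeval t q.divX * t) = ((n + 1 : ℕ) : ℤ) * o t := by
      rw [ho.mul _ _ h3 ht, h4]
      push_cast
      ring
    by_cases h8 : q.coeff 0 = 0
    · rw [h5, h8, map_zero, add_zero]
      exact ⟨h6, h7⟩
    · have h9 : o (aeval t q.divX * t) < o (algebraMap C L (q.coeff 0)) := by
        rw [ord_const hO ho h8, h7]
        have : (0 : ℤ) < ((n + 1 : ℕ) : ℤ) := by positivity
        exact mul_neg_of_pos_of_neg this hot
      obtain ⟨h10, h11⟩ := ord_add_eq ho h6 ((_root_.map_ne_zero _).2 h8) h9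
      rw [h5]
      exact ⟨h10, h11.trans h7⟩

/-- `c` is the leading coefficient of `g` with respect to `z`. -/
def p6b_Lam (C : Type) {L : Type} [Field C] [Field L] [Algebra C L] (O : ValuationSubring L) (o : L → ℤ)
    (z g : L) (c : C) : Prop :=
  O.valuation (g * z ^ (-o g) - algebraMap C L c) < 1

theorem p6b_u {O : ValuationSubring L} {o : L → ℤ} (ho : IsOrd C O o) {z g : L} (hz : z ≠ 0)
    (hz1 : o z = 1) (hg : g ≠ 0) : g * z ^ (-o g) ≠ 0 ∧ o (g * z ^ (-o g)) = 0 := by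
  refine ⟨mul_ne_zero hg (zpow_ne_zero _ hz), ?_⟩
  rw [ho.mul _ _ hg (zpow_ne_zero _ hz), p6b_zpow ho hz, hz1]
  ring

theorem p6b_ex {O : ValuationSubring L} {o : L → ℤ} (ho : IsOrd C O o) {z g : L} (hz : z ≠ 0)
    (hz1 : o z = 1) (hg : g ≠ 0) : ∃ c : C, c ≠ 0 ∧ p6b_Lam C O o z g c := by
  obtain ⟨h1, h2⟩ := p6b_u ho hz hz1 hg
  obtain ⟨c, hc⟩ := ho.res _ ((ho.mem _ h1).2 h2.ge)
  refine ⟨c, ?_, (p6b_lt' ho).2 hc⟩
  rintro rfl
  rw [map_zero, sub_zero] at hc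
  rcases hc with hc | hc
  · exact h1 hc
  · omega

theorem p6b_mul {O : ValuationSubring L} (hO : IsPl C O) {o : L → ℤ} (ho : IsOrd C O o) {z g g' : L}
    (hz : z ≠ 0) (hz1 : o z = 1) (hg : g ≠ 0) (hg' : g' ≠ 0) {c c' : C} (h : p6b_Lam C O o z g c)
    (h' : p6b_Lam C O o z g' c') : p6b_Lam C O o z (g * g') (c * c') := by
  unfold p6b_Lam at *
  have e : g * g' * z ^ (-o (g * g')) - algebraMap C L (c * c') =
      (g * z ^ (-o g) - algebraMap C L c) * (g' * z ^ (-o g')) +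
        algebraMap C L c * (g' * z ^ (-o g') - algebraMap C L c') := by
    rw [ho.mul _ _ hg hg', neg_add, zpow_add₀ hz, map_mul]
    ring
  rw [e]
  obtain ⟨h1, h2⟩ := p6b_u ho hz hz1 hg'
  have h3 : O.valuation (g' * z ^ (-o g')) ≤ 1 :=
    (O.valuation_le_one_iff _).2 ((ho.mem _ h1).2 h2.ge)
  have h4 : O.valuation (algebraMap C L c) ≤ 1 := (O.valuation_le_one_iff _).2 (hO.1 c)
  refine Valuation.map_add_lt _ ?_ ?_
  · rw [map_mul]
    exact (mul_le_of_le_one_right' h3).trans_lt h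
  · rw [map_mul]
    exact (mul_le_of_le_one_left' h4).trans_lt h'

theorem p6b_one {O : ValuationSubring L} (hO : IsPl C O) {o : L → ℤ} (ho : IsOrd C O o) {z : L}
    {c : C} (hc : c ≠ 0) : p6b_Lam C O o z (algebraMap C L c) c := by
  unfold p6b_Lam
  rw [ord_const hO ho hc, neg_zero, zpow_zero, mul_one, sub_self, map_zero]
  exact zero_lt_one

theorem p6b_pow {O : ValuationSubring L} (hO : IsPl C O) {o : L → ℤ} (ho : IsOrd C O o) {z g : L}
    (hz : z ≠ 0) (hz1 : o z = 1) (hg : g ≠ 0) (h : p6b_Lam C O o z g (1 : C)) (n : ℕ) :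
    p6b_Lam C O o z (g ^ n) (1 : C) := by
  induction n with
  | zero =>
    have := p6b_one (z := z) hO ho (one_ne_zero (α := C))
    rwa [map_one, ← pow_zero g] at this
  | succ n ih =>
    have := p6b_mul hO ho hz hz1 (pow_ne_zero n hg) hg ih h
    rwa [mul_one, ← pow_succ] at this

theorem p6b_sub {O : ValuationSubring L} {o : L → ℤ} (ho : IsOrd C O o) {z g g' : L} (hz : z ≠ 0)
    (hz1 : o z = 1) {c : C} (h : p6b_Lam C O o z g c)
    (h' : p6b_Lam C O o z g' c) (ho' : o g = o g') : g = g' ∨ o g < o (g - g') := by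
  unfold p6b_Lam at *
  by_cases hgg : g = g'
  · exact Or.inl hgg
  · right
    have h1 : g - g' ≠ 0 := sub_ne_zero.2 hgg
    have e : (g - g') * z ^ (-o g) = (g * z ^ (-o g) - algebraMap C L c) -
        (g' * z ^ (-o g') - algebraMap C L c) := by
      rw [← ho']
      ring
    have h2 : O.valuation ((g - g') * z ^ (-o g)) < 1 := by
      rw [e]
      exact lt_of_le_of_lt (Valuation.map_sub _ _ _) (max_lt h h')
    rw [p6b_lt ho (mul_ne_zero h1 (zpow_ne_zero _ hz)), ho.mul _ _ h1 (zpow_ne_zero _ hz),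
      p6b_zpow ho hz, hz1] at h2
    omega

/-- Every residue class is the order of the pole of an element of `RO C O₁`. -/
theorem p6b_class [CharZero C] [IsAlgClosed C] (hF : FF C L) {O₁ : ValuationSubring L} (hO : IsPl C O₁)
    {o : L → ℤ} (ho : IsOrd C O₁ o) {t : L} (ht : t ∉ O₁)
    (ht' : ∀ O : ValuationSubring L, IsPl C O → O ≠ O₁ → t ∈ O) (d : ℕ) [NeZero d] (hd : o t = -(d : ℤ))
    (i : ZMod d) : ∃ (m : ℕ) (r : L), r ∈ RO C O₁ ∧ r ≠ 0 ∧ o r = -(m : ℤ) ∧ (m : ZMod d) = i := by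
  obtain ⟨z, hz, hz1⟩ := ho.surj
  have ht0 : t ≠ 0 := fun h => ht (h ▸ O₁.zero_mem)
  have htn : o t < 0 := by
    by_contra h
    exact ht ((ho.mem t ht0).2 (not_lt.1 h))
  have hg : z ^ (-i).val ≠ 0 := pow_ne_zero _ hz
  obtain ⟨q, hq, hq'⟩ := rt_frac hF (transc_pole hO ht) (z ^ (-i).val)
  obtain ⟨h1, h2⟩ := p6b_poly hO ho ht0 htn _ q hq rfl
  have h3 : z ^ (-i).val * aeval t q ≠ 0 := mul_ne_zero hg h1
  have h4 : z ^ (-i).val * aeval t q ∈ RO C O₁ := (ro_eq ht ht' _).2 hq'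
  have h5 : o (z ^ (-i).val * aeval t q) = ((-i).val : ℤ) - q.natDegree * d := by
    rw [ho.mul _ _ hg h1, ord_pow ho hz, hz1, h2, hd]
    ring
  have h6 := (ro_ord hO ho h4 h3).1
  refine ⟨(-o (z ^ (-i).val * aeval t q)).toNat, _, h4, h3, ?_, ?_⟩
  · rw [Int.toNat_of_nonneg (by omega)]
    ring
  · have h7 : (((-o (z ^ (-i).val * aeval t q)).toNat : ℤ) : ZMod d) = i := by
      rw [Int.toNat_of_nonneg (by omega), h5]
      push_cast
      rw [ZMod.natCast_self, ZMod.natCast_zmod_val]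
      ring
    rwa [Int.cast_natCast] at h7

/-- Proof. `exists_single` gives `t`; `t ∈ RO C O₁`, `d := - o t > 0` (`t ∉ O₁`). For a residue class `i` modulo `d` there is `g ∈ L` with
`- o g ≡ i` (`surj` and powers), `g = r / q(t)` with `r ∈ Rt C t = RO C O₁`, `q ≠ 0` (`rt_frac`), and `o (q(t)) = - d deg q` (leading term, `ord_add_eq`), so `- o r ≡ i`, and
`- o r ≥ 0` by `ro_ord`. Let `w i` be the least natural number `≡ i` that is `- o r` for some `r ∈ RO C O₁`, `r ≠ 0`; `w 0 = 0` (`r = 1`). Choose a uniformizer `z` (`o z = 1`). For `g ≠ 0` the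
element `g z^(- o g)` (integer power) has order `0`, so there is a unique `λ(g) ∈ C`, `λ(g) ≠ 0`, with `g z^(-o g) - λ(g)` zero or of positive order (`res`); `λ` is
multiplicative, and for `o g = o g'` with `λ(g) = λ(g')` the difference `g - g'` is zero or has larger order. Take `x := t / λ(t)`, `f i` with `- o (f i) = w i`, `λ(f i) = 1`, `f 0 = 1`.
`min`: `- o r ≡ i`, `- o r ≥ w i`, so the difference is `d n`. `lc`: both sides have the same order and `λ = 1`. -/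
theorem exists_apery [CharZero C] [IsAlgClosed C] (hF : FF C L) {O₁ : ValuationSubring L} (hO : IsPl C O₁)
    {o : L → ℤ} (ho : IsOrd C O₁ o) :
    ∃ (d : ℕ) (_ : NeZero d) (x : L) (f : ZMod d → L) (w : ZMod d → ℕ), Apery C O₁ o d x f w := by
  classical
  obtain ⟨t, ht, ht'⟩ := exists_single hF hO
  obtain ⟨z, hz, hz1⟩ := ho.surj
  have ht0 : t ≠ 0 := fun h => ht (h ▸ O₁.zero_mem)
  have htn : o t < 0 := by
    by_contra h
    exact ht ((ho.mem t ht0).2 (not_lt.1 h))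
  obtain ⟨d, hd⟩ : ∃ d : ℕ, o t = -(d : ℤ) := ⟨(-o t).toNat, by rw [Int.toNat_of_nonneg (by omega)]; ring⟩
  have hd0 : NeZero d := ⟨by rintro rfl; simp at hd; omega⟩
  have hex := p6b_class hF hO ho ht ht' d hd
  -- the weights
  let w : ZMod d → ℕ := fun i => if i = 0 then 0 else Nat.find (hex i)
  have hw0 : w 0 = 0 := by simp [w]
  have hw : ∀ i, ∃ r : L, r ∈ RO C O₁ ∧ r ≠ 0 ∧ o r = -(w i : ℤ) ∧ (w i : ZMod d) = i ∧
      (i = 0 → r = 1) := by
    intro i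
    by_cases hi : i = 0
    · subst hi
      refine ⟨1, (RO C O₁).one_mem, one_ne_zero, ?_, ?_, fun _ => rfl⟩
      · rw [hw0, ord_one ho]
        simp
      · rw [hw0]
        simp
    · have hwi : w i = Nat.find (hex i) := if_neg hi
      obtain ⟨r, h1, h2, h3, h4⟩ := Nat.find_spec (hex i)
      rw [← hwi] at h3 h4
      exact ⟨r, h1, h2, h3, h4, fun h => absurd h hi⟩
  have hwmin : ∀ (i : ZMod d) (m : ℕ) (r : L), r ∈ RO C O₁ → r ≠ 0 → o r = -(m : ℤ) →
      (m : ZMod d) = i → w i ≤ m := by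
    intro i m r h1 h2 h3 h4
    by_cases hi : i = 0
    · rw [hi, hw0]
      exact Nat.zero_le _
    · have hwi : w i = Nat.find (hex i) := if_neg hi
      rw [hwi]
      exact Nat.find_min' (hex i) ⟨r, h1, h2, h3, h4⟩
  -- normalisation
  have hnorm : ∀ r : L, r ∈ RO C O₁ → r ≠ 0 → ∃ r' : L, r' ∈ RO C O₁ ∧ r' ≠ 0 ∧ o r' = o r ∧
      p6b_Lam C O₁ o z r' (1 : C) := by
    intro r hr hr0
    obtain ⟨c, hc, hl⟩ := p6b_ex ho hz hz1 hr0
    have hc' : algebraMap C L c⁻¹ ≠ 0 := (_root_.map_ne_zero _).2 (inv_ne_zero hc)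
    refine ⟨algebraMap C L c⁻¹ * r, (RO C O₁).mul_mem (const_mem_RO O₁ _) hr, mul_ne_zero hc' hr0, ?_, ?_⟩
    · rw [ho.mul _ _ hc' hr0, ord_const hO ho (inv_ne_zero hc), zero_add]
    · have := p6b_mul hO ho hz hz1 hc' hr0 (p6b_one (z := z) hO ho (inv_ne_zero hc)) hl
      rwa [inv_mul_cancel₀ hc] at this
  obtain ⟨x, hx1, hx2, hx3, hx4⟩ := hnorm t ht' ht0
  have hf : ∀ i, ∃ r : L, r ∈ RO C O₁ ∧ r ≠ 0 ∧ o r = -(w i : ℤ) ∧ p6b_Lam C O₁ o z r (1 : C) ∧
      (i = 0 → r = 1) := by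
    intro i
    obtain ⟨r, h1, h2, h3, h4, h5⟩ := hw i
    by_cases hi : i = 0
    · refine ⟨r, h1, h2, h3, ?_, h5⟩
      rw [h5 hi]
      have := p6b_one (z := z) hO ho (one_ne_zero (α := C))
      rwa [map_one] at this
    · obtain ⟨r', h6, h7, h8, h9⟩ := hnorm r h1 h2
      exact ⟨r', h6, h7, h8.trans h3, h9, fun h => absurd h hi⟩
  choose f hf1 hf2 hf3 hf4 hf5 using hf
  refine ⟨d, hd0, x, f, w, ⟨hx1, hx2, hx3.trans hd, hf1, hf2, hf3, ?_, hf5 0 rfl, hw0, ?_, ?_⟩⟩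
  · intro i
    obtain ⟨r, -, -, -, h4, -⟩ := hw i
    exact h4
  · intro r hr hr0
    have h1 := (ro_ord hO ho hr hr0).1
    obtain ⟨m, hm⟩ : ∃ m : ℕ, o r = -(m : ℤ) := ⟨(-o r).toNat, by rw [Int.toNat_of_nonneg (by omega)]; ring⟩
    have h2 := hwmin (m : ZMod d) m r hr hr0 hm rfl
    have h3 : (w (m : ZMod d) : ZMod d) = (m : ZMod d) := by
      obtain ⟨r, -, -, -, h4, -⟩ := hw (m : ZMod d)
      exact h4
    obtain ⟨n, hn⟩ := (Nat.modEq_iff_dvd' h2).1 ((ZMod.natCast_eq_natCast_iff _ _ _).1 h3)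
    refine ⟨(m : ZMod d), n, ?_⟩
    rw [hm, ← hn, Nat.sub_add_cancel h2]
  · intro i j n hn
    have h1 := p6b_mul hO ho hz hz1 (hf2 i) (hf2 j) (hf4 i) (hf4 j)
    have h2 := p6b_mul hO ho hz hz1 (pow_ne_zero n hx2) (hf2 (i + j)) (p6b_pow hO ho hz hz1 hx2 hx4 n)
      (hf4 (i + j))
    rw [mul_one] at h1 h2
    have h3 : o (f i * f j) = -((w i + w j : ℕ) : ℤ) := by
      rw [ho.mul _ _ (hf2 i) (hf2 j), hf3, hf3]
      push_cast
      ring
    have h4 : o (x ^ n * f (i + j)) = -((w i + w j : ℕ) : ℤ) := by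
      rw [ho.mul _ _ (pow_ne_zero n hx2) (hf2 (i + j)), ord_pow ho hx2, hx3, hd, hf3, ← hn]
      push_cast
      ring
    rcases p6b_sub ho hz hz1 h1 h2 (h3.trans h4.symm) with h | h
    · exact Or.inl h
    · exact Or.inr (h3 ▸ h)

variable {O₁ : ValuationSubring L} {o : L → ℤ} {d : ℕ} [NeZero d] {x : L} {f : ZMod d → L} {w : ZMod d → ℕ}

end GT
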