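import Mathlib

set_option autoImplicit false

open Polynomial

namespace GT

/-! ## [GT-X1a] pure lemmas: groups, roots of unipotent elements -/

theorem x1a_root {A : Type} [CommGroup A] (ℓ : ℕ) (hdiv : ∀ a : A, ∃ b : A, b ^ ℓ = a) (N : ℕ) (a : A) :
    ∃ b : A, b ^ ℓ ^ N = a := by
  induction N with
  | zero => exact ⟨a, by rw [pow_zero, pow_one]⟩
  | succ N ih =>
    obtain ⟨b, hb⟩ := ih
    obtain ⟨c, hc⟩ := hdiv b
    exact ⟨c, by rw [pow_succ', pow_mul, hc, hb]⟩

/-- the index of the image of an endomorphism of a finite group is the order of the kernel -/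
theorem x1a_index {F : Type} [CommGroup F] [Finite F] (g : F →* F) :
    g.range.index = Nat.card g.ker := by
  have h1 := g.range.card_mul_index
  have h2 := g.ker.card_mul_index
  rw [Subgroup.index_ker] at h2
  have h3 : 0 < Nat.card g.range := Nat.card_pos
  have h4 : Nat.card g.range * g.range.index = Nat.card g.range * Nat.card g.ker := by
    rw [h1, ← h2, Nat.mul_comm]
  exact Nat.eq_of_mul_eq_mul_left h3 h4

/-- Let `A` be an abelian torsion group of exponents `ℓ^n`, `ℓ`-divisible, `φ` an automorphism with finite orbits and finitely many fixed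
points. Then `b ↦ φ b / b` is surjective.

Proof. Let `I` be the subgroup of the elements `φ b / b` (the range of the homomorphism `b ↦ φ b / b`).
(1) `A ⧸ I` has at most `m := #{a : φ a = a}` elements: given `m + 1` elements `a_0, ..., a_m` of `A`, they are in a finite `φ`-stable subgroup `F` (generated by the
finitely many elements of their orbits; each has finite order, so the subgroup is finite, e.g. by `Subgroup.closure` of a finite set in a commutative torsion group:
`CommGroup.finite_of_fg_torsion` or by induction with `a ↦ zpowers a` and `Set.Finite.mul`). The endomorphism `f : b ↦ φ b / b` of the finite group `F` has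
`#(F ⧸ f(F)) = # ker f|_F ≤ m` (Lagrange), so two of the `a_i` agree modulo `f(F) ⊆ I`.
(2) `A ⧸ I` is finite, of exponent a power of `ℓ` on each element (torsion), and `ℓ`-divisible. The map `x ↦ x ^ ℓ` of the finite group `A ⧸ I` is surjective, so it is
injective, so there is no element of order `ℓ`, so (every element has order a power of `ℓ`) `A ⧸ I` is trivial. -/
theorem surj_of_orbits {A : Type} [CommGroup A] (φ : A ≃* A) (ℓ : ℕ) (hℓ : ℓ.Prime)
    (htor : ∀ a : A, ∃ n : ℕ, a ^ ℓ ^ n = 1) (hdiv : ∀ a : A, ∃ b : A, b ^ ℓ = a)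
    (horb : ∀ a : A, ∃ n : ℕ, 0 < n ∧ φ^[n] a = a) (hfix : {a : A | φ a = a}.Finite) (a : A) :
    ∃ b : A, φ b / b = a := by
  classical
  -- the number of fixed points
  have hfin : Finite {a : A | φ a = a} := hfix
  obtain ⟨m, hm⟩ : ∃ m, m = Nat.card {a : A | φ a = a} := ⟨_, rfl⟩
  obtain ⟨a', ha'⟩ := x1a_root ℓ hdiv m a
  -- the orbit
  obtain ⟨n, hn, hper⟩ := horb a'
  obtain ⟨S, hS⟩ : ∃ S : Set A, S = Set.range (fun i : ℕ => φ^[i] a') := ⟨_, rfl⟩
  have hSfin : Finite S := by
    have h1 : S ⊆ (fun i : ℕ => φ^[i] a') '' (Set.Iio n) := by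
      rw [hS]
      rintro x ⟨i, rfl⟩
      refine ⟨i % n, Nat.mod_lt _ hn, ?_⟩
      exact Function.IsPeriodicPt.iterate_mod_apply (f := φ) hper i
    exact ((Set.finite_Iio n).image _).subset h1
  obtain ⟨F, hF⟩ : ∃ F : Subgroup A, F = Subgroup.closure S := ⟨_, rfl⟩
  have haF : a' ∈ F := by
    rw [hF]
    apply Subgroup.subset_closure
    rw [hS]
    exact ⟨0, rfl⟩
  have hφF : ∀ x ∈ F, φ x ∈ F := by
    intro x hx
    have h1 : F.map φ.toMonoidHom ≤ F := by
      rw [hF, MonoidHom.map_closure]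
      apply Subgroup.closure_mono
      rintro y ⟨z, hz, rfl⟩
      rw [hS] at hz ⊢
      obtain ⟨i, rfl⟩ := hz
      exact ⟨i + 1, Function.iterate_succ_apply' φ i a'⟩
    exact h1 ⟨x, hx, rfl⟩
  have hFfg : Group.FG F := by
    rw [hF]
    exact Group.closure_finite_fg S
  have hFtor : IsMulTorsion F := by
    intro x
    obtain ⟨k, hk⟩ := htor x
    rw [isOfFinOrder_iff_pow_eq_one]
    exact ⟨ℓ ^ k, pow_pos hℓ.pos k, Subtype.ext (by push_cast; exact hk)⟩
  have hFfin : Finite F := CommGroup.finite_of_fg_isMulTorsion F hFtor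
  -- the endomorphism of `F`
  let f : A →* A := ⟨⟨fun b => φ b / b, by simp⟩, fun x y => by
    simp only [map_mul]
    exact mul_div_mul_comm _ _ _ _⟩
  have hf : ∀ b, f b = φ b / b := fun b => rfl
  let g : F →* F := (f.comp F.subtype).codRestrict F (fun x => by
    change φ (x : A) / (x : A) ∈ F
    exact F.div_mem (hφF _ x.2) x.2)
  have hg : ∀ x : F, ((g x : F) : A) = φ (x : A) / (x : A) := fun x => rfl
  -- the index
  have hidx := x1a_index g
  have hle : Nat.card g.ker ≤ m := by
    rw [hm]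
    refine Nat.card_le_card_of_injective (fun x : g.ker => (⟨((x : F) : A), ?_⟩ : {a : A | φ a = a})) ?_
    · have h1 : g (x : F) = 1 := x.2
      have h2 := congrArg (fun y : F => (y : A)) h1
      simp only [hg] at h2
      exact div_eq_one.1 h2
    · intro x y hxy
      have h1 := congrArg (fun z : {a : A | φ a = a} => (z : A)) hxy
      exact Subtype.ext (Subtype.ext h1)
  have hpg : IsPGroup ℓ F := by
    intro x
    obtain ⟨k, hk⟩ := htor x
    exact ⟨k, Subtype.ext (by push_cast; exact hk)⟩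
  have hfact : Fact ℓ.Prime := ⟨hℓ⟩
  obtain ⟨k, hk⟩ := (IsPGroup.iff_card).1 hpg
  have hdvd : Nat.card g.ker ∣ ℓ ^ k := by
    rw [← hk]
    exact Subgroup.card_subgroup_dvd_card _
  obtain ⟨j, -, hj⟩ := (Nat.dvd_prime_pow hℓ).1 hdvd
  have hjm : j < m := by
    have h1 : m < ℓ ^ m := Nat.lt_pow_self hℓ.one_lt
    have h2 : ℓ ^ j < ℓ ^ m := by omega
    exact (Nat.pow_lt_pow_iff_right hℓ.one_lt).1 h2
  have hmem : (⟨a', haF⟩ : F) ^ g.range.index ∈ g.range := Subgroup.pow_index_mem _ _
  rw [hidx, hj] at hmem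
  obtain ⟨b, hb⟩ := hmem
  have hb' : φ (b : A) / (b : A) = a' ^ ℓ ^ j := by
    have h1 := congrArg (fun y : F => (y : A)) hb
    simp only [hg] at h1
    rw [h1]
    push_cast
    rfl
  refine ⟨(b : A) ^ ℓ ^ (m - j), ?_⟩
  rw [map_pow, ← div_pow, hb', ← pow_mul, ← pow_add, ← ha']
  congr 2
  omega

end GT
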