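import Mathlib
import Pool.Agent.MP_c1dca2_ag.GT.A7
import Pool.Agent.MP_c1dca2_ag.GT.Base
import Pool.Agent.MP_c1dca2_ag.GT.Defs
import Pool.Agent.MP_c1dca2_ag.GT.L1
import Pool.Agent.MP_c1dca2_ag.SUP.Defs
import Pool.Agent.MP_c1dca2_ag.SUP.L1

set_option autoImplicit false
set_option linter.unusedSectionVars false

open Polynomial

namespace GT

/-! ## [GT-F1] finitely many ideals are fixed by Frobenius (file F1.lean; uses A7, A10, L1) -/

variable {d : ℕ} [NeZero d]

/-- An ideal contains a monic polynomial of degree the number of its prime factors: every prime factor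
contains some `X - c` (`exists_const`). -/
theorem exists_poly_mem {κ : Type} [Field κ] [IsAlgClosed κ] {T : Tab κ d}
    [IsDedekindDomain (WB T)] (I : Ideal (WB T)) (hI : I ≠ ⊥) :
    ∃ p : κ[X], p.Monic ∧ p.natDegree = len I ∧ algebraMap κ[X] (WB T) p ∈ I := by
  refine ideal_ind (P := fun I => ∃ p : κ[X], p.Monic ∧ p.natDegree = len I ∧
    algebraMap κ[X] (WB T) p ∈ I) ?_ ?_ I hI
  · exact ⟨1, monic_one, by rw [natDegree_one, len_top], Submodule.mem_top⟩
  · rintro Q J hQ h0 hJ ⟨p, hp, hp1, hp2⟩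
    obtain ⟨c, hc⟩ := exists_const Q hQ h0 (WB.x T)
    refine ⟨(X - C c) * p, (monic_X_sub_C c).mul hp, ?_, ?_⟩
    · rw [(monic_X_sub_C c).natDegree_mul hp, natDegree_X_sub_C, hp1, len_mul h0 hJ,
        len_maximal hQ h0]
    · rw [map_mul]
      refine Ideal.mul_mem_mul ?_ hp2
      rw [map_sub]
      have h1 : algebraMap κ[X] (WB T) (C c) = algebraMap κ (WB T) c := by
        rw [IsScalarTower.algebraMap_apply κ κ[X] (WB T), Polynomial.algebraMap_eq]
      rw [h1]
      exact hc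

theorem c5b_fin_roots {κ : Type} [Field κ] (Q : ℕ) (hQ : 2 ≤ Q) : {x : κ | x ^ Q = x}.Finite := by
  classical
  have hne : (X ^ Q - X : κ[X]) ≠ 0 := FiniteField.X_pow_card_sub_X_ne_zero κ (by omega)
  refine Set.Finite.subset (Finset.finite_toSet ((X ^ Q - X : κ[X]).roots.toFinset)) ?_
  intro x hx
  rw [Set.mem_ofPred_eq] at hx
  rw [Finset.mem_coe, Multiset.mem_toFinset, mem_roots hne, IsRoot.def, eval_sub, eval_pow, eval_X,
    hx, sub_self]

theorem c5b_fin_poly {κ : Type} [Field κ] (φ : κ ≃+* κ) (Q : ℕ) (hQ : 2 ≤ Q)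
    (hφ : ∀ z, φ z = z ^ Q) (n : ℕ) :
    {p : κ[X] | p.natDegree ≤ n ∧ p.map (φ : κ →+* κ) = p}.Finite := by
  refine Set.Finite.of_injOn (f := fun (p : κ[X]) (i : Fin (n + 1)) => p.coeff i)
    (t := Set.pi Set.univ (fun _ => {x : κ | x ^ Q = x})) ?_ ?_
    (Set.Finite.pi fun _ => c5b_fin_roots Q hQ)
  · intro p hp i _
    rw [Set.mem_ofPred_eq] at hp ⊢
    have h1 := congrArg (fun q : κ[X] => q.coeff i) hp.2
    simp only [coeff_map] at h1
    rw [← hφ]
    exact h1
  · intro p hp q hq hpq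
    rw [Set.mem_ofPred_eq] at hp hq
    ext i
    by_cases hi : i ≤ n
    · exact congrFun hpq ⟨i, by omega⟩
    · rw [coeff_eq_zero_of_natDegree_lt (by omega), coeff_eq_zero_of_natDegree_lt (by omega)]

/-- Finitely many ideals of bounded length are fixed by the coefficientwise `Q`-power map `φ`: such
an ideal `I` contains a nonzero polynomial of degree `≤ n` (`exists_poly_mem`); let `p` be the monic
generator of `I ∩ κ[X]`, of degree `≤ n`. It is fixed by `φ`, so its coefficients satisfy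
`x^Q = x`, which has finitely many solutions (`Q ≥ 2`): finitely many `p`. And `I` contains `(p)`:
finitely many `I` (`finite_ge`). -/
theorem finite_fixed_ideals {κ : Type} [Field κ] [IsAlgClosed κ] {T : Tab κ d}
    [IsDedekindDomain (WB T)] (φ : κ ≃+* κ) (Q : ℕ)
    (hQ : 2 ≤ Q) (hφ : ∀ z, φ z = z ^ Q) (hT : T.map (φ : κ →+* κ) = T) (n : ℕ) :
    {I : Ideal (WB T) | I ≠ ⊥ ∧ len I ≤ n ∧ I.map (bE φ hT) = I}.Finite := by
  classical
  refine Set.Finite.subset (Set.Finite.biUnion (s := {p : κ[X] | p.Monic ∧ p.natDegree ≤ n ∧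
    p.map (φ : κ →+* κ) = p})
    (t := fun p => {I : Ideal (WB T) | Ideal.span {algebraMap κ[X] (WB T) p} ≤ I}) ?_ ?_) ?_
  · exact (c5b_fin_poly φ Q hQ hφ n).subset fun p hp => hp.2
  · intro p hp
    apply finite_ge
    intro h
    rw [Ideal.span_singleton_eq_bot] at h
    have h1 : p = 0 := WB.algebraMap_injective (by rw [h, map_zero])
    exact hp.1.ne_zero h1
  · intro I hI
    obtain ⟨hI0, hlen, hmap⟩ := hI
    obtain ⟨q, hq, hqn, hqI⟩ := exists_poly_mem I hI0
    have hex : ∃ d : ℕ, ∃ p : κ[X], p.Monic ∧ p.natDegree = d ∧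
        algebraMap κ[X] (WB T) p ∈ I := ⟨len I, q, hq, hqn, hqI⟩
    obtain ⟨p, hp, hpd, hpI⟩ := Nat.find_spec hex
    have hmin : ∀ r : κ[X], r ≠ 0 → algebraMap κ[X] (WB T) r ∈ I →
        p.natDegree ≤ r.natDegree := by
      intro r hr hrI
      rw [hpd]
      apply Nat.find_min'
      refine ⟨r * C (r.leadingCoeff)⁻¹, monic_mul_leadingCoeff_inv hr, ?_, ?_⟩
      · exact natDegree_mul_leadingCoeff_inv r hr
      · rw [map_mul]
        exact I.mul_mem_right _ hrI
    have hfix : p.map (φ : κ →+* κ) = p := by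
      by_contra hne
      have h1 : p - p.map (φ : κ →+* κ) ≠ 0 := fun h => hne (sub_eq_zero.1 h).symm
      have h2 : algebraMap κ[X] (WB T) (p.map (φ : κ →+* κ)) ∈ I := by
        rw [← bmap_algebraMap (φ : κ →+* κ) hT p, ← bE_apply]
        rw [← hmap]
        exact Ideal.mem_map_of_mem _ hpI
      have h3 : algebraMap κ[X] (WB T) (p - p.map (φ : κ →+* κ)) ∈ I := by
        rw [map_sub]
        exact I.sub_mem hpI h2
      have h4 := hmin _ h1 h3
      have h5 : (p - p.map (φ : κ →+* κ)).degree < p.degree := by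
        apply degree_sub_lt_left
        · rw [degree_map_eq_of_injective φ.injective]
        · exact hp.ne_zero
        · rw [hp.leadingCoeff, (hp.map (φ : κ →+* κ)).leadingCoeff]
      have h6 := natDegree_lt_natDegree h1 h5
      omega
    rw [Set.mem_iUnion₂]
    refine ⟨p, ⟨hp, ?_, hfix⟩, ?_⟩
    · have := hmin q hq.ne_zero hqI
      omega
    · rw [Set.mem_ofPred_eq, Ideal.span_singleton_le_iff_mem]
      exact hpI

end GT
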