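import Mathlib
import Pool.Agent.MP_c1dca2_ag.GT.Base
import Pool.Agent.MP_c1dca2_ag.GT.P0
import Pool.Agent.MP_c1dca2_ag.GT.P1c
import Pool.Agent.MP_c1dca2_ag.GT.P4a
import Pool.Agent.MP_c1dca2_ag.GT.P4b
import Pool.Agent.MP_c1dca2_ag.GT.P5d
import Pool.Agent.MP_c1dca2_ag.GT.P6a
import Pool.Agent.MP_c1dca2_ag.GT.P8d

set_option autoImplicit false

open Polynomial

namespace GT

/-! ## [GT-P8b] models of function fields with one place at infinity -/

variable {C L : Type} [Field C] [Field L] [Algebra C L]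

variable {O₁ : ValuationSubring L} {d : ℕ} [NeZero d] {T : Tab C d} {E : WB T →+* L}

/-- The places different from `O₁` are the localisations of `WB T` at maximal ideals.

Proof. `exists_single` gives `t`; `RO C O₁ = Rt C t` (`ro_eq`), `t ∈ O`; transport `centre` along `E`. -/
theorem Model.place [CharZero C] [IsAlgClosed C] (hF : FF C L) (hO₁ : IsPl C O₁) (h : Model O₁ T E) {O : ValuationSubring L} (hO : IsPl C O)
    (hne : O ≠ O₁) :
    ∃ P : Ideal (WB T), P.IsMaximal ∧ P ≠ ⊥ ∧ (∀ b, b ∈ P ↔ E b ∈ O.nonunits) ∧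
      ∀ f : L, f ∈ O ↔ ∃ a b : WB T, b ∉ P ∧ f * E b = E a := by
  obtain ⟨t, ht, ht'⟩ := exists_single hF hO₁
  have htr : Transcendental C t := transc_pole hO₁ ht
  obtain ⟨p, hp1, hp2, hp3, hp4⟩ := centre hF htr hO (ht' O hO hne)
  have hmem : ∀ b : WB T, E b ∈ Rt C t := fun b => (ro_eq ht ht' _).mp ((h.range _).mpr ⟨b, rfl⟩)
  obtain ⟨φ, hφ⟩ : ∃ φ : WB T →+* Rt C t, ∀ b, ((φ b : Rt C t) : L) = E b :=
    ⟨E.codRestrict (Rt C t) hmem, fun b => rfl⟩
  have hsurj : Function.Surjective φ := by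
    rintro ⟨g, hg⟩
    obtain ⟨b, hb⟩ := (h.range _).mp ((ro_eq ht ht' g).mpr hg)
    exact ⟨b, Subtype.ext (by rw [hφ, hb])⟩
  refine ⟨p.comap φ, Ideal.comap_isMaximal_of_surjective _ hsurj, ?_, ?_, ?_⟩
  · intro h0
    apply hp2
    rw [eq_bot_iff]
    intro y hy
    obtain ⟨b, rfl⟩ := hsurj y
    have hb : b ∈ p.comap φ := Ideal.mem_comap.mpr hy
    rw [h0, Ideal.mem_bot] at hb
    rw [hb, map_zero]
    exact Ideal.zero_mem _
  · intro b
    rw [Ideal.mem_comap, hp3, hφ]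
  · intro g
    rw [hp4]
    constructor
    · rintro ⟨r, s, hs, hrs⟩
      obtain ⟨a, rfl⟩ := hsurj r
      obtain ⟨b, rfl⟩ := hsurj s
      rw [hφ, hφ] at hrs
      exact ⟨a, b, hs, hrs⟩
    · rintro ⟨a, b, hb, hab⟩
      refine ⟨φ a, φ b, hb, ?_⟩
      rw [hφ, hφ]
      exact hab

end GT
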