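import Mathlib
import Pool.Agent.MP_c1dca2_ag.GT.Base
import Pool.Agent.MP_c1dca2_ag.GT.P0

set_option autoImplicit false
set_option linter.unusedSectionVars false

open Polynomial IsLocalRing

namespace GT

/-! ## [GT-S1] preparations for the star theorem -/

/-- A function field has a place. -/
theorem exists_pl {C N : Type} [Field C] [Field N] [Algebra C N] (hF : FF C N) :
    ∃ O : ValuationSubring N, IsPl C O := by
  obtain ⟨t, ht⟩ := hF.ex
  let R : Subring N := (Algebra.adjoin C {t}).toSubring
  let t' : R := ⟨t, Algebra.subset_adjoin (Set.mem_singleton t)⟩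
  have hne : Ideal.span {t'} ≠ ⊤ := by
    intro h
    rw [Ideal.span_singleton_eq_top] at h
    obtain ⟨u, hu⟩ := h.exists_right_inv
    have hu' : (u : N) ∈ Algebra.adjoin C {t} := u.2
    rw [Algebra.adjoin_singleton_eq_range_aeval] at hu'
    obtain ⟨p, hp⟩ := hu'
    have h1 : t * (u : N) = 1 := congrArg Subtype.val hu
    have h2 : aeval t (X * p - 1 : C[X]) = 0 := by
      rw [map_sub, map_mul, aeval_X, map_one]
      have h3 : aeval t p = (u : N) := hp
      rw [h3, h1, sub_self]
    have h4 : (X * p - 1 : C[X]) = 0 := by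
      by_contra h5
      exact ht ⟨_, h5, h2⟩
    have h6 := congrArg (Polynomial.eval 0) h4
    simp at h6
  obtain ⟨O, hO, hO'⟩ := Ideal.image_subset_nonunits_valuationSubring (Ideal.span {t'}) hne
  refine ⟨O, fun c => hO ((Algebra.adjoin C {t}).algebraMap_mem c), ?_⟩
  rintro rfl
  have h1 : t ∈ (⊤ : ValuationSubring N).nonunits :=
    hO' ⟨t', Ideal.mem_span_singleton_self t', rfl⟩
  rw [ValuationSubring.mem_nonunits_iff] at h1
  have h2 : t ≠ 0 := by
    rintro rfl
    exact ht (isAlgebraic_zero)
  have h3 : t⁻¹ ∈ (⊤ : ValuationSubring N) := ValuationSubring.mem_top _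
  rw [← ValuationSubring.valuation_le_one_iff, map_inv₀] at h3
  have h4 := (inv_le_one₀ (zero_lt_iff.2 ((Valuation.ne_zero_iff _).2 h2))).1 h3
  exact absurd h1 (not_lt.2 h4)

/-- A table with coefficients in a valuation ring. -/
theorem exists_tabV {C : Type} [Field C] {d : ℕ} [NeZero d] (T : Tab C d) (V : ValuationSubring C)
    (h : ∀ i j k n, (T.c i j k).coeff n ∈ V) : ∃ TV : Tab V d, TV.map V.subtype = T := by
  have h1 : ∀ i j k, ∃ P : V[X], P.map V.subtype = T.c i j k := by
    intro i j k
    have h2 : T.c i j k ∈ Polynomial.lifts V.subtype := by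
      rw [Polynomial.lifts_iff_coeff_lifts]
      intro n
      exact ⟨⟨_, h i j k n⟩, rfl⟩
    exact (Polynomial.mem_lifts _).1 h2
  choose P hP using h1
  have hinj : Function.Injective (Polynomial.map (R := V) (S := C) V.subtype) :=
    Polynomial.map_injective _ V.subtype_injective
  let TV : Tab V d :=
    { w := T.w
      c := P
      w_cast := T.w_cast
      w_zero := T.w_zero
      comm := fun i j k => hinj (by rw [hP, hP, T.comm])
      one := fun j k => hinj (by
        rw [hP, T.one]
        split_ifs
        · rw [Polynomial.map_one]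
        · rw [Polynomial.map_zero])
      assoc := fun i j k n => hinj (by
        rw [Polynomial.map_sum, Polynomial.map_sum]
        simp only [Polynomial.map_mul, hP]
        exact T.assoc i j k n)
      top := fun i j => by
        obtain ⟨n, hn, hn'⟩ := T.top i j
        refine ⟨n, hn, V.subtype_injective ?_⟩
        rw [← coeff_map, hP, hn', map_one]
      small := fun i j k n hn => V.subtype_injective (by
        rw [← coeff_map, hP, T.small i j k n hn, map_zero]) }
  exact ⟨TV, Tab.ext rfl (by funext i j k; exact hP i j k)⟩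

end GT
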