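import Mathlib
import Pool.Agent.MP_c1dca2_ag.GT.P0
import Pool.Agent.MP_c1dca2_ag.SC2.AB
import Pool.Agent.MP_c1dca2_ag.SEC.Defs
import Pool.Agent.MP_c1dca2_ag.SEC.S

set_option autoImplicit false
set_option linter.unusedSectionVars false

open Polynomial SC2 SEC

namespace GT

/-! ## [GT-K0] definitions for the local theorem -/

/-- `V` contains the elements of `S` and their inverses, and inertia fixes them. -/
structure GoodV (k : Type) {C : Type} [Field k] [Field C] [Algebra k C] (S : Finset C)
    (V : ValuationSubring C) : Prop where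
  mem : ∀ a ∈ S, a ∈ V
  inv : ∀ a ∈ S, a⁻¹ ∈ V
  fix : ∀ σ : C ≃ₐ[k] C, Iner V σ → ∀ a ∈ S, σ a = a

/-- The field generated by `K1`, the constants and `U`. -/
noncomputable def NN (k : Type) {K1 : Type} [Field k] [Field K1] [Algebra k K1] (U : Om K1) :
    IntermediateField (kb k K1) (Om K1) :=
  IntermediateField.adjoin (kb k K1) (insert U (Set.range (algebraMap K1 (Om K1))))

/-- The ramification points: the places at which the order of `h` is prime to `ℓ`. -/
def OM (C : Type) {L : Type} [Field C] [Field L] [Algebra C L] (ℓ : ℕ) (h : L) :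
    Set (ValuationSubring L) :=
  {P | IsPl C P ∧ ∀ z : L, P.valuation h ≠ P.valuation z ^ ℓ}

end GT
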