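import Mathlib
import Pool.Agent.MP_c1dca2_ag.GT.P0

set_option autoImplicit false
set_option linter.unusedSectionVars false

namespace GT

/-! ## [GT-Kv] values of functions at ramified places -/

variable {C N M : Type} [Field C] [Field N] [Field M] [Algebra C N]

theorem kv_one {P : ValuationSubring N} {o : N → ℤ} (ho : IsOrd C P o) : o 1 = 0 := by
  have := ho.mul 1 1 one_ne_zero one_ne_zero
  rw [mul_one] at this
  omega

theorem kv_inv {P : ValuationSubring N} {o : N → ℤ} (ho : IsOrd C P o) (a : N) (ha : a ≠ 0) :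
    o a⁻¹ = - o a := by
  have := ho.mul a a⁻¹ ha (inv_ne_zero ha)
  rw [mul_inv_cancel₀ ha, kv_one ho] at this
  omega

theorem kv_pow {P : ValuationSubring N} {o : N → ℤ} (ho : IsOrd C P o) (a : N) (ha : a ≠ 0)
    (n : ℕ) : o (a ^ n) = n * o a := by
  induction n with
  | zero => rw [pow_zero, kv_one ho]; simp
  | succ n ih =>
    rw [pow_succ, ho.mul _ _ (pow_ne_zero _ ha) ha, ih]
    push_cast
    ring

theorem kv_zpow {P : ValuationSubring N} {o : N → ℤ} (ho : IsOrd C P o) (a : N) (ha : a ≠ 0)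
    (n : ℤ) : o (a ^ n) = n * o a := by
  obtain ⟨m, rfl | rfl⟩ := n.eq_nat_or_neg
  · rw [zpow_natCast, kv_pow ho a ha]
  · rw [zpow_neg, zpow_natCast, kv_inv ho _ (pow_ne_zero _ ha), kv_pow ho a ha]
    ring

/-- An element of order zero is a unit at all valuation rings of extensions. -/
theorem val_of_ord_zero (f : N →+* M) (B : ValuationSubring M) {P : ValuationSubring N}
    (hP : ∀ z, z ∈ P ↔ f z ∈ B) {o : N → ℤ} (ho : IsOrd C P o) (z : N) (hz : z ≠ 0)
    (h0 : o z = 0) : B.valuation (f z) = 1 := by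
  have h1 : f z ∈ B := (hP z).1 ((ho.mem z hz).2 (by omega))
  have h2 : f z⁻¹ ∈ B := (hP z⁻¹).1 ((ho.mem _ (inv_ne_zero hz)).2 (by rw [kv_inv ho z hz]; omega))
  have h3 : B.valuation (f z) ≤ 1 := (B.valuation_le_one_iff _).2 h1
  have h4 : B.valuation (f z⁻¹) ≤ 1 := (B.valuation_le_one_iff _).2 h2
  have h5 : B.valuation (f z) * B.valuation (f z⁻¹) = 1 := by
    rw [← map_mul, ← map_mul, mul_inv_cancel₀ hz, map_one, map_one]
  refine le_antisymm h3 ?_
  by_contra h6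
  push Not at h6
  have h7 : B.valuation (f z) * B.valuation (f z⁻¹) < 1 :=
    mul_lt_one_of_lt_of_le h6 h4
  rw [h5] at h7
  exact lt_irrefl _ h7

/-- The value is an `ℓ`-th power if the order is a multiple of `ℓ`, or if the value of one element of
order prime to `ℓ` is an `ℓ`-th power.

Proof. Choose `π` with `o π = 1` (`ho.surj`, `π ≠ 0`). For every `z ≠ 0`: `z / π ^ (o z)` (integer power) has order `0`, so
`B.valuation (f z) = B.valuation (f π) ^ (o z)` (`val_of_ord_zero`, `map_zpow₀`). If `ℓ ∣ o z`: `w = f π ^ (o z / ℓ)`.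
Otherwise let `m = o u`, prime to `ℓ`: `a ℓ + b m = 1` with integers `a`, `b`, and
`v(f π) = v(f π) ^ (a ℓ) * (v(f π) ^ m) ^ b = (v(f π) ^ a * v(y) ^ b) ^ ℓ` as `v(f π) ^ m = v(f u) = v(y) ^ ℓ`. So
`w = (f π ^ a * y ^ b) ^ (o z)`. -/
theorem exists_val_root (f : N →+* M) (B : ValuationSubring M) {P : ValuationSubring N}
    (hP : ∀ z, z ∈ P ↔ f z ∈ B) {o : N → ℤ} (ho : IsOrd C P o) (ℓ : ℕ) [hℓ : Fact ℓ.Prime] (z : N)
    (hz : z ≠ 0) (h : ((o z : ℤ) : ZMod ℓ) = 0 ∨ ∃ (u : N) (y : M), u ≠ 0 ∧ ((o u : ℤ) : ZMod ℓ) ≠ 0 ∧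
      B.valuation (f u) = B.valuation y ^ ℓ) :
    ∃ w : M, B.valuation (f z) = B.valuation w ^ ℓ := by
  obtain ⟨π, hπ0, hπ⟩ := ho.surj
  have hfπ : f π ≠ 0 := (map_ne_zero f).2 hπ0
  have hvπ : B.valuation (f π) ≠ 0 := (B.valuation.ne_zero_iff).2 hfπ
  have key : ∀ x : N, x ≠ 0 → B.valuation (f x) = B.valuation (f π) ^ (o x) := by
    intro x hx
    have hpz : π ^ (o x) ≠ 0 := zpow_ne_zero _ hπ0
    have h1 : o (x / π ^ (o x)) = 0 := by
      rw [div_eq_mul_inv, ho.mul _ _ hx (inv_ne_zero hpz), kv_inv ho _ hpz, kv_zpow ho π hπ0, hπ]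
      ring
    have h2 := val_of_ord_zero f B hP ho (x / π ^ (o x)) (div_ne_zero hx hpz) h1
    rw [map_div₀, map_div₀, map_zpow₀, map_zpow₀,
      div_eq_one_iff_eq (zpow_ne_zero _ hvπ)] at h2
    exact h2
  rcases h with h | ⟨u, y, hu, hou, huy⟩
  · have hd : (ℓ : ℤ) ∣ o z := (ZMod.intCast_zmod_eq_zero_iff_dvd _ _).1 h
    obtain ⟨c, hc⟩ := hd
    refine ⟨f π ^ c, ?_⟩
    rw [key z hz, hc, map_zpow₀, mul_comm, zpow_mul, zpow_natCast]
  · have hnd : ¬ (ℓ : ℤ) ∣ o u := fun hd => hou ((ZMod.intCast_zmod_eq_zero_iff_dvd _ _).2 hd)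
    have hcop : IsCoprime (ℓ : ℤ) (o u) :=
      (Prime.coprime_iff_not_dvd (Nat.prime_iff_prime_int.1 hℓ.out)).2 hnd
    obtain ⟨a, b, hab⟩ := hcop
    have hy0 : B.valuation y ≠ 0 := by
      intro h0
      rw [h0, zero_pow hℓ.out.ne_zero] at huy
      exact (B.valuation.ne_zero_iff).2 ((map_ne_zero f).2 hu) huy
    have h1 : B.valuation (f π) = (B.valuation (f π) ^ a * B.valuation y ^ b) ^ ℓ := by
      have h2 : B.valuation (f π) ^ (o u) = B.valuation y ^ (ℓ : ℤ) := by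
        rw [← key u hu, huy, zpow_natCast]
      calc B.valuation (f π) = B.valuation (f π) ^ (a * ℓ + b * o u) := by rw [hab, zpow_one]
        _ = B.valuation (f π) ^ (a * ℓ) * (B.valuation (f π) ^ (o u)) ^ b := by
          rw [zpow_add₀ hvπ, mul_comm b (o u), zpow_mul _ (o u) b]
        _ = (B.valuation (f π) ^ a) ^ (ℓ : ℤ) * (B.valuation y ^ b) ^ (ℓ : ℤ) := by
          rw [h2, zpow_mul, ← zpow_mul (B.valuation y), ← zpow_mul (B.valuation y),
            mul_comm (ℓ : ℤ) b]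
        _ = _ := by rw [← mul_zpow, zpow_natCast]
    refine ⟨(f π ^ a * y ^ b) ^ (o z), ?_⟩
    rw [key z hz, map_zpow₀, map_mul, map_zpow₀, map_zpow₀]
    conv_lhs => rw [h1]
    rw [← zpow_natCast, ← zpow_mul, ← zpow_natCast, ← zpow_mul, mul_comm (ℓ : ℤ) (o z)]

/-- The order of `z` is a multiple of `ℓ` iff its value is an `ℓ`-th power.

Proof. If `P.valuation z = P.valuation w ^ ℓ` then `w ≠ 0`, `z / w ^ ℓ` and its inverse are in `P`, so
`o z = ℓ * o w` (`ho.mem`, `ho.mul`). Conversely `exists_val_root` with `f` the identity. -/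
theorem ord_zero_iff {P : ValuationSubring N} {o : N → ℤ} (ho : IsOrd C P o) (ℓ : ℕ)
    [hℓ : Fact ℓ.Prime] (z : N) (hz : z ≠ 0) :
    ((o z : ℤ) : ZMod ℓ) = 0 ↔ ∃ w : N, P.valuation z = P.valuation w ^ ℓ := by
  constructor
  · intro h
    exact exists_val_root (RingHom.id N) P (fun z => Iff.rfl) ho ℓ z hz (Or.inl h)
  · rintro ⟨w, hw⟩
    have hw0 : w ≠ 0 := by
      intro h0
      rw [h0, _root_.map_zero, zero_pow hℓ.out.ne_zero] at hw
      exact (P.valuation.ne_zero_iff).2 hz hw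
    have hwl : w ^ ℓ ≠ 0 := pow_ne_zero _ hw0
    have hvw : P.valuation (w ^ ℓ) ≠ 0 := (P.valuation.ne_zero_iff).2 hwl
    have h1 : P.valuation (z * (w ^ ℓ)⁻¹) = 1 := by
      rw [map_mul, map_inv₀, map_pow, hw, ← map_pow, mul_inv_cancel₀ hvw]
    have h2 : z * (w ^ ℓ)⁻¹ ∈ P := (P.valuation_le_one_iff _).1 (le_of_eq h1)
    have hne : z * (w ^ ℓ)⁻¹ ≠ 0 := mul_ne_zero hz (inv_ne_zero hwl)
    have h3 : (z * (w ^ ℓ)⁻¹)⁻¹ ∈ P := (P.valuation_le_one_iff _).1 (by rw [map_inv₀, h1, inv_one])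
    have h4 := (ho.mem _ hne).1 h2
    have h5 := (ho.mem _ (inv_ne_zero hne)).1 h3
    rw [kv_inv ho _ hne] at h5
    have h6 : o (z * (w ^ ℓ)⁻¹) = 0 := by omega
    rw [ho.mul _ _ hz (inv_ne_zero hwl), kv_inv ho _ hwl, kv_pow ho w hw0] at h6
    have h7 : o z = ℓ * o w := by omega
    rw [h7]
    push_cast
    rw [ZMod.natCast_self, zero_mul]

/-- Proof. `ho.mul`, `ho.mem` with units: standard rules for orders. -/
theorem ord_rules {P : ValuationSubring N} {o : N → ℤ} (ho : IsOrd C P o) :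
    o 1 = 0 ∧ (∀ a, a ≠ 0 → o a⁻¹ = - o a) ∧ (∀ a, a ≠ 0 → ∀ n : ℕ, o (a ^ n) = n * o a) ∧
      ∀ {ι : Type} (s : Finset ι) (g : ι → N), (∀ i ∈ s, g i ≠ 0) → o (∏ i ∈ s, g i) = ∑ i ∈ s, o (g i) := by
  refine ⟨kv_one ho, fun a ha => kv_inv ho a ha, fun a ha n => kv_pow ho a ha n, ?_⟩
  intro ι s g hg
  classical
  induction s using Finset.induction_on with
  | empty => rw [Finset.prod_empty, Finset.sum_empty, kv_one ho]
  | insert a s ha ih =>
    rw [Finset.prod_insert ha, Finset.sum_insert ha,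
      ho.mul _ _ (hg a (Finset.mem_insert_self a s))
        (Finset.prod_ne_zero_iff.2 fun i hi => hg i (Finset.mem_insert_of_mem hi)),
      ih fun i hi => hg i (Finset.mem_insert_of_mem hi)]

/-- Transport of an order by an automorphism `σ` preserving the constants.

Proof. Check the four fields; `C` is preserved by `hσ`. -/
theorem IsOrd.map {P P' : ValuationSubring N} {o : N → ℤ} (ho : IsOrd C P o) (σ : N ≃+* N)
    (hσ : ∀ c : C, ∃ c' : C, σ (algebraMap C N c) = algebraMap C N c')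
    (hP : ∀ z, z ∈ P ↔ σ z ∈ P') : IsOrd C P' (fun z => o (σ.symm z)) := by
  have hne : ∀ a : N, a ≠ 0 → σ.symm a ≠ 0 := fun a ha => (map_ne_zero σ.symm).2 ha
  refine ⟨fun a b ha hb => ?_, fun a ha => ?_, ?_, fun a ha => ?_⟩
  · show o (σ.symm (a * b)) = o (σ.symm a) + o (σ.symm b)
    rw [map_mul]
    exact ho.mul _ _ (hne a ha) (hne b hb)
  · rw [← ho.mem _ (hne a ha), hP, RingEquiv.apply_symm_apply]
  · obtain ⟨a, ha0, ha⟩ := ho.surj
    refine ⟨σ a, (map_ne_zero σ).2 ha0, ?_⟩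
    show o (σ.symm (σ a)) = 1
    rw [RingEquiv.symm_apply_apply]
    exact ha
  · have h1 : σ.symm a ∈ P := by
      rw [hP, RingEquiv.apply_symm_apply]
      exact ha
    obtain ⟨c, hc⟩ := ho.res _ h1
    obtain ⟨c', hc'⟩ := hσ c
    refine ⟨c', ?_⟩
    have h2 : σ.symm (a - algebraMap C N c') = σ.symm a - algebraMap C N c := by
      rw [map_sub, ← hc', RingEquiv.symm_apply_apply]
    rcases hc with hc | hc
    · left
      have h3 : σ.symm (a - algebraMap C N c') = 0 := by rw [h2, hc]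
      exact (map_eq_zero σ.symm).1 h3
    · right
      show 0 < o (σ.symm (a - algebraMap C N c'))
      rw [h2]
      exact hc

end GT
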