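import Mathlib
import Pool.Agent.MP_c1dca2_ag.GT.Base
import Pool.Agent.MP_c1dca2_ag.GT.P0
import Pool.Agent.MP_c1dca2_ag.GT.P5d
import Pool.Agent.MP_c1dca2_ag.GT.P8d

set_option autoImplicit false
set_option linter.unusedSectionVars false

open Polynomial

namespace GT

/-! ## [GT-N2d] the order of an ideal of a model at a place -/

variable {C L : Type} [Field C] [Field L] [Algebra C L] {O₁ : ValuationSubring L} {d : ℕ} [NeZero d]
  {T : Tab C d} {E : WB T →+* L}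

/-- The order of the ideal `I` of `WB T` for the order function `o`. -/
noncomputable def oI (E : WB T →+* L) (o : L → ℤ) (I : Ideal (WB T)) : ℕ :=
  sInf {n : ℕ | ∃ b ∈ I, b ≠ 0 ∧ o (E b) = n}

/-- Proof. `E b ∈ RO C O₁` (`h.range`), so `E b ∈ O` (`mem_RO`), `IsOrd.mem`, `E b ≠ 0` (`h.inj`). -/
theorem ord_nonneg (h : Model O₁ T E) {O : ValuationSubring L} (hO : IsPl C O) (hne : O ≠ O₁)
    {o : L → ℤ} (ho : IsOrd C O o) {b : WB T} (hb : b ≠ 0) : 0 ≤ o (E b) := by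
  have h1 : E b ∈ RO C O₁ := (h.range (E b)).2 ⟨b, rfl⟩
  have h2 : E b ∈ O := mem_RO.1 h1 O hO hne
  have h3 : E b ≠ 0 := by
    rw [← map_zero E]
    exact h.inj.ne hb
  exact (ho.mem (E b) h3).1 h2

/-- Proof. The set in `oI` is nonempty (`ord_nonneg`, an element `b ≠ 0` of `I`): `Nat.sInf_mem`, `Nat.sInf_le`. -/
theorem oI_spec (h : Model O₁ T E) {O : ValuationSubring L} (hO : IsPl C O) (hne : O ≠ O₁)
    {o : L → ℤ} (ho : IsOrd C O o) {I : Ideal (WB T)} (hI : I ≠ ⊥) :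
    (∃ b ∈ I, b ≠ 0 ∧ o (E b) = oI E o I) ∧ ∀ b ∈ I, b ≠ 0 → (oI E o I : ℤ) ≤ o (E b) := by
  have h1 : {n : ℕ | ∃ b ∈ I, b ≠ 0 ∧ o (E b) = n}.Nonempty := by
    obtain ⟨b, hb, hb0⟩ := Submodule.exists_mem_ne_zero_of_ne_bot hI
    exact ⟨(o (E b)).toNat, b, hb, hb0, (Int.toNat_of_nonneg (ord_nonneg h hO hne ho hb0)).symm⟩
  refine ⟨Nat.sInf_mem h1, fun b hb hb0 => ?_⟩
  have h2 := ord_nonneg h hO hne ho hb0
  have h3 : oI E o I ≤ (o (E b)).toNat :=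
    Nat.sInf_le ⟨b, hb, hb0, (Int.toNat_of_nonneg h2).symm⟩
  omega

end GT
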