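import Mathlib
import Pool.Agent.MP_c1dca2_ag.GT.A3
import Pool.Agent.MP_c1dca2_ag.GT.Base
import Pool.Agent.MP_c1dca2_ag.GT.N2d
import Pool.Agent.MP_c1dca2_ag.GT.P0
import Pool.Agent.MP_c1dca2_ag.GT.P5a
import Pool.Agent.MP_c1dca2_ag.GT.P8d

set_option autoImplicit false
set_option linter.unusedSectionVars false

open Polynomial

namespace GT

/-! ## [GT-N2a] the order of an ideal of a model at a place -/

variable {C L : Type} [Field C] [Field L] [Algebra C L] {O₁ : ValuationSubring L} {d : ℕ} [NeZero d]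
  {T : Tab C d} {E : WB T →+* L}

/-- Proof. `≤`: the product of two elements with the minimal orders (`IsOrd.mul`). `≥`: every element of `I * J` is a finite sum of products (`Submodule.mul_induction_on`: show that every `z ∈ I * J` is `0` or has
`oI I + oI J ≤ o (E z)`; sums: `ord_add` of P5a). -/
theorem oI_mul (h : Model O₁ T E) {O : ValuationSubring L} (hO : IsPl C O) (hne : O ≠ O₁)
    {o : L → ℤ} (ho : IsOrd C O o) {I J : Ideal (WB T)} (hI : I ≠ ⊥) (hJ : J ≠ ⊥) :
    oI E o (I * J) = oI E o I + oI E o J := by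
  obtain ⟨⟨b, hbI, hb0, hb⟩, hmI⟩ := oI_spec h hO hne ho hI
  obtain ⟨⟨c, hcJ, hc0, hc⟩, hmJ⟩ := oI_spec h hO hne ho hJ
  have hE : ∀ z : WB T, z ≠ 0 → E z ≠ 0 := fun z hz hz' => hz (h.inj (by rw [hz', map_zero]))
  have hIJ : I * J ≠ ⊥ := by
    intro h0
    have h1 : b * c ∈ I * J := Ideal.mul_mem_mul hbI hcJ
    rw [h0, Ideal.mem_bot] at h1
    exact mul_ne hb0 hc0 h1
  obtain ⟨⟨z, hzI, hz0, hz⟩, hmIJ⟩ := oI_spec h hO hne ho hIJ
  have h1 := hmIJ (b * c) (Ideal.mul_mem_mul hbI hcJ) (mul_ne hb0 hc0)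
  rw [map_mul, ho.mul _ _ (hE b hb0) (hE c hc0), hb, hc] at h1
  have key : ∀ z ∈ I * J, z = 0 ∨ ((oI E o I : ℤ) + oI E o J) ≤ o (E z) := by
    intro z hz
    refine Submodule.mul_induction_on hz (fun m hm n hn => ?_) (fun x y hx hy => ?_)
    · by_cases hm0 : m = 0
      · left; rw [hm0, zero_mul]
      by_cases hn0 : n = 0
      · left; rw [hn0, mul_zero]
      right
      rw [map_mul, ho.mul _ _ (hE m hm0) (hE n hn0)]
      exact add_le_add (hmI m hm hm0) (hmJ n hn hn0)
    · by_cases hx0 : x = 0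
      · rw [hx0, zero_add]; exact hy
      by_cases hy0 : y = 0
      · rw [hy0, add_zero]; exact hx
      by_cases hxy : x + y = 0
      · left; exact hxy
      right
      have hx' := hx.resolve_left hx0
      have hy' := hy.resolve_left hy0
      have h2 := ord_add ho (hE x hx0) (hE y hy0) (by rw [← map_add]; exact hE _ hxy)
      rw [map_add]
      exact (le_min hx' hy').trans h2
  have h2 := (key z hzI).resolve_left hz0
  rw [hz] at h2
  omega

/-- Proof. Induction with `oI_mul`; `I ^ 0 = ⊤` contains `1`, `o (E 1) = o 1 = 0` (`ord_one` of P5a). (`I ^ n ≠ ⊥`: `WB T` is a domain, `instIsDomain`.) -/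
theorem oI_pow (h : Model O₁ T E) {O : ValuationSubring L} (hO : IsPl C O) (hne : O ≠ O₁)
    {o : L → ℤ} (ho : IsOrd C O o) {I : Ideal (WB T)} (hI : I ≠ ⊥) (n : ℕ) :
    oI E o (I ^ n) = n * oI E o I := by
  induction n with
  | zero =>
    have htop : (⊤ : Ideal (WB T)) ≠ ⊥ := by
      intro h0
      have h1 : (1 : WB T) ∈ (⊤ : Ideal (WB T)) := Submodule.mem_top
      rw [h0, Ideal.mem_bot] at h1
      exact one_ne_zero h1
    have h1 := (oI_spec h hO hne ho htop).2 1 Submodule.mem_top one_ne_zero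
    rw [map_one, ord_one ho] at h1
    rw [pow_zero, Ideal.one_eq_top, Nat.zero_mul]
    omega
  | succ n ih =>
    have hIn : I ^ n ≠ ⊥ := pow_ne_zero n (show I ≠ 0 from hI)
    rw [pow_succ, oI_mul h hO hne ho hIn hI, ih]
    ring

/-- Proof. `b` has the order `o (E b)`; every multiple `a b ≠ 0` has the order `o (E a) + o (E b) ≥ o (E b)` (`ord_nonneg`). -/
theorem oI_span (h : Model O₁ T E) {O : ValuationSubring L} (hO : IsPl C O) (hne : O ≠ O₁)
    {o : L → ℤ} (ho : IsOrd C O o) {b : WB T} (hb : b ≠ 0) :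
    (oI E o (Ideal.span {b}) : ℤ) = o (E b) := by
  have hE : ∀ z : WB T, z ≠ 0 → E z ≠ 0 := fun z hz hz' => hz (h.inj (by rw [hz', map_zero]))
  have hI : (Ideal.span {b} : Ideal (WB T)) ≠ ⊥ := by
    rwa [Ne, Ideal.span_singleton_eq_bot]
  obtain ⟨⟨z, hzI, hz0, hz⟩, hm⟩ := oI_spec h hO hne ho hI
  have h1 := hm b (Ideal.mem_span_singleton_self b) hb
  obtain ⟨a, ha⟩ := Ideal.mem_span_singleton'.1 hzI
  have ha0 : a ≠ 0 := by
    rintro rfl
    rw [zero_mul] at ha
    exact hz0 ha.symm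
  rw [← ha, map_mul, ho.mul _ _ (hE a ha0) (hE b hb)] at hz
  have h2 := ord_nonneg h hO hne ho ha0
  omega

end GT
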