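import Mathlib
import Pool.Agent.MP_c1dca2_ag.GT.Base
import Pool.Agent.MP_c1dca2_ag.GT.Defs
import Pool.Agent.MP_c1dca2_ag.GT.P0
import Pool.Agent.MP_c1dca2_ag.GT.P7a
import Pool.Agent.MP_c1dca2_ag.GT.P8d
import Pool.Agent.MP_c1dca2_ag.SUP.Defs

set_option autoImplicit false

open Polynomial

namespace GT

/-! ## [GT-P8c] models of function fields with one place at infinity -/

variable {C L : Type} [Field C] [Field L] [Algebra C L]

variable {O₁ : ValuationSubring L} {d : ℕ} [NeZero d] {T : Tab C d} {E : WB T →+* L}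

theorem p8c_x_co (j : ZMod d) : (WB.x T).co j = if j = 0 then X else 0 := WB.algebraMap_co _ _

theorem p8c_pord_x : pord (WB.x T) = d := by
  have hx : WB.x T ≠ 0 := by
    intro h0
    have := congrArg (fun b : WB T => b.co 0) h0
    simp only [p8c_x_co, if_pos] at this
    exact X_ne_zero this
  obtain ⟨i, n, h1, h2, -⟩ := pord_spec (WB.x T) hx
  rw [p8c_x_co] at h1
  split_ifs at h1 with hi
  · rw [coeff_X] at h1
    split_ifs at h1 with hn
    · rw [h2, hi, ← hn, T.w_zero]; ring
    · exact absurd rfl h1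
  · rw [coeff_zero] at h1
    exact absurd rfl h1

theorem p8c_pord_one : pord (1 : WB T) = 0 := by
  have hx : (1 : WB T) ≠ 0 := by
    intro h0
    have := congrArg (fun b : WB T => b.co 0) h0
    simp only [WB.co_one, Pi.single_eq_same] at this
    exact one_ne_zero this
  obtain ⟨i, n, h1, h2, -⟩ := pord_spec (1 : WB T) hx
  rw [WB.co_one] at h1
  by_cases hi : i = 0
  · rw [hi, Pi.single_eq_same, coeff_one] at h1
    split_ifs at h1 with hn
    · rw [h2, hi, hn, T.w_zero]; rfl
    · exact absurd rfl h1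
  · rw [Pi.single_eq_of_ne hi, coeff_zero] at h1
    exact absurd rfl h1

/-- Proof. `Ideal.image_subset_nonunits_valuationSubring` for the subring `E (WB T)` of `L` and the ideal `P` gives a valuation ring `O ⊇ E (WB T)` with `E P ⊆ O.nonunits`. `P ≠ ⊥`: otherwise `WB T` would be a field, but `X` is
not invertible (`WB T` is integral over `C[X]`, or: units have pole order `0`), so `O ≠ ⊤`. The elements `b` with `E b ∈ O.nonunits` form a proper ideal containing the maximal ideal `P`: it is `P`. `O ≠ O₁`: `E (WB.x T) ∈ O`, but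
`E (WB.x T) ∉ O₁` (`h.ord` with `b = 1`: `pord x = d > 0 = pord 1`). -/
theorem Model.exists_place (h : Model O₁ T E) (P : Ideal (WB T)) (hP : P.IsMaximal) :
    P ≠ ⊥ ∧ ∃ O : ValuationSubring L, IsPl C O ∧ O ≠ O₁ ∧ ∀ b, b ∈ P ↔ E b ∈ O.nonunits := by
  have hne : ∀ b : WB T, b ≠ 0 → E b ≠ 0 := fun b hb h0 => hb (h.inj (by rw [h0, map_zero]))
  have hPbot : P ≠ ⊥ := by
    intro h0
    have hx : WB.x T ∉ P := by
      rw [h0, Ideal.mem_bot]
      intro h1
      have := congrArg (fun b : WB T => b.co 0) h1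
      simp only [p8c_x_co, if_pos] at this
      exact X_ne_zero this
    obtain ⟨y, i, hi, hyi⟩ := hP.exists_inv hx
    rw [h0, Ideal.mem_bot] at hi
    rw [hi, add_zero, mul_comm, WB.x, ← Algebra.smul_def] at hyi
    have h2 := congrArg (fun b : WB T => b.co 0) hyi
    simp only [WB.co_smul, WB.co_one, Pi.single_eq_same] at h2
    exact not_isUnit_X (IsUnit.of_mul_eq_one _ h2)
  refine ⟨hPbot, ?_⟩
  obtain ⟨e, he⟩ : ∃ e : WB T ≃+* E.range, ∀ b, ((e b : E.range) : L) = E b :=
    ⟨RingEquiv.ofBijective E.rangeRestrict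
      ⟨fun a b hab => h.inj (congrArg Subtype.val hab), E.rangeRestrict_surjective⟩, fun b => rfl⟩
  have hI : P.comap (e.symm : E.range →+* WB T) ≠ ⊤ := by
    rw [Ne, Ideal.eq_top_iff_one, Ideal.mem_comap, map_one, ← Ideal.eq_top_iff_one]
    exact hP.ne_top
  obtain ⟨O, hO1, hO2⟩ := Ideal.image_subset_nonunits_valuationSubring
    (P.comap (e.symm : E.range →+* WB T)) hI
  have hE : ∀ b, E b ∈ O := fun b => hO1 ⟨b, rfl⟩
  have hEP : ∀ b ∈ P, E b ∈ O.nonunits := by
    intro b hb
    apply hO2
    refine ⟨e b, ?_, he b⟩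
    change e.symm (e b) ∈ P
    rw [RingEquiv.symm_apply_apply]
    exact hb
  refine ⟨O, ⟨fun c => by rw [← h.alg]; exact hE _, ?_⟩, ?_, fun b => ⟨hEP b, fun hb => ?_⟩⟩
  · intro htop
    obtain ⟨b, hb, hb0⟩ := Submodule.exists_mem_ne_zero_of_ne_bot hPbot
    have h1 := hEP b hb
    rw [ValuationSubring.mem_nonunits_iff_or] at h1
    rcases h1 with h1 | h1
    · exact hne b hb0 h1
    · apply h1
      rw [htop]
      exact ValuationSubring.mem_top _
  · intro heq
    have hx : WB.x T ≠ 0 := by
      intro h1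
      have := congrArg (fun b : WB T => b.co 0) h1
      simp only [p8c_x_co, if_pos] at this
      exact X_ne_zero this
    have h1ne : (1 : WB T) ≠ 0 := by
      intro h0
      have := congrArg (fun b : WB T => b.co 0) h0
      simp only [WB.co_one, Pi.single_eq_same] at this
      exact one_ne_zero this
    have h1 := (h.ord (WB.x T) 1 hx h1ne).mp (by rw [map_one, div_one, ← heq]; exact hE _)
    rw [p8c_pord_x, p8c_pord_one] at h1
    exact NeZero.ne d (by omega)
  · by_contra hbP
    obtain ⟨y, i, hi, hyi⟩ := hP.exists_inv hbP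
    have h1 : O.valuation (E b) < 1 := hb
    have h2 : O.valuation (E y) ≤ 1 := (O.valuation_le_one_iff _).mpr (hE y)
    have h3 : O.valuation (E i) < 1 := hEP i hi
    have h4 : E y * E b + E i = 1 := by rw [← map_mul, ← map_add, hyi, map_one]
    have h5 : O.valuation (E y * E b) < 1 := by
      rw [map_mul]
      exact lt_of_le_of_lt (mul_le_of_le_one_left' h2) h1
    have h6 : O.valuation (E y * E b + E i) < 1 := Valuation.map_add_lt _ h5 h3
    rw [h4, map_one] at h6
    exact lt_irrefl _ h6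

end GT
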