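import Mathlib
import Pool.Agent.MP_c1dca2_ag.GT.Base
import Pool.Agent.MP_c1dca2_ag.GT.N2d
import Pool.Agent.MP_c1dca2_ag.GT.P0
import Pool.Agent.MP_c1dca2_ag.GT.P5a
import Pool.Agent.MP_c1dca2_ag.GT.P8b
import Pool.Agent.MP_c1dca2_ag.GT.P8c
import Pool.Agent.MP_c1dca2_ag.GT.P8d

set_option autoImplicit false
set_option linter.unusedSectionVars false

open Polynomial

namespace GT

/-! ## [GT-N2b] the order of an ideal of a model at a place -/

variable {C L : Type} [Field C] [Field L] [Algebra C L] {O₁ : ValuationSubring L} {d : ℕ} [NeZero d]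
  {T : Tab C d} {E : WB T →+* L}

/-- Proof. Let `P` be the ideal of `O` (`Model.place`: `b ∈ P ↔ E b ∈ O.nonunits`, and `f ∈ O ↔ f = E a / E b` with `b ∉ P`). For `b ≠ 0`: `E b ∈ O.nonunits ↔ 0 < o (E b)` (`E b ∈ O`, it is a nonunit iff its inverse is not in `O`, `IsOrd.mem`, `ord_inv`).
If `Q = P`: all elements have order `≥ 1`. There is `z` with `o z = 1` (`IsOrd.surj`), `z ∈ O`, `z * E b = E a`, `b ∉ P`, so `o (E b) = 0`, `o (E a) = 1`, `a ∈ P`: `oI = 1`. If `Q ≠ P` (both maximal): there is `b ∈ Q`, `b ∉ P`, of order `0`: `oI = 0`. -/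
theorem oI_maximal [CharZero C] [IsAlgClosed C] (hF : FF C L) (hO₁ : IsPl C O₁) (h : Model O₁ T E)
    {O : ValuationSubring L} (hO : IsPl C O) (hne : O ≠ O₁) {o : L → ℤ} (ho : IsOrd C O o)
    {Q : Ideal (WB T)} (hQ : Q.IsMaximal) :
    ((∀ b, b ∈ Q ↔ E b ∈ O.nonunits) → oI E o Q = 1) ∧
      (¬ (∀ b, b ∈ Q ↔ E b ∈ O.nonunits) → oI E o Q = 0) := by
  have hE : ∀ z : WB T, z ≠ 0 → E z ≠ 0 := fun z hz hz' => hz (h.inj (by rw [hz', map_zero]))
  have hnu : ∀ a : L, a ≠ 0 → (a ∈ O.nonunits ↔ 0 < o a) := by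
    intro a ha
    have h1 : (0 : O.ValueGroup) < O.valuation a := by
      rw [zero_lt_iff]
      exact (O.valuation.ne_zero_iff).2 ha
    rw [ValuationSubring.mem_nonunits_iff]
    have h2 := ho.mem a⁻¹ (inv_ne_zero ha)
    rw [ord_inv ho ha, ← ValuationSubring.valuation_le_one_iff, map_inv₀, inv_le_one₀ h1] at h2
    rw [← not_le, h2]
    omega
  obtain ⟨P, hPmax, hPbot, hP, hfrac⟩ := Model.place hF hO₁ h hO hne
  have hQbot : Q ≠ ⊥ := (h.exists_place Q hQ).1
  obtain ⟨⟨q, hqQ, hq0, hq⟩, hm⟩ := oI_spec h hO hne ho hQbot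
  constructor
  · intro hQP
    have h1 : 1 ≤ oI E o Q := by
      have h2 := (hnu _ (hE q hq0)).1 ((hQP q).1 hqQ)
      rw [hq] at h2
      omega
    obtain ⟨z, hz0, hz⟩ := ho.surj
    obtain ⟨a, b, hbP, hab⟩ := (hfrac z).1 ((ho.mem z hz0).2 (by omega))
    have hb0 : b ≠ 0 := by
      rintro rfl
      exact hbP (Ideal.zero_mem _)
    have hob : o (E b) = 0 := by
      have h2 : ¬ 0 < o (E b) := by
        rw [← hnu _ (hE b hb0), ← hP]
        exact hbP
      have h3 := ord_nonneg h hO hne ho hb0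
      omega
    have ha0 : a ≠ 0 := by
      rintro rfl
      rw [map_zero] at hab
      exact (mul_ne_zero hz0 (hE b hb0)) hab
    have hoa : o (E a) = 1 := by
      rw [← hab, ho.mul _ _ hz0 (hE b hb0), hz, hob, add_zero]
    have haQ : a ∈ Q := (hQP a).2 ((hnu _ (hE a ha0)).2 (by omega))
    have h4 := hm a haQ ha0
    rw [hoa] at h4
    omega
  · intro hQP
    have hQP' : ¬ Q ≤ P := by
      intro hle
      apply hQP
      have : Q = P := hQ.eq_of_le hPmax.ne_top hle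
      rw [this]
      exact hP
    obtain ⟨b, hbQ, hbP⟩ := SetLike.not_le_iff_exists.1 hQP'
    have hb0 : b ≠ 0 := by
      rintro rfl
      exact hbP (Ideal.zero_mem _)
    have h2 : ¬ 0 < o (E b) := by
      rw [← hnu _ (hE b hb0), ← hP]
      exact hbP
    have h3 := ord_nonneg h hO hne ho hb0
    have h4 := hm b hbQ hb0
    omega

end GT
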