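import Mathlib
import Pool.Agent.MP_c1dca2_ag.GT.A3
import Pool.Agent.MP_c1dca2_ag.GT.Base
import Pool.Agent.MP_c1dca2_ag.GT.Defs
import Pool.Agent.MP_c1dca2_ag.GT.L1
import Pool.Agent.MP_c1dca2_ag.GT.N2a
import Pool.Agent.MP_c1dca2_ag.GT.N2b
import Pool.Agent.MP_c1dca2_ag.GT.N2d
import Pool.Agent.MP_c1dca2_ag.GT.P0
import Pool.Agent.MP_c1dca2_ag.GT.P4c
import Pool.Agent.MP_c1dca2_ag.GT.P5a
import Pool.Agent.MP_c1dca2_ag.GT.P8c
import Pool.Agent.MP_c1dca2_ag.GT.P8d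
import Pool.Agent.MP_c1dca2_ag.SUP.Defs
import Pool.Agent.MP_c1dca2_ag.SUP.L1

set_option autoImplicit false
set_option linter.unusedSectionVars false

open Polynomial

namespace GT

/-! ## [GT-N3a] functions with orders divisible by `ℓ`, functions with two other orders -/

variable {C L : Type} [Field C] [Field L] [Algebra C L] {O₁ : ValuationSubring L} {d : ℕ} [NeZero d]
  {T : Tab C d} {E : WB T →+* L}

theorem n3a_nonunit {O : ValuationSubring L} {o : L → ℤ} (ho : IsOrd C O o) {a : L} (ha : a ≠ 0)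
    (h : 0 < o a) : a ∈ O.nonunits := by
  rw [ValuationSubring.mem_nonunits_iff]
  by_contra hc
  rw [not_lt] at hc
  have h1 : O.valuation a⁻¹ ≤ 1 := by
    rw [map_inv₀]
    exact inv_le_one_of_one_le₀ hc
  rw [ValuationSubring.valuation_le_one_iff] at h1
  have h2 := (ho.mem _ (inv_ne_zero ha)).1 h1
  rw [ord_inv ho ha] at h2
  omega

theorem n3a_dvd [CharZero C] [IsAlgClosed C] (hF : FF C L) (hO₁ : IsPl C O₁)
    (h : Model O₁ T E) [IsDedekindDomain (WB T)] {O : ValuationSubring L} (hO : IsPl C O) (hne : O ≠ O₁)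
    {o : L → ℤ} (ho : IsOrd C O o) {Q : Ideal (WB T)} (hQ : Q.IsMaximal) (hQ0 : Q ≠ ⊥)
    (hQO : ∀ b, b ∈ Q ↔ E b ∈ O.nonunits) {I : Ideal (WB T)} (hI : I ≠ ⊥) (m : ℕ)
    (hm : m ≤ oI E o I) : Q ^ m ∣ I := by
  have hoQ : oI E o Q = 1 := (oI_maximal hF hO₁ h hO hne ho hQ).1 hQO
  induction m with
  | zero =>
    rw [pow_zero]
    exact one_dvd I
  | succ m ih =>
    obtain ⟨J, hJ⟩ := ih (by omega)
    have hQm : Q ^ m ≠ ⊥ := pow_ne_zero m hQ0
    have hJ0 : J ≠ ⊥ := by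
      rintro rfl
      apply hI
      rw [hJ]
      exact Ideal.mul_bot _
    have h1 : oI E o I = m * oI E o Q + oI E o J := by
      rw [hJ, oI_mul h hO hne ho hQm hJ0, oI_pow h hO hne ho hQ0]
    rw [hoQ] at h1
    have h2 : 1 ≤ oI E o J := by omega
    have h3 : J ≤ Q := by
      intro b hb
      by_cases hb0 : b = 0
      · rw [hb0]
        exact Q.zero_mem
      rw [hQO]
      have hE : E b ≠ 0 := fun h0 => hb0 (h.inj (by rw [h0, map_zero]))
      refine n3a_nonunit ho hE ?_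
      have h4 := (oI_spec h hO hne ho hJ0).2 b hb hb0
      have h5 : (1 : ℤ) ≤ (oI E o J : ℤ) := by exact_mod_cast h2
      omega
    obtain ⟨K, hK⟩ := Ideal.dvd_iff_le.2 h3
    refine ⟨K, ?_⟩
    rw [pow_succ, mul_assoc, ← hK]
    exact hJ

/-- Proof. Strong induction on `len I`. If `I = ⊤`: `J = ⊤`. Otherwise `I ≤ Q` for a maximal ideal `Q` (`Ideal.exists_le_maximal`), `Q ≠ ⊥`, with a place `O ≠ O₁` (`Model.exists_place`) with order `o` (`exists_ord`, P4c), `oI Q = 1` (`oI_maximal`). `n := oI I`;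
claim: for every `m ≤ oI I`: `Q ^ m ∣ I` (induction: `I = Q ^ m * I'`, `oI I' = oI I - m > 0`, so `I' ≤ Q`: otherwise an element of `I'` outside `Q` has order `0`; so `I' = Q * I''`, `Ideal.dvd_iff_le`). `1 ≤ oI I` (all elements of `I ≤ Q` are nonunits) and `ℓ ∣ oI I`, so `ℓ ≤ oI I`
and `I = Q ^ ℓ * I'`. `oI I' = oI I - ℓ oI Q` at every place: divisible by `ℓ`; `len I' < len I` (`len_mul`, `len_pow`, `len_maximal`). So `I' = J' ^ ℓ`, `I = (Q * J') ^ ℓ`. -/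
theorem exists_root_ideal [CharZero C] [IsAlgClosed C] (hF : FF C L) (hO₁ : IsPl C O₁)
    (h : Model O₁ T E) [IsDedekindDomain (WB T)] {ℓ : ℕ} (hℓ : 0 < ℓ) {I : Ideal (WB T)} (hI : I ≠ ⊥)
    (hd : ∀ (O : ValuationSubring L) (o : L → ℤ), IsPl C O → O ≠ O₁ → IsOrd C O o → ℓ ∣ oI E o I) :
    ∃ J : Ideal (WB T), I = J ^ ℓ := by
  obtain ⟨n, hn⟩ : ∃ n, len I ≤ n := ⟨_, le_refl _⟩
  induction n generalizing I with
  | zero =>
    by_cases hT : I = ⊤
    · exact ⟨⊤, by rw [hT, ← Ideal.one_eq_top, one_pow]⟩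
    exfalso
    obtain ⟨Q, hQ, hIQ⟩ := Ideal.exists_le_maximal I hT
    obtain ⟨hQ0, O, hO, hne, hQO⟩ := h.exists_place Q hQ
    obtain ⟨K, hK⟩ := Ideal.dvd_iff_le.2 hIQ
    have hK0 : K ≠ ⊥ := by
      rintro rfl
      apply hI
      rw [hK]
      exact Ideal.mul_bot _
    have h1 : len I = len Q + len K := by rw [hK, len_mul hQ0 hK0]
    rw [len_maximal hQ hQ0] at h1
    omega
  | succ n ih =>
    by_cases hT : I = ⊤
    · exact ⟨⊤, by rw [hT, ← Ideal.one_eq_top, one_pow]⟩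
    obtain ⟨Q, hQ, hIQ⟩ := Ideal.exists_le_maximal I hT
    obtain ⟨hQ0, O, hO, hne, hQO⟩ := h.exists_place Q hQ
    obtain ⟨o, ho⟩ := exists_ord hF hO
    have hoQ : oI E o Q = 1 := (oI_maximal hF hO₁ h hO hne ho hQ).1 hQO
    have h1 : 1 ≤ oI E o I := by
      obtain ⟨K, hK⟩ := Ideal.dvd_iff_le.2 hIQ
      have hK0 : K ≠ ⊥ := by
        rintro rfl
        apply hI
        rw [hK]
        exact Ideal.mul_bot _
      rw [hK, oI_mul h hO hne ho hQ0 hK0, hoQ]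
      omega
    have h2 : ℓ ≤ oI E o I := Nat.le_of_dvd h1 (hd O o hO hne ho)
    obtain ⟨K, hK⟩ := n3a_dvd hF hO₁ h hO hne ho hQ hQ0 hQO hI ℓ h2
    have hQl : Q ^ ℓ ≠ ⊥ := pow_ne_zero ℓ hQ0
    have hK0 : K ≠ ⊥ := by
      rintro rfl
      apply hI
      rw [hK]
      exact Ideal.mul_bot _
    have h3 : len I = ℓ * len Q + len K := by rw [hK, len_mul hQl hK0, len_pow hQ0]
    rw [len_maximal hQ hQ0] at h3
    obtain ⟨J, hJ⟩ := ih hK0 (by
      intro O' o' hO' hne' ho'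
      have h4 := hd O' o' hO' hne' ho'
      rw [hK, oI_mul h hO' hne' ho' hQl hK0, oI_pow h hO' hne' ho' hQ0] at h4
      exact (Nat.dvd_add_right (Dvd.intro _ rfl)).1 h4) (by omega)
    exact ⟨Q * J, by rw [mul_pow, ← hJ]; exact hK⟩

end GT
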