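import Mathlib
import Pool.Agent.MP_c1dca2_ag.GT.A3
import Pool.Agent.MP_c1dca2_ag.GT.Base
import Pool.Agent.MP_c1dca2_ag.GT.N2a
import Pool.Agent.MP_c1dca2_ag.GT.N2d
import Pool.Agent.MP_c1dca2_ag.GT.N3a
import Pool.Agent.MP_c1dca2_ag.GT.P0
import Pool.Agent.MP_c1dca2_ag.GT.P5a
import Pool.Agent.MP_c1dca2_ag.GT.P8d

set_option autoImplicit false
set_option linter.unusedSectionVars false

open Polynomial

namespace GT

/-! ## [GT-N3b] functions with orders divisible by `ℓ`, functions with two other orders -/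

variable {C L : Type} [Field C] [Field L] [Algebra C L] {O₁ : ValuationSubring L} {d : ℕ} [NeZero d]
  {T : Tab C d} {E : WB T →+* L}

/-- Proof. `f * E c = E a₀`, `c ≠ 0` (`h.frac`), `a₀ ≠ 0`; `b = c`, `a = a₀ * c ^ (ℓ - 1)`: `f * E b ^ ℓ = E a`. At every place `O ≠ O₁` with order `o`: `oI (a) = o (E a) = o f + ℓ o (E b)` is divisible by `ℓ` (`oI_span`, `IsOrd.mul`, `ord_pow` of P5a). `exists_root_ideal`. -/
theorem exists_root_fun [CharZero C] [IsAlgClosed C] (hF : FF C L) (hO₁ : IsPl C O₁)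
    (h : Model O₁ T E) [IsDedekindDomain (WB T)] {ℓ : ℕ} (hℓ : 0 < ℓ) {f : L} (hf : f ≠ 0)
    (hd : ∀ (O : ValuationSubring L) (o : L → ℤ), IsPl C O → O ≠ O₁ → IsOrd C O o → (ℓ : ℤ) ∣ o f) :
    ∃ (a b : WB T) (J : Ideal (WB T)), a ≠ 0 ∧ b ≠ 0 ∧ f * E b ^ ℓ = E a ∧
      J ^ ℓ = Ideal.span {a} := by
  have hE : ∀ z : WB T, z ≠ 0 → E z ≠ 0 := fun z hz hz' => hz (h.inj (by rw [hz', map_zero]))
  obtain ⟨a₀, c, hc0, hfc⟩ := h.frac f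
  have ha₀ : a₀ ≠ 0 := by
    rintro rfl
    rw [map_zero] at hfc
    exact mul_ne_zero hf (hE c hc0) hfc
  have ha : a₀ * c ^ (ℓ - 1) ≠ 0 := mul_ne_zero ha₀ (pow_ne_zero _ hc0)
  have hEa : f * E c ^ ℓ = E (a₀ * c ^ (ℓ - 1)) := by
    obtain ⟨m, rfl⟩ : ∃ m, ℓ = m + 1 := ⟨ℓ - 1, by omega⟩
    rw [Nat.add_sub_cancel, map_mul, map_pow, ← hfc]
    ring
  have hI : (Ideal.span {a₀ * c ^ (ℓ - 1)} : Ideal (WB T)) ≠ ⊥ := by
    rwa [Ne, Ideal.span_singleton_eq_bot]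
  obtain ⟨J, hJ⟩ := exists_root_ideal hF hO₁ h hℓ hI (fun O o hO hne ho => by
    have h1 := oI_span h hO hne ho ha
    rw [← hEa, ho.mul _ _ hf (pow_ne_zero _ (hE c hc0)), ord_pow ho (hE c hc0)] at h1
    have h2 : (ℓ : ℤ) ∣ ((oI E o (Ideal.span {a₀ * c ^ (ℓ - 1)}) : ℕ) : ℤ) := by
      rw [h1]
      exact dvd_add (hd O o hO hne ho) (Dvd.intro _ rfl)
    exact_mod_cast h2)
  exact ⟨a₀ * c ^ (ℓ - 1), c, J, ha, hc0, hEa, hJ.symm⟩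

end GT
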