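import Mathlib
import Pool.Agent.MP_c1dca2_ag.GT.A10
import Pool.Agent.MP_c1dca2_ag.GT.A3
import Pool.Agent.MP_c1dca2_ag.GT.Base
import Pool.Agent.MP_c1dca2_ag.GT.Defs
import Pool.Agent.MP_c1dca2_ag.GT.L1
import Pool.Agent.MP_c1dca2_ag.GT.N1
import Pool.Agent.MP_c1dca2_ag.GT.N2a
import Pool.Agent.MP_c1dca2_ag.GT.N2b
import Pool.Agent.MP_c1dca2_ag.GT.N2d
import Pool.Agent.MP_c1dca2_ag.GT.P0
import Pool.Agent.MP_c1dca2_ag.GT.P8a
import Pool.Agent.MP_c1dca2_ag.GT.P8b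
import Pool.Agent.MP_c1dca2_ag.GT.P8d
import Pool.Agent.MP_c1dca2_ag.SUP.Defs
import Pool.Agent.MP_c1dca2_ag.SUP.L1

set_option autoImplicit false
set_option linter.unusedSectionVars false

open Polynomial

namespace GT

/-! ## [GT-N3c] functions with orders divisible by `ℓ`, functions with two other orders -/

variable {C L : Type} [Field C] [Field L] [Algebra C L] {O₁ : ValuationSubring L} {d : ℕ} [NeZero d]
  {T : Tab C d} {E : WB T →+* L}

theorem n3c_cls_pow {B : Type} [CommRing B] [IsDedekindDomain B] {I : Ideal B} (hI : I ≠ ⊥) (n : ℕ) :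
    cls (I ^ n) = cls I ^ n := by
  induction n with
  | zero =>
    rw [pow_zero, pow_zero, Ideal.one_eq_top, ← Ideal.span_singleton_one]
    exact cls_span one_ne_zero
  | succ n ih => rw [pow_succ, cls_mul (pow_ne_zero n hI) hI, ih, pow_succ]

/-- For places `O₂ ≠ O₁` there is a function with order `1` mod `ℓ` at `O₂`, `-1` mod `ℓ` at `O₁` and `0` mod `ℓ` at all the other places.

Proof. `exists_model` (P8a) for the place `O₁`: `d`, `T`, `E`, `h`; `WB T` is a Dedekind domain (`h.ded`). `P` := the maximal ideal of `O₂` (`Model.place`). `Model.div` (N1) for `D = (cls P)⁻¹`: `D' ^ ℓ = (cls P)⁻¹`, `D' = cls I` (`exists_cls`), so `cls (P * I ^ ℓ) = 1` (`cls_mul`), `P * I ^ ℓ = (b)` (`cls_eq_one_iff`).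
`t := E b`. At `O ≠ O₁` with order `o`: `o t = oI (P * I ^ ℓ) = oI P + ℓ oI I` (`oI_span`, `oI_mul`, `oI_pow`), and `oI P = 1` if `O = O₂`, `0` otherwise (`oI_maximal`; if `O ≠ O₂` and `P` were the ideal of `O` as well, `O = O₂` because by the last part of `Model.place` the ideal determines the ring). At `O₁`: `o t = - pord b`
(`h.ordo`) and `pord b = len (b) = 1 + ℓ len I` (`len_span`, `len_mul`, `len_pow`, `len_maximal`). -/
theorem exists_t [CharZero C] [IsAlgClosed C] (hF : FF C L) {O₁ O₂ : ValuationSubring L}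
    (hO₁ : IsPl C O₁) (hO₂ : IsPl C O₂) (hne : O₂ ≠ O₁) {ℓ : ℕ} (hℓ : 0 < ℓ) :
    ∃ t : L, t ≠ 0 ∧ (∀ o, IsOrd C O₂ o → (ℓ : ℤ) ∣ o t - 1) ∧ (∀ o, IsOrd C O₁ o → (ℓ : ℤ) ∣ o t + 1) ∧
      ∀ (O : ValuationSubring L) (o : L → ℤ), IsPl C O → O ≠ O₁ → O ≠ O₂ → IsOrd C O o → (ℓ : ℤ) ∣ o t := by
  obtain ⟨d, hd, T, E, h⟩ := exists_model hF hO₁
  haveI := h.ded
  obtain ⟨P, hP, hP0, hP1, hP2⟩ := h.place hF hO₁ hO₂ hne
  obtain ⟨D', hD'⟩ := h.div hF hO₁ hℓ (cls P)⁻¹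
  obtain ⟨I, hI, hID⟩ := exists_cls D'
  have hIl : I ^ ℓ ≠ ⊥ := pow_ne_zero ℓ hI
  have hPI : P * I ^ ℓ ≠ ⊥ := mul_ne_zero hP0 hIl
  have hc : cls (P * I ^ ℓ) = 1 := by
    rw [cls_mul hP0 hIl, n3c_cls_pow hI, hID, hD', mul_inv_cancel]
  obtain ⟨b, hb⟩ := (cls_eq_one_iff hPI).1 hc
  have hb0 : b ≠ 0 := by
    rintro rfl
    apply hPI
    rw [hb, Ideal.span_singleton_eq_bot]
  have hEb : E b ≠ 0 := fun h0 => hb0 (h.inj (by rw [h0, map_zero]))
  have key : ∀ (O : ValuationSubring L) (o : L → ℤ), IsPl C O → O ≠ O₁ → IsOrd C O o →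
      o (E b) = oI E o P + ℓ * oI E o I := by
    intro O o hO hOne ho
    rw [← oI_span h hO hOne ho hb0, ← hb, oI_mul h hO hOne ho hP0 hIl, oI_pow h hO hOne ho hI]
    push_cast
    rfl
  refine ⟨E b, hEb, ?_, ?_, ?_⟩
  · intro o ho
    rw [key O₂ o hO₂ hne ho, (oI_maximal hF hO₁ h hO₂ hne ho hP).1 hP1]
    exact ⟨oI E o I, by push_cast; ring⟩
  · intro o ho
    have h1 : pord b = 1 + ℓ * len I := by
      rw [← len_span hb0, ← hb, len_mul hP0 hIl, len_pow hI, len_maximal hP hP0]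
    rw [h.ordo o ho b hb0, h1]
    exact ⟨-(len I : ℤ), by push_cast; ring⟩
  · intro O o hO hOne hOne2 ho
    have hnot : ¬ ∀ b, b ∈ P ↔ E b ∈ O.nonunits := by
      intro hall
      obtain ⟨P', hP', hP'0, hP'1, hP'2⟩ := h.place hF hO₁ hO hOne
      have hPP : P' = P := by
        ext x
        rw [hP'1, hall]
      apply hOne2
      ext f
      rw [hP'2, hP2, hPP]
    rw [key O o hO hOne ho, (oI_maximal hF hO₁ h hO hOne ho hP).2 hnot]
    exact ⟨oI E o I, by push_cast; ring⟩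

end GT
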