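import Mathlib
import Pool.Agent.MP_c1dca2_ag.GT.Base
import Pool.Agent.MP_c1dca2_ag.GT.P0
import Pool.Agent.MP_c1dca2_ag.GT.P1b

set_option autoImplicit false
set_option linter.unusedVariables false

open IsLocalRing

namespace GT

/-! ## [GT-H2a] function fields inside `Ω` -/

section

variable {C Ω : Type} [Field C] [Field Ω] [Algebra C Ω] [CharZero C]

omit [CharZero C] [Algebra C Ω] [Field C] in
theorem h2a_int {A B : Type} [Field A] [Field B] [Algebra A Ω] [Algebra B Ω]
    (h : ∀ a : A, ∃ b : B, algebraMap B Ω b = algebraMap A Ω a) {y : Ω} (hy : IsAlgebraic A y) :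
    IsAlgebraic B y := by
  rw [isAlgebraic_iff_isIntegral] at hy ⊢
  obtain ⟨p, hp, hp0⟩ := hy
  have hl : p.map (algebraMap A Ω) ∈ Polynomial.lifts (algebraMap B Ω) := by
    rw [Polynomial.lifts_iff_coeff_lifts]
    intro n
    rw [Polynomial.coeff_map]
    obtain ⟨b, hb⟩ := h (p.coeff n)
    exact ⟨b, hb⟩
  obtain ⟨q, hq, _, hqm⟩ := Polynomial.lifts_and_natDegree_eq_and_monic hl (hp.map _)
  refine ⟨q, hqm, ?_⟩
  rw [← Polynomial.eval_map, hq, Polynomial.eval_map]
  exact hp0

/-- Proof. `N = adjoin C (insert x s)`; `x ∈ N`. `N` is finite over `C(x)`: `IntermediateField.adjoin C (insert x s)` is, as an intermediate field over `C⟮x⟯`, generated by the finite set `s` of algebraic elements (`IntermediateField.finiteDimensional_adjoin`, restriction of scalars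
`IntermediateField.adjoin_adjoin_left`/`extendScalars`). `ff_of` (P1b) for the element `⟨x, _⟩` of `N` (transcendental because `x` is; the field `adjoin C {⟨x, _⟩}` of `N` corresponds to `adjoin C {x}` of `Ω`). -/
theorem ff_adjoin {x : Ω} (hx : Transcendental C x) (s : Finset Ω)
    (hs : ∀ y ∈ s, IsAlgebraic (IntermediateField.adjoin C {x}) y) :
    FF C (IntermediateField.adjoin C (insert x (s : Set Ω))) := by
  have hxN : x ∈ IntermediateField.adjoin C (insert x (s : Set Ω)) :=
    IntermediateField.subset_adjoin _ _ (Set.mem_insert x _)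
  set N := IntermediateField.adjoin C (insert x (s : Set Ω)) with hN
  let x' : N := ⟨x, hxN⟩
  have hx' : Transcendental C x' := by
    intro h
    apply hx
    have h1 : IsAlgebraic C (algebraMap N Ω x') := h.algebraMap
    exact h1
  refine ff_of x' hx' ?_
  have hfg : N.FG := by
    rw [hN]
    exact IntermediateField.fg_adjoin_of_finite (s.finite_toSet.insert x)
  have hE : Algebra.EssFiniteType C N := IntermediateField.essFiniteType_iff.2 hfg
  have hE2 : Algebra.EssFiniteType (IntermediateField.adjoin C ({x'} : Set N)) N :=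
    Algebra.EssFiniteType.of_comp C _ N
  have hmap : (IntermediateField.adjoin C ({x'} : Set N)).map N.val = IntermediateField.adjoin C {x} := by
    rw [IntermediateField.adjoin_map, Set.image_singleton]
    rfl
  have htr : ∀ a : IntermediateField.adjoin C ({x} : Set Ω),
      ∃ b : IntermediateField.adjoin C ({x'} : Set N),
        algebraMap (IntermediateField.adjoin C ({x'} : Set N)) Ω b =
          algebraMap (IntermediateField.adjoin C ({x} : Set Ω)) Ω a := by
    intro a
    have h1 : (a : Ω) ∈ (IntermediateField.adjoin C ({x'} : Set N)).map N.val := by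
      rw [hmap]
      exact a.2
    obtain ⟨b, hb, hba⟩ := h1
    exact ⟨⟨b, hb⟩, hba⟩
  have hle : N ≤ (algebraicClosure (IntermediateField.adjoin C ({x'} : Set N)) Ω).restrictScalars C := by
    refine hN.le.trans ?_
    rw [IntermediateField.adjoin_le_iff]
    rintro y (rfl | hy)
    · have hm : x' ∈ IntermediateField.adjoin C ({x'} : Set N) :=
        IntermediateField.subset_adjoin _ _ (Set.mem_singleton x')
      have h1 : IsAlgebraic (IntermediateField.adjoin C ({x'} : Set N))
          (algebraMap (IntermediateField.adjoin C ({x'} : Set N)) Ω ⟨x', hm⟩) := isAlgebraic_algebraMap _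
      exact mem_algebraicClosure_iff.2 h1
    · exact mem_algebraicClosure_iff.2 (h2a_int htr (hs y hy))
  have halg : Algebra.IsAlgebraic (IntermediateField.adjoin C ({x'} : Set N)) N := by
    refine ⟨fun y => ?_⟩
    have h1 : IsAlgebraic (IntermediateField.adjoin C ({x'} : Set N)) (algebraMap N Ω y) :=
      mem_algebraicClosure_iff.1 (hle y.2)
    exact (isAlgebraic_algebraMap_iff (algebraMap N Ω).injective).1 h1
  exact Algebra.finite_of_essFiniteType_of_isAlgebraic

/-- Proof. `t ∈ F` transcendental (`hF.ex`), `F` is finite over `C(t)` (`hF.fin`), so `F = adjoin C (insert t s₀)` for a finite set `s₀` of elements algebraic over `C(t)` (a basis), and the elements of `s` are algebraic over `F`, so over `C(t)` (transitivity). So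
`adjoin C (F ∪ s) = adjoin C (insert t (s₀ ∪ s))`: `ff_adjoin`. -/
theorem ff_sup (F : IntermediateField C Ω) (hF : FF C F) (s : Finset Ω)
    (hs : ∀ y ∈ s, IsAlgebraic F y) :
    FF C (IntermediateField.adjoin C ((F : Set Ω) ∪ (s : Set Ω))) := by
  obtain ⟨t, ht⟩ := hF.ex
  have hfin := hF.fin t ht
  have hE : Algebra.EssFiniteType C F := by
    have h1 : (IntermediateField.adjoin C ({t} : Set F)).FG :=
      IntermediateField.fg_adjoin_of_finite (Set.finite_singleton t)
    have h2 : Algebra.EssFiniteType C (IntermediateField.adjoin C ({t} : Set F)) :=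
      IntermediateField.essFiniteType_iff.2 h1
    exact Algebra.EssFiniteType.comp C (IntermediateField.adjoin C ({t} : Set F)) F
  obtain ⟨s₀, hs₀⟩ := IntermediateField.essFiniteType_iff.1 hE
  classical
  have ht' : Transcendental C (t : Ω) := by
    intro h
    exact ht ((isAlgebraic_algebraMap_iff (algebraMap F Ω).injective).1 h)
  have hmap : (IntermediateField.adjoin C ({t} : Set F)).map F.val = IntermediateField.adjoin C {(t : Ω)} := by
    rw [IntermediateField.adjoin_map, Set.image_singleton]
    rfl
  have htr : ∀ a : IntermediateField.adjoin C ({t} : Set F),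
      ∃ b : IntermediateField.adjoin C ({(t : Ω)} : Set Ω),
        algebraMap (IntermediateField.adjoin C ({(t : Ω)} : Set Ω)) Ω b =
          algebraMap (IntermediateField.adjoin C ({t} : Set F)) Ω a := by
    intro a
    have h1 : ((a : F) : Ω) ∈ IntermediateField.adjoin C ({(t : Ω)} : Set Ω) := by
      rw [← hmap]
      exact ⟨a, a.2, rfl⟩
    exact ⟨⟨_, h1⟩, rfl⟩
  have halg : Algebra.IsAlgebraic (IntermediateField.adjoin C ({t} : Set F)) F :=
    Algebra.IsAlgebraic.of_finite _ _
  have hs' : ∀ y ∈ s₀ ∪ s, IsAlgebraic (IntermediateField.adjoin C {(t : Ω)}) y := by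
    intro y hy
    apply h2a_int htr
    rcases Finset.mem_union.1 hy with hy | hy
    · have hyF : y ∈ F := by
        rw [← hs₀]
        exact IntermediateField.subset_adjoin _ _ hy
      have h1 := (halg.isAlgebraic (⟨y, hyF⟩ : F)).algebraMap (A := Ω)
      exact h1
    · exact (hs y hy).restrictScalars (IntermediateField.adjoin C ({t} : Set F))
  have heq : IntermediateField.adjoin C ((F : Set Ω) ∪ (s : Set Ω)) =
      IntermediateField.adjoin C (insert (t : Ω) ((s₀ ∪ s : Finset Ω) : Set Ω)) := by
    apply le_antisymm
    · rw [IntermediateField.adjoin_le_iff]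
      rintro y (hy | hy)
      · have h1 : F ≤ IntermediateField.adjoin C (insert (t : Ω) ((s₀ ∪ s : Finset Ω) : Set Ω)) := by
          refine hs₀.ge.trans ?_
          apply IntermediateField.adjoin.mono
          intro z hz
          exact Set.mem_insert_of_mem _ (Finset.mem_coe.2 (Finset.mem_union_left _ hz))
        exact h1 hy
      · exact IntermediateField.subset_adjoin _ _
          (Set.mem_insert_of_mem _ (Finset.mem_coe.2 (Finset.mem_union_right _ hy)))
    · rw [IntermediateField.adjoin_le_iff]
      rintro y (rfl | hy)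
      · exact IntermediateField.subset_adjoin _ _ (Or.inl t.2)
      · rcases Finset.mem_union.1 (Finset.mem_coe.1 hy) with hy | hy
        · have hyF : y ∈ F := by
            rw [← hs₀]
            exact IntermediateField.subset_adjoin _ _ hy
          exact IntermediateField.subset_adjoin _ _ (Or.inl hyF)
        · exact IntermediateField.subset_adjoin _ _ (Or.inr hy)
  rw [heq]
  exact ff_adjoin ht' (s₀ ∪ s) hs'

end

variable {k K : Type} [Field k] [Field K] [Algebra k K]

end GT
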