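import Mathlib
import Pool.Agent.MP_c1dca2_ag.GT.A1
import Pool.Agent.MP_c1dca2_ag.GT.A2
import Pool.Agent.MP_c1dca2_ag.GT.A3
import Pool.Agent.MP_c1dca2_ag.GT.Base
import Pool.Agent.MP_c1dca2_ag.GT.Defs
import Pool.Agent.MP_c1dca2_ag.SUP.Defs

set_option autoImplicit false
set_option linter.unusedSectionVars false

open Polynomial

namespace GT

/-! ## [GT-M2] valuations on homomorphic images of `WB T` (file M2.lean) -/

variable {d : ℕ} [NeZero d] {κ : Type} [Field κ] {T : Tab κ d}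
  {M : Type} [Field M] {Γ : Type} [LinearOrderedCommGroupWithZero Γ] (v : Valuation M Γ)
  (E : WB T →+* M) (hE : ∀ a : κ, a ≠ 0 → v (E (algebraMap κ (WB T) a)) = 1)

theorem m2_eval (E : WB T →+* M) (p : κ[X]) : E (algebraMap κ[X] (WB T) p) =
    ∑ i ∈ Finset.range (p.natDegree + 1), E (algebraMap κ (WB T) (p.coeff i)) * E (WB.x T) ^ i := by
  conv_lhs => rw [p.as_sum_range_C_mul_X_pow]
  rw [map_sum, map_sum]
  refine Finset.sum_congr rfl fun i _ => ?_
  rw [map_mul, map_mul, map_pow, map_pow, IsScalarTower.algebraMap_apply κ κ[X] (WB T),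
    Polynomial.algebraMap_eq]
  rfl

theorem m2_expand (E : WB T →+* M) (b : WB T) : E b =
    ∑ j, E (algebraMap κ[X] (WB T) (b.co j)) * E (WB.f T j) := by
  conv_lhs => rw [← WB.sum_f b, map_sum]
  refine Finset.sum_congr rfl fun j _ => ?_
  rw [Algebra.smul_def, map_mul]

include hE

theorem m2_const_le (a : κ) : v (E (algebraMap κ (WB T) a)) ≤ 1 := by
  by_cases ha : a = 0
  · rw [ha, map_zero, map_zero, map_zero]
    exact zero_le_one
  · exact (hE a ha).le

theorem m2_poly_le (hx : v (E (WB.x T)) ≤ 1) (p : κ[X]) :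
    v (E (algebraMap κ[X] (WB T) p)) ≤ 1 := by
  rw [m2_eval]
  refine v.map_sum_le fun i _ => ?_
  rw [map_mul, map_pow]
  exact mul_le_one' (m2_const_le v E hE _) (pow_le_one' hx i)

/-- No pole of `x`: the image of `WB T` is in the valuation ring. -/
theorem m2_le (hx : v (E (WB.x T)) ≤ 1) (b : WB T) : v (E b) ≤ 1 := by
  have hint : IsIntegral κ[X] b := Algebra.IsIntegral.isIntegral b
  obtain ⟨p, hp, hp0⟩ := hint
  let φ : κ[X] →+* v.integer := (E.comp (algebraMap κ[X] (WB T))).codRestrict v.integer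
    (fun p => m2_poly_le v E hE hx p)
  have h1 : IsIntegral v.integer (E b) := by
    refine ⟨p.map φ, hp.map φ, ?_⟩
    have h2 : (algebraMap v.integer M).comp φ = E.comp (algebraMap κ[X] (WB T)) :=
      RingHom.ext fun p => rfl
    rw [eval₂_map, h2, ← Polynomial.hom_eval₂, hp0, map_zero]
  exact (Valuation.integer.integers v).mem_of_integral h1

/-- The value of a polynomial at a pole of `x`. -/
theorem m2_poly (hx : 1 < v (E (WB.x T))) {p : κ[X]} (hp : p ≠ 0) :
    v (E (algebraMap κ[X] (WB T) p)) = v (E (WB.x T)) ^ p.natDegree := by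
  rw [m2_eval, Finset.sum_range_succ]
  have hx0 : 0 < v (E (WB.x T)) := lt_trans zero_lt_one hx
  have h1 : v (E (algebraMap κ (WB T) (p.coeff p.natDegree)) * E (WB.x T) ^ p.natDegree) =
      v (E (WB.x T)) ^ p.natDegree := by
    rw [map_mul, hE _ (by rw [coeff_natDegree]; exact leadingCoeff_ne_zero.2 hp), one_mul, map_pow]
  rw [add_comm, Valuation.map_add_eq_of_lt_left, h1]
  rw [h1]
  refine v.map_sum_lt (pow_pos hx0 _).ne' fun i hi => ?_
  rw [map_mul, map_pow]
  calc v (E (algebraMap κ (WB T) (p.coeff i))) * v (E (WB.x T)) ^ i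
      ≤ 1 * v (E (WB.x T)) ^ i := mul_le_mul' (m2_const_le v E hE _) le_rfl
    _ = v (E (WB.x T)) ^ i := one_mul _
    _ < v (E (WB.x T)) ^ p.natDegree := pow_lt_pow_right₀ hx (Finset.mem_range.1 hi)

theorem m2_term_le (hx : 1 < v (E (WB.x T))) {θ : Γ} (hθ : ∀ k, v (E (WB.f T k)) ^ d ≤
    θ * v (E (WB.x T)) ^ T.w k) (i j k : ZMod d) :
    v (E (algebraMap κ[X] (WB T) (T.c i j k)) * E (WB.f T k)) ^ d ≤
      θ * v (E (WB.x T)) ^ (T.w i + T.w j) := by
  by_cases hc : T.c i j k = 0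
  · rw [hc, map_zero, map_zero, zero_mul, map_zero, zero_pow (NeZero.ne d)]
    exact zero_le
  · rw [map_mul, mul_pow, m2_poly v E hE hx hc, ← pow_mul]
    calc v (E (WB.x T)) ^ ((T.c i j k).natDegree * d) * v (E (WB.f T k)) ^ d
        ≤ v (E (WB.x T)) ^ ((T.c i j k).natDegree * d) * (θ * v (E (WB.x T)) ^ T.w k) :=
          mul_le_mul' le_rfl (hθ k)
      _ = θ * v (E (WB.x T)) ^ (d * (T.c i j k).natDegree + T.w k) := by
          rw [pow_add, mul_comm d]
          ac_rfl
      _ ≤ θ * v (E (WB.x T)) ^ (T.w i + T.w j) := by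
          refine mul_le_mul' le_rfl (pow_le_pow_right₀ hx.le ?_)
          refine a2_small (i := i) (j := j) (k := k) (n := (T.c i j k).natDegree) ?_
          rw [coeff_natDegree]
          exact leadingCoeff_ne_zero.2 hc

theorem m2_sum_le {α : Type} (s : Finset α) (f : α → M) (c : Γ) (h : ∀ a ∈ s, v (f a) ^ d ≤ c) :
    v (∑ a ∈ s, f a) ^ d ≤ c := by
  classical
  rcases s.eq_empty_or_nonempty with rfl | hs
  · rw [Finset.sum_empty, map_zero, zero_pow (NeZero.ne d)]
    exact zero_le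
  · obtain ⟨a, ha, hmax⟩ := s.exists_max_image (fun a => v (f a)) hs
    exact le_trans (pow_le_pow_left₀ zero_le (v.map_sum_le fun b hb => hmax b hb) d) (h a ha)

/-- The values of the basis elements at a pole of `x`. -/
theorem m2_f (hx : 1 < v (E (WB.x T))) (j : ZMod d) :
    v (E (WB.f T j)) ^ d = v (E (WB.x T)) ^ T.w j := by
  classical
  set X := v (E (WB.x T)) with hX
  have hX0 : 0 < X := lt_trans zero_lt_one hx
  have hXp : ∀ n : ℕ, 0 < X ^ n := fun n => pow_pos hX0 n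
  let θ : ZMod d → Γ := fun k => v (E (WB.f T k)) ^ d / X ^ T.w k
  have hθ : ∀ k, v (E (WB.f T k)) ^ d = θ k * X ^ T.w k := fun k => by
    rw [div_mul_cancel₀ _ (hXp _).ne']
  obtain ⟨k₀, -, hk₀⟩ := (Finset.univ : Finset (ZMod d)).exists_max_image θ ⟨0, Finset.mem_univ _⟩
  have hθ0 : θ 0 = 1 := by
    show v (E (WB.f T 0)) ^ d / X ^ T.w 0 = 1
    rw [WB.f_zero, map_one, map_one, T.w_zero, one_pow, pow_zero, div_one]
  have hle : ∀ k, v (E (WB.f T k)) ^ d ≤ θ k₀ * X ^ T.w k := fun k => by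
    rw [hθ k]
    exact mul_le_mul' (hk₀ k (Finset.mem_univ _)) le_rfl
  have hone : 1 ≤ θ k₀ := by
    rw [← hθ0]
    exact hk₀ 0 (Finset.mem_univ _)
  have hfm : ∀ i j : ZMod d, E (WB.f T i) * E (WB.f T j) =
      ∑ k, E (algebraMap κ[X] (WB T) (T.c i j k)) * E (WB.f T k) := by
    intro i j
    rw [← map_mul, WB.f_mul, map_sum]
    refine Finset.sum_congr rfl fun k _ => ?_
    rw [Algebra.smul_def, map_mul]
  have hsq : θ k₀ * θ k₀ ≤ θ k₀ := by
    have h1 : v (E (WB.f T k₀) * E (WB.f T k₀)) ^ d ≤ θ k₀ * X ^ (T.w k₀ + T.w k₀) := by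
      rw [hfm]
      exact m2_sum_le (d := d) v E hE _ _ _ fun k _ => m2_term_le v E hE hx hle k₀ k₀ k
    rw [map_mul, mul_pow, hθ k₀, pow_add] at h1
    have h2 : θ k₀ * θ k₀ * (X ^ T.w k₀ * X ^ T.w k₀) ≤ θ k₀ * (X ^ T.w k₀ * X ^ T.w k₀) := by
      refine le_trans (le_of_eq ?_) h1
      ac_rfl
    exact le_of_mul_le_mul_right h2 (mul_pos (hXp _) (hXp _))
  have hθ1 : θ k₀ = 1 := by
    refine le_antisymm ?_ hone
    have h1 : θ k₀ * θ k₀ ≤ 1 * θ k₀ := by rwa [one_mul]
    exact le_of_mul_le_mul_right h1 (lt_of_lt_of_le zero_lt_one hone)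
  have hle1 : ∀ k, θ k ≤ 1 := fun k => by
    rw [← hθ1]
    exact hk₀ k (Finset.mem_univ _)
  have hle' : ∀ k, v (E (WB.f T k)) ^ d ≤ X ^ T.w k := fun k => by
    have := hle k
    rwa [hθ1, one_mul] at this
  -- the product `f_j f_{-j}`
  obtain ⟨n, hn, hn1⟩ := T.top j (-j)
  have h0 : j + -j = 0 := add_neg_cancel j
  rw [h0] at hn hn1
  rw [T.w_zero, add_zero] at hn
  have hc0 : T.c j (-j) 0 ≠ 0 := by
    intro h
    rw [h, coeff_zero] at hn1
    exact zero_ne_one hn1
  have hdeg : d * (T.c j (-j) 0).natDegree = T.w j + T.w (-j) := by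
    refine le_antisymm ?_ ?_
    · have := a2_small (T := T) (i := j) (j := -j) (k := 0) (n := (T.c j (-j) 0).natDegree)
        (by rw [coeff_natDegree]; exact leadingCoeff_ne_zero.2 hc0)
      rwa [T.w_zero, add_zero] at this
    · rw [← hn]
      exact Nat.mul_le_mul_left _ (le_natDegree_of_ne_zero (by rw [hn1]; exact one_ne_zero))
  have ht0 : v (E (algebraMap κ[X] (WB T) (T.c j (-j) 0)) * E (WB.f T 0)) ^ d =
      X ^ (T.w j + T.w (-j)) := by
    rw [map_mul, mul_pow, m2_poly v E hE hx hc0, WB.f_zero, map_one, map_one, one_pow, mul_one,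
      ← pow_mul, mul_comm _ d, hdeg]
  have hrest : ∀ k ∈ (Finset.univ : Finset (ZMod d)).erase 0,
      v (E (algebraMap κ[X] (WB T) (T.c j (-j) k)) * E (WB.f T k)) <
        v (E (algebraMap κ[X] (WB T) (T.c j (-j) 0)) * E (WB.f T 0)) := by
    intro k hk
    have hk0 : k ≠ 0 := Finset.ne_of_mem_erase hk
    refine lt_of_pow_lt_pow_left₀ d zero_le ?_
    rw [ht0]
    by_cases hc : T.c j (-j) k = 0
    · rw [hc, map_zero, map_zero, zero_mul, map_zero, zero_pow (NeZero.ne d)]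
      exact hXp _
    · rw [map_mul, mul_pow, m2_poly v E hE hx hc, ← pow_mul]
      have h2 : (T.c j (-j) k).natDegree * d + T.w k < T.w j + T.w (-j) := by
        refine lt_of_le_of_ne ?_ ?_
        · rw [mul_comm]
          refine a2_small (T := T) (i := j) (j := -j) (k := k) ?_
          rw [coeff_natDegree]
          exact leadingCoeff_ne_zero.2 hc
        · intro h
          apply hk0
          have h3 := congrArg (fun n : ℕ => (n : ZMod d)) h
          simp only [Nat.cast_add, Nat.cast_mul, ZMod.natCast_self, mul_zero, zero_add,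
            T.w_cast] at h3
          rw [h3, add_neg_cancel]
      calc X ^ ((T.c j (-j) k).natDegree * d) * v (E (WB.f T k)) ^ d
          ≤ X ^ ((T.c j (-j) k).natDegree * d) * X ^ T.w k := mul_le_mul' le_rfl (hle' k)
        _ = X ^ ((T.c j (-j) k).natDegree * d + T.w k) := (pow_add _ _ _).symm
        _ < X ^ (T.w j + T.w (-j)) := pow_lt_pow_right₀ hx h2
  have ht00 : v (E (algebraMap κ[X] (WB T) (T.c j (-j) 0)) * E (WB.f T 0)) ≠ 0 := by
    intro h
    rw [h, zero_pow (NeZero.ne d)] at ht0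
    exact (hXp _).ne ht0
  have hprod : v (E (WB.f T j) * E (WB.f T (-j))) ^ d = X ^ (T.w j + T.w (-j)) := by
    rw [hfm, ← Finset.add_sum_erase _ _ (Finset.mem_univ (0 : ZMod d)),
      Valuation.map_add_eq_of_lt_left v (v.map_sum_lt ht00 hrest), ht0]
  rw [map_mul, mul_pow, hθ j, hθ (-j), pow_add] at hprod
  have h3 : θ j * θ (-j) = 1 := by
    have h4 : θ j * θ (-j) * (X ^ T.w j * X ^ T.w (-j)) = 1 * (X ^ T.w j * X ^ T.w (-j)) := by
      rw [one_mul, mul_mul_mul_comm]
      exact hprod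
    exact mul_right_cancel₀ (mul_pos (hXp _) (hXp _)).ne' h4
  have h4 : θ j = 1 := by
    refine le_antisymm (hle1 j) ?_
    rw [← h3]
    calc θ j * θ (-j) ≤ θ j * 1 := mul_le_mul' le_rfl (hle1 (-j))
      _ = θ j := mul_one _
  rw [hθ j, h4, one_mul]

/-- The value of an element at a pole of `x`. -/
theorem m2_val (hx : 1 < v (E (WB.x T))) {b : WB T} (hb : b ≠ 0) :
    v (E b) ^ d = v (E (WB.x T)) ^ pord b := by
  classical
  have hx0 : 0 < v (E (WB.x T)) := lt_trans zero_lt_one hx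
  have hd0 : d ≠ 0 := NeZero.ne d
  have hlc : lcf T (pord b) b ≠ 0 := lc_ne hb
  have hex : ∃ (j : ZMod d) (i : ℕ), d * i + T.w j = pord b := by
    by_contra hne
    push Not at hne
    exact hlc (lcf_none hne b)
  obtain ⟨j₀, i₀, h₀⟩ := hex
  have hc₀ : (b.co j₀).coeff i₀ ≠ 0 := by
    rw [← h₀, lcf_eq j₀ i₀ b] at hlc
    exact hlc
  have hle : ∀ (j : ZMod d) (i : ℕ), (b.co j).coeff i ≠ 0 → d * i + T.w j ≤ pord b := by
    intro j i hji
    by_contra hlt
    push Not at hlt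
    exact hji (mem_Ble.1 (mem_Ble_pord b) j i hlt)
  have hterm : ∀ (j : ZMod d) (i : ℕ) (c : κ), c ≠ 0 →
      v (E (algebraMap κ (WB T) c) * E (WB.x T) ^ i * E (WB.f T j)) ^ d =
        v (E (WB.x T)) ^ (d * i + T.w j) := by
    intro j i c hc
    rw [map_mul, map_mul, mul_pow, mul_pow, m2_f v E hE hx j, hE c hc, one_pow, one_mul, map_pow,
      ← pow_mul, mul_comm i d, ← pow_add]
  obtain ⟨n, hn⟩ : ∃ n : ℕ, ∀ j, (b.co j).natDegree < n :=
    ⟨(∑ j, (b.co j).natDegree) + 1, fun j => Nat.lt_succ_of_le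
      (Finset.single_le_sum (f := fun j => (b.co j).natDegree) (fun _ _ => Nat.zero_le _)
        (Finset.mem_univ j))⟩
  let t : ZMod d × ℕ → M := fun p =>
    E (algebraMap κ (WB T) ((b.co p.1).coeff p.2)) * E (WB.x T) ^ p.2 * E (WB.f T p.1)
  have hsum : E b = ∑ p ∈ (Finset.univ : Finset (ZMod d)) ×ˢ Finset.range n, t p := by
    rw [m2_expand, Finset.sum_product]
    refine Finset.sum_congr rfl fun j _ => ?_
    have h1 : E (algebraMap κ[X] (WB T) (b.co j)) =
        ∑ i ∈ Finset.range n, E (algebraMap κ (WB T) ((b.co j).coeff i)) * E (WB.x T) ^ i := by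
      rw [m2_eval]
      refine Finset.sum_subset ?_ ?_
      · intro i hi
        rw [Finset.mem_range] at hi ⊢
        have := hn j
        omega
      · intro i _ hi
        rw [Finset.mem_range, not_lt] at hi
        rw [coeff_eq_zero_of_natDegree_lt (by omega), map_zero, map_zero, zero_mul]
    rw [h1, Finset.sum_mul]
  have hi₀ : i₀ < n := lt_of_le_of_lt (le_natDegree_of_ne_zero hc₀) (hn j₀)
  have hmem : (j₀, i₀) ∈ (Finset.univ : Finset (ZMod d)) ×ˢ Finset.range n :=
    Finset.mem_product.2 ⟨Finset.mem_univ _, Finset.mem_range.2 hi₀⟩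
  have ht₀ : v (t (j₀, i₀)) ^ d = v (E (WB.x T)) ^ pord b := by
    rw [← h₀]
    exact hterm j₀ i₀ _ hc₀
  have ht₀0 : v (t (j₀, i₀)) ≠ 0 := by
    intro h
    rw [h, zero_pow hd0] at ht₀
    exact (pow_pos hx0 _).ne ht₀
  have hrest : ∀ p ∈ ((Finset.univ : Finset (ZMod d)) ×ˢ Finset.range n).erase (j₀, i₀),
      v (t p) < v (t (j₀, i₀)) := by
    intro p hp
    have hpne : p ≠ (j₀, i₀) := Finset.ne_of_mem_erase hp
    by_cases hc : (b.co p.1).coeff p.2 = 0
    · have : t p = 0 := by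
        show E (algebraMap κ (WB T) ((b.co p.1).coeff p.2)) * E (WB.x T) ^ p.2 * E (WB.f T p.1) = 0
        rw [hc, map_zero, map_zero, zero_mul, zero_mul]
      rw [this, map_zero]
      exact zero_lt_iff.2 ht₀0
    · have h1 : v (t p) ^ d = v (E (WB.x T)) ^ (d * p.2 + T.w p.1) := hterm p.1 p.2 _ hc
      have h2 : d * p.2 + T.w p.1 < pord b := by
        refine lt_of_le_of_ne (hle p.1 p.2 hc) fun h => hpne ?_
        rw [← h₀] at h
        obtain ⟨h3, h4⟩ := T.wt_inj h
        exact Prod.ext h3 h4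
      have h3 : v (t p) ^ d < v (t (j₀, i₀)) ^ d := by
        rw [h1, ht₀]
        exact pow_lt_pow_right₀ hx h2
      exact lt_of_pow_lt_pow_left₀ d zero_le h3
  rw [hsum, ← Finset.add_sum_erase _ _ hmem,
    Valuation.map_add_eq_of_lt_left v (v.map_sum_lt ht₀0 hrest), ht₀]

omit hE

/-- Two elements whose orders differ by one. -/
theorem exists_consec (T : Tab κ d) : ∃ b₁ b₂ : WB T, b₁ ≠ 0 ∧ b₂ ≠ 0 ∧ pord b₂ = pord b₁ + 1 := by
  classical
  -- `m` and `m + 1` with `m` a large multiple of `d`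
  let N : ℕ := T.w 1 + 1
  have h1 : ∃ n : ℕ, d * n + T.w 1 = d * ((d * n + T.w 1) / d) + 1 ∨ d = 1 := by
    by_cases hd : d = 1
    · exact ⟨0, Or.inr hd⟩
    · refine ⟨0, Or.inl ?_⟩
      have h2 := T.w_cast 1
      have h3 : ((T.w 1 : ℕ) : ZMod d) = ((1 : ℕ) : ZMod d) := by rw [h2, Nat.cast_one]
      rw [ZMod.natCast_eq_natCast_iff'] at h3
      have h4 : 1 % d = 1 := Nat.mod_eq_of_lt (by have := NeZero.ne d; omega)
      rw [h4] at h3
      have h5 := Nat.div_add_mod (d * 0 + T.w 1) d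
      rw [mul_zero, zero_add] at h5 ⊢
      omega
  obtain ⟨n, hn | hd⟩ := h1
  · refine ⟨algebraMap κ[X] (WB T) (X ^ ((d * n + T.w 1) / d)),
      algebraMap κ[X] (WB T) (X ^ n) * WB.f T 1, ?_, ?_, ?_⟩
    · rw [Ne, map_eq_zero_iff _ WB.algebraMap_injective]
      exact pow_ne_zero _ X_ne_zero
    · refine mul_ne_zero ?_ ?_
      · rw [Ne, map_eq_zero_iff _ WB.algebraMap_injective]
        exact pow_ne_zero _ X_ne_zero
      · intro h
        have := lc_v (T := T) 1
        rw [h, a3_lc_zero] at this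
        exact zero_ne_one this
    · rw [pord_mul, pord_algebraMap, pord_algebraMap, natDegree_X_pow, natDegree_X_pow, pord_v]
      · exact hn
      · rw [Ne, map_eq_zero_iff _ WB.algebraMap_injective]
        exact pow_ne_zero _ X_ne_zero
      · intro h
        have := lc_v (T := T) 1
        rw [h, a3_lc_zero] at this
        exact zero_ne_one this
  · refine ⟨1, algebraMap κ[X] (WB T) X, one_ne_zero, ?_, ?_⟩
    · rw [Ne, map_eq_zero_iff _ WB.algebraMap_injective]
      exact X_ne_zero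
    · rw [pord_algebraMap, natDegree_X, pord_one, hd]

end GT
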