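import Mathlib
import Pool.Agent.MP_c1dca2_ag.SC2.AB
import Pool.Agent.MP_c1dca2_ag.SC2.B1
import Pool.Agent.MP_c1dca2_ag.SEC.Defs
import Pool.Agent.MP_c1dca2_ag.SEC.M1
import Pool.Agent.MP_c1dca2_ag.SEC.S
import Pool.Agent.MP_c1dca2_ag.SUP.R0

set_option autoImplicit false
set_option linter.unusedSectionVars false
set_option linter.unusedVariables false

open Polynomial IsLocalRing SEC SC2 SUP

/-!
# [GT-Y1] copies of a few small lemmas of the files SC2/F, SUP/K9, SUP/M7, SUP/M3, SUP/M6, SUP/M6b,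
SUP/M1, SEC/G, to keep the import graph small
-/

namespace GT

section

variable {k : Type} [Field k]

theorem y1_f_iner_root {C : Type} [Field C] [Algebra k C] {V : ValuationSubring C} {ι : Type}
    (r : ι → C) (hr : ∀ i, r i ∈ V) (hd : ∀ i j, i ≠ j → V.valuation (r i - r j) = 1)
    (hp : ∀ (σ : C ≃ₐ[k] C) i, ∃ j, σ (r i) = r j) (σ : C ≃ₐ[k] C) (hσ : Iner V σ) (i : ι) :
    σ (r i) = r i := by
  obtain ⟨j, hj⟩ := hp σ i
  by_cases hij : j = i
  · rw [hj, hij]
  · exfalso
    have h1 := hσ.triv (r i) (hr i)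
    rw [hj, V.mem_nonunits_iff, hd j i hij] at h1
    exact absurd h1 (lt_irrefl _)

theorem y1_f_perm {C : Type} [Field C] [Algebra k C] {ι : Type} [Fintype ι] (f : k[X]) (l : k)
    (hl : l ≠ 0) (r : ι → C) (hfr : f.map (algebraMap k C) =
      Polynomial.C (algebraMap k C l) * ∏ i, (X - Polynomial.C (r i)))
    (σ : C ≃ₐ[k] C) (i : ι) : ∃ j, σ (r i) = r j := by
  have hl' : algebraMap k C l ≠ 0 := by
    intro h
    rw [map_eq_zero] at h
    exact hl h
  have h0 : (f.map (algebraMap k C)).eval (r i) = 0 := by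
    rw [hfr, eval_mul, eval_prod, Finset.prod_eq_zero (Finset.mem_univ i), mul_zero]
    rw [eval_sub, eval_X, eval_C, sub_self]
  have h1 : (f.map (algebraMap k C)).eval (σ (r i)) = 0 := by
    rw [eval_map_algebraMap] at h0 ⊢
    have h2 : aeval (σ (r i)) f = σ (aeval (r i) f) := (aeval_algHom_apply σ.toAlgHom (r i) f)
    rw [h2, h0, map_zero]
  rw [hfr, eval_mul, eval_C, eval_prod, mul_eq_zero] at h1
  rcases h1 with h1 | h1
  · exact absurd h1 hl'
  · obtain ⟨j, -, hj⟩ := Finset.prod_eq_zero_iff.1 h1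
    rw [eval_sub, eval_X, eval_C, sub_eq_zero] at hj
    exact ⟨j, hj⟩

theorem y1_val_ell {k C : Type} [Field k] [Field C] [Algebra k C] {A : ValuationSubring k}
    {V : ValuationSubring C} (h : Above A V) (ℓ : ℕ) (hA : (ℓ : ResidueField A) ≠ 0) :
    V.valuation ((ℓ : ℕ) : C) = 1 := by
  have h3 : residue A ((ℓ : ℕ) : A) ≠ 0 := by
    rw [map_natCast]
    exact hA
  have h4 : IsUnit ((ℓ : ℕ) : A) := by
    by_contra h5
    exact h3 ((residue_eq_zero_iff _).2 h5)
  have h6 := (A.valuation_eq_one_iff ((ℓ : ℕ) : A)).1 h4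
  have h6' : A.valuation ((ℓ : ℕ) : k) = 1 := by exact_mod_cast h6
  have h7 : ((ℓ : ℕ) : k) ≠ 0 := by
    intro h0
    rw [h0, map_zero] at h6'
    exact zero_ne_one h6'
  have h8 : V.valuation (algebraMap k C ((ℓ : ℕ) : k)) ≤ 1 :=
    (V.valuation_le_one_iff _).2 ((h _).2 ((A.valuation_le_one_iff _).1 h6'.le))
  have h9 : V.valuation (algebraMap k C ((ℓ : ℕ) : k)⁻¹) ≤ 1 := by
    refine (V.valuation_le_one_iff _).2 ((h _).2 ((A.valuation_le_one_iff _).1 ?_))
    rw [map_inv₀, h6', inv_one]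
  have h10 : V.valuation (algebraMap k C ((ℓ : ℕ) : k)) *
      V.valuation (algebraMap k C ((ℓ : ℕ) : k)⁻¹) = 1 := by
    rw [← map_mul, ← map_mul, mul_inv_cancel₀ h7, map_one, map_one]
  rw [map_natCast] at h8 h10
  refine le_antisymm h8 ?_
  by_contra hcon
  push Not at hcon
  have h11 := mul_lt_one_of_lt_of_le hcon h9
  rw [h10] at h11
  exact lt_irrefl _ h11

theorem y1_coprime_card {k : Type} [Field k] {A : ValuationSubring k} [Finite (ResidueField A)]
    {ℓ : ℕ} (hℓ : ℓ.Prime) (hA : (ℓ : ResidueField A) ≠ 0) :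
    (Nat.card (ResidueField A)).Coprime ℓ := by
  rw [Nat.coprime_comm, Nat.Prime.coprime_iff_not_dvd hℓ]
  intro hd
  have hF := Fintype.ofFinite (ResidueField A)
  obtain ⟨p, hp⟩ := CharP.exists (ResidueField A)
  have hpp : p.Prime := by
    rcases CharP.char_is_prime_or_zero (ResidueField A) p with h | h
    · exact h
    · exfalso
      rw [h] at hp
      have : CharZero (ResidueField A) := CharP.charP_to_charZero _
      exact not_finite (ResidueField A)
  have hfp : Fact p.Prime := ⟨hpp⟩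
  obtain ⟨n, -, hn⟩ := FiniteField.card (ResidueField A) p
  rw [Nat.card_eq_fintype_card, hn] at hd
  have h1 : ℓ ∣ p := hℓ.dvd_of_dvd_pow hd
  have h2 : ℓ = p := (Nat.prime_dvd_prime_iff_eq hℓ hpp).1 h1
  apply hA
  rw [h2]
  exact CharP.cast_eq_zero _ _

end

section

variable {ℓ : ℕ} [hℓ : Fact ℓ.Prime]

/-- A primitive `ℓ`-th root of unity in `V` with primitive reduction. -/
theorem y1_exists_zeta {C : Type} [Field C] [IsAlgClosed C] {V : ValuationSubring C}
    (hV : V.valuation ((ℓ : ℕ) : C) = 1) :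
    ∃ ζ : V, IsPrimitiveRoot (ζ : C) ℓ ∧ IsPrimitiveRoot (residue V ζ) ℓ := by
  have hne : ((ℓ : ℕ) : C) ≠ 0 := ell_ne hV
  have : NeZero ((ℓ : ℕ) : C) := ⟨hne⟩
  obtain ⟨ζ, hζ⟩ := HasEnoughRootsOfUnity.exists_primitiveRoot C ℓ
  have hζV : ζ ∈ V := mem_root (ℓ := ℓ) 1 ζ (by rw [pow_one]; exact hζ.pow_eq_one)
  refine ⟨⟨ζ, hζV⟩, hζ, ?_⟩
  have h1 : (residue V ⟨ζ, hζV⟩) ^ ℓ = 1 := by
    rw [← map_pow]
    have : (⟨ζ, hζV⟩ : V) ^ ℓ = 1 := Subtype.ext (by simpa using hζ.pow_eq_one)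
    rw [this, map_one]
  have h2 : residue V ⟨ζ, hζV⟩ ≠ 1 := by
    intro h3
    have h4 : residue V (⟨ζ, hζV⟩ - 1) = 0 := by rw [map_sub, h3, map_one, sub_self]
    rw [residue_eq_zero_iff, ValuationSubring.valuation_lt_one_iff] at h4
    have h5 : ζ = 1 := root_of_unity hV 1 ζ (by rw [pow_one]; exact hζ.pow_eq_one) h4
    exact hζ.ne_one hℓ.out.one_lt h5
  rw [← orderOf_eq_prime h1 h2]
  exact IsPrimitiveRoot.orderOf _

/-- For exponents prime to `ℓ` the `q`-power map is injective on `ℓ^n`-th roots of unity. -/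
theorem y1_root_pow_inj {L : Type} [Field L] (n q : ℕ) (hq : q.Coprime ℓ) (ξ : L)
    (hξ : ξ ^ (ℓ ^ n) = 1) (h : ξ ^ q = 1) : ξ = 1 := by
  have h1 : orderOf ξ ∣ ℓ ^ n := orderOf_dvd_of_pow_eq_one hξ
  have h2 : orderOf ξ ∣ q := orderOf_dvd_of_pow_eq_one h
  have h3 : Nat.Coprime q (ℓ ^ n) := Nat.Coprime.pow_right n hq
  have h4 : orderOf ξ ∣ 1 := by
    rw [← h3]
    exact Nat.dvd_gcd h2 h1
  exact orderOf_eq_one_iff.1 (Nat.dvd_one.1 h4)

variable {k K : Type} [Field k] [Field K] [Algebra k K]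

/-- A compatible sequence of `ℓ`-power roots of `a ∈ k`. -/
theorem y1_exists_tower' (a : k) : ∃ π : ℕ → kb k K, π 0 = algebraMap k (kb k K) a ∧
    ∀ m, π (m + 1) ^ ℓ = π m := by
  have : IsAlgClosed (kb k K) := kb_isAlgClosed
  have h : ∀ x : kb k K, ∃ y : kb k K, y ^ ℓ = x := fun x =>
    IsAlgClosed.exists_pow_nat_eq x hℓ.out.pos
  choose r hr using h
  exact ⟨fun n => Nat.rec (algebraMap k (kb k K) a) (fun _ x => r x) n, rfl, fun m => hr _⟩

end

section

/-- The elements of value at most `c`. -/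
def y1_m3_I {B L : Type} [CommRing B] [Field L] (f : B →+* L) (R : ValuationSubring L)
    (hR : ∀ b, R.valuation (f b) ≤ 1) (c : R.ValueGroup) : Ideal B where
  carrier := {z | R.valuation (f z) ≤ c}
  zero_mem' := by
    show R.valuation (f 0) ≤ c
    rw [map_zero, map_zero]
    exact zero_le
  add_mem' := by
    intro a b ha hb
    show R.valuation (f (a + b)) ≤ c
    rw [map_add]
    exact le_trans (Valuation.map_add _ _ _) (max_le ha hb)
  smul_mem' := by
    intro a b hb
    show R.valuation (f (a * b)) ≤ c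
    rw [map_mul, map_mul]
    calc R.valuation (f a) * R.valuation (f b) ≤ 1 * c := mul_le_mul' (hR a) hb
      _ = c := one_mul c

theorem y1_mem_m3_I {B L : Type} [CommRing B] [Field L] (f : B →+* L) (R : ValuationSubring L)
    (hR : ∀ b, R.valuation (f b) ≤ 1) (c : R.ValueGroup) (z : B) :
    z ∈ y1_m3_I f R hR c ↔ R.valuation (f z) ≤ c := Iff.rfl

theorem y1_m3_pow {B L : Type} [CommRing B] [Field L] (f : B →+* L) (R : ValuationSubring L)
    (hR : ∀ b, R.valuation (f b) ≤ 1) (c : R.ValueGroup) (J : Ideal B)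
    (h : J ≤ y1_m3_I f R hR c) (n : ℕ) : J ^ n ≤ y1_m3_I f R hR (c ^ n) := by
  induction n with
  | zero =>
    intro z _
    rw [y1_mem_m3_I, pow_zero]
    exact hR z
  | succ n ih =>
    rw [pow_succ, Ideal.mul_le]
    intro r hr s hs
    rw [y1_mem_m3_I, map_mul, map_mul, pow_succ]
    exact mul_le_mul' (ih hr) (h hs)

/-- The dual argument. Let `R` be a valuation ring containing the image of the ring `B` and `J` an
ideal of `B` with `J^N = (g)`. `J` is finitely generated; let `b` be a generator with the largest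
value. All elements of `J` have value `≤ |b|`, so all elements of `J^N` have value `≤ |b|^N`,
in particular `g`; and `b^N ∈ J^N = (g)`. So `|g| = |b|^N`. -/
theorem y1_val_gen {B L : Type} [CommRing B] [Field L] (f : B →+* L) (R : ValuationSubring L)
    (hR : ∀ b, R.valuation (f b) ≤ 1) (J : Ideal B) (hJ : J.FG) (N : ℕ) (hN : 0 < N) (g : B)
    (h : J ^ N = Ideal.span {g}) : ∃ b, R.valuation (f g) = R.valuation (f b) ^ N := by
  classical
  obtain ⟨s, hs⟩ := hJ
  rcases s.eq_empty_or_nonempty with rfl | hne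
  · have hJ0 : J = ⊥ := by
      rw [← hs]
      simp
    have hg : g = 0 := by
      have h1 : Ideal.span {g} = (⊥ : Ideal B) := by
        rw [← h, hJ0, ← Ideal.zero_eq_bot, zero_pow hN.ne']
      exact Ideal.span_singleton_eq_bot.1 h1
    refine ⟨0, ?_⟩
    rw [hg, map_zero, map_zero, zero_pow hN.ne']
  · obtain ⟨b, hb, hmax⟩ := Finset.exists_max_image s (fun z => R.valuation (f z)) hne
    refine ⟨b, le_antisymm ?_ ?_⟩
    · have h1 : J ≤ y1_m3_I f R hR (R.valuation (f b)) := by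
        rw [← hs]
        exact Ideal.span_le.2 fun z hz => hmax z hz
      have h2 := y1_m3_pow f R hR _ J h1 N
      have h3 : g ∈ J ^ N := by
        rw [h]
        exact Ideal.mem_span_singleton_self g
      exact h2 h3
    · have hbJ : b ∈ J := by
        rw [← hs]
        exact Ideal.subset_span hb
      have h1 : b ^ N ∈ J ^ N := Ideal.pow_mem_pow hbJ N
      rw [h, Ideal.mem_span_singleton] at h1
      obtain ⟨r, hr⟩ := h1
      rw [← map_pow, ← map_pow, hr, map_mul, map_mul]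
      calc R.valuation (f g) * R.valuation (f r) ≤ R.valuation (f g) * 1 :=
            mul_le_mul' le_rfl (hR r)
        _ = R.valuation (f g) := mul_one _

end

section

variable {k K : Type} [Field k] [Field K] [Algebra k K]

/-- An element of `k^alg` (in `K^alg`) which is not zero is a unit at every place. -/
theorem y1_val_const (B : ValuationSubring (Om K)) (hB : IsPlace k K B) (a : kb k K) (ha : a ≠ 0) :
    B.valuation (a : Om K) = 1 := by
  exact place_alg_val B hB _ a.2 (fun h => ha (Subtype.ext h))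

/-- Let `σ` be inert at the place `B`. `σ ρ = ξ ρ` with `ξ^N = 1`, `ξ ∈ k^alg`; with `y` as in the
hypothesis `|ρ| = |y|`, so `ρ / y` is in `B` and `(ξ - 1) ρ / y = σ (ρ / y) - ρ / y` (`σ y = y`) has
value `< 1`, so `|ξ - 1| < 1` and `ξ = 1` (`y1_val_const`). (If `z = 0` then `ρ = 0`.) -/
theorem y1_mem_of_val [CharZero k] (z : Mnr k K) (N : ℕ) (hN : 0 < N)
    (hz : ∀ B, IsPlace k K B → ∃ y : Mnr k K,
      B.valuation (z : Om K) = B.valuation (y : Om K) ^ N)
    (ρ : Om K) (hρ : ρ ^ N = z) : ρ ∈ Mnr k K := by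
  intro B hB σ hσ
  by_cases hρ0 : ρ = 0
  · rw [hρ0, map_zero]
  have h1 : (σ ρ) ^ N = ρ ^ N := by
    rw [← map_pow, hρ]
    exact z.2 B hB σ hσ
  obtain ⟨y, hy⟩ := hz B hB
  rw [← hρ, map_pow] at hy
  have hv : B.valuation ρ = B.valuation (y : Om K) :=
    (pow_left_inj₀ zero_le' zero_le' hN.ne').1 hy
  have hvρ : B.valuation ρ ≠ 0 := (Valuation.ne_zero_iff _).2 hρ0
  have hσy : σ (y : Om K) = (y : Om K) := y.2 B hB σ hσ
  have hvu : B.valuation (ρ / (y : Om K)) = 1 := by
    rw [map_div₀, ← hv, div_self hvρ]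
  have h3 : ρ / (y : Om K) ∈ B := (B.valuation_le_one_iff _).1 hvu.le
  have h4 := hσ.2 _ h3
  have hξN : (σ ρ / ρ) ^ N = 1 := by
    rw [div_pow, h1, div_self (pow_ne_zero N hρ0)]
  have hint : IsIntegral k (σ ρ / ρ) := by
    refine IsIntegral.of_pow hN ?_
    rw [hξN]
    exact isIntegral_one
  have hmem : σ ρ / ρ ∈ kb k K := (mem_algebraicClosure_iff').2 hint
  have h5 : σ (ρ / (y : Om K)) - ρ / (y : Om K) = (σ ρ / ρ - 1) * (ρ / (y : Om K)) := by
    rw [map_div₀, hσy, sub_mul, one_mul, div_mul_div_cancel₀ hρ0]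
  rw [h5, B.mem_nonunits_iff, map_mul, hvu, mul_one] at h4
  by_contra hne
  have h6 : σ ρ / ρ - 1 ≠ 0 := by
    intro h7
    apply hne
    rw [sub_eq_zero, div_eq_one_iff_eq hρ0] at h7
    exact h7
  exact absurd (place_alg_val B hB _ ((kb k K).sub_mem hmem (kb k K).one_mem) h6) h4.ne

end

/-- the section in terms of the definitions used in the proof -/
noncomputable def y1_sect {k K : Type} [Field k] [Field K] [Algebra k K] (s : SCJ.Sect k K) :
    SEC.Sect k K where
  toHom := s.toHom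
  cont := s.cont
  split := fun τ a ha => s.split τ a ⟨(a : SEC.Om K), ha⟩ rfl

/-- the rational point in terms of the definitions used in the proof -/
def y1_rat {k K : Type} [Field k] [Field K] [Algebra k K] (P : SCJ.RatPlace k K) :
    SEC.RatPlace k K where
  A := P.A
  alg := P.alg
  ne_top := P.ne_top
  rat := P.rat

end GT
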