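import Mathlib

set_option autoImplicit false
set_option linter.unusedSectionVars false

open Polynomial IsLocalRing

namespace GT

/-! ## [GT-T0] torsion injectivity: definitions -/

/-- `V` is a proper valuation ring of rank one. -/
structure Rk1 {F : Type} [Field F] (V : ValuationSubring F) : Prop where
  arch : ∀ μ ω : V, μ ∈ maximalIdeal V → ω ≠ 0 → ∃ n : ℕ, ω ∣ μ ^ n
  ne : ∃ μ : V, μ ∈ maximalIdeal V ∧ μ ≠ 0

/-- A finite set of elements of a valuation ring has a greatest common divisor in the set. -/
theorem t0_gcd {F : Type} [Field F] {V : ValuationSubring F} {α : Type} (s : Finset α)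
    (hs : s.Nonempty) (g : α → V) : ∃ a ∈ s, ∀ b ∈ s, g a ∣ g b := by
  classical
  induction hs using Finset.Nonempty.cons_induction with
  | singleton a => exact ⟨a, Finset.mem_singleton_self a, fun b hb => by
      rw [Finset.mem_singleton.1 hb]⟩
  | cons a s ha hs ih =>
    obtain ⟨c, hc, hc'⟩ := ih
    rcases ValuationRing.dvd_total (g a) (g c) with h | h
    · refine ⟨a, Finset.mem_cons_self a s, fun b hb => ?_⟩
      rcases Finset.mem_cons.1 hb with rfl | hb
      · exact dvd_rfl
      · exact h.trans (hc' b hb)
    · refine ⟨c, Finset.mem_cons_of_mem hc, fun b hb => ?_⟩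
      rcases Finset.mem_cons.1 hb with rfl | hb
      · exact h
      · exact hc' b hb

end GT
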