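import Mathlib
import Pool.Agent.MP_c1dca2_ag.GT.Base
import Pool.Agent.MP_c1dca2_ag.GT.Defs
import Pool.Agent.MP_c1dca2_ag.SUP.Defs

set_option autoImplicit false

open Polynomial IsLocalRing

namespace GT

/-! ## [GT-T2a] contents over a valuation ring; division by an element with a unit leading coefficient -/

variable {F : Type} [Field F] {V : ValuationSubring F} {d : ℕ} [NeZero d]

theorem t2a_min {ι : Type} (s : Finset ι) (f : ι → V)
    (hf : ∀ i ∈ s, residue V (f i) = 0) {μ : V} (hμ : residue V μ = 0) :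
    ∃ μ1 : V, residue V μ1 = 0 ∧ μ1 ∣ μ ∧ ∀ i ∈ s, μ1 ∣ f i := by
  classical
  induction s using Finset.induction_on with
  | empty => exact ⟨μ, hμ, dvd_rfl, fun i hi => absurd hi (Finset.notMem_empty i)⟩
  | insert i s hi ih =>
    obtain ⟨μ1, h1, h2, h3⟩ := ih fun j hj => hf j (Finset.mem_insert_of_mem hj)
    rcases ValuationRing.dvd_total μ1 (f i) with h | h
    · refine ⟨μ1, h1, h2, fun j hj => ?_⟩
      rcases Finset.mem_insert.1 hj with h4 | h4
      · rw [h4]
        exact h
      · exact h3 j h4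
    · refine ⟨f i, hf i (Finset.mem_insert_self i s), h.trans h2, fun j hj => ?_⟩
      rcases Finset.mem_insert.1 hj with h4 | h4
      · rw [h4]
      · exact h.trans (h3 j h4)

/-- an element which divides all the coefficients with a property -/
theorem t2a_all (T : Tab V d) (x : WB T) (P : ZMod d → ℕ → Prop)
    (h : ∀ (j : ZMod d) (n : ℕ), P j n → residue V ((x.co j).coeff n) = 0) {μ : V} (hμ : residue V μ = 0) :
    ∃ μ1 : V, residue V μ1 = 0 ∧ μ1 ∣ μ ∧ ∀ (j : ZMod d) (n : ℕ), P j n → μ1 ∣ (x.co j).coeff n := by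
  classical
  obtain ⟨μ1, h1, h2, h3⟩ := t2a_min
    ((Finset.univ.sigma fun j : ZMod d => (x.co j).support).filter fun p => P p.1 p.2)
    (fun p : (_ : ZMod d) × ℕ => (x.co p.1).coeff p.2)
    (fun p hp => h p.1 p.2 (Finset.mem_filter.1 hp).2) hμ
  refine ⟨μ1, h1, h2, fun j n hP => ?_⟩
  by_cases h0 : (x.co j).coeff n = 0
  · rw [h0]
    exact dvd_zero _
  · exact h3 ⟨j, n⟩ (Finset.mem_filter.2 ⟨Finset.mem_sigma.2 ⟨Finset.mem_univ _,
      Polynomial.mem_support_iff.2 h0⟩, hP⟩)

/-- division by an element which divides all the coefficients -/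
theorem t2a_div {R : Type} [CommRing R] (T : Tab R d) (μ : R) (x : WB T)
    (h : ∀ (j : ZMod d) (n : ℕ), μ ∣ (x.co j).coeff n) : ∃ z : WB T, x = μ • z := by
  choose q hq using h
  refine ⟨⟨fun j => ∑ n ∈ (x.co j).support, monomial n (q j n)⟩, ?_⟩
  refine WB.ext (funext fun j => ?_)
  rw [WB.co_smul', Finset.smul_sum]
  conv_lhs => rw [(x.co j).as_sum_support]
  refine Finset.sum_congr rfl fun n _ => ?_
  rw [smul_monomial, smul_eq_mul, ← hq j n]

/-- Proof. The coefficients `(x.co j).coeff n` that are nonzero are finitely many and have residue `0` (`rd_co`, `coeff_map`). `V` is a valuation ring, so (if `x ≠ 0`) one of them, `μ`, divides all the others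
(`ValuationRing.dvd_total`, induction on a finset). `z` = the element with the coefficients `(x.co j).coeff n / μ`: `z.co j = ∑ n ∈ (x.co j).support, monomial n (q j n)`. If `x = 0`: `μ = 0`, `z = 0`. -/
theorem content_of_rd (T : Tab V d) {x : WB T} (hx : rd T x = 0) :
    ∃ (μ : V) (z : WB T), residue V μ = 0 ∧ x = μ • z := by
  have h0 : ∀ (j : ZMod d) (n : ℕ), True → residue V ((x.co j).coeff n) = 0 := by
    intro j n _
    have h1 := congrArg (fun b : WB (T.map (residue V)) => (b.co j).coeff n) hx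
    simp only [rd_co, coeff_map, WB.co_zero, Pi.zero_apply, coeff_zero] at h1
    exact h1
  obtain ⟨μ1, h1, -, h3⟩ := t2a_all T x (fun _ _ => True) h0 (map_zero (residue V))
  obtain ⟨z, hz⟩ := t2a_div T μ1 x (fun j n => h3 j n trivial)
  exact ⟨μ1, z, h1, hz⟩

end GT
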