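import Mathlib

set_option autoImplicit false

open Polynomial

namespace GT

/-! ## [GT-X1b] pure lemmas: groups, roots of unipotent elements -/

/-- Proof. Mathlib's Newton lemma (`Polynomial.existsUnique_nilpotent_sub_and_aeval_eq_zero`, file Mathlib/Dynamics/Newton.lean) for `X ^ ℓ - C u` and
the approximate root `1`: the value is `1 - u`, nilpotent, the derivative `ℓ` is a unit. -/
theorem root_of_nilpotent {S : Type} [CommRing S] (ℓ : ℕ) (hℓ : IsUnit (ℓ : S)) (u : S)
    (hu : IsNilpotent (u - 1)) : ∃ v : S, v ^ ℓ = u ∧ IsNilpotent (v - 1) := by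
  have h1 : aeval (1 : S) (X ^ ℓ - C u : S[X]) = 1 - u := by simp
  have h2 : aeval (1 : S) (derivative (X ^ ℓ - C u : S[X])) = (ℓ : S) := by simp [derivative_X_pow]
  obtain ⟨v, ⟨hv1, hv2⟩, -⟩ := existsUnique_nilpotent_sub_and_aeval_eq_zero
    (P := (X ^ ℓ - C u : S[X])) (x := (1 : S))
    (by rw [h1, ← neg_sub]; exact hu.neg) (by rw [h2]; exact hℓ)
  refine ⟨v, ?_, ?_⟩
  · have h3 : aeval v (X ^ ℓ - C u : S[X]) = v ^ ℓ - u := by simp
    rw [h3] at hv2
    exact sub_eq_zero.1 hv2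
  · rw [← neg_sub]
    exact hv1.neg

end GT
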