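import Mathlib
import Pool.Agent.MP_c1dca2_ag.GT.A3
import Pool.Agent.MP_c1dca2_ag.GT.Base
import Pool.Agent.MP_c1dca2_ag.GT.Defs
import Pool.Agent.MP_c1dca2_ag.GT.T2a
import Pool.Agent.MP_c1dca2_ag.GT.X1b
import Pool.Agent.MP_c1dca2_ag.SUP.Defs

set_option autoImplicit false

open Polynomial IsLocalRing

namespace GT

/-! ## [GT-T3] an `ℓ`-th root modulo `ω` -/

/-- Proof. Let `S = WB T ⧸ (ω)`, `(ω)` = the ideal generated by `algebraMap V (WB T) ω`; `ω • z = algebraMap V (WB T) ω * z` (`Algebra.smul_def`). The reduction `rd T` kills `ω` (`rd T (ω • 1) = residue V ω • 1 = 0`, `bmap_smul'`), so it factors through `S`: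
`ρ : S →+* WB (T.map (residue V))`. `rd T (u - 1) = 0`, `content_of_rd` (T2a): `u - 1 = μ' • z`, `residue V μ' = 0`, so `u - 1` is nilpotent in `S` (`hrk`, `(μ' • z) ^ n = μ' ^ n • z ^ n`).
`root_of_nilpotent` (X1b) in `S` (`ℓ` is a unit of `V`, so of `S`): `v ∈ S` with `v ^ ℓ = u`, `v - 1` nilpotent; so `v` is a unit of `S` (`IsNilpotent.isUnit_add_one`-type lemma) and `ρ (v - 1)` is nilpotent in the domain `WB (T.map (residue V))` (`instIsDomain`), so `ρ v = 1`.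
Let `w : WB T` be a lift of `v⁻¹` (`Ideal.Quotient.mk_surjective`): `rd T w = ρ (v⁻¹) = 1`. `θ = w * β`: `θ ^ ℓ = w ^ ℓ γ u = γ` in `S` (`Ideal.Quotient.eq`, `Ideal.mem_span_singleton'`), `rd T θ = rd T β`. -/
theorem exists_theta {F : Type} [Field F] {V : ValuationSubring F} {d : ℕ} [NeZero d] (T : Tab V d)
    {γ β u : WB T} {ω : V} {ℓ : ℕ} (hℓ : IsUnit (ℓ : V)) (hω : residue V ω = 0)
    (hrk : ∀ μ' : V, residue V μ' = 0 → ∃ n : ℕ, ω ∣ μ' ^ n) (h1 : β ^ ℓ = γ * u)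
    (h2 : rd T u = 1) : ∃ θ e : WB T, rd T θ = rd T β ∧ θ ^ ℓ = γ + ω • e := by
  set I : Ideal (WB T) := Ideal.span {algebraMap V (WB T) ω} with hI
  set mk : WB T →+* WB T ⧸ I := Ideal.Quotient.mk I with hmk
  have hsurj : Function.Surjective mk := Ideal.Quotient.mk_surjective
  have hrd : ∀ a ∈ I, rd T a = 0 := by
    intro a ha
    obtain ⟨z, rfl⟩ := Ideal.mem_span_singleton'.1 ha
    have h5 : rd T (algebraMap V (WB T) ω) = 0 := by
      unfold rd
      rw [bmap_algebraMap', hω, map_zero]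
    rw [map_mul, h5, mul_zero]
  set ρ : WB T ⧸ I →+* WB (T.map (residue V)) := Ideal.Quotient.lift I (rd T) hrd with hρ
  have hρmk : ∀ a, ρ (mk a) = rd T a := fun a => Ideal.Quotient.lift_mk I (rd T) hrd
  have hnil : ∀ (μ' : V) (z : WB T), residue V μ' = 0 → IsNilpotent (mk (μ' • z)) := by
    intro μ' z hμ'
    obtain ⟨n, c, hc⟩ := hrk μ' hμ'
    refine ⟨n, ?_⟩
    have h5 : (μ' • z) ^ n = algebraMap V (WB T) ω * (algebraMap V (WB T) c * z ^ n) := by
      rw [Algebra.smul_def, mul_pow, ← map_pow, hc, map_mul, mul_assoc]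
    rw [← map_pow, h5]
    exact Ideal.Quotient.eq_zero_iff_mem.2 (Ideal.mul_mem_right _ _ (Ideal.mem_span_singleton_self _))
  obtain ⟨μ', z, hμ', hz⟩ := content_of_rd T (x := u - 1) (by rw [map_sub, map_one, h2, sub_self])
  have h8 : IsNilpotent (mk u - 1) := by
    have h9 := hnil μ' z hμ'
    rw [← hz, map_sub, map_one] at h9
    exact h9
  have hℓS : IsUnit ((ℓ : ℕ) : WB T ⧸ I) := by
    have h9 := hℓ.map (mk.comp (algebraMap V (WB T)))
    rwa [map_natCast] at h9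
  obtain ⟨v0, hv1, hv2⟩ := root_of_nilpotent ℓ hℓS (mk u) h8
  have hvu : IsUnit v0 := by
    have h9 := hv2.isUnit_one_add
    rwa [add_sub_cancel] at h9
  have h9 : ρ v0 = 1 := by
    have h10 := hv2.map ρ
    rw [map_sub, map_one] at h10
    exact sub_eq_zero.1 (isNilpotent_iff_eq_zero.1 h10)
  obtain ⟨w0, hw⟩ := hvu.exists_left_inv
  obtain ⟨w, rfl⟩ := hsurj w0
  have h10 : rd T w = 1 := by
    have h11 := congrArg ρ hw
    rw [map_mul, map_one, h9, mul_one, hρmk] at h11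
    exact h11
  have h12 : (w * β) ^ ℓ - γ ∈ I := by
    rw [← Ideal.Quotient.eq_zero_iff_mem]
    show mk ((w * β) ^ ℓ - γ) = 0
    rw [mul_pow, h1, map_sub, map_mul, map_pow, map_mul, ← hv1]
    have h13 : mk w ^ ℓ * (mk γ * v0 ^ ℓ) = (mk w * v0) ^ ℓ * mk γ := by ring
    rw [h13, hw, one_pow, one_mul, sub_self]
  obtain ⟨e, he⟩ := Ideal.mem_span_singleton'.1 h12
  refine ⟨w * β, e, by rw [map_mul, h10, one_mul], ?_⟩
  rw [Algebra.smul_def, mul_comm (algebraMap V (WB T) ω) e, he, add_sub_cancel]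

end GT
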