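import Mathlib
import Pool.Agent.MP_c1dca2_ag.GT.Base
import Pool.Agent.MP_c1dca2_ag.GT.Defs
import Pool.Agent.MP_c1dca2_ag.GT.T2a
import Pool.Agent.MP_c1dca2_ag.SUP.Defs

set_option autoImplicit false

open Polynomial IsLocalRing

namespace GT

/-! ## [GT-T2b] contents over a valuation ring; division by an element with a unit leading coefficient -/

variable {F : Type} [Field F] {V : ValuationSubring F} {d : ℕ} [NeZero d]

/-- the part of a polynomial with the exponents in `P` -/
theorem t2b_part {R : Type} [CommRing R] (P : ℕ → Prop) (p : R[X]) :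
    ∃ q : R[X], (∀ n, P n → q.coeff n = p.coeff n) ∧ ∀ n, ¬ P n → q.coeff n = 0 := by
  classical
  have key : ∀ m, (∑ n ∈ p.support, if P n then monomial n (p.coeff n) else 0).coeff m =
      if P m then p.coeff m else 0 := by
    intro m
    rw [finsetSum_coeff, Finset.sum_eq_single m]
    · split_ifs with h
      · rw [coeff_monomial, if_pos rfl]
      · rw [coeff_zero]
    · intro n _ hn
      split_ifs with h
      · rw [coeff_monomial, if_neg hn]
      · rw [coeff_zero]
    · intro hm
      have h0 : p.coeff m = 0 := Polynomial.notMem_support_iff.1 hm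
      split_ifs with h
      · rw [h0, monomial_zero_right, coeff_zero]
      · rw [coeff_zero]
  exact ⟨_, fun n hn => by rw [key, if_pos hn], fun n hn => by rw [key, if_neg hn]⟩

/-- Proof. Let `h1.co j = ∑ n ∈ (h.co j).support, if d * n + T.w j ≤ r then monomial n ((h.co j).coeff n) else 0` and `h2.co j = ∑ n ∈ (h.co j).support, if d * n + T.w j ≤ r then 0 else monomial n (q j n)`
with `(h.co j).coeff n = ν * q j n` (choice). -/
theorem split_Ble (T : Tab V d) (r : ℕ) (ν : V) (h : WB T)
    (hd : ∀ (j : ZMod d) (n : ℕ), r < d * n + T.w j → ν ∣ (h.co j).coeff n) :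
    ∃ h1 h2 : WB T, h1 ∈ Ble T r ∧ h = h1 + ν • h2 := by
  choose q hq1 hq2 using fun j : ZMod d => t2b_part (fun n => d * n + T.w j ≤ r) (h.co j)
  have hx : ∀ (j : ZMod d) (n : ℕ), ν ∣ ((h - ⟨q⟩ : WB T).co j).coeff n := by
    intro j n
    rw [WB.co_sub, Pi.sub_apply, coeff_sub]
    by_cases hn : d * n + T.w j ≤ r
    · have h1 : (h.co j).coeff n - (q j).coeff n = 0 := by rw [hq1 j n hn, sub_self]
      show ν ∣ (h.co j).coeff n - (q j).coeff n
      rw [h1]
      exact dvd_zero _
    · have h1 : (h.co j).coeff n - (q j).coeff n = (h.co j).coeff n := by rw [hq2 j n hn, sub_zero]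
      show ν ∣ (h.co j).coeff n - (q j).coeff n
      rw [h1]
      exact hd j n (not_le.1 hn)
  obtain ⟨z, hz⟩ := t2a_div T ν _ hx
  refine ⟨⟨q⟩, z, ?_, ?_⟩
  · rw [mem_Ble]
    intro j n hn
    exact hq2 j n (not_le.2 hn)
  · rw [← hz]
    abel

end GT
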