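import Mathlib
import Pool.Agent.MP_c1dca2_ag.GT.Base
import Pool.Agent.MP_c1dca2_ag.GT.Defs
import Pool.Agent.MP_c1dca2_ag.GT.T2a
import Pool.Agent.MP_c1dca2_ag.GT.T2b
import Pool.Agent.MP_c1dca2_ag.SUP.Defs

set_option autoImplicit false

open Polynomial IsLocalRing

namespace GT

/-! ## [GT-T2c] contents over a valuation ring; division by an element with a unit leading coefficient -/

variable {F : Type} [Field F] {V : ValuationSubring F} {d : ℕ} [NeZero d]

theorem t2c_lcf_rd (T : Tab V d) (m : ℕ) (b : WB T) :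
    lcf (T.map (residue V)) m (rd T b) = residue V (lcf T m b) := by
  rw [lcf_apply, lcf_apply, map_sum]
  refine Finset.sum_congr rfl fun j _ => ?_
  rw [Tab.map_w]
  split_ifs
  · rw [rd_co, coeff_map]
  · rw [map_zero]

/-- Proof. `θ` has finitely many nonzero coefficients; those of weight `> r` have residue `0` (as `rd T θ ∈ Ble _ r`: `rd_co`, `coeff_map`). Among them and `ω` there is one, `μ`, that divides the others; `residue V μ = 0`, `μ ∣ ω`,
so `μ ≠ 0`. `split_Ble` gives `θ = b + μ • h` with `b ∈ Ble T r`. `lcf T r b = lcf T r θ - μ * lcf T r h`, so `residue V (lcf T r b) = residue V (lcf T r θ) = lcf _ r (rd T θ) ≠ 0` (`lcf_apply`, both are sums of coefficients with the same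
conditions), hence `lcf T r b` is a unit (`IsLocalRing.residue_ne_zero_iff_isUnit` or `residue_eq_zero_iff` and `IsLocalRing.notMem_maximalIdeal`). -/
theorem start_Ble (T : Tab V d) {r : ℕ} {θ : WB T} (h1 : rd T θ ∈ Ble (T.map (residue V)) r)
    (h2 : lcf (T.map (residue V)) r (rd T θ) ≠ 0) {ω : V} (hω0 : ω ≠ 0) (hω : residue V ω = 0) :
    ∃ (μ : V) (b h : WB T), μ ≠ 0 ∧ residue V μ = 0 ∧ μ ∣ ω ∧ b ∈ Ble T r ∧ IsUnit (lcf T r b) ∧
      θ = b + μ • h := by
  have h0 : ∀ (j : ZMod d) (n : ℕ), r < d * n + T.w j → residue V ((θ.co j).coeff n) = 0 := by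
    intro j n hn
    have h3 := mem_Ble.1 h1 j n hn
    rw [rd_co, coeff_map] at h3
    exact h3
  obtain ⟨μ, hμ, hμω, hd⟩ := t2a_all T θ (fun j n => r < d * n + T.w j) h0 hω
  obtain ⟨b, h, hb, hθ⟩ := split_Ble T r μ θ hd
  have hμ0 : μ ≠ 0 := by
    intro h4
    rw [h4] at hμω
    exact hω0 (zero_dvd_iff.1 hμω)
  refine ⟨μ, b, h, hμ0, hμ, hμω, hb, ?_, hθ⟩
  have h5 : residue V (lcf T r b) ≠ 0 := by
    rw [← t2c_lcf_rd]
    have h6 : rd T θ = rd T b := by
      rw [hθ, map_add]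
      have h7 : rd T (μ • h) = residue V μ • rd T h := bmap_smul' _ _ _ _
      rw [h7, hμ, zero_smul, add_zero]
    rw [← h6]
    exact h2
  by_contra h8
  exact h5 (IsLocalRing.residue_eq_zero_iff _ |>.2 ((IsLocalRing.mem_maximalIdeal _).2 h8))

end GT
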