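import Mathlib
import Pool.Agent.MP_c1dca2_ag.GT.A1
import Pool.Agent.MP_c1dca2_ag.GT.A2
import Pool.Agent.MP_c1dca2_ag.GT.Base
import Pool.Agent.MP_c1dca2_ag.GT.Defs
import Pool.Agent.MP_c1dca2_ag.SUP.Defs

set_option autoImplicit false

open Polynomial IsLocalRing

namespace GT

/-! ## [GT-T2e] contents over a valuation ring; division by an element with a unit leading coefficient -/

variable {F : Type} [Field F] {V : ValuationSubring F} {d : ℕ} [NeZero d]

/-- Proof. By induction on `k`: if `b ∈ Ble T (m' + k)` then `b ∈ Ble T m'` (and `b ∈ Ble T (m' + k)` for large `k`: `exists_Ble`, `Ble_mono`). Step: `b ∈ Ble T (m' + k + 1)`; by `lcf_mul`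
`lcf T (m + (m' + k + 1)) (a * b) = lcf T m a * lcf T (m' + k + 1) b`, and it is `0` because `a * b ∈ Ble T (m + m')` (`a2_lcf_zero`). `lcf T m a` is a unit, so `lcf T (m' + k + 1) b = 0` and `b ∈ Ble T (m' + k)` (`Ble_pred`). -/
theorem Ble_of_mul {R : Type} [CommRing R] {T : Tab R d} {m m' : ℕ} {a b : WB T} (ha : a ∈ Ble T m)
    (hu : IsUnit (lcf T m a)) (hab : a * b ∈ Ble T (m + m')) : b ∈ Ble T m' := by
  have key : ∀ k : ℕ, b ∈ Ble T (m' + k) → b ∈ Ble T m' := by
    intro k
    induction k with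
    | zero => exact fun h => h
    | succ k ih =>
      intro h
      refine ih (Ble_pred h ?_)
      have h1 := lcf_mul ha (show b ∈ Ble T (m' + k + 1) from h)
      rw [a2_lcf_zero hab (by omega)] at h1
      exact (hu.mul_right_eq_zero).1 h1.symm
  obtain ⟨n, hn⟩ := exists_Ble b
  exact key n (Ble_mono (by omega) hn)

/-- Proof. Induction on `n` with `Ble_mul` and `lcf_mul`; `n = 0`: `lcf T 0 1 = 1` by `lcf_eq T 0 0`-style computation (`WB.co_one`, `T.w_zero`), `1 ∈ Ble T 0`. -/
theorem Ble_pow {R : Type} [CommRing R] {T : Tab R d} {m : ℕ} {a : WB T} (ha : a ∈ Ble T m) (n : ℕ) :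
    a ^ n ∈ Ble T (n * m) ∧ lcf T (n * m) (a ^ n) = lcf T m a ^ n := by
  induction n with
  | zero =>
    rw [pow_zero, pow_zero, zero_mul]
    constructor
    · rw [mem_Ble]
      intro j n hn
      rw [WB.co_one]
      by_cases hj : j = 0
      · rw [hj, Pi.single_eq_same, coeff_one, if_neg]
        rintro rfl
        rw [hj, T.w_zero, mul_zero] at hn
        omega
      · rw [Pi.single_eq_of_ne hj, coeff_zero]
    · have h1 := lcf_eq (T := T) 0 0 (1 : WB T)
      rw [T.w_zero, mul_zero, add_zero, WB.co_one, Pi.single_eq_same, coeff_one, if_pos rfl] at h1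
      exact h1
  | succ n ih =>
    rw [pow_succ, pow_succ, add_mul, one_mul]
    refine ⟨Ble_mul ih.1 ha, ?_⟩
    rw [lcf_mul ih.1 ha, ih.2]

end GT
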