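import Mathlib
import Pool.Agent.MP_c1dca2_ag.GT.A3b
import Pool.Agent.MP_c1dca2_ag.GT.Base
import Pool.Agent.MP_c1dca2_ag.GT.Defs
import Pool.Agent.MP_c1dca2_ag.GT.T2b
import Pool.Agent.MP_c1dca2_ag.GT.T2e
import Pool.Agent.MP_c1dca2_ag.SUP.Defs

set_option autoImplicit false

open Polynomial IsLocalRing

namespace GT

/-! ## [GT-T4a] the root is close to an element with a small pole order -/

variable {F : Type} [Field F] {V : ValuationSubring F} {d : ℕ} [NeZero d]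

/-- Proof. `(b + μ h) ^ ℓ = b ^ ℓ + ℓ b ^ (ℓ - 1) μ h + μ ^ 2 s` for some `s` (`Polynomial.powAddExpansion` or `Commute.add_pow`, or `add_pow_two`-type induction). With `ω = μ ω'`: `γ - b ^ ℓ = μ • q`,
`q = ℓ b ^ (ℓ - 1) h + μ s - ω' e`. `γ - b ^ ℓ ∈ Ble T (ℓ * r)` (`Ble_pow`), `V` is a domain and `μ ≠ 0`: `q ∈ Ble T (ℓ * r)` (coefficients: `μ * coeff = 0`).
Let `g : V →+* V ⧸ Ideal.span {ν}` and `bmap g rfl : WB T →+* WB (T.map g)`. `bmap g` kills `ν • z`, so it kills `μ s - ω' e` (`ν ∣ μ`, `ν ∣ ω'`); so `a * bmap g h ∈ Ble _ (ℓ * r)` where `a = ℓ • (bmap g b) ^ (ℓ - 1) ∈ Ble _ ((ℓ - 1) * r)` has the leading coefficient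
`ℓ * g (lcf T r b) ^ (ℓ - 1)`, a unit (`Ble_pow`, `bmap_Ble`, `lcf_bmap` in A3b, or `lcf_apply` directly). `ℓ * r = (ℓ - 1) * r + r`, `Ble_of_mul`: `bmap g h ∈ Ble _ r`: the coefficients of `h` of weight `> r` are divisible by `ν`
(`Ideal.Quotient.eq_zero_iff_dvd`/`Ideal.mem_span_singleton`). `split_Ble`: `h = h1 + ν • h2`, `h1 ∈ Ble T r`; `b' = b + μ • h1`, `h' = h2`; `lcf T r b' = lcf T r b + μ * lcf T r h1` is a unit: its residue is that of `lcf T r b`. -/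
theorem approx_step (T : Tab V d) {γ θ e b h : WB T} {ℓ r : ℕ} {μ ω ω' ν : V} (hℓ0 : 0 < ℓ)
    (hℓ : IsUnit (ℓ : V)) (hμ0 : μ ≠ 0) (hμ : residue V μ = 0) (hω : ω = μ * ω') (hν1 : ν ∣ μ)
    (hν2 : ν ∣ ω') (hγ : γ ∈ Ble T (ℓ * r)) (hb : b ∈ Ble T r) (hbu : IsUnit (lcf T r b))
    (hθ : θ ^ ℓ = γ + ω • e) (hh : θ = b + μ • h) :
    ∃ b' h' : WB T, b' ∈ Ble T r ∧ IsUnit (lcf T r b') ∧ θ = b' + (μ * ν) • h' := by
  obtain ⟨k, hk⟩ := Polynomial.powAddExpansion b (μ • h) ℓ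
  set q : WB T := (ℓ : WB T) * b ^ (ℓ - 1) * h + (μ • (k * h ^ 2) - ω' • e) with hq
  have h1 : γ - b ^ ℓ = μ • q := by
    have h2 : γ = θ ^ ℓ - ω • e := by rw [hθ, add_sub_cancel_right]
    rw [h2, hh, hk, hω, hq]
    simp only [Algebra.smul_def, map_mul]
    ring
  have hqB : q ∈ Ble T (ℓ * r) := by
    have h2 : γ - b ^ ℓ ∈ Ble T (ℓ * r) := Submodule.sub_mem _ hγ (Ble_pow hb ℓ).1
    rw [h1] at h2
    intro j n hn
    have h3 := h2 j n hn
    rw [WB.co_smul', coeff_smul, smul_eq_mul] at h3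
    rcases mul_eq_zero.1 h3 with h4 | h4
    · exact absurd h4 hμ0
    · exact h4
  set g : V →+* V ⧸ Ideal.span {ν} := Ideal.Quotient.mk (Ideal.span {ν}) with hg
  have hgμ : g μ = 0 := (Ideal.Quotient.eq_zero_iff_dvd ν μ).2 hν1
  have hgω : g ω' = 0 := (Ideal.Quotient.eq_zero_iff_dvd ν ω').2 hν2
  have e1 : bmap (T' := T.map g) g rfl q =
      ((ℓ : WB (T.map g)) * (bmap (T' := T.map g) g rfl b) ^ (ℓ - 1)) * bmap (T' := T.map g) g rfl h := by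
    rw [hq, map_add, map_sub, bmap_smul', bmap_smul', hgμ, hgω, zero_smul, zero_smul, sub_zero, add_zero,
      map_mul, map_mul, map_pow, map_natCast]
  obtain ⟨p1, p2⟩ := Ble_pow (bmap_Ble g (T' := T.map g) rfl hb) (ℓ - 1)
  have ha : (ℓ : WB (T.map g)) * (bmap (T' := T.map g) g rfl b) ^ (ℓ - 1) ∈ Ble (T.map g) ((ℓ - 1) * r) := by
    rw [← nsmul_eq_mul]
    exact Submodule.smul_of_tower_mem _ ℓ p1
  have hau : IsUnit (lcf (T.map g) ((ℓ - 1) * r)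
      ((ℓ : WB (T.map g)) * (bmap (T' := T.map g) g rfl b) ^ (ℓ - 1))) := by
    rw [← nsmul_eq_mul, map_nsmul, p2, nsmul_eq_mul, lcf_bmap]
    refine IsUnit.mul ?_ ((hbu.map g).pow _)
    have := hℓ.map g
    rwa [map_natCast] at this
  have hB : bmap (T' := T.map g) g rfl h ∈ Ble (T.map g) r := by
    refine Ble_of_mul ha hau ?_
    rw [← e1]
    have h2 : (ℓ - 1) * r + r = ℓ * r := by
      obtain ⟨l, rfl⟩ := Nat.exists_eq_succ_of_ne_zero hℓ0.ne'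
      simp only [Nat.succ_eq_add_one, Nat.add_sub_cancel]
      ring
    rw [h2]
    exact bmap_Ble g rfl hqB
  obtain ⟨h1', h2', hh1, hh2⟩ := split_Ble T r ν h (fun j n hn => by
    have h3 := hB j n hn
    rw [bmap_co, coeff_map] at h3
    exact (Ideal.Quotient.eq_zero_iff_dvd ν _).1 h3)
  refine ⟨b + μ • h1', h2', Submodule.add_mem _ hb (Submodule.smul_mem _ _ hh1), ?_, ?_⟩
  · rw [← IsLocalRing.residue_ne_zero_iff_isUnit, map_add, map_smul, smul_eq_mul, map_add, map_mul, hμ, zero_mul,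
      add_zero, IsLocalRing.residue_ne_zero_iff_isUnit]
    exact hbu
  · rw [hh, hh2, smul_add, smul_smul, add_assoc]

end GT
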