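import Mathlib
import Pool.Agent.MP_c1dca2_ag.GT.Base
import Pool.Agent.MP_c1dca2_ag.GT.Defs
import Pool.Agent.MP_c1dca2_ag.GT.T2c
import Pool.Agent.MP_c1dca2_ag.GT.T4a
import Pool.Agent.MP_c1dca2_ag.SUP.Defs

set_option autoImplicit false

open Polynomial IsLocalRing

namespace GT

/-! ## [GT-T4b] the root is close to an element with a small pole order -/

variable {F : Type} [Field F] {V : ValuationSubring F} {d : ℕ} [NeZero d]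

/-- Proof. `start_Ble` gives `μ0 ≠ 0`, `residue V μ0 = 0`, `μ0 ∣ ω` and `b`, `h` with `θ = b + μ0 • h`. Claim by induction on `n`: there are `μ ≠ 0` with `residue V μ = 0`, `μ ∣ ω`, (`ω ∣ μ` or `μ0 ^ (n + 1) ∣ μ`) and `b ∈ Ble T r` with a unit `lcf T r b`,
`h` with `θ = b + μ • h`. Step: if `ω ∣ μ` nothing to do; else `ω = μ ω'` and `μ0 ^ (n + 1) ∣ μ`. `V` is a valuation ring (`ValuationRing.dvd_total`): if `ω' ∣ μ` use `approx_step` with `ν = ω'` (`μ * ν = ω`); if `μ ∣ ω'` use it with `ν = μ` (`μ * μ ∣ ω`,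
`μ0 ^ (n + 2) ∣ μ0 ^ (2 (n + 1)) ∣ μ * μ`). Take `n` with `ω ∣ μ0 ^ n` (`hrk`): in both cases `ω ∣ μ`, so `θ = b + ω • h''`. Then `b ^ ℓ = (θ - ω • h'') ^ ℓ = θ ^ ℓ + ω • s` (`sub_dvd_pow_sub_pow`) `= γ + ω • e'`. -/
theorem exists_approx (T : Tab V d) {γ θ e : WB T} {ℓ r : ℕ} {ω : V} (hℓ0 : 0 < ℓ)
    (hℓ : IsUnit (ℓ : V)) (hω0 : ω ≠ 0) (hω : residue V ω = 0)
    (hrk : ∀ μ' : V, residue V μ' = 0 → ∃ n : ℕ, ω ∣ μ' ^ n) (hγ : γ ∈ Ble T (ℓ * r))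
    (hθ : θ ^ ℓ = γ + ω • e) (h1 : rd T θ ∈ Ble (T.map (residue V)) r)
    (h2 : lcf (T.map (residue V)) r (rd T θ) ≠ 0) :
    ∃ b e' : WB T, b ∈ Ble T r ∧ b ^ ℓ = γ + ω • e' := by
  obtain ⟨μ0, b0, h0, hμ0, hrμ0, hμ0ω, hb0, hu0, hθ0⟩ := start_Ble T h1 h2 hω0 hω
  have claim : ∀ n : ℕ, ∃ (μ : V) (b h : WB T), μ ≠ 0 ∧ residue V μ = 0 ∧ μ ∣ ω ∧
      (ω ∣ μ ∨ μ0 ^ (n + 1) ∣ μ) ∧ b ∈ Ble T r ∧ IsUnit (lcf T r b) ∧ θ = b + μ • h := by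
    intro n
    induction n with
    | zero => exact ⟨μ0, b0, h0, hμ0, hrμ0, hμ0ω, Or.inr (by rw [zero_add, pow_one]), hb0, hu0, hθ0⟩
    | succ n ih =>
      obtain ⟨μ, b, h, hμ, hrμ, hμω, hor, hb, hu, hθ'⟩ := ih
      rcases hor with hor | hor
      · exact ⟨μ, b, h, hμ, hrμ, hμω, Or.inl hor, hb, hu, hθ'⟩
      obtain ⟨ω', hω'⟩ := hμω
      rcases ValuationRing.dvd_total ω' μ with hd | hd
      · obtain ⟨b', h', g1, g2, g3⟩ := approx_step T hℓ0 hℓ hμ hrμ hω' hd dvd_rfl hγ hb hu hθ hθ'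
        refine ⟨μ * ω', b', h', ?_, ?_, ?_, Or.inl ?_, g1, g2, g3⟩
        · rw [← hω']
          exact hω0
        · rw [map_mul, hrμ, zero_mul]
        · rw [← hω']
        · rw [← hω']
      · obtain ⟨b', h', g1, g2, g3⟩ := approx_step T hℓ0 hℓ hμ hrμ hω' dvd_rfl hd hγ hb hu hθ hθ'
        refine ⟨μ * μ, b', h', mul_ne_zero hμ hμ, ?_, ?_, Or.inr ?_, g1, g2, g3⟩
        · rw [map_mul, hrμ, zero_mul]
        · rw [hω']
          exact mul_dvd_mul_left μ hd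
        · have h3 : μ0 ^ (n + 1 + 1) ∣ μ0 ^ (n + 1) * μ0 ^ (n + 1) := by
            rw [← pow_add]
            exact pow_dvd_pow μ0 (by omega)
          exact h3.trans (mul_dvd_mul hor hor)
  obtain ⟨n, hn⟩ := hrk μ0 hrμ0
  obtain ⟨μ, b, h, hμ, hrμ, hμω, hor, hb, hu, hθ'⟩ := claim n
  have hωμ : ω ∣ μ := by
    rcases hor with hor | hor
    · exact hor
    · exact hn.trans ((pow_dvd_pow μ0 (Nat.le_succ n)).trans hor)
  obtain ⟨c, hc⟩ := hωμ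
  have h3 : θ - b = ω • (c • h) := by rw [hθ', add_sub_cancel_left, hc, mul_smul]
  obtain ⟨s, hs⟩ := sub_dvd_pow_sub_pow θ b ℓ
  refine ⟨b, e - (c • h) * s, hb, ?_⟩
  have h4 : b ^ ℓ = θ ^ ℓ - (θ - b) * s := by rw [← hs]; ring
  rw [h4, hθ, h3, smul_sub, WB.smul_mul'']
  ring

end GT
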