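import Mathlib
import Pool.Agent.MP_c1dca2_ag.GT.Base

set_option autoImplicit false

open Polynomial IsLocalRing

namespace GT

/-! ## [GT-T5a] approximate solutions give solutions -/

variable {F : Type} [Field F] [IsAlgClosed F] {d : ℕ} [NeZero d]

omit [IsAlgClosed F] in
theorem t5a_denom (V : ValuationSubring F) (c : F) : ∃ π : V, π ≠ 0 ∧ ∃ b : V, (b : F) = (π : F) * c := by
  rcases V.mem_or_inv_mem c with h | h
  · exact ⟨1, one_ne_zero, ⟨c, h⟩, by simp⟩
  · by_cases hc : c = 0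
    · exact ⟨1, one_ne_zero, 0, by simp [hc]⟩
    · refine ⟨⟨c⁻¹, h⟩, ?_, 1, ?_⟩
      · intro h0
        exact inv_ne_zero hc (congrArg Subtype.val h0)
      · show (1 : F) = c⁻¹ * c
        rw [inv_mul_cancel₀ hc]

omit [IsAlgClosed F] in
theorem t5a_denom' (V : ValuationSubring F) {σ : Type} (a : MvPolynomial σ F) :
    ∃ π : V, π ≠ 0 ∧ ∃ a' : MvPolynomial σ V, MvPolynomial.map V.subtype a' = MvPolynomial.C (π : F) * a := by
  induction a using MvPolynomial.induction_on' with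
  | monomial u c =>
    obtain ⟨π, hπ, b, hb⟩ := t5a_denom V c
    refine ⟨π, hπ, MvPolynomial.monomial u b, ?_⟩
    rw [MvPolynomial.map_monomial, MvPolynomial.C_mul_monomial, ← hb]
    rfl
  | add p q hp hq =>
    obtain ⟨π₁, h1, a₁, ha₁⟩ := hp
    obtain ⟨π₂, h2, a₂, ha₂⟩ := hq
    refine ⟨π₁ * π₂, mul_ne_zero h1 h2, MvPolynomial.C π₂ * a₁ + MvPolynomial.C π₁ * a₂, ?_⟩
    rw [map_add, map_mul, map_mul, ha₁, ha₂, MvPolynomial.map_C, MvPolynomial.map_C]
    show MvPolynomial.C (π₂ : F) * (MvPolynomial.C (π₁ : F) * p) + MvPolynomial.C (π₁ : F) * (MvPolynomial.C (π₂ : F) * q)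
      = MvPolynomial.C ((π₁ : F) * (π₂ : F)) * (p + q)
    rw [MvPolynomial.C_mul]
    ring

/-- Proof. Suppose there is no such `z`. The ideal `I'` of `MvPolynomial σ F` generated by the images (`MvPolynomial.map V.subtype`) of the `p ∈ I` has no zero, so it is `⊤` (Nullstellensatz: `MvPolynomial.vanishingIdeal_zeroLocus_eq_radical`, Mathlib/RingTheory/Nullstellensatz.lean; or: a maximal ideal
containing `I'` is the kernel of an evaluation, `MvPolynomial.isMaximal_iff_eq_vanishingIdeal_singleton`). So `1 = ∑ g_p * map p`, a finite sum (`Submodule.mem_span_iff_exists_finset..`/`Ideal.mem_span_...`); the finitely many coefficients of the `g_p` have a common denominator: there is `π ∈ V`, `π ≠ 0` with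
`π g_p = map V.subtype g'_p` (for every `c : F` there is `π ∈ V`, `π ≠ 0` with `π c ∈ V`: `π = 1` or `π = c⁻¹`). So `C π = ∑ g'_p * p` in `MvPolynomial σ V` (`map` is injective). Take `ω = π * μ` and the point `a`: evaluate: `π = ∑ (eval a g'_p) (eval a p) ∈ π μ V`, so `1 ∈ μ V`,
`residue V 1 = 0`, contradiction. (Convenient: prove by `Submodule.span_induction` that every `q ∈ I'` satisfies: there are `π ≠ 0` and `q' ∈ Ideal.span I` with `map V.subtype q' = C π * q`.) -/
theorem nullst (V : ValuationSubring F) {σ : Type} [Finite σ] (I : Set (MvPolynomial σ V)) {μ : V}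
    (hμ0 : μ ≠ 0) (hμ : residue V μ = 0)
    (h : ∀ ω : V, ω ≠ 0 → ∃ a : σ → V, ∀ p ∈ I, ω ∣ MvPolynomial.eval a p) :
    ∃ z : σ → F, ∀ p ∈ I, MvPolynomial.eval₂ V.subtype z p = 0 := by
  by_contra hcon
  push Not at hcon
  -- the ideal over `F` is the whole ring
  have htop : Ideal.span ((MvPolynomial.map V.subtype) '' I) = (⊤ : Ideal (MvPolynomial σ F)) := by
    by_contra hne
    obtain ⟨M, hM, hle⟩ := Ideal.exists_le_maximal _ hne
    obtain ⟨z, hz⟩ := (MvPolynomial.isMaximal_iff_eq_vanishingIdeal_singleton (K := F)).1 hM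
    obtain ⟨p, hp, hpz⟩ := hcon z
    apply hpz
    have h1 : MvPolynomial.map V.subtype p ∈ MvPolynomial.vanishingIdeal F {z} := by
      rw [← hz]
      exact hle (Ideal.subset_span ⟨p, hp, rfl⟩)
    rw [MvPolynomial.mem_vanishingIdeal_singleton_iff, MvPolynomial.aeval_def, MvPolynomial.eval₂_map] at h1
    exact h1
  have key : ∀ q ∈ Ideal.span ((MvPolynomial.map V.subtype) '' I), ∃ π : V, π ≠ 0 ∧
      ∃ q' ∈ Ideal.span I, MvPolynomial.map V.subtype q' = MvPolynomial.C (π : F) * q := by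
    intro q hq
    induction hq using Submodule.span_induction with
    | mem q hq =>
      obtain ⟨p, hp, rfl⟩ := hq
      exact ⟨1, one_ne_zero, p, Ideal.subset_span hp, by simp⟩
    | zero => exact ⟨1, one_ne_zero, 0, Ideal.zero_mem _, by simp⟩
    | add p q _ _ hp hq =>
      obtain ⟨π₁, h1, a₁, hI₁, ha₁⟩ := hp
      obtain ⟨π₂, h2, a₂, hI₂, ha₂⟩ := hq
      refine ⟨π₁ * π₂, mul_ne_zero h1 h2, MvPolynomial.C π₂ * a₁ + MvPolynomial.C π₁ * a₂,
        Ideal.add_mem _ (Ideal.mul_mem_left _ _ hI₁) (Ideal.mul_mem_left _ _ hI₂), ?_⟩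
      rw [map_add, map_mul, map_mul, ha₁, ha₂, MvPolynomial.map_C, MvPolynomial.map_C]
      show MvPolynomial.C (π₂ : F) * (MvPolynomial.C (π₁ : F) * p) + MvPolynomial.C (π₁ : F) * (MvPolynomial.C (π₂ : F) * q)
        = MvPolynomial.C ((π₁ : F) * (π₂ : F)) * (p + q)
      rw [MvPolynomial.C_mul]
      ring
    | smul a q _ hq =>
      obtain ⟨π₁, h1, a₁, hI₁, ha₁⟩ := hq
      obtain ⟨π₂, h2, a₂, ha₂⟩ := t5a_denom' V a
      refine ⟨π₁ * π₂, mul_ne_zero h1 h2, a₂ * a₁, Ideal.mul_mem_left _ _ hI₁, ?_⟩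
      rw [map_mul, ha₁, ha₂, smul_eq_mul]
      show MvPolynomial.C (π₂ : F) * a * (MvPolynomial.C (π₁ : F) * q)
        = MvPolynomial.C ((π₁ : F) * (π₂ : F)) * (a * q)
      rw [MvPolynomial.C_mul]
      ring
  obtain ⟨π, hπ, q', hq', he⟩ := key 1 (by rw [htop]; trivial)
  have he' : q' = MvPolynomial.C π := by
    apply MvPolynomial.map_injective V.subtype V.subtype_injective
    rw [he, mul_one, MvPolynomial.map_C]
    rfl
  obtain ⟨a, ha⟩ := h (π * μ) (mul_ne_zero hπ hμ0)
  have hle : Ideal.span I ≤ (Ideal.span {π * μ}).comap (MvPolynomial.eval a) := by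
    rw [Ideal.span_le]
    intro p hp
    show MvPolynomial.eval a p ∈ Ideal.span {π * μ}
    rw [Ideal.mem_span_singleton]
    exact ha p hp
  have h1 : MvPolynomial.eval a q' ∈ Ideal.span {π * μ} := hle hq'
  rw [he', MvPolynomial.eval_C, Ideal.mem_span_singleton] at h1
  obtain ⟨c, hc⟩ := h1
  have h2 : (1 : V) = μ * c := by
    apply mul_left_cancel₀ hπ
    rw [mul_one, ← mul_assoc]
    exact hc
  have h3 := congrArg (residue V) h2
  rw [map_one, map_mul, hμ, zero_mul] at h3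
  exact one_ne_zero h3

end GT
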