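import Mathlib
import Pool.Agent.MP_c1dca2_ag.GT.Base
import Pool.Agent.MP_c1dca2_ag.GT.Defs
import Pool.Agent.MP_c1dca2_ag.GT.T5a
import Pool.Agent.MP_c1dca2_ag.SUP.Defs

set_option autoImplicit false

open Polynomial IsLocalRing

namespace GT

/-! ## [GT-T5b] approximate solutions give solutions -/

variable {F : Type} [Field F] [IsAlgClosed F] {d : ℕ} [NeZero d]

/-- the variables -/
abbrev T5bS (d r : ℕ) : Type := ZMod d × Fin (r + 1)

/-- the universal element -/
noncomputable def t5bU {V : ValuationSubring F} (T : Tab V d) (r : ℕ) :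
    WB (T.map (MvPolynomial.C : V →+* MvPolynomial (T5bS d r) V)) :=
  ⟨fun j => ∑ n : Fin (r + 1), monomial (n : ℕ) (MvPolynomial.X (j, n))⟩

theorem t5b_coeff {V : ValuationSubring F} (T : Tab V d) (r : ℕ) (j : ZMod d) (n : ℕ) :
    ((t5bU T r).co j).coeff n =
      if h : n < r + 1 then MvPolynomial.X (j, (⟨n, h⟩ : Fin (r + 1))) else 0 := by
  rw [t5bU]
  show (∑ m : Fin (r + 1), monomial (m : ℕ)
    (MvPolynomial.X (j, m) : MvPolynomial (T5bS d r) V)).coeff n = _
  rw [finsetSum_coeff]
  simp only [coeff_monomial]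
  split_ifs with h
  · rw [Finset.sum_eq_single (⟨n, h⟩ : Fin (r + 1))]
    · rw [if_pos rfl]
    · intro m _ hm
      rw [if_neg]
      intro h1
      exact hm (Fin.ext h1)
    · intro h1
      exact absurd (Finset.mem_univ _) h1
  · refine Finset.sum_eq_zero fun m _ => ?_
    rw [if_neg]
    intro h1
    exact h (h1 ▸ m.2)

/-- Proof. `σ = ZMod d × Fin (r + 1)`, `P = MvPolynomial σ V`, `c : V →+* P` the constants (`MvPolynomial.C`), `U : WB (T.map c)` the element with `U.co j = ∑ n : Fin (r + 1), monomial n (X (j, n))`. `I` = the set of all the coefficients `((U ^ ℓ - bmap c rfl γ).co j).coeff n`.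
For `a : σ → V` let `g = MvPolynomial.eval a : P →+* V`, `g.comp c = id`, so `bmap g _ : WB (T.map c) →+* WB T` (use `Tab.map_map`, `Tab.map_id`) maps `U` to the element `b_a` with `(b_a).co j = ∑ n, monomial n (a (j, n))` and `bmap c γ` to `γ` (`bmap_bmap`): `eval a` of the coefficients of
`U ^ ℓ - γ` are the coefficients of `b_a ^ ℓ - γ`. Every `b ∈ Ble T r` is some `b_a` (a coefficient `(b.co j).coeff n` with `n > r` is `0`, as `d * n + T.w j ≥ n > r`). So `h` gives the hypothesis of `nullst`. For `z : σ → F` let `g = MvPolynomial.eval₂Hom V.subtype z : P →+* F`,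
`g.comp c = V.subtype`; `bmap g _ : WB (T.map c) →+* WB (T.map V.subtype)`; `b = bmap g U`: `b ^ ℓ - inc T γ = bmap g (U ^ ℓ - bmap c γ)` has all coefficients `0`. -/
theorem exists_root_of_approx {V : ValuationSubring F} (T : Tab V d) (γ : WB T) (ℓ r : ℕ) {μ : V}
    (hμ0 : μ ≠ 0) (hμ : residue V μ = 0)
    (h : ∀ ω : V, ω ≠ 0 → ∃ b e : WB T, b ∈ Ble T r ∧ b ^ ℓ = γ + ω • e) :
    ∃ b : WB (T.map V.subtype), b ^ ℓ = inc T γ := by
  let c : V →+* MvPolynomial (T5bS d r) V := MvPolynomial.C
  let γ' : WB (T.map c) := bmap c rfl γ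
  let U : WB (T.map c) := t5bU T r
  let E : WB (T.map c) := U ^ ℓ - γ'
  have hN : ∀ ω : V, ω ≠ 0 → ∃ a : T5bS d r → V,
      ∀ p ∈ {p : MvPolynomial (T5bS d r) V | ∃ (j : ZMod d) (n : ℕ), p = (E.co j).coeff n},
        ω ∣ MvPolynomial.eval a p := by
    intro ω hω
    obtain ⟨b, e, hb, he⟩ := h ω hω
    refine ⟨fun i => (b.co i.1).coeff (i.2 : ℕ), ?_⟩
    rintro p ⟨j, n, rfl⟩
    set a : T5bS d r → V := fun i => (b.co i.1).coeff (i.2 : ℕ) with ha
    let g : MvPolynomial (T5bS d r) V →+* V := MvPolynomial.eval a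
    have hgc : g.comp c = RingHom.id V := RingHom.ext fun x => MvPolynomial.eval_C x
    have hg : (T.map c).map g = T := by rw [Tab.map_map, hgc, Tab.map_id]
    have hγ : bmap g hg γ' = γ := by
      refine WB.ext (funext fun j => ?_)
      show ((γ.co j).map c).map g = γ.co j
      rw [Polynomial.map_map, hgc, Polynomial.map_id]
    have hU : bmap g hg U = b := by
      refine WB.ext (funext fun j => ?_)
      ext n
      rw [bmap_co, coeff_map, t5b_coeff]
      split_ifs with h1
      · exact congrArg Subtype.val (MvPolynomial.eval_X (f := a) (j, (⟨n, h1⟩ : Fin (r + 1))))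
      · rw [map_zero, hb j n]
        have h2 : 1 * n ≤ d * n := Nat.mul_le_mul_right _ (Nat.one_le_iff_ne_zero.2 (NeZero.ne d))
        omega
    have hE : bmap g hg E = ω • e := by
      show bmap g hg (U ^ ℓ - γ') = _
      rw [map_sub, map_pow, hU, hγ, he]
      abel
    have h2 : MvPolynomial.eval a ((E.co j).coeff n) = ((bmap g hg E).co j).coeff n := by
      rw [bmap_co, coeff_map]
    rw [h2, hE, WB.co_smul', coeff_smul, smul_eq_mul]
    exact dvd_mul_right _ _
  obtain ⟨z, hz⟩ := nullst V _ hμ0 hμ hN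
  let G : MvPolynomial (T5bS d r) V →+* F := MvPolynomial.eval₂Hom V.subtype z
  have hGc : G.comp c = V.subtype := RingHom.ext fun x => MvPolynomial.eval₂_C _ _ x
  have hG : (T.map c).map G = T.map V.subtype := by rw [Tab.map_map, hGc]
  have hγ : bmap G hG γ' = inc T γ := by
    refine WB.ext (funext fun j => ?_)
    show ((γ.co j).map c).map G = (γ.co j).map V.subtype
    rw [Polynomial.map_map, hGc]
  have hE : bmap G hG E = 0 := by
    refine WB.ext (funext fun j => ?_)
    ext n
    rw [bmap_co, coeff_map, WB.co_zero, Pi.zero_apply, coeff_zero]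
    exact hz _ ⟨j, n, rfl⟩
  refine ⟨bmap G hG U, ?_⟩
  rw [← hγ, ← map_pow, ← sub_eq_zero, ← map_sub]
  exact hE

end GT
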