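import Mathlib
import Pool.Agent.MP_c1dca2_ag.GT.A1
import Pool.Agent.MP_c1dca2_ag.GT.A3
import Pool.Agent.MP_c1dca2_ag.GT.A3b
import Pool.Agent.MP_c1dca2_ag.GT.Base
import Pool.Agent.MP_c1dca2_ag.GT.C0b
import Pool.Agent.MP_c1dca2_ag.GT.C2
import Pool.Agent.MP_c1dca2_ag.GT.C2b
import Pool.Agent.MP_c1dca2_ag.GT.C3b
import Pool.Agent.MP_c1dca2_ag.GT.Defs
import Pool.Agent.MP_c1dca2_ag.GT.L1
import Pool.Agent.MP_c1dca2_ag.GT.T0
import Pool.Agent.MP_c1dca2_ag.GT.T1b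
import Pool.Agent.MP_c1dca2_ag.GT.T3
import Pool.Agent.MP_c1dca2_ag.GT.T4b
import Pool.Agent.MP_c1dca2_ag.GT.T5b
import Pool.Agent.MP_c1dca2_ag.SUP.Defs
import Pool.Agent.MP_c1dca2_ag.SUP.L1

set_option autoImplicit false
set_option linter.unusedSectionVars false

open Polynomial IsLocalRing

namespace GT

/-! ## [GT-T6] torsion injectivity -/

variable {F : Type} [Field F] [IsAlgClosed F] {V : ValuationSubring F} {d : ℕ} [NeZero d]
  {T : Tab V d} [hG : IsDedekindDomain (WB (T.map V.subtype))]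
  [hG' : IsDedekindDomain (WB (T.map (residue V)))]

/-- Proof. `exists_good` (T1b) gives `J`, `γ`. `rcl D = cls (rI J)` (`cls_rI`, C3b), so `rI J` is principal
(`cls_eq_one_iff`), `rI J = (b₀)`, and we may normalise `lc b₀ = 1` (`lc_smul`, `span_eq_iff`; `b₀ ≠ 0`).
`(rI J) ^ ℓ = (rd γ)` (`rI_pow`), `lc (rd γ) = 1` (`pord (rd γ) = pord γ`, `lcf_bmap`, `lc γ = 1`), so
`rd γ = b₀ ^ ℓ` (`eq_of_span_eq`, `lc_pow`). `b₀ = rd β` with `inc β ∈ J` (`mem_rI`). `(inc β) ^ ℓ ∈ J ^ ℓ = (inc γ)`, so by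
`gauss` (C0b) `β ^ ℓ = γ * u` with `u : WB T` (`inc_inj`); reduce: `b₀ ^ ℓ = rd γ * rd u`, so `rd u = 1` (domain, `rd γ ≠ 0`).
Let `r = pord b₀`: `ℓ * r = pord (rd γ) = pord γ` (`pord_pow`), so `γ ∈ Ble T (ℓ * r)` (`mem_Ble_pord`); `b₀ ∈ Ble _ r`, `lcf _ r b₀ = lc b₀ = 1 ≠ 0`.
Let `μ` be a nonzero element of the maximal ideal (`hR.ne`). For every `ω ≠ 0` in `V` apply `exists_theta` (T3) with `ω' = ω * μ` (residue `0`, nonzero; `hR.arch` gives `hrk`): `θ`, `e` with `rd θ = b₀`, `θ ^ ℓ = γ + ω' • e`; `exists_approx` (T4b)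
gives `b ∈ Ble T r` and `e'` with `b ^ ℓ = γ + ω' • e' = γ + ω • (μ • e')`. So `exists_root_of_approx` (T5b) gives `b` with `b ^ ℓ = inc γ`. `(b) ^ ℓ = J ^ ℓ`
(`Ideal.span_singleton_pow`), so `J = (b)` (`eq_of_pow_eq`, L1) and `D = cls J = 1` (`cls_span`). -/
theorem rcl_inj_aux (hR : Rk1 V) (ℓ : ℕ) (hℓ : 0 < ℓ) (hu : IsUnit (ℓ : V))
    (D : ClassGroup (WB (T.map V.subtype))) (hD : D ^ ℓ = 1) (h1 : rcl D = 1) : D = 1 := by
  obtain ⟨J, γ, hJ, hJD, hJℓ, hlcγ, hrγ, hpγ, -⟩ := exists_good hℓ hD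
  have hrJ := rI_ne_bot hJ
  have hcl : cls (rI J) = 1 := by
    rw [cls_rI hJ hℓ (by rw [hJD, hD]), hJD, h1]
  obtain ⟨b₁, hb₁⟩ := (cls_eq_one_iff hrJ).1 hcl
  have hb₁0 : b₁ ≠ 0 := by
    rintro rfl
    apply hrJ
    rw [hb₁, Ideal.span_singleton_eq_bot]
  have hlb₁ := lc_ne hb₁0
  set b₀ := (lc b₁)⁻¹ • b₁ with hb₀
  have hlb₀ : lc b₀ = 1 := by
    rw [hb₀, lc_smul, inv_mul_cancel₀ hlb₁]
  have hb₀0 : b₀ ≠ 0 := smul_ne_zero (inv_ne_zero hlb₁) hb₁0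
  have hs : rI J = Ideal.span {b₀} := by
    rw [hb₁, span_eq_iff]
    exact ⟨_, inv_ne_zero hlb₁, rfl⟩
  have hpw := rI_pow hJ hℓ γ hrγ hJℓ
  have hlrγ : lc (rd T γ) = 1 := by
    have h2 : lcf (T.map (residue V)) (pord γ) (rd T γ) = residue V (lcf T (pord γ) γ) :=
      lcf_bmap (residue V) rfl (pord γ) γ
    unfold lc at hlcγ ⊢
    rw [hpγ, h2, hlcγ, map_one]
  have hrγ' : b₀ ^ ℓ = rd T γ := by
    refine eq_of_span_eq (pow_ne_zero ℓ hb₀0) ?_ ?_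
    · rw [← hpw, hs, Ideal.span_singleton_pow]
    · rw [lc_pow, hlb₀, one_pow, hlrγ]
  have hmem : b₀ ∈ rI J := by
    rw [hs]
    exact Ideal.mem_span_singleton_self b₀
  obtain ⟨β, hβJ, hβ⟩ := mem_rI.1 hmem
  have hβℓ : (inc T β) ^ ℓ ∈ (Ideal.span {inc T γ} : Ideal (WB (T.map V.subtype))) := by
    rw [← hJℓ]
    exact Ideal.pow_mem_pow hβJ ℓ
  obtain ⟨x, hx⟩ := Ideal.mem_span_singleton'.1 hβℓ
  obtain ⟨u, hu'⟩ := gauss γ (β ^ ℓ) x hrγ (by rw [map_pow, ← hx, mul_comm])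
  have hβγ : β ^ ℓ = γ * u := by
    apply inc_inj
    rw [map_pow, map_mul, ← hx, hu', mul_comm]
  have hru : rd T u = 1 := by
    have h3 := congrArg (rd T) hβγ
    rw [map_pow, map_mul, hβ, hrγ'] at h3
    exact (mul_left_cancel₀ hrγ (by rw [mul_one]; exact h3)).symm
  set r := pord b₀ with hr
  have hpr : ℓ * r = pord γ := by
    rw [hr, ← pord_pow hb₀0, hrγ', hpγ]
  have hγB : γ ∈ Ble T (ℓ * r) := by
    rw [hpr]
    exact mem_Ble_pord γ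
  obtain ⟨μ, hμm, hμ0⟩ := hR.ne
  have hμr : residue V μ = 0 := (residue_eq_zero_iff μ).2 hμm
  obtain ⟨b, hb⟩ := exists_root_of_approx T γ ℓ r hμ0 hμr (by
    intro ω hω
    have hω0 : ω * μ ≠ 0 := mul_ne_zero hω hμ0
    have hωr : residue V (ω * μ) = 0 := by rw [map_mul, hμr, mul_zero]
    have hrk : ∀ μ' : V, residue V μ' = 0 → ∃ n : ℕ, ω * μ ∣ μ' ^ n := fun μ' hμ' =>
      hR.arch μ' (ω * μ) ((residue_eq_zero_iff μ').1 hμ') hω0
    obtain ⟨θ, e, hθ1, hθ2⟩ := exists_theta T hu hωr hrk hβγ hru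
    rw [hβ] at hθ1
    obtain ⟨b, e', hbB, hbe⟩ := exists_approx T hℓ hu hω0 hωr hrk hγB hθ2
      (by rw [hθ1]; exact mem_Ble_pord b₀) (by
        rw [hθ1]
        have h4 : lcf (T.map (residue V)) r b₀ = 1 := hlb₀
        rw [h4]
        exact one_ne_zero)
    exact ⟨b, μ • e', hbB, by rw [hbe, mul_smul]⟩)
  have hiγ : inc T γ ≠ 0 := by
    intro h0
    apply hrγ
    have h5 : γ = 0 := inc_inj (h0.trans (map_zero _).symm)
    rw [h5, map_zero]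
  have hb0 : b ≠ 0 := by
    rintro rfl
    apply hiγ
    rw [← hb, zero_pow hℓ.ne']
  have hsb : (Ideal.span {b} : Ideal (WB (T.map V.subtype))) ≠ ⊥ := by
    rwa [Ne, Ideal.span_singleton_eq_bot]
  have hJb : J = Ideal.span {b} := by
    refine eq_of_pow_eq hJ hsb hℓ ?_
    rw [hJℓ, Ideal.span_singleton_pow, hb]
  rw [← hJD, hJb, cls_span hb0]

/-- The reduction is injective on the `ℓ`-power torsion.

Proof. Induction on `n`: `D' := D ^ ℓ ^ n` satisfies `D' ^ ℓ = 1` and `rcl D' = (rcl D) ^ ℓ ^ n = 1`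
(`rcl_mul`, induction; `rcl_one`), so `D' = 1` by `rcl_inj_aux`. -/
theorem rcl_inj (hR : Rk1 V) (ℓ : ℕ) (hℓ : 0 < ℓ) (hu : IsUnit (ℓ : V)) (n : ℕ)
    (D : ClassGroup (WB (T.map V.subtype))) (hD : D ^ (ℓ ^ n) = 1) (h1 : rcl D = 1) : D = 1 := by
  have hpow : ∀ (N : ℕ) (_ : 0 < N) (E : ClassGroup (WB (T.map V.subtype))) (_ : E ^ N = 1)
      (k : ℕ), rcl (E ^ k) = rcl E ^ k := by
    intro N hN E hE k
    induction k with
    | zero => rw [pow_zero, pow_zero, rcl_one]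
    | succ k ih =>
      have h2 : (E ^ k) ^ N = 1 := by rw [← pow_mul, mul_comm, pow_mul, hE, one_pow]
      rw [pow_succ, rcl_mul hN h2 hE, ih, pow_succ]
  induction n with
  | zero => rwa [pow_zero, pow_one] at hD
  | succ n ih =>
    apply ih
    refine rcl_inj_aux hR ℓ hℓ hu _ ?_ ?_
    · rw [← pow_mul, ← pow_succ, hD]
    · rw [hpow _ (pow_pos hℓ (n + 1)) D hD, h1, one_pow]

end GT
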