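import Mathlib
import Pool.Agent.MP_c1dca2_ag.GT.A10
import Pool.Agent.MP_c1dca2_ag.GT.A3
import Pool.Agent.MP_c1dca2_ag.GT.Base
import Pool.Agent.MP_c1dca2_ag.GT.C0
import Pool.Agent.MP_c1dca2_ag.GT.C2
import Pool.Agent.MP_c1dca2_ag.GT.C3b
import Pool.Agent.MP_c1dca2_ag.GT.C4
import Pool.Agent.MP_c1dca2_ag.GT.Defs
import Pool.Agent.MP_c1dca2_ag.GT.F1
import Pool.Agent.MP_c1dca2_ag.GT.T0
import Pool.Agent.MP_c1dca2_ag.GT.T6
import Pool.Agent.MP_c1dca2_ag.SUP.Defs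

set_option autoImplicit false
set_option linter.unusedSectionVars false

open Polynomial IsLocalRing

namespace GT

/-! ## [GT-F2] the action of inertia and Frobenius on the `ℓ`-power torsion -/

variable {F : Type} [Field F] [IsAlgClosed F] {V : ValuationSubring F} {d : ℕ} [NeZero d]
  {T : Tab V d} [hG : IsDedekindDomain (WB (T.map V.subtype))]
  [hG' : IsDedekindDomain (WB (T.map (residue V)))]

/-- Reduction commutes with automorphisms on torsion classes. -/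
theorem rcl_clm {Ψ : F ≃+* F} (hS : Stab V Ψ)
    (hT : (T.map V.subtype).map (Ψ : F →+* F) = T.map V.subtype)
    (D : ClassGroup (WB (T.map V.subtype))) {N : ℕ} (hN : 0 < N) (hD : D ^ N = 1) :
    rcl (clm (bE Ψ hT) D) = clm (bE (stR hS) (stR_map hS hT)) (rcl D) := by
  obtain ⟨J, hJ, rfl⟩ := exists_cls D
  have hD' : (clm (bE Ψ hT) (cls J)) ^ N = 1 := by
    rw [← map_pow, hD, map_one]
  have hJ' := map_ne_bot (bE Ψ hT) hJ
  rw [clm_cls _ hJ] at hD' ⊢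
  rw [← cls_rI hJ' hN hD', ← cls_rI hJ hN hD, rI_bE hS hT, ← clm_cls _ (rI_ne_bot hJ)]

theorem eq_of_rcl (hR : Rk1 V) (ℓ : ℕ) (hℓ : 0 < ℓ) (hu : IsUnit (ℓ : V)) (n n' : ℕ)
    (D D' : ClassGroup (WB (T.map V.subtype))) (hD : D ^ (ℓ ^ n) = 1) (hD' : D' ^ (ℓ ^ n') = 1)
    (h : rcl D = rcl D') : D = D' := by
  have hN : 0 < ℓ ^ (n + n') := pow_pos hℓ _
  have h1 : D ^ ℓ ^ (n + n') = 1 := by rw [pow_add, pow_mul, hD, one_pow]
  have h2 : D' ^ ℓ ^ (n + n') = 1 := by rw [add_comm, pow_add, pow_mul, hD', one_pow]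
  rw [← div_eq_one]
  refine rcl_inj hR ℓ hℓ hu (n + n') _ ?_ ?_
  · rw [div_pow, h1, h2, div_one]
  · rw [rcl_div hN h1 h2, h, div_self']

/-- Inertia acts trivially. -/
theorem inertia_fix (hR : Rk1 V) (ℓ : ℕ) (hℓ : 0 < ℓ) (hu : IsUnit (ℓ : V)) {Ψ : F ≃+* F}
    (hS : Stab V Ψ) (hI : ∀ z ∈ V, Ψ z - z ∈ V.nonunits)
    (hT : (T.map V.subtype).map (Ψ : F →+* F) = T.map V.subtype) (n : ℕ)
    (D : ClassGroup (WB (T.map V.subtype))) (hD : D ^ (ℓ ^ n) = 1) :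
    clm (bE Ψ hT) D = D := by
  have hres : ∀ x : ResidueField V, stR hS x = x := by
    intro x
    obtain ⟨z, rfl⟩ := residue_surjective x
    exact c5_stR hS z z (hI z z.2)
  refine eq_of_rcl hR ℓ hℓ hu n n _ _ (by rw [← map_pow, hD, map_one]) hD ?_
  rw [rcl_clm hS hT D (pow_pos hℓ n) hD]
  refine clm_id _ (fun b => WB.ext (funext fun j => ?_)) _
  rw [bE_co]
  refine Polynomial.ext fun i => ?_
  rw [Polynomial.coeff_map]
  exact hres _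

/-- Frobenius has finitely many fixed points. -/
theorem finite_fixed_classes (hR : Rk1 V) (ℓ : ℕ) (hℓ : 0 < ℓ) (hu : IsUnit (ℓ : V))
    {Ψ : F ≃+* F} (hS : Stab V Ψ) (Q : ℕ) (hQ : 2 ≤ Q)
    (hF : ∀ z ∈ V, Ψ z - z ^ Q ∈ V.nonunits)
    (hT : (T.map V.subtype).map (Ψ : F →+* F) = T.map V.subtype) :
    {D : ClassGroup (WB (T.map V.subtype)) | (∃ n : ℕ, D ^ (ℓ ^ n) = 1) ∧
      clm (bE Ψ hT) D = D}.Finite := by
  have hφ : ∀ x : ResidueField V, stR hS x = x ^ Q := by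
    intro x
    obtain ⟨z, rfl⟩ := residue_surjective x
    rw [← map_pow]
    exact c5_stR hS z (z ^ Q) (hF z z.2)
  refine Set.Finite.of_injOn (f := fun D => rI (rdc D)) ?_ ?_
    (finite_fixed_ideals (stR hS) Q hQ hφ (stR_map hS hT) (gp T))
  · rintro D ⟨-, hD⟩
    refine ⟨rI_ne_bot (rdc_ne D), (len_rI_le (rdc_ne D)).trans (len_rdc D), ?_⟩
    change (rI (rdc D)).map _ = rI (rdc D)
    rw [← rI_bE hS hT, rdc_map, hD]
  · rintro D ⟨⟨n, hn⟩, -⟩ D' ⟨⟨n', hn'⟩, -⟩ h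
    exact eq_of_rcl hR ℓ hℓ hu n n' D D' hn hn' (congrArg cls h)

end GT
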