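import Mathlib
import Pool.Agent.MP_c1dca2_ag.GT.A10
import Pool.Agent.MP_c1dca2_ag.GT.A3
import Pool.Agent.MP_c1dca2_ag.GT.Base
import Pool.Agent.MP_c1dca2_ag.GT.C2
import Pool.Agent.MP_c1dca2_ag.GT.C3b
import Pool.Agent.MP_c1dca2_ag.GT.C4
import Pool.Agent.MP_c1dca2_ag.GT.Defs
import Pool.Agent.MP_c1dca2_ag.GT.F2
import Pool.Agent.MP_c1dca2_ag.GT.F3a
import Pool.Agent.MP_c1dca2_ag.GT.T0
import Pool.Agent.MP_c1dca2_ag.SUP.Defs

set_option autoImplicit false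
set_option linter.unusedSectionVars false

open Polynomial IsLocalRing

namespace GT

/-! ## [GT-F3b] finite orbits of torsion classes -/

variable {F : Type} [Field F] [IsAlgClosed F] {V : ValuationSubring F} {d : ℕ} [NeZero d]
  {T : Tab V d} [hG : IsDedekindDomain (WB (T.map V.subtype))]
  [hG' : IsDedekindDomain (WB (T.map (residue V)))]

theorem F3b_map_iter {B : Type} [CommRing B] [IsDedekindDomain B] (ψ : B ≃+* B) (I : Ideal B)
    (hI : I ≠ ⊥) (m : ℕ) : (fun I : Ideal B => I.map ψ)^[m] I ≠ ⊥ ∧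
      (clm ψ)^[m] (cls I) = cls ((fun I : Ideal B => I.map ψ)^[m] I) := by
  induction m with
  | zero => exact ⟨hI, rfl⟩
  | succ m ih =>
    rw [Function.iterate_succ_apply', Function.iterate_succ_apply', ih.2]
    exact ⟨map_ne_bot ψ ih.1, clm_cls ψ ih.1⟩

theorem F3b_rcl_iter {Ψ : F ≃+* F} (hS : Stab V Ψ)
    (hT : (T.map V.subtype).map (Ψ : F →+* F) = T.map V.subtype)
    (D : ClassGroup (WB (T.map V.subtype))) {N : ℕ} (hN : 0 < N) (hD : D ^ N = 1) (m : ℕ) :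
    rcl ((clm (bE Ψ hT))^[m] D) =
      (clm (bE (stR hS) (stR_map hS hT)))^[m] (rcl D) := by
  induction m with
  | zero => rfl
  | succ m ih =>
    rw [Function.iterate_succ_apply', Function.iterate_succ_apply', ← ih]
    refine rcl_clm hS hT _ hN ?_
    rw [← iterate_map_pow, hD, iterate_map_one]

/-- Proof. `I := rI (rdc D)`, `rcl D = cls I`. By `ideal_orbit` for `stR hS` (`x ↦ x ^ Q` on the residue
field, `c5_stR`) `(map)^[m] I = I`. By induction `rcl ((clm (bE Ψ hT))^[m] D) =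
(clm (bE (stR hS) _))^[m] (rcl D)` (`rcl_clm`; the iterates of `D` are torsion) and
`(clm (bE (stR hS) _))^[m] (cls I) = cls ((map)^[m] I)` (`clm_cls`, `map_ne_bot`). So
`rcl ((clm Ψ)^[m] D) = rcl D` and `eq_of_rcl` applies. `WB` of a field is Noetherian (Dedekind), so `I` is
finitely generated. -/
theorem torsion_orbit (hR : Rk1 V) (ℓ : ℕ) (hℓ : 0 < ℓ) (hu : IsUnit (ℓ : V))
    {Ψ : F ≃+* F} (hS : Stab V Ψ) (Q : ℕ)
    (hF : ∀ z ∈ V, Ψ z - z ^ Q ∈ V.nonunits)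
    (hfin : ∀ x : ResidueField V, ∃ m : ℕ, 0 < m ∧ x ^ Q ^ m = x)
    (hT : (T.map V.subtype).map (Ψ : F →+* F) = T.map V.subtype) (n : ℕ)
    (D : ClassGroup (WB (T.map V.subtype))) (hD : D ^ (ℓ ^ n) = 1) :
    ∃ m : ℕ, 0 < m ∧ (clm (bE Ψ hT))^[m] D = D := by
  have hφ : ∀ x : ResidueField V, stR hS x = x ^ Q := by
    intro x
    obtain ⟨z, rfl⟩ := residue_surjective x
    rw [← map_pow]
    exact c5_stR hS z (z ^ Q) (hF z z.2)
  have hφm : ∀ (m : ℕ) (x : ResidueField V), (stR hS)^[m] x = x ^ Q ^ m := by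
    intro m x
    induction m with
    | zero => simp
    | succ m ih =>
      rw [Function.iterate_succ_apply', ih, hφ, ← pow_mul, pow_succ]
  have hfin' : ∀ x : ResidueField V, ∃ m : ℕ, 0 < m ∧ (stR hS)^[m] x = x := by
    intro x
    obtain ⟨m, hm, h⟩ := hfin x
    exact ⟨m, hm, by rw [hφm, h]⟩
  obtain ⟨m, hm, h⟩ := ideal_orbit (stR hS) (stR_map hS hT) hfin' (rI (rdc D))
    (IsNoetherian.noetherian _)
  refine ⟨m, hm, ?_⟩
  have hN : 0 < ℓ ^ n := pow_pos hℓ n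
  refine eq_of_rcl hR ℓ hℓ hu n n _ _ ?_ hD ?_
  · rw [← iterate_map_pow, hD, iterate_map_one]
  · rw [F3b_rcl_iter hS hT D hN hD]
    have h1 : rcl D = cls (rI (rdc D)) := rfl
    rw [h1, (F3b_map_iter _ _ (rI_ne_bot (rdc_ne D)) m).2, h]

end GT
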