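import Mathlib
import Pool.Agent.MP_c1dca2_ag.GT.A3
import Pool.Agent.MP_c1dca2_ag.GT.Base
import Pool.Agent.MP_c1dca2_ag.GT.Defs
import Pool.Agent.MP_c1dca2_ag.GT.F2
import Pool.Agent.MP_c1dca2_ag.GT.F3b
import Pool.Agent.MP_c1dca2_ag.GT.T0
import Pool.Agent.MP_c1dca2_ag.GT.X1a
import Pool.Agent.MP_c1dca2_ag.SUP.Defs

set_option autoImplicit false
set_option linter.unusedSectionVars false

open Polynomial IsLocalRing

namespace GT

/-! ## [GT-F3] Frobenius minus one is surjective on the `ℓ`-power torsion -/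

variable {F : Type} [Field F] [IsAlgClosed F] {V : ValuationSubring F} {d : ℕ} [NeZero d]
  {T : Tab V d} [hG : IsDedekindDomain (WB (T.map V.subtype))]
  [hG' : IsDedekindDomain (WB (T.map (residue V)))]

/-- The torsion classes. -/
noncomputable def F3_A (B : Type) [CommRing B] [IsDedekindDomain B] (ℓ : ℕ) :
    Subgroup (ClassGroup B) where
  carrier := {D | ∃ n : ℕ, D ^ (ℓ ^ n) = 1}
  one_mem' := ⟨0, one_pow _⟩
  mul_mem' := by
    rintro a b ⟨m, hm⟩ ⟨n, hn⟩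
    refine ⟨m + n, ?_⟩
    rw [mul_pow, pow_add, pow_mul, hm, one_pow, one_mul, mul_comm, pow_mul, hn, one_pow]
  inv_mem' := by
    rintro a ⟨m, hm⟩
    exact ⟨m, by rw [inv_pow, hm, inv_one]⟩

/-- The automorphism. -/
noncomputable def F3_phi {B : Type} [CommRing B] [IsDedekindDomain B] (ℓ : ℕ) (ψ : B ≃+* B) :
    F3_A B ℓ ≃* F3_A B ℓ where
  toFun D := ⟨clm ψ D, by
    obtain ⟨n, hn⟩ := D.2
    exact ⟨n, by rw [← map_pow, hn, map_one]⟩⟩
  invFun D := ⟨clm ψ.symm D, by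
    obtain ⟨n, hn⟩ := D.2
    exact ⟨n, by rw [← map_pow, hn, map_one]⟩⟩
  left_inv D := Subtype.ext (by
    change clm ψ.symm (clm ψ D) = D
    rw [clm_clm ψ ψ.symm (RingEquiv.refl B) (fun b => (ψ.symm_apply_apply b).symm),
      clm_id _ (fun b => rfl)])
  right_inv D := Subtype.ext (by
    change clm ψ (clm ψ.symm D) = D
    rw [clm_clm ψ.symm ψ (RingEquiv.refl B) (fun b => (ψ.apply_symm_apply b).symm),
      clm_id _ (fun b => rfl)])
  map_mul' D D' := Subtype.ext (map_mul (clm ψ) _ _)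

theorem F3_phi_iter {B : Type} [CommRing B] [IsDedekindDomain B] (ℓ : ℕ) (ψ : B ≃+* B)
    (D : F3_A B ℓ) (m : ℕ) : (((F3_phi ℓ ψ)^[m] D : F3_A B ℓ) : ClassGroup B) =
      (clm ψ)^[m] (D : ClassGroup B) := by
  induction m with
  | zero => rfl
  | succ m ih =>
    rw [Function.iterate_succ_apply', Function.iterate_succ_apply', ← ih]
    rfl

/-- Proof. Apply `surj_of_orbits` (X1a) to the subgroup `A` of the classes `D` with `D ^ (ℓ ^ n) = 1` for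
some `n` and to the restriction of the automorphism `clm (bE Ψ hT)` to it (it is bijective with inverse
`clm` of the inverse ring isomorphism, `clm_clm`, `clm_id`; `clm` is a homomorphism, so it preserves
`A`). `hdiv` gives roots, which are in `A`; `torsion_orbit`, `finite_fixed_classes`. -/
theorem exists_div (hR : Rk1 V) (ℓ : ℕ) (hℓ : ℓ.Prime) (hu : IsUnit (ℓ : V))
    {Ψ : F ≃+* F} (hS : Stab V Ψ) (Q : ℕ) (hQ : 2 ≤ Q)
    (hF : ∀ z ∈ V, Ψ z - z ^ Q ∈ V.nonunits)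
    (hfin : ∀ x : ResidueField V, ∃ m : ℕ, 0 < m ∧ x ^ Q ^ m = x)
    (hT : (T.map V.subtype).map (Ψ : F →+* F) = T.map V.subtype)
    (hdiv : ∀ D : ClassGroup (WB (T.map V.subtype)), ∃ D', D' ^ ℓ = D) (n : ℕ)
    (D : ClassGroup (WB (T.map V.subtype))) (hD : D ^ (ℓ ^ n) = 1) :
    ∃ D' : ClassGroup (WB (T.map V.subtype)), (∃ n' : ℕ, D' ^ (ℓ ^ n') = 1) ∧
      clm (bE Ψ hT) D' = D * D' := by
  have h1 : ∀ a : F3_A (WB (T.map V.subtype)) ℓ, ∃ n : ℕ, a ^ ℓ ^ n = 1 := by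
    rintro ⟨a, m, ha⟩
    exact ⟨m, Subtype.ext ha⟩
  have h2 : ∀ a : F3_A (WB (T.map V.subtype)) ℓ,
      ∃ b : F3_A (WB (T.map V.subtype)) ℓ, b ^ ℓ = a := by
    rintro ⟨a, m, ha⟩
    obtain ⟨a', ha'⟩ := hdiv a
    refine ⟨⟨a', ⟨m + 1, ?_⟩⟩, Subtype.ext ha'⟩
    rw [pow_succ', pow_mul, ha', ha]
  have h3 : ∀ a : F3_A (WB (T.map V.subtype)) ℓ,
      ∃ n : ℕ, 0 < n ∧ (F3_phi ℓ (bE Ψ hT))^[n] a = a := by
    rintro ⟨a, m, ha⟩
    obtain ⟨k, hk, h⟩ := torsion_orbit hR ℓ hℓ.pos hu hS Q hF hfin hT m a ha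
    exact ⟨k, hk, Subtype.ext (by rw [F3_phi_iter, h])⟩
  have h4 : {a : F3_A (WB (T.map V.subtype)) ℓ | F3_phi ℓ (bE Ψ hT) a = a}.Finite := by
    have h5 := finite_fixed_classes hR ℓ hℓ.pos hu hS Q hQ hF hT
    refine (h5.preimage (f := fun a : F3_A (WB (T.map V.subtype)) ℓ =>
      (a : ClassGroup (WB (T.map V.subtype)))) Subtype.val_injective.injOn).subset ?_
    intro a ha
    exact ⟨a.2, congrArg Subtype.val ha⟩
  obtain ⟨b, hb⟩ := surj_of_orbits (F3_phi ℓ (bE Ψ hT)) ℓ hℓ h1 h2 h3 h4 ⟨D, ⟨n, hD⟩⟩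
  refine ⟨b, b.2, ?_⟩
  have h6 := congrArg (Subtype.val) hb
  change clm (bE Ψ hT) b / b = D at h6
  rw [← h6, div_mul_cancel]

end GT
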