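import Mathlib

set_option autoImplicit false
set_option linter.unusedSectionVars false

namespace GT

/-! ## [GT-Kc] powers of automorphisms fixing finitely many algebraic elements -/

theorem kc_mul {K M : Type} [Field K] [Field M] [Algebra K M] (φ : M ≃ₐ[K] M) (z : M) (m : ℕ)
    (h : (φ ^ m) z = z) (n : ℕ) : (φ ^ (m * n)) z = z := by
  rw [pow_mul]
  induction n with
  | zero => rw [pow_zero, AlgEquiv.one_apply]
  | succ n ih => rw [pow_succ, AlgEquiv.mul_apply, h, ih]

theorem kc_one {K M : Type} [Field K] [Field M] [Algebra K M] [Algebra.IsAlgebraic K M]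
    (φ : M ≃ₐ[K] M) (z : M) : ∃ m : ℕ, 0 < m ∧ (φ ^ m) z = z := by
  classical
  have hint : IsIntegral K z := Algebra.IsIntegral.isIntegral z
  have hne : minpoly K z ≠ 0 := minpoly.ne_zero hint
  have hroot : ∀ n : ℕ, (φ ^ n) z ∈ (minpoly K z).rootSet M := by
    intro n
    rw [Polynomial.mem_rootSet]
    refine ⟨hne, ?_⟩
    have := Polynomial.aeval_algHom_apply ((φ ^ n : M ≃ₐ[K] M) : M →ₐ[K] M) z (minpoly K z)
    rw [minpoly.aeval, map_zero] at this
    exact this
  have hfin : ((minpoly K z).rootSet M).Finite := Polynomial.rootSet_finite _ _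
  obtain ⟨a, b, hab, he⟩ : ∃ a b : ℕ, a < b ∧ (φ ^ a) z = (φ ^ b) z := by
    obtain ⟨a, _, b, _, hne, he⟩ := Set.infinite_univ.exists_ne_map_eq_of_mapsTo
      (f := fun n : ℕ => (φ ^ n) z) (fun n _ => hroot n) hfin
    rcases lt_or_gt_of_ne hne with h | h
    · exact ⟨a, b, h, he⟩
    · exact ⟨b, a, h, he.symm⟩
  refine ⟨b - a, by omega, ?_⟩
  have h1 : (φ ^ b) z = (φ ^ a) ((φ ^ (b - a)) z) := by
    rw [← AlgEquiv.mul_apply, ← pow_add]
    congr 2
    omega
  rw [h1] at he
  exact ((φ ^ a).injective he).symm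

/-- Proof. For one `z`: all `(φ ^ n) z` are roots of `minpoly K z`, a finite set, so
`(φ ^ a) z = (φ ^ b) z` for some `a < b`, and `(φ ^ (b - a)) z = z` by injectivity. For a finite set use the
product of the exponents (induction on the set; `(φ ^ m) z = z` implies `(φ ^ (m * n)) z = z`). -/
theorem exists_iter {K M : Type} [Field K] [Field M] [Algebra K M] [Algebra.IsAlgebraic K M]
    (φ : M ≃ₐ[K] M) (X : Finset M) : ∃ m : ℕ, 0 < m ∧ ∀ z ∈ X, (φ ^ m) z = z := by
  classical
  induction X using Finset.induction_on with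
  | empty => exact ⟨1, one_pos, fun z hz => absurd hz (Finset.notMem_empty z)⟩
  | insert a s _ ih =>
    obtain ⟨m, hm, hms⟩ := ih
    obtain ⟨n, hn, hna⟩ := kc_one φ a
    refine ⟨m * n, Nat.mul_pos hm hn, fun z hz => ?_⟩
    rcases Finset.mem_insert.1 hz with rfl | hz
    · rw [mul_comm]
      exact kc_mul φ z n hna m
    · exact kc_mul φ z m (hms z hz) n

end GT
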