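import Mathlib

set_option autoImplicit false

namespace GT

/-! ## [GT-T8] valuations of rank one in algebraic extensions -/

/-- An element algebraic over `k`: a power has the value of an element of `k`. -/
theorem t8_pow {k F : Type} [Field k] [Field F] [Algebra k F] [Algebra.IsAlgebraic k F]
    (V : ValuationSubring F) (x : F) (hx : x ≠ 0) :
    ∃ (n : ℕ) (a : k), 0 < n ∧ a ≠ 0 ∧ V.valuation x ^ n = V.valuation (algebraMap k F a) := by
  classical
  obtain ⟨p, hp0, hp⟩ := Algebra.IsAlgebraic.isAlgebraic (R := k) x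
  have hne : p.support.Nonempty := Polynomial.support_nonempty.2 hp0
  obtain ⟨j, hj, hmax⟩ := p.support.exists_max_image
    (fun i => V.valuation (algebraMap k F (p.coeff i) * x ^ i)) hne
  have hterm : ∀ i ∈ p.support, algebraMap k F (p.coeff i) ≠ 0 := fun i hi =>
    (map_ne_zero_iff _ (algebraMap k F).injective).2 (Polynomial.mem_support_iff.1 hi)
  have hsum : ∑ i ∈ p.support, algebraMap k F (p.coeff i) * x ^ i = 0 := by
    rw [Polynomial.aeval_def, Polynomial.eval₂_eq_sum] at hp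
    exact hp
  have hex : ∃ i ∈ p.support, i ≠ j ∧
      V.valuation (algebraMap k F (p.coeff i) * x ^ i) = V.valuation (algebraMap k F (p.coeff j) * x ^ j) := by
    by_contra hcon
    push Not at hcon
    have h1 := V.valuation.map_sum_eq_of_lt (s := p.support)
      (f := fun i => algebraMap k F (p.coeff i) * x ^ i) hj (by
        intro i hi
        rw [Finset.mem_sdiff, Finset.mem_singleton] at hi
        exact lt_of_le_of_ne (hmax i hi.1) (hcon i hi.1 hi.2))
    rw [hsum, _root_.map_zero] at h1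
    have h2 := (V.valuation.zero_iff).1 h1.symm
    rcases mul_eq_zero.1 h2 with h3 | h3
    · exact hterm j hj h3
    · exact hx (eq_zero_of_pow_eq_zero h3)
  obtain ⟨i, hi, hij, he⟩ := hex
  have key : ∀ a b : ℕ, a ∈ p.support → b ∈ p.support → a < b →
      V.valuation (algebraMap k F (p.coeff a) * x ^ a) = V.valuation (algebraMap k F (p.coeff b) * x ^ b) →
      ∃ (n : ℕ) (a : k), 0 < n ∧ a ≠ 0 ∧ V.valuation x ^ n = V.valuation (algebraMap k F a) := by
    intro a b ha hb hab he
    refine ⟨b - a, p.coeff a / p.coeff b, by omega,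
      div_ne_zero (Polynomial.mem_support_iff.1 ha) (Polynomial.mem_support_iff.1 hb), ?_⟩
    rw [map_div₀, map_div₀, eq_div_iff ((V.valuation.ne_zero_iff).2 (hterm b hb))]
    rw [map_mul, map_mul, map_pow, map_pow] at he
    have hxa : V.valuation x ^ a ≠ 0 := pow_ne_zero _ ((V.valuation.ne_zero_iff).2 hx)
    apply mul_right_cancel₀ hxa
    rw [he, mul_comm, ← mul_assoc, ← pow_add, mul_comm, show a + (b - a) = b by omega]
  rcases lt_or_gt_of_ne hij with h | h
  · exact key i j hi hj h he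
  · exact key j i hj hi h he.symm

/-- Proof. (0) For `x : F`, `x ≠ 0`, algebraic over `k`: `∑ i ∈ range (N + 1), a_i x ^ i = 0` with `a_i ∈ k` not all zero. The maximum of the values `V.valuation (a_i x ^ i)` is attained at least twice (ultrametric: `Valuation.map_sum_lt`-type lemma or `Valuation.map_sum_eq_of_lt`), at `i < j` say, with
`a_i ≠ 0`, `a_j ≠ 0`: `v(x) ^ (j - i) = v(a_i / a_j)`. So: (A) for every `x ≠ 0` in `F` there are `n > 0` and `a : k`, `a ≠ 0`, with `V.valuation x ^ n = V.valuation (algebraMap k F a)`.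
(1) `μ ≠ 0`, `v(μ) < 1`: `v(μ) ^ n = v(a)`, `v(a) < 1`. `ω ≠ 0`: `v(ω) ^ m = v(b)`, `m > 0`, and `v(ω) ^ m ≤ v(ω)` because `v(ω) ≤ 1`. `hk` gives `N` with `v(a) ^ N ≤ v(b)`, so `v(μ) ^ (n N) ≤ v(ω)`. If `μ = 0`: `N = 1`. -/
theorem rank_one {k F : Type} [Field k] [Field F] [Algebra k F] [Algebra.IsAlgebraic k F]
    (V : ValuationSubring F)
    (hk : ∀ a b : k, b ≠ 0 → V.valuation (algebraMap k F a) < 1 →
      ∃ n : ℕ, V.valuation (algebraMap k F a) ^ n ≤ V.valuation (algebraMap k F b))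
    {μ ω : F} (hμ : V.valuation μ < 1) (hω0 : ω ≠ 0) (hω : V.valuation ω ≤ 1) :
    ∃ n : ℕ, V.valuation μ ^ n ≤ V.valuation ω := by
  by_cases hμ0 : μ = 0
  · refine ⟨1, ?_⟩
    rw [hμ0, _root_.map_zero, pow_one]
    exact zero_le
  obtain ⟨n, a, hn, ha0, ha⟩ := t8_pow (k := k) V μ hμ0
  obtain ⟨m, b, hm, hb0, hb⟩ := t8_pow (k := k) V ω hω0
  obtain ⟨N, hN⟩ := hk a b hb0 (by
    rw [← ha]
    exact pow_lt_one' hμ hn.ne')
  refine ⟨n * N, ?_⟩
  rw [pow_mul, ha]
  refine hN.trans ?_
  rw [← hb]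
  exact pow_le_of_le_one zero_le hω hm.ne'

end GT
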