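import Mathlib
import Pool.Agent.MP_c1dca2_ag.GT.Base
import Pool.Agent.MP_c1dca2_ag.GT.T0
import Pool.Agent.MP_c1dca2_ag.GT.T8
import Pool.Agent.MP_c1dca2_ag.SC2.A1
import Pool.Agent.MP_c1dca2_ag.SC2.A4
import Pool.Agent.MP_c1dca2_ag.SC2.AB

set_option autoImplicit false
set_option linter.unusedSectionVars false

open IsLocalRing SC2

namespace GT

/-! ## [GT-Kd] the residue field and the rank of a valuation ring above a discrete one -/

variable {k C : Type} [Field k] [Field C] [Algebra k C] [Algebra.IsAlgebraic k C]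
  {A : ValuationSubring k} {V : ValuationSubring C}

/-- Every element of the residue field of `V` is algebraic over the finite residue field of `A`.

Proof. Let `q` be the number of elements of the residue field `F` of `A`, `x` the residue of `v : V`. `v` is a root of a nonzero
polynomial over `k`; multiply it with a constant such that all coefficients are in `A` and one of them is a
unit of `A` (`A` is a valuation ring: divide by the coefficient with the largest value). Reduce: `x` is a root of a nonzero polynomial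
over (the image of) `F`, so `x` is algebraic over `F`, so `F(x)` is finite and `x ^ q ^ m = x` with
`m = [F(x) : F] > 0` (`FiniteField.pow_card` type lemma for `F(x)`; the map `F → ResidueField V` is induced by
`A → V`, `h`). (Compare SC2/C1.lean, SC2/C2.lean and `exists_frob` in SC2/A4.lean, where similar facts are proved.) -/
theorem residue_pow [Finite (ResidueField A)] (h : Above A V) (x : ResidueField V) :
    ∃ m : ℕ, 0 < m ∧ x ^ (Nat.card (ResidueField A)) ^ m = x := by
  let _ := (a4k h).toAlgebra
  have halg : Algebra.IsAlgebraic (ResidueField A) (ResidueField V) := by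
    refine ⟨fun w => ?_⟩
    obtain ⟨⟨x, hx⟩, rfl⟩ := residue_surjective w
    obtain ⟨y, z, hy, hz, hyv, hxy⟩ := val_frac h x hx
    have hyV : y ∈ V := (V.valuation_le_one_iff y).1 hyv.le
    have hzV : z ∈ V := by
      rw [← hxy]
      exact V.mul_mem _ _ hx hyV
    have h1 : IsIntegral (ResidueField A) (residue V ⟨y, hyV⟩) := a4_integral h y hyV hy
    have h2 : IsIntegral (ResidueField A) (residue V ⟨z, hzV⟩) := a4_integral h z hzV hz
    have h3 : residue V ⟨x, hx⟩ * residue V ⟨y, hyV⟩ = residue V ⟨z, hzV⟩ := by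
      rw [← map_mul]
      congr 1
      exact Subtype.ext hxy
    have h4 : residue V ⟨y, hyV⟩ ≠ 0 := by
      rw [Ne, residue_eq_zero_iff]
      intro h5
      have h6 := (ValuationSubring.mem_nonunits_iff_exists_mem_maximalIdeal (A := V)).2 ⟨hyV, h5⟩
      rw [ValuationSubring.mem_nonunits_iff, hyv] at h6
      exact lt_irrefl _ h6
    have h5 : residue V ⟨x, hx⟩ = residue V ⟨z, hzV⟩ * (residue V ⟨y, hyV⟩)⁻¹ := by
      rw [← h3, mul_assoc, mul_inv_cancel₀ h4, mul_one]
    rw [h5]
    exact (h2.mul h1.inv).isAlgebraic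
  have hint : IsIntegral (ResidueField A) x := (halg.isAlgebraic x).isIntegral
  have hfd : FiniteDimensional (ResidueField A) (IntermediateField.adjoin (ResidueField A) {x}) :=
    IntermediateField.adjoin.finiteDimensional hint
  have hfin : Finite (IntermediateField.adjoin (ResidueField A) {x}) :=
    Module.finite_of_finite (ResidueField A)
  let _ := Fintype.ofFinite (IntermediateField.adjoin (ResidueField A) {x})
  refine ⟨Module.finrank (ResidueField A) (IntermediateField.adjoin (ResidueField A) {x}),
    Module.finrank_pos, ?_⟩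
  have hcard : Nat.card (IntermediateField.adjoin (ResidueField A) {x}) =
      Nat.card (ResidueField A) ^
        Module.finrank (ResidueField A) (IntermediateField.adjoin (ResidueField A) {x}) :=
    Module.natCard_eq_pow_finrank
  rw [← hcard, Nat.card_eq_fintype_card]
  have h1 := FiniteField.pow_card (⟨x, IntermediateField.mem_adjoin_simple_self _ x⟩ :
    IntermediateField.adjoin (ResidueField A) {x})
  exact congrArg Subtype.val h1

/-- Proof. `arch`: `rank_one` (T8): for `a : k` with value `< 1` and `b : k`, `b ≠ 0`, in the DVR `A`: if `a = 0` clear;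
otherwise `a = u ϖ ^ i`, `i > 0`, `b = u' ϖ ^ j` (`j : ℤ`), and `i n ≥ j` for large `n`; translate
values in `A` to values in `V` by `h` (`a ∈ V ↔ a ∈ A`, so `V.valuation (algebraMap a) ≤ V.valuation (algebraMap b)` iff
`a / b ∈ A`). Then `V.valuation μ ^ n ≤ V.valuation ω` means `ω ∣ μ ^ n` in `V`. `ne`: the image of a uniformiser
of `A`. -/
theorem rk1_of [IsDiscreteValuationRing A] (h : Above A V) : Rk1 V := by
  obtain ⟨ϖ, hϖ⟩ := IsDiscreteValuationRing.exists_irreducible A
  have hloc := a4f_local h
  have hk : ∀ a b : k, b ≠ 0 → V.valuation (algebraMap k C a) < 1 →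
      ∃ n : ℕ, V.valuation (algebraMap k C a) ^ n ≤ V.valuation (algebraMap k C b) := by
    intro a b hb ha
    have haA : a ∈ A := (h a).1 ((V.valuation_le_one_iff _).1 ha.le)
    by_cases hbA : b ∈ A
    · have hnu : ¬ IsUnit (⟨a, haA⟩ : A) := by
        intro hu
        have h1 : IsUnit (a4f h ⟨a, haA⟩) := hu.map (a4f h)
        have h2 := (V.valuation_eq_one_iff _).1 h1
        have h3 : V.valuation (algebraMap k C a) = 1 := h2
        rw [h3] at ha
        exact lt_irrefl _ ha
      have hdvd : ϖ ∣ (⟨a, haA⟩ : A) := by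
        have h1 : (⟨a, haA⟩ : A) ∈ maximalIdeal A := (mem_maximalIdeal _).2 hnu
        rw [hϖ.maximalIdeal_eq] at h1
        exact Ideal.mem_span_singleton.1 h1
      have hb0 : (⟨b, hbA⟩ : A) ≠ 0 := fun h0 => hb (congrArg Subtype.val h0)
      obtain ⟨j, hj⟩ := IsDiscreteValuationRing.associated_pow_irreducible hb0 hϖ
      have h4 : (⟨b, hbA⟩ : A) ∣ (⟨a, haA⟩ : A) ^ j := hj.dvd.trans (pow_dvd_pow_of_dvd hdvd j)
      obtain ⟨c, hc⟩ := h4
      refine ⟨j, ?_⟩
      have h5 : a ^ j = b * (c : k) := congrArg Subtype.val hc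
      rw [← map_pow, ← map_pow, h5, map_mul, map_mul]
      have h6 : V.valuation (algebraMap k C (c : k)) ≤ 1 :=
        (V.valuation_le_one_iff _).2 ((h _).2 c.2)
      exact mul_le_of_le_one_right' h6
    · refine ⟨0, ?_⟩
      rw [pow_zero]
      have h1 : b⁻¹ ∈ A := (A.mem_or_inv_mem b).resolve_left hbA
      have h2 : V.valuation (algebraMap k C b⁻¹) ≤ 1 := (V.valuation_le_one_iff _).2 ((h _).2 h1)
      have h3 : V.valuation (algebraMap k C b) * V.valuation (algebraMap k C b⁻¹) = 1 := by
        rw [← map_mul, ← map_mul, mul_inv_cancel₀ hb, map_one, map_one]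
      calc (1 : V.ValueGroup) = V.valuation (algebraMap k C b) * V.valuation (algebraMap k C b⁻¹) :=
            h3.symm
        _ ≤ V.valuation (algebraMap k C b) := mul_le_of_le_one_right' h2
  refine ⟨fun μ ω hμ hω => ?_, ?_⟩
  · have hμ' : V.valuation (μ : C) < 1 := (V.valuation_lt_one_iff μ).1 hμ
    have hω0 : (ω : C) ≠ 0 := fun h0 => hω (Subtype.ext h0)
    have hω1 : V.valuation (ω : C) ≤ 1 := V.valuation_le_one ω
    obtain ⟨n, hn⟩ := rank_one (k := k) V hk hμ' hω0 hω1
    refine ⟨n, ?_⟩
    rw [← map_pow] at hn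
    obtain ⟨c, hc⟩ := (V.valuation_le_iff _ _).1 hn
    exact ⟨c, Subtype.ext (by
      show (μ : C) ^ n = (ω : C) * (c : C)
      rw [← hc, mul_comm])⟩
  · refine ⟨a4f h ϖ, ?_, ?_⟩
    · rw [mem_maximalIdeal]
      intro hu
      exact hϖ.not_isUnit (hloc.map_nonunit ϖ hu)
    · intro h0
      have h1 : algebraMap k C (ϖ : k) = 0 := congrArg Subtype.val h0
      have h2 : (ϖ : k) = 0 := (map_eq_zero _).1 h1
      exact hϖ.ne_zero (Subtype.ext h2)

end GT
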