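import Mathlib
import Pool.Agent.MP_c1dca2_ag.SC2.A1
import Pool.Agent.MP_c1dca2_ag.SC2.A2
import Pool.Agent.MP_c1dca2_ag.SC2.AB
import Pool.Agent.MP_c1dca2_ag.SEC.Defs
import Pool.Agent.MP_c1dca2_ag.SEC.M1

set_option autoImplicit false

open IsLocalRing Polynomial

namespace GT

open SEC

variable {k K : Type} [Field k] [Field K] [Algebra k K]

/-! ## [GT-E0] a rational point gives a section, part 1: the residue field of a place above a
rational point (file E0a.lean) -/

theorem E0_alg (a : k) : algebraMap k (Om K) a = algebraMap K (Om K) (algebraMap k K a) :=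
  IsScalarTower.algebraMap_apply k K (Om K) a

/-- the places above a rational point -/
theorem E0_place (P : RatPlace k K) {B : ValuationSubring (Om K)} (h : SC2.Above P.A B) :
    IsPlace k K B := by
  refine ⟨fun a => ?_, fun hB => P.ne_top ?_⟩
  · rw [E0_alg, h]
    exact P.alg a
  · ext z
    refine ⟨fun _ => trivial, fun _ => ?_⟩
    rw [← h, hB]
    trivial

/-- `a - c` is in the maximal ideal of `B` if it is in the one of `A` -/
theorem E0_nonunit {A : ValuationSubring K} {B : ValuationSubring (Om K)} (h : SC2.Above A B)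
    (a : K) (ha : a ∈ A.nonunits) : algebraMap K (Om K) a ∈ B.nonunits := by
  rw [B.mem_nonunits_iff, SC2.a2_under h]
  exact (A.mem_nonunits_iff).1 ha

/-- products in the maximal ideal -/
theorem E0_prod {L : Type} [Field L] (B : ValuationSubring L) {ι : Type} (s : Multiset ι) (f : ι → L)
    (h : (s.map f).prod ∈ B.nonunits) : ∃ i ∈ s, f i ∈ B.nonunits := by
  by_contra hcon
  push Not at hcon
  have h1 : ∀ t : Multiset ι, (∀ i ∈ t, f i ∉ B.nonunits) → 1 ≤ B.valuation (t.map f).prod := by
    intro t
    induction t using Multiset.induction_on with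
    | empty => intro _; simp
    | cons a t ih =>
      intro ht
      rw [Multiset.map_cons, Multiset.prod_cons, map_mul]
      have h2 := ih (fun i hi => ht i (Multiset.mem_cons_of_mem hi))
      have h3 : 1 ≤ B.valuation (f a) := by
        have := ht a (Multiset.mem_cons_self a t)
        rw [B.mem_nonunits_iff, not_lt] at this
        exact this
      exact one_le_mul h3 h2
  have h2 := h1 s hcon
  rw [B.mem_nonunits_iff] at h
  exact absurd h (not_lt.2 h2)

/-- an element which is integral over `A` is congruent to an element of `k^alg` -/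
theorem E0_int (P : RatPlace k K) {B : ValuationSubring (Om K)} (h : SC2.Above P.A B) (x : Om K)
    (hx : ((algebraMap K (Om K)).comp P.A.subtype).IsIntegralElem x) :
    ∃ a ∈ kb k K, x - a ∈ B.nonunits := by
  classical
  obtain ⟨p, hp, hpx⟩ := hx
  have hB := E0_place P h
  have hxB : x ∈ B := SC2.a2_int_mem h ⟨p, hp, hpx⟩
  choose c hc using fun i : ℕ => P.rat (p.coeff i) (p.coeff i).2
  -- the reduction
  let q : k[X] := X ^ p.natDegree + ∑ i ∈ Finset.range p.natDegree, C (c i) * X ^ i
  have hdeg : (∑ i ∈ Finset.range p.natDegree, C (c i) * X ^ i : k[X]).degree < p.natDegree := by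
    refine lt_of_le_of_lt (degree_sum_le _ _) ?_
    rw [Finset.sup_lt_iff (WithBot.bot_lt_coe _)]
    intro i hi
    refine lt_of_le_of_lt (degree_C_mul_X_pow_le i (c i)) ?_
    exact_mod_cast Finset.mem_range.1 hi
  have hq : q.Monic := monic_X_pow_add hdeg
  have hqx : aeval x q ∈ B.nonunits := by
    have h1 : aeval x q = x ^ p.natDegree + ∑ i ∈ Finset.range p.natDegree,
        algebraMap k (Om K) (c i) * x ^ i := by
      simp only [q, map_add, map_pow, aeval_X, map_sum, map_mul, aeval_C]
    have h2 : x ^ p.natDegree + ∑ i ∈ Finset.range p.natDegree,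
        algebraMap K (Om K) (p.coeff i : K) * x ^ i = 0 := by
      rw [← hpx, eval₂_eq_sum_range, Finset.sum_range_succ, hp.coeff_natDegree]
      simp only [RingHom.coe_comp, Function.comp_apply, map_one]
      rw [one_mul, add_comm]
      rfl
    have h3 : aeval x q = -∑ i ∈ Finset.range p.natDegree,
        algebraMap K (Om K) ((p.coeff i : K) - algebraMap k K (c i)) * x ^ i := by
      rw [h1]
      have h4 : ∑ i ∈ Finset.range p.natDegree,
          algebraMap K (Om K) ((p.coeff i : K) - algebraMap k K (c i)) * x ^ i =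
          ∑ i ∈ Finset.range p.natDegree, algebraMap K (Om K) (p.coeff i : K) * x ^ i -
          ∑ i ∈ Finset.range p.natDegree, algebraMap k (Om K) (c i) * x ^ i := by
        rw [← Finset.sum_sub_distrib]
        refine Finset.sum_congr rfl fun i _ => ?_
        rw [map_sub, ← E0_alg, sub_mul]
      rw [h4]
      linear_combination h2
    rw [h3, B.mem_nonunits_iff, Valuation.map_neg]
    refine Valuation.map_sum_lt _ one_ne_zero fun i _ => ?_
    rw [map_mul, map_pow]
    have h5 := E0_nonunit h _ (hc i)
    rw [B.mem_nonunits_iff] at h5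
    refine mul_lt_one_of_lt_of_le h5 (pow_le_one₀ zero_le ?_)
    exact (B.valuation_le_one_iff x).2 hxB
  -- factor
  have hcl : IsAlgClosed (kb k K) := (algebraicClosure.isAlgClosure k (Om K)).isAlgClosed
  have hsp := IsAlgClosed.splits (q.map (algebraMap k (kb k K)))
  have hfac := hsp.eq_prod_roots_of_monic (hq.map _)
  have h6 : aeval x q = ((q.map (algebraMap k (kb k K))).roots.map
      (fun r : kb k K => x - (r : Om K))).prod := by
    have h7 : aeval x q = aeval x (q.map (algebraMap k (kb k K))) := by
      rw [aeval_map_algebraMap]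
    rw [h7]
    conv_lhs => rw [hfac]
    rw [map_multiset_prod, Multiset.map_map]
    congr 1
    refine Multiset.map_congr rfl fun r _ => ?_
    simp only [Function.comp_apply, map_sub, aeval_X, aeval_C]
    rfl
  rw [h6] at hqx
  obtain ⟨r, _, hr⟩ := E0_prod B _ _ hqx
  exact ⟨r, r.2, hr⟩

/-- every element of `B` is congruent to an element of `k^alg` -/
theorem E0_res (P : RatPlace k K) {B : ValuationSubring (Om K)} (h : SC2.Above P.A B) (x : Om K)
    (hx : x ∈ B) : ∃ a ∈ kb k K, x - a ∈ B.nonunits := by
  have hB := E0_place P h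
  obtain ⟨y, z, hy, hz, hy1, hyz⟩ := SC2.val_frac h x hx
  obtain ⟨b, hb, hb1⟩ := E0_int P h y hy
  obtain ⟨c, hc, hc1⟩ := E0_int P h z hz
  have hb0 : b ≠ 0 := by
    rintro rfl
    rw [sub_zero, B.mem_nonunits_iff, hy1] at hb1
    exact lt_irrefl _ hb1
  have hvb := place_alg_val B hB b hb hb0
  refine ⟨c / b, (kb k K).div_mem hc hb, ?_⟩
  rw [B.mem_nonunits_iff] at hb1 hc1 ⊢
  have h1 : x - c / b = ((z - c) - x * (y - b)) * b⁻¹ := by
    rw [← hyz]
    field_simp
    ring
  rw [h1, map_mul, map_inv₀, hvb, inv_one, mul_one]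
  refine Valuation.map_sub_lt _ hc1 ?_
  rw [map_mul, mul_comm]
  exact mul_lt_one_of_lt_of_le hb1 ((B.valuation_le_one_iff x).2 hx)

/-- an element of `k^alg` in the maximal ideal is `0` -/
theorem E0_zero {B : ValuationSubring (Om K)} (hB : IsPlace k K B) (a : Om K) (ha : a ∈ kb k K)
    (h : a ∈ B.nonunits) : a = 0 := by
  by_contra h0
  have h1 := place_alg_val B hB a ha h0
  rw [B.mem_nonunits_iff, h1] at h
  exact lt_irrefl _ h

end GT
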