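import Mathlib
import Pool.Agent.MP_c1dca2_ag.GT.E0a
import Pool.Agent.MP_c1dca2_ag.SEC.Defs

set_option autoImplicit false

open IsLocalRing Polynomial

namespace GT

open SEC

/-! ## [GT-E2a] the geometric function field `L = k^alg K₁` (file E2a.lean) -/

/-- The function field `k^alg K₁` of the geometric curve. -/
noncomputable def Lg (k K₁ : Type) [Field k] [Field K₁] [Algebra k K₁] :
    IntermediateField K₁ (AlgebraicClosure K₁) :=
  IntermediateField.adjoin K₁
    ((algebraicClosure k (AlgebraicClosure K₁) : IntermediateField k (AlgebraicClosure K₁)) :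
      Set (AlgebraicClosure K₁))

variable {k K₁ : Type} [Field k] [Field K₁] [Algebra k K₁]

/-- `k^alg ⊆ L` -/
noncomputable def incC : kb k K₁ →+* Lg k K₁ where
  toFun := fun a => ⟨(a : Om K₁), IntermediateField.subset_adjoin K₁ _ a.2⟩
  map_one' := rfl
  map_mul' := fun _ _ => rfl
  map_zero' := rfl
  map_add' := fun _ _ => rfl

noncomputable instance algCL : Algebra (kb k K₁) (Lg k K₁) := incC.toAlgebra

theorem algCL_coe (a : kb k K₁) : ((algebraMap (kb k K₁) (Lg k K₁) a : Lg k K₁) : Om K₁) = a := rfl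

theorem algKL_coe (a : K₁) : ((algebraMap K₁ (Lg k K₁) a : Lg k K₁) : Om K₁) =
    algebraMap K₁ (Om K₁) a := rfl

theorem algkL_coe (a : k) : ((algebraMap k (Lg k K₁) a : Lg k K₁) : Om K₁) =
    algebraMap k (Om K₁) a := rfl

theorem algkL_eq (a : k) : algebraMap k (Lg k K₁) a =
    algebraMap (kb k K₁) (Lg k K₁) (algebraMap k (kb k K₁) a) := rfl

theorem algkL_eq' (a : k) : algebraMap k (Lg k K₁) a =
    algebraMap K₁ (Lg k K₁) (algebraMap k K₁ a) := by
  apply Subtype.ext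
  exact E0_alg a

/-- induction on elements of `L` -/
theorem lg_ind {p : Lg k K₁ → Prop} (hC : ∀ a : kb k K₁, p (algebraMap _ _ a))
    (hK : ∀ a : K₁, p (algebraMap _ _ a)) (hadd : ∀ x y, p x → p y → p (x + y))
    (hmul : ∀ x y, p x → p y → p (x * y)) (hinv : ∀ x, p x → p x⁻¹) (x : Lg k K₁) : p x := by
  obtain ⟨x, hx⟩ := x
  induction hx using IntermediateField.adjoin_induction with
  | mem x hx => exact hC ⟨x, hx⟩
  | algebraMap x => exact hK x
  | add x y hx hy h1 h2 => exact hadd _ _ h1 h2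
  | inv x hx h => exact hinv _ h
  | mul x y hx hy h1 h2 => exact hmul _ _ h1 h2

/-- a homomorphism on `L` is determined by its values on `k^alg` and `K₁` -/
theorem lg_hom_ext {F : Type} [Field F] (f g : Lg k K₁ →+* F)
    (hC : ∀ a : kb k K₁, f (algebraMap _ _ a) = g (algebraMap _ _ a))
    (hK : ∀ a : K₁, f (algebraMap _ _ a) = g (algebraMap _ _ a)) : f = g := by
  ext x
  refine lg_ind (p := fun x => f x = g x) hC hK ?_ ?_ ?_ x
  · intro x y h1 h2
    rw [map_add, map_add, h1, h2]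
  · intro x y h1 h2
    rw [map_mul, map_mul, h1, h2]
  · intro x h
    rw [map_inv₀, map_inv₀, h]

/-- elements of `K₁^alg` which are algebraic over `k` -/
theorem mem_kb {a : Om K₁} : a ∈ kb k K₁ ↔ IsIntegral k a := mem_algebraicClosure_iff'

theorem kb_map (σ : Om K₁ ≃ₐ[K₁] Om K₁) {a : Om K₁} (ha : a ∈ kb k K₁) : σ a ∈ kb k K₁ :=
  mem_kb.2 ((mem_kb.1 ha).map (σ.restrictScalars k))

/-- `L` is stable under `Gal(K₁^alg / K₁)` -/
theorem lg_map (σ : Om K₁ ≃ₐ[K₁] Om K₁) (x : Lg k K₁) : σ (x : Om K₁) ∈ Lg k K₁ := by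
  refine lg_ind (p := fun x => σ (x : Om K₁) ∈ Lg k K₁) ?_ ?_ ?_ ?_ ?_ x
  · intro a
    exact IntermediateField.subset_adjoin K₁ _ (kb_map σ a.2)
  · intro a
    rw [algKL_coe, AlgEquiv.commutes]
    exact (Lg k K₁).algebraMap_mem a
  · intro x y h1 h2
    have h3 : σ ((x + y : Lg k K₁) : Om K₁) = σ x + σ y := by
      rw [← map_add]
      rfl
    rw [h3]
    exact add_mem h1 h2
  · intro x y h1 h2
    have h3 : σ ((x * y : Lg k K₁) : Om K₁) = σ x * σ y := by
      rw [← map_mul]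
      rfl
    rw [h3]
    exact mul_mem h1 h2
  · intro x h1
    have h3 : σ ((x⁻¹ : Lg k K₁) : Om K₁) = (σ x)⁻¹ := by
      rw [← map_inv₀]
      rfl
    rw [h3]
    exact (Lg k K₁).inv_mem h1

instance lg_normal : Normal K₁ (Lg k K₁) := by
  rw [IntermediateField.normal_iff_forall_map_le']
  rintro σ _ ⟨x, hx, rfl⟩
  exact lg_map σ ⟨x, hx⟩

theorem lg_galois [CharZero K₁] : IsGalois K₁ (Lg k K₁) := by
  have : Algebra.IsSeparable K₁ (Lg k K₁) := inferInstance
  exact ⟨⟩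

/-- `Gal(L / K₁)` preserves `k^alg` -/
theorem gal_kb (γ : Lg k K₁ ≃+* Lg k K₁) (hγ : ∀ a : K₁, γ (algebraMap _ _ a) = algebraMap _ _ a)
    (a : kb k K₁) : ∃ b : kb k K₁, γ (algebraMap _ _ a) = algebraMap _ _ b := by
  have h1 : IsIntegral k (a : Om K₁) := mem_kb.1 a.2
  have h2 : IsIntegral k (algebraMap (kb k K₁) (Lg k K₁) a) := by
    obtain ⟨p, hp, hpa⟩ := h1
    refine ⟨p, hp, ?_⟩
    apply (algebraMap (Lg k K₁) (Om K₁)).injective
    rw [Polynomial.hom_eval₂, map_zero]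
    exact hpa
  have h3 : IsIntegral k (γ (algebraMap (kb k K₁) (Lg k K₁) a)) := by
    obtain ⟨p, hp, hpa⟩ := h2
    refine ⟨p, hp, ?_⟩
    have h4 := congrArg γ hpa
    rw [map_zero] at h4
    have h5 := Polynomial.hom_eval₂ p (algebraMap k (Lg k K₁)) (γ : Lg k K₁ →+* Lg k K₁)
      (algebraMap (kb k K₁) (Lg k K₁) a)
    have h6 : (γ : Lg k K₁ →+* Lg k K₁).comp (algebraMap k (Lg k K₁)) = algebraMap k (Lg k K₁) := by
      ext c
      rw [RingHom.comp_apply, algkL_eq']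
      exact congrArg _ (hγ _)
    rw [h6] at h5
    exact h5.symm.trans h4
  refine ⟨⟨(γ (algebraMap (kb k K₁) (Lg k K₁) a) : Om K₁), ?_⟩, rfl⟩
  rw [mem_kb]
  obtain ⟨p, hp, hpa⟩ := h3
  refine ⟨p, hp, ?_⟩
  have h4 := congrArg (algebraMap (Lg k K₁) (Om K₁)) hpa
  rw [Polynomial.hom_eval₂, map_zero] at h4
  exact h4

end GT
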