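import Mathlib
import Pool.Agent.MP_c1dca2_ag.GT.E2a
import Pool.Agent.MP_c1dca2_ag.GT.P0
import Pool.Agent.MP_c1dca2_ag.GT.P4c
import Pool.Agent.MP_c1dca2_ag.GT.P5a
import Pool.Agent.MP_c1dca2_ag.SC2.A3
import Pool.Agent.MP_c1dca2_ag.SC2.AB
import Pool.Agent.MP_c1dca2_ag.SC2.B1
import Pool.Agent.MP_c1dca2_ag.SEC.Defs

set_option autoImplicit false

open IsLocalRing Polynomial

namespace GT

open SEC

/-! ## [GT-E2b] a function of `K₁` separating a place from its conjugate (file E2b.lean) -/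

section general

variable {C L : Type} [Field C] [Field L] [Algebra C L]

theorem pl_res [CharZero C] [IsAlgClosed C] (hF : FF C L) {P : ValuationSubring L} (hP : IsPl C P)
    (z : L) (hz : z ∈ P) : ∃ c : C, z - algebraMap C L c ∈ P.nonunits := by
  obtain ⟨o, ho⟩ := exists_ord hF hP
  obtain ⟨c, hc⟩ := ho.res z hz
  refine ⟨c, ?_⟩
  rw [P.mem_nonunits_iff_or]
  by_cases h0 : z - algebraMap C L c = 0
  · exact Or.inl h0
  · right
    intro h1
    have h2 := (ho.mem _ (inv_ne_zero h0)).1 h1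
    rw [ord_inv ho h0] at h2
    rcases hc with hc | hc
    · exact h0 hc
    · omega

theorem pl_zero {P : ValuationSubring L} (hP : IsPl C P) {c : C}
    (h : algebraMap C L c ∈ P.nonunits) : c = 0 := by
  rw [P.mem_nonunits_iff_or] at h
  rcases h with h | h
  · exact (map_eq_zero _).1 h
  · exact absurd (by rw [← map_inv₀]; exact hP.1 _) h

theorem pl_unique {P : ValuationSubring L} (hP : IsPl C P) {z : L} {c c' : C}
    (h : z - algebraMap C L c ∈ P.nonunits) (h' : z - algebraMap C L c' ∈ P.nonunits) : c = c' := by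
  have h1 : algebraMap C L (c - c') ∈ P.nonunits := by
    have h2 : algebraMap C L (c - c') = (z - algebraMap C L c') - (z - algebraMap C L c) := by
      rw [map_sub]
      ring
    rw [h2]
    exact P.nonunits.sub_mem h' h
  exact sub_eq_zero.1 (pl_zero hP h1)

theorem pl_mem {P : ValuationSubring L} (hP : IsPl C P) {z : L} {c : C}
    (h : z - algebraMap C L c ∈ P.nonunits) : z ∈ P := by
  have h1 := P.nonunits_subset h
  have h2 := P.add_mem _ _ h1 (hP.1 c)
  rwa [sub_add_cancel] at h2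

end general

variable {k K₁ : Type} [Field k] [Field K₁] [Algebra k K₁]

/-- an automorphism of `L / K₁` which fixes the values at `P` of the functions in `K₁` stabilises `P` -/
theorem e2_conj [CharZero k] (hF : FF (kb k K₁) (Lg k K₁)) {P : ValuationSubring (Lg k K₁)}
    (hP : IsPl (kb k K₁) P) (σ : Lg k K₁ ≃ₐ[K₁] Lg k K₁)
    (h : ∀ (z : K₁) (a : kb k K₁), algebraMap K₁ (Lg k K₁) z - algebraMap _ _ a ∈ P.nonunits →
      σ (algebraMap _ _ a) = algebraMap _ _ a) (z : Lg k K₁) : σ z ∈ P ↔ z ∈ P := by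
  have hchar : CharZero K₁ := charZero_of_injective_algebraMap (algebraMap k K₁).injective
  have hcl : IsAlgClosed (kb k K₁) := SC2.kb_isAlgClosed
  have hgal : IsGalois K₁ (Lg k K₁) := lg_galois
  have hab : SC2.Above (P.comap (algebraMap K₁ (Lg k K₁))) P := fun a => Iff.rfl
  -- the residue field
  let ι₀ : kb k K₁ →+* P := (algebraMap (kb k K₁) (Lg k K₁)).codRestrict P.toSubring hP.1
  let ι : kb k K₁ →+* ResidueField P := (residue P).comp ι₀
  have hι : ∀ (a : kb k K₁) (x : P), ι a = residue P x ↔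
      (x : Lg k K₁) - algebraMap _ _ a ∈ P.nonunits := by
    intro a x
    change residue P (ι₀ a) = residue P x ↔ _
    rw [eq_comm, ← sub_eq_zero, ← map_sub, residue_eq_zero_iff]
    exact (ValuationSubring.coe_mem_nonunits_iff (A := P) (a := x - ι₀ a)).symm
  have hbij : Function.Bijective ι := by
    refine ⟨ι.injective, fun r => ?_⟩
    obtain ⟨⟨x, hx⟩, rfl⟩ := residue_surjective r
    obtain ⟨c, hc⟩ := pl_res hF hP x hx
    exact ⟨c, (hι _ _).2 hc⟩
  let e : kb k K₁ ≃+* ResidueField P := RingEquiv.ofBijective ι hbij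
  -- the restriction of `σ` to `k^alg`
  have hkb : ∀ (σ : Lg k K₁ ≃ₐ[K₁] Lg k K₁) (a : kb k K₁), ∃ b : kb k K₁,
      σ (algebraMap _ _ a) = algebraMap _ _ b := fun σ a =>
    gal_kb (σ : Lg k K₁ ≃+* Lg k K₁) (fun x => σ.commutes x) a
  have hinjC : Function.Injective (algebraMap (kb k K₁) (Lg k K₁)) :=
    (algebraMap (kb k K₁) (Lg k K₁)).injective
  choose f hf using fun a => hkb σ a
  choose f' hf' using fun a => hkb σ⁻¹ a
  let τ : kb k K₁ ≃+* kb k K₁ :=
    { toFun := f
      invFun := f'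
      left_inv := by
        intro a
        apply hinjC
        rw [← hf', ← hf, ← AlgEquiv.mul_apply, inv_mul_cancel, AlgEquiv.one_apply]
      right_inv := by
        intro a
        apply hinjC
        rw [← hf, ← hf', ← AlgEquiv.mul_apply, mul_inv_cancel, AlgEquiv.one_apply]
      map_mul' := by
        intro a b
        apply hinjC
        rw [← hf, map_mul, map_mul, map_mul, hf, hf]
      map_add' := by
        intro a b
        apply hinjC
        rw [← hf, map_add, map_add, map_add, hf, hf] }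
  have hτ : ∀ a, σ (algebraMap _ _ a) = algebraMap (kb k K₁) (Lg k K₁) (τ a) := hf
  let θ : ResidueField P ≃+* ResidueField P := (e.symm.trans τ).trans e
  have hθ : ∀ a, θ (e a) = e (τ a) := by
    intro a
    simp [θ]
  obtain ⟨σ', hσ', hσ1⟩ := SC2.exists_lift hab θ (by
    intro a ha
    obtain ⟨c, hc⟩ := pl_res hF hP _ ha
    have h1 : e c = residue P ⟨algebraMap K₁ (Lg k K₁) a, ha⟩ := (hι _ _).2 hc
    rw [← h1, hθ]
    congr 1
    apply hinjC
    rw [← hτ]
    exact h a c hc)
  have heq : σ' = σ := by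
    have h1 : (σ' : Lg k K₁ →+* Lg k K₁) = (σ : Lg k K₁ →+* Lg k K₁) := by
      apply lg_hom_ext
      · intro a
        obtain ⟨b, hb⟩ := hkb σ' a
        have h2 := hσ1 _ (hP.1 a)
        have h3 : e a = residue P ⟨algebraMap _ _ a, hP.1 a⟩ := rfl
        rw [← h3, hθ] at h2
        have h4 : (algebraMap _ _ b : Lg k K₁) - algebraMap _ _ (τ a) ∈ P.nonunits := by
          rw [← hb]
          exact (hι _ _).1 h2.symm
        rw [← map_sub] at h4
        have h5 := sub_eq_zero.1 (pl_zero hP h4)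
        change σ' _ = σ _
        rw [hb, hτ, h5]
      · intro a
        change σ' _ = σ _
        rw [AlgEquiv.commutes, AlgEquiv.commutes]
    ext x
    exact congrArg _ (DFunLike.congr_fun h1 x)
  rw [← heq]
  exact hσ' z

/-- the functions in `K₁` whose value at `P` is fixed by `σ` -/
def e2V (P : ValuationSubring (Lg k K₁)) (hP : IsPl (kb k K₁) P) (σ : Lg k K₁ ≃ₐ[K₁] Lg k K₁) :
    Submodule k K₁ where
  carrier := {x | ∃ a : kb k K₁, σ (algebraMap _ _ a) = algebraMap _ _ a ∧
    algebraMap K₁ (Lg k K₁) x - algebraMap _ _ a ∈ P.nonunits}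
  zero_mem' := ⟨0, by rw [map_zero, map_zero], by
    rw [map_zero, map_zero, sub_zero]
    exact P.nonunits.zero_mem⟩
  add_mem' := by
    rintro x y ⟨a, ha, hxa⟩ ⟨b, hb, hyb⟩
    refine ⟨a + b, by rw [map_add, map_add, ha, hb], ?_⟩
    have h1 : algebraMap K₁ (Lg k K₁) (x + y) - algebraMap _ _ (a + b) =
        (algebraMap K₁ (Lg k K₁) x - algebraMap _ _ a) +
        (algebraMap K₁ (Lg k K₁) y - algebraMap _ _ b) := by
      rw [map_add, map_add]
      ring
    rw [h1]
    exact P.nonunits.add_mem hxa hyb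
  smul_mem' := by
    rintro c x ⟨a, ha, hxa⟩
    refine ⟨algebraMap k _ c * a, ?_, ?_⟩
    · rw [map_mul, map_mul, ha, ← algkL_eq, algkL_eq', AlgEquiv.commutes]
    · have h1 : algebraMap K₁ (Lg k K₁) (c • x) - algebraMap _ _ (algebraMap k (kb k K₁) c * a) =
          algebraMap k (Lg k K₁) c * (algebraMap K₁ (Lg k K₁) x - algebraMap _ _ a) := by
        rw [Algebra.smul_def, map_mul, map_mul, ← algkL_eq, ← algkL_eq']
        ring
      rw [h1]
      have h2 : algebraMap k (Lg k K₁) c ∈ P := by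
        rw [algkL_eq]
        exact hP.1 _
      rw [P.mem_nonunits_iff] at hxa ⊢
      rw [map_mul, mul_comm]
      exact mul_lt_one_of_lt_of_le hxa ((P.valuation_le_one_iff _).2 h2)

/-- the functions in `K₁` without poles in `OM` -/
def e2W (OM : Finset (ValuationSubring (Lg k K₁))) (hOM : ∀ P ∈ OM, IsPl (kb k K₁) P) :
    Submodule k K₁ where
  carrier := {x | ∀ P ∈ OM, algebraMap K₁ (Lg k K₁) x ∈ P}
  zero_mem' := fun P _ => by
    rw [map_zero]
    exact P.zero_mem
  add_mem' := by
    intro x y hx hy P hP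
    rw [map_add]
    exact P.add_mem _ _ (hx P hP) (hy P hP)
  smul_mem' := by
    intro c x hx P hP
    rw [Algebra.smul_def, map_mul]
    refine P.mul_mem _ _ ?_ (hx P hP)
    rw [← algkL_eq', algkL_eq]
    exact (hOM P hP).1 _

theorem e2_exists_x [CharZero k] (hF : FF (kb k K₁) (Lg k K₁))
    (OM : Finset (ValuationSubring (Lg k K₁))) (hOM : ∀ P ∈ OM, IsPl (kb k K₁) P)
    (σ : Lg k K₁ ≃ₐ[K₁] Lg k K₁) (hσ : ∀ P ∈ OM, ¬ ∀ z, σ z ∈ P ↔ z ∈ P) :
    ∃ x : K₁, ∀ P ∈ OM, algebraMap K₁ (Lg k K₁) x ∈ P ∧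
      ∀ a : kb k K₁, algebraMap K₁ (Lg k K₁) x - algebraMap _ _ a ∈ P.nonunits →
        σ (algebraMap _ _ a) ≠ algebraMap _ _ a := by
  classical
  have hcl : IsAlgClosed (kb k K₁) := SC2.kb_isAlgClosed
  -- the subspaces are proper
  have hne : ∀ P : OM, (e2V P.1 (hOM P.1 P.2) σ).comap (e2W OM hOM).subtype ≠ ⊤ := by
    rintro ⟨P, hP⟩ htop
    obtain ⟨z, a, hza, hσa⟩ : ∃ (z : K₁) (a : kb k K₁),
        algebraMap K₁ (Lg k K₁) z - algebraMap _ _ a ∈ P.nonunits ∧
        σ (algebraMap _ _ a) ≠ algebraMap _ _ a := by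
      by_contra hcon
      push Not at hcon
      exact hσ P hP (e2_conj hF (hOM P hP) σ hcon)
    -- the constant
    obtain ⟨c, hc⟩ : ∃ c : k, ∀ P' ∈ OM, algebraMap K₁ (Lg k K₁) (z - algebraMap k K₁ c) ∉
        P'.nonunits := by
      have hfin : {c : k | ∃ P' ∈ OM, algebraMap K₁ (Lg k K₁) (z - algebraMap k K₁ c) ∈
          P'.nonunits}.Finite := by
        have h1 : {c : k | ∃ P' ∈ OM, algebraMap K₁ (Lg k K₁) (z - algebraMap k K₁ c) ∈
          P'.nonunits} = ⋃ P' ∈ OM, {c : k | algebraMap K₁ (Lg k K₁) (z - algebraMap k K₁ c) ∈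
          P'.nonunits} := by
          ext c
          simp
        rw [h1]
        refine Set.Finite.biUnion OM.finite_toSet fun P' hP' => ?_
        apply Set.Subsingleton.finite
        intro c hc c' hc'
        have h2 : ∀ c : k, algebraMap K₁ (Lg k K₁) (z - algebraMap k K₁ c) =
            algebraMap K₁ (Lg k K₁) z - algebraMap _ _ (algebraMap k (kb k K₁) c) := by
          intro c
          rw [map_sub, ← algkL_eq, ← algkL_eq']
        have h3 : algebraMap k (kb k K₁) c = algebraMap k (kb k K₁) c' := by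
          apply pl_unique (hOM P' hP') (z := algebraMap K₁ (Lg k K₁) z)
          · rw [← h2]
            exact hc
          · rw [← h2]
            exact hc'
        exact (algebraMap k (kb k K₁)).injective h3
      have h2 := hfin.infinite_compl.nonempty
      obtain ⟨c, hc⟩ := h2
      refine ⟨c, fun P' hP' hcon => hc ⟨P', hP', hcon⟩⟩
    have hw : ∀ P' ∈ OM, algebraMap K₁ (Lg k K₁) (z - algebraMap k K₁ c)⁻¹ ∈ P' := by
      intro P' hP'
      have h1 := hc P' hP'
      rw [P'.mem_nonunits_iff_or] at h1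
      push Not at h1
      rw [map_inv₀]
      exact h1.2
    have hmem : (⟨(z - algebraMap k K₁ c)⁻¹, hw⟩ : e2W OM hOM) ∈
        (e2V P (hOM P hP) σ).comap (e2W OM hOM).subtype := by
      rw [htop]
      trivial
    obtain ⟨b, hb1, hb2⟩ := hmem
    change algebraMap K₁ (Lg k K₁) (z - algebraMap k K₁ c)⁻¹ - _ ∈ P.nonunits at hb2
    -- `b (a - c) = 1`
    have h1 := hc P hP
    rw [P.mem_nonunits_iff_or] at h1
    push Not at h1
    set w : Lg k K₁ := algebraMap K₁ (Lg k K₁) (z - algebraMap k K₁ c) with hwdef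
    have hw0 : w ≠ 0 := h1.1
    have hwP : w ∈ P := by
      rw [hwdef, map_sub, ← algkL_eq', algkL_eq]
      exact P.sub_mem (pl_mem (hOM P hP) hza) ((hOM P hP).1 _)
    have h3 : w - algebraMap _ _ (a - algebraMap k (kb k K₁) c) ∈ P.nonunits := by
      have h4 : w - algebraMap _ _ (a - algebraMap k (kb k K₁) c) =
          algebraMap K₁ (Lg k K₁) z - algebraMap _ _ a := by
        rw [hwdef, map_sub, map_sub, ← algkL_eq', ← algkL_eq]
        ring
      rw [h4]
      exact hza
    have h5 : b * (a - algebraMap k (kb k K₁) c) = 1 := by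
      have h6 : algebraMap (kb k K₁) (Lg k K₁) (1 - b * (a - algebraMap k (kb k K₁) c)) ∈
          P.nonunits := by
        have h7 : algebraMap (kb k K₁) (Lg k K₁) (1 - b * (a - algebraMap k (kb k K₁) c)) =
            w * (w⁻¹ - algebraMap _ _ b) + algebraMap _ _ b *
              (w - algebraMap _ _ (a - algebraMap k (kb k K₁) c)) := by
          rw [map_sub, map_mul, map_one, mul_sub, mul_inv_cancel₀ hw0]
          ring
        rw [h7]
        apply P.nonunits.add_mem
        · rw [map_inv₀, P.mem_nonunits_iff] at hb2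
          rw [P.mem_nonunits_iff, map_mul, mul_comm]
          exact mul_lt_one_of_lt_of_le hb2 ((P.valuation_le_one_iff _).2 hwP)
        · rw [P.mem_nonunits_iff] at h3 ⊢
          rw [map_mul, mul_comm]
          exact mul_lt_one_of_lt_of_le h3 ((P.valuation_le_one_iff _).2 ((hOM P hP).1 b))
      exact (sub_eq_zero.1 (pl_zero (hOM P hP) h6)).symm
    apply hσa
    have h8 : a = b⁻¹ + algebraMap k (kb k K₁) c := by
      rw [← eq_inv_of_mul_eq_one_right h5]
      ring
    rw [h8, map_add, map_add, map_inv₀, map_inv₀, hb1, ← algkL_eq, algkL_eq', AlgEquiv.commutes]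
  have hcov : ⋃ P : OM, ((e2V P.1 (hOM P.1 P.2) σ).comap (e2W OM hOM).subtype :
      Set (e2W OM hOM)) ≠ Set.univ := by
    intro h
    have hinf : Infinite k := inferInstance
    obtain ⟨P, hP⟩ := Subspace.exists_eq_top_of_iUnion_eq_univ h
    exact hne P hP
  rw [Set.ne_univ_iff_exists_notMem] at hcov
  obtain ⟨⟨x, hx⟩, hx2⟩ := hcov
  refine ⟨x, fun P hP => ⟨hx P hP, fun a ha hσa => hx2 ?_⟩⟩
  rw [Set.mem_iUnion]
  exact ⟨⟨P, hP⟩, a, hσa, ha⟩

end GT
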