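import Mathlib
import Pool.Agent.MP_c1dca2_ag.GT.E0
import Pool.Agent.MP_c1dca2_ag.GT.E0a
import Pool.Agent.MP_c1dca2_ag.GT.E2a
import Pool.Agent.MP_c1dca2_ag.SEC.Defs
import Pool.Agent.MP_c1dca2_ag.SEC.M4

set_option autoImplicit false

open IsLocalRing Polynomial

namespace GT

open SEC

/-! ## [GT-E2c] automorphisms of `k^alg` extend to `L`; polynomials with given roots (file E2c.lean) -/

section gal

variable {k K₁ : Type} [Field k] [Field K₁] [Algebra k K₁]

/-- `k` is algebraically closed in `K₁`: every automorphism of `k^alg / k` extends to `K₁^alg / K₁` -/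
theorem e2_lift_om [CharZero k] (hcl : ∀ a : K₁, IsIntegral k a → a ∈ Set.range (algebraMap k K₁))
    (τ : kb k K₁ ≃ₐ[k] kb k K₁) :
    ∃ σ : Om K₁ ≃ₐ[K₁] Om K₁, ∀ a : kb k K₁, σ (a : Om K₁) = (τ a : Om K₁) := by
  have hchar : CharZero K₁ := charZero_of_injective_algebraMap (algebraMap k K₁).injective
  have hn' : Normal k (kb k K₁) := E0_normal_kb
  have hg := m4_isGalois (k := k) (K := K₁)
  let π : (Om K₁ ≃ₐ[K₁] Om K₁) →* (kb k K₁ ≃ₐ[k] kb k K₁) :=
    (AlgEquiv.restrictNormalHom (F := k) (K₁ := Om K₁) (kb k K₁)).comp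
      (AlgEquiv.restrictScalarsHom k)
  have hπ : ∀ (σ : Om K₁ ≃ₐ[K₁] Om K₁) (a : kb k K₁), (π σ a : Om K₁) = σ (a : Om K₁) :=
    fun σ a => AlgEquiv.restrictNormal_commutes (σ.restrictScalars k) (kb k K₁) a
  have hπc : Continuous π := by
    apply E0_cont
    intro z
    have h1 : {σ : Om K₁ ≃ₐ[K₁] Om K₁ | π σ z = z} =
        {σ : Om K₁ ≃ₐ[K₁] Om K₁ | σ (z : Om K₁) = z} := by
      ext σ
      rw [Set.mem_ofPred_eq, Set.mem_ofPred_eq, ← hπ, Subtype.ext_iff]
    rw [h1]
    exact E0_open _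
  have hT2 : T2Space (kb k K₁ ≃ₐ[k] kb k K₁) := krullTopology_t2
  have hclosed : IsClosed (π.range : Set (kb k K₁ ≃ₐ[k] kb k K₁)) := by
    rw [MonoidHom.coe_range]
    exact (isCompact_range hπc).isClosed
  let H : ClosedSubgroup (kb k K₁ ≃ₐ[k] kb k K₁) := ⟨π.range, hclosed⟩
  have hbot : IntermediateField.fixedField H.toSubgroup = ⊥ := by
    rw [eq_bot_iff]
    intro a ha
    rw [IntermediateField.mem_fixedField_iff] at ha
    have h1 : ∀ σ : Om K₁ ≃ₐ[K₁] Om K₁, σ (a : Om K₁) = a := by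
      intro σ
      have h2 := ha (π σ) ⟨σ, rfl⟩
      rw [← hπ, h2]
    have h2 : (a : Om K₁) ∈ Set.range (algebraMap K₁ (Om K₁)) := by
      rw [InfiniteGalois.mem_range_algebraMap_iff_fixed]
      exact h1
    obtain ⟨b, hb⟩ := h2
    have h3 : IsIntegral k b := by
      have h4 : IsIntegral k (a : Om K₁) := mem_kb.1 a.2
      rw [← hb] at h4
      exact (isIntegral_algebraMap_iff (algebraMap K₁ (Om K₁)).injective).1 h4
    obtain ⟨c, hc⟩ := hcl b h3
    rw [IntermediateField.mem_bot]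
    refine ⟨c, Subtype.ext ?_⟩
    rw [← hb, ← hc, ← E0_alg]
    rfl
  have h1 := InfiniteGalois.fixingSubgroup_fixedField H
  rw [hbot, IntermediateField.fixingSubgroup_bot] at h1
  have h2 : τ ∈ H.1 := by
    rw [← h1]
    trivial
  obtain ⟨σ, hσ⟩ := h2
  refine ⟨σ, fun a => ?_⟩
  rw [← hπ, hσ]

/-- restriction to `L` -/
theorem e2_restrict (σ : Om K₁ ≃ₐ[K₁] Om K₁) :
    ∃ γ : Lg k K₁ ≃ₐ[K₁] Lg k K₁, ∀ z : Lg k K₁, (γ z : Om K₁) = σ (z : Om K₁) :=
  ⟨AlgEquiv.restrictNormal σ (Lg k K₁), fun z => AlgEquiv.restrictNormal_commutes σ (Lg k K₁) z⟩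

theorem e2_lift [CharZero k] (hcl : ∀ a : K₁, IsIntegral k a → a ∈ Set.range (algebraMap k K₁))
    (τ : kb k K₁ ≃ₐ[k] kb k K₁) :
    ∃ γ : Lg k K₁ ≃ₐ[K₁] Lg k K₁, ∀ a : kb k K₁, γ (algebraMap _ _ a) = algebraMap _ _ (τ a) := by
  obtain ⟨σ, hσ⟩ := e2_lift_om hcl τ
  obtain ⟨γ, hγ⟩ := e2_restrict (k := k) σ
  refine ⟨γ, fun a => Subtype.ext ?_⟩
  rw [hγ]
  exact hσ a

/-- restriction to `k^alg` -/
theorem e2_res_kb (γ : Lg k K₁ ≃ₐ[K₁] Lg k K₁) :
    ∃ τ : kb k K₁ ≃ₐ[k] kb k K₁, ∀ a : kb k K₁, γ (algebraMap _ _ a) = algebraMap _ _ (τ a) := by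
  have hkb : ∀ (σ : Lg k K₁ ≃ₐ[K₁] Lg k K₁) (a : kb k K₁), ∃ b : kb k K₁,
      σ (algebraMap _ _ a) = algebraMap _ _ b := fun σ a =>
    gal_kb (σ : Lg k K₁ ≃+* Lg k K₁) (fun x => σ.commutes x) a
  have hinjC : Function.Injective (algebraMap (kb k K₁) (Lg k K₁)) :=
    (algebraMap (kb k K₁) (Lg k K₁)).injective
  choose f hf using fun a => hkb γ a
  choose f' hf' using fun a => hkb γ⁻¹ a
  exact ⟨
    { toFun := f
      invFun := f'
      left_inv := by
        intro a
        apply hinjC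
        rw [← hf', ← hf, ← AlgEquiv.mul_apply, inv_mul_cancel, AlgEquiv.one_apply]
      right_inv := by
        intro a
        apply hinjC
        rw [← hf, ← hf', ← AlgEquiv.mul_apply, mul_inv_cancel, AlgEquiv.one_apply]
      map_mul' := by
        intro a b
        apply hinjC
        rw [← hf, map_mul, map_mul, map_mul, hf, hf]
      map_add' := by
        intro a b
        apply hinjC
        rw [← hf, map_add, map_add, map_add, hf, hf]
      commutes' := by
        intro a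
        apply hinjC
        rw [← hf, ← algkL_eq, algkL_eq', AlgEquiv.commutes] }, hf⟩

end gal

section poly

variable {k C : Type} [Field k] [CharZero k] [Field C] [Algebra k C] [Algebra.IsAlgebraic k C]

/-- a separable polynomial over `k` whose roots are the conjugates of the elements of `Z` -/
theorem e2_poly (Z : Finset C) : ∃ g : k[X], g.Separable ∧ (∀ z ∈ Z, aeval z g = 0) ∧
    ∀ (F : Type) [Field F] [Algebra k F] (w : F), aeval w g = 0 →
      ∃ z ∈ Z, aeval w (minpoly k z) = 0 := by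
  classical
  refine ⟨∏ m ∈ Z.image (fun z => minpoly k z), m, ?_, ?_, ?_⟩
  · refine separable_prod' (f := fun m : k[X] => m) ?_ ?_
    · intro m hm m' hm' hne
      obtain ⟨z, hz, rfl⟩ := Finset.mem_image.1 hm
      obtain ⟨z', hz', rfl⟩ := Finset.mem_image.1 hm'
      have h1 : Irreducible (minpoly k z) := minpoly.irreducible (Algebra.IsIntegral.isIntegral z)
      have h2 : Irreducible (minpoly k z') := minpoly.irreducible (Algebra.IsIntegral.isIntegral z')
      apply (h1.coprime_iff_not_dvd).2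
      intro hd
      apply hne
      exact eq_of_monic_of_associated (minpoly.monic (Algebra.IsIntegral.isIntegral z))
        (minpoly.monic (Algebra.IsIntegral.isIntegral z')) (h1.associated_of_dvd h2 hd)
    · intro m hm
      obtain ⟨z, hz, rfl⟩ := Finset.mem_image.1 hm
      exact (minpoly.irreducible (Algebra.IsIntegral.isIntegral z)).separable
  · intro z hz
    rw [map_prod]
    apply Finset.prod_eq_zero (Finset.mem_image_of_mem _ hz)
    exact minpoly.aeval k z
  · intro F _ _ w hw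
    rw [map_prod, Finset.prod_eq_zero_iff] at hw
    obtain ⟨m, hm, hw⟩ := hw
    obtain ⟨z, hz, rfl⟩ := Finset.mem_image.1 hm
    exact ⟨z, hz, hw⟩

/-- an automorphism of an algebraically closed field restricts to the splitting field -/
theorem e2_split [IsAlgClosed C] (g : k[X]) (τ : C ≃ₐ[k] C) (h : ∀ w : C, aeval w g = 0 → τ w ≠ w) :
    ∃ σ : g.SplittingField ≃ₐ[k] g.SplittingField,
      ∀ r : g.SplittingField, aeval r g = 0 → σ r ≠ r := by
  let ψ : g.SplittingField →ₐ[k] C := IsAlgClosed.lift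
  let _ : Algebra g.SplittingField C := ψ.toRingHom.toAlgebra
  have _ : IsScalarTower k g.SplittingField C := IsScalarTower.of_algebraMap_eq fun x =>
    (ψ.commutes x).symm
  refine ⟨AlgEquiv.restrictNormal τ g.SplittingField, fun r hr hcon => ?_⟩
  have h1 := AlgEquiv.restrictNormal_commutes τ g.SplittingField r
  rw [hcon] at h1
  apply h (algebraMap g.SplittingField C r) ?_ h1.symm
  rw [aeval_algebraMap_apply, hr, map_zero]

end poly

end GT
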