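import Mathlib
import Pool.Agent.MP_c1dca2_ag.GT.E2a
import Pool.Agent.MP_c1dca2_ag.GT.E2b
import Pool.Agent.MP_c1dca2_ag.GT.E2c
import Pool.Agent.MP_c1dca2_ag.GT.P0
import Pool.Agent.MP_c1dca2_ag.SC2.B1
import Pool.Agent.MP_c1dca2_ag.SEC.Defs

set_option autoImplicit false

open IsLocalRing Polynomial

namespace GT

open SEC

/-! ## [GT-E2d] the branch points and their conjugates; the polynomial of their values
(file E2d.lean) -/

/-- The branch points of `y ^ ℓ = h`: the places of `k^alg K₁` at which the order of `h` is not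
divisible by `ℓ`. -/
def Br (k K₁ : Type) [Field k] [Field K₁] [Algebra k K₁] (ℓ : ℕ) (h : K₁) :
    Set (ValuationSubring (Lg k K₁)) :=
  {P | IsPl (kb k K₁) P ∧
    ∀ z : Lg k K₁, P.valuation (algebraMap K₁ (Lg k K₁) h) ≠ P.valuation z ^ ℓ}

/-- transport of a valuation ring -/
def pcj {L : Type} [Field L] (P : ValuationSubring L) (γ : L ≃+* L) : ValuationSubring L :=
  P.comap (γ.symm : L →+* L)

section transport

variable {L : Type} [Field L] (P : ValuationSubring L) (γ : L ≃+* L)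

theorem mem_pcj (z : L) : z ∈ pcj P γ ↔ γ.symm z ∈ P := Iff.rfl

theorem map_mem_pcj (z : L) : γ z ∈ pcj P γ ↔ z ∈ P := by
  rw [mem_pcj, RingEquiv.symm_apply_apply]

theorem pcj_nonunits (z : L) : z ∈ (pcj P γ).nonunits ↔ γ.symm z ∈ P.nonunits := by
  rw [ValuationSubring.mem_nonunits_iff_or, ValuationSubring.mem_nonunits_iff_or, mem_pcj,
    map_inv₀]
  simp

theorem map_pcj_nonunits (z : L) : γ z ∈ (pcj P γ).nonunits ↔ z ∈ P.nonunits := by
  rw [pcj_nonunits, RingEquiv.symm_apply_apply]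

theorem pcj_le (a b : L) : (pcj P γ).valuation a ≤ (pcj P γ).valuation b ↔
    P.valuation (γ.symm a) ≤ P.valuation (γ.symm b) := by
  rw [ValuationSubring.valuation_le_iff, ValuationSubring.valuation_le_iff]
  constructor
  · rintro ⟨⟨u, hu⟩, h⟩
    exact ⟨⟨γ.symm u, hu⟩, by rw [← h, map_mul]⟩
  · rintro ⟨⟨u, hu⟩, h⟩
    refine ⟨⟨γ u, (map_mem_pcj P γ u).2 hu⟩, ?_⟩
    have h1 := congrArg γ h
    rw [map_mul, RingEquiv.apply_symm_apply, RingEquiv.apply_symm_apply] at h1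
    exact h1

theorem pcj_eq (a b : L) : (pcj P γ).valuation a = (pcj P γ).valuation b ↔
    P.valuation (γ.symm a) = P.valuation (γ.symm b) := by
  rw [le_antisymm_iff, le_antisymm_iff, pcj_le, pcj_le]

end transport

variable {k K₁ : Type} [Field k] [Field K₁] [Algebra k K₁]

theorem pcj_isPl {P : ValuationSubring (Lg k K₁)} (hP : IsPl (kb k K₁) P)
    (γ : Lg k K₁ ≃ₐ[K₁] Lg k K₁) : IsPl (kb k K₁) (pcj P (γ : Lg k K₁ ≃+* Lg k K₁)) := by
  refine ⟨fun c => ?_, fun h => hP.2 ?_⟩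
  · rw [mem_pcj]
    obtain ⟨b, hb⟩ := gal_kb (γ : Lg k K₁ ≃+* Lg k K₁).symm (fun x => by
      rw [RingEquiv.symm_apply_eq]
      exact (γ.commutes x).symm) c
    rw [hb]
    exact hP.1 b
  · ext z
    refine ⟨fun _ => trivial, fun _ => ?_⟩
    rw [← map_mem_pcj P (γ : Lg k K₁ ≃+* Lg k K₁), h]
    trivial

theorem pcj_br {ℓ : ℕ} {h : K₁} {P : ValuationSubring (Lg k K₁)} (hP : P ∈ Br k K₁ ℓ h)
    (γ : Lg k K₁ ≃ₐ[K₁] Lg k K₁) : pcj P (γ : Lg k K₁ ≃+* Lg k K₁) ∈ Br k K₁ ℓ h := by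
  refine ⟨pcj_isPl hP.1 γ, fun z hz => ?_⟩
  rw [← map_pow, pcj_eq, map_pow, map_pow] at hz
  apply hP.2 ((γ : Lg k K₁ ≃+* Lg k K₁).symm z)
  rw [← hz]
  congr 1
  rw [eq_comm, RingEquiv.symm_apply_eq]
  exact (γ.commutes h).symm

/-- The value of a function of `K₁` at the conjugate place. -/
theorem pcj_value {P : ValuationSubring (Lg k K₁)} (γ : Lg k K₁ ≃ₐ[K₁] Lg k K₁)
    {τ : kb k K₁ ≃ₐ[k] kb k K₁} (hτ : ∀ a : kb k K₁, γ (algebraMap _ _ a) = algebraMap _ _ (τ a))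
    {x : K₁} {a : kb k K₁} (h : algebraMap K₁ (Lg k K₁) x - algebraMap _ _ a ∈ P.nonunits) :
    algebraMap K₁ (Lg k K₁) x - algebraMap _ _ (τ a) ∈
      (pcj P (γ : Lg k K₁ ≃+* Lg k K₁)).nonunits := by
  have h1 := (map_pcj_nonunits P (γ : Lg k K₁ ≃+* Lg k K₁) _).2 h
  rw [map_sub] at h1
  have h2 : (γ : Lg k K₁ ≃+* Lg k K₁) (algebraMap K₁ (Lg k K₁) x) = algebraMap K₁ (Lg k K₁) x :=
    γ.commutes x
  have h3 : (γ : Lg k K₁ ≃+* Lg k K₁) (algebraMap _ _ a) = algebraMap _ _ (τ a) := hτ a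
  rwa [h2, h3] at h1

/-- A polynomial whose roots are the values of one function at the branch points, and which has an
automorphism of its splitting field without fixed root. -/
theorem e2_main [CharZero k] (hcl : ∀ a : K₁, IsIntegral k a → a ∈ Set.range (algebraMap k K₁))
    (hF : FF (kb k K₁) (Lg k K₁)) {ℓ : ℕ} {h : K₁} (hfin : (Br k K₁ ℓ h).Finite)
    (σ : Lg k K₁ ≃ₐ[K₁] Lg k K₁) (hσ : ∀ P ∈ Br k K₁ ℓ h, ¬ ∀ z, σ z ∈ P ↔ z ∈ P) :
    ∃ (g : k[X]) (x : K₁), g.Separable ∧ (∃ σ₀ : g.SplittingField ≃ₐ[k] g.SplittingField,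
      ∀ r : g.SplittingField, aeval r g = 0 → σ₀ r ≠ r) ∧
      ∀ P ∈ Br k K₁ ℓ h, ∃ a : kb k K₁,
        algebraMap K₁ (Lg k K₁) x - algebraMap _ _ a ∈ P.nonunits ∧ aeval a g = 0 := by
  classical
  have hac : IsAlgClosed (kb k K₁) := SC2.kb_isAlgClosed
  have hgal : IsGalois k (kb k K₁) := SC2.kb_isGalois
  obtain ⟨x, hx⟩ := e2_exists_x hF hfin.toFinset (fun P hP => (hfin.mem_toFinset.1 hP).1) σ
    (fun P hP => hσ P (hfin.mem_toFinset.1 hP))
  have hval : ∀ P : ValuationSubring (Lg k K₁), ∃ a : kb k K₁, P ∈ Br k K₁ ℓ h →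
      algebraMap K₁ (Lg k K₁) x - algebraMap _ _ a ∈ P.nonunits := by
    intro P
    by_cases hP : P ∈ Br k K₁ ℓ h
    · obtain ⟨a, ha⟩ := pl_res hF hP.1 _ (hx P (hfin.mem_toFinset.2 hP)).1
      exact ⟨a, fun _ => ha⟩
    · exact ⟨0, fun h => absurd h hP⟩
  choose a ha using hval
  obtain ⟨g, hg1, hg2, hg3⟩ := e2_poly (k := k) (hfin.toFinset.image a)
  refine ⟨g, x, hg1, ?_, ?_⟩
  · obtain ⟨τ, hτ⟩ := e2_res_kb σ
    apply e2_split g τ
    intro w hw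
    obtain ⟨z, hz, hwz⟩ := hg3 (kb k K₁) w hw
    obtain ⟨P, hP, rfl⟩ := Finset.mem_image.1 hz
    obtain ⟨τ', hτ'⟩ := minpoly.exists_algEquiv_of_root
      (Algebra.IsAlgebraic.isAlgebraic (R := k) (a P)) hwz
    obtain ⟨γ', hγ'⟩ := e2_lift hcl τ'.symm
    have hτ'' : τ'.symm (a P) = w := by
      rw [← hτ', AlgEquiv.symm_apply_apply]
    have hPB := hfin.mem_toFinset.1 hP
    have h1 := pcj_value γ' hγ' (ha P hPB)
    rw [hτ''] at h1
    have h2 := (hx _ (hfin.mem_toFinset.2 (pcj_br hPB γ'))).2 w h1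
    intro hcon
    apply h2
    rw [hτ, hcon]
  · intro P hP
    exact ⟨a P, ha P hP, hg2 _ (Finset.mem_image_of_mem _ (hfin.mem_toFinset.2 hP))⟩

end GT
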