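import Mathlib
import Pool.Agent.MP_c1dca2_ag.GT.Base
import Pool.Agent.MP_c1dca2_ag.GT.P0
import Pool.Agent.MP_c1dca2_ag.GT.P1a
import Pool.Agent.MP_c1dca2_ag.SC2.A1
import Pool.Agent.MP_c1dca2_ag.SC2.AB

set_option autoImplicit false
set_option linter.unusedVariables false

open IsLocalRing

namespace GT

/-! ## [GT-J2a] places above -/

variable {C N N' : Type} [Field C] [Field N] [Field N'] [Algebra C N] [Algebra C N']

/-- Proof. `SC2.exists_above` for the extension `N' / N` (algebra structure `i.toAlgebra`): `P'` with `z ∈ P ↔ i z ∈ P'`. `IsPl`: constants are in `P`, so in `P'` (`hi`); `P' ≠ ⊤` as `P ≠ ⊤`. -/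
theorem pl_up (i : N →+* N') (hi : ∀ c : C, i (algebraMap C N c) = algebraMap C N' c)
    {P : ValuationSubring N} (hP : IsPl C P) :
    ∃ P' : ValuationSubring N', IsPl C P' ∧ P'.comap i = P := by
  let _ := i.toAlgebra
  obtain ⟨P', hP'⟩ := SC2.exists_above (k := N) (C := N') P
  have h1 : ∀ a : N, i a ∈ P' ↔ a ∈ P := fun a => hP' a
  refine ⟨P', ⟨fun c => ?_, fun ht => ?_⟩, ?_⟩
  · rw [← hi]
    exact (h1 _).2 (hP.1 c)
  · apply hP.2
    rw [eq_top_iff]
    intro a _
    exact (h1 a).1 (ht ▸ ValuationSubring.mem_top (i a))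
  · ext a
    exact h1 a

/-- There is a second place.

Proof. `f ∈ N`, `f ∉ P` (`P ≠ ⊤`). `f⁻¹ ∈ P` is not constant (a nonzero constant and its inverse are in `P`), so by `mem_const` (P1a) there is a place `Q` with `f⁻¹ ∉ Q`; `Q ≠ P`. -/
theorem exists_other [IsAlgClosed C] {P : ValuationSubring N} (hP : IsPl C P) :
    ∃ Q : ValuationSubring N, IsPl C Q ∧ Q ≠ P := by
  obtain ⟨f, hf⟩ : ∃ f : N, f ∉ P := by
    by_contra hn
    push Not at hn
    apply hP.2
    rw [eq_top_iff]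
    intro a _
    exact hn a
  have hf' : f⁻¹ ∈ P := (P.mem_or_inv_mem f).resolve_left hf
  by_contra hn
  push Not at hn
  obtain ⟨c, hc⟩ := mem_const (C := C) f⁻¹ (fun Q hQ => by
    rw [hn Q hQ]
    exact hf')
  apply hf
  have h1 : f = algebraMap C N c⁻¹ := by
    rw [map_inv₀, ← hc, inv_inv]
  rw [h1]
  exact hP.1 _

end GT
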