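import Mathlib
import Pool.Agent.MP_c1dca2_ag.GT.E2a
import Pool.Agent.MP_c1dca2_ag.GT.P0
import Pool.Agent.MP_c1dca2_ag.GT.P1b
import Pool.Agent.MP_c1dca2_ag.SC2.B1
import Pool.Agent.MP_c1dca2_ag.SEC.Defs

set_option autoImplicit false

open IsLocalRing Polynomial

namespace GT

open SEC

/-! ## [GT-E2e] `L / k^alg` is a function field of one variable (file E2e.lean) -/

variable {k K₁ : Type} [Field k] [Field K₁] [Algebra k K₁]

instance tower_kCL : IsScalarTower k (kb k K₁) (Lg k K₁) :=
  IsScalarTower.of_algebraMap_eq fun a => algkL_eq a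

theorem lg_ff [CharZero k] (hfun : ∃ t : K₁, Transcendental k t ∧
    FiniteDimensional (IntermediateField.adjoin k {t}) K₁) : FF (kb k K₁) (Lg k K₁) := by
  classical
  obtain ⟨t, ht, hfd⟩ := hfun
  set x : Lg k K₁ := algebraMap K₁ (Lg k K₁) t with hx
  have hcl : IsAlgClosed (kb k K₁) := SC2.kb_isAlgClosed
  have hgal : IsGalois k (kb k K₁) := SC2.kb_isGalois
  have htr : Transcendental (kb k K₁) x := by
    intro h1
    have h2 : IsAlgebraic k x := h1.restrictScalars k
    apply ht
    have h3 : IsAlgebraic k (algebraMap K₁ (Lg k K₁) t) := h2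
    exact (isAlgebraic_algebraMap_iff (algebraMap K₁ (Lg k K₁)).injective).1 h3
  let F : IntermediateField (kb k K₁) (Lg k K₁) := IntermediateField.adjoin (kb k K₁) {x}
  -- `k(t) → F`
  have hF0 : ∀ z : K₁, z ∈ IntermediateField.adjoin k {t} → algebraMap K₁ (Lg k K₁) z ∈ F := by
    intro z hz
    induction hz using IntermediateField.adjoin_induction with
    | mem z hz =>
      rw [Set.mem_singleton_iff] at hz
      subst hz
      exact IntermediateField.mem_adjoin_simple_self _ _
    | algebraMap a =>
      rw [← algkL_eq', algkL_eq]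
      exact F.algebraMap_mem _
    | add a b ha hb h1 h2 =>
      rw [map_add]
      exact F.add_mem h1 h2
    | inv a ha h1 =>
      rw [map_inv₀]
      exact F.inv_mem h1
    | mul a b ha hb h1 h2 =>
      rw [map_mul]
      exact F.mul_mem h1 h2
  let f : IntermediateField.adjoin k {t} →+* F :=
    ((algebraMap K₁ (Lg k K₁)).comp (algebraMap (IntermediateField.adjoin k {t}) K₁)).codRestrict
      F.toSubring (fun z => hF0 z z.2)
  let b := Module.finBasis (IntermediateField.adjoin k {t}) K₁
  let S : Set (Lg k K₁) := Set.range fun i => algebraMap K₁ (Lg k K₁) (b i)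
  have hSfin : Finite S := (Set.finite_range _).to_subtype
  have hint : ∀ z ∈ S, IsIntegral F z := by
    rintro _ ⟨i, rfl⟩
    have h1 : IsIntegral (IntermediateField.adjoin k {t}) (b i) := Algebra.IsIntegral.isIntegral _
    obtain ⟨p, hp, hpb⟩ := h1
    refine ⟨p.map f, hp.map f, ?_⟩
    rw [eval₂_map]
    have h2 : (algebraMap F (Lg k K₁)).comp f =
        (algebraMap K₁ (Lg k K₁)).comp (algebraMap (IntermediateField.adjoin k {t}) K₁) := rfl
    have h3 := Polynomial.hom_eval₂ p (algebraMap (IntermediateField.adjoin k {t}) K₁)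
      (algebraMap K₁ (Lg k K₁)) (b i)
    rw [hpb, map_zero] at h3
    rw [h2]
    exact h3.symm
  have hfdE : FiniteDimensional F (IntermediateField.adjoin F S) :=
    IntermediateField.finiteDimensional_adjoin hint
  have htop : IntermediateField.adjoin F S = ⊤ := by
    rw [eq_top_iff]
    intro z _
    refine lg_ind (p := fun z => z ∈ IntermediateField.adjoin F S) ?_ ?_ ?_ ?_ ?_ z
    · intro a
      exact (IntermediateField.adjoin F S).algebraMap_mem (⟨algebraMap _ _ a, F.algebraMap_mem a⟩ : F)
    · intro a
      have h1 := b.sum_repr a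
      rw [← h1, map_sum]
      refine sum_mem fun i _ => ?_
      rw [Algebra.smul_def, map_mul]
      refine mul_mem ?_ (IntermediateField.subset_adjoin F S ⟨i, rfl⟩)
      exact (IntermediateField.adjoin F S).algebraMap_mem (f (b.repr a i))
    · intro x y hx hy
      exact add_mem hx hy
    · intro x y hx hy
      exact mul_mem hx hy
    · intro x hx
      exact inv_mem hx
  have hfin : FiniteDimensional F (Lg k K₁) := by
    rw [htop] at hfdE
    exact Module.Finite.equiv (IntermediateField.topEquiv (F := F) (E := Lg k K₁)).toLinearEquiv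
  exact ff_of x htr hfin

end GT
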