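import Mathlib
import Pool.Agent.MP_c1dca2_ag.SC2.AB
import Pool.Agent.MP_c1dca2_ag.SEC.Defs
import Pool.Agent.MP_c1dca2_ag.SEC.S

set_option autoImplicit false
set_option linter.unusedSectionVars false

open SC2 SEC

namespace GT

/-! ## [GT-BC1] base change of sections: `K = K₀ k`, the algebraic closures

`k / k₀` is algebraic, `K` is generated by its subfield `K₀` and `k`. -/

variable {k₀ k K₀ K : Type} [Field k₀] [Field k] [Field K₀] [Field K] [Algebra k₀ k] [Algebra k₀ K₀]
  [Algebra k₀ K] [Algebra k K] [Algebra K₀ K] [IsScalarTower k₀ k K] [IsScalarTower k₀ K₀ K]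

/-- Proof. The elements of `k` are algebraic over `k₀`, so their images in `K` are algebraic over `K₀`
(`IsAlgebraic` along the towers `k₀ → k → K`, `k₀ → K₀ → K`: `IsAlgebraic.tower_top`, `IsAlgebraic.algebraMap`), and a field
generated by algebraic elements is algebraic (`IntermediateField.isAlgebraic_adjoin`). -/
theorem bc_alg [Algebra.IsAlgebraic k₀ k]
    (hK : ∀ z : K, z ∈ IntermediateField.adjoin K₀ (Set.range (algebraMap k K))) :
    Algebra.IsAlgebraic K₀ K := by
  refine ⟨fun z => ?_⟩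
  have h1 : IntermediateField.adjoin K₀ (Set.range (algebraMap k K)) ≤ algebraicClosure K₀ K := by
    rw [IntermediateField.adjoin_le_iff]
    rintro _ ⟨a, rfl⟩
    have h2 : IsAlgebraic k₀ (algebraMap k K a) :=
      (Algebra.IsAlgebraic.isAlgebraic (R := k₀) a).algebraMap
    have h3 : IsAlgebraic K₀ (algebraMap k K a) := h2.tower_top K₀
    exact mem_algebraicClosure_iff.2 h3
  exact mem_algebraicClosure_iff.1 (h1 (hK z))

/-- Proof. `K / K₀` is algebraic (`bc_alg`), so `Om K = AlgebraicClosure K` is algebraic over `K₀` and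
algebraically closed: an algebraic closure of `K₀` (`IsAlgClosure`). Two algebraic closures of `K₀` are
isomorphic (`IsAlgClosure.equiv`), `Om K` being a `K₀`-algebra by the instances of `AlgebraicClosure` and
`IsScalarTower K₀ K (Om K)`. -/
theorem bc_iota [Algebra.IsAlgebraic k₀ k]
    (hK : ∀ z : K, z ∈ IntermediateField.adjoin K₀ (Set.range (algebraMap k K))) :
    ∃ ι : Om K₀ ≃+* Om K, ∀ z : K₀, ι (algebraMap K₀ (Om K₀) z) =
      algebraMap K (Om K) (algebraMap K₀ K z) := by
  have hA : Algebra.IsAlgebraic K₀ K := bc_alg (k₀ := k₀) hK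
  have hA2 : Algebra.IsAlgebraic K₀ (Om K) := Algebra.IsAlgebraic.trans K₀ K (Om K)
  have hC : IsAlgClosure K₀ (Om K) := ⟨inferInstance, hA2⟩
  let e : Om K₀ ≃ₐ[K₀] Om K := IsAlgClosure.equiv K₀ (Om K₀) (Om K)
  refine ⟨e.toRingEquiv, fun z => ?_⟩
  have h1 : e.toRingEquiv (algebraMap K₀ (Om K₀) z) = algebraMap K₀ (Om K) z := e.commutes z
  rw [h1]
  exact IsScalarTower.algebraMap_apply K₀ K (Om K) z

variable (ι : Om K₀ ≃+* Om K)
  (hι : ∀ z : K₀, ι (algebraMap K₀ (Om K₀) z) = algebraMap K (Om K) (algebraMap K₀ K z))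

include hι in
/-- `ι` is compatible with the maps from `k₀`. Proof. `IsScalarTower.algebraMap_apply`. -/
theorem bc_k0 (a : k₀) : ι (algebraMap k₀ (Om K₀) a) = algebraMap k (Om K) (algebraMap k₀ k a) := by
  rw [IsScalarTower.algebraMap_apply k₀ K₀ (Om K₀) a, hι,
    IsScalarTower.algebraMap_apply k K (Om K) (algebraMap k₀ k a),
    ← IsScalarTower.algebraMap_apply k₀ k K a, ← IsScalarTower.algebraMap_apply k₀ K₀ K a]

include hι in
/-- Proof. `z ∈ kb k₀ K₀` iff `z` is algebraic over `k₀` (`mem_algebraicClosure_iff`) iff `ι z` is algebraic over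
(the image of) `k₀`, iff `ι z` is algebraic over `k` (`k / k₀` is algebraic: `IsAlgebraic.restrictScalars`-type
lemma; the other direction `IsAlgebraic.tower_top`), iff `ι z ∈ kb k K`. -/
theorem bc_kb [Algebra.IsAlgebraic k₀ k] (z : Om K₀) : z ∈ kb k₀ K₀ ↔ ι z ∈ kb k K := by
  have hc : ∀ a : k₀, ι (algebraMap k₀ (Om K₀) a) = algebraMap k₀ (Om K) a := by
    intro a
    rw [bc_k0 (k := k) ι hι a]
    exact (IsScalarTower.algebraMap_apply k₀ k (Om K) a).symm
  let e : Om K₀ ≃ₐ[k₀] Om K := AlgEquiv.ofRingEquiv (f := ι) hc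
  have he : e z = ι z := rfl
  rw [mem_algebraicClosure_iff, mem_algebraicClosure_iff]
  have h1 : IsAlgebraic k₀ z ↔ IsAlgebraic k₀ (ι z) := by
    rw [← he]
    exact (isAlgebraic_algHom_iff (e : Om K₀ →ₐ[k₀] Om K) e.injective).symm
  rw [h1]
  constructor
  · intro h
    exact h.tower_top k
  · intro h
    exact h.restrictScalars k₀

end GT
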