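import Mathlib
import Pool.Agent.MP_c1dca2_ag.GT.BC1
import Pool.Agent.MP_c1dca2_ag.SC2.AB
import Pool.Agent.MP_c1dca2_ag.SEC.Defs
import Pool.Agent.MP_c1dca2_ag.SEC.M1
import Pool.Agent.MP_c1dca2_ag.SEC.S

set_option autoImplicit false
set_option linter.unusedSectionVars false

open SC2 SEC

namespace GT

/-! ## [GT-BC2] base change of sections: places, inertia, the maximal unramified extension -/

variable {k₀ k K₀ K : Type} [Field k₀] [Field k] [Field K₀] [Field K] [Algebra k₀ k] [Algebra k₀ K₀]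
  [Algebra k₀ K] [Algebra k K] [Algebra K₀ K] [IsScalarTower k₀ k K] [IsScalarTower k₀ K₀ K]
  (ι : Om K₀ ≃+* Om K)
  (hι : ∀ z : K₀, ι (algebraMap K₀ (Om K₀) z) = algebraMap K (Om K) (algebraMap K₀ K z))

theorem BC2_nonunits {F : Type} [Field F] (A : ValuationSubring F) (x : F) :
    x ∈ A.nonunits ↔ x = 0 ∨ x⁻¹ ∉ A := by
  rw [ValuationSubring.mem_nonunits_iff]
  by_cases hx : x = 0
  · subst hx
    simp
  · have hv : A.valuation x ≠ 0 := (Valuation.ne_zero_iff _).2 hx
    rw [← A.valuation_le_one_iff, map_inv₀, not_le]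
    constructor
    · intro h
      right
      exact (one_lt_inv₀ (zero_lt_iff.2 hv)).2 h
    · rintro (h | h)
      · exact absurd h hx
      · exact (one_lt_inv₀ (zero_lt_iff.2 hv)).1 h

theorem BC2_comap {F F' : Type} [Field F] [Field F'] (f : F ≃+* F') (A : ValuationSubring F') (x : F) :
    x ∈ (A.comap (f : F →+* F')).nonunits ↔ f x ∈ A.nonunits := by
  rw [BC2_nonunits, BC2_nonunits, ValuationSubring.mem_comap]
  have h1 : ((f : F →+* F') x⁻¹) = (f x)⁻¹ := map_inv₀ f x
  have h2 : f x = 0 ↔ x = 0 := map_eq_zero_iff f f.injective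
  rw [h1, h2]

include hι in
/-- Proof. `B.comap ι` contains `k₀` iff `B` contains the image of `k₀` (`bc_k0`), iff `B` contains `k` (the
elements of `k` are integral over `k₀` and `B` is integrally closed); `B.comap ι = ⊤` iff `B = ⊤`. -/
theorem bc_place [Algebra.IsAlgebraic k₀ k] (B : ValuationSubring (Om K)) :
    IsPlace k₀ K₀ (B.comap (ι : Om K₀ →+* Om K)) ↔ IsPlace k K B := by
  have htop : B.comap (ι : Om K₀ →+* Om K) = ⊤ ↔ B = ⊤ := by
    constructor
    · intro h
      ext z
      have h1 : ι.symm z ∈ B.comap (ι : Om K₀ →+* Om K) := by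
        rw [h]; exact ValuationSubring.mem_top _
      rw [ValuationSubring.mem_comap] at h1
      have h2 : (ι : Om K₀ →+* Om K) (ι.symm z) = z := ι.apply_symm_apply z
      rw [h2] at h1
      exact ⟨fun _ => ValuationSubring.mem_top _, fun _ => h1⟩
    · intro h
      ext z
      rw [ValuationSubring.mem_comap, h]
      exact ⟨fun _ => ValuationSubring.mem_top _, fun _ => ValuationSubring.mem_top _⟩
  have hmem : ∀ a : k₀, algebraMap k₀ (Om K₀) a ∈ B.comap (ι : Om K₀ →+* Om K) ↔
      algebraMap k (Om K) (algebraMap k₀ k a) ∈ B := by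
    intro a
    rw [ValuationSubring.mem_comap]
    have h1 : (ι : Om K₀ →+* Om K) (algebraMap k₀ (Om K₀) a) =
        algebraMap k (Om K) (algebraMap k₀ k a) := bc_k0 ι hι a
    rw [h1]
  unfold IsPlace
  constructor
  · rintro ⟨h1, h2⟩
    refine ⟨fun a => ?_, fun h => h2 (htop.2 h)⟩
    have h3 : IsIntegral k₀ (algebraMap k (Om K) a) := by
      have h4 : IsIntegral k₀ a := (Algebra.IsAlgebraic.isAlgebraic (R := k₀) a).isIntegral
      exact h4.algebraMap
    obtain ⟨P, hP, hPa⟩ := h3
    let φ : k₀ →+* B := (algebraMap k₀ (Om K)).codRestrict B.toSubring (fun c => by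
      have := (hmem c).1 (h1 c)
      rwa [← IsScalarTower.algebraMap_apply k₀ k (Om K) c] at this)
    have h5 : IsIntegral B (algebraMap k (Om K) a) := by
      refine ⟨P.map φ, hP.map φ, ?_⟩
      rw [Polynomial.eval₂_map]
      exact hPa
    obtain ⟨b, hb⟩ := IsIntegrallyClosed.isIntegral_iff.1 h5
    rw [← hb]
    exact b.2
  · rintro ⟨h1, h2⟩
    exact ⟨fun a => (hmem a).2 (h1 _), fun h => h2 (htop.1 h)⟩

/-- An automorphism of `Om K₀` over `K₀` which is inert at a place over `k₀` fixes `kb k₀ K₀`.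

Proof. For `a ∈ kb` also `σ a ∈ kb` (algebraic over `k₀`; `σ` is a `k₀`-automorphism), `σ a - a ∈ B.nonunits` (`a ∈ B`: `place_alg_val`
gives the value `1` or `a = 0`) and a nonzero element of `kb` has the value `1` (`place_alg_val`), so `σ a = a`. -/
theorem bc_inert_kb (B : ValuationSubring (Om K₀)) (hB : IsPlace k₀ K₀ B) (σ : Om K₀ ≃ₐ[K₀] Om K₀)
    (hσ : IsInert K₀ B σ) (a : Om K₀) (ha : a ∈ kb k₀ K₀) : σ a = a :=
  inert_alg B hB σ hσ a ha

include hι in
/-- Proof. `→`: let `B` be a place of `Om K`, `σ'` an automorphism over `K` inert at `B`. `ι⁻¹ σ' ι` is an automorphism of `Om K₀`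
over `K₀` (`hι`), inert at `B.comap ι`, a place (`bc_place`), so it fixes `z`: `σ' (ι z) = ι z`.
`←`: let `B₀` be a place of `Om K₀`, `σ` inert at `B₀`. `B := B₀.comap ι.symm` satisfies `B.comap ι = B₀`, so it is a place of `Om K` over
`k`. `σ' := ι σ ι⁻¹` is a ring automorphism of `Om K`; it fixes the image of `K₀`, and the image of `k` because
the elements of `k` are in `kb k K = ι (kb k₀ K₀)` (`bc_kb`) and `bc_inert_kb`; so it fixes the image of
`K` (`hK`: the elements of `K` fixed by `σ'` are an intermediate field of `K / K₀` containing `k`), i.e. it is a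
`K`-automorphism, inert at `B`. So `σ' (ι z) = ι z` and `σ z = z`. -/
theorem bc_mnr [Algebra.IsAlgebraic k₀ k]
    (hK : ∀ z : K, z ∈ IntermediateField.adjoin K₀ (Set.range (algebraMap k K))) (z : Om K₀) :
    z ∈ Mnr k₀ K₀ ↔ ι z ∈ Mnr k K := by
  constructor
  · intro hz B hB σ' hσ'
    let σ : Om K₀ ≃ₐ[K₀] Om K₀ := AlgEquiv.ofRingEquiv
      (f := (ι.trans σ'.toRingEquiv).trans ι.symm) (fun w => by
        have h1 : ((ι.trans σ'.toRingEquiv).trans ι.symm) (algebraMap K₀ (Om K₀) w) =
            ι.symm (σ' (ι (algebraMap K₀ (Om K₀) w))) := rfl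
        rw [h1, hι, σ'.commutes, ← hι, ι.symm_apply_apply])
    have hσ1 : ∀ w, ι (σ w) = σ' (ι w) := fun w => ι.apply_symm_apply _
    have hin : IsInert K₀ (B.comap (ι : Om K₀ →+* Om K)) σ := by
      constructor
      · intro w
        rw [ValuationSubring.mem_comap, ValuationSubring.mem_comap]
        have h1 : (ι : Om K₀ →+* Om K) (σ w) = σ' (ι w) := hσ1 w
        rw [h1]
        exact hσ'.1 (ι w)
      · intro w hw
        rw [BC2_comap, map_sub, hσ1]
        exact hσ'.2 (ι w) hw
    have h2 := hz (B.comap (ι : Om K₀ →+* Om K)) ((bc_place ι hι B).2 hB) σ hin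
    rw [← hσ1, h2]
  · intro hz B₀ hB₀ σ hσ
    set B : ValuationSubring (Om K) := B₀.comap (ι.symm : Om K →+* Om K₀) with hBdef
    have hBc : B.comap (ι : Om K₀ →+* Om K) = B₀ := by
      ext w
      rw [ValuationSubring.mem_comap, hBdef, ValuationSubring.mem_comap]
      have : (ι.symm : Om K →+* Om K₀) ((ι : Om K₀ →+* Om K) w) = w := ι.symm_apply_apply w
      rw [this]
    have hBp : IsPlace k K B := by
      rw [← bc_place (k₀ := k₀) (K₀ := K₀) ι hι B, hBc]
      exact hB₀
    let r : Om K ≃+* Om K := (ι.symm.trans σ.toRingEquiv).trans ι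
    have hr : ∀ w, r w = ι (σ (ι.symm w)) := fun w => rfl
    have hr0 : ∀ w : K₀, r (algebraMap K (Om K) (algebraMap K₀ K w)) =
        algebraMap K (Om K) (algebraMap K₀ K w) := by
      intro w
      rw [hr, ← hι, ι.symm_apply_apply, σ.commutes]
    have hrk : ∀ a : k, r (algebraMap K (Om K) (algebraMap k K a)) =
        algebraMap K (Om K) (algebraMap k K a) := by
      intro a
      have h1 : algebraMap K (Om K) (algebraMap k K a) ∈ kb k K := by
        rw [← IsScalarTower.algebraMap_apply k K (Om K) a]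
        exact (kb k K).algebraMap_mem a
      have h2 : ι.symm (algebraMap K (Om K) (algebraMap k K a)) ∈ kb k₀ K₀ := by
        rw [bc_kb (k := k) ι hι, ι.apply_symm_apply]
        exact h1
      rw [hr, bc_inert_kb B₀ hB₀ σ hσ _ h2, ι.apply_symm_apply]
    have hrK : ∀ w : K, r (algebraMap K (Om K) w) = algebraMap K (Om K) w := by
      let S : Subfield K := RingHom.eqLocusField ((r : Om K →+* Om K).comp (algebraMap K (Om K)))
        (algebraMap K (Om K))
      let E : IntermediateField K₀ K := S.toIntermediateField (fun w => hr0 w)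
      have h1 : IntermediateField.adjoin K₀ (Set.range (algebraMap k K)) ≤ E := by
        rw [IntermediateField.adjoin_le_iff]
        rintro _ ⟨a, rfl⟩
        exact hrk a
      intro w
      exact h1 (hK w)
    let σ' : Om K ≃ₐ[K] Om K := AlgEquiv.ofRingEquiv (f := r) hrK
    have hσ1 : ∀ w, σ' w = ι (σ (ι.symm w)) := fun w => rfl
    have hin : IsInert K B σ' := by
      constructor
      · intro w
        rw [hBdef, ValuationSubring.mem_comap, ValuationSubring.mem_comap, hσ1]
        have h1 : (ι.symm : Om K →+* Om K₀) (ι (σ (ι.symm w))) = σ (ι.symm w) :=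
          ι.symm_apply_apply _
        rw [h1]
        exact hσ.1 (ι.symm w)
      · intro w hw
        rw [hBdef, BC2_comap, map_sub, hσ1, ι.symm_apply_apply]
        exact hσ.2 (ι.symm w) hw
    have h2 := hz B hBp σ' hin
    rw [hσ1, ι.symm_apply_apply] at h2
    exact ι.injective h2

end GT
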