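import Mathlib
import Pool.Agent.MP_c1dca2_ag.SC2.B3
import Pool.Agent.MP_c1dca2_ag.SEC.Defs
import Pool.Agent.MP_c1dca2_ag.SEC.S

set_option autoImplicit false
set_option linter.unusedSectionVars false

open SC2 SEC

namespace GT

/-! ## [GT-BC3] continuity of homomorphisms of Galois groups -/

/-- Proof. `f` is a homomorphism of topological groups, so continuity at `1` suffices
(`continuous_of_continuousAt_one`). A neighbourhood of `1` in `M ≃ₐ[K] M` (Krull topology) contains
`E'.fixingSubgroup` for a finite `E' / K` (`krullTopology_mem_nhds_one_iff`), `E'` is generated over `K` by finitely many elements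
`z_i` (a basis). For every `z_i` the hypothesis gives a finite `E_i / k`; the compositum `E` of the `E_i`
(`IntermediateField.finiteDimensional_iSup_of_finset` or induction with `⊔`) is finite, and `f` maps
`E.fixingSubgroup`, an open subgroup of `C ≃ₐ[k] C`, into `E'.fixingSubgroup` (an automorphism fixing the generators
fixes `E'`). -/
theorem cont_of_fix {k C K M : Type} [Field k] [Field C] [Algebra k C] [Field K] [Field M] [Algebra K M]
    (f : (C ≃ₐ[k] C) →* (M ≃ₐ[K] M))
    (h : ∀ z : M, ∃ E : IntermediateField k C, FiniteDimensional k E ∧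
      ∀ σ ∈ E.fixingSubgroup, f σ z = z) : Continuous f := by
  apply continuous_of_continuousAt_one
  rw [ContinuousAt, map_one]
  intro s hs
  obtain ⟨E', hE', hs'⟩ := (krullTopology_mem_nhds_one_iff K M s).1 hs
  rw [Filter.mem_map, krullTopology_mem_nhds_one_iff]
  let b := Module.finBasis K E'
  choose E hEf hE using fun i => h ((b i : E') : M)
  refine ⟨⨆ i, E i, IntermediateField.finiteDimensional_iSup_of_finite, ?_⟩
  intro σ hσ
  apply hs'
  have h1 : ∀ i, f σ ((b i : E') : M) = ((b i : E') : M) := by
    intro i
    apply hE i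
    have h2 : E i ≤ ⨆ i, E i := le_iSup E i
    exact IntermediateField.fixingSubgroup_le h2 hσ
  change f σ ∈ E'.fixingSubgroup
  rw [IntermediateField.mem_fixingSubgroup_iff]
  intro x hx
  have h3 := b.sum_repr ⟨x, hx⟩
  have h4 : x = ∑ i, (b.repr ⟨x, hx⟩ i) • ((b i : E') : M) := by
    have h5 := congrArg E'.val h3
    rw [map_sum] at h5
    simp only [map_smul] at h5
    exact h5.symm
  rw [h4, map_sum]
  refine Finset.sum_congr rfl fun i _ => ?_
  rw [map_smul, h1]

/-- Proof. `s.cont` and the Krull topology: the stabiliser of `z` is open; `open_stab` (SC2/B3.lean). -/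
theorem fix_of_sect {k K : Type} [Field k] [Field K] [Algebra k K] (s : Sect k K) (z : Mnr k K) :
    ∃ E : IntermediateField k (kb k K), FiniteDimensional k E ∧
      ∀ σ ∈ E.fixingSubgroup, s.toHom σ z = z :=
  open_stab s z

end GT
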