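import Mathlib
import Pool.Agent.MP_c1dca2_ag.GT.BC1
import Pool.Agent.MP_c1dca2_ag.GT.BC2
import Pool.Agent.MP_c1dca2_ag.GT.BC3
import Pool.Agent.MP_c1dca2_ag.SC2.AB
import Pool.Agent.MP_c1dca2_ag.SEC.Defs
import Pool.Agent.MP_c1dca2_ag.SEC.M1
import Pool.Agent.MP_c1dca2_ag.SEC.S

set_option autoImplicit false
set_option linter.unusedSectionVars false

open SC2 SEC

namespace GT

/-! ## [GT-BC4] base change of sections: assembly -/

/-- Conjugation of automorphisms by an isomorphism compatible with the ground fields. -/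
noncomputable def bcConj {R S A B : Type} [Field R] [Field S] [Field A] [Field B] [Algebra R A]
    [Algebra S B] (e : A ≃+* B) (g : B ≃ₐ[S] B)
    (h : ∀ r : R, g (e (algebraMap R A r)) = e (algebraMap R A r)) : A ≃ₐ[R] A :=
  AlgEquiv.ofRingEquiv (f := (e.trans (g : B ≃+* B)).trans e.symm) (fun r => by
    show e.symm (g (e (algebraMap R A r))) = algebraMap R A r
    rw [h, RingEquiv.symm_apply_apply])

theorem bcConj_apply {R S A B : Type} [Field R] [Field S] [Field A] [Field B] [Algebra R A]
    [Algebra S B] (e : A ≃+* B) (g : B ≃ₐ[S] B)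
    (h : ∀ r : R, g (e (algebraMap R A r)) = e (algebraMap R A r)) (a : A) :
    bcConj e g h a = e.symm (g (e a)) := rfl

variable {k₀ k K₀ K : Type} [Field k₀] [Field k] [Field K₀] [Field K] [Algebra k₀ k] [Algebra k₀ K₀]
  [Algebra k₀ K] [Algebra k K] [Algebra K₀ K] [IsScalarTower k₀ k K] [IsScalarTower k₀ K₀ K]

/-- Restriction of a section to `k`: a section of `π₁(X₀ / k₀)` gives a section of
`π₁(X₀ ⊗ k / k)`. -/
theorem sect_base_change [Algebra.IsAlgebraic k₀ k]
    (hK : ∀ z : K, z ∈ IntermediateField.adjoin K₀ (Set.range (algebraMap k K)))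
    (s : Sect k₀ K₀) : Nonempty (Sect k K) := by
  classical
  obtain ⟨ι, hι⟩ := bc_iota (k₀ := k₀) hK
  have hkb := fun z => bc_kb (k₀ := k₀) (k := k) ι hι z
  have hmnr := fun z => bc_mnr (k₀ := k₀) (k := k) ι hι hK z
  -- the isomorphism of the algebraic closures of the fields of constants
  let e : kb k K ≃+* kb k₀ K₀ :=
    { toFun := fun a => ⟨ι.symm (a : Om K), (hkb _).2 (by
        rw [RingEquiv.apply_symm_apply]; exact a.2)⟩
      invFun := fun a => ⟨ι (a : Om K₀), (hkb _).1 a.2⟩
      left_inv := fun a => Subtype.ext (RingEquiv.apply_symm_apply _ _)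
      right_inv := fun a => Subtype.ext (RingEquiv.symm_apply_apply _ _)
      map_mul' := fun a b => Subtype.ext (map_mul ι.symm _ _)
      map_add' := fun a b => Subtype.ext (map_add ι.symm _ _) }
  let E : Mnr k K ≃+* Mnr k₀ K₀ :=
    { toFun := fun a => ⟨ι.symm (a : Om K), (hmnr _).2 (by
        rw [RingEquiv.apply_symm_apply]; exact a.2)⟩
      invFun := fun a => ⟨ι (a : Om K₀), (hmnr _).1 a.2⟩
      left_inv := fun a => Subtype.ext (RingEquiv.apply_symm_apply _ _)
      right_inv := fun a => Subtype.ext (RingEquiv.symm_apply_apply _ _)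
      map_mul' := fun a b => Subtype.ext (map_mul ι.symm _ _)
      map_add' := fun a b => Subtype.ext (map_add ι.symm _ _) }
  have hek : ∀ a : k₀, e.symm (algebraMap k₀ (kb k₀ K₀) a) =
      algebraMap k (kb k K) (algebraMap k₀ k a) := fun a => Subtype.ext (bc_k0 ι hι a)
  -- transport of the Galois group of `k`
  have hc : ∀ (σ : kb k K ≃ₐ[k] kb k K) (r : k₀),
      σ (e.symm (algebraMap k₀ (kb k₀ K₀) r)) = e.symm (algebraMap k₀ (kb k₀ K₀) r) := by
    intro σ r
    rw [hek, AlgEquiv.commutes]
  let c : (kb k K ≃ₐ[k] kb k K) →* (kb k₀ K₀ ≃ₐ[k₀] kb k₀ K₀) :=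
    { toFun := fun σ => bcConj e.symm σ (hc σ)
      map_one' := AlgEquiv.ext fun a => by
        rw [bcConj_apply, AlgEquiv.one_apply, AlgEquiv.one_apply]
        exact RingEquiv.apply_symm_apply _ _
      map_mul' := fun σ τ => AlgEquiv.ext fun a => by
        rw [bcConj_apply, AlgEquiv.mul_apply, AlgEquiv.mul_apply, bcConj_apply, bcConj_apply]
        congr 2
        exact (RingEquiv.symm_apply_apply e _).symm }
  have hcapp : ∀ σ a, c σ (e a) = e (σ a) := by
    intro σ a
    show e (σ (e.symm (e a))) = e (σ a)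
    rw [RingEquiv.symm_apply_apply]
  -- `s (c σ)` acts on constants as `σ`
  have hsplit : ∀ (σ : kb k K ≃ₐ[k] kb k K) (a : kb k K) (ha : (a : Om K) ∈ Mnr k K),
      ((s.toHom (c σ) (E ⟨(a : Om K), ha⟩) : Mnr k₀ K₀) : Om K₀) = ι.symm ((σ a : kb k K) : Om K) := by
    intro σ a ha
    have h1 := s.split (c σ) (e a) (E ⟨(a : Om K), ha⟩).2
    rw [hcapp] at h1
    exact h1
  have hfixK : ∀ (σ : kb k K ≃ₐ[k] kb k K) (z : K),
      s.toHom (c σ) (E (algebraMap K (Mnr k K) z)) = E (algebraMap K (Mnr k K) z) := by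
    intro σ z
    have hz := hK z
    induction hz using IntermediateField.adjoin_induction with
    | mem x hx =>
      obtain ⟨a, rfl⟩ := hx
      have h0 : ((algebraMap k (kb k K) a : kb k K) : Om K) ∈ Mnr k K := kb_le _ (Subtype.coe_prop _)
      have h1 : algebraMap K (Mnr k K) (algebraMap k K a) =
          ⟨((algebraMap k (kb k K) a : kb k K) : Om K), h0⟩ := Subtype.ext rfl
      rw [h1]
      apply Subtype.ext
      rw [hsplit, AlgEquiv.commutes]
      rfl
    | algebraMap x =>
      have h1 : E (algebraMap K (Mnr k K) (algebraMap K₀ K x)) = algebraMap K₀ (Mnr k₀ K₀) x := by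
        apply Subtype.ext
        show ι.symm (algebraMap K (Om K) (algebraMap K₀ K x)) = algebraMap K₀ (Om K₀) x
        rw [← hι, RingEquiv.symm_apply_apply]
      rw [h1, AlgEquiv.commutes]
    | add x y _ _ hx hy => rw [map_add, map_add, map_add, hx, hy]
    | inv x _ hx => rw [map_inv₀, map_inv₀, map_inv₀, hx]
    | mul x y _ _ hx hy => rw [map_mul, map_mul, map_mul, hx, hy]
  let T : (kb k K ≃ₐ[k] kb k K) →* (Mnr k K ≃ₐ[K] Mnr k K) :=
    { toFun := fun σ => bcConj E (s.toHom (c σ)) (hfixK σ)
      map_one' := AlgEquiv.ext fun a => by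
        rw [bcConj_apply, map_one, map_one, AlgEquiv.one_apply, AlgEquiv.one_apply]
        exact RingEquiv.symm_apply_apply _ _
      map_mul' := fun σ τ => AlgEquiv.ext fun a => by
        rw [bcConj_apply, map_mul, map_mul, AlgEquiv.mul_apply, AlgEquiv.mul_apply, bcConj_apply,
          bcConj_apply]
        congr 2
        exact (RingEquiv.apply_symm_apply E _).symm }
  have hTapp : ∀ σ a, T σ a = E.symm (s.toHom (c σ) (E a)) := fun σ a => rfl
  refine ⟨⟨T, cont_of_fix T ?_, ?_⟩⟩
  · intro z
    obtain ⟨E', hE'f, hE'⟩ := fix_of_sect s (E z)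
    let b := Module.finBasis k₀ E'
    let F : IntermediateField k (kb k K) :=
      IntermediateField.adjoin k (Set.range fun i => e.symm ((b i : E') : kb k₀ K₀))
    have hF : FiniteDimensional k F := by
      have := (Set.finite_range fun i => e.symm ((b i : E') : kb k₀ K₀)).to_subtype
      exact IntermediateField.finiteDimensional_adjoin fun x _ =>
        (Algebra.IsIntegral.isIntegral (R := k) x)
    refine ⟨F, hF, fun σ hσ => ?_⟩
    rw [IntermediateField.mem_fixingSubgroup_iff] at hσ
    have h1 : c σ ∈ E'.fixingSubgroup := by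
      rw [IntermediateField.mem_fixingSubgroup_iff]
      intro x hx
      have h2 : ∀ y : E', c σ (y : kb k₀ K₀) = y := by
        intro y
        have h3 : (y : kb k₀ K₀) = ∑ i, b.repr y i • ((b i : E') : kb k₀ K₀) := by
          have h4 := congrArg (fun w : E' => (w : kb k₀ K₀)) (b.sum_repr y)
          simp only [IntermediateField.coe_sum, IntermediateField.coe_smul] at h4
          exact h4.symm
        rw [h3, map_sum]
        refine Finset.sum_congr rfl fun i _ => ?_
        rw [map_smul]
        congr 1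
        have h5 := hcapp σ (e.symm ((b i : E') : kb k₀ K₀))
        rw [RingEquiv.apply_symm_apply, hσ _ (IntermediateField.subset_adjoin k _ ⟨i, rfl⟩),
          RingEquiv.apply_symm_apply] at h5
        exact h5
      exact h2 ⟨x, hx⟩
    rw [hTapp, hE' _ h1, RingEquiv.symm_apply_apply]
  · intro σ a ha
    show ι ((s.toHom (c σ) (E ⟨(a : Om K), ha⟩) : Mnr k₀ K₀) : Om K₀) = ((σ a : kb k K) : Om K)
    rw [hsplit, RingEquiv.apply_symm_apply]

end GT
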