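import Mathlib
import Pool.Agent.MP_c1dca2_ag.SC4.X3
import Pool.Agent.MP_c1dca2_ag.SUU.U1

set_option autoImplicit false
set_option linter.unusedVariables false

open NumberField

namespace GT

/-! ## [GT-G3] density: elements of `𝓞 k` exactly divisible by a good prime and prime to finitely
many others -/

variable {k : Type} [Field k] [NumberField k]

theorem g3_card_ker {ι : Type} [Fintype ι] (b : Module.Basis ι ℤ (𝓞 k)) (p : ℕ) (hp : p.Prime)
    (I : Ideal (𝓞 k)) (hI : Ideal.absNorm I = p ^ 2) (hm : ((p ^ 2 : ℕ) : 𝓞 k) ∈ I) :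
    ∃ A : Set (ι → ZMod (p ^ 2)),
      (Nat.card A : ℝ) * (p : ℝ) ^ 2 = ((p : ℝ) ^ 2) ^ (Fintype.card ι) ∧
      ∀ c : ι → ℤ, (∑ i, c i • b i) ∈ I → (fun i => (c i : ZMod (p ^ 2))) ∈ A := by
  classical
  have : NeZero (p ^ 2) := ⟨pow_ne_zero 2 hp.ne_zero⟩
  obtain ⟨φ, hφ, hs⟩ := SC4.X3_hom b (p ^ 2) I hm
  have hq : Nat.card (ι → ZMod (p ^ 2)) = (p ^ 2) ^ Fintype.card ι := by
    rw [Nat.card_eq_fintype_card, Fintype.card_fun, ZMod.card]
  have c1 : Nat.card φ.ker * p ^ 2 = (p ^ 2) ^ Fintype.card ι := by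
    have e1 := φ.ker.card_mul_index
    rw [AddSubgroup.index_ker, AddMonoidHom.range_eq_top.2 hs, AddSubgroup.card_top,
      ← Submodule.cardQuot_apply, ← Ideal.absNorm_apply, hI, hq] at e1
    exact e1
  refine ⟨φ.ker, ?_, ?_⟩
  · exact_mod_cast c1
  · intro c hc
    change φ (fun i => (c i : ZMod (p ^ 2))) = 0
    rw [hφ, Ideal.Quotient.eq_zero_iff_mem]
    exact hc

theorem g3_card_class {ι : Type} [Fintype ι] (b : Module.Basis ι ℤ (𝓞 k)) (p : ℕ) (hp : p.Prime)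
    (P : Ideal (𝓞 k)) (hP : Ideal.absNorm P = p) {J : Type} [Fintype J] (Q : J → Ideal (𝓞 k))
    (hQ : ∀ j, Ideal.absNorm (Q j) = p) (hco : ∀ j, P ⊔ Q j = ⊤)
    (hbig : 2 * (Fintype.card J + 1) ≤ p) :
    ∃ A : Set (ι → ZMod (p ^ 2)),
      (Nat.card A : ℝ) ≤ (1 - (1 / 2) / p) * ((p : ℝ) ^ 2) ^ (Fintype.card ι) ∧
      ∀ c : ι → ℤ, ¬ ((∑ i, c i • b i) ∈ P ∧ (∑ i, c i • b i) ∉ P ^ 2 ∧
        ∀ j, (∑ i, c i • b i) ∉ Q j) → (fun i => (c i : ZMod (p ^ 2))) ∈ A := by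
  classical
  have : NeZero (p ^ 2) := ⟨pow_ne_zero 2 hp.ne_zero⟩
  obtain ⟨A₀, hA₀, hA₀'⟩ := SC4.card_class b p hp P hP
  have hex : ∀ j, ∃ A : Set (ι → ZMod (p ^ 2)),
      (Nat.card A : ℝ) * (p : ℝ) ^ 2 = ((p : ℝ) ^ 2) ^ (Fintype.card ι) ∧
      ∀ c : ι → ℤ, (∑ i, c i • b i) ∈ P * Q j → (fun i => (c i : ZMod (p ^ 2))) ∈ A := by
    intro j
    apply g3_card_ker b p hp
    · rw [map_mul, hP, hQ, pow_two]
    · rw [pow_two, Nat.cast_mul]
      apply Ideal.mul_mem_mul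
      · have := Ideal.absNorm_mem P
        rwa [hP] at this
      · have := Ideal.absNorm_mem (Q j)
        rwa [hQ] at this
  choose B hB hB' using hex
  refine ⟨A₀ ∪ ⋃ j, B j, ?_, ?_⟩
  · set q : ℝ := ((p : ℝ) ^ 2) ^ (Fintype.card ι) with hq
    have hp0 : (0 : ℝ) < p := by exact_mod_cast hp.pos
    have hq0 : 0 < q := by positivity
    have h1 : (Nat.card (A₀ ∪ ⋃ j, B j : Set (ι → ZMod (p ^ 2))) : ℝ) ≤
        (Nat.card A₀ : ℝ) + ∑ j, (Nat.card (B j) : ℝ) := by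
      have h2 : (A₀ ∪ ⋃ j, B j).ncard ≤ A₀.ncard + (⋃ j, B j).ncard := Set.ncard_union_le _ _
      have h3 : (⋃ j, B j).ncard ≤ ∑ j, (B j).ncard := by
        have h4 : (⋃ j ∈ (Finset.univ : Finset J), B j).ncard ≤
            ∑ j ∈ (Finset.univ : Finset J), (B j).ncard := by
          generalize (Finset.univ : Finset J) = s
          induction s using Finset.induction_on with
          | empty => simp
          | insert a s ha ih =>
            rw [Finset.set_biUnion_insert, Finset.sum_insert ha]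
            exact (Set.ncard_union_le _ _).trans (Nat.add_le_add_left ih _)
        simpa using h4
      have h5 := h2.trans (Nat.add_le_add_left h3 _)
      exact_mod_cast h5
    have h6 : ∀ j, (Nat.card (B j) : ℝ) = q / (p : ℝ) ^ 2 := by
      intro j
      rw [eq_div_iff (by positivity)]
      exact hB j
    have h7 : ∑ j, (Nat.card (B j) : ℝ) = Fintype.card J * (q / (p : ℝ) ^ 2) := by
      rw [Finset.sum_congr rfl (fun j _ => h6 j), Finset.sum_const, nsmul_eq_mul]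
      rfl
    have h8 : (2 : ℝ) * (Fintype.card J + 1) ≤ p := by exact_mod_cast hbig
    refine h1.trans ?_
    rw [h7]
    have h9 : (1 - ((p : ℝ) - 1) / (p : ℝ) ^ 2) * q + Fintype.card J * (q / (p : ℝ) ^ 2) ≤
        (1 - (1 / 2) / p) * q := by
      have h10 : (1 - (1 / 2) / p) * q - ((1 - ((p : ℝ) - 1) / (p : ℝ) ^ 2) * q +
          Fintype.card J * (q / (p : ℝ) ^ 2)) = q * (p / 2 - (Fintype.card J + 1)) / (p : ℝ) ^ 2 := by
        field_simp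
        ring
      have h11 : 0 ≤ q * (p / 2 - (Fintype.card J + 1)) / (p : ℝ) ^ 2 := by
        apply div_nonneg _ (by positivity)
        apply mul_nonneg hq0.le
        linarith
      linarith
    linarith
  · intro c hc
    by_cases h1 : (∑ i, c i • b i) ∈ P ∧ (∑ i, c i • b i) ∉ P ^ 2
    · right
      rw [Set.mem_iUnion]
      by_contra hcon
      push Not at hcon
      apply hc
      refine ⟨h1.1, h1.2, fun j hj => hcon j (hB' j c ?_)⟩
      rw [Ideal.mul_eq_inf_of_coprime (hco j)]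
      exact ⟨h1.1, hj⟩
    · left
      exact hA₀' c h1

/-- Density zero of the elements which are bad. -/
theorem g3_density {ι : Type} [Fintype ι] (b : Module.Basis ι ℤ (𝓞 k)) {J : Type} [Fintype J]
    (Q : Ideal (𝓞 k) → J → Ideal (𝓞 k)) (Good : Ideal (𝓞 k) → Prop)
    (hQ : ∀ P, (Ideal.absNorm P).Prime → Good P → 2 * (Fintype.card J + 1) ≤ Ideal.absNorm P ∧
      ∀ j, Ideal.absNorm (Q P j) = Ideal.absNorm P ∧ P ⊔ Q P j = ⊤)
    (Bad : 𝓞 k → Prop)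
    (hsum : ¬ Summable (fun p : {p : ℕ | p.Prime ∧
      ∃ P : Ideal (𝓞 k), Ideal.absNorm P = p ∧ Good P} => ((p : ℕ) : ℝ)⁻¹))
    (h : ∀ P : Ideal (𝓞 k), (Ideal.absNorm P).Prime → Good P → ∀ x ∈ P, x ∉ P ^ 2 →
      (∀ j, x ∉ Q P j) → ¬ Bad x)
    (ε : ℝ) (hε : 0 < ε) :
    ∃ M : ℕ, ∀ (u : ι → ℤ) (N : ι → ℕ), (∀ i, M ≤ N i) →
      (Nat.card {z : ι → ℤ // (∀ i, u i ≤ z i ∧ z i < u i + N i) ∧ Bad (∑ i, z i • b i)} : ℝ) ≤
        ε * ∏ i, (N i : ℝ) := by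
  classical
  set S : Set ℕ := {p : ℕ | p.Prime ∧ ∃ P : Ideal (𝓞 k), Ideal.absNorm P = p ∧ Good P} with hS
  have hex : ∀ p : ℕ, ∃ P : Ideal (𝓞 k), p ∈ S → Ideal.absNorm P = p ∧ Good P := by
    intro p
    by_cases h : p ∈ S
    · obtain ⟨P, hP⟩ := h.2
      exact ⟨P, fun _ => hP⟩
    · exact ⟨⊥, fun h' => absurd h' h⟩
  choose Pf hPf using hex
  have hex2 : ∀ p : ℕ, ∃ A : Set (ι → ZMod (p ^ 2)), p ∈ S →
      ((Nat.card A : ℝ) ≤ (1 - (1 / 2) / p) * ((p : ℝ) ^ 2) ^ (Fintype.card ι) ∧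
      ∀ c : ι → ℤ, ¬ ((∑ i, c i • b i) ∈ Pf p ∧ (∑ i, c i • b i) ∉ (Pf p) ^ 2 ∧
        ∀ j, (∑ i, c i • b i) ∉ Q (Pf p) j) → (fun i => (c i : ZMod (p ^ 2))) ∈ A) := by
    intro p
    by_cases h : p ∈ S
    · have h1 := (hPf p h).1
      have h2 := hQ (Pf p) (by rw [h1]; exact h.1) (hPf p h).2
      rw [h1] at h2
      obtain ⟨A, hA⟩ := g3_card_class b p h.1 (Pf p) h1 (Q (Pf p)) (fun j => (h2.2 j).1)
        (fun j => (h2.2 j).2) h2.1
      exact ⟨A, fun _ => hA⟩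
    · exact ⟨∅, fun h' => absurd h' h⟩
  choose Sp hSp using hex2
  obtain ⟨M, hM⟩ := SUU.banach_zero S (fun p hp => hp.1) hsum (1 / 2) (by norm_num) Sp
    (fun p hp => (hSp p hp).1) {z | Bad (∑ i, z i • b i)}
    (fun z hz p hp => (hSp p hp).2 z (fun hcon =>
      h (Pf p) (by rw [(hPf p hp).1]; exact hp.1) (hPf p hp).2 _ hcon.1 hcon.2.1 hcon.2.2 hz)) ε hε
  exact ⟨M, fun u N hN => hM u N hN⟩

end GT
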