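import Mathlib

set_option autoImplicit false
set_option linter.unusedVariables false

open NumberField

namespace GT

/-! ## [GT-G4] the conjugates of a prime ideal of degree one; the twisting parameter -/

variable {k₀ k : Type} [Field k₀] [Field k] [Algebra k₀ k]

/-- The twisting parameter `∏_σ σ(a)^(n σ)`. -/
noncomputable def cc [FiniteDimensional k₀ k] (n : (k ≃ₐ[k₀] k) → ℕ) (a : k) : k :=
  ∏ σ : k ≃ₐ[k₀] k, σ a ^ n σ

/-- The action on the ring of integers. -/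
noncomputable def og (σ : k ≃ₐ[k₀] k) : 𝓞 k ≃+* 𝓞 k := RingOfIntegers.mapRingEquiv (σ : k ≃+* k)

theorem og_coe (σ : k ≃ₐ[k₀] k) (x : 𝓞 k) : ((og σ x : 𝓞 k) : k) = σ (x : k) := rfl

variable [NumberField k]

theorem og_norm (σ : k ≃ₐ[k₀] k) (P : Ideal (𝓞 k)) :
    Ideal.absNorm (P.comap (og σ : 𝓞 k →+* 𝓞 k)) = Ideal.absNorm P := by
  rw [Ideal.absNorm_apply, Ideal.absNorm_apply, Submodule.cardQuot_apply, Submodule.cardQuot_apply]
  apply Nat.card_congr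
  exact (Ideal.quotientEquiv (P.comap (og σ : 𝓞 k →+* 𝓞 k)) P (og σ)
    (Ideal.map_comap_of_surjective _ (og σ).surjective P).symm).toEquiv

/-- Residue fields of prime order. -/
theorem exists_int {P : Ideal (𝓞 k)} (hP : (Ideal.absNorm P).Prime) (x : 𝓞 k) :
    ∃ n : ℤ, x - (n : 𝓞 k) ∈ P := by
  have hf : Fact (Ideal.absNorm P).Prime := ⟨hP⟩
  have hcard : Nat.card (𝓞 k ⧸ P) = Ideal.absNorm P := by
    rw [Ideal.absNorm_apply, Submodule.cardQuot_apply]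
  have hne : P ≠ ⊤ := by
    rintro rfl
    rw [Ideal.absNorm_top] at hP
    exact Nat.not_prime_one hP
  have h1 : (1 : 𝓞 k ⧸ P) ≠ 0 := by
    intro h
    apply hne
    rw [Ideal.eq_top_iff_one, ← Ideal.Quotient.eq_zero_iff_mem, map_one]
    exact h
  have h2 := zmultiples_eq_top_of_prime_card hcard h1
  have h3 : Ideal.Quotient.mk P x ∈ AddSubgroup.zmultiples (1 : 𝓞 k ⧸ P) := by
    rw [h2]; trivial
  obtain ⟨n, hn⟩ := AddSubgroup.mem_zmultiples_iff.1 h3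
  refine ⟨n, ?_⟩
  rw [← Ideal.Quotient.eq_zero_iff_mem, map_sub, ← hn, map_intCast]
  simp

theorem exists_moved_int {σ : k ≃ₐ[k₀] k} (hσ : σ ≠ 1) : ∃ x : 𝓞 k, og σ x ≠ x := by
  by_contra hcon
  push Not at hcon
  apply hσ
  ext z
  obtain ⟨a, b, hb, rfl⟩ := IsFractionRing.div_surjective (A := 𝓞 k) z
  have ha' := congrArg (fun w : 𝓞 k => (w : k)) (hcon a)
  have hb' := congrArg (fun w : 𝓞 k => (w : k)) (hcon b)
  simp only [og_coe] at ha' hb'
  rw [map_div₀, ha', hb']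
  rfl

/-- The conjugates of a prime ideal of degree one and large norm are different. -/
theorem conj_coprime (s : Finset (k ≃ₐ[k₀] k)) (hs : 1 ∉ s) :
    ∃ q₀ : ℕ, ∀ P : Ideal (𝓞 k), (Ideal.absNorm P).Prime → q₀ < Ideal.absNorm P →
      ∀ σ ∈ s, P ⊔ P.comap (og σ : 𝓞 k →+* 𝓞 k) = ⊤ := by
  classical
  have hex : ∀ σ : k ≃ₐ[k₀] k, ∃ x : 𝓞 k, σ ∈ s → og σ x ≠ x := by
    intro σ
    by_cases h : σ ∈ s
    · obtain ⟨x, hx⟩ := exists_moved_int (σ := σ) (fun h1 => hs (h1 ▸ h))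
      exact ⟨x, fun _ => hx⟩
    · exact ⟨0, fun h' => absurd h' h⟩
  choose x hx using hex
  refine ⟨∑ σ ∈ s, Ideal.absNorm (Ideal.span {og σ (x σ) - x σ}), ?_⟩
  intro P hP hq σ hσ
  have hPm : P.IsMaximal := by
    have h1 : P.IsPrime := Ideal.isPrime_of_irreducible_absNorm hP
    refine h1.isMaximal ?_
    rintro rfl
    rw [Ideal.absNorm_bot] at hP
    exact Nat.not_prime_zero hP
  have hQm : (P.comap (og σ : 𝓞 k →+* 𝓞 k)).IsMaximal := by
    have h0 : (Ideal.absNorm (P.comap (og σ : 𝓞 k →+* 𝓞 k))).Prime := by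
      rw [og_norm]; exact hP
    have h1 : (P.comap (og σ : 𝓞 k →+* 𝓞 k)).IsPrime := Ideal.isPrime_of_irreducible_absNorm h0
    refine h1.isMaximal ?_
    intro h2
    rw [h2, Ideal.absNorm_bot] at h0
    exact Nat.not_prime_zero h0
  apply Ideal.IsMaximal.coprime_of_ne hPm hQm
  intro heq
  obtain ⟨n, hn⟩ := exists_int hP (x σ)
  have h1 : og σ (x σ) - x σ ∈ P := by
    have h2 : x σ - (n : 𝓞 k) ∈ P.comap (og σ : 𝓞 k →+* 𝓞 k) := by
      rw [← heq]; exact hn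
    rw [Ideal.mem_comap] at h2
    have h3 : (og σ : 𝓞 k →+* 𝓞 k) (x σ - (n : 𝓞 k)) - (x σ - (n : 𝓞 k)) ∈ P := P.sub_mem h2 hn
    have h4 : (og σ : 𝓞 k →+* 𝓞 k) (x σ - (n : 𝓞 k)) - (x σ - (n : 𝓞 k)) = og σ (x σ) - x σ := by
      rw [map_sub, map_intCast]
      simp
    rwa [h4] at h3
  have hne : Ideal.span {og σ (x σ) - x σ} ≠ ⊥ := by
    rw [Ne, Ideal.span_singleton_eq_bot, sub_eq_zero]
    exact hx σ hσ
  have h5 : Ideal.absNorm P ∣ Ideal.absNorm (Ideal.span {og σ (x σ) - x σ}) := by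
    apply Ideal.absNorm_dvd_absNorm_of_le
    rw [Ideal.span_singleton_le_iff_mem]
    exact h1
  have h6 : Ideal.absNorm (Ideal.span {og σ (x σ) - x σ}) ≠ 0 := by
    rw [Ne, Ideal.absNorm_eq_zero_iff]
    exact hne
  have h7 := Nat.le_of_dvd (Nat.pos_of_ne_zero h6) h5
  have h8 : Ideal.absNorm (Ideal.span {og σ (x σ) - x σ}) ≤
      ∑ σ ∈ s, Ideal.absNorm (Ideal.span {og σ (x σ) - x σ}) :=
    Finset.single_le_sum (f := fun σ => Ideal.absNorm (Ideal.span {og σ (x σ) - x σ}))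
      (fun _ _ => Nat.zero_le _) hσ
  omega

omit [NumberField k] in
/-- Powers prime to `ℓ` of non-`ℓ`-th powers. -/
theorem val_pow {A : ValuationSubring k} {ℓ : ℕ} (hℓ : ℓ.Prime) {m : ℕ} (hm : ¬ ℓ ∣ m) {x : k}
    (hx : ∀ b : k, A.valuation x ≠ A.valuation b ^ ℓ) (b : k) :
    A.valuation x ^ m ≠ A.valuation b ^ ℓ := by
  intro h
  have hx0 : x ≠ 0 := by
    rintro rfl
    exact hx 0 (by rw [map_zero, zero_pow hℓ.ne_zero])
  have hvx : A.valuation x ≠ 0 := by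
    rw [Ne, map_eq_zero]; exact hx0
  have hco : IsCoprime (m : ℤ) (ℓ : ℤ) :=
    Nat.isCoprime_iff_coprime.2 ((Nat.Prime.coprime_iff_not_dvd hℓ).2 hm).symm
  obtain ⟨u, w, huw⟩ := hco
  apply hx (b ^ u * x ^ w)
  have h1 : A.valuation x = A.valuation x ^ (u * m + w * ℓ) := by
    rw [huw, zpow_one]
  rw [h1, zpow_add₀ hvx, map_mul, map_zpow₀, map_zpow₀, mul_pow]
  congr 1
  · rw [mul_comm u, zpow_mul, zpow_natCast, h, ← zpow_natCast, ← zpow_natCast, ← zpow_mul,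
      ← zpow_mul, mul_comm]
  · rw [mul_comm w, zpow_mul, zpow_natCast, ← zpow_natCast, ← zpow_natCast, ← zpow_mul,
      ← zpow_mul, mul_comm]

/-- The valuation of the twisting parameter. -/
theorem val_cc [FiniteDimensional k₀ k] (n : (k ≃ₐ[k₀] k) → ℕ) {A : ValuationSubring k}
    {P : Ideal (𝓞 k)} (hA : ∀ x : 𝓞 k, (x : k) ∈ A)
    (hAP : ∀ x : 𝓞 k, A.valuation (x : k) < 1 ↔ x ∈ P) (x : 𝓞 k)
    (hx : ∀ σ : k ≃ₐ[k₀] k, σ ≠ 1 → x ∉ P.comap (og σ : 𝓞 k →+* 𝓞 k)) :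
    A.valuation (cc n (x : k)) = A.valuation (x : k) ^ n 1 := by
  classical
  rw [cc, map_prod, Finset.prod_eq_single (1 : k ≃ₐ[k₀] k)]
  · rw [map_pow]
    rfl
  · intro σ _ hσ
    have h1 : A.valuation (σ (x : k)) = 1 := by
      rw [← og_coe]
      have h2 := (A.valuation_le_one_iff _).2 (hA (og σ x))
      have h3 : ¬ A.valuation ((og σ x : 𝓞 k) : k) < 1 := by
        rw [hAP]
        exact hx σ hσ
      exact le_antisymm h2 (not_lt.1 h3)
    rw [map_pow, h1, one_pow]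
  · intro h
    exact absurd (Finset.mem_univ _) h

end GT
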