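import Mathlib
import Pool.Agent.MP_c1dca2_ag.GT.E2a
import Pool.Agent.MP_c1dca2_ag.GT.E2d
import Pool.Agent.MP_c1dca2_ag.SC2.A2
import Pool.Agent.MP_c1dca2_ag.SEC.Defs
import Pool.Agent.MP_c1dca2_ag.SUP.E4

set_option autoImplicit false

open IsLocalRing Polynomial

namespace GT

open SEC

/-! ## [GT-E5] Jordan's lemma for the branch points (file E5.lean) -/

variable {k K₁ : Type} [Field k] [Field K₁] [Algebra k K₁]

theorem pcj_mul {L F : Type} [Field L] [Field F] [Algebra F L] (P : ValuationSubring L)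
    (γ γ' : L ≃ₐ[F] L) : pcj P ((γ * γ' : L ≃ₐ[F] L) : L ≃+* L) =
      pcj (pcj P (γ' : L ≃+* L)) (γ : L ≃+* L) := by
  ext z
  exact Iff.rfl

theorem pcj_one {L F : Type} [Field L] [Field F] [Algebra F L] (P : ValuationSubring L) :
    pcj P ((1 : L ≃ₐ[F] L) : L ≃+* L) = P := by
  ext z
  exact Iff.rfl

theorem pcj_eq_iff {L : Type} [Field L] (P Q : ValuationSubring L) (γ : L ≃+* L) :
    pcj P γ = Q ↔ ∀ z, γ z ∈ Q ↔ z ∈ P := by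
  constructor
  · rintro rfl z
    exact map_mem_pcj P γ z
  · intro h
    ext z
    rw [mem_pcj, ← h, RingEquiv.apply_symm_apply]

/-- The action of the Galois group on the branch points. -/
@[instance_reducible] noncomputable def actBr (ℓ : ℕ) (h : K₁) : MulAction (Lg k K₁ ≃ₐ[K₁] Lg k K₁) (Br k K₁ ℓ h) where
  smul γ P := ⟨pcj P.1 (γ : Lg k K₁ ≃+* Lg k K₁), pcj_br P.2 γ⟩
  one_smul P := Subtype.ext (pcj_one P.1)
  mul_smul γ γ' P := Subtype.ext (pcj_mul P.1 γ γ')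

theorem e5_jordan [CharZero k] {ℓ : ℕ} {h : K₁} (hfin : (Br k K₁ ℓ h).Finite)
    (h2 : 2 ≤ (Br k K₁ ℓ h).ncard)
    (htr : ∀ P ∈ Br k K₁ ℓ h, ∀ Q ∈ Br k K₁ ℓ h, ∀ z : K₁,
      algebraMap K₁ (Lg k K₁) z ∈ P ↔ algebraMap K₁ (Lg k K₁) z ∈ Q) :
    ∃ σ : Lg k K₁ ≃ₐ[K₁] Lg k K₁, ∀ P ∈ Br k K₁ ℓ h, ¬ ∀ z, σ z ∈ P ↔ z ∈ P := by
  classical
  have hchar : CharZero K₁ := charZero_of_injective_algebraMap (algebraMap k K₁).injective
  have hgal : IsGalois K₁ (Lg k K₁) := lg_galois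
  let _ := actBr (k := k) ℓ h
  have _ : Fintype (Br k K₁ ℓ h) := hfin.fintype
  let H : Subgroup (Equiv.Perm (Br k K₁ ℓ h)) :=
    (MulAction.toPermHom (Lg k K₁ ≃ₐ[K₁] Lg k K₁) (Br k K₁ ℓ h)).range
  have _ : Fintype H := Fintype.ofFinite H
  have htrans : MulAction.IsPretransitive H (Br k K₁ ℓ h) := by
    refine ⟨fun P Q => ?_⟩
    obtain ⟨γ, hγ⟩ := SC2.exists_conj (k := K₁) (C := Lg k K₁)
      (A := P.1.comap (algebraMap K₁ (Lg k K₁))) (V := P.1) (V' := Q.1)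
      (fun a => Iff.rfl) (fun a => (htr Q.1 Q.2 P.1 P.2 a))
    refine ⟨⟨MulAction.toPermHom _ _ γ, ⟨γ, rfl⟩⟩, Subtype.ext ?_⟩
    exact (pcj_eq_iff P.1 Q.1 (γ : Lg k K₁ ≃+* Lg k K₁)).2 hγ
  obtain ⟨⟨_, σ, rfl⟩, hσ⟩ := SUP.exists_no_fixed (G := H) (X := Br k K₁ ℓ h) (by
    rw [← Nat.card_eq_fintype_card]
    exact h2)
  refine ⟨σ, fun P hP hcon => hσ ⟨P, hP⟩ (Subtype.ext ?_)⟩
  exact (pcj_eq_iff P P (σ : Lg k K₁ ≃+* Lg k K₁)).2 hcon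

end GT
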