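import Mathlib
import Pool.Agent.MP_c1dca2_ag.GT.Y2
import Pool.Agent.MP_c1dca2_ag.SC4.Base
import Pool.Agent.MP_c1dca2_ag.SC4.X3
import Pool.Agent.MP_c1dca2_ag.SC4.X5
import Pool.Agent.MP_c1dca2_ag.SUP.Defs
import Pool.Agent.MP_c1dca2_ag.SUU.U1

set_option autoImplicit false

open NumberField Polynomial

namespace GT

/-! ## [GT-E1] density: elements of `𝓞 k` which are exactly divisible by a good prime
(file E1.lean) -/

variable {k : Type} [Field k] [NumberField k]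

theorem e1_density {ι : Type} [Fintype ι] (b : Module.Basis ι ℤ (𝓞 k)) (Good : Ideal (𝓞 k) → Prop)
    (Bad : 𝓞 k → Prop)
    (hsum : ¬ Summable (fun p : {p : ℕ | p.Prime ∧
      ∃ P : Ideal (𝓞 k), Ideal.absNorm P = p ∧ Good P} => ((p : ℕ) : ℝ)⁻¹))
    (h : ∀ P : Ideal (𝓞 k), (Ideal.absNorm P).Prime → Good P → ∀ x ∈ P, x ∉ P ^ 2 → ¬ Bad x)
    (ε : ℝ) (hε : 0 < ε) :
    ∃ M : ℕ, ∀ (u : ι → ℤ) (N : ι → ℕ), (∀ i, M ≤ N i) →
      (Nat.card {z : ι → ℤ // (∀ i, u i ≤ z i ∧ z i < u i + N i) ∧ Bad (∑ i, z i • b i)} : ℝ) ≤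
        ε * ∏ i, (N i : ℝ) := by
  classical
  set Q : Set ℕ := {p : ℕ | p.Prime ∧ ∃ P : Ideal (𝓞 k), Ideal.absNorm P = p ∧ Good P} with hQ
  have hex : ∀ p : ℕ, ∃ P : Ideal (𝓞 k), p ∈ Q → Ideal.absNorm P = p ∧ Good P := by
    intro p
    by_cases h : p ∈ Q
    · obtain ⟨P, hP⟩ := h.2
      exact ⟨P, fun _ => hP⟩
    · exact ⟨⊥, fun h' => absurd h' h⟩
  choose Pf hPf using hex
  have hex2 : ∀ p : ℕ, ∃ A : Set (ι → ZMod (p ^ 2)), p ∈ Q →
      ((Nat.card A : ℝ) ≤ (1 - (1 / 2) / p) * ((p : ℝ) ^ 2) ^ (Fintype.card ι) ∧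
      ∀ c : ι → ℤ, ¬ ((∑ i, c i • b i) ∈ Pf p ∧ (∑ i, c i • b i) ∉ (Pf p) ^ 2) →
        (fun i => (c i : ZMod (p ^ 2))) ∈ A) := by
    intro p
    by_cases h : p ∈ Q
    · obtain ⟨A, hA, hA2⟩ := SC4.card_class b p h.1 (Pf p) (hPf p h).1
      refine ⟨A, fun _ => ⟨hA.trans (mul_le_mul_of_nonneg_right ?_ (by positivity)), hA2⟩⟩
      have hp2 : (2 : ℝ) ≤ p := by exact_mod_cast h.1.two_le
      have h1 : (1 / 2 : ℝ) / p ≤ ((p : ℝ) - 1) / (p : ℝ) ^ 2 := by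
        rw [div_le_div_iff₀ (by linarith) (by positivity)]
        nlinarith
      linarith
    · exact ⟨∅, fun h' => absurd h' h⟩
  choose Sp hSp using hex2
  obtain ⟨M, hM⟩ := SUU.banach_zero Q (fun p hp => hp.1) hsum (1 / 2) (by norm_num) Sp
    (fun p hp => (hSp p hp).1) {z | Bad (∑ i, z i • b i)}
    (fun z hz p hp => (hSp p hp).2 z (fun hcon =>
      h (Pf p) (by rw [(hPf p hp).1]; exact hp.1) (hPf p hp).2 _ hcon.1 hcon.2 hz)) ε hε
  exact ⟨M, fun u N hN => hM u N hN⟩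

/-- The primes of good reduction for `G`, where `g` has good reduction without a root. -/
theorem e1_primes' (g G : k[X]) (hg : g.Separable) (hG : G.Separable)
    (hσ : ∃ σ : g.SplittingField ≃ₐ[k] g.SplittingField,
      ∀ r : g.SplittingField, aeval r g = 0 → σ r ≠ r) (q₀ : ℕ)
    (B₀ : Set (Ideal (𝓞 k))) (hB₀ : B₀.Finite) :
    ¬ Summable (fun p : {p : ℕ | p.Prime ∧ ∃ P : Ideal (𝓞 k), Ideal.absNorm P = p ∧
      (q₀ < Ideal.absNorm P ∧ y2_GoodRed g P ∧ P ∉ B₀ ∧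
      ∀ A : ValuationSubring k, (∀ x : 𝓞 k, (x : k) ∈ A) →
        (∀ x : 𝓞 k, A.valuation (x : k) < 1 ↔ x ∈ P) →
        ∃ G' : A[X], G'.map A.subtype = G ∧ (G'.map (IsLocalRing.residue A)).Separable ∧
          (G'.map (IsLocalRing.residue A)).natDegree = G'.natDegree)} => ((p : ℕ) : ℝ)⁻¹) := by
  have hnf : NumberField G.SplittingField := NumberField.of_module_finite k G.SplittingField
  obtain ⟨B, hB, hB'⟩ := SC4.good_primes G hG (SplittingField.splits G)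
  have key := y2_good_set g hg hσ (q₀ + 1) (B ∪ B₀) (hB.union hB₀)
  intro hs
  apply key
  have hsub : {p : ℕ | p.Prime ∧ q₀ + 1 ≤ p ∧
      ∃ P : Ideal (𝓞 k), Ideal.absNorm P = p ∧ P ∉ B ∪ B₀ ∧ y2_GoodRed g P} ⊆
      {p : ℕ | p.Prime ∧ ∃ P : Ideal (𝓞 k), Ideal.absNorm P = p ∧
      (q₀ < Ideal.absNorm P ∧ y2_GoodRed g P ∧ P ∉ B₀ ∧
      ∀ A : ValuationSubring k, (∀ x : 𝓞 k, (x : k) ∈ A) →
        (∀ x : 𝓞 k, A.valuation (x : k) < 1 ↔ x ∈ P) →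
        ∃ G' : A[X], G'.map A.subtype = G ∧ (G'.map (IsLocalRing.residue A)).Separable ∧
          (G'.map (IsLocalRing.residue A)).natDegree = G'.natDegree)} := by
    rintro p ⟨hp, hpq, P, hP, hPB, hgP⟩
    refine ⟨hp, P, hP, by rw [hP]; omega, hgP, fun h => hPB (Or.inr h), fun A hA hA' => ?_⟩
    have hPp : P.IsPrime := Ideal.isPrime_of_irreducible_absNorm (by rw [hP]; exact hp)
    have hP0 : P ≠ ⊥ := by
      rintro rfl
      rw [Ideal.absNorm_bot] at hP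
      exact hp.ne_zero hP.symm
    obtain ⟨G', h1, h2, h3, -⟩ := hB' P hPp hP0 (fun h => hPB (Or.inl h)) A hA hA'
    exact ⟨G', h1, h2, h3⟩
  exact Summable.comp_injective hs (i := Set.inclusion hsub) (Set.inclusion_injective hsub)

end GT
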