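import Mathlib
import Pool.Agent.MP_c1dca2_ag.GT.Q0
import Pool.Agent.MP_c1dca2_ag.GT.Q1a
import Pool.Agent.MP_c1dca2_ag.SEC.Defs

set_option autoImplicit false

open IsLocalRing

namespace GT

/-! ## [GT-Q1b] the embedding of the algebraic closures -/

variable {k K₁ K : Type} [Field k] [Field K₁] [Field K] [Algebra k K₁] [Algebra k K] [Algebra K₁ K]
  [IsScalarTower k K₁ K]

variable (ι : Om K₁ →+* Om K)
  (hι : ∀ z : K₁, ι (algebraMap K₁ (Om K₁) z) = algebraMap K (Om K) (algebraMap K₁ K z))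

include hι in
theorem q1b_k (c : k) : ι (algebraMap k (Om K₁) c) = algebraMap k (Om K) c := by
  rw [IsScalarTower.algebraMap_apply k K₁ (Om K₁), hι, ← IsScalarTower.algebraMap_apply k K₁ K,
    ← IsScalarTower.algebraMap_apply k K (Om K)]

include hι in
/-- Conjugation of the automorphisms by `kb k K₁ ≃ kb k K`.

Proof. `ι` restricts to a bijection `e : kb k K₁ ≃ₐ[k] kb k K` (`mem_kb_iff`, `exists_kb`, `AlgEquiv.ofBijective`); `AlgEquiv.autCongr e` is a group isomorphism. (The last part: finite subextensions: `E = E'.comap e` or the image of `E'` under `e.symm`.) -/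
theorem exists_conj : ∃ c : (kb k K₁ ≃ₐ[k] kb k K₁) →* (kb k K ≃ₐ[k] kb k K),
    (∀ (σ : kb k K₁ ≃ₐ[k] kb k K₁) (a : kb k K₁) (b : kb k K), ι (a : Om K₁) = b →
      ι ((σ a : kb k K₁) : Om K₁) = ((c σ b : kb k K) : Om K)) ∧
    ∀ E' : IntermediateField k (kb k K), FiniteDimensional k E' →
      ∃ E : IntermediateField k (kb k K₁), FiniteDimensional k E ∧
        ∀ σ ∈ E.fixingSubgroup, c σ ∈ E'.fixingSubgroup := by
  let φ : kb k K₁ →ₐ[k] kb k K :=
    { toFun := fun a => ⟨ι (a : Om K₁), (mem_kb_iff ι hι (a : Om K₁)).2 a.2⟩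
      map_one' := Subtype.ext (map_one ι)
      map_mul' := fun a b => Subtype.ext (map_mul ι _ _)
      map_zero' := Subtype.ext (map_zero ι)
      map_add' := fun a b => Subtype.ext (map_add ι _ _)
      commutes' := fun c => Subtype.ext (q1b_k ι hι c) }
  have hφ : ∀ a : kb k K₁, ((φ a : kb k K) : Om K) = ι (a : Om K₁) := fun a => rfl
  have hbij : Function.Bijective φ := by
    refine ⟨φ.toRingHom.injective, fun w => ?_⟩
    obtain ⟨z, hz⟩ := exists_kb ι hι w
    exact ⟨z, Subtype.ext hz⟩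
  let e : kb k K₁ ≃ₐ[k] kb k K := AlgEquiv.ofBijective φ hbij
  have he : ∀ a : kb k K₁, ((e a : kb k K) : Om K) = ι (a : Om K₁) := fun a => rfl
  refine ⟨(AlgEquiv.autCongr e).toMonoidHom, ?_, ?_⟩
  · intro σ a b hab
    have h1 : e a = b := Subtype.ext hab
    have h2 : e.symm b = a := by rw [← h1, e.symm_apply_apply]
    have h3 : (AlgEquiv.autCongr e).toMonoidHom σ b = e (σ (e.symm b)) := rfl
    rw [h3, h2, he]
  · intro E' hE'
    refine ⟨E'.map e.symm.toAlgHom,
      (IntermediateField.intermediateFieldMap e.symm E').toLinearEquiv.finiteDimensional, ?_⟩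
    intro σ hσ
    rw [IntermediateField.mem_fixingSubgroup_iff] at hσ ⊢
    intro b hb
    have h3 : (AlgEquiv.autCongr e).toMonoidHom σ b = e (σ (e.symm b)) := rfl
    have h4 : σ (e.symm b) = e.symm b := hσ _ ⟨b, hb, rfl⟩
    rw [h3, h4, e.apply_symm_apply]

end GT
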