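import Mathlib
import Pool.Agent.MP_c1dca2_ag.GT.Q0
import Pool.Agent.MP_c1dca2_ag.SEC.Defs

set_option autoImplicit false

open IsLocalRing

namespace GT

/-! ## [GT-Q2d] the partial section of a section -/

variable {k K₁ K : Type} [Field k] [Field K₁] [Field K] [Algebra k K₁] [Algebra k K] [Algebra K₁ K]
  [IsScalarTower k K₁ K]

/-- The elements of `Om K₁` whose image is in `Mnr k K`. -/
def QM (k : Type) {K₁ K : Type} [Field k] [Field K₁] [Field K] [Algebra k K] [Algebra K₁ K]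
    (ι : Om K₁ →+* Om K)
    (hι : ∀ z : K₁, ι (algebraMap K₁ (Om K₁) z) = algebraMap K (Om K) (algebraMap K₁ K z)) :
    IntermediateField K₁ (Om K₁) where
  carrier := {z | ι z ∈ Mnr k K}
  mul_mem' := by
    intro a b ha hb
    show ι (a * b) ∈ Mnr k K
    rw [map_mul]
    exact (Mnr k K).mul_mem ha hb
  add_mem' := by
    intro a b ha hb
    show ι (a + b) ∈ Mnr k K
    rw [map_add]
    exact (Mnr k K).add_mem ha hb
  algebraMap_mem' := by
    intro r
    show ι (algebraMap K₁ (Om K₁) r) ∈ Mnr k K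
    rw [hι]
    exact (Mnr k K).algebraMap_mem _
  inv_mem' := by
    intro a ha
    show ι a⁻¹ ∈ Mnr k K
    rw [map_inv₀]
    exact (Mnr k K).inv_mem ha

variable (ι : Om K₁ →+* Om K)
  (hι : ∀ z : K₁, ι (algebraMap K₁ (Om K₁) z) = algebraMap K (Om K) (algebraMap K₁ K z))

theorem mem_QM (z : Om K₁) : z ∈ QM k ι hι ↔ ι z ∈ Mnr k K := Iff.rfl

end GT
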