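import Mathlib
import Pool.Agent.MP_c1dca2_ag.GT.Q0
import Pool.Agent.MP_c1dca2_ag.GT.Q1a
import Pool.Agent.MP_c1dca2_ag.GT.Q2d
import Pool.Agent.MP_c1dca2_ag.SEC.Defs

set_option autoImplicit false

open IsLocalRing

namespace GT

/-! ## [GT-Q2a] the partial section of a section -/

variable {k K₁ K : Type} [Field k] [Field K₁] [Field K] [Algebra k K₁] [Algebra k K] [Algebra K₁ K]
  [IsScalarTower k K₁ K]

variable (ι : Om K₁ →+* Om K)
  (hι : ∀ z : K₁, ι (algebraMap K₁ (Om K₁) z) = algebraMap K (Om K) (algebraMap K₁ K z))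

/-- Proof. `z` is a root of a nonzero polynomial `p` over `K₁` (`Om K₁` is algebraic), so `ι z` is a root of its image over `K` (`hι`), and `θ ⟨ι z, _⟩` is a root of the same polynomial (`θ` is a `K`-automorphism): `exists_pre` for `p.map (algebraMap K₁ (Om K₁))` gives `z'` with `ι z' = θ ⟨ι z, _⟩`. -/
theorem exists_act (θ : Mnr k K ≃ₐ[K] Mnr k K) (z : QM k ι hι) :
    ∃ z' : QM k ι hι, ι (z' : Om K₁) = (θ ⟨ι (z : Om K₁), z.2⟩ : Mnr k K) := by
  obtain ⟨z, hz⟩ := z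
  set z0 : Mnr k K := ⟨ι z, hz⟩ with hz0
  have halg : IsAlgebraic K₁ z := Algebra.IsAlgebraic.isAlgebraic z
  obtain ⟨p, hp, hpz⟩ := halg
  have hcomp : ι.comp (algebraMap K₁ (Om K₁)) = (algebraMap K (Om K)).comp (algebraMap K₁ K) :=
    RingHom.ext hι
  have hev : ∀ w : Om K, (p.map (algebraMap K₁ (Om K₁))).eval₂ ι w =
      Polynomial.aeval w (p.map (algebraMap K₁ K)) := by
    intro w
    rw [Polynomial.eval₂_map, hcomp, Polynomial.aeval_def, Polynomial.eval₂_map]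
  have h0 : Polynomial.aeval (ι z) (p.map (algebraMap K₁ K)) = 0 := by
    rw [← hev, Polynomial.eval₂_map, ← Polynomial.hom_eval₂]
    rw [Polynomial.aeval_def] at hpz
    rw [hpz, map_zero]
  have h1 : Polynomial.aeval z0 (p.map (algebraMap K₁ K)) = 0 := by
    apply Subtype.ext
    have h2 : ((Polynomial.aeval z0 (p.map (algebraMap K₁ K)) : Mnr k K) : Om K) =
        Polynomial.aeval (ι z) (p.map (algebraMap K₁ K)) :=
      (Polynomial.aeval_algHom_apply (Mnr k K).val z0 _).symm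
    rw [h2, h0]
    rfl
  have h3 : Polynomial.aeval (θ z0) (p.map (algebraMap K₁ K)) = 0 := by
    have h4 := Polynomial.aeval_algHom_apply (θ : Mnr k K →ₐ[K] Mnr k K) z0
      (p.map (algebraMap K₁ K))
    rw [h1, map_zero] at h4
    exact h4
  have h5 : Polynomial.aeval ((θ z0 : Mnr k K) : Om K) (p.map (algebraMap K₁ K)) = 0 := by
    have h6 := Polynomial.aeval_algHom_apply (Mnr k K).val (θ z0) (p.map (algebraMap K₁ K))
    rw [h3, map_zero] at h6
    exact h6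
  obtain ⟨z', hz'⟩ := exists_pre ι (p.map (algebraMap K₁ (Om K₁)))
    ((Polynomial.map_ne_zero_iff (algebraMap K₁ (Om K₁)).injective).2 hp)
    ((θ z0 : Mnr k K) : Om K) (by rw [hev, h5])
  refine ⟨⟨z', ?_⟩, hz'⟩
  show ι z' ∈ Mnr k K
  rw [hz']
  exact (θ z0).2

/-- The automorphism of `QM` induced by an automorphism of `Mnr`. -/
theorem q2a_aut (θ : Mnr k K ≃ₐ[K] Mnr k K) :
    ∃ Θ : QM k ι hι ≃ₐ[K₁] QM k ι hι,
      ∀ z : QM k ι hι, ι ((Θ z : QM k ι hι) : Om K₁) = (θ ⟨ι (z : Om K₁), z.2⟩ : Mnr k K) := by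
  choose f hf using exists_act (k := k) ι hι θ
  choose g hg using exists_act (k := k) ι hι θ.symm
  have inj : ∀ a b : QM k ι hι, ι (a : Om K₁) = ι (b : Om K₁) → a = b :=
    fun a b h => Subtype.ext (ι.injective h)
  have hf' : ∀ z : QM k ι hι, (⟨ι (f z : Om K₁), (f z).2⟩ : Mnr k K) =
      θ ⟨ι (z : Om K₁), z.2⟩ := fun z => Subtype.ext (hf z)
  have hg' : ∀ z : QM k ι hι, (⟨ι (g z : Om K₁), (g z).2⟩ : Mnr k K) =
      θ.symm ⟨ι (z : Om K₁), z.2⟩ := fun z => Subtype.ext (hg z)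
  have hadd : ∀ a b, f (a + b) = f a + f b := by
    intro a b
    apply inj
    rw [hf]
    have e : (⟨ι ((a + b : QM k ι hι) : Om K₁), (a + b).2⟩ : Mnr k K) =
        ⟨ι (a : Om K₁), a.2⟩ + ⟨ι (b : Om K₁), b.2⟩ :=
      Subtype.ext (map_add ι (a : Om K₁) (b : Om K₁))
    rw [e, map_add, ← hf', ← hf']
    exact (map_add ι (f a : Om K₁) (f b : Om K₁)).symm
  have hmul : ∀ a b, f (a * b) = f a * f b := by
    intro a b
    apply inj
    rw [hf]
    have e : (⟨ι ((a * b : QM k ι hι) : Om K₁), (a * b).2⟩ : Mnr k K) =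
        ⟨ι (a : Om K₁), a.2⟩ * ⟨ι (b : Om K₁), b.2⟩ :=
      Subtype.ext (map_mul ι (a : Om K₁) (b : Om K₁))
    rw [e, map_mul, ← hf', ← hf']
    exact (map_mul ι (f a : Om K₁) (f b : Om K₁)).symm
  have hcom : ∀ r : K₁, f (algebraMap K₁ (QM k ι hι) r) = algebraMap K₁ (QM k ι hι) r := by
    intro r
    apply inj
    rw [hf]
    have e : (⟨ι ((algebraMap K₁ (QM k ι hι) r : QM k ι hι) : Om K₁),
        (algebraMap K₁ (QM k ι hι) r).2⟩ : Mnr k K) =
        algebraMap K (Mnr k K) (algebraMap K₁ K r) := Subtype.ext (hι r)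
    rw [e, AlgEquiv.commutes]
    exact (hι r).symm
  have hgf : ∀ z, g (f z) = z := by
    intro z
    apply inj
    rw [hg, hf', AlgEquiv.symm_apply_apply]
  have hfg : ∀ z, f (g z) = z := by
    intro z
    apply inj
    rw [hf, hg', AlgEquiv.apply_symm_apply]
  exact ⟨{ toFun := f, invFun := g, left_inv := hgf, right_inv := hfg, map_mul' := hmul,
           map_add' := hadd, commutes' := hcom }, hf⟩

/-- Proof. For `σ` let `θ = s.toHom (c σ)`; choose `z'` by `exists_act`; as `ι` is injective, `z ↦ z'` is a ring homomorphism which fixes `K₁` (`θ` is the identity on `K`), the map for `σ⁻¹` is its inverse and `σ ↦` is multiplicative (`map_mul` for `c` and `s.toHom`). (Convenient: for an automorphism `θ`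
first construct `Θ θ : QM ≃ₐ[K₁] QM` with `ι (Θ θ z) = θ ⟨ι z, _⟩`, using `exists_act` for `θ` and `θ.symm`, then `MonoidHom`.) -/
theorem exists_toHom (s : Sect k K) (c : (kb k K₁ ≃ₐ[k] kb k K₁) →* (kb k K ≃ₐ[k] kb k K)) :
    ∃ T : (kb k K₁ ≃ₐ[k] kb k K₁) →* (QM k ι hι ≃ₐ[K₁] QM k ι hι),
      ∀ (σ : kb k K₁ ≃ₐ[k] kb k K₁) (z : QM k ι hι),
        ι ((T σ z : QM k ι hι) : Om K₁) = (s.toHom (c σ) ⟨ι (z : Om K₁), z.2⟩ : Mnr k K) := by
  choose Θ hΘ using q2a_aut (k := k) (K₁ := K₁) (K := K) ι hι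
  have inj : ∀ a b : QM k ι hι, ι (a : Om K₁) = ι (b : Om K₁) → a = b :=
    fun a b h => Subtype.ext (ι.injective h)
  refine ⟨{ toFun := fun σ => Θ (s.toHom (c σ)), map_one' := ?_, map_mul' := ?_ }, ?_⟩
  · apply AlgEquiv.ext
    intro z
    apply inj
    rw [hΘ, map_one, map_one]
    rfl
  · intro σ τ
    apply AlgEquiv.ext
    intro z
    apply inj
    rw [hΘ, map_mul, map_mul]
    have e : (⟨ι ((Θ (s.toHom (c τ)) z : QM k ι hι) : Om K₁), (Θ (s.toHom (c τ)) z).2⟩ : Mnr k K) =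
        s.toHom (c τ) ⟨ι (z : Om K₁), z.2⟩ := Subtype.ext (hΘ _ z)
    have h1 := hΘ (s.toHom (c σ)) (Θ (s.toHom (c τ)) z)
    rw [e] at h1
    exact h1.symm
  · intro σ z
    exact hΘ _ z

end GT
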