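import Mathlib
import Pool.Agent.MP_c1dca2_ag.GT.E0a
import Pool.Agent.MP_c1dca2_ag.GT.E2a
import Pool.Agent.MP_c1dca2_ag.GT.E2b
import Pool.Agent.MP_c1dca2_ag.GT.E2c
import Pool.Agent.MP_c1dca2_ag.GT.E2d
import Pool.Agent.MP_c1dca2_ag.GT.P0
import Pool.Agent.MP_c1dca2_ag.GT.Q0
import Pool.Agent.MP_c1dca2_ag.GT.Q3
import Pool.Agent.MP_c1dca2_ag.GT.Y1
import Pool.Agent.MP_c1dca2_ag.SC2.A1
import Pool.Agent.MP_c1dca2_ag.SC2.A4
import Pool.Agent.MP_c1dca2_ag.SC2.AB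
import Pool.Agent.MP_c1dca2_ag.SC2.B1
import Pool.Agent.MP_c1dca2_ag.SC2.C2
import Pool.Agent.MP_c1dca2_ag.SEC.Defs
import Pool.Agent.MP_c1dca2_ag.SEC.M1
import Pool.Agent.MP_c1dca2_ag.SEC.S
import Pool.Agent.MP_c1dca2_ag.SUP.R2

set_option autoImplicit false

open IsLocalRing Polynomial

namespace GT

open SEC SC2

/-! ## [GT-E3] the local theorem at the primes of good reduction of a polynomial (file E3.lean) -/

/-- The conclusion of the local theorem. -/
def LA (k K₁ : Type) [Field k] [Field K₁] [Algebra k K₁] (ℓ : ℕ) (h : K₁) (x : Loc k K₁ ℓ) : Prop :=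
  ∀ τ : kb k K₁ ≃ₐ[k] kb k K₁, Iner x.V τ → ∀ y : Om K₁, y ^ ℓ = algebraMap K₁ (Om K₁) h →
    y ∈ x.p.M → ¬ x.p.Fix τ y →
    ∀ φ : kb k K₁ ≃ₐ[k] kb k K₁, Frob (Nat.card (ResidueField x.A)) x.V φ →
      ∃ P ∈ Br k K₁ ℓ h, ∃ γ : Lg k K₁ ≃ₐ[K₁] Lg k K₁,
        (∀ a : kb k K₁, γ (algebraMap _ _ a) = algebraMap _ _ (φ a)) ∧ ∀ z, γ z ∈ P ↔ z ∈ P

variable {k K₁ : Type} [Field k] [Field K₁] [Algebra k K₁]

/-- A polynomial `G` over `k`: if it has good reduction at `A`, the elements of `S` are in `V` and fixed by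
inertia. -/
theorem e3_SG [CharZero k] (S : Finset (kb k K₁)) : ∃ G : k[X], G.Separable ∧
    ∀ (A : ValuationSubring k) (V : ValuationSubring (kb k K₁)), Above A V →
      (∃ G' : A[X], G'.map A.subtype = G ∧ (G'.map (residue A)).Separable ∧
        (G'.map (residue A)).natDegree = G'.natDegree) → SG S V := by
  classical
  have hac : IsAlgClosed (kb k K₁) := kb_isAlgClosed
  obtain ⟨G, hG, hG2, -⟩ := e2_poly (k := k) S
  refine ⟨G, hG, ?_⟩
  rintro A V hV ⟨G', hG', hsep, hdeg⟩ c hc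
  obtain ⟨r, l, hl, hgr, hr, hd⟩ := exists_roots hV G' hsep hdeg
  have hl0 : l ≠ 0 := by
    rintro rfl
    rw [map_zero, map_zero] at hl
    exact zero_ne_one hl
  have h1 := hG2 c hc
  rw [← hG', aeval_def, ← eval_map, hgr, eval_mul, eval_prod] at h1
  rcases mul_eq_zero.1 h1 with h2 | h2
  · rw [eval_C, map_eq_zero] at h2
    exact absurd h2 hl0
  · obtain ⟨i, -, hi⟩ := Finset.prod_eq_zero_iff.1 h2
    rw [eval_sub, eval_X, eval_C, sub_eq_zero] at hi
    rw [hi]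
    exact ⟨hr i, fun σ hσ => y1_f_iner_root r hr hd
      (fun σ i => y1_f_perm (G'.map A.subtype) l hl0 r hgr σ i) σ hσ i⟩

/-- No sections at a good prime. -/
theorem e3_local [CharZero k] {ℓ : ℕ} (hℓ : ℓ.Prime) {h : K₁} (hh : h ≠ 0) (S : Finset (kb k K₁))
    (hS : ∀ x : Loc k K₁ ℓ, SG S x.V → LA k K₁ ℓ h x) (g : k[X]) (x₀ : K₁)
    (hg : ∀ P ∈ Br k K₁ ℓ h, ∃ a : kb k K₁,
      algebraMap K₁ (Lg k K₁) x₀ - algebraMap _ _ a ∈ P.nonunits ∧ aeval a g = 0)
    (G : k[X]) (hG : ∀ (A : ValuationSubring k) (V : ValuationSubring (kb k K₁)), Above A V →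
      (∃ G' : A[X], G'.map A.subtype = G ∧ (G'.map (residue A)).Separable ∧
        (G'.map (residue A)).natDegree = G'.natDegree) → SG S V)
    (A : ValuationSubring k) [IsDiscreteValuationRing A] [Finite (ResidueField A)]
    (hA : (ℓ : ResidueField A) ≠ 0)
    (hGA : ∃ G' : A[X], G'.map A.subtype = G ∧ (G'.map (residue A)).Separable ∧
        (G'.map (residue A)).natDegree = G'.natDegree)
    (hgA : ∃ g' : A[X], g'.map A.subtype = g ∧ (g'.map (residue A)).Separable ∧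
        (g'.map (residue A)).natDegree = g'.natDegree ∧ ∀ a, (g'.map (residue A)).eval a ≠ 0)
    (c : k) (hc : ∀ b : k, A.valuation c ≠ A.valuation b ^ ℓ)
    {K : Type} [Field K] [Algebra k K] [Algebra K₁ K] [IsScalarTower k K₁ K] (y : K)
    (hy : y ^ ℓ = algebraMap k K c * algebraMap K₁ K h) : IsEmpty (Sect k K) := by
  classical
  refine ⟨fun s => ?_⟩
  have hℓ' : Fact ℓ.Prime := ⟨hℓ⟩
  have hac : IsAlgClosed (kb k K₁) := kb_isAlgClosed
  have hgal : IsGalois k (kb k K₁) := kb_isGalois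
  have hc0 : c ≠ 0 := by
    rintro rfl
    exact hc 0 (by simp [hℓ.ne_zero])
  obtain ⟨V, hV⟩ := exists_above (C := kb k K₁) A
  have hVℓ : V.valuation ((ℓ : ℕ) : kb k K₁) = 1 := y1_val_ell hV ℓ hA
  -- the partial section
  obtain ⟨p, y₁, hy₁, hfix⟩ := ps_of_sect (K₁ := K₁) s hℓ.pos (algebraMap k K₁ c * h) y (by
    rw [hy, map_mul, ← IsScalarTower.algebraMap_apply])
  let L : Loc k K₁ ℓ :=
    { A := A
      dvr := inferInstance
      fin := inferInstance
      V := V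
      above := hV
      hℓ := hVℓ
      p := p }
  have hLA := hS L (hG A V hV hGA)
  -- the element of inertia
  obtain ⟨z, hz⟩ := IsAlgClosed.exists_pow_nat_eq (algebraMap k (kb k K₁) c) hℓ.pos
  obtain ⟨τ, hτ, hτz⟩ := SUP.exists_tau hV hVℓ c hc z hz
  have hz0 : z ≠ 0 := by
    rintro rfl
    exact hτz (map_zero τ)
  obtain ⟨hy₁M, hy₁τ⟩ := hfix τ
  have hz0' : (z : Om K₁) ≠ 0 := fun h0 => hz0 (Subtype.ext h0)
  have hy₁0 : y₁ ≠ 0 := by
    rintro rfl
    rw [zero_pow hℓ.ne_zero, eq_comm, map_eq_zero] at hy₁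
    rcases mul_eq_zero.1 hy₁ with h1 | h1
    · exact hc0 ((map_eq_zero _).1 h1)
    · exact hh h1
  -- the root of `h`
  have hyh : (y₁ / (z : Om K₁)) ^ ℓ = algebraMap K₁ (Om K₁) h := by
    have hz' : ((z : Om K₁)) ^ ℓ = algebraMap K₁ (Om K₁) (algebraMap k K₁ c) := by
      rw [← E0_alg]
      exact congrArg (fun w : kb k K₁ => (w : Om K₁)) hz
    rw [div_pow, hy₁, hz', map_mul, mul_comm, mul_div_assoc, div_self, mul_one]
    rw [← hz']
    exact pow_ne_zero _ hz0'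
  have hyM : y₁ / (z : Om K₁) ∈ p.M := p.M.div_mem hy₁M (p.hC z)
  have hnf : ¬ p.Fix τ (y₁ / (z : Om K₁)) := by
    rintro ⟨h1, h2⟩
    apply hτz
    have h3 : (⟨y₁, hy₁M⟩ : p.M) = ⟨y₁ / (z : Om K₁), h1⟩ * p.iota z := by
      apply Subtype.ext
      change y₁ = y₁ / (z : Om K₁) * (z : Om K₁)
      rw [div_mul_cancel₀ _ hz0']
    have h4 : p.toHom τ ⟨y₁, hy₁M⟩ = ⟨y₁ / (z : Om K₁), h1⟩ * p.iota (τ z) := by
      rw [h3, map_mul, h2, p.toHom_iota]
    rw [hy₁τ] at h4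
    have h5 : (⟨y₁ / (z : Om K₁), h1⟩ : p.M) * p.iota z =
        ⟨y₁ / (z : Om K₁), h1⟩ * p.iota (τ z) := h3.symm.trans h4
    have h6 : (⟨y₁ / (z : Om K₁), h1⟩ : p.M) ≠ 0 := by
      intro h0
      have h7 := congrArg (fun w : p.M => (w : Om K₁)) h0
      exact div_ne_zero hy₁0 hz0' h7
    have h7 := mul_left_cancel₀ h6 h5
    exact (p.iota.injective h7).symm
  obtain ⟨φ, hφ⟩ := exists_frob (C := kb k K₁) hV
  obtain ⟨P, hP, γ, hγ, hγP⟩ := hLA τ hτ _ hyh hyM hnf φ hφ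
  -- the value at `P` is fixed by `φ`
  obtain ⟨a, ha, hag⟩ := hg P hP
  have hnu : ∀ w, w ∈ P.nonunits → γ w ∈ P.nonunits := by
    intro w hw
    rw [P.mem_nonunits_iff_or] at hw ⊢
    rcases hw with hw | hw
    · left
      rw [hw, map_zero]
    · right
      rw [← map_inv₀, hγP]
      exact hw
  have h1 := hnu _ ha
  rw [map_sub, AlgEquiv.commutes, hγ] at h1
  have h2 : a = φ a := pl_unique hP.1 ha h1
  -- contradiction
  obtain ⟨g', hg', hsep, hdeg, hroot⟩ := hgA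
  obtain ⟨r, l, hl, hgr, hr, hd⟩ := exists_roots hV g' hsep hdeg
  have hl0 : l ≠ 0 := by
    rintro rfl
    rw [map_zero, map_zero] at hl
    exact zero_ne_one hl
  have h3 : ((g'.map A.subtype).map (algebraMap k (kb k K₁))).eval a = 0 := by
    rw [hg', eval_map, ← aeval_def]
    exact hag
  have h4 : a ∈ V := by
    rw [hgr, eval_mul, eval_prod] at h3
    rcases mul_eq_zero.1 h3 with h5 | h5
    · rw [eval_C, map_eq_zero] at h5
      exact absurd h5 hl0
    · obtain ⟨i, -, hi⟩ := Finset.prod_eq_zero_iff.1 h5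
      rw [eval_sub, eval_X, eval_C, sub_eq_zero] at hi
      rw [hi]
      exact hr i
  have h5 := hφ.frob a h4
  rw [← h2] at h5
  refine root_not_fixed hV g' hroot a h4 h3 ?_
  rw [V.mem_nonunits_iff] at h5 ⊢
  rw [← Valuation.map_neg, neg_sub]
  exact h5

/-- If `k` is not algebraically closed in `K₁` there are no sections. -/
theorem e3_const [CharZero k] {a : K₁} (ha : IsIntegral k a) (hak : a ∉ Set.range (algebraMap k K₁))
    (K : Type) [Field K] [Algebra k K] [Algebra K₁ K] [IsScalarTower k K₁ K] :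
    IsEmpty (Sect k K) := by
  refine ⟨fun s => hak ?_⟩
  have hgal : IsGalois k (kb k K) := kb_isGalois
  have h1 : IsIntegral k (algebraMap K (Om K) (algebraMap K₁ K a)) :=
    ((ha.map (IsScalarTower.toAlgHom k K₁ K)).map (IsScalarTower.toAlgHom k K (Om K)))
  let b : kb k K := ⟨algebraMap K (Om K) (algebraMap K₁ K a), mem_kb.2 h1⟩
  have h2 : ∀ σ : kb k K ≃ₐ[k] kb k K, σ b = b := by
    intro σ
    apply Subtype.ext
    have h3 := s.split σ b (kb_le _ b.2)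
    have h4 : (⟨(b : Om K), kb_le _ b.2⟩ : Mnr k K) = algebraMap K (Mnr k K) (algebraMap K₁ K a) :=
      rfl
    rw [h4, AlgEquiv.commutes] at h3
    exact h3.symm
  have h3 : b ∈ Set.range (algebraMap k (kb k K)) := by
    rw [InfiniteGalois.mem_range_algebraMap_iff_fixed]
    exact h2
  obtain ⟨c, hc⟩ := h3
  refine ⟨c, ?_⟩
  apply (algebraMap K₁ K).injective
  apply (algebraMap K (Om K)).injective
  have h4 := congrArg (fun w : kb k K => (w : Om K)) hc
  change algebraMap k (Om K) c = algebraMap K (Om K) (algebraMap K₁ K a) at h4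
  rw [← h4, ← IsScalarTower.algebraMap_apply k K₁ K, ← E0_alg]

end GT
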