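import Mathlib
import Pool.Agent.MP_c1dca2_ag.GT.E0
import Pool.Agent.MP_c1dca2_ag.GT.E1
import Pool.Agent.MP_c1dca2_ag.GT.E2a
import Pool.Agent.MP_c1dca2_ag.GT.E2d
import Pool.Agent.MP_c1dca2_ag.GT.E3
import Pool.Agent.MP_c1dca2_ag.GT.P0
import Pool.Agent.MP_c1dca2_ag.GT.Q0
import Pool.Agent.MP_c1dca2_ag.GT.Y1
import Pool.Agent.MP_c1dca2_ag.GT.Y2
import Pool.Agent.MP_c1dca2_ag.SC2.AB
import Pool.Agent.MP_c1dca2_ag.SEC.Defs
import Pool.Agent.MP_c1dca2_ag.SEC.S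
import Pool.Agent.MP_c1dca2_ag.SUP.Defs
import Pool.Agent.MP_c1dca2_ag.SUU.U9

set_option autoImplicit false

open IsLocalRing Polynomial NumberField

namespace GT

open SEC SC2

/-! ## [GT-E4] the global theorem from the local theorem (file E4.lean) -/

/-- The curve `y ^ ℓ = c h` over `Y` and every curve with a nonconstant map to it have no section and
no rational point, and satisfy the section conjecture. -/
def NoSecOver (k K₁ : Type) [Field k] [Field K₁] [Algebra k K₁] (ℓ : ℕ) (h : K₁) (c : k) : Prop :=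
  ∀ (K : Type) [Field K] [Algebra k K] [Algebra K₁ K] [IsScalarTower k K₁ K] (y : K),
    y ^ ℓ = algebraMap k K c * algebraMap K₁ K h →
    SCJ.SectionConjecture k K ∧ IsEmpty (SCJ.Sect k K) ∧ IsEmpty (SCJ.RatPlace k K)

theorem e4_of_sect {k K : Type} [Field k] [CharZero k] [Field K] [Algebra k K]
    (h : IsEmpty (Sect k K)) :
    SCJ.SectionConjecture k K ∧ IsEmpty (SCJ.Sect k K) ∧ IsEmpty (SCJ.RatPlace k K) := by
  have h1 : IsEmpty (SCJ.Sect k K) := ⟨fun s => h.elim (y1_sect s)⟩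
  have h2 : IsEmpty (SCJ.RatPlace k K) := ⟨fun P => by
    obtain ⟨s⟩ := sect_of_ratPlace (y1_rat P)
    exact h.elim s⟩
  exact ⟨⟨fun P => h2.elim P, fun s => h1.elim s⟩, h1, h2⟩

theorem e4_card {k : Type} [Field k] {A : ValuationSubring k} [Finite (ResidueField A)] {p ℓ : ℕ}
    (hp : p.Prime) (hℓ : ℓ.Prime) (hne : ℓ ≠ p) (hA : Nat.card (ResidueField A) = p) :
    (ℓ : ResidueField A) ≠ 0 := by
  intro h
  have h0 : ((Nat.card (ResidueField A) : ℕ) : ResidueField A) = 0 := by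
    have := Fintype.ofFinite (ResidueField A)
    rw [Nat.card_eq_fintype_card]
    exact Nat.cast_card_eq_zero _
  rw [hA] at h0
  have h6 : p.Coprime ℓ := (Nat.coprime_primes hp hℓ).2 (Ne.symm hne)
  have h7 := Nat.isCoprime_iff_coprime.2 h6
  obtain ⟨u, v, huv⟩ := h7
  have h8 : ((u * (p : ℕ) + v * (ℓ : ℕ) : ℤ) : ResidueField A) = 1 := by
    rw [huv]; simp
  push_cast at h8
  rw [h0, h] at h8
  simp at h8

/-- The value of a polynomial at a nonunit. -/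
theorem e4_val {k : Type} [Field k] {A : ValuationSubring k} (c₁ : k[X]) (h : ∀ t ∈ c₁.coeffs, t ∈ A)
    (h0 : c₁.eval 0 ≠ 0) (hinv : (c₁.eval 0)⁻¹ ∈ A) {a : k} (ha : A.valuation a < 1) :
    A.valuation (c₁.eval a) = 1 := by
  have hco : ∀ i, A.valuation (c₁.coeff i) ≤ 1 := by
    intro i
    by_cases hi : c₁.coeff i = 0
    · rw [hi, map_zero]
      exact zero_le_one
    · exact (A.valuation_le_one_iff _).2 (h _ (coeff_mem_coeffs hi))
  have h1 : A.valuation (c₁.eval 0) = 1 := by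
    have h2 : A.valuation (c₁.eval 0) ≤ 1 := by
      rw [← coeff_zero_eq_eval_zero]
      exact hco 0
    have h3 : A.valuation (c₁.eval 0)⁻¹ ≤ 1 := (A.valuation_le_one_iff _).2 hinv
    rw [map_inv₀] at h3
    have h4 : A.valuation (c₁.eval 0) ≠ 0 := by
      rw [Ne, map_eq_zero]
      exact h0
    exact le_antisymm h2 ((inv_le_one₀ (zero_lt_iff.2 h4)).1 h3)
  have h2 : A.valuation (c₁.eval a - c₁.eval 0) < 1 := by
    have h3 : c₁.eval a - c₁.eval 0 = ∑ i ∈ Finset.range c₁.natDegree,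
        c₁.coeff (i + 1) * a ^ (i + 1) := by
      rw [eval_eq_sum_range, Finset.sum_range_succ', ← coeff_zero_eq_eval_zero, pow_zero, mul_one,
        add_sub_cancel_right]
    rw [h3]
    refine Valuation.map_sum_lt _ one_ne_zero fun i _ => ?_
    rw [map_mul, map_pow, pow_succ, ← mul_assoc, mul_comm]
    refine mul_lt_one_of_lt_of_le ha (mul_le_one₀ (hco _) zero_le (pow_le_one₀ zero_le ha.le))
  have h3 : c₁.eval a = (c₁.eval a - c₁.eval 0) + c₁.eval 0 := by ring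
  rw [h3, Valuation.map_add_eq_of_lt_right _ (by rw [h1]; exact h2), h1]

variable {k : Type} [Field k] [NumberField k]

/-- The global theorem, given the local theorem. -/
theorem e4_global {K₁ : Type} [Field K₁] [Algebra k K₁] (hF : FF (kb k K₁) (Lg k K₁)) {ℓ : ℕ}
    (hℓ : ℓ.Prime) {h : K₁} (hh : h ≠ 0) (hfin : (Br k K₁ ℓ h).Finite)
    (hLA : AA (LA k K₁ ℓ h))
    (σ : Lg k K₁ ≃ₐ[K₁] Lg k K₁) (hσ : ∀ P ∈ Br k K₁ ℓ h, ¬ ∀ z, σ z ∈ P ↔ z ∈ P)
    (c₁ : k[X]) (hc₁ : c₁.eval 0 ≠ 0)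
    {ι : Type} [Fintype ι] (b : Module.Basis ι ℤ (𝓞 k)) (ε : ℝ) (hε : 0 < ε) :
    ∃ M : ℕ, ∀ (u : ι → ℤ) (N : ι → ℕ), (∀ i, M ≤ N i) →
      (Nat.card {z : ι → ℤ // (∀ i, u i ≤ z i ∧ z i < u i + N i) ∧
        ¬ NoSecOver k K₁ ℓ h (((∑ i, z i • b i : 𝓞 k) : k) *
          c₁.eval ((∑ i, z i • b i : 𝓞 k) : k))} : ℝ) ≤ ε * ∏ i, (N i : ℝ) := by
  classical
  by_cases hcl : ∀ a : K₁, IsIntegral k a → a ∈ Set.range (algebraMap k K₁)
  swap
  · push Not at hcl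
    obtain ⟨a, ha, hak⟩ := hcl
    refine ⟨0, fun u N hN => ?_⟩
    have h1 : IsEmpty {z : ι → ℤ // (∀ i, u i ≤ z i ∧ z i < u i + N i) ∧
        ¬ NoSecOver k K₁ ℓ h (((∑ i, z i • b i : 𝓞 k) : k) *
          c₁.eval ((∑ i, z i • b i : 𝓞 k) : k))} := by
      refine ⟨fun z => z.2.2 ?_⟩
      intro K _ _ _ _ y hy
      exact e4_of_sect (e3_const ha hak K)
    rw [Nat.card_of_isEmpty, Nat.cast_zero]
    exact mul_nonneg hε.le (Finset.prod_nonneg fun i _ => Nat.cast_nonneg _)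
  obtain ⟨S, hS⟩ := hLA
  obtain ⟨g, x₀, hg, hσ₀, hgB⟩ := e2_main hcl hF hfin σ hσ
  obtain ⟨G, hG, hGS⟩ := e3_SG S
  obtain ⟨B₀, hB₀, hB₀'⟩ := SUU.almost_all (c₁.coeffs ∪ {(c₁.eval 0)⁻¹})
  have hsum := e1_primes' g G hg hG hσ₀ ℓ B₀ hB₀
  obtain ⟨M, hM⟩ := e1_density b _ (fun x => ¬ NoSecOver k K₁ ℓ h ((x : k) * c₁.eval (x : k)))
    hsum (by
      rintro P hPp ⟨hℓP, ⟨A, hA1, hA2, hA3, hA4, hA5, hA6, g', hg1, hg2, hg3, hg4⟩, hPB, hGA⟩ x hx hx2
      rw [not_not]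
      intro K _ _ _ _ y hy
      apply e4_of_sect
      have hPprime : P.IsPrime := Ideal.isPrime_of_irreducible_absNorm hPp
      have hT := hB₀' P hPprime hPB A hA4 hA5
      have hv := e4_val (A := A) c₁ (fun t ht => hT t (Finset.mem_union_left _ ht)) hc₁
        (hT _ (Finset.mem_union_right _ (Finset.mem_singleton_self _))) ((hA5 x).2 hx)
      have hne : (ℓ : ResidueField A) ≠ 0 := e4_card hPp hℓ hℓP.ne hA3
      refine e3_local hℓ hh S hS g x₀ hgB G hGS A hne (hGA A hA4 hA5) ⟨g', hg1, hg2, hg3, hg4⟩ _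
        ?_ y hy
      intro b
      rw [map_mul, hv, mul_one]
      exact hA6 x hx hx2 ℓ hℓ.two_le b) ε hε
  exact ⟨M, hM⟩

end GT
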