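import Mathlib
import Pool.Agent.MP_c1dca2_ag.GT.A3
import Pool.Agent.MP_c1dca2_ag.GT.Base
import Pool.Agent.MP_c1dca2_ag.GT.H0
import Pool.Agent.MP_c1dca2_ag.GT.L1
import Pool.Agent.MP_c1dca2_ag.GT.P0
import Pool.Agent.MP_c1dca2_ag.GT.P5a
import Pool.Agent.MP_c1dca2_ag.GT.P5d
import Pool.Agent.MP_c1dca2_ag.GT.P8a
import Pool.Agent.MP_c1dca2_ag.GT.P8b
import Pool.Agent.MP_c1dca2_ag.GT.P8d
import Pool.Agent.MP_c1dca2_ag.GT.S1
import Pool.Agent.MP_c1dca2_ag.SUP.L1

set_option autoImplicit false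
set_option linter.unusedVariables false

open IsLocalRing

namespace GT

/-! ## [GT-H1a] orders of functions -/

variable {C N N' : Type} [Field C] [Field N] [Algebra C N] [Field N'] [Algebra C N']

/-- A unit of the valuation ring has order zero. -/
theorem h1a_unit {O : ValuationSubring N} {o : N → ℤ} (ho : IsOrd C O o) {x : N} (hx : x ≠ 0)
    (h1 : x ∈ O) (h2 : x ∉ O.nonunits) : o x = 0 := by
  have h3 := (ho.mem x hx).1 h1
  have h4 : x⁻¹ ∈ O := by
    rw [ValuationSubring.mem_nonunits_iff, not_lt] at h2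
    rw [← ValuationSubring.valuation_le_one_iff, map_inv₀]
    exact inv_le_one_of_one_le₀ h2
  have h5 := (ho.mem _ (inv_ne_zero hx)).1 h4
  rw [ord_inv ho hx] at h5
  omega

/-- Only finitely many places have a nonzero order at `t`.

Proof. `exists_pl` gives `O₁`, `exists_model` (P8a) a model `d`, `T`, `E`, `h` at `O₁`; `WB T` is a Dedekind domain (`h.ded`). `t * E b = E a`, `a`, `b ≠ 0` (`h.frac`). Let `O ≠ O₁` be a place with `od C O t ≠ 0` and `P` its ideal (`Model.place`).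
Then `a * b ∈ P` (otherwise `E a`, `E b` are units of `O`, of order `0`: `IsOrd.mem`, `ord_inv`; `E b ∈ O` because of `h.range`). The ideals `P ⊇ (a b)` are finitely many (`finite_ge`, L1) and `O ↦ P` is injective, because `f ∈ O ↔ ∃ a b, b ∉ P ∧ f * E b = E a`. So the set is finite
(`Set.Finite.subset`, `Set.Finite.of_injOn`-type argument, plus the point `O₁`). -/
theorem finite_ord [CharZero C] [IsAlgClosed C] (hF : FF C N) {t : N} (ht : t ≠ 0) :
    {O : ValuationSubring N | IsPl C O ∧ od C O t ≠ 0}.Finite := by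
  obtain ⟨O₁, hO₁⟩ := exists_pl hF
  obtain ⟨d, hd, T, E, h⟩ := exists_model hF hO₁
  have := h.ded
  obtain ⟨a, b, hb, hab⟩ := h.frac t
  have hE : ∀ z : WB T, z ≠ 0 → E z ≠ 0 := fun z hz hz' => hz (h.inj (by rw [hz', map_zero]))
  have ha : a ≠ 0 := by
    rintro rfl
    rw [map_zero] at hab
    exact mul_ne_zero ht (hE b hb) hab
  have hne : (Ideal.span {a * b} : Ideal (WB T)) ≠ ⊥ := by
    rw [Ne, Ideal.span_singleton_eq_bot]
    exact mul_ne_zero ha hb
  have key : ∀ O : ValuationSubring N, O ∈ {O : ValuationSubring N | IsPl C O ∧ od C O t ≠ 0} \ {O₁} →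
      ∃ P : Ideal (WB T), Ideal.span {a * b} ≤ P ∧
        ∀ f : N, f ∈ O ↔ ∃ a b : WB T, b ∉ P ∧ f * E b = E a := by
    rintro O ⟨⟨hO, hot⟩, hOne⟩
    have hOne' : O ≠ O₁ := hOne
    obtain ⟨P, hP, hP0, hP1, hP2⟩ := h.place hF hO₁ hO hOne'
    refine ⟨P, ?_, hP2⟩
    rw [Ideal.span_singleton_le_iff_mem]
    by_contra hc
    have hpr := hP.isPrime
    have haP : a ∉ P := fun h' => hc (P.mul_mem_right b h')
    have hbP : b ∉ P := fun h' => hc (P.mul_mem_left a h')
    have ho := od_spec hF hO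
    have hmem : ∀ z : WB T, E z ∈ O := fun z => (h.range (E z)).2 ⟨z, rfl⟩ O hO hOne'
    have h1 := h1a_unit ho (hE a ha) (hmem a) (fun h' => haP ((hP1 a).2 h'))
    have h2 := h1a_unit ho (hE b hb) (hmem b) (fun h' => hbP ((hP1 b).2 h'))
    have h3 := ho.mul t (E b) ht (hE b hb)
    rw [hab] at h3
    apply hot
    omega
  choose! F hF1 hF2 using key
  refine Set.Finite.of_sdiff ?_ (Set.finite_singleton O₁)
  refine Set.Finite.of_injOn (f := F) (t := {I : Ideal (WB T) | Ideal.span {a * b} ≤ I})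
    (fun O hO => hF1 O hO) ?_ (finite_ge hne)
  intro O hO O' hO' heq
  ext f
  rw [hF2 O hO f, hF2 O' hO' f]
  have heq' : F O = F O' := heq
  rw [heq']

end GT
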