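import Mathlib
import Pool.Agent.MP_c1dca2_ag.GT.Base
import Pool.Agent.MP_c1dca2_ag.GT.H0
import Pool.Agent.MP_c1dca2_ag.GT.H2a
import Pool.Agent.MP_c1dca2_ag.GT.P0
import Pool.Agent.MP_c1dca2_ag.GT.Q0
import Pool.Agent.MP_c1dca2_ag.SEC.Defs
import Pool.Agent.MP_c1dca2_ag.SEC.S

set_option autoImplicit false
set_option linter.unusedVariables false

open IsLocalRing

namespace GT

/-! ## [GT-H2b] function fields inside `Ω` -/

section

variable {C Ω : Type} [Field C] [Field Ω] [Algebra C Ω] [CharZero C]

end

variable {k K : Type} [Field k] [Field K] [Algebra k K]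

/-- Proof. `x' = algebraMap K Ω x` is transcendental over `k`, so over `C = kb k K` (algebraic over `k`). A basis `e_j` of `K` over `k(x)`: `LL = adjoin C (insert x' {e_j'})`: `K` is contained in the right-hand side, as every element is a combination of the `e_j` with coefficients in `k(x)`; the `e_j'` are algebraic over `k(x')`,
so over `C(x')`. `ff_adjoin`. -/
theorem ff_LL [CharZero k] {x : K} (hx : Transcendental k x)
    (hfin : FiniteDimensional (IntermediateField.adjoin k {x}) K) : FF (kb k K) (LL k K) := by
  classical
  let C := kb k K
  let x' : Om K := algebraMap K (Om K) x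
  have hx' : Transcendental C x' := by
    intro h
    apply hx
    have h1 : IsAlgebraic k x' := by
      have : Algebra.IsAlgebraic k C := inferInstance
      exact IsAlgebraic.restrictScalars k h
    exact (isAlgebraic_algebraMap_iff (algebraMap K (Om K)).injective).1 h1
  let ι := Fin (Module.finrank (IntermediateField.adjoin k {x}) K)
  let e : Module.Basis ι (IntermediateField.adjoin k {x}) K := Module.finBasis _ _
  let s : Finset (Om K) := Finset.univ.image fun j => algebraMap K (Om K) (e j)
  have hmem : ∀ c ∈ IntermediateField.adjoin k {x}, algebraMap K (Om K) c ∈ IntermediateField.adjoin C {x'} := by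
    intro c hc
    have h1 : (IntermediateField.adjoin k {x}) ≤
        ((IntermediateField.adjoin C {x'}).restrictScalars k).comap (IsScalarTower.toAlgHom k K (Om K)) := by
      rw [IntermediateField.adjoin_le_iff]
      intro y hy
      rw [Set.mem_singleton_iff] at hy
      subst hy
      exact IntermediateField.mem_adjoin_simple_self C x'
    exact h1 hc
  have hLL : LL k K = IntermediateField.adjoin C (insert x' (s : Set (Om K))) := by
    apply le_antisymm
    · rw [LL, IntermediateField.adjoin_le_iff]
      rintro _ ⟨y, rfl⟩
      have hxle : IntermediateField.adjoin C {x'} ≤ IntermediateField.adjoin C (insert x' (s : Set (Om K))) :=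
        IntermediateField.adjoin.mono C _ _ (Set.singleton_subset_iff.2 (Set.mem_insert _ _))
      have h2 : algebraMap K (Om K) y = ∑ j, algebraMap K (Om K) (e.repr y j : K) * algebraMap K (Om K) (e j) := by
        conv_lhs => rw [← e.sum_repr y]
        rw [map_sum]
        apply Finset.sum_congr rfl
        intro j _
        rw [← map_mul]
        rfl
      rw [SetLike.mem_coe, h2]
      apply sum_mem
      intro j _
      apply mul_mem
      · exact hxle (hmem _ (e.repr y j).2)
      · apply IntermediateField.subset_adjoin
        apply Set.mem_insert_of_mem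
        rw [Finset.mem_coe]
        exact Finset.mem_image_of_mem _ (Finset.mem_univ j)
    · rw [IntermediateField.adjoin_le_iff]
      intro y hy
      rcases Set.mem_insert_iff.1 hy with rfl | hy
      · exact IntermediateField.subset_adjoin _ _ ⟨x, rfl⟩
      · rw [Finset.mem_coe, Finset.mem_image] at hy
        obtain ⟨j, _, rfl⟩ := hy
        exact IntermediateField.subset_adjoin _ _ ⟨e j, rfl⟩
  have hs : ∀ y ∈ s, IsAlgebraic (IntermediateField.adjoin C {x'}) y := by
    intro y hy
    rw [Finset.mem_image] at hy
    obtain ⟨j, _, rfl⟩ := hy
    have halg : IsAlgebraic (IntermediateField.adjoin k {x}) (e j) := Algebra.IsAlgebraic.isAlgebraic _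
    obtain ⟨p, hp0, hp⟩ := halg
    let φ : IntermediateField.adjoin k {x} →+* IntermediateField.adjoin C {x'} :=
      { toFun := fun c => ⟨algebraMap K (Om K) c, hmem _ c.2⟩
        map_one' := Subtype.ext (map_one _)
        map_mul' := fun a b => Subtype.ext (map_mul _ _ _)
        map_zero' := Subtype.ext (map_zero _)
        map_add' := fun a b => Subtype.ext (map_add _ _ _) }
    refine ⟨p.map φ, ?_, ?_⟩
    · rw [Ne, Polynomial.map_eq_zero]
      exact hp0
    · rw [Polynomial.aeval_def, Polynomial.eval₂_map]
      have h3 : (algebraMap (IntermediateField.adjoin C {x'}) (Om K)).comp φ =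
          (algebraMap K (Om K)).comp (algebraMap (IntermediateField.adjoin k {x}) K) := by
        ext c
        rfl
      rw [h3, ← Polynomial.hom_eval₂, ← Polynomial.aeval_def, hp, map_zero]
  rw [hLL]
  exact ff_adjoin hx' s hs

end GT
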