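import Mathlib
import Pool.Agent.MP_c1dca2_ag.GT.Base
import Pool.Agent.MP_c1dca2_ag.GT.H0
import Pool.Agent.MP_c1dca2_ag.GT.H1b
import Pool.Agent.MP_c1dca2_ag.GT.K0
import Pool.Agent.MP_c1dca2_ag.GT.Kv
import Pool.Agent.MP_c1dca2_ag.GT.P0
import Pool.Agent.MP_c1dca2_ag.GT.Q0
import Pool.Agent.MP_c1dca2_ag.SC2.B1
import Pool.Agent.MP_c1dca2_ag.SEC.Defs
import Pool.Agent.MP_c1dca2_ag.SEC.M1
import Pool.Agent.MP_c1dca2_ag.SEC.S

set_option autoImplicit false
set_option linter.unusedVariables false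

open IsLocalRing

namespace GT

/-! ## [GT-H3a] roots in `M`, weights -/

theorem h3a_one {L : Type} [Field L] (B : ValuationSubring L) (z : L) (hz : z ≠ 0) :
    B.valuation z = 1 ↔ z ∈ B ∧ z⁻¹ ∈ B := by
  have h0 : B.valuation z * B.valuation z⁻¹ = 1 := by
    rw [← map_mul, mul_inv_cancel₀ hz, map_one]
  constructor
  · intro h
    rw [h, one_mul] at h0
    exact ⟨(B.valuation_le_one_iff _).1 h.le, (B.valuation_le_one_iff _).1 h0.le⟩
  · rintro ⟨h1, h2⟩
    have h3 := (B.valuation_le_one_iff _).2 h1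
    have h4 := (B.valuation_le_one_iff _).2 h2
    refine le_antisymm h3 ?_
    by_contra h5
    push Not at h5
    have h6 : B.valuation z * B.valuation z⁻¹ < 1 := mul_lt_one_of_lt_of_le h5 h4
    rw [h0] at h6
    exact lt_irrefl _ h6

theorem h3a_comap {L N : Type} [Field L] [Field N] (f : N →+* L) (B : ValuationSubring L)
    (B' : ValuationSubring N) (hB : ∀ z, z ∈ B' ↔ f z ∈ B) (ℓ : ℕ) (a b : N) (ha : a ≠ 0)
    (hb : b ≠ 0) :
    B'.valuation a = B'.valuation b ^ ℓ ↔ B.valuation (f a) = B.valuation (f b) ^ ℓ := by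
  have hbl : b ^ ℓ ≠ 0 := pow_ne_zero _ hb
  have hfa : f a ≠ 0 := (map_ne_zero f).2 ha
  have hfb : f b ≠ 0 := (map_ne_zero f).2 hb
  have h1 : B'.valuation a = B'.valuation b ^ ℓ ↔ B'.valuation (a / b ^ ℓ) = 1 := by
    rw [map_div₀, map_pow, div_eq_one_iff_eq]
    exact pow_ne_zero _ ((B'.valuation.ne_zero_iff).2 hb)
  have h2 : B.valuation (f a) = B.valuation (f b) ^ ℓ ↔ B.valuation (f (a / b ^ ℓ)) = 1 := by
    rw [map_div₀, map_pow, map_div₀, map_pow, div_eq_one_iff_eq]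
    exact pow_ne_zero _ ((B.valuation.ne_zero_iff).2 hfb)
  rw [h1, h2, h3a_one _ _ (div_ne_zero ha hbl), h3a_one _ _ ((map_ne_zero f).2 (div_ne_zero ha hbl)),
    hB, hB, map_inv₀]

variable {k K : Type} [Field k] [Field K] [Algebra k K]

/-- Proof. `p.root` with `z = t`. Let `B` be a place of `Ω` over `k`. It contains `C = kb k K` (integral over `k`); let `P = B.comap (F → Ω)`. If `P = ⊤` then `t`, `t⁻¹ ∈ B`, `B.valuation t = 1 = B.valuation 1 ^ ℓ`. Otherwise `P` is a place of `F / C`, `IsOrd C P (od C P)` (`od_spec`).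
`exists_val_root` (Kv) for `f : F →+* p.M` (the inclusion, `hle`) and the valuation ring `B.comap (p.M → Ω)` of `p.M`: the order of `t` is divisible by `ℓ`, or the order of `u` is prime to `ℓ` and the value of `u` is the `ℓ`-th power of the value of `y`. (Values for `B.comap` and `B`: `v(a) = v(b) ^ ℓ` for `b ≠ 0` says
that `a / b ^ ℓ` and its inverse are in the ring.) -/
theorem root_gen [CharZero k] {ℓ : ℕ} [Fact ℓ.Prime] (p : PS k K)
    (F : IntermediateField (kb k K) (Om K)) (hFF : FF (kb k K) F) (hle : ∀ z ∈ F, z ∈ p.M)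
    (u : F) (hu : u ≠ 0) (y : p.M)
    (hy : ∀ B, IsPlace k K B → B.valuation (u : Om K) = B.valuation (y : Om K) ^ ℓ) (t : F)
    (ht : t ≠ 0)
    (hord : ∀ P, IsPl (kb k K) P → (ℓ : ℤ) ∣ od (kb k K) P t ∨ ¬ (ℓ : ℤ) ∣ od (kb k K) P u)
    (ρ : Om K) (hρ : ρ ^ ℓ = t) : ρ ∈ p.M := by
  have hℓ : Fact ℓ.Prime := inferInstance
  have hac : IsAlgClosed (kb k K) := SC2.kb_isAlgClosed
  have hcz : CharZero (kb k K) := charZero_of_injective_algebraMap (algebraMap k (kb k K)).injective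
  refine p.root ⟨t, hle t t.2⟩ ℓ hℓ.out.pos ρ hρ fun B hB => ?_
  let f : F →+* p.M :=
    { toFun := fun z => ⟨z, hle z z.2⟩
      map_one' := rfl
      map_mul' := fun _ _ => rfl
      map_zero' := rfl
      map_add' := fun _ _ => rfl }
  have hf : ∀ z : F, ((f z : p.M) : Om K) = (z : Om K) := fun z => rfl
  let B' : ValuationSubring p.M := B.comap (algebraMap p.M (Om K))
  have hB' : ∀ z : p.M, z ∈ B' ↔ algebraMap p.M (Om K) z ∈ B := fun z => Iff.rfl
  let P : ValuationSubring F := B'.comap f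
  have hP : ∀ z : F, z ∈ P ↔ f z ∈ B' := fun z => Iff.rfl
  by_cases hPt : P = ⊤
  · refine ⟨1, ?_⟩
    have h1 : (t : Om K) ≠ 0 := fun h => ht (Subtype.ext h)
    have h2 : B.valuation (t : Om K) = 1 := by
      rw [h3a_one B _ h1]
      have h3 : t ∈ P := by rw [hPt]; trivial
      have h4 : t⁻¹ ∈ P := by rw [hPt]; trivial
      exact ⟨h3, h4⟩
    change B.valuation (t : Om K) = B.valuation (1 : Om K) ^ ℓ
    rw [h2, map_one, one_pow]
  · have hpl : IsPl (kb k K) P := ⟨fun c => SEC.place_alg B hB _ c.2, hPt⟩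
    have hord' := od_spec hFF hpl
    have h5 : ((od (kb k K) P t : ℤ) : ZMod ℓ) = 0 ∨ ∃ (u : F) (y : p.M), u ≠ 0 ∧
        ((od (kb k K) P u : ℤ) : ZMod ℓ) ≠ 0 ∧ B'.valuation (f u) = B'.valuation y ^ ℓ := by
      rcases hord P hpl with h6 | h6
      · exact Or.inl ((ZMod.intCast_zmod_eq_zero_iff_dvd _ _).2 h6)
      · refine Or.inr ⟨u, y, hu, fun h7 => h6 ((ZMod.intCast_zmod_eq_zero_iff_dvd _ _).1 h7), ?_⟩
        have hfu : f u ≠ 0 := (map_ne_zero f).2 hu
        have hy0 : y ≠ 0 := by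
          rintro rfl
          have h8 := hy B hB
          rw [ZeroMemClass.coe_zero, map_zero, zero_pow hℓ.out.ne_zero] at h8
          exact (B.valuation.ne_zero_iff).2 (fun h => hu (Subtype.ext h)) h8
        exact (h3a_comap (algebraMap p.M (Om K)) B B' hB' ℓ (f u) y hfu hy0).2 (hy B hB)
    obtain ⟨w, hw⟩ := exists_val_root f B' hP hord' ℓ t ht h5
    have hft : f t ≠ 0 := (map_ne_zero f).2 ht
    have hw0 : w ≠ 0 := by
      rintro rfl
      rw [map_zero, zero_pow hℓ.out.ne_zero] at hw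
      exact (B'.valuation.ne_zero_iff).2 hft hw
    exact ⟨w, (h3a_comap (algebraMap p.M (Om K)) B B' hB' ℓ (f t) w hft hw0).1 hw⟩

/-- Proof. `root_gen` with `u = 1`, `y = 1`. -/
theorem root_unr [CharZero k] {ℓ : ℕ} [Fact ℓ.Prime] (p : PS k K)
    (F : IntermediateField (kb k K) (Om K)) (hFF : FF (kb k K) F) (hle : ∀ z ∈ F, z ∈ p.M) (t : F)
    (ht : t ≠ 0) (hord : ∀ P, IsPl (kb k K) P → (ℓ : ℤ) ∣ od (kb k K) P t)
    (ρ : Om K) (hρ : ρ ^ ℓ = t) : ρ ∈ p.M := by
  refine root_gen p F hFF hle 1 one_ne_zero 1 (fun B _ => ?_) t ht (fun P hP => Or.inl (hord P hP))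
    ρ hρ
  rw [OneMemClass.coe_one, OneMemClass.coe_one, map_one, one_pow]

/-- Proof. `root_gen` with `u = hF.emb h`, `y = y₁`: `y₁ ^ ℓ = c h` and `B.valuation c = 1` for all places `B` over `k` (`c ≠ 0` by `hw.val`: otherwise `b = 0`). `mem_OM_iff`. -/
theorem root_ram [CharZero k] {ℓ : ℕ} [Fact ℓ.Prime] {x : Loc k K ℓ}
    {F : IntermediateField (kb k K) (Om K)} (hF : Fd ℓ F) {h : K} (hh : h ≠ 0) {c : k} {y₁ : Om K}
    (hw : Tw x h c y₁) (t : F) (ht : t ≠ 0)
    (hord : ∀ P, IsPl (kb k K) P → P ∉ OM (kb k K) ℓ (hF.emb h) → (ℓ : ℤ) ∣ od (kb k K) P t)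
    (ρ : Om K) (hρ : ρ ^ ℓ = t) : ρ ∈ x.p.M := by
  have hℓ : Fact ℓ.Prime := inferInstance
  have hac : IsAlgClosed (kb k K) := SC2.kb_isAlgClosed
  have hcz : CharZero (kb k K) := charZero_of_injective_algebraMap (algebraMap k (kb k K)).injective
  have hc : c ≠ 0 := by
    rintro rfl
    refine hw.val 0 ?_
    rw [map_zero, zero_pow hℓ.out.ne_zero]
  have hemb : hF.emb h ≠ 0 := by
    intro h0
    have h1 : algebraMap K (Om K) h = 0 := congrArg Subtype.val h0
    exact hh ((map_eq_zero (algebraMap K (Om K))).1 h1)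
  obtain ⟨hyM, -⟩ := hw.fix 1
  refine root_gen x.p F hF.ff (hF.le x.p) (hF.emb h) hemb ⟨y₁, hyM⟩ (fun B hB => ?_) t ht
    (fun P hP => ?_) ρ hρ
  · have h1 : B.valuation (y₁ ^ ℓ) = B.valuation (algebraMap K (Om K) h) := by
      rw [hw.pow, map_mul, map_mul]
      have h2 : B.valuation (algebraMap K (Om K) (algebraMap k K c)) = 1 := by
        refine SEC.place_alg_val B hB _ ?_ ?_
        · have h3 : algebraMap K (Om K) (algebraMap k K c) = algebraMap k (Om K) c :=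
            (IsScalarTower.algebraMap_apply k K (Om K) c).symm
          rw [h3]
          exact (kb k K).algebraMap_mem c
        · exact (map_ne_zero _).2 ((map_ne_zero _).2 hc)
      rw [h2, one_mul]
    rw [← map_pow, h1]
    rfl
  · by_cases h1 : P ∈ OM (kb k K) ℓ (hF.emb h)
    · exact Or.inr ((mem_OM_iff hF.ff hemb P).1 h1).2
    · exact Or.inl (hord P hP h1)

variable {ℓ : ℕ} [hℓ : Fact ℓ.Prime] {x : Loc k K ℓ} {τ : kb k K ≃ₐ[k] kb k K} {ζ : kb k K}
  {t t' : Om K} {w w' : ZMod ℓ}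

end GT
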