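import Mathlib
import Pool.Agent.MP_c1dca2_ag.GT.Base
import Pool.Agent.MP_c1dca2_ag.GT.H0
import Pool.Agent.MP_c1dca2_ag.GT.H3b
import Pool.Agent.MP_c1dca2_ag.GT.Q0
import Pool.Agent.MP_c1dca2_ag.SC2.AB
import Pool.Agent.MP_c1dca2_ag.SC2.B1
import Pool.Agent.MP_c1dca2_ag.SEC.Defs
import Pool.Agent.MP_c1dca2_ag.SEC.S
import Pool.Agent.MP_c1dca2_ag.SUP.R0
import Pool.Agent.MP_c1dca2_ag.SUP.R2

set_option autoImplicit false
set_option linter.unusedVariables false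

open IsLocalRing

namespace GT

/-! ## [GT-H4a] the weight of `h`, conjugation of weights by Frobenius -/

variable {k K : Type} [Field k] [Field K] [Algebra k K] {ℓ : ℕ} [hℓ : Fact ℓ.Prime]
  {x : Loc k K ℓ} {τ : kb k K ≃ₐ[k] kb k K} {ζ : kb k K}

/-- Proof. `kb k K` is algebraically closed and Galois over `k` (`SC2.kb_isAlgClosed`, `SC2.kb_isGalois`): choose `z` with `z ^ ℓ = c`; `SUP.exists_tau` (SUP/R2; `x.above`, `x.hℓ`, `hw.val`) gives `τ` with `τ z ≠ z`. Another root is `ξ z` with `ξ ^ ℓ = 1` (`z ≠ 0` as `c ≠ 0`: otherwise `hw.val 0`), and `τ ξ = ξ`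
(`SUP.iner_root`, `m = 1`). -/
theorem exists_tau_of [CharZero k] {h : K} {c : k} {y₁ : Om K} (hw : Tw x h c y₁) :
    ∃ τ : kb k K ≃ₐ[k] kb k K, Iner x.V τ ∧
      ∀ z : kb k K, z ^ ℓ = algebraMap k (kb k K) c → τ z ≠ z := by
  have hac : IsAlgClosed (kb k K) := SC2.kb_isAlgClosed
  have hgal : IsGalois k (kb k K) := SC2.kb_isGalois
  have hℓ0 : ℓ ≠ 0 := hℓ.out.ne_zero
  have hc : c ≠ 0 := by
    rintro rfl
    apply hw.val 0
    rw [map_zero, zero_pow hℓ0]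
  obtain ⟨z, hz⟩ := IsAlgClosed.exists_pow_nat_eq (algebraMap k (kb k K) c) hℓ.out.pos
  obtain ⟨τ, hτ, hτz⟩ := SUP.exists_tau (ℓ := ℓ) x.above x.hℓ c hw.val z hz
  refine ⟨τ, hτ, fun z' hz' hfix => hτz ?_⟩
  have hc0 : algebraMap k (kb k K) c ≠ 0 := (_root_.map_ne_zero _).2 hc
  have hz'0 : z' ≠ 0 := by
    rintro rfl
    rw [zero_pow hℓ0] at hz'
    exact hc0 hz'.symm
  have hξ : (z / z') ^ ℓ = 1 := by rw [div_pow, hz, hz', div_self hc0]
  have h1 : τ (z / z') = z / z' :=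
    SUP.iner_root x.hℓ 1 _ (by rw [pow_one]; exact hξ) τ hτ
  have h2 : z = z / z' * z' := (div_mul_cancel₀ z hz'0).symm
  calc τ z = τ (z / z' * z') := by rw [← h2]
    _ = z / z' * z' := by rw [map_mul, h1, hfix]
    _ = z := h2.symm

/-- Proof. `c ≠ 0` (`hw.val 0`). Choose `z : kb k K` with `z ^ ℓ = c`. `ρ = y₁ / z`: `ρ ^ ℓ = h` (`hw.pow`). If `w = 0` then `τ` fixes `ρ` (`Wt.fix`) and `y₁` (`hw.fix`), so `z = y₁ / ρ` (`ρ ≠ 0`), and `toHom τ (iota z) = iota (τ z)`: `τ z = z`, contradiction to `hm`. -/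
theorem Wt.h_ne [CharZero k] {h : K} (hh : h ≠ 0) {c : k} {y₁ : Om K} (hw : Tw x h c y₁)
    (hτ : Iner x.V τ) (hm : ∀ z : kb k K, z ^ ℓ = algebraMap k (kb k K) c → τ z ≠ z) {w : ZMod ℓ}
    (hW : Wt x τ ζ (algebraMap K (Om K) h) w) : w ≠ 0 := by
  rintro rfl
  have hac : IsAlgClosed (kb k K) := SC2.kb_isAlgClosed
  have hℓ0 : ℓ ≠ 0 := hℓ.out.ne_zero
  have hc : c ≠ 0 := by
    rintro rfl
    apply hw.val 0
    rw [map_zero, zero_pow hℓ0]
  obtain ⟨z, hz⟩ := IsAlgClosed.exists_pow_nat_eq (algebraMap k (kb k K) c) hℓ.out.pos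
  apply hm z hz
  have hc0 : algebraMap k (kb k K) c ≠ 0 := (_root_.map_ne_zero _).2 hc
  have hz0 : z ≠ 0 := by
    rintro rfl
    rw [zero_pow hℓ0] at hz
    exact hc0 hz.symm
  have hz0' : (z : Om K) ≠ 0 := by
    intro h0
    exact hz0 (Subtype.ext h0)
  have hh0 : algebraMap K (Om K) h ≠ 0 := (_root_.map_ne_zero _).2 hh
  have hzp : (z : Om K) ^ ℓ = algebraMap K (Om K) (algebraMap k K c) := by
    have h1 := congrArg (fun a : kb k K => (a : Om K)) hz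
    exact h1
  have hρ : (y₁ / (z : Om K)) ^ ℓ = algebraMap K (Om K) h := by
    rw [div_pow, hw.pow, hzp, map_mul]
    have h2 : algebraMap K (Om K) (algebraMap k K c) ≠ 0 := by
      rw [← hzp]
      exact pow_ne_zero _ hz0'
    rw [mul_div_cancel_left₀ _ h2]
  obtain ⟨hM, hfix⟩ := Wt.fix hτ hW _ hρ
  obtain ⟨hM1, hfix1⟩ := hw.fix τ
  have hρ0 : (y₁ / (z : Om K)) ≠ 0 := by
    intro h0
    rw [h0, zero_pow hℓ0] at hρ
    exact hh0 hρ.symm
  have h3 : x.p.iota z = (⟨y₁, hM1⟩ : x.p.M) / ⟨y₁ / (z : Om K), hM⟩ := by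
    apply Subtype.ext
    rw [x.p.iota_coe]
    change (z : Om K) = y₁ / (y₁ / (z : Om K))
    have hy0 : y₁ ≠ 0 := by
      intro h0
      exact hρ0 (by rw [h0, zero_div])
    field_simp
  have h4 : x.p.toHom τ (x.p.iota z) = x.p.iota z := by
    rw [h3, map_div₀, hfix, hfix1]
  rw [PS.toHom_iota] at h4
  exact x.p.iota.injective h4

end GT
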