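import Mathlib
import Pool.Agent.MP_c1dca2_ag.GT.A10
import Pool.Agent.MP_c1dca2_ag.GT.A3
import Pool.Agent.MP_c1dca2_ag.GT.Base
import Pool.Agent.MP_c1dca2_ag.GT.Defs
import Pool.Agent.MP_c1dca2_ag.GT.L1
import Pool.Agent.MP_c1dca2_ag.GT.M2
import Pool.Agent.MP_c1dca2_ag.GT.Q0
import Pool.Agent.MP_c1dca2_ag.GT.Y1
import Pool.Agent.MP_c1dca2_ag.SEC.Defs
import Pool.Agent.MP_c1dca2_ag.SUP.Defs
import Pool.Agent.MP_c1dca2_ag.SUP.L1

set_option autoImplicit false
set_option linter.unusedSectionVars false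

open Polynomial

namespace GT

/-! ## [GT-M3] embeddings of `WB T` in `M`; roots of generators of powers of ideals (file M3.lean) -/

variable {k K : Type} [Field k] [Field K] [Algebra k K] {p : PS k K} {d : ℕ} [NeZero d]
  {T : Tab (kb k K) d}

/-- `E` is an embedding of `WB T` in `M` over the constants. -/
structure Emb (p : PS k K) (E : WB T →+* p.M) : Prop where
  alg : ∀ a : kb k K, E (algebraMap (kb k K) (WB T) a) = p.iota a
  inj : Function.Injective E

variable {E : WB T →+* p.M}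

theorem Emb.ne (h : Emb p E) {b : WB T} (hb : b ≠ 0) : E b ≠ 0 :=
  (map_ne_zero_iff _ h.inj).2 hb

/-- The valuation of the place `B` on `M`. -/
noncomputable abbrev vM (p : PS k K) (B : ValuationSubring (Om K)) : Valuation p.M B.ValueGroup :=
  B.valuation.comap (algebraMap p.M (Om K))

theorem Emb.vconst (h : Emb p E) (B : ValuationSubring (Om K)) (hB : IsPlace k K B) (a : kb k K)
    (ha : a ≠ 0) : vM p B (E (algebraMap (kb k K) (WB T) a)) = 1 := by
  rw [h.alg]
  exact y1_val_const B hB a ha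

/-- A place where `x` has a pole. -/
theorem Emb.val_inf (h : Emb p E) (B : ValuationSubring (Om K)) (hB : IsPlace k K B)
    (hx : 1 < B.valuation ((E (WB.x T) : p.M) : Om K)) {b : WB T} (hb : b ≠ 0) :
    B.valuation ((E b : p.M) : Om K) ^ d =
      B.valuation ((E (WB.x T) : p.M) : Om K) ^ pord b :=
  m2_val (vM p B) E (h.vconst B hB) hx hb

/-- A place where `x` has no pole. -/
theorem Emb.mem (h : Emb p E) (B : ValuationSubring (Om K)) (hB : IsPlace k K B)
    (hx : B.valuation ((E (WB.x T) : p.M) : Om K) ≤ 1) (b : WB T) :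
    B.valuation ((E b : p.M) : Om K) ≤ 1 :=
  m2_le (vM p B) E (h.vconst B hB) hx b

/-- A place where `x` has a pole: an element `z` with `|z|^d = |x|`. -/
theorem Emb.exists_z (h : Emb p E) (B : ValuationSubring (Om K)) (hB : IsPlace k K B)
    (hx : 1 < B.valuation ((E (WB.x T) : p.M) : Om K)) :
    ∃ z : p.M, B.valuation (z : Om K) ^ d = B.valuation ((E (WB.x T) : p.M) : Om K) := by
  obtain ⟨b₁, b₂, h1, h2, h12⟩ := exists_consec T
  refine ⟨E b₂ / E b₁, ?_⟩
  have h3 := h.val_inf B hB hx h1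
  have h4 := h.val_inf B hB hx h2
  have h5 : ((E b₂ / E b₁ : p.M) : Om K) = (E b₂ : Om K) / (E b₁ : Om K) := rfl
  rw [h5, map_div₀, div_pow, h3, h4, h12, pow_succ, mul_div_assoc, mul_comm,
    div_mul_cancel₀]
  exact (pow_pos (lt_trans zero_lt_one hx) _).ne'

/-- Compare SUP/M3b.lean. -/
theorem root_mem [IsAlgClosed (kb k K)] [IsDedekindDomain (WB T)] (hE : Emb p E)
    (J : Ideal (WB T)) (hJ : J ≠ ⊥) (N : ℕ) (hN : 0 < N)
    (g : WB T) (h : J ^ N = Ideal.span {g}) (ρ : Om K)
    (hρ : ρ ^ N = ((E g : p.M) : Om K)) : ρ ∈ p.M := by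
  refine p.root (E g) N hN ρ hρ ?_
  intro B hB
  rcases le_or_gt (B.valuation ((E (WB.x T) : p.M) : Om K)) 1 with hxB | hxB
  · have hFG : J.FG := IsNoetherian.noetherian J
    obtain ⟨b, hb⟩ := y1_val_gen ((algebraMap p.M (Om K)).comp E) B
      (fun b => hE.mem B hB hxB b) J hFG N hN g h
    exact ⟨E b, hb⟩
  · have hg : g ≠ 0 := by
      intro hg0
      rw [hg0, Ideal.span_singleton_eq_bot.2 rfl] at h
      exact pow_ne_zero N hJ h
    have h1 : pord g = N * len J := by
      rw [← len_span hg, ← h, SUP.len_pow hJ]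
    have h2 := hE.val_inf B hB hxB hg
    obtain ⟨z, h3⟩ := hE.exists_z B hB hxB
    refine ⟨z ^ len J, ?_⟩
    have h4 : B.valuation ((z ^ len J : p.M) : Om K) =
        B.valuation (z : Om K) ^ len J := by
      rw [← map_pow]
      rfl
    rw [h4]
    refine (pow_left_inj₀ zero_le zero_le (NeZero.ne d)).1 ?_
    rw [h2, h1, ← h3]
    rw [← pow_mul, ← pow_mul, ← pow_mul]
    congr 1
    ring

end GT
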