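import Mathlib
import Pool.Agent.MP_c1dca2_ag.GT.Base
import Pool.Agent.MP_c1dca2_ag.GT.M3
import Pool.Agent.MP_c1dca2_ag.GT.Q0
import Pool.Agent.MP_c1dca2_ag.SEC.Defs

set_option autoImplicit false
set_option linter.unusedSectionVars false

open Polynomial

namespace GT

/-! ## [GT-M4] equivariance of the embedding (file M4.lean) -/

variable {k K : Type} [Field k] [Field K] [Algebra k K] {p : PS k K} {d : ℕ} [NeZero d]
  {T : Tab (kb k K) d} {E : WB T →+* p.M}

/-- `σ` fixes the images of `X` and of the `f_j`. -/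
structure Fx (p : PS k K) (E : WB T →+* p.M) (σ : kb k K ≃ₐ[k] kb k K) : Prop where
  x : p.toHom σ (E (WB.x T)) = E (WB.x T)
  f : ∀ j, p.toHom σ (E (WB.f T j)) = E (WB.f T j)

theorem Fx.one (p : PS k K) {E : WB T →+* p.M} : Fx p E 1 :=
  ⟨by rw [map_one, AlgEquiv.one_apply], fun j => by rw [map_one, AlgEquiv.one_apply]⟩

theorem Fx.mul {σ τ : kb k K ≃ₐ[k] kb k K} (h : Fx p E σ) (h' : Fx p E τ) :
    Fx p E (σ * τ) :=
  ⟨by rw [map_mul, AlgEquiv.mul_apply, h'.x, h.x],
    fun j => by rw [map_mul, AlgEquiv.mul_apply, h'.f, h.f]⟩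

theorem fx_inv_aux {σ : kb k K ≃ₐ[k] kb k K} {z : p.M} (h : p.toHom σ z = z) :
    p.toHom σ⁻¹ z = z := by
  conv_lhs => rw [← h]
  rw [← AlgEquiv.mul_apply, ← map_mul, inv_mul_cancel, map_one, AlgEquiv.one_apply]

theorem Fx.inv {σ : kb k K ≃ₐ[k] kb k K} (h : Fx p E σ) : Fx p E σ⁻¹ :=
  ⟨fx_inv_aux h.x, fun j => fx_inv_aux (h.f j)⟩

/-- `σ` fixes the images of `X` and the `f_j` and acts on constants as `σ`. -/
theorem sect_emb (hE : Emb p E) (σ : kb k K ≃ₐ[k] kb k K) (hσ : Fx p E σ)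
    (hT : T.map ((σ : kb k K ≃+* kb k K) : kb k K →+* kb k K) = T) (b : WB T) :
    p.toHom σ (E b) = E (bE (σ : kb k K ≃+* kb k K) hT b) := by
  have hp : ∀ P : (kb k K)[X], p.toHom σ (E (algebraMap (kb k K)[X] (WB T) P)) =
      E (algebraMap (kb k K)[X] (WB T) (P.map ((σ : kb k K ≃+* kb k K) : kb k K →+* kb k K))) := by
    intro P
    induction P using Polynomial.induction_on' with
    | add P Q hP hQ => rw [map_add, map_add, map_add, hP, hQ, Polynomial.map_add, map_add, map_add]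
    | monomial n a =>
      have h1 : ∀ a : kb k K, E (algebraMap (kb k K)[X] (WB T) (C a)) = p.iota a := by
        intro a
        rw [← hE.alg, IsScalarTower.algebraMap_apply (kb k K) (kb k K)[X] (WB T),
          Polynomial.algebraMap_eq]
      have h2 : E (algebraMap (kb k K)[X] (WB T) X) = E (WB.x T) := rfl
      rw [← C_mul_X_pow_eq_monomial, Polynomial.map_mul, Polynomial.map_pow, map_C, map_X,
        map_mul, map_mul, map_mul, map_mul, map_mul, h1, h1, map_pow, map_pow, map_pow, h2, hσ.x,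
        p.toHom_iota]
      rfl
  have hb : b = ∑ j, b.co j • WB.f T j := (WB.sum_f b).symm
  have h2 : bE (σ : kb k K ≃+* kb k K) hT b = ∑ j,
      (b.co j).map ((σ : kb k K ≃+* kb k K) : kb k K →+* kb k K) • WB.f T j := by
    rw [← WB.sum_f (bE (σ : kb k K ≃+* kb k K) hT b)]
    rfl
  rw [h2, map_sum]
  conv_lhs => rw [hb]
  rw [map_sum, map_sum]
  refine Finset.sum_congr rfl fun j _ => ?_
  rw [Algebra.smul_def, Algebra.smul_def, map_mul, map_mul, map_mul, hp, hσ.f]

end GT
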