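import Mathlib
import Pool.Agent.MP_c1dca2_ag.GT.Q0
import Pool.Agent.MP_c1dca2_ag.SC2.A6
import Pool.Agent.MP_c1dca2_ag.SC2.A7
import Pool.Agent.MP_c1dca2_ag.SC2.AB
import Pool.Agent.MP_c1dca2_ag.SC2.B1
import Pool.Agent.MP_c1dca2_ag.SEC.Defs
import Pool.Agent.MP_c1dca2_ag.SUP.R0
import Pool.Agent.MP_c1dca2_ag.SUP.R4
import Pool.Agent.MP_c1dca2_ag.SUP.R5

set_option autoImplicit false
set_option linter.unusedSectionVars false

open Polynomial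

namespace GT

/-! ## [GT-M6] characters of inertia on roots in `M` (file M6.lean; compare SUP/M6.lean,
SUP/M6b.lean) -/

variable {k K : Type} [Field k] [Field K] [Algebra k K] {ℓ : ℕ} [hℓ : Fact ℓ.Prime]

/-- Two elements of `M` with the same `N`-th power differ by a constant `N`-th root of unity. -/
theorem exists_xi (p : PS k K) (N : ℕ) (hN : 0 < N) (z w : p.M) (hz : z ≠ 0) (h : w ^ N = z ^ N) :
    ∃ ξ : kb k K, ξ ^ N = 1 ∧ w = p.iota ξ * z := by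
  have h1 : (w / z) ^ N = 1 := by
    rw [div_pow, h, div_self (pow_ne_zero _ hz)]
  have h2 : ((w / z : p.M) : Om K) ^ N = 1 := by
    have := congrArg (fun t : p.M => (t : Om K)) h1
    simpa using this
  have h3 : IsIntegral k ((w / z : p.M) : Om K) := by
    refine ⟨X ^ N - 1, monic_X_pow_sub_C (1 : k) hN.ne', ?_⟩
    rw [eval₂_sub, eval₂_pow, eval₂_X, eval₂_one, h2, sub_self]
  have h4 : ((w / z : p.M) : Om K) ∈ kb k K := mem_algebraicClosure_iff.2 h3.isAlgebraic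
  refine ⟨⟨_, h4⟩, ?_, ?_⟩
  · apply Subtype.ext
    exact h2
  · have h5 : p.iota (⟨_, h4⟩ : kb k K) = w / z := Subtype.ext rfl
    rw [h5, div_mul_cancel₀ w hz]

theorem m6_ne (p : PS k K) (σ : kb k K ≃ₐ[k] kb k K) (z : p.M) (hz : z ≠ 0) :
    p.toHom σ z ≠ 0 := fun h => hz ((map_eq_zero (p.toHom σ)).1 h)

/-- the cocycle as a unit -/
noncomputable def m6_u (p : PS k K) (z : p.M) (hz : z ≠ 0) (σ : kb k K ≃ₐ[k] kb k K) :
    Additive (p.M)ˣ :=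
  Additive.ofMul (Units.mk0 (p.toHom σ z / z) (div_ne_zero (m6_ne p σ z hz) hz))

theorem m6_u_zero (p : PS k K) (z : p.M) (hz : z ≠ 0) (σ : kb k K ≃ₐ[k] kb k K) :
    m6_u p z hz σ = 0 ↔ p.toHom σ z = z := by
  unfold m6_u
  rw [ofMul_eq_zero, Units.ext_iff, Units.val_mk0, Units.val_one, div_eq_one_iff_eq hz]

theorem m6_u_add {V : ValuationSubring (kb k K)}
    (hV : V.valuation ((ℓ : ℕ) : kb k K) = 1) (p : PS k K) (z : p.M) (hz : z ≠ 0) (n : ℕ)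
    (σ τ : kb k K ≃ₐ[k] kb k K) (hσ : Iner V σ)
    (hτ : (p.toHom τ z) ^ (ℓ ^ n) = z ^ (ℓ ^ n)) :
    m6_u p z hz (σ * τ) = m6_u p z hz σ + m6_u p z hz τ := by
  obtain ⟨ξ, hξ, hξz⟩ := exists_xi p (ℓ ^ n) (pow_pos hℓ.out.pos n) z (p.toHom τ z) hz hτ
  have h1 : p.toHom (σ * τ) z = p.iota ξ * p.toHom σ z := by
    rw [p.toHom_mul, hξz, map_mul, p.toHom_iota, SUP.iner_root hV n ξ hξ σ hσ]
  unfold m6_u
  rw [← ofMul_mul]
  congr 1
  apply Units.ext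
  rw [Units.val_mul, Units.val_mk0, Units.val_mk0, Units.val_mk0, h1, hξz]
  field_simp

theorem m6_u_smul (p : PS k K) (z : p.M) (hz : z ≠ 0) (n : ℕ)
    (τ : kb k K ≃ₐ[k] kb k K) (hτ : (p.toHom τ z) ^ (ℓ ^ n) = z ^ (ℓ ^ n)) :
    (ℓ ^ n) • m6_u p z hz τ = 0 := by
  unfold m6_u
  rw [← ofMul_pow, ofMul_eq_zero, Units.ext_iff, Units.val_pow_eq_pow_val, Units.val_mk0,
    Units.val_one, div_pow, hτ, div_self (pow_ne_zero _ hz)]

/-- Apply `wild_trivial` with `H = Additive (p.M)ˣ` and `χ σ = σ z / z`. -/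
theorem wild_fix [CharZero k] {A : ValuationSubring k} [IsDiscreteValuationRing A]
    {V : ValuationSubring (kb k K)} (h : Above A V) (hV : V.valuation ((ℓ : ℕ) : kb k K) = 1)
    (p : PS k K) (z : p.M) (hz : z ≠ 0) (n : ℕ) (π : ℕ → kb k K) (a : k) (ha0 : a ≠ 0)
    (ha1 : A.valuation a ≠ 1) (hπ : π 0 = algebraMap k (kb k K) a)
    (hπ' : ∀ m, π (m + 1) ^ ℓ = π m)
    (hs : ∀ σ, Wild V π σ → (p.toHom σ z) ^ (ℓ ^ n) = z ^ (ℓ ^ n)) (σ : kb k K ≃ₐ[k] kb k K)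
    (hσ : Wild V π σ) : p.toHom σ z = z := by
  have hac : IsAlgClosed (kb k K) := SC2.kb_isAlgClosed
  have hgal : IsGalois k (kb k K) := SC2.kb_isGalois
  obtain ⟨E, hEf, hE⟩ := p.cont z
  have hπ0 : π 0 ≠ 0 := by
    rw [hπ]
    exact (_root_.map_ne_zero _).2 ha0
  have key := SUP.wild_trivial (k := k) (C := kb k K) hV π hπ' hπ0
    (fun u hu => by
      rw [hπ]
      exact SC2.val_torsion h u hu a ha0 ha1)
    (Additive (p.M)ˣ) (m6_u p z hz)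
    (fun σ τ hσ hτ => m6_u_add hV p z hz n σ τ hσ.iner (hs τ hτ)) n
    (fun σ hσ => m6_u_smul p z hz n σ (hs σ hσ)) E
    (fun σ _ hσE => (m6_u_zero p z hz σ).2 (hE σ hσE)) σ hσ
  exact (m6_u_zero p z hz σ).1 key

/-- Apply `weight` in the same way. -/
theorem root_weight [CharZero k] {A : ValuationSubring k} [IsDiscreteValuationRing A]
    {V : ValuationSubring (kb k K)} (h : Above A V) (hV : V.valuation ((ℓ : ℕ) : kb k K) = 1)
    (p : PS k K) (z : p.M) (hz : z ≠ 0) (n : ℕ) (π : ℕ → kb k K) (a : k) (ha0 : a ≠ 0)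
    (ha1 : A.valuation a ≠ 1) (hπ : π 0 = algebraMap k (kb k K) a)
    (hπ' : ∀ m, π (m + 1) ^ ℓ = π m) (G : Subgroup (kb k K ≃ₐ[k] kb k K))
    (hGI : ∀ σ ∈ G, Iner V σ) (hGW : ∀ σ, Wild V π σ → σ ∈ G)
    (hs : ∀ σ ∈ G, (p.toHom σ z) ^ (ℓ ^ n) = z ^ (ℓ ^ n)) (q : ℕ) (φ : kb k K ≃ₐ[k] kb k K)
    (hφ : Frob q V φ) (τ : kb k K ≃ₐ[k] kb k K) (hτ : τ ∈ G) :
    p.toHom (φ * τ * φ⁻¹) z / z = (p.toHom τ z / z) ^ q := by
  have hac : IsAlgClosed (kb k K) := SC2.kb_isAlgClosed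
  have hgal : IsGalois k (kb k K) := SC2.kb_isGalois
  obtain ⟨E, hEf, hE⟩ := p.cont z
  have hπ0 : π 0 ≠ 0 := by
    rw [hπ]
    exact (_root_.map_ne_zero _).2 ha0
  have key := SUP.weight (k := k) (C := kb k K) hV π hπ' hπ0 ⟨a, hπ⟩
    (fun u hu => by
      rw [hπ]
      exact SC2.val_torsion h u hu a ha0 ha1)
    G hGI hGW
    (Additive (p.M)ˣ) (m6_u p z hz)
    (fun σ hσ τ hτ => m6_u_add hV p z hz n σ τ (hGI σ hσ) (hs τ hτ)) n
    (fun σ hσ => m6_u_smul p z hz n σ (hs σ hσ)) E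
    (fun σ _ hσE => (m6_u_zero p z hz σ).2 (hE σ hσE)) q φ hφ τ hτ
  have h2 := congrArg (fun w => ((Additive.toMul w : (p.M)ˣ) : p.M)) key
  simpa [m6_u] using h2

/-- `s (φ τ φ⁻¹) (s φ z) = s φ (s τ z) = s φ (ξ z) = ξ^q s φ z` (`frob_root`). -/
theorem conj_root {V : ValuationSubring (kb k K)}
    (hV : V.valuation ((ℓ : ℕ) : kb k K) = 1) (p : PS k K) (z : p.M) (hz : z ≠ 0) (n : ℕ)
    (q : ℕ) (φ : kb k K ≃ₐ[k] kb k K) (hφ : Frob q V φ) (τ : kb k K ≃ₐ[k] kb k K)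
    (hs : (p.toHom τ z) ^ (ℓ ^ n) = z ^ (ℓ ^ n)) :
    p.toHom (φ * τ * φ⁻¹) (p.toHom φ z) / p.toHom φ z = (p.toHom τ z / z) ^ q := by
  obtain ⟨ξ, hξ, hξz⟩ := exists_xi p (ℓ ^ n) (pow_pos hℓ.out.pos n) z (p.toHom τ z) hz hs
  have h1 : p.toHom (φ * τ * φ⁻¹) (p.toHom φ z) = p.iota ξ ^ q * p.toHom φ z := by
    rw [← p.toHom_mul, inv_mul_cancel_right, p.toHom_mul, hξz, map_mul, p.toHom_iota,
      SUP.frob_root hV n ξ hξ q φ hφ, map_pow]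
  rw [h1, hξz, mul_div_assoc, div_self (m6_ne p φ z hz), mul_one, mul_div_assoc, div_self hz,
    mul_one]

end GT
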