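import Mathlib
import Pool.Agent.MP_c1dca2_ag.GT.A1
import Pool.Agent.MP_c1dca2_ag.GT.A10
import Pool.Agent.MP_c1dca2_ag.GT.A3
import Pool.Agent.MP_c1dca2_ag.GT.A3b
import Pool.Agent.MP_c1dca2_ag.GT.Base
import Pool.Agent.MP_c1dca2_ag.GT.Defs
import Pool.Agent.MP_c1dca2_ag.GT.F2
import Pool.Agent.MP_c1dca2_ag.GT.F3
import Pool.Agent.MP_c1dca2_ag.GT.L1
import Pool.Agent.MP_c1dca2_ag.GT.M3
import Pool.Agent.MP_c1dca2_ag.GT.M4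
import Pool.Agent.MP_c1dca2_ag.GT.M5
import Pool.Agent.MP_c1dca2_ag.GT.M6
import Pool.Agent.MP_c1dca2_ag.GT.Q0
import Pool.Agent.MP_c1dca2_ag.GT.T0
import Pool.Agent.MP_c1dca2_ag.GT.Y1
import Pool.Agent.MP_c1dca2_ag.SC2.A6
import Pool.Agent.MP_c1dca2_ag.SC2.A7
import Pool.Agent.MP_c1dca2_ag.SC2.AB
import Pool.Agent.MP_c1dca2_ag.SEC.Defs
import Pool.Agent.MP_c1dca2_ag.SUP.Defs
import Pool.Agent.MP_c1dca2_ag.SUP.L1
import Pool.Agent.MP_c1dca2_ag.SUP.R0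

set_option autoImplicit false
set_option linter.unusedSectionVars false

open Polynomial IsLocalRing

namespace GT

/-! ## [GT-M7] the main theorem on the pairing (file M7.lean; compare SUP/M7.lean) -/

variable {k K : Type} [Field k] [Field K] [Algebra k K] {p : PS k K} {ℓ : ℕ} [hℓ : Fact ℓ.Prime]

section

variable {κ : Type} [Field κ] {d : ℕ} [NeZero d] {T : Tab κ d} [IsDedekindDomain (WB T)]

theorem m7_cls_pow {I : Ideal (WB T)} (hI : I ≠ ⊥) (n : ℕ) : cls (I ^ n) = cls I ^ n := by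
  induction n with
  | zero =>
    rw [pow_zero, pow_zero, Ideal.one_eq_top, ← Ideal.span_singleton_one, cls_span one_ne_zero]
  | succ n ih => rw [pow_succ, pow_succ, cls_mul (pow_ne_zero _ hI) hI, ih]

theorem m7_gen {J : Ideal (WB T)} (hJ : J ≠ ⊥) {N : ℕ} (h : cls J ^ N = 1) :
    ∃ g : WB T, lc g = 1 ∧ J ^ N = Ideal.span {g} := by
  rw [← m7_cls_pow hJ, cls_eq_one_iff (pow_ne_zero _ hJ)] at h
  obtain ⟨x, hx⟩ := h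
  have hx0 : x ≠ 0 := by
    rintro rfl
    rw [Ideal.span_singleton_zero] at hx
    exact pow_ne_zero N hJ hx
  obtain ⟨c, hc1, -, hcs⟩ := m5_norm hx0
  exact ⟨c, hc1, by rw [hx, hcs]⟩

end

variable {V : ValuationSubring (kb k K)} {d : ℕ} [NeZero d] {T : Tab V d}
  [hG : IsDedekindDomain (WB (T.map V.subtype))] [hG' : IsDedekindDomain (WB (T.map (residue V)))]

/-- `s τ` acts trivially on the `ℓ`-th roots of the functions `t` whose divisor is divisible by `ℓ`. -/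
theorem star_core [CharZero k] [IsAlgClosed (kb k K)] {A : ValuationSubring k}
    [IsDiscreteValuationRing A] (h : Above A V) (hV : V.valuation ((ℓ : ℕ) : kb k K) = 1)
    (hR : Rk1 V) (hdiv : ∀ D : ClassGroup (WB (T.map V.subtype)), ∃ D', D' ^ ℓ = D)
    {E : WB (T.map V.subtype) →+* p.M} (hE : Emb p E)
    (hIT : ∀ σ : kb k K ≃ₐ[k] kb k K, Iner V σ →
      (T.map V.subtype).map ((σ : kb k K ≃+* kb k K) : kb k K →+* kb k K) = T.map V.subtype)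
    (hW : ∀ (π : ℕ → kb k K) (a : k), a ≠ 0 → A.valuation a ≠ 1 →
      π 0 = algebraMap k (kb k K) a → (∀ m, π (m + 1) ^ ℓ = π m) →
      ∀ σ : kb k K ≃ₐ[k] kb k K, Wild V π σ → Fx p E σ)
    (q : ℕ) (hq2 : 2 ≤ q) (hqℓ : q.Coprime ℓ)
    (hfin : ∀ x : ResidueField V, ∃ m : ℕ, 0 < m ∧ x ^ q ^ m = x)
    (φ : kb k K ≃ₐ[k] kb k K) (hφ : Frob q V φ)
    (hφT : (T.map V.subtype).map ((φ : kb k K ≃+* kb k K) : kb k K →+* kb k K) = T.map V.subtype)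
    (hφF : Fx p E φ) (τ : kb k K ≃ₐ[k] kb k K) (hτ : Iner V τ) (hτF : Fx p E τ)
    (t : WB (T.map V.subtype)) (J : Ideal (WB (T.map V.subtype))) (hJ0 : J ≠ ⊥)
    (hJ : J ^ ℓ = Ideal.span {t}) (hlc : V.valuation (lc t) = 1)
    (ht : bE (τ : kb k K ≃+* kb k K) (hIT τ hτ) t = t)
    (ρ : p.M) (hρ : ρ ^ ℓ = E t) : p.toHom τ ρ = ρ := by
  classical
  have hℓ0 : 0 < ℓ := hℓ.out.pos
  have hu : IsUnit ((ℓ : ℕ) : V) := by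
    refine (ValuationSubring.valuation_eq_one_iff V _).2 ?_
    simpa using hV
  have ht0 : t ≠ 0 := by
    rintro rfl
    rw [Ideal.span_singleton_zero] at hJ
    exact pow_ne_zero ℓ hJ0 hJ
  have hlc0 : lc t ≠ 0 := lc_ne ht0
  -- the normalised generator
  set t1 : WB (T.map V.subtype) := (lc t)⁻¹ • t with ht1
  have hlct1 : lc t1 = 1 := by rw [ht1, lc_smul, inv_mul_cancel₀ hlc0]
  have hJt1 : J ^ ℓ = Ideal.span {t1} := by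
    rw [hJ]
    exact span_eq_iff.2 ⟨(lc t)⁻¹, inv_ne_zero hlc0, rfl⟩
  have hτlc : τ (lc t) = lc t := by
    have h1 := lc_bE (τ : kb k K ≃+* kb k K) (hIT τ hτ) t
    rw [ht] at h1
    exact h1.symm
  obtain ⟨c, hc⟩ := IsAlgClosed.exists_pow_nat_eq (lc t)⁻¹ hℓ0
  have hτc : τ c = c := by
    refine SUP.iner_unit_root hV (lc t)⁻¹ c ?_ hc τ hτ ?_
    · rw [map_inv₀, hlc, inv_one]
    · rw [map_inv₀, hτlc]
  have hc0 : c ≠ 0 := by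
    rintro rfl
    rw [zero_pow hℓ0.ne'] at hc
    exact inv_ne_zero hlc0 hc.symm
  set ρ1 : p.M := p.iota c * ρ with hρ1def
  have hρ1 : ρ1 ^ ℓ = E t1 := by
    rw [hρ1def, mul_pow, ← map_pow, hc, hρ, ht1, Algebra.smul_def, map_mul, hE.alg]
  have hιc : p.iota c ≠ 0 := fun h0 => hc0 ((map_eq_zero p.iota).1 h0)
  have hρ0 : ρ ≠ 0 := by
    rintro h0
    rw [h0, zero_pow hℓ0.ne'] at hρ
    exact hE.ne ht0 hρ.symm
  have hρ10 : ρ1 ≠ 0 := mul_ne_zero hιc hρ0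
  suffices hmain : p.toHom τ ρ1 = ρ1 by
    have h1 := hmain
    rw [hρ1def, map_mul, p.toHom_iota, hτc] at h1
    exact mul_left_cancel₀ hιc h1
  -- the class
  have hD : cls J ^ (ℓ ^ 1) = 1 := by
    rw [pow_one, ← m7_cls_pow hJ0, hJ, cls_span ht0]
  obtain ⟨D', ⟨n', hD'⟩, hΦ⟩ := exists_div (Ψ := (φ : kb k K ≃+* kb k K)) hR ℓ hℓ.out hu hφ.stab q hq2 hφ.frob hfin hφT hdiv 1
    (cls J) hD
  -- the common exponent
  obtain ⟨n, hn⟩ : ∃ n : ℕ, n = n' := ⟨n', rfl⟩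
  have hN : 0 < ℓ ^ (n + 1) := pow_pos hℓ0 _
  have hD'N : D' ^ (ℓ ^ (n + 1)) = 1 := by
    rw [pow_succ, pow_mul, hn, hD', one_pow]
  set J2 : Ideal (WB (T.map V.subtype)) := rdc D' with hJ2
  have hJ20 : J2 ≠ ⊥ := rdc_ne D'
  have hclsJ2 : cls J2 = D' := cls_rdc D'
  obtain ⟨G2, hG2, hJG2⟩ := m7_gen hJ20 (N := ℓ ^ (n + 1)) (by rw [hclsJ2, hD'N])
  set ψ : WB (T.map V.subtype) ≃+* WB (T.map V.subtype) := bE (φ : kb k K ≃+* kb k K) hφT with hψ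
  set J3 : Ideal (WB (T.map V.subtype)) := J2.map ψ with hJ3
  have hJ30 : J3 ≠ ⊥ := map_ne_bot ψ hJ20
  have hJG3 : J3 ^ (ℓ ^ (n + 1)) = Ideal.span {ψ G2} := by
    rw [hJ3, ← Ideal.map_pow, hJG2, map_span_singleton]
  have hG3 : lc (ψ G2) = 1 := by rw [hψ, lc_bE, hG2, map_one]
  have hclsJ3 : cls J3 = cls J * cls J2 := by
    rw [hJ3, ← clm_cls ψ hJ20, hclsJ2, hΦ]
  have hJG1 : J ^ (ℓ ^ (n + 1)) = Ideal.span {t1 ^ (ℓ ^ n)} := by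
    rw [pow_succ', pow_mul, hJt1, Ideal.span_singleton_pow]
  have hG1 : lc (t1 ^ (ℓ ^ n)) = 1 := by rw [lc_pow, hlct1, one_pow]
  -- inertia fixes the ideals
  have hfixJ2 : ∀ σ : kb k K ≃ₐ[k] kb k K, ∀ hσ : Iner V σ,
      J2.map (bE (σ : kb k K ≃+* kb k K) (hIT σ hσ)) = J2 := by
    intro σ hσ
    rw [hJ2, rdc_map, inertia_fix (Ψ := (σ : kb k K ≃+* kb k K)) hR ℓ hℓ0 hu hσ.stab hσ.triv (hIT σ hσ) (n + 1) D' hD'N]
  have hrd3 : J3 = rdc (clm ψ D') := by rw [hJ3, hJ2, rdc_map]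
  have hfixJ3 : ∀ σ : kb k K ≃ₐ[k] kb k K, ∀ hσ : Iner V σ,
      J3.map (bE (σ : kb k K ≃+* kb k K) (hIT σ hσ)) = J3 := by
    intro σ hσ
    rw [hrd3, rdc_map, inertia_fix (Ψ := (σ : kb k K ≃+* kb k K)) hR ℓ hℓ0 hu hσ.stab hσ.triv (hIT σ hσ) (n + 1) (clm ψ D')
      (by rw [← map_pow, hD'N, map_one])]
  have hfixJ : J.map (bE (τ : kb k K ≃+* kb k K) (hIT τ hτ)) = J := by
    refine SUP.eq_of_pow_eq (map_ne_bot _ hJ0) hJ0 hℓ0 ?_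
    rw [← Ideal.map_pow, hJ, map_span_singleton, ht]
  -- the equation of the ideals
  obtain ⟨b, b', hb, hb', hbb⟩ := (cls_eq_iff hJ30 (mul_ne_zero hJ0 hJ20)).1
    (by rw [cls_mul hJ0 hJ20]; exact hclsJ3)
  -- the roots
  obtain ⟨ρ0, hρ0'⟩ := IsAlgClosed.exists_pow_nat_eq ((E G2 : p.M) : Om K) hN
  have hρM : ρ0 ∈ p.M := root_mem hE J2 hJ20 _ hN G2 hJG2 ρ0 hρ0'
  let ρ2 : p.M := ⟨ρ0, hρM⟩
  have hρ2 : ρ2 ^ (ℓ ^ (n + 1)) = E G2 := Subtype.ext hρ0'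
  have hρ2ne : ρ2 ≠ 0 := by
    intro h0
    rw [h0, zero_pow hN.ne'] at hρ2
    exact hE.ne (m5_ne_of_lc hG2) hρ2.symm
  let ρ3 : p.M := p.toHom φ ρ2
  have hρ3 : ρ3 ^ (ℓ ^ (n + 1)) = E (ψ G2) := by
    change (p.toHom φ ρ2) ^ (ℓ ^ (n + 1)) = _
    rw [← map_pow, hρ2, sect_emb hE φ hφF hφT]
  have hρ3ne : ρ3 ≠ 0 := by
    change p.toHom φ ρ2 ≠ 0
    exact (map_ne_zero_iff _ (p.toHom φ).injective).2 hρ2ne
  have hρ1N : ρ1 ^ (ℓ ^ (n + 1)) = E (t1 ^ (ℓ ^ n)) := by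
    rw [pow_succ', pow_mul, hρ1, map_pow]
  -- multiplicativity
  have hmul := pair_mul hV hE τ hτ hτF (hIT τ hτ) (n + 1) J3 J J2 hJ30 (ψ G2) (t1 ^ (ℓ ^ n)) G2
    hG3 hG1 hG2 hJG3 hJG1 hJG2 (hfixJ3 τ hτ) hfixJ (hfixJ2 τ hτ) b b' hb hb' hbb ρ3 ρ1 ρ2
    hρ3 hρ1N hρ2
  -- the group
  obtain ⟨c0, hc0, hc1⟩ := SC2.exists_pi A
  obtain ⟨π, hπ, hπ'⟩ := y1_exists_tower' (K := K) (ℓ := ℓ) c0
  let Gr : Subgroup (kb k K ≃ₐ[k] kb k K) :=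
    { carrier := {σ | Iner V σ ∧ Fx p E σ}
      mul_mem' := by
        rintro σ σ' ⟨h1, h2⟩ ⟨h3, h4⟩
        exact ⟨h1.mul h3, h2.mul h4⟩
      one_mem' := ⟨SC2.Iner.one V, Fx.one p⟩
      inv_mem' := by
        rintro σ ⟨h1, h2⟩
        exact ⟨h1.inv, h2.inv⟩ }
  have hGrI : ∀ σ ∈ Gr, Iner V σ := fun σ hσ => hσ.1
  have hGrW : ∀ σ, Wild V π σ → σ ∈ Gr := fun σ hσ =>
    ⟨hσ.iner, hW π c0 hc0 hc1 hπ hπ' σ hσ⟩
  have hfix : ∀ σ, ∀ hσ : σ ∈ Gr, ∀ (J' : Ideal (WB (T.map V.subtype)))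
      (G' : WB (T.map V.subtype)) (ρ' : p.M), lc G' = 1 →
      J' ^ (ℓ ^ (n + 1)) = Ideal.span {G'} →
      J'.map (bE (σ : kb k K ≃+* kb k K) (hIT σ hσ.1)) = J' →
      ρ' ^ (ℓ ^ (n + 1)) = E G' →
      (p.toHom σ ρ') ^ (ℓ ^ (n + 1)) = ρ' ^ (ℓ ^ (n + 1)) := by
    intro σ hσ J' G' ρ' hlc' hJG' hinv' hρ'
    rw [← map_pow, hρ', sect_emb hE σ hσ.2 (hIT σ hσ.1),
      gen_fixed _ (hIT σ hσ.1) J' _ G' hlc' hJG' hinv']
  have hτG : τ ∈ Gr := ⟨hτ, hτF⟩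
  have hw1 := root_weight h hV p ρ3 hρ3ne (n + 1) π c0 hc0 hc1 hπ hπ' Gr hGrI hGrW
    (fun σ hσ => hfix σ hσ J3 (ψ G2) ρ3 hG3 hJG3 (hfixJ3 σ hσ.1) hρ3)
    q φ hφ τ hτG
  have hfτ2 := hfix τ hτG J2 G2 ρ2 hG2 hJG2 (hfixJ2 τ hτ) hρ2
  have hfτ3 := hfix τ hτG J3 (ψ G2) ρ3 hG3 hJG3 (hfixJ3 τ hτ) hρ3
  have hw2 := conj_root hV p ρ2 hρ2ne (n + 1) q φ hφ τ hfτ2
  have hw3 : (p.toHom τ ρ3 / ρ3) ^ q = (p.toHom τ ρ2 / ρ2) ^ q := by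
    rw [← hw1, ← hw2]
  -- conclusion
  have hsρ : p.toHom τ ρ2 ≠ 0 := (map_ne_zero_iff _ (p.toHom τ).injective).2 hρ2ne
  have hξ : p.toHom τ ρ1 / ρ1 = (p.toHom τ ρ3 / ρ3) / (p.toHom τ ρ2 / ρ2) := by
    field_simp
    linear_combination -hmul
  have hone : p.toHom τ ρ1 / ρ1 = 1 := by
    refine y1_root_pow_inj (ℓ := ℓ) (n + 1) q hqℓ _ ?_ ?_
    · rw [hξ, div_pow, div_pow, div_pow, hfτ2, hfτ3, div_self (pow_ne_zero _ hρ3ne),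
        div_self (pow_ne_zero _ hρ2ne), div_one]
    · rw [hξ, div_pow, hw3, div_self]
      exact pow_ne_zero _ (div_ne_zero hsρ hρ2ne)
  exact (div_eq_one_iff_eq hρ10).1 hone

end GT
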