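import Mathlib
import Pool.Agent.MP_c1dca2_ag.GT.Base
import Pool.Agent.MP_c1dca2_ag.GT.H0
import Pool.Agent.MP_c1dca2_ag.GT.H1b
import Pool.Agent.MP_c1dca2_ag.GT.H6d
import Pool.Agent.MP_c1dca2_ag.GT.P0
import Pool.Agent.MP_c1dca2_ag.GT.P5a
import Pool.Agent.MP_c1dca2_ag.GT.Q0
import Pool.Agent.MP_c1dca2_ag.SC2.B1
import Pool.Agent.MP_c1dca2_ag.SEC.Defs
import Pool.Agent.MP_c1dca2_ag.SEC.S

set_option autoImplicit false
set_option linter.unusedVariables false

open IsLocalRing

namespace GT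

/-! ## [GT-H6a] functions with poles and zeros on `OM`; the weights -/

variable {k K : Type} [Field k] [Field K] [Algebra k K] {ℓ : ℕ} [hℓ : Fact ℓ.Prime]
  {F : IntermediateField (kb k K) (Om K)}

/-- Proof. `o` := the point; `t o = 1` (`ord_one`), and for `i ≠ o` the function of `exists_t'` (H1b) for `P = i`, `Q = o` (`kb k K` is algebraically closed: `SC2.kb_isAlgClosed`). -/
theorem exists_Td [CharZero k] (hF : Fd ℓ F) {h : K} (P : ValuationSubring F)
    (hP : P ∈ OMF hF h) : Nonempty (Td hF h) := by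
  classical
  have hac : IsAlgClosed (kb k K) := SC2.kb_isAlgClosed
  have key : ∀ i : OMF hF h, ∃ t : F, t ≠ 0 ∧
      (∀ j : OMF hF h, om ℓ (j : ValuationSubring F) t =
        dl ℓ (j : ValuationSubring F) i - dl ℓ (j : ValuationSubring F) P) ∧
      (∀ O : ValuationSubring F, IsPl (kb k K) O → O ∉ OMF hF h → om ℓ O t = 0) := by
    intro i
    by_cases hi : (i : ValuationSubring F) = P
    · refine ⟨1, one_ne_zero, fun j => ?_, fun O hO _ => ?_⟩
      · rw [hi, sub_self, om, ord_one (od_spec hF.ff j.2.1), Int.cast_zero]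
      · rw [om, ord_one (od_spec hF.ff hO), Int.cast_zero]
    · obtain ⟨t, ht0, ht1, ht2, ht3⟩ := exists_t' (C := kb k K) hF.ff hℓ.out.pos i.2.1 hP.1 hi
      refine ⟨t, ht0, fun j => ?_, fun O hO hO' => ?_⟩
      · by_cases hj : (j : ValuationSubring F) = i
        · rw [hj, dl_self, dl_ne hi, sub_zero]
          exact ht1
        · by_cases hj' : (j : ValuationSubring F) = P
          · rw [hj', dl_self, dl_ne (Ne.symm hi), zero_sub]
            exact ht2
          · rw [dl_ne hj, dl_ne hj', sub_self]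
            exact ht3 j j.2.1 hj hj'
      · refine ht3 O hO ?_ ?_
        · rintro rfl
          exact hO' i.2
        · rintro rfl
          exact hO' hP
  choose t ht0 ht1 ht2 using key
  exact ⟨⟨⟨P, hP⟩, t, ht0, ht1, ht2⟩⟩

theorem om_mul [CharZero k] (hF : Fd ℓ F) {P : ValuationSubring F} (hP : IsPl (kb k K) P) {a b : F}
    (ha : a ≠ 0) (hb : b ≠ 0) : om ℓ P (a * b) = om ℓ P a + om ℓ P b := by
  have hac : IsAlgClosed (kb k K) := SC2.kb_isAlgClosed
  rw [om, (od_spec hF.ff hP).mul a b ha hb, Int.cast_add]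
  rfl

theorem om_inv [CharZero k] (hF : Fd ℓ F) {P : ValuationSubring F} (hP : IsPl (kb k K) P) {a : F}
    (ha : a ≠ 0) : om ℓ P a⁻¹ = - om ℓ P a := by
  have hac : IsAlgClosed (kb k K) := SC2.kb_isAlgClosed
  rw [om, ord_inv (od_spec hF.ff hP) ha, Int.cast_neg]
  rfl

theorem om_pow [CharZero k] (hF : Fd ℓ F) {P : ValuationSubring F} (hP : IsPl (kb k K) P) {a : F}
    (ha : a ≠ 0) (n : ℕ) : om ℓ P (a ^ n) = n * om ℓ P a := by
  have hac : IsAlgClosed (kb k K) := SC2.kb_isAlgClosed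
  rw [om, ord_pow (od_spec hF.ff hP) ha, Int.cast_mul, Int.cast_natCast]
  rfl

theorem om_prod [CharZero k] (hF : Fd ℓ F) {P : ValuationSubring F} (hP : IsPl (kb k K) P)
    {α : Type} (s : Finset α) (f : α → F) (hf : ∀ a ∈ s, f a ≠ 0) :
    om ℓ P (∏ a ∈ s, f a) = ∑ a ∈ s, om ℓ P (f a) := by
  classical
  have hac : IsAlgClosed (kb k K) := SC2.kb_isAlgClosed
  induction s using Finset.induction_on with
  | empty =>
    rw [Finset.prod_empty, Finset.sum_empty, om, ord_one (od_spec hF.ff hP), Int.cast_zero]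
  | insert a s ha ih =>
    rw [Finset.prod_insert ha, Finset.sum_insert ha,
      om_mul hF hP (hf a (Finset.mem_insert_self a s))
        (Finset.prod_ne_zero_iff.2 fun b hb => hf b (Finset.mem_insert_of_mem hb)),
      ih fun b hb => hf b (Finset.mem_insert_of_mem hb)]

variable {hF : Fd ℓ F} {h : K} [Fintype (OMF hF h)]

end GT
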