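import Mathlib
import Pool.Agent.MP_c1dca2_ag.GT.Base
import Pool.Agent.MP_c1dca2_ag.GT.H0
import Pool.Agent.MP_c1dca2_ag.GT.H1b
import Pool.Agent.MP_c1dca2_ag.GT.H3b
import Pool.Agent.MP_c1dca2_ag.GT.H6a
import Pool.Agent.MP_c1dca2_ag.GT.H6d
import Pool.Agent.MP_c1dca2_ag.GT.P0
import Pool.Agent.MP_c1dca2_ag.GT.Q0
import Pool.Agent.MP_c1dca2_ag.SC2.B1
import Pool.Agent.MP_c1dca2_ag.SEC.Defs
import Pool.Agent.MP_c1dca2_ag.SEC.S

set_option autoImplicit false
set_option linter.unusedVariables false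

open IsLocalRing

namespace GT

/-! ## [GT-H6b] functions with poles and zeros on `OM`; the weights -/

variable {k K : Type} [Field k] [Field K] [Algebra k K] {ℓ : ℕ} [hℓ : Fact ℓ.Prime]
  {F : IntermediateField (kb k K) (Om K)}

variable {hF : Fd ℓ F} {h : K} [Fintype (OMF hF h)]

/-- The product of the `t i ^ (ε i)`. -/
noncomputable def Td.prod (D : Td hF h) (ε : OMF hF h → ZMod ℓ) : F := ∏ i, D.t i ^ (ε i).val

theorem Td.prod_ne (D : Td hF h) (ε : OMF hF h → ZMod ℓ) : D.prod ε ≠ 0 :=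
  Finset.prod_ne_zero_iff.2 fun i _ => pow_ne_zero _ (D.ne i)

/-- Proof. `om_prod`, `om_pow`, `D.ord`; `((ε i).val : ZMod ℓ) = ε i` (`ZMod.natCast_zmod_val`); `∑ i, ε i * (δ_ij - δ_jo) = ε j - δ_jo ∑ ε i`. -/
theorem Td.om_prod [CharZero k] (D : Td hF h) (ε : OMF hF h → ZMod ℓ) (j : OMF hF h) :
    om ℓ (j : ValuationSubring F) (D.prod ε) =
      ε j - dl ℓ (j : ValuationSubring F) D.o * ∑ i, ε i := by
  have hne : NeZero ℓ := ⟨hℓ.out.ne_zero⟩
  rw [Td.prod, GT.om_prod hF j.2.1 _ _ (fun i _ => pow_ne_zero _ (D.ne i))]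
  have h1 : ∀ i ∈ (Finset.univ : Finset (OMF hF h)),
      om ℓ (j : ValuationSubring F) (D.t i ^ (ε i).val) =
        ε i * dl ℓ (j : ValuationSubring F) i - ε i * dl ℓ (j : ValuationSubring F) D.o := by
    intro i _
    rw [om_pow hF j.2.1 (D.ne i), D.ord i j, ZMod.natCast_zmod_val, mul_sub]
  rw [Finset.sum_congr rfl h1, Finset.sum_sub_distrib, ← Finset.sum_mul,
    mul_comm (dl ℓ (j : ValuationSubring F) D.o)]
  congr 1
  rw [Finset.sum_eq_single j]
  · rw [dl_self, mul_one]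
  · intro i _ hi
    rw [dl_ne fun he => hi (Subtype.ext he.symm), mul_zero]
  · intro hj
    exact absurd (Finset.mem_univ _) hj

theorem Td.out_prod [CharZero k] (D : Td hF h) (ε : OMF hF h → ZMod ℓ) (O : ValuationSubring F)
    (hO : IsPl (kb k K) O) (hne : O ∉ OMF hF h) : om ℓ O (D.prod ε) = 0 := by
  rw [Td.prod, GT.om_prod hF hO _ _ (fun i _ => pow_ne_zero _ (D.ne i))]
  refine Finset.sum_eq_zero fun i _ => ?_
  rw [om_pow hF hO (D.ne i), D.out i O hO hne, mul_zero]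

/-- Proof. `t' = t / D.prod n` with `n i = om ℓ i t`: its orders are `0` modulo `ℓ` outside `OM` and at all points of `OM` except `D.o` (`Td.om_prod`, `Td.out_prod`); at `D.o` it is `n o - (n o - ∑ n) = ∑ n`. By `ord_dvd_all` (H1b, `P = D.o`) it is `0` as well. -/
theorem sum_om [CharZero k] (D : Td hF h) {t : F} (ht : t ≠ 0)
    (hout : ∀ O, IsPl (kb k K) O → O ∉ OMF hF h → om ℓ O t = 0) :
    ∑ i : OMF hF h, om ℓ (i : ValuationSubring F) t = 0 := by
  have hA : IsAlgClosed (kb k K) := SC2.kb_isAlgClosed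
  have hC : CharZero (kb k K) :=
    charZero_of_injective_algebraMap (algebraMap k (kb k K)).injective
  have hn0 : D.prod (fun i => om ℓ (i : ValuationSubring F) t) ≠ 0 := D.prod_ne _
  have ht' : t * (D.prod (fun i => om ℓ (i : ValuationSubring F) t))⁻¹ ≠ 0 :=
    mul_ne_zero ht (inv_ne_zero hn0)
  have h1 : ∀ O, IsPl (kb k K) O → O ∉ OMF hF h →
      om ℓ O (t * (D.prod (fun i => om ℓ (i : ValuationSubring F) t))⁻¹) = 0 := by
    intro O hO hm
    rw [om_mul hF hO ht (inv_ne_zero hn0), om_inv hF hO hn0, hout O hO hm,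
      D.out_prod _ O hO hm, neg_zero, add_zero]
  have h2 : ∀ j : OMF hF h, om ℓ (j : ValuationSubring F)
      (t * (D.prod (fun i => om ℓ (i : ValuationSubring F) t))⁻¹) =
        dl ℓ (j : ValuationSubring F) D.o * ∑ i : OMF hF h, om ℓ (i : ValuationSubring F) t := by
    intro j
    rw [om_mul hF j.2.1 ht (inv_ne_zero hn0), om_inv hF j.2.1 hn0, D.om_prod]
    ring
  have h3 := ord_dvd_all hF.ff hℓ.out.pos ht' (D.o : ValuationSubring F) (fun O hO hne => by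
    rw [← om_eq_zero]
    by_cases hm : O ∈ OMF hF h
    · have h4 := h2 ⟨O, hm⟩
      rw [h4, dl_ne hne, zero_mul]
    · exact h1 O hO hm) D.o D.o.2.1
  rw [← om_eq_zero, h2 D.o, dl_self, one_mul] at h3
  exact h3

/-- Proof. `Wt.prod`, `Wt.pow`; `((ε i).val : ZMod ℓ) = ε i`. -/
theorem Td.wt_prod (D : Td hF h) {x : Loc k K ℓ} {τ : kb k K ≃ₐ[k] kb k K} {ζ : kb k K}
    (hζ : ζ ^ ℓ = 1) {w : OMF hF h → ZMod ℓ} (hw : ∀ i, Wt x τ ζ (D.t i : F) (w i))
    (ε : OMF hF h → ZMod ℓ) : Wt x τ ζ (D.prod ε : F) (∑ i, ε i * w i) := by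
  have hne : NeZero ℓ := ⟨hℓ.out.ne_zero⟩
  have h1 := Wt.prod hζ Finset.univ (fun i => (D.t i : Om K) ^ (ε i).val)
    (fun i => (((ε i).val : ℕ) : ZMod ℓ) * w i) (fun i _ => (hw i).pow hζ _)
  have h2 : (D.prod ε : Om K) = ∏ i, (D.t i : Om K) ^ (ε i).val := by
    rw [Td.prod]
    push_cast
    rfl
  rw [h2]
  simpa only [ZMod.natCast_zmod_val] using h1

end GT
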