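import Mathlib
import Pool.Agent.MP_c1dca2_ag.GT.Base
import Pool.Agent.MP_c1dca2_ag.GT.H0
import Pool.Agent.MP_c1dca2_ag.GT.H3b
import Pool.Agent.MP_c1dca2_ag.GT.H5a
import Pool.Agent.MP_c1dca2_ag.GT.H6a
import Pool.Agent.MP_c1dca2_ag.GT.H6b
import Pool.Agent.MP_c1dca2_ag.GT.H6d
import Pool.Agent.MP_c1dca2_ag.GT.P0
import Pool.Agent.MP_c1dca2_ag.GT.Q0
import Pool.Agent.MP_c1dca2_ag.SC2.AB
import Pool.Agent.MP_c1dca2_ag.SC2.B1
import Pool.Agent.MP_c1dca2_ag.SEC.Defs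
import Pool.Agent.MP_c1dca2_ag.SEC.S
import Pool.Agent.MP_c1dca2_ag.SUP.Defs

set_option autoImplicit false
set_option linter.unusedVariables false

open IsLocalRing

namespace GT

/-! ## [GT-H6c] functions with poles and zeros on `OM`; the weights -/

variable {k K : Type} [Field k] [Field K] [Algebra k K] {ℓ : ℕ} [hℓ : Fact ℓ.Prime]
  {F : IntermediateField (kb k K) (Om K)}

variable {hF : Fd ℓ F} {h : K} [Fintype (OMF hF h)]

/-- Proof. `t' = t / D.prod n`, `n i = om ℓ i t`: all orders of `t'` are `0` modulo `ℓ` (`Td.om_prod`, `Td.out_prod`, `sum_om`). Choose `ρ'` with `ρ' ^ ℓ = t'` (`Ω` is algebraically closed). `fix_root` (H5): at almost all places the inertia group fixes `ρ'`, so `Wt t' 0` (`Wt.of_fix`). `t = t' * D.prod n`: `Wt.mul`, `Td.wt_prod`. -/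
theorem weights [CharZero k] (D : Td hF h) {t : F} (ht : t ≠ 0)
    (hout : ∀ O, IsPl (kb k K) O → O ∉ OMF hF h → om ℓ O t = 0) :
    AA (fun x : Loc k K ℓ => ∀ τ, Iner x.V τ → ∀ ζ : kb k K, ζ ^ ℓ = 1 →
      ∀ w : OMF hF h → ZMod ℓ, (∀ i, Wt x τ ζ (D.t i : F) (w i)) →
        Wt x τ ζ (t : Om K) (∑ i : OMF hF h, om ℓ (i : ValuationSubring F) t * w i)) := by
  have hA : IsAlgClosed (kb k K) := SC2.kb_isAlgClosed
  have hn0 : D.prod (fun i => om ℓ (i : ValuationSubring F) t) ≠ 0 := D.prod_ne _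
  have ht' : t * (D.prod (fun i => om ℓ (i : ValuationSubring F) t))⁻¹ ≠ 0 :=
    mul_ne_zero ht (inv_ne_zero hn0)
  have h1 : ∀ O, IsPl (kb k K) O →
      om ℓ O (t * (D.prod (fun i => om ℓ (i : ValuationSubring F) t))⁻¹) = 0 := by
    intro O hO
    by_cases hm : O ∈ OMF hF h
    · have h2 := D.om_prod (fun i => om ℓ (i : ValuationSubring F) t) ⟨O, hm⟩
      rw [sum_om D ht hout, mul_zero, sub_zero] at h2
      rw [om_mul hF hO ht (inv_ne_zero hn0), om_inv hF hO hn0, h2]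
      exact add_neg_cancel _
    · rw [om_mul hF hO ht (inv_ne_zero hn0), om_inv hF hO hn0, hout O hO hm,
        D.out_prod _ O hO hm, neg_zero, add_zero]
  have hOm : IsAlgClosed (Om K) := inferInstance
  obtain ⟨ρ, hρ⟩ := IsAlgClosed.exists_pow_nat_eq
    ((t * (D.prod (fun i => om ℓ (i : ValuationSubring F) t))⁻¹ : F) : Om K) hℓ.out.pos
  have h3 := fix_root hF _ ht' (fun P hP => by rw [← om_eq_zero]; exact h1 P hP) ρ hρ
  refine h3.mono ?_
  intro x hx τ hτ ζ hζ w hw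
  have h4 : Wt x τ ζ
      ((t * (D.prod (fun i => om ℓ (i : ValuationSubring F) t))⁻¹ : F) : Om K) 0 :=
    Wt.of_fix ρ hρ (hx τ hτ)
  have h5 := h4.mul hζ (D.wt_prod hζ hw (fun i => om ℓ (i : ValuationSubring F) t))
  rw [zero_add] at h5
  have h6 : ((t * (D.prod (fun i => om ℓ (i : ValuationSubring F) t))⁻¹ : F) : Om K) *
      (D.prod (fun i => om ℓ (i : ValuationSubring F) t) : Om K) = (t : Om K) := by
    rw [← MulMemClass.coe_mul, mul_assoc, inv_mul_cancel₀ hn0, mul_one]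
  rw [h6] at h5
  exact h5

end GT
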