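import Mathlib
import Pool.Agent.MP_c1dca2_ag.GT.Base
import Pool.Agent.MP_c1dca2_ag.GT.H0
import Pool.Agent.MP_c1dca2_ag.GT.Kv
import Pool.Agent.MP_c1dca2_ag.GT.P0

set_option autoImplicit false
set_option linter.unusedVariables false

open IsLocalRing

namespace GT

/-! ## [GT-H1c] orders of functions -/

variable {C N N' : Type} [Field C] [Field N] [Algebra C N] [Field N'] [Algebra C N']

theorem h1c_inv {O : ValuationSubring N} {o : N → ℤ} (ho : IsOrd C O o) (a : N) (ha : a ≠ 0) :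
    o a⁻¹ = - o a := (ord_rules ho).2.1 a ha

theorem h1c_pow {O : ValuationSubring N} {o : N → ℤ} (ho : IsOrd C O o) (a : N) (ha : a ≠ 0)
    (n : ℕ) : o (a ^ n) = n * o a := (ord_rules ho).2.2.1 a ha n

theorem h1c_zpow {O : ValuationSubring N} {o : N → ℤ} (ho : IsOrd C O o) (a : N) (ha : a ≠ 0)
    (n : ℤ) : o (a ^ n) = n * o a := by
  obtain ⟨m, rfl | rfl⟩ := n.eq_nat_or_neg
  · rw [zpow_natCast, h1c_pow ho a ha]
  · rw [zpow_neg, zpow_natCast, h1c_inv ho _ (pow_ne_zero _ ha), h1c_pow ho a ha]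
    ring

/-- Proof. A nonzero algebraic element: if `N ⊆ O'` (through `i`) then `N' ⊆ O'`, because `N'` is algebraic over `N` and `O'` is integrally closed: divide the equation by the leading coefficient, `z` is integral over `i(N) ⊆ O'`. Constants: `hi`. -/
theorem pl_comap (i : N →+* N') (hi : ∀ c : C, i (algebraMap C N c) = algebraMap C N' c)
    (halg : ∀ z : N', ∃ p : Polynomial N, p ≠ 0 ∧ p.eval₂ i z = 0) {O' : ValuationSubring N'}
    (hO' : IsPl C O') : IsPl C (O'.comap i) := by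
  refine ⟨fun c => ?_, fun htop => hO'.2 ?_⟩
  · show i (algebraMap C N c) ∈ O'
    rw [hi]
    exact hO'.1 c
  · have hmem : ∀ n : N, i n ∈ O' := by
      intro n
      have h1 : n ∈ O'.comap i := by
        rw [htop]
        exact ValuationSubring.mem_top n
      exact h1
    let j : N →+* O' := i.codRestrict O'.toSubring hmem
    rw [eq_top_iff]
    intro z _
    obtain ⟨p, hp0, hp⟩ := halg z
    have hint : IsIntegral O' z := by
      refine ⟨(Polynomial.C p.leadingCoeff⁻¹ * p).map j, ?_, ?_⟩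
      · apply Polynomial.Monic.map
        have h := Polynomial.monic_mul_leadingCoeff_inv hp0
        rwa [mul_comm] at h
      · rw [Polynomial.eval₂_map]
        have hj : (algebraMap O' N').comp j = i := by
          ext n
          rfl
        rw [hj, Polynomial.eval₂_mul, hp, mul_zero]
    obtain ⟨y, hy⟩ := IsIntegrallyClosed.isIntegral_iff.1 hint
    rw [← hy]
    exact y.2

/-- The ramification index.

Proof. Choose `z : N` with `o z = 1` (`IsOrd.surj`) and let `e = o' (i z)`. `z ∈ O'.comap i`, `z⁻¹ ∉ O'.comap i` (`IsOrd.mem`, `ord_inv`), so `i z ∈ O'`, `(i z)⁻¹ ∉ O'` and `e > 0`. For `f ≠ 0`: `u = f / z ^ (o f)` (integer power) has order `0`, `u`, `u⁻¹ ∈ O'.comap i`, so `o' (i u) = 0`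
and `o' (i f) = o f * e` (orders of integer powers: `p8a_zpow` in P8a or `ord_pow`, `ord_inv`). -/
theorem ord_comap (i : N →+* N') {O' : ValuationSubring N'} {o' : N' → ℤ} (ho' : IsOrd C O' o')
    {o : N → ℤ} (ho : IsOrd C (O'.comap i) o) :
    ∃ e : ℤ, 0 < e ∧ ∀ f : N, f ≠ 0 → o' (i f) = e * o f := by
  obtain ⟨z, hz0, hz⟩ := ho.surj
  have hiz : i z ≠ 0 := (map_ne_zero i).2 hz0
  have h1 : 0 ≤ o' (i z) := by
    have h2 : z ∈ O'.comap i := (ho.mem z hz0).2 (by omega)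
    exact (ho'.mem (i z) hiz).1 h2
  have h3 : o' (i z) ≠ 0 := by
    intro h0
    have h4 : i z⁻¹ ∈ O' := by
      rw [map_inv₀]
      exact (ho'.mem _ (inv_ne_zero hiz)).2 (by rw [h1c_inv ho' _ hiz, h0, neg_zero])
    have h5 : z⁻¹ ∈ O'.comap i := h4
    have h6 := (ho.mem _ (inv_ne_zero hz0)).1 h5
    rw [h1c_inv ho _ hz0, hz] at h6
    omega
  refine ⟨o' (i z), by omega, fun f hf => ?_⟩
  have hzp : z ^ (o f) ≠ 0 := zpow_ne_zero _ hz0
  have hu0 : f * (z ^ (o f))⁻¹ ≠ 0 := mul_ne_zero hf (inv_ne_zero hzp)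
  have hu : o (f * (z ^ (o f))⁻¹) = 0 := by
    rw [ho.mul _ _ hf (inv_ne_zero hzp), h1c_inv ho _ hzp, h1c_zpow ho z hz0, hz]
    ring
  have hiu0 : i (f * (z ^ (o f))⁻¹) ≠ 0 := (map_ne_zero i).2 hu0
  have h7 : 0 ≤ o' (i (f * (z ^ (o f))⁻¹)) := by
    have h2 : f * (z ^ (o f))⁻¹ ∈ O'.comap i := (ho.mem _ hu0).2 (by omega)
    exact (ho'.mem _ hiu0).1 h2
  have h8 : 0 ≤ o' ((i (f * (z ^ (o f))⁻¹))⁻¹) := by
    have h2 : (f * (z ^ (o f))⁻¹)⁻¹ ∈ O'.comap i :=
      (ho.mem _ (inv_ne_zero hu0)).2 (by rw [h1c_inv ho _ hu0]; omega)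
    have h9 : (i (f * (z ^ (o f))⁻¹))⁻¹ ∈ O' := by
      rw [← map_inv₀]
      exact h2
    exact (ho'.mem _ (inv_ne_zero hiu0)).1 h9
  rw [h1c_inv ho' _ hiu0] at h8
  have h9 : o' (i (f * (z ^ (o f))⁻¹)) = o' (i f) - o f * o' (i z) := by
    have hizp : (i z) ^ (o f) ≠ 0 := zpow_ne_zero _ hiz
    rw [map_mul, map_inv₀, map_zpow₀, ho'.mul _ _ ((map_ne_zero i).2 hf) (inv_ne_zero hizp),
      h1c_inv ho' _ hizp, h1c_zpow ho' _ hiz]
    ring
  have h10 : o' (i f) = o f * o' (i z) := by omega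
  rw [h10, mul_comm]

/-- Proof. `od_spec`, `ord_comap`: `od C O' (i t) = e * od C (O'.comap i) t`. If `ℓ` divides the order of `t` done. Otherwise `ℓ` does not divide `m = od C (O'.comap i) u`; `ℓ * od C O' U = od C O' (U ^ ℓ) = e * m` (`ord_pow`), `ℓ` is prime, so `ℓ ∣ e`. -/
theorem ord_kummer [CharZero C] [IsAlgClosed C] (hF : FF C N) (hF' : FF C N') (i : N →+* N')
    (hi : ∀ c : C, i (algebraMap C N c) = algebraMap C N' c)
    (halg : ∀ z : N', ∃ p : Polynomial N, p ≠ 0 ∧ p.eval₂ i z = 0) {ℓ : ℕ} [Fact ℓ.Prime] {t u : N}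
    (ht : t ≠ 0) (hu : u ≠ 0) {U : N'} (hU : U ^ ℓ = i u)
    (h : ∀ O : ValuationSubring N, IsPl C O → (ℓ : ℤ) ∣ od C O t ∨ ¬ (ℓ : ℤ) ∣ od C O u) :
    ∀ O' : ValuationSubring N', IsPl C O' → (ℓ : ℤ) ∣ od C O' (i t) := by
  intro O' hO'
  have hpl := pl_comap i hi halg hO'
  have ho' := od_spec hF' hO'
  obtain ⟨e, he0, he⟩ := ord_comap i ho' (od_spec hF hpl)
  rw [he t ht]
  rcases h _ hpl with h1 | h1
  · exact Dvd.dvd.mul_left h1 e
  · have hU0 : U ≠ 0 := by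
      intro h0
      rw [h0, zero_pow (Fact.out : ℓ.Prime).ne_zero] at hU
      exact (map_ne_zero i).2 hu hU.symm
    have h2 : (ℓ : ℤ) * od C O' U = e * od C (O'.comap i) u := by
      rw [← he u hu, ← hU, h1c_pow ho' U hU0]
    have h3 : (ℓ : ℤ) ∣ e * od C (O'.comap i) u := ⟨_, h2.symm⟩
    have hp : Prime (ℓ : ℤ) := Nat.prime_iff_prime_int.1 (Fact.out : ℓ.Prime)
    rcases hp.dvd_or_dvd h3 with h4 | h4
    · exact Dvd.dvd.mul_right h4 _
    · exact absurd h4 h1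

end GT
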