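import Mathlib
import Pool.Agent.MP_c1dca2_ag.GT.Base
import Pool.Agent.MP_c1dca2_ag.GT.H0
import Pool.Agent.MP_c1dca2_ag.GT.H1c
import Pool.Agent.MP_c1dca2_ag.GT.H2a
import Pool.Agent.MP_c1dca2_ag.GT.H2c
import Pool.Agent.MP_c1dca2_ag.GT.MP6
import Pool.Agent.MP_c1dca2_ag.GT.P0
import Pool.Agent.MP_c1dca2_ag.GT.P8a
import Pool.Agent.MP_c1dca2_ag.GT.Q0
import Pool.Agent.MP_c1dca2_ag.GT.Star
import Pool.Agent.MP_c1dca2_ag.SC2.A7
import Pool.Agent.MP_c1dca2_ag.SC2.AB
import Pool.Agent.MP_c1dca2_ag.SC2.B1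
import Pool.Agent.MP_c1dca2_ag.SEC.Defs
import Pool.Agent.MP_c1dca2_ag.SEC.S
import Pool.Agent.MP_c1dca2_ag.SUP.Defs

set_option autoImplicit false
set_option linter.unusedVariables false

open IsLocalRing

namespace GT

/-! ## [GT-H5b] consequences of `star` -/

variable {k K : Type} [Field k] [Field K] [Algebra k K] {ℓ : ℕ} [hℓ : Fact ℓ.Prime]

/-- Proof. `Z = adjoin C (F ∪ {U})`, a function field (`ff_sup`, `s = {U}`; `Ω` is algebraic over `K`, so over `F`). `i : F →+* Z` the inclusion; `Z` is algebraic over `F`. By `ord_kummer` (H1c) all orders of `t` in `Z` are divisible by `ℓ`. `star` for `Z` and `t` gives `X` and an `AA`.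
For `z ∈ X`: `fix_adjoin` (H2c) with `Q x τ := x.p.Fix τ U` and the set `F ∪ {U}` (`hF.fix` for the elements of `F`, trivial for `U`): at almost all places the elements of the inertia group which fix `U` fix `z`. Moreover the inertia group fixes `u` (`hF.fix`). Let now `U ∈ M`, `τ` in the inertia group, `Fix τ U`. `Z ≤ M`
(`IntermediateField.adjoin_induction` or `adjoin_le_iff`-type argument, `hF.le`). `τ` fixes `X`. Let `σ ∈ Wild`: `(toHom σ U) ^ ℓ = toHom σ u = u = U ^ ℓ` for all such `σ`, so `PS.wild_fix` (MP6; `x.dvr`, `n = 1`, `z = U ≠ 0` as `u ≠ 0`) gives `toHom σ U = U`, so `σ` fixes `X`. -/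
theorem fix_root_of [CharZero k] {F : IntermediateField (kb k K) (Om K)} (hF : Fd ℓ F) (t u : F)
    (ht : t ≠ 0) (hu : u ≠ 0) (U : Om K) (hU : U ^ ℓ = u)
    (hord : ∀ P, IsPl (kb k K) P → (ℓ : ℤ) ∣ od (kb k K) P t ∨ ¬ (ℓ : ℤ) ∣ od (kb k K) P u)
    (ρ : Om K) (hρ : ρ ^ ℓ = t) :
    AA (fun x : Loc k K ℓ => U ∈ x.p.M → ∀ τ, Iner x.V τ → x.p.Fix τ U → x.p.Fix τ ρ) := by
  classical
  have hac : IsAlgClosed (kb k K) := SC2.kb_isAlgClosed
  have hℓ0 : 0 < ℓ := hℓ.out.pos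
  set S : Set (Om K) := (F : Set (Om K)) ∪ ((({U} : Finset (Om K)) : Finset (Om K)) : Set (Om K))
    with hS
  let Z : IntermediateField (kb k K) (Om K) := IntermediateField.adjoin (kb k K) S
  have hSZ : ∀ z ∈ S, z ∈ Z := fun z hz => IntermediateField.subset_adjoin (kb k K) S hz
  have hUS : U ∈ S := Or.inr (by simp)
  have hFZ : F ≤ Z := fun z hz => hSZ z (Or.inl hz)
  have hUalg : IsAlgebraic F U := by
    refine IsAlgebraic.of_pow hℓ0 ?_
    rw [hU]
    exact isAlgebraic_algebraMap (R := F) (A := Om K) u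
  have hZ : FF (kb k K) Z := by
    refine ff_sup F hF.ff {U} fun y hy => ?_
    rw [Finset.mem_singleton] at hy
    rw [hy]
    exact hUalg
  let i : F →+* Z := (IntermediateField.inclusion hFZ : F →ₐ[kb k K] Z).toRingHom
  have hic : ∀ z : F, ((i z : Z) : Om K) = (z : Om K) := fun z => rfl
  have hi : ∀ c : kb k K, i (algebraMap (kb k K) F c) = algebraMap (kb k K) Z c := fun c => rfl
  let φ : K →+* F := (algebraMap K (Om K)).codRestrict F hF.base
  have hφ : ∀ z : K, ((φ z : F) : Om K) = algebraMap K (Om K) z := fun z => rfl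
  have halg : ∀ z : Z, ∃ p : Polynomial F, p ≠ 0 ∧ p.eval₂ i z = 0 := by
    intro z
    obtain ⟨p, hp, hpz⟩ := Algebra.IsAlgebraic.isAlgebraic (R := K) (z : Om K)
    refine ⟨p.map φ, (Polynomial.map_ne_zero_iff φ.injective).2 hp, ?_⟩
    rw [Polynomial.eval₂_map]
    have h1 : (Z.val : Z →+* Om K) (Polynomial.eval₂ (i.comp φ) z p) = Polynomial.aeval (z : Om K) p := by
      rw [Polynomial.hom_eval₂, Polynomial.aeval_def]
      rfl
    rw [hpz] at h1
    exact (map_eq_zero (Z.val : Z →+* Om K)).1 h1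
  have hUZ : U ∈ Z := hSZ U hUS
  have hUi : (⟨U, hUZ⟩ : Z) ^ ℓ = i u := Subtype.ext hU
  have hord' := ord_kummer (C := kb k K) hF.ff hZ i hi halg ht hu hUi hord
  have hit : i t ≠ 0 := (_root_.map_ne_zero i).2 ht
  obtain ⟨X, hX⟩ := star (k := k) (K := K) (ℓ := ℓ) Z hZ (i t) hit (fun O o hO ho => by
    rw [ord_unique (C := kb k K) ho (od_spec hZ hO) hit]
    exact hord' O hO) ρ hρ
  have h2 : AA (fun x : Loc k K ℓ => ∀ z ∈ X, ∀ τ, Iner x.V τ → x.p.Fix τ U →
      x.p.Fix τ (z : Om K)) := by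
    refine AA.finset X fun z _ => ?_
    refine fix_adjoin (fun x τ => x.p.Fix τ U) S (fun y hy => ?_) (z : Om K) z.2
    rcases hy with hy | hy
    · exact (hF.fix y hy).mono fun x hx τ hτ _ => hx τ hτ
    · have hy' : y = U := by simpa using hy
      rw [hy']
      exact AA.of fun x τ _ h => h
  refine ((hX.and h2).and (hF.fix (u : Om K) u.2)).mono ?_
  rintro x ⟨⟨h1, h2⟩, h3⟩ hUM τ hτ hτU
  have hdvr : IsDiscreteValuationRing x.A := x.dvr
  refine h1 ?_ τ hτ (fun z hz => h2 z hz τ hτ hτU) ?_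
  · rintro ⟨z, hz⟩
    show z ∈ x.p.M
    refine IntermediateField.adjoin_induction (kb k K) (p := fun z _ => z ∈ x.p.M) ?_ ?_ ?_ ?_ ?_ hz
    · intro y hy
      rcases hy with hy | hy
      · exact hF.le x.p y hy
      · have hy' : y = U := by simpa using hy
        rw [hy']
        exact hUM
    · intro c
      exact x.p.hC c
    · intro a b _ _ ha hb
      exact add_mem ha hb
    · intro a _ ha
      exact inv_mem ha
    · intro a b _ _ ha hb
      exact mul_mem ha hb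
  · intro π a ha0 ha1 hπ hπ' σ hσ z hz
    refine h2 z hz σ hσ.iner ⟨hUM, ?_⟩
    have hUne : (⟨U, hUM⟩ : x.p.M) ≠ 0 := by
      intro h
      have h5 : U = 0 := congrArg Subtype.val h
      rw [h5, zero_pow hℓ0.ne'] at hU
      exact hu (Subtype.ext hU.symm)
    refine PS.wild_fix x.above x.hℓ x.p ⟨U, hUM⟩ hUne 1 π a ha0 ha1 hπ hπ' ?_ σ hσ
    intro σ' hσ'
    obtain ⟨huM, hfix⟩ := h3 σ' hσ'.iner
    have h6 : (⟨U, hUM⟩ : x.p.M) ^ ℓ = ⟨(u : Om K), huM⟩ := Subtype.ext hU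
    rw [pow_one, ← map_pow, h6, hfix]

end GT
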