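import Mathlib
import Pool.Agent.MP_c1dca2_ag.GT.Base
import Pool.Agent.MP_c1dca2_ag.GT.H0
import Pool.Agent.MP_c1dca2_ag.GT.MP6
import Pool.Agent.MP_c1dca2_ag.GT.Q0
import Pool.Agent.MP_c1dca2_ag.GT.Y1
import Pool.Agent.MP_c1dca2_ag.SC2.A7
import Pool.Agent.MP_c1dca2_ag.SC2.AB
import Pool.Agent.MP_c1dca2_ag.SEC.Defs
import Pool.Agent.MP_c1dca2_ag.SEC.S

set_option autoImplicit false
set_option linter.unusedVariables false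

open IsLocalRing

namespace GT

/-! ## [GT-H4b] the weight of `h`, conjugation of weights by Frobenius -/

variable {k K : Type} [Field k] [Field K] [Algebra k K] {ℓ : ℕ} [hℓ : Fact ℓ.Prime]
  {x : Loc k K ℓ} {τ : kb k K ≃ₐ[k] kb k K} {ζ : kb k K}

/-- Proof. Let `ρ ∈ M`, `ρ ^ ℓ = t`, `τ ρ = ζ ^ w ρ`, `T' = φ ρ` (`toHom φ ρ`), `t' = φ t = T' ^ ℓ`. (1) All `σ` in the inertia group fix `t'`: `φ⁻¹ σ φ` is in the inertia group (direct from the definitions: `Frob.stab` and `Iner`; for `z ∈ V`: `φ⁻¹ (σ (φ z) - φ z) ∈ V.nonunits`), it fixes `t`, and `σ φ t = φ (φ⁻¹ σ φ) t`.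
(2) `x.dvr` gives `a : k`, `a ≠ 0`, `x.A.valuation a ≠ 1` (a uniformiser), `y1_exists_tower'` a tower `π` of `ℓ`-power roots. `PS.root_weight` (MP6) with `z = T'`, `n = 1`, `G = SC2.inertia x.V`: `toHom (φ τ φ⁻¹) T' / T' = (toHom τ T' / T') ^ q` (`(toHom σ T') ^ ℓ = toHom σ t' = t' = T' ^ ℓ`).
(3) `PS.conj_root` with `z = ρ`, `n = 1`: `toHom (φ τ φ⁻¹) T' / T' = (toHom τ ρ / ρ) ^ q = (iota (ζ ^ w)) ^ q`. (4) So the `ℓ`-th root of unity `(toHom τ T' / T') / iota (ζ ^ w)` has `q`-th power `1`: it is `1` (`y1_root_pow_inj`, `n = 1`; its `ℓ`-th power is `1` because `(toHom τ T') ^ ℓ = T' ^ ℓ` and `ζ ^ ℓ = 1`). -/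
theorem Wt.conj [CharZero k] (hζ : IsPrimitiveRoot ζ ℓ) (hτ : Iner x.V τ) {q : ℕ}
    (hq : q.Coprime ℓ) {φ : kb k K ≃ₐ[k] kb k K} (hφ : Frob q x.V φ) {t : Om K} (ht : t ≠ 0)
    (hM : t ∈ x.p.M) (hfix : ∀ σ, Iner x.V σ → x.p.Fix σ t) {w : ZMod ℓ} (hW : Wt x τ ζ t w) :
    Wt x τ ζ ((x.p.toHom φ ⟨t, hM⟩ : x.p.M) : Om K) w := by
  have hdvr := x.dvr
  obtain ⟨ρ, hρ, hτρ⟩ := hW
  have hρ' : ρ ^ ℓ = ⟨t, hM⟩ := Subtype.ext hρ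
  have hρ0 : ρ ≠ 0 := by
    rintro rfl
    apply ht
    rw [← hρ]
    exact zero_pow hℓ.out.ne_zero
  have hT0 : x.p.toHom φ ρ ≠ 0 := mp6_ne x.p φ ρ hρ0
  have hTpow : (x.p.toHom φ ρ) ^ ℓ = x.p.toHom φ ⟨t, hM⟩ := by
    rw [← map_pow, hρ']
  -- (1)
  have h0 : ∀ z, φ (φ⁻¹ z) = z := fun z => by rw [← AlgEquiv.mul_apply]; simp
  have hs : ∀ z, φ⁻¹ z ∈ x.V ↔ z ∈ x.V := fun z => by rw [← hφ.stab, h0]
  have hinv : ∀ σ, Iner x.V σ → x.p.toHom σ (x.p.toHom φ ⟨t, hM⟩) = x.p.toHom φ ⟨t, hM⟩ := by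
    intro σ hσ
    have h1 : Iner x.V (φ⁻¹ * σ * φ) := by
      have h2 := SC2.Iner.conj (φ := φ⁻¹) hσ hs
      rwa [inv_inv] at h2
    obtain ⟨h3, h4⟩ := hfix _ h1
    rw [← PS.toHom_mul]
    have h5 : σ * φ = φ * (φ⁻¹ * σ * φ) := by group
    rw [h5, PS.toHom_mul, h4]
  have hpow : ∀ σ, Iner x.V σ → (x.p.toHom σ (x.p.toHom φ ρ)) ^ (ℓ ^ 1) = (x.p.toHom φ ρ) ^ (ℓ ^ 1) := by
    intro σ hσ
    rw [pow_one, ← map_pow, hTpow, hinv σ hσ]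
  -- (2)
  obtain ⟨a, ha⟩ := IsDiscreteValuationRing.exists_irreducible x.A
  have ha0 : (a : k) ≠ 0 := by
    intro h
    exact ha.ne_zero (Subtype.ext h)
  have ha1 : x.A.valuation (a : k) ≠ 1 := by
    intro h
    exact ha.not_isUnit ((x.A.valuation_eq_one_iff a).2 h)
  obtain ⟨π, hπ, hπ'⟩ := y1_exists_tower' (K := K) (ℓ := ℓ) (a : k)
  have e1 := PS.root_weight x.above x.hℓ x.p (x.p.toHom φ ρ) hT0 1 π a ha0 ha1 hπ hπ'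
    (SC2.inertia x.V) (fun σ hσ => hσ) (fun σ hσ => hσ.iner) (fun σ hσ => hpow σ hσ) q φ hφ τ hτ
  -- (3)
  have hζw : (ζ ^ w.val) ^ ℓ = 1 := by
    rw [← pow_mul, mul_comm, pow_mul, hζ.pow_eq_one, one_pow]
  have hζw' : (x.p.iota (ζ ^ w.val)) ^ ℓ = 1 := by
    rw [← map_pow, hζw, map_one]
  have hi0 : x.p.iota (ζ ^ w.val) ≠ 0 := by
    intro h
    rw [h, zero_pow hℓ.out.ne_zero] at hζw'
    exact zero_ne_one hζw'
  have e2 := PS.conj_root x.hℓ x.p ρ hρ0 1 q φ hφ τ (by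
    rw [pow_one, hτρ, mul_pow, hζw', one_mul])
  rw [hτρ, mul_div_assoc, div_self hρ0, mul_one] at e2
  -- (4)
  have e3 : (x.p.toHom τ (x.p.toHom φ ρ) / x.p.toHom φ ρ) ^ q = x.p.iota (ζ ^ w.val) ^ q := by
    rw [← e1, e2]
  have e4 := y1_root_pow_inj (ℓ := ℓ) 1 q hq
    ((x.p.toHom τ (x.p.toHom φ ρ) / x.p.toHom φ ρ) / x.p.iota (ζ ^ w.val))
    (by
      rw [div_pow, div_pow, hpow τ hτ, div_self (pow_ne_zero _ hT0), pow_one, hζw', div_one])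
    (by rw [div_pow, e3, div_self (pow_ne_zero _ hi0)])
  refine ⟨x.p.toHom φ ρ, ?_, ?_⟩
  · exact congrArg Subtype.val hTpow
  · rw [div_eq_one_iff_eq hi0, div_eq_iff hT0] at e4
    exact e4


end GT
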