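import Mathlib
import Pool.Agent.MP_c1dca2_ag.GT.Base
import Pool.Agent.MP_c1dca2_ag.GT.H0
import Pool.Agent.MP_c1dca2_ag.GT.H3b
import Pool.Agent.MP_c1dca2_ag.GT.H4b
import Pool.Agent.MP_c1dca2_ag.GT.H6c
import Pool.Agent.MP_c1dca2_ag.GT.H6d
import Pool.Agent.MP_c1dca2_ag.GT.H7a
import Pool.Agent.MP_c1dca2_ag.GT.P0
import Pool.Agent.MP_c1dca2_ag.GT.Q0
import Pool.Agent.MP_c1dca2_ag.SC2.AB
import Pool.Agent.MP_c1dca2_ag.SC2.B1
import Pool.Agent.MP_c1dca2_ag.SEC.Defs
import Pool.Agent.MP_c1dca2_ag.SEC.S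
import Pool.Agent.MP_c1dca2_ag.SUP.Defs

set_option autoImplicit false
set_option linter.unusedVariables false

open IsLocalRing

namespace GT

/-! ## [GT-H7b] the action of Frobenius, the core of the argument -/

variable {k K : Type} [Field k] [Field K] [Algebra k K] {ℓ : ℕ} [hℓ : Fact ℓ.Prime]
  {F : IntermediateField (kb k K) (Om K)}

variable {hF : Fd ℓ F} {h : K} [Fintype (OMF hF h)]

/-- Frobenius permutes the weights up to a constant.

Proof. Let `𝒯` be the set of all `res hF.stab σ (D.t i)` (`σ` arbitrary, `i ∈ OM`), finite (`conj_finite`, `Set.finite_iUnion`). For `t ∈ 𝒯`: `t ≠ 0` and its orders outside `OM` are `0` modulo `ℓ` (`mvF_spec` for the place `mv (res σ.symm) O`, `mv_mem_OM`, `D.out`); `AA.set` and `weights` (H6) for all `t ∈ 𝒯`, and `hF.fix (D.t i)` for all `i` (`AA.all`).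
Let now `x` be such a place, with the data of the statement. `σ (D.t i) = toHom φ (D.t i)` (`hσ`). `Wt.conj` (H4): `Wt (σ (D.t i)) (w i)`. `weights` for `t = res hF.stab σ (D.t i) ∈ 𝒯`: `Wt t (∑ j, om ℓ j t * w j)`, and `om ℓ j t = om ℓ (π⁻¹ j) (D.t i) `: reindex the sum by `π` (a bijection of the finite set `OM`: injective by `mv_inj`):
`∑ j, om ℓ (π j) t * w (π j) = ∑ j, om ℓ j (D.t i) * w (π j)` (`mvF_spec`) `= w (π i) - w (π o)` (`D.ord`, `dl_self`, `dl_ne`). `Wt.unique`: `w i = w (π i) - w (π o)` for all `i`; subtract. -/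
theorem perm_w [CharZero k] (hh : h ≠ 0) (D : Td hF h) :
    AA (fun x : Loc k K ℓ => ∀ (q : ℕ), q.Coprime ℓ → ∀ φ : kb k K ≃ₐ[k] kb k K, Frob q x.V φ →
      ∀ σ : Om K ≃ₐ[K] Om K, (∀ z : x.p.M, σ (z : Om K) = ((x.p.toHom φ z : x.p.M) : Om K)) →
      ∀ π : OMF hF h → OMF hF h, (∀ i : OMF hF h, (π i : ValuationSubring F) = mv (res hF.stab σ) i) →
      ∀ τ, Iner x.V τ → ∀ ζ : kb k K, IsPrimitiveRoot ζ ℓ → ∀ w : OMF hF h → ZMod ℓ,
        (∀ i, Wt x τ ζ (D.t i : F) (w i)) → ∀ i j, w (π i) - w (π j) = w i - w j) := by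
  classical
  have hac : IsAlgClosed (kb k K) := SC2.kb_isAlgClosed
  -- the finite set of conjugates
  set T : Set F := ⋃ i : OMF hF h, {z' : F | ∃ σ : Om K ≃ₐ[K] Om K, z' = res hF.stab σ (D.t i)}
    with hT
  have hTf : T.Finite := Set.finite_iUnion fun i => conj_finite hF (D.t i)
  have hTne : ∀ t ∈ T, t ≠ 0 := by
    intro t ht
    obtain ⟨i, σ, rfl⟩ := Set.mem_iUnion.1 ht
    exact (map_ne_zero (res hF.stab σ)).2 (D.ne i)
  have hTout : ∀ t ∈ T, ∀ O, IsPl (kb k K) O → O ∉ OMF hF h → om ℓ O t = 0 := by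
    intro t ht O hO hOM
    obtain ⟨i, σ, rfl⟩ := Set.mem_iUnion.1 ht
    have h1 : mv (res hF.stab σ) (mv (res hF.stab σ.symm) O) = O := by
      ext z
      rw [mem_mv, mem_mv]
      have h2 : (res hF.stab σ.symm).symm ((res hF.stab σ).symm z) = z := by
        apply Subtype.ext
        rw [res_symm_coe, res_symm_coe]
        exact σ.apply_symm_apply _
      rw [h2]
    obtain ⟨h3, -⟩ := mvF_spec hF σ.symm hO
    obtain ⟨-, h4⟩ := mvF_spec hF σ h3
    rw [← h1, h4 (D.t i) (D.ne i)]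
    apply D.out i _ h3
    intro h5
    exact hOM ((mv_mem_OM hF hh σ.symm hO).1 h5)
  have hA := AA.set hTf (P := fun t (x : Loc k K ℓ) => ∀ τ, Iner x.V τ → ∀ ζ : kb k K, ζ ^ ℓ = 1 →
      ∀ w : OMF hF h → ZMod ℓ, (∀ i, Wt x τ ζ (D.t i : F) (w i)) →
        Wt x τ ζ (t : Om K) (∑ i : OMF hF h, om ℓ (i : ValuationSubring F) t * w i))
    fun t ht => weights D (hTne t ht) (hTout t ht)
  have hB : AA (fun x : Loc k K ℓ => ∀ i : OMF hF h, ∀ τ, Iner x.V τ → x.p.Fix τ (D.t i : F)) :=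
    AA.all fun i => hF.fix _ (D.t i).2
  refine (hA.and hB).mono ?_
  rintro x ⟨hxA, hxB⟩ q hq φ hφ σ hσ π hπ τ hτ ζ hζ w hw
  have hπinj : Function.Injective π := by
    intro i j hij
    have h1 : mv (res hF.stab σ) (i : ValuationSubring F) = mv (res hF.stab σ) j := by
      rw [← hπ i, ← hπ j, hij]
    exact Subtype.ext (mv_inj h1)
  have hπbij : Function.Bijective π := Finite.injective_iff_bijective.1 hπinj
  have hpl : ∀ i : OMF hF h, IsPl (kb k K) (i : ValuationSubring F) := fun i => i.2.1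
  have key : ∀ i, w i = w (π i) - w (π D.o) := by
    intro i
    have hM : ((D.t i : F) : Om K) ∈ x.p.M := hF.le x.p _ (D.t i).2
    have ht0 : ((D.t i : F) : Om K) ≠ 0 := fun h0 => D.ne i (Subtype.ext h0)
    have h1 := Wt.conj hζ hτ hq hφ ht0 hM (fun σ' hσ' => hxB i σ' hσ') (hw i)
    have h2 : ((x.p.toHom φ ⟨((D.t i : F) : Om K), hM⟩ : x.p.M) : Om K)
        = ((res hF.stab σ (D.t i) : F) : Om K) := by
      rw [res_coe]
      exact (hσ ⟨((D.t i : F) : Om K), hM⟩).symm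
    rw [h2] at h1
    have hmem : res hF.stab σ (D.t i) ∈ T := Set.mem_iUnion.2 ⟨i, σ, rfl⟩
    have h3 := hxA _ hmem τ hτ ζ hζ.pow_eq_one w hw
    have hne : ((res hF.stab σ (D.t i) : F) : Om K) ≠ 0 := by
      rw [res_coe]
      exact (map_ne_zero σ).2 ht0
    rw [Wt.unique hζ hne hτ h1 h3]
    rw [← Equiv.sum_comp (Equiv.ofBijective π hπbij)]
    have h4 : ∀ j : OMF hF h,
        om ℓ ((Equiv.ofBijective π hπbij j : OMF hF h) : ValuationSubring F) (res hF.stab σ (D.t i)) *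
          w (Equiv.ofBijective π hπbij j)
        = (if j = i then w (π j) else 0) - (if j = D.o then w (π j) else 0) := by
      intro j
      rw [Equiv.ofBijective_apply, hπ j, (mvF_spec hF σ (hpl j)).2 _ (D.ne i), D.ord i j]
      by_cases hji : j = i
      · by_cases hjo : j = D.o
        · rw [if_pos hji, if_pos hjo, hji.symm, ← hjo]
          rw [dl_self]
          ring
        · rw [if_pos hji, if_neg hjo, hji, dl_self, dl_ne (fun hc => hjo (by
            rw [hji]; exact Subtype.ext hc))]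
          ring
      · by_cases hjo : j = D.o
        · rw [if_neg hji, if_pos hjo, dl_ne (fun hc => hji (Subtype.ext hc)), hjo, dl_self]
          ring
        · rw [if_neg hji, if_neg hjo, dl_ne (fun hc => hji (Subtype.ext hc)),
            dl_ne (fun hc => hjo (Subtype.ext hc))]
          ring
    rw [Finset.sum_congr rfl fun j _ => h4 j, Finset.sum_sub_distrib, Finset.sum_ite_eq',
      Finset.sum_ite_eq', if_pos (Finset.mem_univ _), if_pos (Finset.mem_univ _)]
  intro i j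
  rw [key i, key j]
  ring

end GT
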