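import Mathlib
import Pool.Agent.MP_c1dca2_ag.GT.Base
import Pool.Agent.MP_c1dca2_ag.GT.H0
import Pool.Agent.MP_c1dca2_ag.GT.H1b
import Pool.Agent.MP_c1dca2_ag.GT.H3b
import Pool.Agent.MP_c1dca2_ag.GT.H4a
import Pool.Agent.MP_c1dca2_ag.GT.H5a
import Pool.Agent.MP_c1dca2_ag.GT.H6a
import Pool.Agent.MP_c1dca2_ag.GT.H6b
import Pool.Agent.MP_c1dca2_ag.GT.H6d
import Pool.Agent.MP_c1dca2_ag.GT.H7a
import Pool.Agent.MP_c1dca2_ag.GT.K0
import Pool.Agent.MP_c1dca2_ag.GT.P0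
import Pool.Agent.MP_c1dca2_ag.GT.Q0
import Pool.Agent.MP_c1dca2_ag.SC2.AB
import Pool.Agent.MP_c1dca2_ag.SC2.B1
import Pool.Agent.MP_c1dca2_ag.SEC.Defs
import Pool.Agent.MP_c1dca2_ag.SEC.S
import Pool.Agent.MP_c1dca2_ag.SUP.Defs

set_option autoImplicit false
set_option linter.unusedVariables false

open IsLocalRing

namespace GT

/-! ## [GT-H8a] few ramification points -/

variable {k K : Type} [Field k] [Field K] [Algebra k K] {ℓ : ℕ} [hℓ : Fact ℓ.Prime]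
  {F : IntermediateField (kb k K) (Om K)} {hF : Fd ℓ F} {h : K} [Fintype (OMF hF h)]

theorem h8a_emb_ne (hF : Fd ℓ F) {h : K} (hh : h ≠ 0) : hF.emb h ≠ 0 := by
  intro h0
  have h1 : algebraMap K (Om K) h = 0 := congrArg Subtype.val h0
  exact (_root_.map_ne_zero (algebraMap K (Om K))).2 hh h1

theorem h8a_dvd [CharZero k] (hF : Fd ℓ F) {h : K} (hh : h ≠ 0) {P : ValuationSubring F}
    (hP : IsPl (kb k K) P) (hn : P ∉ OMF hF h) : (ℓ : ℤ) ∣ od (kb k K) P (hF.emb h) := by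
  have hac : IsAlgClosed (kb k K) := SC2.kb_isAlgClosed
  by_contra hc
  exact hn ((mem_OM_iff hF.ff (h8a_emb_ne hF hh) P).2 ⟨hP, hc⟩)

/-- Proof. All orders of `t = hF.emb h` are divisible by `ℓ` (`mem_OM_iff`). Choose `ρ` with `ρ ^ ℓ = h` in `Ω`. `fix_root` (H5): at almost all places the inertia group fixes `ρ`. If `Tw x h c y₁`: `exists_tau_of` (H4) gives `τ`; `Wt h 0` (`Wt.of_fix`) contradicts `Wt.h_ne` (with any `ζ`, e.g. `ζ = 1`). -/
theorem core_0 [CharZero k] (hh : h ≠ 0) (h0 : Fintype.card (OMF hF h) = 0) :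
    AA (fun x : Loc k K ℓ => ∀ (c : k) (y₁ : Om K), ¬ Tw x h c y₁) := by
  have hemp : IsEmpty (OMF hF h) := Fintype.card_eq_zero_iff.1 h0
  have hord : ∀ P, IsPl (kb k K) P → (ℓ : ℤ) ∣ od (kb k K) P (hF.emb h) :=
    fun P hP => h8a_dvd hF hh hP fun hP' => hemp.elim ⟨P, hP'⟩
  obtain ⟨ρ, hρ⟩ := IsAlgClosed.exists_pow_nat_eq (algebraMap K (Om K) h) hℓ.out.pos
  refine (fix_root hF (hF.emb h) (h8a_emb_ne hF hh) hord ρ hρ).mono fun x hx c y₁ hw => ?_
  obtain ⟨τ, hτ, hm⟩ := exists_tau_of hw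
  have hW : Wt x τ (1 : kb k K) (algebraMap K (Om K) h) 0 := Wt.of_fix ρ hρ (hx τ hτ)
  exact Wt.h_ne hh hw hτ hm hW rfl

/-- Proof. The orders of `h` at all places except the only point `P` of `OM` are divisible by `ℓ` (`mem_OM_iff`), so also at `P` (`ord_dvd_all`, H1b): contradiction to `mem_OM_iff`. -/
theorem core_1 [CharZero k] (hh : h ≠ 0) : Fintype.card (OMF hF h) ≠ 1 := by
  have hac : IsAlgClosed (kb k K) := SC2.kb_isAlgClosed
  intro h1
  obtain ⟨P, hP⟩ := Fintype.card_eq_one_iff.1 h1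
  have h2 := ord_dvd_all hF.ff hℓ.out.pos (h8a_emb_ne hF hh) (P : ValuationSubring F)
    (fun O hO hne => h8a_dvd hF hh hO fun hO' => hne (congrArg Subtype.val (hP ⟨O, hO'⟩)))
    P P.2.1
  exact ((mem_OM_iff hF.ff (h8a_emb_ne hF hh) _).1 P.2).2 h2

/-- Proof. `OM = {P, Q}`. `mv (res σ) P ∈ OM` (`mv_mem_OM`). If it is not `P` it is `Q`, and `om ℓ Q h = om ℓ P h =: m` (`mvF_spec` for `z = hF.emb h`, fixed by `res σ`). `sum_om` (H6, with a `D` from `exists_Td`) for `t = hF.emb h`: `2 m = 0` in `ZMod ℓ`, `ℓ` is an odd prime, so `m = 0`: contradiction to `P ∈ OM`. -/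
theorem core_2 [CharZero k] (hh : h ≠ 0) (h2 : Fintype.card (OMF hF h) = 2) (hℓ2 : ℓ ≠ 2)
    (σ : Om K ≃ₐ[K] Om K) : ∃ P ∈ OMF hF h, mv (res hF.stab σ) P = P := by
  classical
  have hac : IsAlgClosed (kb k K) := SC2.kb_isAlgClosed
  rw [← Finset.card_univ, Finset.card_eq_two] at h2
  obtain ⟨a, b, hab, huniv⟩ := h2
  by_contra hcon
  push Not at hcon
  have hma : mv (res hF.stab σ) (a : ValuationSubring F) ∈ OMF hF h :=
    (mv_mem_OM hF hh σ a.2.1).2 a.2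
  have hmb : mv (res hF.stab σ) (a : ValuationSubring F) = b := by
    have h3 : (⟨_, hma⟩ : OMF hF h) ∈ (Finset.univ : Finset (OMF hF h)) := Finset.mem_univ _
    rw [huniv, Finset.mem_insert, Finset.mem_singleton] at h3
    rcases h3 with h3 | h3
    · exact absurd (congrArg Subtype.val h3) (hcon a a.2)
    · exact congrArg Subtype.val h3
  have h4 := (mvF_spec hF σ a.2.1).2 (hF.emb h) (h8a_emb_ne hF hh)
  have h5 : res hF.stab σ (hF.emb h) = hF.emb h := by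
    apply Subtype.ext
    rw [res_coe]
    exact σ.commutes h
  rw [h5, hmb] at h4
  obtain ⟨D⟩ := exists_Td hF (a : ValuationSubring F) a.2
  have h6 := sum_om D (h8a_emb_ne hF hh) fun O hO hO' =>
    (om_eq_zero O (hF.emb h)).2 (h8a_dvd hF hh hO hO')
  rw [huniv, Finset.sum_pair hab, h4, ← two_mul] at h6
  have h7 : (2 : ZMod ℓ) ≠ 0 := by
    intro h8
    have h9 : ((2 : ℕ) : ZMod ℓ) = 0 := by exact_mod_cast h8
    rw [ZMod.natCast_eq_zero_iff] at h9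
    exact hℓ2 ((Nat.prime_dvd_prime_iff_eq hℓ.out Nat.prime_two).1 h9)
  have h8 : om ℓ (a : ValuationSubring F) (hF.emb h) = 0 := by
    rcases mul_eq_zero.1 h6 with h9 | h9
    · exact absurd h9 h7
    · exact h9
  exact ((mem_OM_iff hF.ff (h8a_emb_ne hF hh) _).1 a.2).2 ((om_eq_zero _ _).1 h8)

end GT
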