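import Mathlib
import Pool.Agent.MP_c1dca2_ag.GT.H0
import Pool.Agent.MP_c1dca2_ag.GT.H2c
import Pool.Agent.MP_c1dca2_ag.GT.K0
import Pool.Agent.MP_c1dca2_ag.GT.Q0
import Pool.Agent.MP_c1dca2_ag.SEC.Defs
import Pool.Agent.MP_c1dca2_ag.SEC.S

set_option autoImplicit false
set_option linter.unusedVariables false

open IsLocalRing

namespace GT

/-! ## [GT-H9d] the local theorem -/

variable {k K : Type} [Field k] [Field K] [Algebra k K] {ℓ : ℕ} [hℓ : Fact ℓ.Prime]

/-- The ramification points: the places `P` of `C K` such that the value of `h` is not an `ℓ`-th power. -/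
def Ram (k : Type) {K : Type} [Field k] [Field K] [Algebra k K] (ℓ : ℕ) (h : K) :
    Set (ValuationSubring (LL k K)) :=
  OM (kb k K) ℓ (⟨algebraMap K (Om K) h, LL_base h⟩ : LL k K)

/-- The Galois action on the places of `C K`. -/
noncomputable def mvL (σ : Om K ≃ₐ[K] Om K) (P : ValuationSubring (LL k K)) :
    ValuationSubring (LL k K) := mv (res LL_stab σ) P

end GT
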