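import Mathlib
import Pool.Agent.MP_c1dca2_ag.GT.BC4
import Pool.Agent.MP_c1dca2_ag.GT.Base
import Pool.Agent.MP_c1dca2_ag.GT.E1
import Pool.Agent.MP_c1dca2_ag.GT.E2a
import Pool.Agent.MP_c1dca2_ag.GT.E2d
import Pool.Agent.MP_c1dca2_ag.GT.E3
import Pool.Agent.MP_c1dca2_ag.GT.E4
import Pool.Agent.MP_c1dca2_ag.GT.G1
import Pool.Agent.MP_c1dca2_ag.GT.G2
import Pool.Agent.MP_c1dca2_ag.GT.G3
import Pool.Agent.MP_c1dca2_ag.GT.G4
import Pool.Agent.MP_c1dca2_ag.GT.P0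
import Pool.Agent.MP_c1dca2_ag.GT.Q0
import Pool.Agent.MP_c1dca2_ag.GT.Y2
import Pool.Agent.MP_c1dca2_ag.SC2.AB
import Pool.Agent.MP_c1dca2_ag.SEC.Defs
import Pool.Agent.MP_c1dca2_ag.SEC.S
import Pool.Agent.MP_c1dca2_ag.SUP.Defs

set_option autoImplicit false
set_option linter.unusedVariables false

open IsLocalRing Polynomial NumberField

namespace GT

open SEC SC2

/-! ## [GT-G5] the global theorem for forms over a subfield -/

/-- No sections, no rational points, the section conjecture. -/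
def NoSec (k K : Type) [Field k] [Field K] [Algebra k K] : Prop :=
  SCJ.SectionConjecture k K ∧ IsEmpty (SCJ.Sect k K) ∧ IsEmpty (SCJ.RatPlace k K)

/-- For every field `K` over `k` containing `K₁` and a root `y` of `y ^ ℓ = c h`, and for every
`k₀`-form `K₀` of `K`: no sections. -/
def NoSecForms (k₀ k K₁ : Type) [Field k₀] [Field k] [Algebra k₀ k] [Field K₁] [Algebra k K₁]
    (ℓ : ℕ) (h : K₁) (c : k) : Prop :=
  ∀ (K₀ K : Type) [Field K₀] [Field K] [Algebra k₀ K₀] [Algebra k₀ K] [Algebra k K] [Algebra K₀ K]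
    [Algebra K₁ K] [IsScalarTower k₀ k K] [IsScalarTower k₀ K₀ K] [IsScalarTower k K₁ K],
    (∀ z : K, z ∈ IntermediateField.adjoin K₀ (Set.range (algebraMap k K))) →
    ∀ y : K, y ^ ℓ = algebraMap k K c * algebraMap K₁ K h → NoSec k₀ K₀

theorem noSec_of_base {k₀ k K₀ K : Type} [Field k₀] [CharZero k₀] [Field k] [Field K₀] [Field K]
    [Algebra k₀ k] [Algebra.IsAlgebraic k₀ k] [Algebra k₀ K₀] [Algebra k₀ K] [Algebra k K]
    [Algebra K₀ K] [IsScalarTower k₀ k K] [IsScalarTower k₀ K₀ K]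
    (hK : ∀ z : K, z ∈ IntermediateField.adjoin K₀ (Set.range (algebraMap k K)))
    (h : IsEmpty (Sect k K)) : NoSec k₀ K₀ := by
  apply e4_of_sect
  refine ⟨fun s => ?_⟩
  obtain ⟨s'⟩ := sect_base_change (k₀ := k₀) (k := k) (K₀ := K₀) (K := K) hK s
  exact h.elim s'

variable {k₀ k : Type} [Field k₀] [Field k] [NumberField k] [Algebra k₀ k] [CharZero k₀]
  [FiniteDimensional k₀ k]

/-- The global theorem, given the local theorem. -/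
theorem g5_global {K₁ : Type} [Field K₁] [Algebra k K₁] (hF : FF (kb k K₁) (Lg k K₁)) {ℓ : ℕ}
    (hℓ : ℓ.Prime) {h : K₁} (hh : h ≠ 0) (hfin : (Br k K₁ ℓ h).Finite)
    (hLB : AA (LB k K₁ ℓ h))
    (σ : Lg k K₁ ≃ₐ[K₁] Lg k K₁) (hσ : ∀ P ∈ Br k K₁ ℓ h, ¬ ∀ z, σ z ∈ P ↔ z ∈ P)
    (n : (k ≃ₐ[k₀] k) → ℕ) (hn : ¬ ℓ ∣ n 1)
    {ι : Type} [Fintype ι] (b : Module.Basis ι ℤ (𝓞 k)) (ε : ℝ) (hε : 0 < ε) :
    ∃ M : ℕ, ∀ (u : ι → ℤ) (N : ι → ℕ), (∀ i, M ≤ N i) →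
      (Nat.card {z : ι → ℤ // (∀ i, u i ≤ z i ∧ z i < u i + N i) ∧
        ¬ NoSecForms k₀ k K₁ ℓ h (cc n ((∑ i, z i • b i : 𝓞 k) : k))} : ℝ) ≤
          ε * ∏ i, (N i : ℝ) := by
  classical
  by_cases hcl : ∀ a : K₁, IsIntegral k a → a ∈ Set.range (algebraMap k K₁)
  swap
  · push Not at hcl
    obtain ⟨a, ha, hak⟩ := hcl
    refine ⟨0, fun u N hN => ?_⟩
    have h1 : IsEmpty {z : ι → ℤ // (∀ i, u i ≤ z i ∧ z i < u i + N i) ∧
        ¬ NoSecForms k₀ k K₁ ℓ h (cc n ((∑ i, z i • b i : 𝓞 k) : k))} := by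
      refine ⟨fun z => z.2.2 ?_⟩
      intro K₀ K _ _ _ _ _ _ _ _ _ _ hK y hy
      exact noSec_of_base (k := k) hK (e3_const ha hak K)
    rw [Nat.card_of_isEmpty, Nat.cast_zero]
    exact mul_nonneg hε.le (Finset.prod_nonneg fun i _ => Nat.cast_nonneg _)
  obtain ⟨S, hS⟩ := hLB
  obtain ⟨g, x₀, hg, hσ₀, hgB⟩ := e2_main hcl hF hfin σ hσ
  obtain ⟨G, hG, hGS⟩ := e3_SG S
  let s : Finset (k ≃ₐ[k₀] k) := Finset.univ.erase 1
  obtain ⟨q₁, hq₁⟩ := conj_coprime s (Finset.notMem_erase _ _)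
  set q₀ : ℕ := ℓ + q₁ + 2 * (Fintype.card s + 1) with hq₀
  have hsum := e1_primes' g G hg hG hσ₀ q₀ ∅ Set.finite_empty
  obtain ⟨M, hM⟩ := g3_density b (J := s) (fun P σ => P.comap (og (σ : k ≃ₐ[k₀] k) : 𝓞 k →+* 𝓞 k)) _
    (fun P hPp hP => ⟨by have := hP.1; omega, fun j => ⟨og_norm _ _, hq₁ P hPp
      (by have := hP.1; omega) _ j.2⟩⟩)
    (fun x => ¬ NoSecForms k₀ k K₁ ℓ h (cc n (x : k)))
    hsum (by
      rintro P hPp ⟨hqP, ⟨A, hA1, hA2, hA3, hA4, hA5, hA6, g', hg1, hg2, hg3, hg4⟩, hPB, hGA⟩ x hx hx2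
        hxs
      rw [not_not]
      intro K₀ K _ _ _ _ _ _ _ _ _ _ hK y hy
      apply noSec_of_base (k := k) hK
      have hne : (ℓ : ResidueField A) ≠ 0 := e4_card hPp hℓ (by omega) hA3
      refine g2_local hℓ hh S hS g x₀ hgB G hGS A hne (hGA A hA4 hA5) ⟨g', hg1, hg2, hg3, hg4⟩ _
        ?_ y hy
      intro b
      rw [val_cc n hA4 hA5 x (fun σ hσ => hxs ⟨σ, by simp [s, hσ]⟩)]
      exact val_pow hℓ hn (hA6 x hx hx2 ℓ hℓ.two_le) b) ε hε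
  exact ⟨M, hM⟩

end GT
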