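import Mathlib
import Pool.Agent.MP_c1dca2_ag.GT.Base
import Pool.Agent.MP_c1dca2_ag.GT.H0
import Pool.Agent.MP_c1dca2_ag.GT.H2c
import Pool.Agent.MP_c1dca2_ag.GT.H2e
import Pool.Agent.MP_c1dca2_ag.GT.H6d
import Pool.Agent.MP_c1dca2_ag.GT.H7a
import Pool.Agent.MP_c1dca2_ag.GT.J1d
import Pool.Agent.MP_c1dca2_ag.GT.Kv
import Pool.Agent.MP_c1dca2_ag.GT.P0
import Pool.Agent.MP_c1dca2_ag.GT.Q0
import Pool.Agent.MP_c1dca2_ag.SC2.B1
import Pool.Agent.MP_c1dca2_ag.SEC.Defs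
import Pool.Agent.MP_c1dca2_ag.SEC.S

set_option autoImplicit false
set_option linter.unusedVariables false

open IsLocalRing

namespace GT

/-! ## [GT-J1a] the conjugates of `t₀` -/

variable {k K : Type} [Field k] [Field K] [Algebra k K] {ℓ : ℕ}

/-- Proof. The conjugates `σ t₀` are roots of the minimal polynomial of `t₀` over `K` (finitely many), and each has at most `ℓ` roots of order `ℓ` (`X ^ ℓ - C a ≠ 0`, `ℓ > 0`). -/
theorem R0_finite (hℓ : 0 < ℓ) (t₀ : LL k K) : (R0 ℓ t₀).Finite := by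

  have hint : IsIntegral K (t₀ : Om K) := (Algebra.IsAlgebraic.isAlgebraic (t₀ : Om K)).isIntegral
  have hfin : ((minpoly K (t₀ : Om K)).rootSet (Om K)).Finite :=
    (minpoly K (t₀ : Om K)).rootSet_finite (Om K)
  have h1 : (⋃ s ∈ (minpoly K (t₀ : Om K)).rootSet (Om K), {ρ : Om K | ρ ^ ℓ = s}).Finite := by
    refine hfin.biUnion fun s _ => ?_
    have h2 : ((Polynomial.X ^ ℓ - Polynomial.C s : Polynomial (Om K)).rootSet (Om K)).Finite :=
      Polynomial.rootSet_finite _ _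
    refine h2.subset fun ρ hρ => ?_
    rw [Polynomial.mem_rootSet]
    refine ⟨Polynomial.X_pow_sub_C_ne_zero hℓ s, ?_⟩
    have h3 : ρ ^ ℓ = s := hρ
    rw [map_sub, map_pow, Polynomial.aeval_X, Polynomial.aeval_C, h3]
    exact sub_self s
  refine h1.subset ?_
  rintro ρ ⟨σ, hσ⟩
  refine Set.mem_biUnion (x := σ (t₀ : Om K)) ?_ hσ
  rw [Polynomial.mem_rootSet]
  refine ⟨minpoly.ne_zero hint, ?_⟩
  have h4 : Polynomial.aeval (σ (t₀ : Om K)) (minpoly K (t₀ : Om K)) =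
      σ (Polynomial.aeval (t₀ : Om K) (minpoly K (t₀ : Om K))) :=
    Polynomial.aeval_algHom_apply (σ : Om K →ₐ[K] Om K) (t₀ : Om K) _
  rw [h4, minpoly.aeval, map_zero]

/-- Proof. `od_spec`, `mvF_spec` for `fd_LL` (H7a) or `mv_spec`: `om ℓ P (σ t₀) = om ℓ (mv (res σ.symm) P) t₀ = 0` by `ht.val` and `ord_zero_iff` (Kv). -/
theorem Unr.om_conj [CharZero k] [hℓ : Fact ℓ.Prime] {x : K} (hx : Transcendental k x)
    (hfin : FiniteDimensional (IntermediateField.adjoin k {x}) K) {t₀ : LL k K} (ht : Unr ℓ t₀)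
    (σ : Om K ≃ₐ[K] Om K) (P : ValuationSubring (LL k K)) (hP : IsPl (kb k K) P) :
    (ℓ : ℤ) ∣ od (kb k K) P (res LL_stab σ t₀) := by

  have hac : IsAlgClosed (kb k K) := SC2.kb_isAlgClosed
  have hcz : CharZero (kb k K) := charZero_of_injective_algebraMap (algebraMap k (kb k K)).injective
  have hF : Fd ℓ (LL k K) := fd_LL ℓ hx hfin
  obtain ⟨h1, h2⟩ := mvF_spec hF σ.symm hP
  have hne : res hF.stab σ t₀ ≠ 0 := (map_ne_zero (res hF.stab σ)).2 ht.ne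
  have h3 := h2 (res hF.stab σ t₀) hne
  have h4 : res hF.stab σ.symm (res hF.stab σ t₀) = t₀ :=
    Subtype.ext (σ.symm_apply_apply (t₀ : Om K))
  rw [h4] at h3
  have h5 : ((od (kb k K) (mv (res hF.stab σ.symm) P) t₀ : ℤ) : ZMod ℓ) = 0 :=
    (ord_zero_iff (od_spec hF.ff h1) ℓ t₀ ht.ne).2 (ht.val _ h1)
  have h6 : ((od (kb k K) P (res hF.stab σ t₀) : ℤ) : ZMod ℓ) = 0 := by
    rw [om, om] at h3
    rw [← h3]
    exact h5
  exact (ZMod.intCast_zmod_eq_zero_iff_dvd _ _).1 h6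

end GT
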