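import Mathlib
import Pool.Agent.MP_c1dca2_ag.GT.Base
import Pool.Agent.MP_c1dca2_ag.GT.H0
import Pool.Agent.MP_c1dca2_ag.GT.H1b
import Pool.Agent.MP_c1dca2_ag.GT.H2e
import Pool.Agent.MP_c1dca2_ag.GT.H6d
import Pool.Agent.MP_c1dca2_ag.GT.H7c
import Pool.Agent.MP_c1dca2_ag.GT.H8b
import Pool.Agent.MP_c1dca2_ag.GT.H9d
import Pool.Agent.MP_c1dca2_ag.GT.J1b
import Pool.Agent.MP_c1dca2_ag.GT.J1d
import Pool.Agent.MP_c1dca2_ag.GT.J2c
import Pool.Agent.MP_c1dca2_ag.GT.J3a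
import Pool.Agent.MP_c1dca2_ag.GT.P0
import Pool.Agent.MP_c1dca2_ag.GT.Q0
import Pool.Agent.MP_c1dca2_ag.SC2.AB
import Pool.Agent.MP_c1dca2_ag.SC2.B1
import Pool.Agent.MP_c1dca2_ag.SEC.Defs
import Pool.Agent.MP_c1dca2_ag.SEC.S
import Pool.Agent.MP_c1dca2_ag.SUP.Defs

set_option autoImplicit false
set_option linter.unusedVariables false

open IsLocalRing

namespace GT

/-! ## [GT-J3] two ramification points -/

variable {k K : Type} [Field k] [Field K] [Algebra k K] {ℓ : ℕ} [hℓ : Fact ℓ.Prime] {t₀ : LL k K}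

/-- The core for `L`, also for two ramification points. -/
theorem core_all [CharZero k] {x : K} (hx : Transcendental k x)
    (hfin : FiniteDimensional (IntermediateField.adjoin k {x}) K) {h : K} (hh : h ≠ 0)
    (h2 : ¬ (ℓ = 2 ∧ (Ram k ℓ h).ncard = 2) ∨ ∃ t₀ : LL k K, Unr ℓ t₀) :
    AA (fun x : Loc k K ℓ => ∀ (c : k) (y₁ : Om K), Tw x h c y₁ →
      ∀ φ : kb k K ≃ₐ[k] kb k K, Frob (Nat.card (ResidueField x.A)) x.V φ →
      ∀ σ : Om K ≃ₐ[K] Om K, (∀ z : x.p.M, σ (z : Om K) = ((x.p.toHom φ z : x.p.M) : Om K)) →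
        ∃ P ∈ Ram k ℓ h, mvL σ P = P) := by
  by_cases h3 : ℓ = 2 ∧ (Ram k ℓ h).ncard = 2
  · obtain ⟨t₀, ht⟩ := h2.resolve_left fun h4 => h4 h3
    have hac : IsAlgClosed (kb k K) := SC2.kb_isAlgClosed
    have hh' : (fd_L1 hx hfin ht).emb h ≠ 0 := by
      intro h0
      apply hh
      have h1 := congrArg (fun z : L1 ℓ t₀ => (z : Om K)) h0
      exact (map_eq_zero (algebraMap K (Om K))).1 h1
    have hfin' : (OMF (fd_L1 hx hfin ht) h).Finite := OM_finite (fd_L1 hx hfin ht).ff hh'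
    have := hfin'.fintype
    refine (core_ge3 (hF := fd_L1 hx hfin ht) hh (card_L1 hx hfin ht hh h3.2)).mono ?_
    intro x' hx' c y₁ hw φ hφ σ hσ
    obtain ⟨P', hP', hmv⟩ := hx' c y₁ hw φ hφ σ hσ
    refine ⟨down P', (down_mem hx hfin ht hh hP'.1).1 hP', ?_⟩
    rw [← down_mv (fd_L1 hx hfin ht).stab σ P', hmv]
  · exact core (hF := fd_LL ℓ hx hfin) hh h3

end GT
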