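import Mathlib
import Pool.Agent.MP_c1dca2_ag.GT.K0
import Pool.Agent.MP_c1dca2_ag.SC2.AB
import Pool.Agent.MP_c1dca2_ag.SEC.Defs

set_option autoImplicit false
set_option linter.unusedSectionVars false

open Polynomial SC2 SEC

namespace GT

/-! ## [GT-Ka] almost all places are good -/

theorem Ka_mem {k C : Type} [Field k] [Field C] [Algebra k C] [Algebra.IsAlgebraic k C]
    {A : ValuationSubring k} {V : ValuationSubring C} (h : Above A V) (a : C)
    (hc : ∀ t ∈ (minpoly k a).coeffs, t ∈ A) : a ∈ V := by
  have hint : IsIntegral k a := (Algebra.IsAlgebraic.isAlgebraic (R := k) a).isIntegral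
  have hsub : ((minpoly k a).coeffs : Set k) ⊆ (A.toSubring : Set k) := fun t ht => hc t ht
  let φ : A.toSubring →+* V := ((algebraMap k C).comp A.toSubring.subtype).codRestrict V.toSubring
    (fun x => (h x.1).2 x.2)
  have h1 : IsIntegral V a := by
    refine ⟨((minpoly k a).toSubring A.toSubring hsub).map φ, ?_, ?_⟩
    · refine Monic.map φ ?_
      rw [monic_toSubring]
      exact minpoly.monic hint
    · rw [eval₂_map]
      have h2 : (algebraMap V C).comp φ = (algebraMap k C).comp A.toSubring.subtype :=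
        RingHom.ext fun x => rfl
      rw [h2, ← eval₂_map, map_toSubring]
      exact minpoly.aeval k a
  obtain ⟨y, hy⟩ := IsIntegrallyClosed.isIntegral_iff.1 h1
  rw [← hy]
  exact y.2

theorem Ka_nonunit {C : Type} [Field C] {V : ValuationSubring C} {x : C} (hx : x ∈ V.nonunits)
    (h0 : x ≠ 0) (hi : x⁻¹ ∈ V) : False := by
  have h1 : V.valuation x < 1 := V.mem_nonunits_iff.1 hx
  have h2 : V.valuation x⁻¹ ≤ 1 := (V.valuation_le_one_iff _).2 hi
  have h3 : V.valuation x * V.valuation x⁻¹ = 1 := by
    rw [← map_mul, mul_inv_cancel₀ h0, map_one]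
  have h4 : V.valuation x * V.valuation x⁻¹ ≤ V.valuation x * 1 := mul_le_mul_right h2 _
  rw [h3, mul_one] at h4
  exact absurd h1 (not_lt.2 h4)

/-- Proof. For `a : C` let `p = minpoly k a`. (1) If the coefficients of `p` are in `A` then `a` is integral
over `A` (`p` has a lift to `A[X]`, monic), so `a ∈ V` (`V` is integrally closed and contains the image of
`A`). The same for `a⁻¹`. (2) For all roots `a'` of `p` in `C` different from `a` (finitely many:
`(p.map (algebraMap k C)).roots` or `p.rootSet C`) put the coefficients of the minimal polynomial of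
`(a' - a)⁻¹` in `T`: then `(a' - a)⁻¹ ∈ V`. If `σ` is in the inertia group, `a' := σ a` is a root of `p`;
if `a' ≠ a` then `a' - a ∈ V.nonunits` (`hσ.triv`) and `(a' - a)⁻¹ ∈ V`, a contradiction. So take `T` := the
coefficients of the minimal polynomials over `k` of the finitely many elements of
`S ∪ S⁻¹ ∪ {(a' - a)⁻¹ : a ∈ S, a' a conjugate of a}`. -/
theorem exists_spread {k C : Type} [Field k] [Field C] [Algebra k C] [Algebra.IsAlgebraic k C]
    (S : Finset C) : ∃ T : Finset k, ∀ A : ValuationSubring k, (∀ t ∈ T, t ∈ A) →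
      ∀ V : ValuationSubring C, Above A V → GoodV k S V := by
  classical
  let S1 : Finset C := (S ∪ S.image (fun a => a⁻¹)) ∪ S.biUnion (fun a =>
    ((minpoly k a).map (algebraMap k C)).roots.toFinset.image (fun b => (b - a)⁻¹))
  refine ⟨S1.biUnion (fun a => (minpoly k a).coeffs), fun A hA V hV => ?_⟩
  have key : ∀ a ∈ S1, a ∈ V := fun a ha =>
    Ka_mem hV a (fun t ht => hA t (Finset.mem_biUnion.2 ⟨a, ha, ht⟩))
  refine ⟨fun a ha => key a ?_, fun a ha => key _ ?_, fun σ hσ a ha => ?_⟩
  · exact Finset.mem_union_left _ (Finset.mem_union_left _ ha)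
  · exact Finset.mem_union_left _ (Finset.mem_union_right _ (Finset.mem_image_of_mem _ ha))
  · by_contra hne
    have haV : a ∈ V := key a (Finset.mem_union_left _ (Finset.mem_union_left _ ha))
    refine Ka_nonunit (hσ.triv a haV) (sub_ne_zero.2 hne) (key _ ?_)
    refine Finset.mem_union_right _ (Finset.mem_biUnion.2 ⟨a, ha, Finset.mem_image.2 ⟨σ a, ?_, rfl⟩⟩)
    have hint : IsIntegral k a := (Algebra.IsAlgebraic.isAlgebraic (R := k) a).isIntegral
    rw [Multiset.mem_toFinset, mem_roots ((minpoly.monic hint).map _).ne_zero, IsRoot.def,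
      eval_map]
    have h1 := minpoly.aeval_algHom k (σ : C →ₐ[k] C) a
    exact h1

end GT
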