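import Mathlib
import Pool.Agent.MP_c1dca2_ag.GT.Base
import Pool.Agent.MP_c1dca2_ag.GT.E2a
import Pool.Agent.MP_c1dca2_ag.GT.E2d
import Pool.Agent.MP_c1dca2_ag.GT.E2e
import Pool.Agent.MP_c1dca2_ag.GT.E5
import Pool.Agent.MP_c1dca2_ag.GT.G1
import Pool.Agent.MP_c1dca2_ag.GT.G4
import Pool.Agent.MP_c1dca2_ag.GT.G5
import Pool.Agent.MP_c1dca2_ag.GT.H0
import Pool.Agent.MP_c1dca2_ag.GT.H9d
import Pool.Agent.MP_c1dca2_ag.GT.J1d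
import Pool.Agent.MP_c1dca2_ag.GT.J3
import Pool.Agent.MP_c1dca2_ag.GT.K0
import Pool.Agent.MP_c1dca2_ag.GT.Ka
import Pool.Agent.MP_c1dca2_ag.GT.P0
import Pool.Agent.MP_c1dca2_ag.GT.Q0
import Pool.Agent.MP_c1dca2_ag.GT.Q3
import Pool.Agent.MP_c1dca2_ag.GT.Y1
import Pool.Agent.MP_c1dca2_ag.SC2.AB
import Pool.Agent.MP_c1dca2_ag.SEC.Defs
import Pool.Agent.MP_c1dca2_ag.SEC.S
import Pool.Agent.MP_c1dca2_ag.SUP.Defs

set_option autoImplicit false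
set_option linter.unusedVariables false

open IsLocalRing Polynomial NumberField

namespace GT

open SEC SC2

/-! ## [GT-G6] the local and the global theorem -/

/-- `Y` over the algebraic closure has an unramified cyclic cover of degree `ℓ`: there is a `t` which
is not an `ℓ`-th power, but has the valuation of an `ℓ`-th power at all places. -/
def UnrCover (k K₁ : Type) [Field k] [Field K₁] [Algebra k K₁] (ℓ : ℕ) : Prop :=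
  ∃ t : Lg k K₁, t ≠ 0 ∧ (∀ P : ValuationSubring (Lg k K₁), IsPl (kb k K₁) P →
    ∃ z : Lg k K₁, P.valuation t = P.valuation z ^ ℓ) ∧ ∀ z : Lg k K₁, z ^ ℓ ≠ t

section

variable {k K₁ : Type} [Field k] [Field K₁] [Algebra k K₁]

theorem exists_unr {ℓ : ℕ} (h : UnrCover k K₁ ℓ) : ∃ t₀ : LL k K₁, Unr ℓ t₀ := by
  obtain ⟨t, ht0, ht1, ht2⟩ := h
  refine ⟨lgE k K₁ t, ?_, ?_, ?_⟩
  · exact fun h0 => ht0 ((map_eq_zero_iff _ (lgE k K₁).injective).1 h0)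
  · intro P hP
    have hP' : IsPl (kb k K₁) (plE P) := by
      refine ⟨fun c => ?_, fun htop => hP.2 ?_⟩
      · rw [mem_plE, lgE_kb]
        exact hP.1 c
      · ext z
        refine ⟨fun _ => trivial, fun _ => ?_⟩
        rw [← plE'_plE P, mem_plE', htop]
        trivial
    obtain ⟨z, hz⟩ := ht1 (plE P) hP'
    refine ⟨lgE k K₁ z, ?_⟩
    rw [← map_pow, plE_eq] at hz
    rw [hz, map_pow, map_pow]
  · intro z hz
    refine ht2 ((lgE k K₁).symm z) ?_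
    apply (lgE k K₁).injective
    rw [map_pow, RingEquiv.apply_symm_apply, hz]

theorem lb_all [CharZero k] {ℓ : ℕ} [hℓ : Fact ℓ.Prime]
    (hK : ∃ x : K₁, Transcendental k x ∧ FiniteDimensional (IntermediateField.adjoin k {x}) K₁)
    {h : K₁} (hh : h ≠ 0) (h2 : ¬ (ℓ = 2 ∧ (Br k K₁ ℓ h).ncard = 2) ∨ UnrCover k K₁ ℓ) :
    AA (LB k K₁ ℓ h) := by
  obtain ⟨x, hx, hfin⟩ := hK
  apply lb_of_core
  exact core_all hx hfin hh (by rw [br_ncard]; exact h2.imp id exists_unr)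

/-- No sections at a prime which does not divide a denominator of `T`. -/
theorem g6_local [CharZero k] {ℓ : ℕ} (hℓ : ℓ.Prime)
    (hK : ∃ x : K₁, Transcendental k x ∧ FiniteDimensional (IntermediateField.adjoin k {x}) K₁)
    {h : K₁} (hh : h ≠ 0) (h2 : ¬ (ℓ = 2 ∧ (Br k K₁ ℓ h).ncard = 2) ∨ UnrCover k K₁ ℓ) :
    ∃ T : Finset k, ∀ (A : ValuationSubring k) [IsDiscreteValuationRing A]
      [Finite (ResidueField A)], (ℓ : ResidueField A) ≠ 0 → (∀ t ∈ T, t ∈ A) →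
      ∀ (V : ValuationSubring (kb k K₁)), Above A V → ∀ φ : kb k K₁ ≃ₐ[k] kb k K₁,
      Frob (Nat.card (ResidueField A)) V φ →
      (∀ γ : Lg k K₁ ≃ₐ[K₁] Lg k K₁,
        (∀ a : kb k K₁, γ (algebraMap (kb k K₁) (Lg k K₁) a) = algebraMap (kb k K₁) (Lg k K₁) (φ a)) →
        ∀ P ∈ Br k K₁ ℓ h, ¬ ∀ z, γ z ∈ P ↔ z ∈ P) →
      ∀ c : k, (∀ b : k, A.valuation c ≠ A.valuation b ^ ℓ) →
      ∀ (K : Type) [Field K] [Algebra k K] [Algebra K₁ K] [IsScalarTower k K₁ K] (y : K),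
        y ^ ℓ = algebraMap k K c * algebraMap K₁ K h → IsEmpty (Sect k K) := by
  have hℓ' : Fact ℓ.Prime := ⟨hℓ⟩
  obtain ⟨S, hS⟩ := lb_all hK hh h2
  have hal : Algebra.IsAlgebraic k (kb k K₁) := algebraicClosure.isAlgebraic k (Om K₁)
  obtain ⟨T, hT⟩ := exists_spread (k := k) (C := kb k K₁) S
  refine ⟨T, ?_⟩
  intro A hdvr hfinA hA hTA V hAV φ hφ hmove c hc K _ _ _ _ y hy
  refine ⟨fun s => ?_⟩
  obtain ⟨p, y₁, hy₁, hfix⟩ := ps_of_sect (K₁ := K₁) s hℓ.pos (algebraMap k K₁ c * h) y (by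
    rw [hy, map_mul, ← IsScalarTower.algebraMap_apply k K₁ K])
  have hV : V.valuation ((ℓ : ℕ) : kb k K₁) = 1 := y1_val_ell hAV ℓ hA
  let L : Loc k K₁ ℓ := ⟨A, hdvr, hfinA, V, hAV, hV, p⟩
  have hG := hT A hTA V hAV
  have hSG : SG S V := fun a ha => ⟨hG.mem a ha, fun σ hσ => hG.fix σ hσ a ha⟩
  obtain ⟨P, hP, γ, hγ, hγP⟩ := hS L hSG c y₁ ⟨hc, hy₁, hfix⟩ φ hφ
  exact hmove γ hγ P hP hγP

end

/-- There is an element of the Galois group of `k^alg K₁ / K₁` which moves every branch point; or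
there are at least two branch points, and they are above one place of `K₁`. -/
def Moved (k K₁ : Type) [Field k] [Field K₁] [Algebra k K₁] (ℓ : ℕ) (h : K₁) : Prop :=
  (∃ σ : Lg k K₁ ≃ₐ[K₁] Lg k K₁, ∀ P ∈ Br k K₁ ℓ h, ¬ ∀ z, σ z ∈ P ↔ z ∈ P) ∨
  (2 ≤ (Br k K₁ ℓ h).ncard ∧ ∀ P ∈ Br k K₁ ℓ h, ∀ Q ∈ Br k K₁ ℓ h, ∀ z : K₁,
      algebraMap K₁ (Lg k K₁) z ∈ P ↔ algebraMap K₁ (Lg k K₁) z ∈ Q)

theorem g6_global {k₀ k : Type} [Field k₀] [Field k] [NumberField k₀] [NumberField k]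
    [Algebra k₀ k] [FiniteDimensional k₀ k] {K₁ : Type} [Field K₁] [Algebra k K₁] {ℓ : ℕ}
    (hℓ : ℓ.Prime)
    (hK : ∃ x : K₁, Transcendental k x ∧ FiniteDimensional (IntermediateField.adjoin k {x}) K₁)
    {h : K₁} (hh : h ≠ 0) (h2 : ¬ (ℓ = 2 ∧ (Br k K₁ ℓ h).ncard = 2) ∨ UnrCover k K₁ ℓ)
    (hσ : Moved k K₁ ℓ h)
    (n : (k ≃ₐ[k₀] k) → ℕ) (hn : ¬ ℓ ∣ n 1)
    {ι : Type} [Fintype ι] (b : Module.Basis ι ℤ (𝓞 k)) (ε : ℝ) (hε : 0 < ε) :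
    ∃ M : ℕ, ∀ (u : ι → ℤ) (N : ι → ℕ), (∀ i, M ≤ N i) →
      (Nat.card {z : ι → ℤ // (∀ i, u i ≤ z i ∧ z i < u i + N i) ∧
        ¬ NoSecForms k₀ k K₁ ℓ h (cc n ((∑ i, z i • b i : 𝓞 k) : k))} : ℝ) ≤
          ε * ∏ i, (N i : ℝ) := by
  have hℓ' : Fact ℓ.Prime := ⟨hℓ⟩
  obtain ⟨x, hx, hfin⟩ := hK
  have hbr := br_finite hx hfin ℓ hh
  have hσ' : ∃ σ : Lg k K₁ ≃ₐ[K₁] Lg k K₁, ∀ P ∈ Br k K₁ ℓ h, ¬ ∀ z, σ z ∈ P ↔ z ∈ P := by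
    rcases hσ with hσ | ⟨h3, h4⟩
    · exact hσ
    · exact e5_jordan hbr h3 h4
  obtain ⟨σ, hσ⟩ := hσ'
  exact g5_global (lg_ff ⟨x, hx, hfin⟩) hℓ hh hbr (lb_all ⟨x, hx, hfin⟩ hh h2) σ hσ n hn b ε hε

end GT
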