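import Mathlib
import Pool.Agent.MP_c1dca2_ag.SEC.S

/-!
# Twists of curves (MP_c1dca2_ag): statement-level definitions

`K₁` is the function field of a curve `Y` over `k`, `ℓ` a prime number, `h ∈ K₁`, `c ∈ k`: the curve
`y ^ ℓ = c h` over `Y` is a twist of the curve `y ^ ℓ = h`.
-/

set_option autoImplicit false

noncomputable section

namespace GTS

section Geometric

variable (k K₁ : Type) [Field k] [Field K₁] [Algebra k K₁]

/-- The function field `k^alg K₁` of the curve `Y` over the algebraic closure of `k`: the subfield of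
the algebraic closure of `K₁` generated by `K₁` and the algebraic closure of `k` in it. -/
def Geo : Type := IntermediateField.adjoin K₁ (SCJ.kbar k K₁ : Set (SCJ.Om K₁))

instance geoField : Field (Geo k K₁) :=
  (inferInstance : Field (IntermediateField.adjoin K₁ (SCJ.kbar k K₁ : Set (SCJ.Om K₁))))

instance geoAlg : Algebra K₁ (Geo k K₁) :=
  (inferInstance : Algebra K₁ (IntermediateField.adjoin K₁ (SCJ.kbar k K₁ : Set (SCJ.Om K₁))))

/-- The places of `k^alg K₁`, i.e. the points of the smooth projective model of `Y` over `k^alg`: the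
nontrivial valuation rings containing `k`. -/
def IsPlace (P : ValuationSubring (Geo k K₁)) : Prop :=
  (∀ a : k, algebraMap K₁ (Geo k K₁) (algebraMap k K₁ a) ∈ P) ∧ P ≠ ⊤

/-- The branch points of `y ^ ℓ = h`: the places at which the value of `h` is not the `ℓ`-th power of
a value. They correspond to the fixed points of the group of order `ℓ` on the covering curve. -/
def Branch (ℓ : ℕ) (h : K₁) : Set (ValuationSubring (Geo k K₁)) :=
  {P | IsPlace k K₁ P ∧ ∀ z : Geo k K₁, P.valuation (algebraMap K₁ (Geo k K₁) h) ≠ P.valuation z ^ ℓ}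

/-- The automorphism `σ` moves the place `P`. -/
def Moves (σ : Geo k K₁ ≃ₐ[K₁] Geo k K₁) (P : ValuationSubring (Geo k K₁)) : Prop :=
  ¬ ∀ z, σ z ∈ P ↔ z ∈ P

/-- Some element of the Galois group of `k^alg K₁ / K₁` moves all branch points; or there are at least
two branch points, and they are all above the same place of `K₁`. -/
def Moved (ℓ : ℕ) (h : K₁) : Prop :=
  (∃ σ : Geo k K₁ ≃ₐ[K₁] Geo k K₁, ∀ P ∈ Branch k K₁ ℓ h, Moves k K₁ σ P) ∨
  (2 ≤ (Branch k K₁ ℓ h).ncard ∧ ∀ P ∈ Branch k K₁ ℓ h, ∀ Q ∈ Branch k K₁ ℓ h, ∀ z : K₁,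
    algebraMap K₁ (Geo k K₁) z ∈ P ↔ algebraMap K₁ (Geo k K₁) z ∈ Q)

/-- There is an unramified cyclic cover of degree `ℓ` of `Y` over `k^alg`: there is an element `t` of
`k^alg K₁` which is not an `ℓ`-th power, but whose value is the `ℓ`-th power of a value at all places.
(For `ℓ = 2` and `K₁ / k` regular this holds if and only if the genus of `Y` is not `0`.) -/
def UnrCover (ℓ : ℕ) : Prop :=
  ∃ t : Geo k K₁, t ≠ 0 ∧ (∀ P, IsPlace k K₁ P → ∃ z : Geo k K₁, P.valuation t = P.valuation z ^ ℓ) ∧
    ∀ z : Geo k K₁, z ^ ℓ ≠ t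

/-- `K₁` is a function field of one variable over `k`. -/
def IsFunctionField : Prop :=
  ∃ x : K₁, Transcendental k x ∧ FiniteDimensional (IntermediateField.adjoin k {x}) K₁

end Geometric

/-- The section conjecture holds for the curve with the function field `K`, and it has neither
sections nor rational points. -/
def NoSection (k K : Type) [Field k] [Field K] [Algebra k K] : Prop :=
  SCJ.SectionConjecture k K ∧ IsEmpty (SCJ.Sect k K) ∧ IsEmpty (SCJ.RatPlace k K)

/-- `NoSection` over `k₀` for all fields `K₀` over `k₀` such that the compositum `K` of `K₀` and `k`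
contains `K₁` and a root `y` of `y ^ ℓ = c h`: all curves over `k₀` which have over `k` a nonconstant
map to the curve `y ^ ℓ = c h`, in particular all its forms over `k₀`. -/
def NoSectionForms (k₀ k K₁ : Type) [Field k₀] [Field k] [Algebra k₀ k] [Field K₁] [Algebra k K₁]
    (ℓ : ℕ) (h : K₁) (c : k) : Prop :=
  ∀ (K₀ K : Type) [Field K₀] [Field K] [Algebra k₀ K₀] [Algebra k₀ K] [Algebra k K] [Algebra K₀ K]
    [Algebra K₁ K] [IsScalarTower k₀ k K] [IsScalarTower k₀ K₀ K] [IsScalarTower k K₁ K] (y : K),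
    IntermediateField.adjoin K₀ (Set.range (algebraMap k K)) = ⊤ →
    y ^ ℓ = algebraMap k K c * algebraMap K₁ K h → NoSection k₀ K₀

/-- The twisting parameter `c(a) = ∏_σ σ(a) ^ (n σ)`, the product over the automorphisms `σ` of
`k / k₀`. -/
def param {k₀ k : Type} [Field k₀] [Field k] [Algebra k₀ k] (n : (k ≃ₐ[k₀] k) → ℕ) (a : k) : k :=
  ∏ᶠ σ : k ≃ₐ[k₀] k, σ a ^ n σ

end GTS
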