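import Mathlib
import Pool.Agent.MP_c1dca2_ag.GT.S
import Pool.Agent.MP_c1dca2_ag.GT.G6
import Pool.Agent.MP_c1dca2_ag.GT.E2a
import Pool.Agent.MP_c1dca2_ag.GT.E2d
import Pool.Agent.MP_c1dca2_ag.GT.G4
import Pool.Agent.MP_c1dca2_ag.GT.G5
import Pool.Agent.MP_c1dca2_ag.GT.P0

set_option autoImplicit false
set_option linter.unusedVariables false

open IsLocalRing Polynomial NumberField

namespace GT

open SEC SC2

/-! ## [GT-G7] comparison with the statement-level definitions -/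

section

variable {k K₁ : Type} [Field k] [Field K₁] [Algebra k K₁]

theorem g7_pl (P : ValuationSubring (Lg k K₁)) : IsPl (kb k K₁) P ↔
    (∀ a : k, algebraMap K₁ (Lg k K₁) (algebraMap k K₁ a) ∈ P) ∧ P ≠ ⊤ := by
  constructor
  · rintro ⟨h1, h2⟩
    refine ⟨fun a => ?_, h2⟩
    have h3 := h1 (algebraMap k (kb k K₁) a)
    rwa [← algkL_eq, algkL_eq'] at h3
  · rintro ⟨h1, h2⟩
    refine ⟨fun c => ?_, h2⟩
    have hc : IsIntegral k c := Algebra.IsIntegral.isIntegral (R := k) c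
    obtain ⟨p, hp, hpc⟩ := hc
    let φ : k →+* P := ((algebraMap K₁ (Lg k K₁)).comp (algebraMap k K₁)).codRestrict P.toSubring h1
    have h3 : IsIntegral P (algebraMap (kb k K₁) (Lg k K₁) c) := by
      refine ⟨p.map φ, hp.map φ, ?_⟩
      rw [eval₂_map]
      have h4 : (algebraMap P (Lg k K₁)).comp φ =
          (algebraMap (kb k K₁) (Lg k K₁)).comp (algebraMap k (kb k K₁)) := by
        refine RingHom.ext fun a => ?_
        change algebraMap K₁ (Lg k K₁) (algebraMap k K₁ a) =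
          algebraMap (kb k K₁) (Lg k K₁) (algebraMap k (kb k K₁) a)
        rw [← algkL_eq', algkL_eq]
      rw [h4, ← Polynomial.hom_eval₂, hpc, map_zero]
    obtain ⟨b, hb⟩ := IsIntegrallyClosed.isIntegral_iff.1 h3
    rw [← hb]
    exact b.2

theorem g7_branch (ℓ : ℕ) (h : K₁) : GTS.Branch k K₁ ℓ h = Br k K₁ ℓ h := by
  ext P
  constructor
  · rintro ⟨h1, h2⟩
    exact ⟨(g7_pl P).2 h1, h2⟩
  · rintro ⟨h1, h2⟩
    exact ⟨(g7_pl P).1 h1, h2⟩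

theorem g7_moved {ℓ : ℕ} {h : K₁} (hm : GTS.Moved k K₁ ℓ h) : Moved k K₁ ℓ h := by
  unfold GTS.Moved at hm
  rw [g7_branch] at hm
  exact hm

theorem g7_unr {ℓ : ℕ} (hu : GTS.UnrCover k K₁ ℓ) : UnrCover k K₁ ℓ := by
  obtain ⟨t, h1, h2, h3⟩ := hu
  exact ⟨t, h1, fun P hP => h2 P ((g7_pl P).1 hP), h3⟩

theorem g7_param {k₀ k : Type} [Field k₀] [Field k] [Algebra k₀ k] [FiniteDimensional k₀ k]
    (n : (k ≃ₐ[k₀] k) → ℕ) (a : k) : GTS.param n a = cc n a := by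
  unfold GTS.param cc
  exact finprod_eq_prod_of_fintype _

theorem g7_forms {k₀ k K₁ : Type} [Field k₀] [Field k] [Algebra k₀ k] [Field K₁] [Algebra k K₁]
    {ℓ : ℕ} {h : K₁} {c : k} (hn : NoSecForms k₀ k K₁ ℓ h c) :
    GTS.NoSectionForms k₀ k K₁ ℓ h c := by
  intro K₀ K _ _ _ _ _ _ _ _ _ _ y hK hy
  exact hn K₀ K (fun z => by rw [hK]; exact IntermediateField.mem_top) y hy

end

theorem main_global {k₀ k : Type} [Field k₀] [NumberField k₀] [Field k] [NumberField k]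
    [Algebra k₀ k] {K₁ : Type} [Field K₁] [Algebra k K₁] (hK : GTS.IsFunctionField k K₁) {ℓ : ℕ}
    (hℓ : ℓ.Prime) {h : K₁} (hh : h ≠ 0)
    (h2 : ¬ (ℓ = 2 ∧ (GTS.Branch k K₁ ℓ h).ncard = 2) ∨ GTS.UnrCover k K₁ ℓ)
    (hσ : GTS.Moved k K₁ ℓ h) (n : (k ≃ₐ[k₀] k) → ℕ) (hn : ¬ ℓ ∣ n 1)
    {ι : Type} [Fintype ι] (b : Module.Basis ι ℤ (𝓞 k)) (ε : ℝ) (hε : 0 < ε) :
    ∃ M : ℕ, ∀ (u : ι → ℤ) (N : ι → ℕ), (∀ i, M ≤ N i) →
      (Nat.card {z : ι → ℤ // (∀ i, u i ≤ z i ∧ z i < u i + N i) ∧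
        ¬ GTS.NoSectionForms k₀ k K₁ ℓ h (GTS.param n ((∑ i, z i • b i : 𝓞 k) : k))} : ℝ) ≤
          ε * ∏ i, (N i : ℝ) := by
  classical
  have hfd : FiniteDimensional k₀ k := FiniteDimensional.right ℚ k₀ k
  have h2' : ¬ (ℓ = 2 ∧ (Br k K₁ ℓ h).ncard = 2) ∨ UnrCover k K₁ ℓ := by
    rw [← g7_branch]
    exact h2.imp id g7_unr
  obtain ⟨M, hM⟩ := g6_global (k₀ := k₀) hℓ hK hh h2' (g7_moved hσ) n hn b ε hε
  refine ⟨M, fun u N hN => le_trans ?_ (hM u N hN)⟩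
  have hfin : Finite {z : ι → ℤ // (∀ i, u i ≤ z i ∧ z i < u i + N i) ∧
      ¬ NoSecForms k₀ k K₁ ℓ h (cc n ((∑ i, z i • b i : 𝓞 k) : k))} := by
    have h5 : Set.Finite {z : ι → ℤ | ∀ i, u i ≤ z i ∧ z i < u i + N i} := by
      have h6 : {z : ι → ℤ | ∀ i, u i ≤ z i ∧ z i < u i + N i} ⊆
          Set.Icc u (fun i => u i + N i) := by
        intro z hz
        exact ⟨fun i => (hz i).1, fun i => (hz i).2.le⟩
      exact (Set.finite_Icc _ _).subset h6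
    exact (h5.subset fun z hz => hz.1).to_subtype
  have h7 : Nat.card {z : ι → ℤ // (∀ i, u i ≤ z i ∧ z i < u i + N i) ∧
        ¬ GTS.NoSectionForms k₀ k K₁ ℓ h (GTS.param n ((∑ i, z i • b i : 𝓞 k) : k))} ≤
      Nat.card {z : ι → ℤ // (∀ i, u i ≤ z i ∧ z i < u i + N i) ∧
      ¬ NoSecForms k₀ k K₁ ℓ h (cc n ((∑ i, z i • b i : 𝓞 k) : k))} := by
    refine Nat.card_le_card_of_injective
      (fun z => ⟨z.1, z.2.1, fun h8 => z.2.2 (by rw [g7_param]; exact g7_forms h8)⟩) ?_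
    intro z z' hz
    have := congrArg Subtype.val hz
    exact Subtype.ext this
  exact_mod_cast h7

end GT
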