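import Mathlib
import Pool.Agent.MP_c1dca2_ag.GT.Base
import Pool.Agent.MP_c1dca2_ag.GT.H0
import Pool.Agent.MP_c1dca2_ag.GT.H1b
import Pool.Agent.MP_c1dca2_ag.GT.H1c
import Pool.Agent.MP_c1dca2_ag.GT.H1d
import Pool.Agent.MP_c1dca2_ag.GT.Kv
import Pool.Agent.MP_c1dca2_ag.GT.P0

set_option autoImplicit false
set_option linter.unusedVariables false

open IsLocalRing

namespace GT

/-! ## [GT-J2b] a place with a free orbit is unramified -/

variable {C N N' : Type} [Field C] [Field N] [Field N'] [Algebra C N] [Algebra C N']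

theorem j2b_comap (i : N →+* N') (g : N' ≃+* N') (hg : ∀ z : N, g (i z) = i z)
    (P' : ValuationSubring N') : (mv g⁻¹ P').comap i = P'.comap i := by
  ext z
  rw [ValuationSubring.mem_comap, ValuationSubring.mem_comap, mem_mv]
  have h1 : (g⁻¹ : N' ≃+* N').symm (i z) = g (i z) := rfl
  rw [h1, hg]

theorem j2b_fix (G : Subgroup (N' ≃+* N')) [Fintype G] (t : N') (h : N' ≃+* N') (hh : h ∈ G) :
    h (∏ g : G, (g : N' ≃+* N') t) = ∏ g : G, (g : N' ≃+* N') t := by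
  rw [map_prod]
  exact Fintype.prod_equiv (Equiv.mulLeft (⟨h, hh⟩ : G)) _ _ fun g => rfl

theorem j2b_norm [CharZero C] [IsAlgClosed C] (hF' : FF C N') (i : N →+* N')
    (hi : ∀ c : C, i (algebraMap C N c) = algebraMap C N' c)
    {ℓ : ℕ} (hℓ : ℓ.Prime)
    (G : Subgroup (N' ≃+* N')) [Fintype G] (hfix : ∀ g ∈ G, ∀ z : N, g (i z) = i z)
    {P' Q' : ValuationSubring N'} (hP : IsPl C P') (hQ : IsPl C Q')
    (hne : Q'.comap i ≠ P'.comap i) (hfree : ∀ g ∈ G, g ≠ 1 → mv g P' ≠ P') :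
    ∃ t : N', t ≠ 0 ∧ ((od C P' (∏ g : G, (g : N' ≃+* N') t) : ℤ) : ZMod ℓ) = 1 := by
  classical
  have hPQ : P' ≠ Q' := by
    rintro rfl
    exact hne rfl
  obtain ⟨t, ht0, ht1, ht2, ht3⟩ := exists_t' hF' hℓ.pos hP hQ hPQ
  refine ⟨t, ht0, ?_⟩
  have hgt0 : ∀ g : G, (g : N' ≃+* N') t ≠ 0 := fun g => (map_ne_zero (g : N' ≃+* N')).2 ht0
  have ho' := od_spec hF' hP
  rw [(ord_rules ho').2.2.2 Finset.univ (fun g : G => (g : N' ≃+* N') t) (fun g _ => hgt0 g)]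
  rw [Int.cast_sum, Finset.sum_eq_single (1 : G)]
  · exact ht1
  · intro g _ hg1
    have hgm : ((g : N' ≃+* N')⁻¹) ∈ G := G.inv_mem g.2
    have hg1' : (g : N' ≃+* N')⁻¹ ≠ 1 := by
      intro h0
      exact hg1 (Subtype.ext (inv_eq_one.1 h0))
    have hconst : ∀ h ∈ G, ∀ c : C, ∃ c' : C, h (algebraMap C N' c) = algebraMap C N' c' := by
      intro h hh c
      refine ⟨c, ?_⟩
      rw [← hi c]
      exact hfix h hh _
    obtain ⟨h1, h2⟩ := mv_spec hF' ((g : N' ≃+* N')⁻¹) (hconst _ hgm)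
      (fun c => hconst (g : N' ≃+* N') g.2 c) hP
    have h3 : od C P' ((g : N' ≃+* N') t) = od C (mv (g : N' ≃+* N')⁻¹ P') t := (h2 t ht0).symm
    rw [h3]
    refine ht3 _ h1 (hfree _ hgm hg1') ?_
    intro h4
    apply hne
    rw [← h4]
    exact j2b_comap i (g : N' ≃+* N') (hfix _ g.2) P'
  · intro h
    exact absurd (Finset.mem_univ _) h

/-- Let `G` be a finite group of automorphisms of `N'` with fixed field `N`, `P'` a place of `N'` with
a free orbit. Then the ramification index of `P'` over `N` is prime to `ℓ`.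

Proof. `od P' (i f) = e * od (P'.comap i) f` with `e > 0` (`ord_comap`, `pl_comap` of H1c; the elements
of `N'` are algebraic over `N`: `∏ g, (X - g z)` has coefficients fixed by `G`; or with Mathlib's
`FixedPoints`/`IsGalois` API; or `halg`). We show that `ℓ` does not divide `e`. `exists_t'` (H1b) for `P'`, `Q'`
(`P' ≠ Q'`) gives `f ∈ N'`, `f ≠ 0`, with `od P' f = 1`, `od Q' f = -1` and `od O f = 0` in `ZMod ℓ` at
all other places `O`. `∏ g, g f` (product over `G`) is fixed by `G`, so equal to `i w` for some `w ∈ N`.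
For `g ∈ G`: `od P' (g f) = od (mv g⁻¹ P') f` (`mv_spec` of H1d for `e = g⁻¹`; `g` fixes the constants by `hfix`, `hi`), and
`mv g⁻¹ P' ≠ Q'` (otherwise `Q'.comap i = P'.comap i`), `mv g⁻¹ P' ≠ P'` if `g ≠ 1`
(`hfree`). So `od P' (i w) = ∑ g, od P' (g f) = 1` in `ZMod ℓ`, and `e * od (P'.comap i) w = 1` in
`ZMod ℓ`: `ℓ` does not divide `e` (`ℓ` is prime), and the claim follows (`Int.Prime.dvd_mul'`-type lemma). -/
theorem ord_of_free [CharZero C] [IsAlgClosed C] (hF : FF C N) (hF' : FF C N') (i : N →+* N')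
    (hi : ∀ c : C, i (algebraMap C N c) = algebraMap C N' c)
    (halg : ∀ z : N', ∃ p : Polynomial N, p ≠ 0 ∧ p.eval₂ i z = 0) {ℓ : ℕ} (hℓ : ℓ.Prime)
    (G : Subgroup (N' ≃+* N')) (hGfin : Finite G) (hfix : ∀ g ∈ G, ∀ z : N, g (i z) = i z)
    (hG : ∀ z : N', (∀ g ∈ G, g z = z) → ∃ w : N, i w = z) {P' Q' : ValuationSubring N'}
    (hP : IsPl C P') (hQ : IsPl C Q') (hne : Q'.comap i ≠ P'.comap i)
    (hfree : ∀ g ∈ G, g ≠ 1 → mv g P' ≠ P') {f : N} (hf : f ≠ 0) :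
    (ℓ : ℤ) ∣ od C P' (i f) ↔ (ℓ : ℤ) ∣ od C (P'.comap i) f := by
  have hfact : Fact ℓ.Prime := ⟨hℓ⟩
  have hfin : Fintype G := Fintype.ofFinite G
  have hpl := pl_comap i hi halg hP
  have ho' := od_spec hF' hP
  have ho := od_spec hF hpl
  obtain ⟨e, he0, he⟩ := ord_comap i ho' ho
  obtain ⟨t, ht0, ht⟩ := j2b_norm hF' i hi hℓ G hfix hP hQ hne hfree
  obtain ⟨w, hw⟩ := hG (∏ g : G, (g : N' ≃+* N') t) (fun g hg => j2b_fix G t g hg)
  have hw0 : w ≠ 0 := by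
    rintro rfl
    rw [map_zero] at hw
    exact Finset.prod_ne_zero_iff.2
      (fun g _ => (map_ne_zero ((g : G) : N' ≃+* N')).2 ht0) hw.symm
  have hel : ¬ (ℓ : ℤ) ∣ e := by
    intro hdvd
    rw [← hw, he w hw0] at ht
    have h1 : ((e * od C (P'.comap i) w : ℤ) : ZMod ℓ) = 0 := by
      rw [ZMod.intCast_zmod_eq_zero_iff_dvd]
      exact Dvd.dvd.mul_right hdvd _
    rw [h1] at ht
    exact zero_ne_one ht
  rw [he f hf]
  have hp : Prime (ℓ : ℤ) := Nat.prime_iff_prime_int.1 hℓ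
  constructor
  · intro h
    exact (hp.dvd_or_dvd h).resolve_left hel
  · intro h
    exact Dvd.dvd.mul_left h e

end GT
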