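import Mathlib
import Pool.Agent.MP_c1dca2_ag.GT.Base
import Pool.Agent.MP_c1dca2_ag.GT.H0
import Pool.Agent.MP_c1dca2_ag.GT.H1c
import Pool.Agent.MP_c1dca2_ag.GT.H2b
import Pool.Agent.MP_c1dca2_ag.GT.H2c
import Pool.Agent.MP_c1dca2_ag.GT.J1a
import Pool.Agent.MP_c1dca2_ag.GT.J1b
import Pool.Agent.MP_c1dca2_ag.GT.J1d
import Pool.Agent.MP_c1dca2_ag.GT.J2c
import Pool.Agent.MP_c1dca2_ag.GT.P0
import Pool.Agent.MP_c1dca2_ag.GT.Q0
import Pool.Agent.MP_c1dca2_ag.SC2.B1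
import Pool.Agent.MP_c1dca2_ag.SEC.Defs
import Pool.Agent.MP_c1dca2_ag.SEC.S

set_option autoImplicit false
set_option linter.unusedVariables false

open IsLocalRing

namespace GT

/-! ## [GT-J2e] automorphisms of the unramified cover move all places -/

variable {k K : Type} [Field k] [Field K] [Algebra k K] {ℓ : ℕ} {t₀ : LL k K}

theorem j2e_le {N : Type} [Field N] (V : ValuationSubring N) {a : N} {n : ℕ} (hn : n ≠ 0)
    (h : a ^ n ∈ V) : a ∈ V := by
  rw [← ValuationSubring.valuation_le_one_iff, map_pow] at h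
  rw [← ValuationSubring.valuation_le_one_iff]
  exact (pow_le_one_iff_of_nonneg zero_le hn).1 h

theorem j2e_one {C N : Type} [Field C] [Field N] [Algebra C N] {V : ValuationSubring N}
    (hV : IsPl C V) {c : C} (hc : c ≠ 0) : V.valuation (algebraMap C N c) = 1 := by
  apply le_antisymm
  · rw [ValuationSubring.valuation_le_one_iff]
    exact hV.1 c
  · have h1 : V.valuation (algebraMap C N c⁻¹) ≤ 1 := by
      rw [ValuationSubring.valuation_le_one_iff]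
      exact hV.1 c⁻¹
    have h2 : V.valuation (algebraMap C N c) * V.valuation (algebraMap C N c⁻¹) = 1 := by
      rw [← map_mul, ← map_mul, mul_inv_cancel₀ hc, map_one, map_one]
    rw [← h2]
    calc V.valuation (algebraMap C N c) * V.valuation (algebraMap C N c⁻¹) ≤
        V.valuation (algebraMap C N c) * 1 := by gcongr
      _ = _ := mul_one _

theorem j2e_lt {C N : Type} [Field C] [Field N] [Algebra C N] {V : ValuationSubring N} {o : N → ℤ}
    (ho : IsOrd C V o) {y : N} (hy : y ≠ 0) (h : 0 < o y) : V.valuation y < 1 := by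
  by_contra hc
  rw [not_lt] at hc
  have h1 : y⁻¹ ∈ V := by
    rw [← ValuationSubring.valuation_le_one_iff, map_inv₀]
    exact inv_le_one_of_one_le₀ hc
  have h2 := (ho.mem _ (inv_ne_zero hy)).1 h1
  rw [h1c_inv ho y hy] at h2
  omega

theorem j2e_mv {N : Type} [Field N] {V : ValuationSubring N} {e : N ≃+* N} (h : mv e V = V) {y : N}
    (hy : V.valuation y < 1) : V.valuation (e y) < 1 := by
  by_contra hc
  rw [not_lt] at hc
  have h1 : e y⁻¹ ∈ V := by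
    rw [← ValuationSubring.valuation_le_one_iff, map_inv₀, map_inv₀]
    exact inv_le_one_of_one_le₀ hc
  rw [← h, mem_mv, RingEquiv.symm_apply_apply] at h1
  rw [← ValuationSubring.valuation_le_one_iff, map_inv₀] at h1
  by_cases hy0 : y = 0
  · rw [hy0, map_zero, map_zero] at hc
    exact absurd hc (not_le.2 zero_lt_one)
  · have hv : 0 < V.valuation y := by
      rw [Valuation.pos_iff]
      exact hy0
    have h2 := (inv_le_one₀ hv).1 h1
    exact absurd hy (not_lt.2 h2)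

/-- An automorphism of the unramified cover moves all places.

Proof. `ρ ^ ℓ = σ t₀ =: t ∈ LL`, all orders of `t` are divisible by `ℓ` (`Unr.om_conj`). `e ρ = ξ ρ` with `ξ ^ ℓ = 1`, `ξ ≠ 1` (`ρ ≠ 0`), `ξ` a constant (`ξ` is algebraic over `k`). Suppose `mv e P' = P'`. Let `P = down P'` (`down_pl`), `z ∈ LL` with `od P z = 1` (`IsOrd.surj`), `od P t = ℓ m`, `η = ρ * (inc1 z) ^ (-m)` (integer power). `η ^ ℓ = inc1 (t * z ^ (- ℓ m))` and
`od P (t * z ^ (- ℓ m)) = 0`, so `η ^ ℓ` and its inverse are in `P'`, so `η` and `η⁻¹` are in `P'`. `IsOrd.res` for `P'`: a constant `c` with `η - c ∈ P'.nonunits`, `c ≠ 0`. `e` preserves `P'` (`mv e P' = P'`), so its nonunits, and fixes `inc1 z`, `c` (constants are in `LL`): `e (η - c) = ξ η - c ∈ P'.nonunits`, and `ξ (η - c) ∈ P'.nonunits`, so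
`(ξ - 1) c ∈ P'.nonunits`, but it is a nonzero constant: contradiction. -/
theorem mv_ne [CharZero k] [hℓ : Fact ℓ.Prime] {x : K} (hx : Transcendental k x)
    (hfin : FiniteDimensional (IntermediateField.adjoin k {x}) K) (ht : Unr ℓ t₀)
    (e : L1 ℓ t₀ ≃+* L1 ℓ t₀) (he : ∀ z : LL k K, e (inc1 ℓ t₀ z) = inc1 ℓ t₀ z) (ρ : L1 ℓ t₀)
    (hρ : (ρ : Om K) ∈ R0 ℓ t₀) (hne : e ρ ≠ ρ) {P' : ValuationSubring (L1 ℓ t₀)}
    (hP : IsPl (kb k K) P') : mv e P' ≠ P' := by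
  intro hmv
  have hac : IsAlgClosed (kb k K) := SC2.kb_isAlgClosed
  have hch : CharZero (kb k K) :=
    charZero_of_injective_algebraMap (algebraMap k (kb k K)).injective
  have hl0 : ℓ ≠ 0 := hℓ.out.ne_zero
  obtain ⟨σ, hσ⟩ := hρ
  set t : LL k K := res LL_stab σ t₀ with ht'
  have hρt : ρ ^ ℓ = inc1 ℓ t₀ t := by
    apply Subtype.ext
    rw [inc1_coe, ht', res_coe]
    exact hσ
  have hρ0 : ρ ≠ 0 := by
    rintro rfl
    exact hne (map_zero e)
  have hlt : (e ρ) ^ ℓ = ρ ^ ℓ := by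
    rw [← map_pow, hρt, he]
  -- the root of unity
  obtain ⟨ξ, hξ⟩ : ∃ ξ : kb k K, e ρ = algebraMap (kb k K) (L1 ℓ t₀) ξ * ρ := by
    have h1 : (e ρ / ρ) ^ ℓ = 1 := by
      rw [div_pow, hlt, div_self (pow_ne_zero _ hρ0)]
    have h2 : (((e ρ / ρ : L1 ℓ t₀) : Om K)) ^ ℓ = 1 := by
      have := congrArg (fun z : L1 ℓ t₀ => (z : Om K)) h1
      exact this
    have h3 : ((e ρ / ρ : L1 ℓ t₀) : Om K) ∈ kb k K := by
      rw [mem_algebraicClosure_iff]
      refine IsAlgebraic.of_pow (n := ℓ) (Nat.pos_of_ne_zero hl0) ?_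
      rw [h2]
      exact isAlgebraic_one
    refine ⟨⟨_, h3⟩, ?_⟩
    have h4 : algebraMap (kb k K) (L1 ℓ t₀) ⟨_, h3⟩ = e ρ / ρ := Subtype.ext rfl
    rw [h4, div_mul_cancel₀ _ hρ0]
  have hξ1 : ξ ≠ 1 := by
    rintro rfl
    rw [map_one, one_mul] at hξ
    exact hne hξ
  have hξ0 : ξ ≠ 0 := by
    rintro rfl
    rw [map_zero, zero_mul] at hξ
    exact hρ0 ((map_eq_zero_iff e e.injective).1 hξ)
  -- orders
  have hPd := down_pl hP
  have ho := od_spec (ff_LL hx hfin) hPd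
  have ho' := od_spec (fd_L1 hx hfin ht).ff hP
  obtain ⟨z, hz0, hz1⟩ := ho.surj
  obtain ⟨m, hm⟩ := ht.om_conj hx hfin σ (down P') hPd
  have ht0 : t ≠ 0 := by
    intro h0
    rw [h0, map_zero] at hρt
    exact hρ0 (pow_eq_zero_iff hl0 |>.1 hρt)
  have hw0 : z ^ m ≠ 0 := zpow_ne_zero _ hz0
  have hwo : od (kb k K) (down P') (z ^ m) = m := by
    rw [h1c_zpow ho z hz0, hz1, mul_one]
  have hu0 : t * ((z ^ m) ^ ℓ)⁻¹ ≠ 0 := mul_ne_zero ht0 (inv_ne_zero (pow_ne_zero _ hw0))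
  have huo : od (kb k K) (down P') (t * ((z ^ m) ^ ℓ)⁻¹) = 0 := by
    rw [ho.mul _ _ ht0 (inv_ne_zero (pow_ne_zero _ hw0)), h1c_inv ho _ (pow_ne_zero _ hw0),
      h1c_pow ho _ hw0, hwo, hm]
    ring
  have hiw0 : inc1 ℓ t₀ (z ^ m) ≠ 0 := (map_ne_zero (inc1 ℓ t₀)).2 hw0
  set η : L1 ℓ t₀ := ρ * (inc1 ℓ t₀ (z ^ m))⁻¹ with hη
  have hη0 : η ≠ 0 := mul_ne_zero hρ0 (inv_ne_zero hiw0)
  have hηl : η ^ ℓ = inc1 ℓ t₀ (t * ((z ^ m) ^ ℓ)⁻¹) := by
    rw [hη, mul_pow, hρt, map_mul, map_inv₀, map_pow, inv_pow]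
  have hηP : η ∈ P' := by
    apply j2e_le P' hl0
    rw [hηl]
    have : t * ((z ^ m) ^ ℓ)⁻¹ ∈ down P' := (ho.mem _ hu0).2 huo.ge
    exact this
  have hηP' : η⁻¹ ∈ P' := by
    apply j2e_le P' hl0
    rw [inv_pow, hηl, ← map_inv₀]
    have : (t * ((z ^ m) ^ ℓ)⁻¹)⁻¹ ∈ down P' := by
      refine (ho.mem _ (inv_ne_zero hu0)).2 ?_
      rw [h1c_inv ho _ hu0, huo, neg_zero]
    exact this
  have heη : e η = algebraMap (kb k K) (L1 ℓ t₀) ξ * η := by
    rw [hη, map_mul, map_inv₀, he, hξ, mul_assoc]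
  have hec : ∀ c : kb k K, e (algebraMap (kb k K) (L1 ℓ t₀) c) = algebraMap (kb k K) (L1 ℓ t₀) c :=
    fun c => by rw [← inc1_const t₀ c, he]
  obtain ⟨c, hc⟩ := ho'.res η hηP
  have hc0 : c ≠ 0 := by
    rintro rfl
    rw [map_zero, sub_zero] at hc
    rcases hc with h | h
    · exact hη0 h
    · have h2 := (ho'.mem _ (inv_ne_zero hη0)).1 hηP'
      rw [h1c_inv ho' _ hη0] at h2
      omega
  -- the residue
  have hv : P'.valuation (η - algebraMap (kb k K) (L1 ℓ t₀) c) < 1 := by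
    rcases hc with h | h
    · rw [h, map_zero]
      exact zero_lt_one
    · by_cases h0 : η - algebraMap (kb k K) (L1 ℓ t₀) c = 0
      · rw [h0, map_zero]
        exact zero_lt_one
      · exact j2e_lt ho' h0 h
  have hv1 := j2e_mv hmv hv
  rw [map_sub, hec, heη] at hv1
  have hv2 : P'.valuation (algebraMap (kb k K) (L1 ℓ t₀) ξ *
      (η - algebraMap (kb k K) (L1 ℓ t₀) c)) < 1 := by
    rw [map_mul, j2e_one hP hξ0, one_mul]
    exact hv
  have hv3 := P'.valuation.map_sub_lt hv1 hv2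
  have hcξ : (ξ - 1) * c ≠ 0 := mul_ne_zero (sub_ne_zero.2 hξ1) hc0
  have hv4 : algebraMap (kb k K) (L1 ℓ t₀) ξ * η - algebraMap (kb k K) (L1 ℓ t₀) c -
      algebraMap (kb k K) (L1 ℓ t₀) ξ * (η - algebraMap (kb k K) (L1 ℓ t₀) c) =
      algebraMap (kb k K) (L1 ℓ t₀) ((ξ - 1) * c) := by
    rw [map_mul, map_sub, map_one]
    ring
  rw [hv4, j2e_one hP hcξ] at hv3
  exact lt_irrefl _ hv3

end GT
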