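import Mathlib
import Pool.Agent.MP_c1dca2_ag.GT.A1
import Pool.Agent.MP_c1dca2_ag.GT.A10
import Pool.Agent.MP_c1dca2_ag.GT.A3
import Pool.Agent.MP_c1dca2_ag.GT.A3b
import Pool.Agent.MP_c1dca2_ag.GT.Base
import Pool.Agent.MP_c1dca2_ag.GT.C0
import Pool.Agent.MP_c1dca2_ag.GT.C0b
import Pool.Agent.MP_c1dca2_ag.GT.C2
import Pool.Agent.MP_c1dca2_ag.GT.C2b
import Pool.Agent.MP_c1dca2_ag.GT.C3
import Pool.Agent.MP_c1dca2_ag.GT.Defs
import Pool.Agent.MP_c1dca2_ag.GT.L1
import Pool.Agent.MP_c1dca2_ag.SUP.Defs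
import Pool.Agent.MP_c1dca2_ag.SUP.L1

set_option autoImplicit false
set_option linter.unusedSectionVars false

open Polynomial IsLocalRing

namespace GT

/-! ## [GT-T1b] a good representative of a torsion class -/

variable {F : Type} [Field F] [IsAlgClosed F] {V : ValuationSubring F} {d : ℕ} [NeZero d]
  {T : Tab V d} [hG : IsDedekindDomain (WB (T.map V.subtype))]
  [hG' : IsDedekindDomain (WB (T.map (residue V)))]

/-- Every torsion class contains an ideal without points in the residue disc of infinity: the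
generator of its `N`-th power has the leading coefficient `1`.

Proof. `exists_cls D⁻¹` gives `I ≠ ⊥` with `cls I = D⁻¹`, and `exists_large` (C2) gives `m`, `b` with
`inc b ∈ I`, `pord (inc b) ≤ m`, `rd b ≠ 0` and `m + len (rI I) ≤ pord (rd b) + len I`. As
`inc b ∈ I`, `(inc b) = I * J` (`Ideal.dvd_span_singleton`/`Ideal.dvd_iff_le`), `J ≠ ⊥`,
`cls J = D` (`cls_mul`, `cls_span`). `c3_gen` (C3) gives `γ₁`, `γ` with nonzero reductions,
`I ^ N = (inc γ₁)`, `J ^ N = (inc γ)`. So `(inc (b ^ N)) = (inc (γ₁ γ))`, and by `span_eq_iff` and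
`unit_of` (C0b; the reduction is a domain) `b ^ N = u (γ₁ γ)` up to a unit `u` of `V`, so
`(rd b) ^ N` and `rd γ₁ * rd γ` generate the same ideal, which is `(rI I) ^ N * (rI J) ^ N`
(`rI_pow`); by `eq_of_pow_eq` (L1) `(rd b) = rI I * rI J`. With `len_span`, `len_mul`:
`pord (rd b) = len (rI I) + len (rI J)`, `pord (inc b) = len I + len J ≤ m`. So
`len I + len J + len (rI I) ≤ m + len (rI I) ≤ len (rI I) + len (rI J) + len I`:
`len J ≤ len (rI J)`, and `len (rI J) ≤ len J` by `len_rI_le`. Hence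
`pord (rd γ) = N len (rI J) = N len J = pord (inc γ) = pord γ` (`len_pow`, `len_span`,
`pord_bmap`). The coefficient `lc γ` of weight `pord γ` of `γ` has the residue
`lcf (pord γ) (rd γ) = lc (rd γ) ≠ 0` (`lcf_bmap`, `lc_ne`), so it is a unit of `V`: divide `γ` by
it (`lc_smul`, `rd_smul`, `inc_smul`; the ideals do not change). -/
theorem exists_good {D : ClassGroup (WB (T.map V.subtype))} {N : ℕ} (hN : 0 < N)
    (hD : D ^ N = 1) : ∃ (J : Ideal (WB (T.map V.subtype))) (γ : WB T), J ≠ ⊥ ∧ cls J = D ∧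
      J ^ N = Ideal.span {inc T γ} ∧ lc γ = 1 ∧ rd T γ ≠ 0 ∧ pord (rd T γ) = pord γ ∧
      len (rI J) = len J := by
  obtain ⟨I, hI, hID⟩ := exists_cls D⁻¹
  obtain ⟨m, b, hbI, hbm, hb0, hlen⟩ := exists_large hI
  have hne : ∀ x : WB T, rd T x ≠ 0 → inc T x ≠ 0 := by
    intro x hx h0
    apply hx
    have h1 : x = 0 := inc_inj (h0.trans (map_zero _).symm)
    rw [h1, map_zero]
  have hib := hne b hb0
  have hbne : (Ideal.span {inc T b} : Ideal (WB (T.map V.subtype))) ≠ ⊥ := by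
    rwa [Ne, Ideal.span_singleton_eq_bot]
  have hrbne : (Ideal.span {rd T b} : Ideal (WB (T.map (residue V)))) ≠ ⊥ := by
    rwa [Ne, Ideal.span_singleton_eq_bot]
  have hdvd : I ∣ Ideal.span {inc T b} := by
    rw [Ideal.dvd_iff_le, Ideal.span_singleton_le_iff_mem]
    exact hbI
  obtain ⟨J, hJ⟩ := hdvd
  have hJne : J ≠ ⊥ := by
    intro h
    apply hbne
    rw [hJ, h]
    exact Ideal.mul_bot I
  have hclsJ : cls J = D := by
    have h1 : cls I * cls J = 1 := by
      rw [← cls_mul hI hJne, ← hJ, cls_span hib]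
    rw [hID] at h1
    exact (inv_mul_eq_one.1 h1).symm
  obtain ⟨γ₁, hγ₁, e₁⟩ := c3_gen (N := N) hI (by rw [hID, inv_pow, hD, inv_one])
  obtain ⟨γ, hγ, e₂⟩ := c3_gen (N := N) hJne (by rw [hclsJ, hD])
  have hrI := rI_ne_bot hI
  have hrJ := rI_ne_bot hJne
  -- the reduction of `(b) = I * J`
  have hrb : (Ideal.span {rd T b} : Ideal (WB (T.map (residue V)))) = rI I * rI J := by
    have h1 : (Ideal.span {inc T (γ₁ * γ)} : Ideal (WB (T.map V.subtype))) =
        Ideal.span {inc T (b ^ N)} := by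
      rw [map_mul, map_pow, ← Ideal.span_singleton_mul_span_singleton, ← e₁, ← e₂, ← mul_pow,
        ← hJ, Ideal.span_singleton_pow]
    obtain ⟨r, hr, h2⟩ := span_eq_iff.1 h1
    have h3 : rd T (b ^ N) ≠ 0 := by
      rw [map_pow]
      exact pow_ne_zero N hb0
    have h4 : rd T (γ₁ * γ) ≠ 0 := by
      rw [map_mul]
      exact mul_ne_zero hγ₁ hγ
    obtain ⟨u, hu, -, h5⟩ := unit_of (b ^ N) (γ₁ * γ) r h3 h4 h2
    have h6 : residue V u ≠ 0 := residue_ne_zero_iff_isUnit u |>.2 hu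
    have h7 : (Ideal.span {rd T (γ₁ * γ)} : Ideal (WB (T.map (residue V)))) =
        Ideal.span {rd T (b ^ N)} := by
      rw [span_eq_iff]
      exact ⟨residue V u, h6, by rw [h5, rd_smul]⟩
    refine eq_of_pow_eq hrbne (mul_ne_zero hrI hrJ) hN ?_
    rw [Ideal.span_singleton_pow, ← map_pow, ← h7, mul_pow, rI_pow hI hN γ₁ hγ₁ e₁,
      rI_pow hJne hN γ hγ e₂, Ideal.span_singleton_mul_span_singleton, map_mul]
  have hl1 : pord (rd T b) = len (rI I) + len (rI J) := by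
    rw [← len_span hb0, hrb, len_mul hrI hrJ]
  have hl2 : pord (inc T b) = len I + len J := by
    rw [← len_span hib, hJ, len_mul hI hJne]
  have hl3 := len_rI_le hJne
  have hl4 : len (rI J) = len J := by omega
  have hp1 : pord (rd T γ) = N * len (rI J) := by
    rw [← len_span hγ, ← rI_pow hJne hN γ hγ e₂, len_pow hrJ]
  have hp2 : pord γ = N * len J := by
    have h1 : pord (inc T γ) = pord γ := pord_bmap V.subtype rfl V.subtype_injective γ
    rw [← h1, ← len_span (hne γ hγ), ← e₂, len_pow hJne]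
  have hp3 : pord (rd T γ) = pord γ := by rw [hp1, hp2, hl4]
  have hlc : residue V (lc γ) ≠ 0 := by
    have h1 : lcf (T.map (residue V)) (pord γ) (rd T γ) = residue V (lcf T (pord γ) γ) :=
      lcf_bmap (residue V) rfl (pord γ) γ
    have h2 : lc (rd T γ) ≠ 0 := lc_ne hγ
    unfold lc at h2 ⊢
    rw [hp3, h1] at h2
    exact h2
  obtain ⟨u, hu⟩ := (residue_ne_zero_iff_isUnit (lc γ)).1 hlc
  have huv : residue V ((u⁻¹ : Vˣ) : V) ≠ 0 := (residue_ne_zero_iff_isUnit _).2 (u⁻¹).isUnit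
  have huF : (((u⁻¹ : Vˣ) : V) : F) ≠ 0 := by
    intro h
    exact (u⁻¹).ne_zero (Subtype.ext h)
  refine ⟨J, ((u⁻¹ : Vˣ) : V) • γ, hJne, hclsJ, ?_, ?_, ?_, ?_, hl4⟩
  · rw [e₂, inc_smul, span_eq_iff]
    exact ⟨_, huF, rfl⟩
  · rw [lc_smul, ← hu, Units.inv_mul]
  · rw [rd_smul]
    exact fun h => (smul_ne_zero huv hγ) h
  · rw [rd_smul, pord_smul huv, pord_smul (u⁻¹).ne_zero, hp3]

end GT
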