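import Mathlib
import Pool.Agent.MP_c1dca2_ag.GT.Base
import Pool.Agent.MP_c1dca2_ag.GT.Defs
import Pool.Agent.MP_c1dca2_ag.GT.P0
import Pool.Agent.MP_c1dca2_ag.GT.P8d
import Pool.Agent.MP_c1dca2_ag.GT.V1b
import Pool.Agent.MP_c1dca2_ag.SUP.Defs

set_option autoImplicit false

open Polynomial

namespace GT

/-! ## [GT-V1c] an `ℓ`-th root of `1 - a X`; functions with given polar parts -/

variable {C L : Type} [Field C] [Field L] [Algebra C L] {O₁ : ValuationSubring L} {d : ℕ} [NeZero d] {T : Tab C d}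
  {E : WB T →+* L}

/-- Course-of-values recursion. -/
noncomputable def v1c_rec {W : Type} (F : (j : ℕ) → (Fin j → W) → W) : ℕ → W
  | j => F j (fun i => v1c_rec F i.1)
termination_by j => j
decreasing_by exact i.2

theorem v1c_rec_eq {W : Type} (F : (j : ℕ) → (Fin j → W) → W) (j : ℕ) :
    v1c_rec F j = F j (fun i => v1c_rec F i.1) := by
  rw [v1c_rec]

/-- The series `φ`.

Proof. `φ_0` := an element of pole order `n`. Recursively (strong recursion on `j`, `Nat.strongRec` or `Classical.choose`) `φ_j := - r` where `r` is given by `exists_polar` for `f = ∑_{i<j} E(φ_i) b_{j-i}`; the coefficient of `X ^ j` in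
`(map E φ) * b` is `E (φ_j) + f = f - E r` (`b_0 = 1`, `PowerSeries.coeff_mul`, antidiagonal). For `j = 0` it is `E φ_0`, of order `-n`. -/
theorem exists_phi (hO : IsPl C O₁) (h : Model O₁ T E) {o : L → ℤ} (ho : IsOrd C O₁ o) {n : ℕ}
    (hn : ∀ m : ℕ, n ≤ m → ∃ r : WB T, r ≠ 0 ∧ pord r = m) (b : PowerSeries L) (hb : PowerSeries.constantCoeff b = 1) :
    ∃ φ : PowerSeries (WB T), PowerSeries.constantCoeff φ ≠ 0 ∧ pord (PowerSeries.constantCoeff φ) = n ∧
      ∀ j : ℕ, PowerSeries.coeff j (PowerSeries.map E φ * b) = 0 ∨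
        -(n : ℤ) ≤ o (PowerSeries.coeff j (PowerSeries.map E φ * b)) := by
  classical
  obtain ⟨r₀, hr₀, hpr₀⟩ := hn n le_rfl
  choose R hR using exists_polar hO h ho hn
  set F : (j : ℕ) → (Fin j → WB T) → WB T := fun j ih =>
    if j = 0 then r₀ else -R (∑ i : Fin j, E (ih i) * PowerSeries.coeff (j - i.1) b) with hF
  set φ : ℕ → WB T := v1c_rec F with hφ
  have h0 : φ 0 = r₀ := by
    rw [hφ, v1c_rec_eq, hF]
    simp
  have hs : ∀ j : ℕ, j ≠ 0 → φ j = -R (∑ i ∈ Finset.range j, E (φ i) * PowerSeries.coeff (j - i) b) := by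
    intro j hj
    have h1 := v1c_rec_eq F j
    rw [← hφ] at h1
    rw [h1, hF]
    simp only [if_neg hj]
    rw [← Finset.sum_range (fun i => E (φ i) * PowerSeries.coeff (j - i) b)]
  have hcoef : ∀ j : ℕ, PowerSeries.coeff j (PowerSeries.map E (PowerSeries.mk φ) * b) =
      (∑ i ∈ Finset.range j, E (φ i) * PowerSeries.coeff (j - i) b) + E (φ j) := by
    intro j
    rw [PowerSeries.coeff_mul, Finset.Nat.sum_antidiagonal_eq_sum_range_succ_mk, Finset.sum_range_succ]
    simp only [PowerSeries.coeff_map, PowerSeries.coeff_mk, Nat.sub_self]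
    rw [PowerSeries.coeff_zero_eq_constantCoeff_apply, hb, mul_one]
  refine ⟨PowerSeries.mk φ, ?_, ?_, ?_⟩
  · rw [← PowerSeries.coeff_zero_eq_constantCoeff_apply, PowerSeries.coeff_mk, h0]
    exact hr₀
  · rw [← PowerSeries.coeff_zero_eq_constantCoeff_apply, PowerSeries.coeff_mk, h0]
    exact hpr₀
  · intro j
    rw [hcoef]
    by_cases hj : j = 0
    · right
      subst hj
      rw [Finset.range_zero, Finset.sum_empty, zero_add, h0, h.ordo o ho r₀ hr₀, hpr₀]
    · have h2 := hR (∑ i ∈ Finset.range j, E (φ i) * PowerSeries.coeff (j - i) b)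
      rw [hs j hj, map_neg, ← sub_eq_add_neg]
      exact h2

end GT
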