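import Mathlib
import Pool.Agent.MP_c1dca2_ag.GT.Base
import Pool.Agent.MP_c1dca2_ag.GT.Defs
import Pool.Agent.MP_c1dca2_ag.SUP.Defs
import Pool.Agent.MP_c1dca2_ag.SUP.L1

set_option autoImplicit false

open Polynomial

namespace GT

/-! ## [GT-V6a] the generic point is `ℓ` times a class -/

variable {C L : Type} [Field C] [Field L] [Algebra C L] {O₁ : ValuationSubring L} {d : ℕ} [NeZero d] {T : Tab C d}
  {E : WB T →+* L}

/-- An abstract form of the last step.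

Proof. `len (J ^ ℓ) = ℓ * len J = len J'` and `J ^ ℓ ≤ J'`, so `J ^ ℓ = J'` (`SUP.len_pow`, `SUP.eq_of_len_eq`). `P` is maximal and `J' ≰ P`, so `P ⊔ J' = ⊤`, `P ⊓ J' = P * J'` (`Ideal.inf_eq_mul_of_isCoprime`), `(F) ≤ P * J'` and the lengths agree (`SUP.len_mul`, `SUP.len_maximal`), so `(F) = P * J'`. -/
theorem factor_of_len {B : Type} [CommRing B] [IsDedekindDomain B] (ℓ : ℕ) {P J J' : Ideal B} {F : B} (hP : P.IsMaximal)
    (hP0 : P ≠ ⊥) (hJ : J ≠ ⊥) (hJJ : J ^ ℓ ≤ J') (hl : len J' = ℓ * len J) (hF0 : F ≠ 0) (hFP : F ∈ P) (hFJ : F ∈ J')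
    (hJP : ¬ J' ≤ P) (hlF : len (Ideal.span {F}) = len J' + 1) : Ideal.span {F} = P * J ^ ℓ := by
  have hJl : J ^ ℓ ≠ ⊥ := pow_ne_zero ℓ hJ
  have hJ'0 : J' ≠ ⊥ := by
    rintro rfl
    exact hF0 (Ideal.mem_bot.1 hFJ)
  have h1 : J ^ ℓ = J' := SUP.eq_of_len_eq hJl hJJ (by rw [SUP.len_pow hJ, hl])
  have h2 : P ⊔ J' = ⊤ := hP.out.2 _ (lt_of_le_of_ne le_sup_left fun h => hJP (by
    rw [h]
    exact le_sup_right))
  have h3 : P ⊓ J' = P * J' := Ideal.inf_eq_mul_of_isCoprime (Ideal.isCoprime_iff_sup_eq.2 h2)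
  have hF : (Ideal.span {F} : Ideal B) ≠ ⊥ := by
    rwa [Ne, Ideal.span_singleton_eq_bot]
  have h4 : Ideal.span {F} ≤ P * J' := by
    rw [← h3, Ideal.span_singleton_le_iff_mem]
    exact ⟨hFP, hFJ⟩
  rw [h1]
  refine SUP.eq_of_len_eq hF h4 ?_
  rw [hlF, SUP.len_mul hP0 hJ'0, SUP.len_maximal hP hP0, add_comm]

end GT
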